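import Pool.Agent.Lib.MP_17a322_nt.VP.CF
import Pool.Agent.Lib.MP_17a322_nt.VA.A1
import Pool.Agent.Lib.MP_17a322_nt.VN.C11

/-!
Roth's theorem over abelian varieties, part C: the height of the matrix of the linear equations, the
height of the polynomial with given coefficients.
-/

universe u

namespace Pool.Agent.Lib.MP_17a322_nt.VP

open MvPolynomial Height
open Pool.Agent.Lib.MP_17a322_nt.RO
open Pool.Agent.Lib.MP_17a322_nt.VJ
open Pool.Agent.Lib.MP_17a322_nt.VN
open Pool.Agent.Lib.MP_17a322_nt.VA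

/-! ### Heights of pairs of polynomials -/

section

variable {K : Type*} [Field K] [AdmissibleAbsValues K] {σ : Type*}

omit [AdmissibleAbsValues K] in
theorem C_max_pos (v : AbsoluteValue K ℝ) {α β : MvPolynomial σ K} (hβ : β ≠ 0) :
    0 < max (NV v α) (NV v β) :=
  (NV_pos v hβ).trans_le (le_max_right _ _)

theorem C_FS_ht2 (α : MvPolynomial σ K) {β : MvPolynomial σ K} (hβ : β ≠ 0) :
    FS fun v : AbsoluteValue K ℝ => Real.log (max (NV v α) (NV v β)) := by
  have h1 : FS fun v : AbsoluteValue K ℝ => Real.log (NV v β) := FS_log_NV hβ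
  by_cases hα : α = 0
  · have h2 : (fun v : AbsoluteValue K ℝ => Real.log (max (NV v α) (NV v β))) =
        fun v => Real.log (NV v β) := by
      funext v
      have h3 : NV v α ≤ NV v β := by
        rw [hα]
        have h4 := NV_C_mul v (0 : K) (0 : MvPolynomial σ K)
        rw [map_zero, mul_zero, map_zero, zero_mul] at h4
        rw [h4]
        exact (NV_pos v hβ).le
      rw [max_eq_right h3]
    rw [h2]
    exact h1
  have h2 : FS fun v : AbsoluteValue K ℝ => Real.log (NV v α) := FS_log_NV hα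
  unfold FS at h1 h2 ⊢
  refine (h1.union h2).subset fun v hv => ?_
  by_contra hc
  rw [Set.mem_union, not_or] at hc
  have h3 : Real.log (NV v.val β) = 0 := not_not.1 hc.1
  have h4 : Real.log (NV v.val α) = 0 := not_not.1 hc.2
  have h5 : NV v.val β = 1 := Real.eq_one_of_pos_of_log_eq_zero (NV_pos v.val hβ) h3
  have h6 : NV v.val α = 1 := Real.eq_one_of_pos_of_log_eq_zero (NV_pos v.val hα) h4
  apply hv
  show Real.log (max (NV v.val α) (NV v.val β)) = 0
  rw [h5, h6, max_self, Real.log_one]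

theorem C_ht2_smul {α β : MvPolynomial σ K} (hβ : β ≠ 0) {c : K} (hc : c ≠ 0) :
    ht2 (C c * α) (C c * β) = ht2 α β := by
  unfold ht2
  have h1 : (fun v : AbsoluteValue K ℝ => Real.log (max (NV v (C c * α)) (NV v (C c * β)))) =
      fun v => Real.log (v c) + Real.log (max (NV v α) (NV v β)) := by
    funext v
    rw [NV_C_mul, NV_C_mul, ← mul_max_of_nonneg _ _ (v.nonneg c),
      Real.log_mul (v.pos hc).ne' (C_max_pos v hβ).ne']
  rw [h1, gs_add (FS_log_abv hc) (C_FS_ht2 α hβ), gs_log_abv hc, zero_add]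

end

/-! ### The polynomial with given coefficients -/

section

variable {K : Type*} [Field K] {m n : ℕ}

theorem C_coeff_F (B : VF m n → ℕ) (c : (VF m n → ℕ) → K) (q : VF m n →₀ ℕ) :
    coeff q (C_F B c) = if (fun t => q t) ∈ box (fun t => B t + 1) then c fun t => q t else 0 := by
  classical
  unfold C_F
  rw [coeff_sum]
  have h1 : ∀ d ∈ box (fun t => B t + 1),
      coeff q (monomial (Finsupp.equivFunOnFinite.symm d) (c d)) =
        if d = (fun t => q t) then c fun t => q t else 0 := by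
    intro d _
    rw [coeff_monomial]
    by_cases h2 : d = fun t => q t
    · have h3 : (Finsupp.equivFunOnFinite.symm d : VF m n →₀ ℕ) = q := by
        ext t
        rw [h2]
        rfl
      rw [if_pos h3, if_pos h2, h2]
    · have h3 : (Finsupp.equivFunOnFinite.symm d : VF m n →₀ ℕ) ≠ q := by
        intro h3
        apply h2
        funext t
        rw [← h3]
        rfl
      rw [if_neg h3, if_neg h2]
  rw [Finset.sum_congr rfl h1, Finset.sum_ite_eq']

theorem C_degreeOf_F (B : VF m n → ℕ) (c : (VF m n → ℕ) → K) (t : VF m n) :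
    (C_F B c).degreeOf t ≤ B t := by
  classical
  rw [degreeOf_le_iff]
  intro q hq
  rw [mem_support_iff, C_coeff_F] at hq
  have h1 : (fun t => q t) ∈ box (fun t => B t + 1) := by
    by_contra h
    rw [if_neg h] at hq
    exact hq rfl
  exact Nat.lt_succ_iff.1 ((mem_box _ _).1 h1 t)

theorem C_F_ne {B : VF m n → ℕ} {c : (VF m n → ℕ) → K} {d : VF m n → ℕ}
    (hd : d ∈ box (fun t => B t + 1)) (hc : c d ≠ 0) : C_F B c ≠ 0 := by
  intro h
  have h1 := C_coeff_F B c (Finsupp.equivFunOnFinite.symm d)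
  rw [h, coeff_zero] at h1
  have h2 : (fun t => (Finsupp.equivFunOnFinite.symm d : VF m n →₀ ℕ) t) = d := rfl
  rw [h2, if_pos hd] at h1
  exact hc h1.symm

theorem C_nh_F [AdmissibleAbsValues K] {B : VF m n → ℕ} {c : (VF m n → ℕ) → K}
    (hF : C_F B c ≠ 0) (hc : (fun d : box (fun t => B t + 1) => c d) ≠ 0) :
    nh (C_F B c) ≤ logHeight (fun d : box (fun t => B t + 1) => c d) +
      totalWeight K * Real.log (box (fun t => B t + 1)).card := by
  classical
  obtain ⟨d₀, hd₀⟩ := Function.ne_iff.mp hc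
  have hcard : 1 ≤ (box (fun t => B t + 1)).card := Finset.card_pos.mpr ⟨d₀.1, d₀.2⟩
  have hpos : ∀ v : AbsoluteValue K ℝ,
      0 < ⨆ d : box (fun t => B t + 1), v (c d) := fun v =>
    (v.pos hd₀).trans_le (le_ciSup (f := fun d : box (fun t => B t + 1) => v (c d))
      (Set.finite_range _).bddAbove d₀)
  have hcpos : ∀ v : AbsoluteValue K ℝ, 0 < cst v (box (fun t => B t + 1)).card :=
    fun v => zero_lt_one.trans_le (one_le_cst v hcard)
  have hsup : (C_F B c).support.card ≤ (box (fun t => B t + 1)).card := by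
    refine Finset.card_le_card_of_injOn (fun q t => q t) (fun q hq => ?_) fun q _ q' _ h => ?_
    · have h1 := mem_support_iff.1 (Finset.mem_coe.1 hq)
      rw [C_coeff_F] at h1
      by_contra h
      exact h1 (if_neg h)
    · exact Finsupp.ext fun t => congrFun h t
  unfold nh
  rw [← gs_log_iSup hc]
  have h1 := gs_log_cst (L := K) hcard
  have h2 : gs (fun v => Real.log (NV v (C_F B c))) ≤
      gs (fun v => Real.log (⨆ d : box (fun t => B t + 1), v (c d)) +
        Real.log (cst v (box (fun t => B t + 1)).card)) := by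
    refine gs_le (FS_log_NV hF) (FS_add (FS_log_iSup hc) (FS_log_cst _)) fun v _ => ?_
    rw [← Real.log_mul (hpos v).ne' (hcpos v).ne', mul_comm]
    refine Real.log_le_log (NV_pos v hF) ((NV_le_of_coeff v (C_F B c) (hpos v).le
      fun q => ?_).trans (mul_le_mul_of_nonneg_right (cst_mono v hsup) (hpos v).le))
    rw [C_coeff_F]
    by_cases hq : (fun t => q t) ∈ box (fun t => B t + 1)
    · rw [if_pos hq]
      exact le_ciSup (f := fun d : box (fun t => B t + 1) => v (c d))
        (Set.finite_range _).bddAbove ⟨_, hq⟩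
    · rw [if_neg hq, map_zero]
      exact (hpos v).le
  rw [gs_add (FS_log_iSup hc) (FS_log_cst _)] at h2
  linarith

end

/-! ### The height of the matrix -/

theorem C_matrix_height {K : Type u} [Field K] [NumberField K] {N : ℕ} {A : AV K N} {n e₀ : ℕ}
    (nd : Noe A n e₀) (D m r : ℕ) :
    ∃ C : ℝ, 0 ≤ C ∧ ∀ (J : ℕ) (j : Fin m → ℕ) (α β : Fin m → Fin r → MvPolynomial (Fin (N + 1)) K),
      (∀ i, j i ≤ J) → (∀ i l, ∀ s ∈ (α i l).support, ∑ t, s t ≤ D) →
      (∀ i l, ∀ s ∈ (β i l).support, ∑ t, s t ≤ D) → (∀ i l, β i l ≠ 0) →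
      (∀ i l (v : AbsoluteValue K ℝ), 1 ≤ max (NV v (α i l)) (NV v (β i l))) →
      (∀ i l, ht2 (α i l) (β i l) ≤ 4 ^ j i) → ∀ (ι : Type) [Finite ι] (x : ι → K),
      (∀ p, ∃ (l : Fin r) (w : Fin m → ℕ) (r' : Fin (e₀ + 1)) (ρ' : Fin m → Fin (C_d nd + 1))
        (q₀ : Fin n → ℕ) (q : Fin m → Fin n → ℕ) (d : VF m n → ℕ),
          (∀ i, d (VF.u i) ≤ 4 ^ (J - j i)) ∧ (∀ i, d (VF.th i) ≤ C_d nd) ∧
          x p = C_MC nd j (fun i => 4 ^ (J - j i)) (fun i => α i l) (fun i => β i l)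
            w r' ρ' q₀ q d) →
      logHeight x ≤ C * 4 ^ J := by
  classical
  obtain ⟨E₁, hE₁⟩ := exists_C_MC_le nd D
  obtain ⟨C₁, hC₁0, hC₁⟩ := E₁.gs_log_le
  set f : ℝ := (Module.finrank ℚ K : ℝ) with hf
  have hf0 : 0 ≤ f := Nat.cast_nonneg _
  refine ⟨m * (C₁ * f) + m * r, by positivity, ?_⟩
  intro J j α β hj hα hβ hβ0 h1v hht ι _ x hx
  have h4J : (0 : ℝ) ≤ 4 ^ J := by positivity
  by_cases hx0 : x = 0
  · rw [hx0, logHeight_zero]
    positivity
  rw [← gs_log_iSup hx0]
  have hbj : ∀ i, 4 ^ (J - j i) * 4 ^ j i = 4 ^ J := by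
    intro i
    rw [← pow_add, Nat.sub_add_cancel (hj i)]
  let kf : AbsoluteValue K ℝ → ℝ := fun v => Real.log (E₁.k v)
  let hf' : Fin m → Fin r → AbsoluteValue K ℝ → ℝ := fun i l v =>
    Real.log (max (NV v (α i l)) (NV v (β i l)))
  have hF1 : FS (fun v : AbsoluteValue K ℝ => ((m * 4 ^ J : ℕ) : ℝ) * kf v) :=
    FS_const_mul _ (E₁.FS_log K)
  have hF2 : ∀ (i : Fin m) (l : Fin r), FS (hf' i l) := fun i l => C_FS_ht2 (α i l) (hβ0 i l)
  have hF2' : ∀ i : Fin m, FS (fun v : AbsoluteValue K ℝ => ∑ l, hf' i l v) :=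
    fun i => FS_sum _ fun l _ => hF2 i l
  have hF2'' : ∀ i : Fin m, FS (fun v : AbsoluteValue K ℝ =>
      ((4 ^ (J - j i) : ℕ) : ℝ) * ∑ l, hf' i l v) := fun i => FS_const_mul _ (hF2' i)
  have hF3 : FS (fun v : AbsoluteValue K ℝ => ∑ i,
      ((4 ^ (J - j i) : ℕ) : ℝ) * ∑ l, hf' i l v) :=
    FS_sum _ fun i _ => hF2'' i
  refine (gs_le (FS_log_iSup hx0) (FS_add hF1 hF3) fun v _ => ?_).trans ?_
  · obtain ⟨p, hp⟩ := Function.ne_iff.mp hx0
    have : Nonempty ι := ⟨p⟩
    have hk1 : 1 ≤ E₁.k v := E₁.one_le v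
    obtain ⟨R, hR⟩ : ∃ R : Fin m → ℝ, R = fun i => ∏ l, max (NV v (α i l)) (NV v (β i l)) :=
      ⟨_, rfl⟩
    have hR1 : ∀ i, 1 ≤ R i := by
      intro i
      rw [hR]
      exact E1_one_le_prod _ _ fun l => h1v i l v
    have hRl : ∀ i l, max 1 (max (NV v (α i l)) (NV v (β i l))) ≤ R i := by
      intro i l
      rw [max_eq_right (h1v i l v), hR]
      show _ ≤ ∏ l, max (NV v (α i l)) (NV v (β i l))
      rw [← Finset.mul_prod_erase Finset.univ _ (Finset.mem_univ l)]
      refine le_mul_of_one_le_right (zero_le_one.trans (h1v i l v)) ?_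
      exact Finset.prod_induction _ (fun a : ℝ => 1 ≤ a)
        (fun a b => one_le_mul_of_one_le_of_one_le) le_rfl fun l' _ => h1v i l' v
    have hpos : 0 < ⨆ i, v (x i) :=
      (v.pos hp).trans_le (le_ciSup (f := fun i => v (x i)) (Set.finite_range _).bddAbove p)
    have hle : ⨆ i, v (x i) ≤ E₁.k v ^ (m * 4 ^ J) * ∏ i, R i ^ (4 ^ (J - j i)) := by
      refine ciSup_le fun b => ?_
      obtain ⟨l, w, r', ρ', q₀, q, d, hdu, hdt, hxb⟩ := hx b
      rw [hxb]
      refine (hE₁ v j (fun i => 4 ^ (J - j i)) (fun i => α i l) (fun i => β i l) w r' ρ' q₀ q d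
        (fun i => hα i l) (fun i => hβ i l) hdu hdt
        (fun i => Nat.one_le_pow _ _ (by norm_num))).trans ?_
      rw [Finset.prod_mul_distrib]
      have h1 : ∏ i : Fin m, E₁.k v ^ (4 ^ (J - j i) * 4 ^ j i) = E₁.k v ^ (m * 4 ^ J) := by
        rw [Finset.prod_congr rfl fun i _ => by rw [hbj i], Finset.prod_const, Finset.card_univ,
          Fintype.card_fin, ← pow_mul, mul_comm]
      rw [h1]
      refine mul_le_mul_of_nonneg_left ?_ (by positivity)
      refine Finset.prod_le_prod (fun i _ => by positivity) fun i _ => ?_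
      exact pow_le_pow_left₀ (by positivity) (hRl i l) _
    have h1 := Real.log_le_log hpos hle
    have hRp : ∀ i, 1 ≤ R i ^ (4 ^ (J - j i)) := fun i => one_le_pow₀ (hR1 i)
    rw [Real.log_mul (zero_lt_one.trans_le (one_le_pow₀ hk1)).ne'
      (zero_lt_one.trans_le (E1_one_le_prod _ _ hRp)).ne',
      Real.log_pow, Real.log_prod (fun i _ => (zero_lt_one.trans_le (hRp i)).ne')] at h1
    refine h1.trans (le_of_eq ?_)
    refine congrArg (fun z => ((m * 4 ^ J : ℕ) : ℝ) * Real.log (E₁.k v) + z)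
      (Finset.sum_congr rfl fun i _ => ?_)
    rw [Real.log_pow, hR]
    show ((4 ^ (J - j i) : ℕ) : ℝ) * Real.log (∏ l, max (NV v (α i l)) (NV v (β i l))) = _
    rw [Real.log_prod fun l _ => (zero_lt_one.trans_le (h1v i l v)).ne']
  · rw [gs_add hF1 hF3, gs_sum _ (fun i _ => hF2'' i)]
    have h2 : gs (fun v : AbsoluteValue K ℝ => ((m * 4 ^ J : ℕ) : ℝ) * kf v) ≤
        m * (C₁ * f) * 4 ^ J := by
      rw [gs_const_mul]
      refine (mul_le_mul_of_nonneg_left (hC₁ K) (Nat.cast_nonneg _)).trans (le_of_eq ?_)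
      push_cast
      ring
    have h3 : ∀ i : Fin m, gs (fun v : AbsoluteValue K ℝ =>
        ((4 ^ (J - j i) : ℕ) : ℝ) * ∑ l, hf' i l v) ≤ r * 4 ^ J := by
      intro i
      rw [gs_const_mul, gs_sum _ (fun l _ => hF2 i l)]
      have h4 : ∑ l : Fin r, gs (hf' i l) ≤ r * 4 ^ j i := by
        refine (Finset.sum_le_sum fun l _ => hht i l).trans (le_of_eq ?_)
        rw [Finset.sum_const, Finset.card_univ, Fintype.card_fin, nsmul_eq_mul]
      refine (mul_le_mul_of_nonneg_left h4 (Nat.cast_nonneg _)).trans (le_of_eq ?_)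
      have h5 : ((4 ^ (J - j i) : ℕ) : ℝ) * 4 ^ j i = 4 ^ J := by
        have := hbj i
        exact_mod_cast this
      rw [mul_left_comm, h5]
    have h15 := Finset.sum_le_sum fun i (_ : i ∈ Finset.univ) => h3 i
    rw [Finset.sum_const, Finset.card_univ, Fintype.card_fin, nsmul_eq_mul] at h15
    refine (add_le_add h2 h15).trans (le_of_eq ?_)
    ring

end Pool.Agent.Lib.MP_17a322_nt.VP
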