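import Pool.Agent.Lib.MP_17a322_nt.VP.EN2
import Mathlib.Combinatorics.Nullstellensatz

/-!
Roth's theorem over abelian varieties, part E: a polynomial which is reduced in the primitive elements
and vanishes at a generic point is zero.
-/

universe u

namespace Pool.Agent.Lib.MP_17a322_nt.VP

open MvPolynomial
open Pool.Agent.Lib.MP_17a322_nt.RO
open Pool.Agent.Lib.MP_17a322_nt.VJ
open Pool.Agent.Lib.MP_17a322_nt.VN
open Pool.Agent.Lib.MP_17a322_nt.VA

section

variable {K : Type u} [Field K] {N : ℕ} {A : AV K N} {n e : ℕ} (nd : Noe A n e)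

theorem EN_all {m : ℕ} {Ω : Type u} [Field Ω] [Algebra K Ω] {x : Fin n → Ω}
    {z : Fin m × Fin n → Ω} {w : Fin m → Ω}
    (hind : AlgebraicIndependent K (Sum.elim x (Sum.elim z w))) {t t' : Fin m → Ω}
    (ht : ∀ i, nd.Φ.eval₂ (aeval fun a => z (i, a)).toRingHom (t i) = 0)
    (ht' : ∀ i, nd.Φ.eval₂ (aeval fun a => z (i, a)).toRingHom (t' i) = 0)
    {F : MvPolynomial (VF m n) K} (hF : aeval (vf x t z w) F = 0) :
    aeval (vf x t' z w) F = 0 := by
  classical
  have key : ∀ S : Finset (Fin m),
      aeval (vf x (fun i => if i ∈ S then t' i else t i) z w) F = 0 := by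
    intro S
    induction S using Finset.induction_on with
    | empty =>
      have h1 : (fun i => if i ∈ (∅ : Finset (Fin m)) then t' i else t i) = t := by
        funext i
        rw [if_neg (Finset.notMem_empty i)]
      rw [h1]
      exact hF
    | insert i S _ ih =>
      have h1 : (fun j => if j ∈ insert i S then t' j else t j) =
          Function.update (fun j => if j ∈ S then t' j else t j) i (t' i) := by
        funext j
        by_cases hj : j = i
        · rw [hj, Function.update_self, if_pos (Finset.mem_insert_self i S)]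
        · rw [Function.update_of_ne hj]
          exact if_congr (by rw [Finset.mem_insert, or_iff_right hj]) rfl rfl
      rw [h1]
      refine EN_step nd hind (fun j => ?_) i (ht' i) ih
      by_cases hj : j ∈ S
      · rw [if_pos hj]
        exact ht' j
      · rw [if_neg hj]
        exact ht j
  have h2 := key Finset.univ
  have h3 : (fun i => if i ∈ (Finset.univ : Finset (Fin m)) then t' i else t i) = t' := by
    funext i
    rw [if_pos (Finset.mem_univ i)]
  rw [h3] at h2
  exact h2

/-- The roots of the equation of the primitive element. -/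
theorem EN_roots {Ω : Type u} [Field Ω] [Algebra K Ω] [IsAlgClosed Ω] (s : Fin n → Ω)
    (hs : aeval s nd.δ ≠ 0) : ∃ S : Finset Ω, S.card = nd.Φ.natDegree ∧
      ∀ r, r ∈ S ↔ nd.Φ.eval₂ (aeval s : MvPolynomial (Fin n) K →ₐ[K] Ω).toRingHom r = 0 := by
  classical
  obtain ⟨φ, hφ⟩ : ∃ φ : MvPolynomial (Fin n) K →+* Ω, φ = (aeval s).toRingHom := ⟨_, rfl⟩
  rw [← hφ]
  obtain ⟨a, b, hab⟩ := nd.sep
  have h1 := congrArg (Polynomial.map φ) hab
  rw [Polynomial.map_add, Polynomial.map_mul, Polynomial.map_mul, Polynomial.map_C,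
    ← Polynomial.derivative_map] at h1
  have hδ : φ nd.δ ≠ 0 := by
    rw [hφ]
    exact hs
  have hsep : (nd.Φ.map φ).Separable := by
    refine ⟨Polynomial.C (φ nd.δ)⁻¹ * a.map φ, Polynomial.C (φ nd.δ)⁻¹ * b.map φ, ?_⟩
    rw [mul_assoc, mul_assoc, ← mul_add, h1, ← Polynomial.C_mul, inv_mul_cancel₀ hδ,
      Polynomial.C_1]
  have hne : nd.Φ.map φ ≠ 0 := (nd.Φ_monic.map _).ne_zero
  refine ⟨(nd.Φ.map φ).roots.toFinset, ?_, fun r => ?_⟩
  · rw [Multiset.toFinset_card_of_nodup (Polynomial.nodup_roots hsep),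
      ← nd.Φ_monic.natDegree_map φ]
    exact (Polynomial.splits_iff_card_roots.1 (IsAlgClosed.splits _))
  · rw [Multiset.mem_toFinset, Polynomial.mem_roots hne, Polynomial.IsRoot.def,
      Polynomial.eval_map]

theorem EN_degreeOf {R S σ τ : Type*} [CommRing R] [CommRing S] [Algebra R S] [Fintype σ]
    (g : σ → MvPolynomial τ S) (F : MvPolynomial σ R) (i : τ) (q₀ : σ)
    (h1 : degreeOf i (g q₀) ≤ 1) (h2 : ∀ q, q ≠ q₀ → degreeOf i (g q) = 0) :
    degreeOf i (aeval g F) ≤ degreeOf q₀ F := by
  classical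
  rw [aeval_def, eval₂_eq']
  refine (degreeOf_sum_le _ _ _).trans (Finset.sup_le fun d hd => ?_)
  refine (degreeOf_mul_le _ _ _).trans ?_
  have h3 : degreeOf i (algebraMap R (MvPolynomial τ S) (coeff d F)) = 0 := by
    rw [MvPolynomial.algebraMap_apply, degreeOf_C]
  rw [h3, zero_add]
  refine (degreeOf_prod_le _ _ _).trans ?_
  rw [Finset.sum_eq_single q₀]
  · refine (degreeOf_pow_le _ _ _).trans ?_
    calc d q₀ * degreeOf i (g q₀) ≤ d q₀ * 1 := Nat.mul_le_mul_left _ h1
      _ = d q₀ := mul_one _
      _ ≤ _ := monomial_le_degreeOf q₀ hd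
  · intro q _ hq
    refine Nat.le_zero.1 ((degreeOf_pow_le _ _ _).trans ?_)
    rw [h2 q hq, mul_zero]
  · intro h
    exact absurd (Finset.mem_univ q₀) h

/-- A reduced polynomial which vanishes at a generic point is zero. -/
theorem EN_zero {m : ℕ} {Ω : Type u} [Field Ω] [Algebra K Ω] [IsAlgClosed Ω] {x : Fin n → Ω}
    {z : Fin m × Fin n → Ω} {w : Fin m → Ω}
    (hind : AlgebraicIndependent K (Sum.elim x (Sum.elim z w))) {t : Fin m → Ω}
    (ht : ∀ i, nd.Φ.eval₂ (aeval fun a => z (i, a)).toRingHom (t i) = 0)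
    {F : MvPolynomial (VF m n) K} (hdeg : ∀ i, F.degreeOf (VF.th i) < nd.Φ.natDegree)
    (hF : aeval (vf x t z w) F = 0) : F = 0 := by
  classical
  have hδ : ∀ i, aeval (fun a => z (i, a)) nd.δ ≠ 0 := by
    intro i h
    have h1 : AlgebraicIndependent K fun a => z (i, a) := by
      have h2 := hind.comp (fun a : Fin n =>
        (Sum.inr (Sum.inl (i, a)) : Fin n ⊕ ((Fin m × Fin n) ⊕ Fin m))) (by
          intro a b h
          have h1 := Sum.inl_injective (Sum.inr_injective h)
          exact congrArg Prod.snd h1)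
      exact h2
    exact nd.δ_ne ((injective_iff_map_eq_zero _).1 h1 _ h)
  choose S hScard hS using fun i => EN_roots nd (fun a => z (i, a)) (hδ i)
  obtain ⟨g, hg⟩ : ∃ g : VF m n → MvPolynomial (Fin m) Ω,
    g = vf (fun a => C (x a)) X (fun p => C (z p)) (fun i => C (w i)) := ⟨_, rfl⟩
  -- the polynomial in the primitive elements
  have hG : (aeval g F : MvPolynomial (Fin m) Ω) = 0 := by
    refine MvPolynomial.eq_zero_of_eval_zero_at_prod_finset _ S (fun i => ?_) fun y hy => ?_
    · rw [hScard i]
      refine lt_of_le_of_lt (EN_degreeOf g F i (VF.th i) ?_ fun q hq => ?_) (hdeg i)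
      · rw [hg]
        show degreeOf i (X i : MvPolynomial (Fin m) Ω) ≤ 1
        rw [degreeOf_X_self]
      · rw [hg]
        rcases q with a | j | p | j
        · exact degreeOf_C _ _
        · show degreeOf i (X j : MvPolynomial (Fin m) Ω) = 0
          refine degreeOf_X_of_ne fun h => hq ?_
          rw [h]
        · exact degreeOf_C _ _
        · exact degreeOf_C _ _
    · have h1 := EN_all nd hind ht (t' := y) (fun i => (hS i (y i)).1 (hy i)) hF
      rw [← h1]
      have h2 := MvPolynomial.comp_aeval_apply g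
        ((aeval y : MvPolynomial (Fin m) Ω →ₐ[Ω] Ω).restrictScalars K) F
      have h3 : (fun q => ((aeval y : MvPolynomial (Fin m) Ω →ₐ[Ω] Ω).restrictScalars K) (g q)) =
          vf x y z w := by
        funext q
        rw [AlgHom.restrictScalars_apply, hg]
        rcases q with a | j | p | j
        · exact aeval_C _ _
        · exact aeval_X _ _
        · exact aeval_C _ _
        · exact aeval_C _ _
      rw [h3] at h2
      rw [← h2, AlgHom.restrictScalars_apply]
      rfl
  -- the coefficients
  have h1 := AlgebraicIndependent.sumElim_comp hind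
    (algebraicIndependent_X (R := Ω) (σ := Fin m))
  have h2 : AlgebraicIndependent K g := by
    have h3 := h1.comp (fun q : VF m n => match q with
      | VF.x a => (Sum.inr (Sum.inl a) : Fin m ⊕ (Fin n ⊕ ((Fin m × Fin n) ⊕ Fin m)))
      | VF.th i => Sum.inl i
      | VF.z p => Sum.inr (Sum.inr (Sum.inl p))
      | VF.u i => Sum.inr (Sum.inr (Sum.inr i))) (by
        rintro (a | i | p | i) (a' | i' | p' | i') h
        all_goals first
          | (simp only [Sum.inr.injEq, Sum.inl.injEq] at h; rw [h])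
          | (simp only [Sum.inr.injEq, reduceCtorEq] at h))
    have h4 : g = (Sum.elim X (algebraMap Ω (MvPolynomial (Fin m) Ω) ∘
        Sum.elim x (Sum.elim z w))) ∘ fun q : VF m n => match q with
      | VF.x a => (Sum.inr (Sum.inl a) : Fin m ⊕ (Fin n ⊕ ((Fin m × Fin n) ⊕ Fin m)))
      | VF.th i => Sum.inl i
      | VF.z p => Sum.inr (Sum.inr (Sum.inl p))
      | VF.u i => Sum.inr (Sum.inr (Sum.inr i)) := by
      rw [hg]
      funext q
      rcases q with a | i | p | i <;> rfl
    rw [h4]
    exact h3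
  exact (injective_iff_map_eq_zero _).1 h2 _ hG

end

end Pool.Agent.Lib.MP_17a322_nt.VP
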