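import Pool.Agent.Lib.MP_17a322_nt.VP.S6

/-!
Lower bounds at a place for functions on `A` and for their differences with `t`.
-/

universe u

namespace Pool.Agent.Lib.MP_17a322_nt.VP

open MvPolynomial Height Filter
open Pool.Agent.Lib.MP_17a322_nt.RO
open Pool.Agent.Lib.MP_17a322_nt.VJ
open Pool.Agent.Lib.MP_17a322_nt.VN hiding lf
open Pool.Agent.Lib.MP_17a322_nt.VA

/-- The elements which are algebraic over `k(S)`. -/
theorem P_field1 {k F : Type*} [Field k] [Field F] [Algebra k F] (S : Set F) :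
    ∃ E : IntermediateField k F, (∀ c, c ∈ E ↔ IsAlgebraic (IntermediateField.adjoin k S) c) ∧
      S ⊆ E := by
  obtain ⟨E, hE⟩ : ∃ E : IntermediateField k F, ∀ c, c ∈ E ↔
      IsAlgebraic (IntermediateField.adjoin k S) c :=
    ⟨(algebraicClosure (IntermediateField.adjoin k S) F).toSubfield.toIntermediateField
      (fun c => mem_algebraicClosure_iff.2
        (isAlgebraic_algebraMap (algebraMap k (IntermediateField.adjoin k S) c))),
      fun c => mem_algebraicClosure_iff⟩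
  refine ⟨E, hE, fun c hc => ?_⟩
  show c ∈ E
  rw [hE]
  exact isAlgebraic_algebraMap
    (⟨c, IntermediateField.subset_adjoin k S hc⟩ : IntermediateField.adjoin k S)

section

variable {K : Type u} [Field K] [NumberField K] {H : ℕ → ℝ}
  {hH : Tendsto H (hyperfilter ℕ : Filter ℕ) atTop}

theorem P_aeval_mem1 {E : IntermediateField (k0 K H hH) (GK K)} {σ : Type*} {s : σ → GK K}
    (hs : ∀ k, s k ∈ E) (f : MvPolynomial σ K) : aeval s f ∈ E := by
  induction f using MvPolynomial.induction_on with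
  | C a =>
    rw [aeval_C]
    exact E.algebraMap_mem (algebraMap K (k0 K H hH) a)
  | add p q hp hq =>
    rw [map_add]
    exact add_mem hp hq
  | mul_X p t hp =>
    rw [map_mul, aeval_X]
    exact mul_mem hp (hs t)

end

section

variable {K : Type u} [Field K] [NumberField K] {N : ℕ} {A : AV K N} {P : ℕ → A.Pts K}
  {p : A.Pts (GK K)}

/-- Lower bounds for sequences of degree `D` in the coordinates. -/
theorem P_lower (Γ : AddSubgroup (A.Pts K)) (hΓ : Γ.FG) (hP : ∀ i, P i ∈ Γ) {H : ℕ → ℝ}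
    (hH : Tendsto H (hyperfilter ℕ : Filter ℕ) atTop)
    (hupp : ∃ C : ℝ, 0 < C ∧ ∀ᶠ i in (hyperfilter ℕ : Filter ℕ), A.h (P i) ≤ C * H i)
    (hPp : IsGerm A P p) {v : AbsoluteValue K ℝ} (hv : Pl v) (u : ℕ → K) (hu0 : gm u ≠ 0) (D : ℕ)
    (hu : ∀ a, A.x p a ≠ 0 →
      IsAlgebraic (IntermediateField.adjoin (k0 K H hH) (Set.range (rt (A.x p))))
        (gm fun i => u i / A.x (P i) a ^ D)) (δ : ℝ) (hδ : 0 < δ) :
    ∀ᶠ i in (hyperfilter ℕ : Filter ℕ),
      (⨆ a, v (A.x (P i) a)) ^ D * Real.exp (- δ * H i) ≤ v (u i) := by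
  have hch : ∀ᶠ i in (hyperfilter ℕ : Filter ℕ), ∃ a, ∀ c, v (A.x (P i) c) ≤ v (A.x (P i) a) :=
    Eventually.of_forall fun i => Finite.exists_max fun b => v (A.x (P i) b)
  obtain ⟨a, ha⟩ := eventually_exists_fintype _ _ hch
  have hxa : ∀ᶠ i in (hyperfilter ℕ : Filter ℕ), A.x (P i) a ≠ 0 := by
    filter_upwards [ha] with i hi
    intro h0
    refine Z_x_ne A (P i) (funext fun c => ?_)
    have h1 := hi c
    rw [h0, map_zero] at h1
    exact (v.eq_zero).1 (le_antisymm h1 (v.nonneg _))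
  have hpa : A.x p a ≠ 0 := (hPp.ne_iff a).2 hxa
  have h1 : gm (fun i => u i / A.x (P i) a ^ D) ≠ 0 := by
    rw [gm_ne_zero_iff]
    filter_upwards [hxa, gm_ne_zero_iff.1 hu0] with i h1 h2
    exact div_ne_zero h2 (pow_ne_zero _ h1)
  have h2 := Ov_all A Γ hΓ P hP hH hupp hPp hv (hu a hpa).inv
  filter_upwards [lower_of_inv hH h1 h2 δ hδ, hxa, ha] with i h3 h4 h5
  have h6 : (⨆ c, v (A.x (P i) c)) = v (A.x (P i) a) :=
    le_antisymm (ciSup_le h5) (le_ciSup (Set.finite_range fun c => v (A.x (P i) c)).bddAbove a)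
  have h7 : 0 < v (A.x (P i) a) ^ D := pow_pos (v.pos h4) D
  rw [map_div₀, map_pow, le_div_iff₀ h7] at h3
  rw [h6, mul_comm]
  exact h3

theorem P_gm_div (hPp : IsGerm A P p) {D : ℕ} {f : MvPolynomial (Fin (N + 1)) K}
    (hf : f.IsHomogeneous D) {a : Fin (N + 1)} (ha : A.x p a ≠ 0) :
    gm (fun i => aeval (A.x (P i)) f / A.x (P i) a ^ D) =
      aeval (fun c => A.x p c / A.x p a) f := by
  have hgr : (fun s => gm fun i => A.x (P i) s / A.x (P i) a) = fun c => A.x p c / A.x p a :=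
    funext fun c => (hPp.rt (c, a)).symm
  rw [← hgr, Z_aeval_gm, gm_eq_iff]
  filter_upwards [(hPp.ne_iff a).1 ha] with i hi
  have h1 := Z_aeval_smul hf (A.x (P i) a) (fun c => A.x (P i) c / A.x (P i) a)
  have h3 : (fun c => A.x (P i) a * (A.x (P i) c / A.x (P i) a)) = A.x (P i) :=
    funext fun c => mul_div_cancel₀ _ hi
  rw [h3] at h1
  rw [h1, mul_div_cancel_left₀ _ (pow_ne_zero _ hi)]

/-- Lower bounds for forms. -/
theorem P_lower_form (Γ : AddSubgroup (A.Pts K)) (hΓ : Γ.FG) (hP : ∀ i, P i ∈ Γ) {H : ℕ → ℝ}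
    (hH : Tendsto H (hyperfilter ℕ : Filter ℕ) atTop)
    (hupp : ∃ C : ℝ, 0 < C ∧ ∀ᶠ i in (hyperfilter ℕ : Filter ℕ), A.h (P i) ≤ C * H i)
    (hPp : IsGerm A P p) {v : AbsoluteValue K ℝ} (hv : Pl v) {D : ℕ}
    {f : MvPolynomial (Fin (N + 1)) K} (hf : f.IsHomogeneous D)
    (hf0 : ∀ᶠ i in (hyperfilter ℕ : Filter ℕ), aeval (A.x (P i)) f ≠ 0) (δ : ℝ) (hδ : 0 < δ) :
    ∀ᶠ i in (hyperfilter ℕ : Filter ℕ),
      (⨆ a, v (A.x (P i) a)) ^ D * Real.exp (- δ * H i) ≤ v (aeval (A.x (P i)) f) := by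
  refine P_lower Γ hΓ hP hH hupp hPp hv _ (gm_ne_zero_iff.2 hf0) D (fun a ha => ?_) δ hδ
  obtain ⟨E, hE, hSE⟩ := P_field1 (k := k0 K H hH) (Set.range (rt (A.x p)))
  rw [P_gm_div hPp hf ha, ← hE]
  exact P_aeval_mem1 (fun c => hSE ⟨(c, a), rfl⟩) f

/-- Lower bounds for differences of functions with `t`, if `t` is algebraic. -/
theorem P_lower_t (Γ : AddSubgroup (A.Pts K)) (hΓ : Γ.FG) (hP : ∀ i, P i ∈ Γ) {H : ℕ → ℝ}
    (hH : Tendsto H (hyperfilter ℕ : Filter ℕ) atTop)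
    (hupp : ∃ C : ℝ, 0 < C ∧ ∀ᶠ i in (hyperfilter ℕ : Filter ℕ), A.h (P i) ≤ C * H i)
    (hPp : IsGerm A P p) {v : AbsoluteValue K ℝ} (hv : Pl v) {D : ℕ}
    {α β : MvPolynomial (Fin (N + 1)) K} (hα : α.IsHomogeneous D) (hβ : β.IsHomogeneous D)
    (t : ℕ → K)
    (hta : IsAlgebraic (IntermediateField.adjoin (k0 K H hH) (Set.range (rt (A.x p)))) (gm t))
    (hf0 : ∀ᶠ i in (hyperfilter ℕ : Filter ℕ),
      aeval (A.x (P i)) α - t i * aeval (A.x (P i)) β ≠ 0) (δ : ℝ) (hδ : 0 < δ) :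
    ∀ᶠ i in (hyperfilter ℕ : Filter ℕ),
      (⨆ a, v (A.x (P i) a)) ^ D * Real.exp (- δ * H i) ≤
        v (aeval (A.x (P i)) α - t i * aeval (A.x (P i)) β) := by
  refine P_lower Γ hΓ hP hH hupp hPp hv _ (gm_ne_zero_iff.2 hf0) D (fun a ha => ?_) δ hδ
  obtain ⟨E, hE, hSE⟩ := P_field1 (k := k0 K H hH) (Set.range (rt (A.x p)))
  have h1 : gm (fun i => (aeval (A.x (P i)) α - t i * aeval (A.x (P i)) β) / A.x (P i) a ^ D) =
      aeval (fun c => A.x p c / A.x p a) α - gm t * aeval (fun c => A.x p c / A.x p a) β := by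
    rw [← P_gm_div hPp hα ha, ← P_gm_div hPp hβ ha, ← gm_mul, ← gm_sub]
    refine congrArg gm (funext fun i => ?_)
    ring
  rw [h1, ← hE]
  exact sub_mem (P_aeval_mem1 (fun c => hSE ⟨(c, a), rfl⟩) α)
    (mul_mem ((hE _).2 hta) (P_aeval_mem1 (fun c => hSE ⟨(c, a), rfl⟩) β))

end

end Pool.Agent.Lib.MP_17a322_nt.VP
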