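import Pool.Agent.Lib.MP_17a322_nt.VDA.P3

/-!
Heights of quotients of forms, Liouville's inequality for a form with a moving coefficient, sums over
finite sets of places.
-/

universe u

namespace Pool.Agent.Lib.MP_17a322_nt.VP

open MvPolynomial Height Filter
open Pool.Agent.Lib.MP_17a322_nt.RO
open Pool.Agent.Lib.MP_17a322_nt.VJ
open Pool.Agent.Lib.MP_17a322_nt.VN hiding lf
open Pool.Agent.Lib.MP_17a322_nt.VA

theorem P_sup_pos {K : Type*} [Field K] {N : ℕ} {x : Fin (N + 1) → K} (hx : x ≠ 0)
    (v : AbsoluteValue K ℝ) : 0 < ⨆ i, v (x i) := by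
  obtain ⟨i, hi⟩ := Function.ne_iff.mp hx
  exact (v.pos hi).trans_le (le_ciSup (Set.finite_range fun i => v (x i)).bddAbove i)

/-- Values of forms. -/
theorem P_form_le {K : Type*} [Field K] {N D : ℕ} {f : MvPolynomial (Fin (N + 1)) K}
    (hf : f.IsHomogeneous D) {x : Fin (N + 1) → K} (hx : x ≠ 0) (v : AbsoluteValue K ℝ) :
    v (aeval x f) ≤ max 1 (NV v f) * (⨆ i, v (x i)) ^ D :=
  (PX.abv_form_le f hf x v).trans
    (mul_le_mul_of_nonneg_right (le_max_right _ _) (pow_nonneg (P_sup_pos hx v).le D))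

/-- The height of a quotient of forms. -/
theorem P_height_div {K : Type*} [Field K] [NumberField K] {N D : ℕ}
    (α β : MvPolynomial (Fin (N + 1)) K) (hα : α.IsHomogeneous D) (hβ : β.IsHomogeneous D)
    (x : Fin (N + 1) → K) (hx : x ≠ 0) (h0 : aeval x β ≠ 0) :
    logHeight₁ (aeval x α / aeval x β) ≤ D * logHeight x + nh1 α + nh1 β := by
  have f1 : FS fun v : AbsoluteValue K ℝ => D * Real.log (⨆ i, v (x i)) :=
    FS_const_mul _ (FS_log_iSup hx)
  have f2 : FS fun v : AbsoluteValue K ℝ => D * Real.log (⨆ i, v (x i)) +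
      Real.log (max 1 (NV v α)) := FS_add f1 (FS_nh1 α)
  have f3 : FS fun v : AbsoluteValue K ℝ => D * Real.log (⨆ i, v (x i)) +
      Real.log (max 1 (NV v α)) + Real.log (max 1 (NV v β)) := FS_add f2 (FS_nh1 β)
  have f4 : FS fun v : AbsoluteValue K ℝ => D * Real.log (⨆ i, v (x i)) +
      Real.log (max 1 (NV v α)) + Real.log (max 1 (NV v β)) - Real.log (v (aeval x β)) :=
    FS_sub f3 (FS_log_abv h0)
  have hgs : gs (fun v : AbsoluteValue K ℝ => D * Real.log (⨆ i, v (x i)) +
      Real.log (max 1 (NV v α)) + Real.log (max 1 (NV v β)) - Real.log (v (aeval x β))) =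
      D * logHeight x + nh1 α + nh1 β := by
    rw [gs_sub f3 (FS_log_abv h0), gs_add f2 (FS_nh1 β), gs_add f1 (FS_nh1 α), gs_const_mul,
      gs_log_iSup hx, gs_log_abv h0, sub_zero]
    rfl
  rw [← hgs, ← gs_log_max]
  refine gs_le (FS_log_max _) f4 fun v _ => ?_
  obtain ⟨M, hM⟩ : ∃ M : ℝ, M = ⨆ i, v (x i) := ⟨_, rfl⟩
  have hM0 : 0 < M := hM ▸ P_sup_pos hx v
  have g5 := P_form_le hα hx v
  have g6 := P_form_le hβ hx v
  have g3 := v.pos h0
  rw [← hM] at g5 g6
  rw [← hM]
  have a1 : (1 : ℝ) ≤ max 1 (NV v α) := le_max_left _ _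
  have a2 : (1 : ℝ) ≤ max 1 (NV v β) := le_max_left _ _
  have g4 : 0 < M ^ D := pow_pos hM0 D
  have e1 : (D : ℝ) * Real.log M + Real.log (max 1 (NV v α)) + Real.log (max 1 (NV v β)) -
      Real.log (v (aeval x β)) =
      Real.log (M ^ D * max 1 (NV v α) * max 1 (NV v β) / v (aeval x β)) := by
    rw [Real.log_div (by positivity) g3.ne', Real.log_mul (by positivity) (by positivity),
      Real.log_mul (by positivity) (by positivity), Real.log_pow]
  rw [e1]
  refine Real.log_le_log (lt_max_of_lt_left one_pos) (max_le ?_ ?_)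
  · rw [le_div_iff₀ g3, one_mul]
    refine g6.trans ?_
    have : M ^ D * max 1 (NV v β) ≤ M ^ D * max 1 (NV v α) * max 1 (NV v β) := by
      have : 0 ≤ M ^ D * max 1 (NV v β) := by positivity
      nlinarith
    linarith
  · rw [map_div₀]
    refine div_le_div_of_nonneg_right (g5.trans ?_) g3.le
    have : M ^ D * max 1 (NV v α) ≤ M ^ D * max 1 (NV v α) * max 1 (NV v β) := by
      have : 0 ≤ M ^ D * max 1 (NV v α) := by positivity
      nlinarith
    linarith

/-- The local height at `v` of the point `(t, x)` with respect to the divisor `α = t β`. -/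
noncomputable def P_lam {K : Type*} [Field K] {N : ℕ} (D : ℕ)
    (α β : MvPolynomial (Fin (N + 1)) K) (t : K) (x : Fin (N + 1) → K) (v : K → ℝ) : ℝ :=
  Real.log (max 1 (v t)) + D * Real.log (⨆ i, v (x i)) - Real.log (v (aeval x α - t * aeval x β))

/-- Liouville's inequality. -/
theorem P_liouville {K : Type*} [Field K] [NumberField K] {N D : ℕ}
    {α β : MvPolynomial (Fin (N + 1)) K} (hα : α.IsHomogeneous D) (hβ : β.IsHomogeneous D)
    (t : K) {x : Fin (N + 1) → K} (hx : x ≠ 0) (h0 : aeval x α - t * aeval x β ≠ 0)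
    {v₀ : AbsoluteValue K ℝ} (hv : Pl v₀) :
    P_lam D α β t x v₀ ≤ logHeight₁ t + D * logHeight x + nh1 α + nh1 β +
      gs (fun v : AbsoluteValue K ℝ => Real.log (cst v 2)) := by
  have f0 := FS_log_max t
  have f1 : FS fun v : AbsoluteValue K ℝ => D * Real.log (⨆ i, v (x i)) :=
    FS_const_mul _ (FS_log_iSup hx)
  have f1' : FS fun v : AbsoluteValue K ℝ => Real.log (max 1 (v t)) +
      D * Real.log (⨆ i, v (x i)) := FS_add f0 f1
  have f2 : FS fun v : AbsoluteValue K ℝ => Real.log (max 1 (v t)) +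
      D * Real.log (⨆ i, v (x i)) + Real.log (max 1 (NV v α)) := FS_add f1' (FS_nh1 α)
  have f3 : FS fun v : AbsoluteValue K ℝ => Real.log (max 1 (v t)) +
      D * Real.log (⨆ i, v (x i)) + Real.log (max 1 (NV v α)) + Real.log (max 1 (NV v β)) :=
    FS_add f2 (FS_nh1 β)
  have fc : FS fun v : AbsoluteValue K ℝ => Real.log (cst v 2) := FS_log_cst 2
  have f4 : FS fun v : AbsoluteValue K ℝ => Real.log (max 1 (v t)) +
      D * Real.log (⨆ i, v (x i)) + Real.log (max 1 (NV v α)) + Real.log (max 1 (NV v β)) +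
      Real.log (cst v 2) := FS_add f3 fc
  obtain ⟨φ, hφ⟩ : ∃ φ : AbsoluteValue K ℝ → ℝ, φ = fun v => Real.log (max 1 (v t)) +
      D * Real.log (⨆ i, v (x i)) + Real.log (max 1 (NV v α)) + Real.log (max 1 (NV v β)) +
      Real.log (cst v 2) - Real.log (v (aeval x α - t * aeval x β)) := ⟨_, rfl⟩
  have f5 : FS φ := by
    rw [hφ]
    exact FS_sub f4 (FS_log_abv h0)
  have hgs : gs φ = logHeight₁ t + D * logHeight x + nh1 α + nh1 β +
      gs (fun v : AbsoluteValue K ℝ => Real.log (cst v 2)) := by
    rw [hφ, gs_sub f4 (FS_log_abv h0), gs_add f3 fc, gs_add f2 (FS_nh1 β), gs_add f1' (FS_nh1 α),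
      gs_add f0 f1, gs_const_mul, gs_log_iSup hx, gs_log_abv h0, sub_zero, gs_log_max]
    rfl
  have hnn : ∀ v, 0 ≤ φ v := by
    intro v
    obtain ⟨M, hM⟩ : ∃ M : ℝ, M = ⨆ i, v (x i) := ⟨_, rfl⟩
    have hM0 : 0 < M := hM ▸ P_sup_pos hx v
    have g1 := P_form_le hα hx v
    have g2 := P_form_le hβ hx v
    rw [← hM] at g1 g2
    have a0 : (1 : ℝ) ≤ max 1 (v t) := le_max_left _ _
    have a1 : (1 : ℝ) ≤ max 1 (NV v α) := le_max_left _ _
    have a2 : (1 : ℝ) ≤ max 1 (NV v β) := le_max_left _ _
    have a3 : v t ≤ max 1 (v t) := le_max_right _ _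
    have g4 : 0 < M ^ D := pow_pos hM0 D
    obtain ⟨B, hB⟩ : ∃ B : ℝ, B = max 1 (v t) * M ^ D * max 1 (NV v α) * max 1 (NV v β) :=
      ⟨_, rfl⟩
    have hB0 : 0 < B := by
      rw [hB]
      positivity
    have b1 : v (aeval x α) ≤ B := by
      refine g1.trans ?_
      rw [hB]
      have h1 : 0 ≤ max 1 (NV v α) * M ^ D := by positivity
      have h2 : max 1 (NV v α) * M ^ D ≤ max 1 (v t) * (max 1 (NV v α) * M ^ D) :=
        le_mul_of_one_le_left h1 a0
      have h3 : max 1 (v t) * (max 1 (NV v α) * M ^ D) ≤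
          max 1 (v t) * (max 1 (NV v α) * M ^ D) * max 1 (NV v β) :=
        le_mul_of_one_le_right (by positivity) a2
      linarith
    have b2 : v (t * aeval x β) ≤ B := by
      rw [map_mul, hB]
      have h1 : v t * v (aeval x β) ≤ max 1 (v t) * (max 1 (NV v β) * M ^ D) :=
        mul_le_mul a3 g2 (v.nonneg _) (by positivity)
      have h3 : max 1 (v t) * (max 1 (NV v β) * M ^ D) ≤
          max 1 (v t) * (max 1 (NV v β) * M ^ D) * max 1 (NV v α) :=
        le_mul_of_one_le_right (by positivity) a1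
      linarith
    have b3 : v (aeval x α - t * aeval x β) ≤ B * cst v 2 := by
      unfold cst
      split_ifs with hna
      · rw [mul_one, sub_eq_add_neg]
        refine (hna _ _).trans (max_le b1 ?_)
        rw [v.map_neg]
        exact b2
      · have h1 := v.sub_le_add (aeval x α) (t * aeval x β)
        push_cast
        linarith
    have hc : 0 < cst v 2 := by
      unfold cst
      split_ifs <;> norm_num
    have b4 := Real.log_le_log (v.pos h0) b3
    rw [hB, Real.log_mul (by positivity) (by positivity), Real.log_mul (by positivity)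
      (by positivity), Real.log_mul (by positivity) (by positivity), Real.log_mul (by positivity)
      (by positivity), Real.log_pow] at b4
    rw [hφ]
    show 0 ≤ Real.log (max 1 (v t)) + D * Real.log (⨆ i, v (x i)) + Real.log (max 1 (NV v α)) +
      Real.log (max 1 (NV v β)) + Real.log (cst v 2) - Real.log (v (aeval x α - t * aeval x β))
    rw [← hM]
    linarith
  rw [← hgs]
  refine le_trans ?_ (VD.gs_single f5 (fun v _ => hnn v) hv)
  rw [hφ]
  have h6 : 0 ≤ Real.log (max 1 (NV v₀ α)) := Real.log_nonneg (le_max_left _ _)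
  have h7 : 0 ≤ Real.log (max 1 (NV v₀ β)) := Real.log_nonneg (le_max_left _ _)
  have h8 : 0 ≤ Real.log (cst v₀ 2) := by
    refine Real.log_nonneg ?_
    unfold cst
    split_ifs <;> norm_num
  unfold P_lam
  show _ ≤ Real.log (max 1 (v₀ t)) + D * Real.log (⨆ i, v₀ (x i)) + Real.log (max 1 (NV v₀ α)) +
      Real.log (max 1 (NV v₀ β)) + Real.log (cst v₀ 2) - Real.log (v₀ (aeval x α - t * aeval x β))
  linarith

theorem P_FS_ite {K : Type*} [Field K] [NumberField K] (Sg : Finset (AbsoluteValue K ℝ))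
    (f : AbsoluteValue K ℝ → ℝ) :
    open Classical in FS (fun v : AbsoluteValue K ℝ => if v ∈ Sg then f v else 0) := by
  classical
  have h1 : (Sg : Set (AbsoluteValue K ℝ)).Finite := Sg.finite_toSet
  refine (h1.preimage (f := fun v : AdmissibleAbsValues.nonarchAbsVal (K := K) => v.val)
    Subtype.val_injective.injOn).subset fun v hv => ?_
  by_contra h2
  exact hv (if_neg h2)

/-- Sums over a finite set of places. -/
theorem P_gs_ite_le {K : Type*} [Field K] [NumberField K] (Sg : Finset (AbsoluteValue K ℝ)) :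
    open Classical in
    ∃ M : ℝ, 0 < M ∧ ∀ (f : AbsoluteValue K ℝ → ℝ) (B : ℝ), 0 ≤ B → (∀ v ∈ Sg, f v ≤ B) →
      gs (fun v : AbsoluteValue K ℝ => if v ∈ Sg then f v else 0) ≤ M * B := by
  classical
  refine ⟨gs (fun v : AbsoluteValue K ℝ => if v ∈ Sg then (1 : ℝ) else 0) + 1, ?_, ?_⟩
  · have : 0 ≤ gs (fun v : AbsoluteValue K ℝ => if v ∈ Sg then (1 : ℝ) else 0) :=
      gs_nonneg fun v _ => by
        split_ifs
        · exact zero_le_one
        · exact le_rfl
    linarith
  · intro f B hB hf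
    have h1 : gs (fun v : AbsoluteValue K ℝ => if v ∈ Sg then f v else 0) ≤
        gs (fun v : AbsoluteValue K ℝ => B * if v ∈ Sg then (1 : ℝ) else 0) := by
      refine gs_le (P_FS_ite Sg f) ?_ fun v _ => ?_
      · refine (P_FS_ite Sg fun _ => B).subset fun v hv => ?_
        intro h0
        apply hv
        show B * (if v.val ∈ Sg then (1 : ℝ) else 0) = 0
        have h0' : (if v.val ∈ Sg then B else 0) = 0 := h0
        split_ifs at h0' ⊢
        · rw [h0', zero_mul]
        · exact mul_zero _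
      · split_ifs with h
        · rw [mul_one]
          exact hf v h
        · rw [mul_zero]
    rw [gs_const_mul] at h1
    linarith

/-- The sum over the infinite places and the places of `S` as a sum over all places. -/
theorem P_sum_le_gs {K : Type*} [Field K] [NumberField K]
    (S : Finset (NumberField.FinitePlace K)) (Sg : Finset (AbsoluteValue K ℝ))
    (h1 : ∀ v : NumberField.InfinitePlace K, v.val ∈ Sg) (h2 : ∀ v ∈ S, v.val ∈ Sg)
    (f : AbsoluteValue K ℝ → ℝ) (hf : ∀ v, 0 ≤ f v) :
    open Classical in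
    (∑ v : NumberField.InfinitePlace K, (v.mult : ℝ) * f v.val) + ∑ v ∈ S, f v.val ≤
      gs (fun v : AbsoluteValue K ℝ => if v ∈ Sg then f v else 0) := by
  classical
  unfold gs
  rw [NumberField.sum_archAbsVal_eq, NumberField.sum_nonarchAbsVal_eq
    (fun v : AbsoluteValue K ℝ => if v ∈ Sg then f v else 0)]
  refine add_le_add (le_of_eq (Finset.sum_congr rfl fun v _ => ?_)) ?_
  · rw [if_pos (h1 v), nsmul_eq_mul]
  · have hfin : (Function.support fun v : NumberField.FinitePlace K =>
        if v.val ∈ Sg then f v.val else 0).Finite := by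
      refine (Sg.finite_toSet.preimage
        (f := fun v : NumberField.FinitePlace K => v.val) ?_).subset fun v hv => ?_
      · exact Subtype.val_injective.injOn
      · by_contra h2
        exact hv (if_neg h2)
    rw [finsum_eq_sum _ hfin]
    have h3 : ∑ v ∈ S, f v.val = ∑ v ∈ S, if v.val ∈ Sg then f v.val else 0 :=
      Finset.sum_congr rfl fun v hv => by rw [if_pos (h2 v hv)]
    rw [h3]
    have hnn : ∀ v : NumberField.FinitePlace K, 0 ≤ if v.val ∈ Sg then f v.val else 0 := by
      intro v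
      split_ifs
      · exact hf _
      · exact le_rfl
    calc ∑ v ∈ S, (if v.val ∈ Sg then f v.val else 0)
        = ∑ v ∈ S.filter fun v => v ∈ hfin.toFinset, (if v.val ∈ Sg then f v.val else 0) := by
          rw [Finset.sum_filter]
          refine Finset.sum_congr rfl fun v _ => ?_
          split_ifs with h4 h5 h5
          · rfl
          · by_contra h6
            exact h5 (hfin.mem_toFinset.2 (by
              rw [Function.mem_support, if_pos h4]
              exact h6))
          · rfl
          · rfl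
      _ ≤ _ := Finset.sum_le_sum_of_subset_of_nonneg
          (fun v hv => (Finset.mem_filter.1 hv).2) fun v _ _ => hnn v

theorem P_neg_log_min (v : ℝ) : - Real.log (min 1 v) = max 0 (- Real.log v) ∨ v ≤ 0 := by
  rcases le_or_gt v 0 with h0 | h0
  · exact Or.inr h0
  · left
    rcases le_total 1 v with h | h
    · rw [min_eq_left h, Real.log_one, neg_zero, max_eq_left]
      have := Real.log_nonneg h
      linarith
    · rw [min_eq_right h, max_eq_right]
      have := Real.log_nonpos h0.le h
      linarith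

theorem P_neg_log_min_le (v : ℝ) : - Real.log (min 1 v) ≤ max 0 (- Real.log v) := by
  rcases le_total 1 v with h | h
  · rw [min_eq_left h, Real.log_one, neg_zero]
    exact le_max_left _ _
  · rw [min_eq_right h]
    exact le_max_right _ _

end Pool.Agent.Lib.MP_17a322_nt.VP
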