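import Pool.Agent.Lib.MP_17a322_nt.VA.Z15

/-!
Transcendence degree and independence of the Noether coordinates.
-/

universe u

namespace Pool.Agent.Lib.MP_17a322_nt.VP

open MvPolynomial Height Filter
open Pool.Agent.Lib.MP_17a322_nt.RO
open Pool.Agent.Lib.MP_17a322_nt.VJ
open Pool.Agent.Lib.MP_17a322_nt.VN
open Pool.Agent.Lib.MP_17a322_nt.VA

/-- If `n ≤ tdeg` then `n` elements over which everything is algebraic are independent. -/
theorem indep_of_tdeg {k L : Type u} [Field k] [Field L] [Algebra k L] {N n : ℕ}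
    (y : Fin (N + 1) → L) (w : Fin n → L)
    (h : ∀ p, IsAlgebraic (IntermediateField.adjoin k (Set.range w)) (rt y p))
    (hn : (n : Cardinal.{u}) ≤ tdeg k y) : AlgebraicIndependent k w := by
  classical
  obtain ⟨T, hT, hTa, hTc⟩ := Z_exists_basis (K := k) y
  have hc : n ≤ Nat.card T := by
    rw [hTc] at hn
    exact_mod_cast hn
  have h1 : Nat.card (Fin n) ≤ Nat.card T := by
    rwa [Nat.card_fin]
  exact card_indep h1 (fun t : T => rt y t) w hT fun t => h t

section

variable {k L K : Type u} [Field K] [Field k] [Field L] [Algebra K k] [Algebra k L]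
    [Algebra K L] [IsScalarTower K k L] {N n e : ℕ} {B : AV K N} (nd : Noe B n e) (b : B.Pts L)

theorem y_alg (hl : lf (nd.l 0) (B.x b) ≠ 0) (j : Fin (N + 1)) :
    IsAlgebraic (IntermediateField.adjoin k (Set.range (nd.s b))) (nd.y b j) := by
  have h1 := (Z_integral nd hl j).isAlgebraic
  obtain ⟨φ, hφ⟩ : ∃ φ : Algebra.adjoin K (Set.range (nd.s b)) →+*
      IntermediateField.adjoin k (Set.range (nd.s b)), ∀ c, (φ c : L) = c := by
    have h2 : ∀ c ∈ Algebra.adjoin K (Set.range (nd.s b)),
        c ∈ IntermediateField.adjoin k (Set.range (nd.s b)) := by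
      intro c hc
      induction hc using Algebra.adjoin_induction with
      | mem x hx => exact IntermediateField.subset_adjoin k _ hx
      | algebraMap x =>
        rw [IsScalarTower.algebraMap_apply K k L]
        exact (IntermediateField.adjoin k (Set.range (nd.s b))).algebraMap_mem
          (algebraMap K k x)
      | add x y _ _ hx hy => exact add_mem hx hy
      | mul x y _ _ hx hy => exact mul_mem hx hy
    exact ⟨(algebraMap (Algebra.adjoin K (Set.range (nd.s b))) L).codRestrict
      (IntermediateField.adjoin k (Set.range (nd.s b))).toSubfield.toSubring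
      fun c => h2 c c.2, fun _ => rfl⟩
  have hφi : Function.Injective φ := fun c c' h => Subtype.ext (by rw [← hφ c, ← hφ c', h])
  exact IsAlgebraic.ringHom_of_comp_eq (S := IntermediateField.adjoin k
    (Set.range (nd.s b))) φ (RingHom.id L) h1 hφi (RingHom.ext fun c => hφ c)

/-- The Noether coordinates of a point are independent if the transcendence degree is maximal. -/
theorem s_indep (hl : lf (nd.l 0) (B.x b) ≠ 0) (hn : (n : Cardinal.{u}) ≤ tdeg k (B.x b)) :
    AlgebraicIndependent k (nd.s b) := by
  refine indep_of_tdeg (B.x b) (nd.s b) (fun p => ?_) hn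
  have h1 : rt (B.x b) p = nd.y b p.1 / nd.y b p.2 := by
    unfold rt Noe.y
    rw [div_div_div_cancel_right₀ hl]
  rw [h1, div_eq_mul_inv]
  exact (y_alg nd b hl _).mul (y_alg nd b hl _).inv

theorem rt_self_mem (k : Type u) [Field k] [Algebra k L] (y : Fin (N + 1) → L)
    (i : Fin (N + 1) × Fin (N + 1)) :
    rt y i ∈ IntermediateField.adjoin k (Set.range (rt y)) :=
  IntermediateField.subset_adjoin k _ ⟨i, rfl⟩

/-- The transcendence degree is maximal if the Noether coordinates are independent. -/
theorem tdeg_of_indep (h : AlgebraicIndependent k (nd.s b)) :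
    (n : Cardinal.{u}) ≤ tdeg k (B.x b) := by
  have h1 := (Z_card_le_tdeg (K := k) (B.x b) (nd.s b) h fun j => by
    have h2 : nd.s b j ∈ (IntermediateField.adjoin k (Set.range (rt (B.x b)))).restrictScalars K :=
      Z_s_mem nd _ b (fun i => rt_self_mem k (B.x b) i) j
    exact isAlgebraic_algebraMap
      (⟨_, h2⟩ : IntermediateField.adjoin k (Set.range (rt (B.x b))))).2
  rwa [Nat.card_fin] at h1

/-- The transcendence degree over `k` of a translate by a point over `K`. -/
theorem tdeg_shift (p : B.Pts K) :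
    tdeg k (B.x (b - B.img (Algebra.ofId K L) p)) ≤ tdeg k (B.x b) := by
  obtain ⟨E, hE⟩ : ∃ E, E = (IntermediateField.adjoin k (Set.range (rt (B.x b)))).restrictScalars K :=
    ⟨_, rfl⟩
  have hEr : ∀ i, rt (B.x b) i ∈ E := fun i => by
    rw [hE]
    exact rt_self_mem k (B.x b) i
  obtain ⟨b₀, hb₀⟩ := Z_descend B E b hEr
  have h1 : B.Img E.val (B.img (Algebra.ofId K E) p) (B.img (Algebra.ofId K L) p) := by
    obtain ⟨y, hy⟩ := Z_exists_img B E.val (B.img (Algebra.ofId K E) p)
    have h1 := Z_img_trans B (Z_img_img (Algebra.ofId K E) p) hy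
    have h2 : E.val.comp (Algebra.ofId K E) = Algebra.ofId K L := Subsingleton.elim _ _
    rw [h2] at h1
    rw [← Z_img_unique B h1 (Z_img_img (Algebra.ofId K L) p)]
    exact hy
  have h2 := Z_img_sub B hb₀ h1
  obtain ⟨T, hT, hTa, hTc⟩ := Z_exists_basis (K := k) (B.x (b - B.img (Algebra.ofId K L) p))
  rw [hTc]
  refine (Z_card_le_tdeg (K := k) (B.x b) _ hT fun t => ?_).2
  have h3 : rt (B.x (b - B.img (Algebra.ofId K L) p)) t ∈
      (IntermediateField.adjoin k (Set.range (rt (B.x b)))).restrictScalars K := by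
    rw [← hE]
    exact Z_rt_mem B h2 _
  exact isAlgebraic_algebraMap
    (⟨_, h3⟩ : IntermediateField.adjoin k (Set.range (rt (B.x b))))

end

end Pool.Agent.Lib.MP_17a322_nt.VP
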