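import Pool.Agent.Lib.MP_17a322_nt.VA.N1
import Pool.Agent.Lib.MP_17a322_nt.VA.C4a

/-!
Roth's theorem over abelian varieties, part E: points with algebraically independent Noether
coordinates are generic, over all extension fields.
-/

universe u

namespace Pool.Agent.Lib.MP_17a322_nt.VP

open MvPolynomial
open Pool.Agent.Lib.MP_17a322_nt.RO
open Pool.Agent.Lib.MP_17a322_nt.VJ
open Pool.Agent.Lib.MP_17a322_nt.VN
open Pool.Agent.Lib.MP_17a322_nt.VA

section

variable {K : Type u} [Field K] {N : ℕ} (A : AV K N) (k : Type u) [Field k] [Algebra K k]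

/-- The ideal over the extension field. -/
noncomputable def ENJ : Ideal (MvPolynomial (Fin (N + 1)) k) :=
  A.I.map (MvPolynomial.map (σ := Fin (N + 1)) (algebraMap K k))

instance EN_prime : (ENJ A k).IsPrime := A.prime k

instance EN_dom : IsDomain (MvPolynomial (Fin (N + 1)) k ⧸ ENJ A k) :=
  (Ideal.Quotient.isDomain_iff_prime _).2 (EN_prime A k)

/-- The function field of the cone over the extension field. -/
abbrev ENF : Type u := FractionRing (MvPolynomial (Fin (N + 1)) k ⧸ ENJ A k)

/-- The coordinates of the generic point. -/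
noncomputable def ENgp : Fin (N + 1) → ENF A k := fun a =>
  algebraMap (MvPolynomial (Fin (N + 1)) k ⧸ ENJ A k) (ENF A k) (Ideal.Quotient.mk (ENJ A k) (X a))

instance EN_tower : IsScalarTower K k (ENF A k) := inferInstance

theorem EN_aeval_gp (f : MvPolynomial (Fin (N + 1)) k) : aeval (ENgp A k) f =
    algebraMap (MvPolynomial (Fin (N + 1)) k ⧸ ENJ A k) (ENF A k)
      (Ideal.Quotient.mk (ENJ A k) f) := by
  have h : (aeval (ENgp A k) : MvPolynomial (Fin (N + 1)) k →ₐ[k] ENF A k) =
      (IsScalarTower.toAlgHom k (MvPolynomial (Fin (N + 1)) k ⧸ ENJ A k) (ENF A k)).comp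
        (Ideal.Quotient.mkₐ k (ENJ A k)) := by
    apply MvPolynomial.algHom_ext
    intro i
    rw [aeval_X]
    rfl
  exact congrArg (fun φ => φ f) h

theorem EN_gp_zero_iff (f : MvPolynomial (Fin (N + 1)) k) :
    aeval (ENgp A k) f = 0 ↔ f ∈ ENJ A k := by
  rw [EN_aeval_gp, FaithfulSMul.algebraMap_eq_zero_iff, Ideal.Quotient.eq_zero_iff_mem]

theorem EN_gp_isPt : A.IsPt (ENgp A k) := by
  intro f hf
  rw [← aeval_map_algebraMap k, EN_gp_zero_iff]
  exact Ideal.mem_map_of_mem _ hf

variable {A} {k}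

theorem EN_mem {R : Type u} [CommRing R] [Algebra K R] [Algebra k R] [IsScalarTower K k R]
    {y : Fin (N + 1) → R} (hy : A.IsPt y) {f : MvPolynomial (Fin (N + 1)) k}
    (hf : f ∈ ENJ A k) : aeval y f = 0 := by
  have h1 : ENJ A k ≤ RingHom.ker (aeval y : MvPolynomial (Fin (N + 1)) k →ₐ[k] R).toRingHom := by
    unfold ENJ
    rw [Ideal.map_le_iff_le_comap]
    intro g hg
    rw [Ideal.mem_comap, RingHom.mem_ker]
    show aeval y (MvPolynomial.map (algebraMap K k) g) = 0
    rw [aeval_map_algebraMap]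
    exact hy g hg
  exact h1 hf

theorem EN_lf {R : Type*} [CommRing R] [Algebra K R] [Algebra k R] [IsScalarTower K k R]
    (l : Fin (N + 1) → K) (y : Fin (N + 1) → R) :
    lf (fun a => algebraMap K k (l a)) y = lf l y := by
  unfold lf
  refine Finset.sum_congr rfl fun a _ => ?_
  rw [← IsScalarTower.algebraMap_apply K k R]

/-- The affine coordinates of the generic point. -/
noncomputable def ENga (A : AV K N) (k : Type u) [Field k] [Algebra K k]
    (l : Fin (N + 1) → K) : Fin (N + 1) → ENF A k := fun a =>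
  ENgp A k a / lf l (ENgp A k)

theorem EN_gp_eq {l : Fin (N + 1) → K} (hl : lf l (ENgp A k) ≠ 0) :
    ENgp A k = fun a => lf l (ENgp A k) * ENga A k l a := by
  funext a
  rw [ENga, mul_div_cancel₀ _ hl]

theorem EN_lf_ga {l : Fin (N + 1) → K} (hl : lf l (ENgp A k) ≠ 0) : lf l (ENga A k l) = 1 := by
  have h := congrArg (lf l) (EN_gp_eq hl)
  rw [lf_smul] at h
  exact mul_left_cancel₀ hl (by rw [← h, mul_one])

theorem EN_ga_isPt (l : Fin (N + 1) → K) : A.IsPt (ENga A k l) := by
  have : ENga A k l = fun a => (lf l (ENgp A k))⁻¹ * ENgp A k a := by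
    funext a
    rw [ENga, div_eq_inv_mul]
  rw [this]
  exact (EN_gp_isPt A k).smul _

/-- A relation between the affine coordinates of the generic point holds at all points. -/
theorem EN_transfer {l : Fin (N + 1) → K} (hl : lf l (ENgp A k) ≠ 0)
    {f : MvPolynomial (Fin (N + 1)) k} (hf : aeval (ENga A k l) f = 0) {R : Type u} [CommRing R]
    [Algebra K R] [Algebra k R] [IsScalarTower K k R] {y : Fin (N + 1) → R} (hy : A.IsPt y)
    (h1 : lf l y = 1) : aeval y f = 0 := by
  have h2 : hz (fun a => algebraMap K k (l a)) f ∈ ENJ A k := by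
    rw [← EN_gp_zero_iff, EN_gp_eq hl, hz_smul (by rw [EN_lf]; exact EN_lf_ga hl), hf, mul_zero]
  have h3 := hz_smul (K := k) (l := fun a => algebraMap K k (l a)) (y := y)
    (by rw [EN_lf]; exact h1) 1 f
  simp only [one_mul, one_pow] at h3
  rw [← h3]
  exact EN_mem hy h2

end

section

variable {K : Type u} [Field K] {N : ℕ} {A : AV K N} {n e : ℕ} (nd : Noe A n e)
  {k : Type u} [Field k] [Algebra K k]

/-- The multiplication table over the extension field. -/
noncomputable def ENMx (k : Type u) [Field k] [Algebra K k] (a : Fin (N + 1)) :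
    Matrix (Fin (e + 1)) (Fin (e + 1)) (MvPolynomial (Fin n) k) :=
  (nd.Mx a).map (MvPolynomial.map (algebraMap K k))

/-- The matrix of the multiplication by a polynomial. -/
noncomputable def ENM (P : MvPolynomial (Fin (N + 1)) k) :
    Matrix (Fin (e + 1)) (Fin (e + 1)) (MvPolynomial (Fin n) k) :=
  ∑ m ∈ P.support, (C (coeff m P) : MvPolynomial (Fin n) k) • mpw (ENMx nd k) (fun t => m t)

theorem EN_rel {B : Type u} [CommRing B] [Algebra K B] [Algebra k B] [IsScalarTower K k B]
    {y : Fin (N + 1) → B} (hy : A.IsPt y) (hy0 : lf (nd.l 0) y = 1)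
    (P : MvPolynomial (Fin (N + 1)) k) (m : Fin (e + 1)) :
    ∑ l, aeval y (nd.w l) * aeval (fun t : Fin n => lf (nd.l t.succ) y) (ENM nd P l m) =
      aeval y P * aeval y (nd.w m) := by
  have hr : ∀ (j : Fin (N + 1)) (m : Fin (e + 1)), ∑ l, aeval y (nd.w l) *
      aeval (fun t : Fin n => lf (nd.l t.succ) y) (ENMx nd k j l m) =
      y j * aeval y (nd.w m) := by
    intro j m
    rw [← nd.rel B y hy hy0 j m]
    refine Finset.sum_congr rfl fun l _ => ?_
    unfold ENMx
    rw [Matrix.map_apply, aeval_map_algebraMap]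
  have h1 : ∀ l, aeval (fun t : Fin n => lf (nd.l t.succ) y) (ENM nd P l m) =
      ∑ s ∈ P.support, algebraMap k B (coeff s P) *
        aeval (fun t : Fin n => lf (nd.l t.succ) y) (mpw (ENMx nd k) (fun t => s t) l m) := by
    intro l
    unfold ENM
    rw [Matrix.sum_apply, map_sum]
    refine Finset.sum_congr rfl fun s _ => ?_
    rw [Matrix.smul_apply, smul_eq_mul, map_mul, aeval_C]
  have h2 : aeval y P = ∑ s ∈ P.support, algebraMap k B (coeff s P) * ∏ t, y t ^ s t := by
    rw [aeval_def, eval₂_eq']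
  simp only [h1]
  rw [h2, Finset.sum_mul]
  simp only [Finset.mul_sum]
  rw [Finset.sum_comm]
  refine Finset.sum_congr rfl fun s _ => ?_
  rw [mul_assoc, ← mpw_rel (ENMx nd k) (fun l => aeval y (nd.w l))
    (fun t : Fin n => lf (nd.l t.succ) y) y hr (fun t => s t) m, Finset.mul_sum]
  refine Finset.sum_congr rfl fun l _ => ?_
  ring

/-- The hyperplane does not contain the variety if there is a point outside. -/
theorem EN_l0 {S : Type u} [Field S] [Algebra K S] [Algebra k S] [IsScalarTower K k S]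
    {y : Fin (N + 1) → S} (hy : A.IsPt y) (hy0 : lf (nd.l 0) y = 1) :
    lf (nd.l 0) (ENgp A k) ≠ 0 := by
  intro h
  have h1 : lp (fun a => algebraMap K k (nd.l 0 a)) ∈ ENJ A k := by
    rw [← EN_gp_zero_iff, aeval_lp, EN_lf]
    exact h
  have h2 := EN_mem hy h1
  rw [aeval_lp, EN_lf, hy0] at h2
  exact one_ne_zero h2

/-- The equation of an element of the coordinate ring. -/
theorem EN_char (hl : lf (nd.l 0) (ENgp A k) ≠ 0) {P : MvPolynomial (Fin (N + 1)) k}
    (hga : aeval (ENga A k (nd.l 0)) P ≠ 0) :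
    ∃ q : Polynomial (MvPolynomial (Fin n) k), q.coeff 0 ≠ 0 ∧ ∀ (R : Type u) [CommRing R]
      [Algebra K R] [Algebra k R] [IsScalarTower K k R] (y : Fin (N + 1) → R), A.IsPt y →
      lf (nd.l 0) y = 1 →
      q.eval₂ (aeval fun t : Fin n => lf (nd.l t.succ) y).toRingHom (aeval y P) = 0 := by
  classical
  obtain ⟨g, hg⟩ : ∃ g, g = ENga A k (nd.l 0) := ⟨_, rfl⟩
  have hgp : A.IsPt g := by
    rw [hg]
    exact EN_ga_isPt _
  have hg0 : lf (nd.l 0) g = 1 := by
    rw [hg]
    exact EN_lf_ga hl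
  rw [← hg] at hga
  -- the characteristic polynomial
  obtain ⟨χ, hχ⟩ : ∃ χ, χ = (ENM nd P).charpoly := ⟨_, rfl⟩
  have hχ0 : χ ≠ 0 := by
    rw [hχ]
    exact (Matrix.charpoly_monic _).ne_zero
  have hχg : χ.eval₂ (aeval fun t : Fin n => lf (nd.l t.succ) g).toRingHom (aeval g P) = 0 := by
    rw [hχ, ← Polynomial.eval_map, ← Matrix.charpoly_map, Matrix.eval_charpoly,
      ← Matrix.exists_vecMul_eq_zero_iff]
    refine ⟨fun l => aeval g (nd.w l), ?_, ?_⟩
    · intro h
      have h1 := congrFun h 0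
      rw [nd.w_zero, map_one, Pi.zero_apply] at h1
      exact one_ne_zero h1
    · funext m
      rw [Matrix.vecMul_sub, Pi.sub_apply, Pi.zero_apply, sub_eq_zero]
      have h1 := EN_rel nd hgp hg0 P m
      have h2 : Matrix.vecMul (fun l => aeval g (nd.w l)) (Matrix.scalar (Fin (e + 1))
          (aeval g P)) m = aeval g P * aeval g (nd.w m) := by
        rw [Matrix.scalar_apply, Matrix.vecMul_diagonal, mul_comm]
      rw [h2, ← h1]
      rfl
  -- the factor with nonzero constant term
  obtain ⟨q, hq, hq0⟩ := Polynomial.exists_eq_pow_rootMultiplicity_mul_and_not_dvd χ hχ0 0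
  rw [map_zero, sub_zero, Polynomial.X_dvd_iff] at hq0
  rw [map_zero, sub_zero] at hq
  have hqg : q.eval₂ (aeval fun t : Fin n => lf (nd.l t.succ) g).toRingHom (aeval g P) = 0 := by
    rw [hq, Polynomial.eval₂_mul, Polynomial.eval₂_pow, Polynomial.eval₂_X] at hχg
    exact (mul_eq_zero.1 hχg).resolve_left (pow_ne_zero _ hga)
  -- the relation as a polynomial
  obtain ⟨Q, hQ⟩ : ∃ Q : MvPolynomial (Fin (N + 1)) k, Q = q.eval₂
    (aeval fun t : Fin n => lp fun a => algebraMap K k (nd.l t.succ a)).toRingHom P := ⟨_, rfl⟩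
  have hQy : ∀ {B : Type u} [CommRing B] [Algebra K B] [Algebra k B] [IsScalarTower K k B]
      (x : Fin (N + 1) → B), aeval x Q =
        q.eval₂ (aeval fun t : Fin n => lf (nd.l t.succ) x).toRingHom (aeval x P) := by
    intro B _ _ _ _ x
    have h1 := Polynomial.hom_eval₂ q
      (aeval fun t : Fin n => lp fun a => algebraMap K k (nd.l t.succ a)).toRingHom
      (aeval x : MvPolynomial (Fin (N + 1)) k →ₐ[k] B).toRingHom P
    rw [hQ]
    refine h1.trans ?_
    congr 1
    have h2 : ((aeval x : MvPolynomial (Fin (N + 1)) k →ₐ[k] B).comp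
        (aeval fun t : Fin n => lp fun a => algebraMap K k (nd.l t.succ a))) =
        aeval fun t : Fin n => lf (nd.l t.succ) x := by
      apply MvPolynomial.algHom_ext
      intro i
      rw [AlgHom.comp_apply, aeval_X, aeval_X, aeval_lp, EN_lf]
    exact congrArg AlgHom.toRingHom h2
  have hQg : aeval g Q = 0 := by
    rw [hQy, hqg]
  refine ⟨q, hq0, fun R _ _ _ _ y hy hy0 => ?_⟩
  rw [← hQy]
  rw [hg] at hQg
  exact EN_transfer hl hQg hy hy0

/-- Points with algebraically independent Noether coordinates are generic. -/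
theorem EN_gen {S : Type u} [Field S] [Algebra K S] [Algebra k S] [IsScalarTower K k S]
    {y : Fin (N + 1) → S} (hy : A.IsPt y) (hy0 : lf (nd.l 0) y = 1)
    (hind : AlgebraicIndependent k fun t : Fin n => lf (nd.l t.succ) y)
    {P : MvPolynomial (Fin (N + 1)) k} (hP : aeval y P = 0) {R : Type u} [CommRing R]
    [Algebra K R] [Algebra k R] [IsScalarTower K k R] {y' : Fin (N + 1) → R}
    (hy' : A.IsPt y') (hy'0 : lf (nd.l 0) y' = 1) : aeval y' P = 0 := by
  have hl : lf (nd.l 0) (ENgp A k) ≠ 0 := EN_l0 nd hy hy0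
  by_contra hne
  have hga : aeval (ENga A k (nd.l 0)) P ≠ 0 := fun h => hne (EN_transfer hl h hy' hy'0)
  obtain ⟨q, hq0, hq⟩ := EN_char nd hl hga
  have h1 := hq S y hy hy0
  rw [hP, Polynomial.eval₂_at_zero] at h1
  apply hq0
  have h3 : aeval (fun t : Fin n => lf (nd.l t.succ) y) (q.coeff 0) = 0 := h1
  exact (injective_iff_map_eq_zero _).1 hind _ h3

end

end Pool.Agent.Lib.MP_17a322_nt.VP
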