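import Pool.Agent.Lib.MP_17a322_nt.VP.E00
import Pool.Agent.Lib.MP_17a322_nt.VP.EN1
import Pool.Agent.Lib.MP_17a322_nt.VA.A3b

/-!
The generic point of `A` and norms to the polynomial ring.
-/

universe u

namespace Pool.Agent.Lib.MP_17a322_nt.VP

open MvPolynomial
open scoped TensorProduct
open Pool.Agent.Lib.MP_17a322_nt.VA

section

variable {K : Type u} [Field K] {N : ℕ} {A : AV K N} {n e : ℕ} (nd : Noe A n e)
  (E : Type u) [Field E] [Algebra K E]

/-- `y` is a generic point over `E`, in the chart `l 0 = 1`. -/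
structure IsGn {M : Type u} [Field M] [Algebra K M] [Algebra E M] (y : Fin (N + 1) → M) :
    Prop where
  isPt : A.IsPt y
  lf0 : lf (nd.l 0) y = 1
  b₀ : y A.b₀ ≠ 0
  gen : ∀ H : MvPolynomial (Fin (N + 1)) E, aeval y H = 0 → ∀ (R : Type u) [CommRing R]
    [Algebra K R] [Algebra E R] [IsScalarTower K E R] (y' : Fin (N + 1) → R), A.IsPt y' →
    lf (nd.l 0) y' = 1 → aeval y' H = 0

theorem E01_lf0 : lf (nd.l 0) (ENgp A E) ≠ 0 := by
  intro h
  obtain ⟨L, _, _, P, hP, -⟩ := nd.indep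
  have h1 : lp (fun a => algebraMap K E (nd.l 0 a)) ∈ ENJ A E := by
    rw [← EN_gp_zero_iff, aeval_lp, EN_lf]
    exact h
  have h2 : A.IsPt (nd.y P) := by
    have h3 : nd.y P = fun a => (lf (nd.l 0) (A.x P))⁻¹ * A.x P a := by
      funext a
      unfold Noe.y
      rw [div_eq_inv_mul]
    rw [h3]
    exact (A.x_isPt P).smul _
  have h3 : lf (nd.l 0) (nd.y P) = 1 := by
    have h4 := congrArg (lf (nd.l 0)) (funext fun a => (mul_div_cancel₀ (A.x P a) hP).symm :
      A.x P = fun a => lf (nd.l 0) (A.x P) * nd.y P a)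
    rw [lf_smul] at h4
    exact mul_left_cancel₀ hP (by rw [← h4, mul_one])
  have h4 : A.IsPt fun a => (Algebra.TensorProduct.includeRight : L →ₐ[K] E ⊗[K] L) (nd.y P a) := by
    intro f hf
    rw [← MvPolynomial.comp_aeval_apply, h2 f hf, map_zero]
  have h5 := EN_mem h4 h1
  rw [aeval_lp, EN_lf] at h5
  have h6 : lf (nd.l 0) (fun a => (Algebra.TensorProduct.includeRight : L →ₐ[K] E ⊗[K] L)
      (nd.y P a)) = (Algebra.TensorProduct.includeRight : L →ₐ[K] E ⊗[K] L)
        (lf (nd.l 0) (nd.y P)) := by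
    unfold lf
    rw [map_sum]
    refine Finset.sum_congr rfl fun a _ => ?_
    rw [map_mul, AlgHom.commutes]
  rw [h6, h3, map_one] at h5
  exact one_ne_zero h5

omit nd in
theorem E01_b₀ : ENgp A E A.b₀ ≠ 0 := by
  intro h
  have h1 : (X A.b₀ : MvPolynomial (Fin (N + 1)) E) ∈ ENJ A E := by
    rw [← EN_gp_zero_iff, aeval_X]
    exact h
  have h2 := EN_mem (R := E) (A.x_isPt (0 : A.Pts E)) h1
  rw [aeval_X] at h2
  exact AV.x_zero_b₀ h2

theorem E_gen : ∃ (M : Type u) (_ : Field M) (_ : Algebra K M) (_ : Algebra E M)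
    (_ : IsScalarTower K E M) (y : Fin (N + 1) → M), IsGn nd E y := by
  refine ⟨ENF A E, inferInstance, inferInstance, inferInstance, inferInstance,
    ENga A E (nd.l 0), EN_ga_isPt _, EN_lf_ga (E01_lf0 nd E), ?_, ?_⟩
  · unfold ENga
    exact div_ne_zero (E01_b₀ E) (E01_lf0 nd E)
  · intro H hH R _ _ _ _ y' hy' h1'
    exact EN_transfer (E01_lf0 nd E) hH hy' h1'

variable {E}

/-- The norm of an element of the coordinate ring of the chart. -/
theorem E_norm {M : Type u} [Field M] [Algebra K M] [Algebra E M] [IsScalarTower K E M]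
    {y : Fin (N + 1) → M} (hy : IsGn nd E y) (H : MvPolynomial (Fin (N + 1)) E)
    (hH : aeval y H ≠ 0) :
    ∃ g : MvPolynomial (Fin n) E, g ≠ 0 ∧ ∀ (R : Type u) [CommRing R] [Algebra K R]
      [Algebra E R] [IsScalarTower K E R] (y' : Fin (N + 1) → R), A.IsPt y' →
      lf (nd.l 0) y' = 1 →
      aeval y' H ∣ aeval (fun k : Fin n => lf (nd.l k.succ) y') g := by
  have hl := E01_lf0 nd E
  have hga : aeval (ENga A E (nd.l 0)) H ≠ 0 := fun h =>
    hH (EN_transfer hl h hy.isPt hy.lf0)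
  obtain ⟨q, hq0, hq⟩ := EN_char nd hl hga
  refine ⟨q.coeff 0, hq0, fun R _ _ _ _ y' hy' h1' => ?_⟩
  have h1 := hq R y' hy' h1'
  have h2 : q = Polynomial.X * q.divX + Polynomial.C (q.coeff 0) :=
    (Polynomial.X_mul_divX_add q).symm
  rw [h2, Polynomial.eval₂_add, Polynomial.eval₂_mul, Polynomial.eval₂_X,
    Polynomial.eval₂_C] at h1
  refine ⟨-(q.divX.eval₂ (aeval fun t : Fin n => lf (nd.l t.succ) y').toRingHom
    (aeval y' H)), ?_⟩
  rw [mul_neg]
  exact eq_neg_of_add_eq_zero_right h1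

/-- The equations of the variety are the only ones which hold at a point with independent Noether
coordinates. -/
theorem E_ker {Ω : Type u} [Field Ω] [Algebra K Ω] [Algebra E Ω] [IsScalarTower K E Ω]
    {y : Fin (N + 1) → Ω} (hy : A.IsPt y) (h1 : lf (nd.l 0) y = 1)
    (hind : AlgebraicIndependent E fun k : Fin n => lf (nd.l k.succ) y)
    (H : MvPolynomial (Fin (N + 1)) E) (hH : aeval y H = 0) {R : Type u} [CommRing R]
    [Algebra K R] [Algebra E R] [IsScalarTower K E R] {y' : Fin (N + 1) → R} (hy' : A.IsPt y')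
    (h1' : lf (nd.l 0) y' = 1) : aeval y' H = 0 :=
  EN_gen nd hy h1 hind hH hy' h1'

end

end Pool.Agent.Lib.MP_17a322_nt.VP
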