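import Pool.Agent.Lib.MP_17a322_nt.VP.M6
import Pool.Agent.Lib.MP_17a322_nt.VA.G33
import Pool.Agent.Lib.MP_17a322_nt.VN.Z6

/-!
The smallest subgroup for sequences in a finitely generated group, without multiples.
-/

universe u

namespace Pool.Agent.Lib.MP_17a322_nt.VP

open MvPolynomial Height Filter
open Pool.Agent.Lib.MP_17a322_nt.RO
open Pool.Agent.Lib.MP_17a322_nt.VJ
open Pool.Agent.Lib.MP_17a322_nt.VN
open Pool.Agent.Lib.MP_17a322_nt.VA

/-- Division with remainder in a finitely generated group, for a sequence. -/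
theorem M_div {G : Type*} [AddCommGroup G] (Γ : AddSubgroup G) (hΓ : Γ.FG) (P : ℕ → G)
    (hP : ∀ i, P i ∈ Γ) {δ : ℕ} (hδ : 0 < δ) :
    ∃ (R : G) (P' : ℕ → G), ∀ᶠ i in (hyperfilter ℕ : Filter ℕ), P i = R + δ • P' i := by
  have h1 : AddGroup.FG Γ := (AddGroup.fg_iff_addSubgroup_fg Γ).2 hΓ
  have h2 : Module.Finite ℤ Γ := Module.Finite.iff_addGroup_fg.2 h1
  obtain ⟨n, f, hf⟩ := Module.Finite.exists_fin' ℤ Γ
  choose v hv using fun i => hf ⟨P i, hP i⟩
  have hδ' : (δ : ℤ) ≠ 0 := by exact_mod_cast hδ.ne'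
  obtain ⟨ρ, hρ⟩ := eventually_exists_fintype (hyperfilter ℕ)
    (fun (ρ : Fin n → Fin δ) (i : ℕ) => ∀ l, v i l = δ * (v i l / δ) + ((ρ l : ℕ) : ℤ))
    (Eventually.of_forall fun i => by
      refine ⟨fun l => ⟨(v i l % δ).toNat, ?_⟩, fun l => ?_⟩
      · have h3 := Int.emod_nonneg (v i l) hδ'
        have h4 := Int.emod_lt_of_pos (v i l) (show (0 : ℤ) < δ by exact_mod_cast hδ)
        omega
      · have h3 := Int.emod_nonneg (v i l) hδ'
        have h4 := Int.mul_ediv_add_emod (v i l) δ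
        show v i l = δ * (v i l / δ) + (((v i l % δ).toNat : ℕ) : ℤ)
        rw [Int.toNat_of_nonneg h3]
        exact h4.symm)
  refine ⟨(f fun l => ((ρ l : ℕ) : ℤ) : Γ), fun i => (f fun l => v i l / δ : Γ), ?_⟩
  filter_upwards [hρ] with i hi
  have h3 : v i = (fun l => ((ρ l : ℕ) : ℤ)) + δ • (fun l => v i l / δ) := by
    funext l
    rw [Pi.add_apply, Pi.smul_apply, nsmul_eq_mul, add_comm]
    exact hi l
  have h4 := hv i
  rw [h3, map_add, map_nsmul] at h4
  have h5 := congrArg (fun x : Γ => (x : G)) h4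
  exact h5.symm

/-- The smallest subgroup, and no rational covector at any translate of `b` by a point of `B(K)`, for
sequences in a finitely generated group. -/
theorem geom_noRat1 {K : Type u} [Field K] [NumberField K] {N : ℕ} (A : AV K N) {H : ℕ → ℝ}
    (hH : Tendsto H (hyperfilter ℕ : Filter ℕ) atTop) (Γ : AddSubgroup (A.Pts K)) (hΓ : Γ.FG)
    (P : ℕ → A.Pts K) (hP : ∀ i, P i ∈ Γ) (p : A.Pts (GK K)) (hp : IsGerm A P p) :
    ∃ (B : AV K N) (hB : IsSubAV B A) (w : A.Pts (k0 K H hH)) (w' : A.Pts (GK K))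
      (b : B.Pts (GK K)), A.Img (k0 K H hH).val w w' ∧ p = w' + hB.inc (GK K) b ∧
      MinSub B b ∧ ∀ p₁ : B.Pts K, NoRat B hH (b - B.img (Algebra.ofId K (GK K)) p₁) := by
  obtain ⟨B, hB, w, w', b, h2, h3, h4, h5⟩ := geomD1 A (k0 K H hH)
    (fun a ha => K_closed a ha) (fun a ha => k0_closed H hH a ha) p fun δ hδ => by
      obtain ⟨R, P', hR⟩ := M_div Γ hΓ P hP hδ
      obtain ⟨s₁, hs₁⟩ := Z_exists_germ A P'
      obtain ⟨r', hr'⟩ := Z_exists_img A (Algebra.ofId K (GK K)) R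
      refine ⟨R, r', s₁, hr', ?_⟩
      have h1 : IsGerm A (fun _ => R) r' := by
        obtain ⟨c, hc, h1⟩ := hr'
        exact ⟨c, hc, fun i => h1 i⟩
      have h2 := (h1.add_sub (hs₁.nsmul δ)).1
      exact (hp.congr hR).unique h2
  refine ⟨B, hB, w, w', b, h2, h3, h4, fun p => ?_⟩
  intro n e nd hl o t ht M hM ν hν
  have h6 : B.Img (Algebra.ofId K (GK K)) p (B.img (Algebra.ofId K (GK K)) p) :=
    (B.img_eq_iff (Algebra.ofId K (GK K))).1 rfl
  exact G.noRat_of_noRatD B (k0 K H hH) _ (G.noRatD_sub B (k0 K H hH) h5 h6) nd hl ht M hM ν hν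

end Pool.Agent.Lib.MP_17a322_nt.VP
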