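import Pool.Agent.Lib.MP_17a322_nt.VP.CB
import Pool.Agent.Lib.MP_17a322_nt.VA.C7
import Pool.Agent.Lib.MP_17a322_nt.VJ.J8

/-!
Roth's theorem over abelian varieties, part C: degrees and sizes of the block polynomials.
-/

universe u

namespace Pool.Agent.Lib.MP_17a322_nt.VP

open MvPolynomial Height
open Pool.Agent.Lib.MP_17a322_nt.RO
open Pool.Agent.Lib.MP_17a322_nt.VJ
open Pool.Agent.Lib.MP_17a322_nt.VN
open Pool.Agent.Lib.MP_17a322_nt.VA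

theorem C_BD_aeval {K σ τ ι : Type*} [Field K] [Fintype σ] [Fintype τ] [Fintype ι]
    {F : MvPolynomial ι K} {D : ℕ} (hF : ∀ m ∈ F.support, ∑ t, m t ≤ D)
    (g : ι → MvPolynomial (σ ⊕ τ) K) {p q : ℕ} (hg : ∀ i, BD (g i) p q) :
    BD (aeval g F) (D * p) (D * q) := by
  classical
  rw [MvPolynomial.aeval_def, MvPolynomial.eval₂_eq', MvPolynomial.algebraMap_eq]
  refine BD.sum _ _ fun m hm => ?_
  have e1 : BD (∏ i, g i ^ m i) (∑ i, m i * p) (∑ i, m i * q) :=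
    BD.prod Finset.univ _ _ _ fun i _ => (hg i).pow _
  refine ((BD.C (σ := σ) (τ := τ) (coeff m F) 0 0).mul e1).mono ?_ ?_
  · rw [zero_add, ← Finset.sum_mul]
    exact Nat.mul_le_mul_right _ (hF m hm)
  · rw [zero_add, ← Finset.sum_mul]
    exact Nat.mul_le_mul_right _ (hF m hm)

theorem C_homog {K ι : Type*} [Field K] [Fintype ι] {F : MvPolynomial ι K} {D : ℕ}
    (hF : F.IsHomogeneous D) : ∀ m ∈ F.support, ∑ t, m t ≤ D := by
  intro m hm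
  refine C7_total F hF.totalDegree_le m hm

section

variable {K : Type u} [Field K] {N : ℕ} {A : AV K N} {n e₀ : ℕ} (nd : Noe A n e₀)

variable (A) in
theorem C_mu_BD {τ : Type*} [Fintype τ] (j : ℕ) (a : Fin (N + 1)) :
    BD (A.mu j (fun a => (X (Sum.inl a) : MvPolynomial (Fin (N + 1) ⊕ τ) K)) a) (4 ^ j) 0 := by
  induction j generalizing a with
  | zero =>
    rw [pow_zero]
    exact BD.X_inl a 0
  | succ j ih =>
    rw [A.mu_succ]
    refine (BD.aeval (S_BD A a A.b₀) _ (p1 := 4 ^ j) (q1 := 0) (p2 := 4 ^ j) (q2 := 0) ih ih).mono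
      ?_ ?_
    · rw [pow_succ]
      omega
    · omega

variable (A) in
theorem C_V_BD (j : ℕ) (a : Fin (N + 1)) : BD (C_V A j a) (2 * 4 ^ j) 2 := by
  unfold C_V AV.row
  refine (BD.aeval (S_BD A a A.b₀) _ (p1 := 0) (q1 := 1) (p2 := 4 ^ j) (q2 := 0)
    (fun i => BD.X_inr i.castSucc 0) (fun i => C_mu_BD A j i)).mono ?_ ?_
  · omega
  · omega

theorem C_BP_BD {j κ D : ℕ} {α β : MvPolynomial (Fin (N + 1)) K}
    (hα : ∀ m ∈ α.support, ∑ t, m t ≤ D) (hβ : ∀ m ∈ β.support, ∑ t, m t ≤ D) (w μ ρ : ℕ)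
    (hμ : μ ≤ κ) : BD (C_BP A j κ α β w μ ρ) (κ * (D * (2 * 4 ^ j))) (κ * (D * 2) + ρ) := by
  unfold C_BP
  have h1 := (C_BD_aeval hα (C_V A j) (C_V_BD A j)).pow (μ - w)
  have h2 := (C_BD_aeval hβ (C_V A j) (C_V_BD A j)).pow (κ - μ)
  have h3 : BD (X (Sum.inr (Fin.last (N + 1))) ^ ρ :
      MvPolynomial (Fin (N + 1) ⊕ Fin (N + 2)) K) (ρ * 0) (ρ * 1) :=
    (BD.X_inr (Fin.last (N + 1)) 0).pow ρ
  refine (((BD.C _ 0 0).mul (h1.mul h2)).mul h3).mono ?_ ?_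
  · rw [zero_add, mul_zero, add_zero, ← add_mul]
    exact Nat.mul_le_mul_right _ (by omega)
  · rw [zero_add, mul_one, ← add_mul]
    exact Nat.add_le_add_right (Nat.mul_le_mul_right _ (by omega)) _

theorem C_GR_BD {j κ D : ℕ} {α β : MvPolynomial (Fin (N + 1)) K}
    (hα : ∀ m ∈ α.support, ∑ t, m t ≤ D) (hβ : ∀ m ∈ β.support, ∑ t, m t ≤ D) (w μ ρ : ℕ)
    (hμ : μ ≤ κ) (ρ' : Fin (C_d nd + 1)) :
    BD (GR (C_T nd) (C_BP A j κ α β w μ ρ) ρ') (κ * (D * (2 * 4 ^ j)))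
      ((κ * (D * 2) + ρ) * C_D nd) :=
  GR_BD (C_T nd) (C_BP_BD hα hβ w μ ρ hμ) (le_C_D nd) ρ'

theorem C_mon_BD {σ : Type*} [Fintype σ] (ν : Fin n → ℕ) :
    BD (∏ a, (X (Sum.inr a) : MvPolynomial (σ ⊕ Fin n) K) ^ ν a) 0 (∑ a, ν a) := by
  refine (BD.prod Finset.univ _ (fun a => ν a * 0) (fun a => ν a * 1)
    fun a _ => (BD.X_inr a 0).pow (ν a)).mono ?_ ?_
  · simp
  · simp

theorem C_H_BD {j κ D : ℕ} {α β : MvPolynomial (Fin (N + 1)) K}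
    (hα : ∀ m ∈ α.support, ∑ t, m t ≤ D) (hβ : ∀ m ∈ β.support, ∑ t, m t ≤ D) (w μ ρ : ℕ)
    (hμ : μ ≤ κ) (ρ' : Fin (C_d nd + 1)) (ν : Fin n → ℕ) :
    BD (C_H nd j κ α β w ρ' ρ μ ν) (κ * (D * (2 * 4 ^ j)))
      (∑ a, ν a + (κ * (D * 2) + ρ) * C_D nd) := by
  unfold C_H
  refine ((C_mon_BD ν).mul (C_GR_BD nd hα hβ w μ ρ hμ ρ')).mono ?_ le_rfl
  rw [zero_add]

theorem C_degreeOf_cz {a b : ℕ} {P : MvPolynomial (Fin a ⊕ Fin b) K} {q : Fin b → ℕ}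
    (h : cz P q ≠ 0) (t : Fin b) : q t ≤ degreeOf (Sum.inr t) P := by
  obtain ⟨s, hs⟩ := MvPolynomial.ne_zero_iff.1 h
  rw [coeff_cz] at hs
  exact monomial_le_degreeOf (Sum.inr t) (mem_support_iff.2 hs)

theorem C_degreeOf_BD {σ τ : Type*} [Fintype σ] [Fintype τ] {P : MvPolynomial (σ ⊕ τ) K} {p q : ℕ}
    (hP : BD P p q) (t : τ) : degreeOf (Sum.inr t) P ≤ q := by
  classical
  rw [degreeOf_le_iff]
  intro m hm
  exact (Finset.single_le_sum (f := fun t => m (Sum.inr t)) (fun _ _ => Nat.zero_le _)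
    (Finset.mem_univ t)).trans (hP m hm).2

theorem C_degreeOf_mon {σ τ : Type*} [Fintype τ] (ν : τ → ℕ) (t : τ) :
    degreeOf (Sum.inr t) (∏ a, (X (Sum.inr a) : MvPolynomial (σ ⊕ τ) K) ^ ν a) ≤ ν t := by
  classical
  refine (degreeOf_prod_le _ _ _).trans ?_
  rw [Finset.sum_eq_single t]
  · refine (degreeOf_pow_le _ _ _).trans ?_
    rw [degreeOf_X_self, mul_one]
  · intro t' _ ht'
    refine Nat.le_zero.1 ((degreeOf_pow_le _ _ _).trans ?_)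
    rw [degreeOf_X_of_ne (fun h => ht' (Sum.inr_injective h).symm), mul_zero]
  · intro h
    exact absurd (Finset.mem_univ t) h

theorem C_H_cz {j κ D : ℕ} {α β : MvPolynomial (Fin (N + 1)) K}
    (hα : ∀ m ∈ α.support, ∑ t, m t ≤ D) (hβ : ∀ m ∈ β.support, ∑ t, m t ≤ D) {w μ ρ : ℕ}
    (hμ : μ ≤ κ) {ρ' : Fin (C_d nd + 1)} {ν q : Fin n → ℕ}
    (h : cz (C_H nd j κ α β w ρ' ρ μ ν) q ≠ 0) (t : Fin n) :
    q t ≤ ν t + (κ * (D * 2) + ρ) * C_D nd := by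
  refine (C_degreeOf_cz h t).trans ?_
  unfold C_H
  refine (degreeOf_mul_le _ _ _).trans (Nat.add_le_add (C_degreeOf_mon ν t) ?_)
  exact C_degreeOf_BD (C_GR_BD nd hα hβ w μ ρ hμ ρ') t

/-! ### Sizes -/

variable (A) in
theorem exists_C_V_NV : ∃ E : SC K, ∀ (v : AbsoluteValue K ℝ) (j : ℕ) (a : Fin (N + 1)),
    NV v (C_V A j a) ≤ E.k v ^ 4 ^ j := by
  obtain ⟨E, hE⟩ := C7_fam (fun p : Fin (N + 1) × Fin (N + 1) => A.S p.1 p.2)
  refine ⟨E.pw 4, fun v j a => ?_⟩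
  have hE1 := E.one_le v
  have hdeg : ∀ a b, ∀ m ∈ (A.S a b).support, ∑ t, m t ≤ 4 := by
    intro a b m hm
    have h := A.bihomog a b m hm
    rw [Fintype.sum_sum_type, h.1, h.2]
  have hmu : ∀ j a, NV v (A.mu j
      (fun a => (X (Sum.inl a) : MvPolynomial (Fin (N + 1) ⊕ Fin (N + 2)) K)) a) ≤
      E.k v ^ (4 ^ j - 1) := by
    intro j
    induction j with
    | zero =>
      intro a
      rw [A.mu_zero, NV_X, pow_zero, Nat.sub_self, pow_zero]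
    | succ j ih =>
      intro a
      rw [A.mu_succ]
      unfold AV.dup
      have h4 : 1 ≤ 4 ^ j := Nat.one_le_pow _ _ (by norm_num)
      refine (SN_aeval_pow (SN_NV v) (A.S a A.b₀) (D := 4) (hdeg a A.b₀) _
        (one_le_pow₀ hE1 : 1 ≤ E.k v ^ (4 ^ j - 1)) ?_).trans ?_
      · rintro (t | t)
        · exact ih t
        · exact ih t
      · refine (mul_le_mul_of_nonneg_right (hE (a, A.b₀) K v)
          (pow_nonneg (pow_nonneg (E.pos v).le _) _)).trans ?_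
        rw [← pow_mul, ← pow_succ']
        refine pow_le_pow_right₀ hE1 ?_
        rw [pow_succ]
        omega
  have h4 : 1 ≤ 4 ^ j := Nat.one_le_pow _ _ (by norm_num)
  have hM : 1 ≤ E.k v ^ (4 ^ j - 1) := one_le_pow₀ hE1
  unfold C_V AV.row
  refine (SN_aeval_pow (SN_NV v) (A.S a A.b₀) (D := 4) (hdeg a A.b₀) _ hM ?_).trans ?_
  · rintro (t | t)
    · show NV v (X (Sum.inr t.castSucc)) ≤ _
      rw [NV_X]
      exact hM
    · exact hmu j t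
  · refine (mul_le_mul_of_nonneg_right (hE (a, A.b₀) K v)
      (pow_nonneg (pow_nonneg (E.pos v).le _) _)).trans ?_
    rw [← pow_mul, ← pow_succ']
    have h5 : E.k v ^ ((4 ^ j - 1) * 4 + 1) ≤ (E.k v ^ 4) ^ 4 ^ j := by
      rw [← pow_mul]
      refine pow_le_pow_right₀ hE1 ?_
      omega
    exact h5.trans (pow_le_pow_left₀ (pow_nonneg (E.pos v).le _) (E.pow_le 4 v) _)

theorem C_map_self {σ : Type*} (F : MvPolynomial σ K) :
    MvPolynomial.map (algebraMap K K) F = F := by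
  rw [Algebra.algebraMap_self, MvPolynomial.map_id]

theorem exists_C_BP_NV (D : ℕ) : ∃ E : SC K, ∀ (v : AbsoluteValue K ℝ) (j κ : ℕ)
    (α β : MvPolynomial (Fin (N + 1)) K) (w μ ρ : ℕ), (∀ m ∈ α.support, ∑ t, m t ≤ D) →
    (∀ m ∈ β.support, ∑ t, m t ≤ D) → μ ≤ κ →
    NV v (C_BP A j κ α β w μ ρ) ≤
      E.k v ^ (κ * 4 ^ j) * max 1 (max (NV v α) (NV v β)) ^ κ := by
  obtain ⟨E₁, hE₁⟩ := exists_C_V_NV A
  obtain ⟨E₂, hE₂⟩ := (Adm_cst.{u, u} (K := K) 2).exists_SC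
  refine ⟨E₂.mul (E₁.pw D), fun v j κ α β w μ ρ hα hβ hμ => ?_⟩
  have hS := SN_NV v (σ := Fin (N + 1) ⊕ Fin (N + 2))
  obtain ⟨R, hR⟩ : ∃ R, R = max 1 (max (NV v α) (NV v β)) := ⟨_, rfl⟩
  have hR1 : 1 ≤ R := by
    rw [hR]
    exact le_max_left _ _
  have hR0 : 0 ≤ R := zero_le_one.trans hR1
  rw [← hR]
  have e1 := E₁.one_le v
  have e2 := E₂.one_le v
  have hM : 1 ≤ E₁.k v ^ 4 ^ j := one_le_pow₀ e1
  obtain ⟨Q, hQ⟩ : ∃ Q, Q = R * (E₁.k v ^ 4 ^ j) ^ D := ⟨_, rfl⟩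
  have hQ1 : 1 ≤ Q := by
    rw [hQ]
    exact one_le_mul_of_one_le_of_one_le hR1 (one_le_pow₀ hM)
  have hQ0 : 0 ≤ Q := zero_le_one.trans hQ1
  have hval : ∀ g : MvPolynomial (Fin (N + 1)) K, (∀ m ∈ g.support, ∑ t, m t ≤ D) →
      NV v g ≤ R → NV v (aeval (C_V A j) g) ≤ Q := by
    intro g hg hgR
    refine (SN_aeval_pow hS g hg _ hM fun t => hE₁ v j t).trans ?_
    rw [C_map_self, hQ]
    exact mul_le_mul_of_nonneg_right hgR (pow_nonneg (zero_le_one.trans hM) _)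
  have h1 := hval α hα (by rw [hR]; exact (le_max_left _ _).trans (le_max_right _ _))
  have h2 := hval β hβ (by rw [hR]; exact (le_max_right _ _).trans (le_max_right _ _))
  have h3 : v ((μ.choose w : ℕ) : K) ≤ cst v 2 ^ κ := by
    rw [← cst_pow]
    refine (J8_natCast_le v _).trans (cst_mono v ?_)
    exact (Nat.choose_le_two_pow μ w).trans (Nat.pow_le_pow_right (by norm_num) hμ)
  have h4 : NV v (X (Sum.inr (Fin.last (N + 1))) ^ ρ :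
      MvPolynomial (Fin (N + 1) ⊕ Fin (N + 2)) K) ≤ 1 := by
    refine (hS.pow_le _ _).trans ?_
    show NV v (X _ : MvPolynomial (Fin (N + 1) ⊕ Fin (N + 2)) K) ^ ρ ≤ 1
    rw [NV_X, one_pow]
  have h5 : NV v (aeval (C_V A j) α ^ (μ - w) * aeval (C_V A j) β ^ (κ - μ)) ≤ Q ^ κ := by
    refine (hS.mul _ _).trans ?_
    refine (mul_le_mul ((hS.pow_le _ _).trans (pow_le_pow_left₀ (hS.nonneg _) h1 _))
      ((hS.pow_le _ _).trans (pow_le_pow_left₀ (hS.nonneg _) h2 _)) (hS.nonneg _)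
      (pow_nonneg hQ0 _)).trans ?_
    rw [← pow_add]
    exact pow_le_pow_right₀ hQ1 (by omega)
  have hc2 : 0 ≤ cst v 2 := cst_nonneg v 2
  unfold C_BP
  refine (hS.mul _ _).trans ?_
  refine (mul_le_of_le_one_right (hS.nonneg _) h4).trans ?_
  rw [NV_C_mul]
  refine (mul_le_mul h3 h5 (hS.nonneg _) (pow_nonneg hc2 _)).trans ?_
  have h6 : cst v 2 ^ κ ≤ (E₂.k v) ^ (κ * 4 ^ j) := by
    refine (pow_le_pow_left₀ hc2 (hE₂ K v) _).trans (pow_le_pow_right₀ e2 ?_)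
    exact Nat.le_mul_of_pos_right κ (by positivity)
  have h7 : Q ^ κ = (E₁.k v ^ D) ^ (κ * 4 ^ j) * R ^ κ := by
    rw [hQ, mul_pow, ← pow_mul, ← pow_mul, ← pow_mul, mul_comm]
    congr 2
    ring
  rw [h7, ← mul_assoc]
  refine mul_le_mul_of_nonneg_right ?_ (pow_nonneg hR0 _)
  refine (mul_le_mul_of_nonneg_right h6 (by positivity)).trans ?_
  rw [← mul_pow]
  refine pow_le_pow_left₀ (by positivity) ?_ _
  exact (mul_le_mul_of_nonneg_left (E₁.pow_le D v) (zero_le_one.trans e2)).trans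
    (E₂.mul_le (E₁.pw D) v)

theorem exists_C_H_NV (D : ℕ) : ∃ E : SC K, ∀ (v : AbsoluteValue K ℝ) (j κ : ℕ)
    (α β : MvPolynomial (Fin (N + 1)) K) (w : ℕ) (ρ' : Fin (C_d nd + 1)) (ρ μ : ℕ)
    (ν : Fin n → ℕ), (∀ m ∈ α.support, ∑ t, m t ≤ D) →
    (∀ m ∈ β.support, ∑ t, m t ≤ D) → μ ≤ κ → ρ ≤ C_d nd → 1 ≤ κ →
    NV v (C_H nd j κ α β w ρ' ρ μ ν) ≤
      E.k v ^ (κ * 4 ^ j) * max 1 (max (NV v α) (NV v β)) ^ κ := by
  obtain ⟨E₁, hE₁⟩ := exists_C_BP_NV (A := A) D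
  obtain ⟨E₂, hE₂⟩ := C7_fam (fun p : Fin (N + 2) × Fin (C_d nd + 1) × Fin (C_d nd + 1) =>
    C_T nd p.1 p.2.1 p.2.2)
  obtain ⟨E₃, hE₃⟩ := (Adm_cst.{u, u} (K := K) (C_d nd + 1)).exists_SC
  refine ⟨E₁.mul ((E₃.mul E₂).pw (D * 2 + C_d nd)), fun v j κ α β w ρ' ρ μ ν hα hβ hμ hρ hκ => ?_⟩
  have hS := SN_NV v (σ := Fin (N + 1) ⊕ Fin n)
  have e1 := E₁.one_le v
  have e2 := E₂.one_le v
  have e3 := E₃.one_le v
  have hc1 : 1 ≤ cst v (C_d nd + 1) := one_le_cst v (Nat.succ_pos _)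
  obtain ⟨R, hR⟩ : ∃ R, R = max 1 (max (NV v α) (NV v β)) := ⟨_, rfl⟩
  have hR1 : 1 ≤ R := by
    rw [hR]
    exact le_max_left _ _
  obtain ⟨B, hB⟩ : ∃ B : ℝ, B = cst v (C_d nd + 1) * E₂.k v := ⟨_, rfl⟩
  have hB1 : 1 ≤ B := by
    rw [hB]
    exact one_le_mul_of_one_le_of_one_le hc1 e2
  have hBE : B ≤ (E₃.mul E₂).k v := by
    rw [hB]
    exact (mul_le_mul_of_nonneg_right (hE₃ K v) (zero_le_one.trans e2)).trans (SC.mul_le _ _ v)
  have h1 := hE₁ v j κ α β w μ ρ hα hβ hμ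
  rw [← hR] at h1 ⊢
  have h2 := GR_NV v (C_T nd) (C_BP_BD (A := A) (j := j) hα hβ w μ ρ hμ) e2
    (fun j' l' m' => by
      have h3 := hE₂ (j', l', m') K v
      rw [C_map_self] at h3
      exact h3) ρ'
  rw [← hB] at h2
  have h3 : NV v (∏ a, (X (Sum.inr a) : MvPolynomial (Fin (N + 1) ⊕ Fin n) K) ^ ν a) ≤ 1 := by
    refine (hS.prod_le Finset.univ _).trans ?_
    refine Finset.prod_le_one (fun t _ => hS.nonneg _) fun t _ => ?_
    refine (hS.pow_le _ _).trans ?_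
    show NV v (X _ : MvPolynomial (Fin (N + 1) ⊕ Fin n) K) ^ _ ≤ 1
    rw [NV_X, one_pow]
  unfold C_H
  refine (hS.mul _ _).trans ?_
  refine (mul_le_of_le_one_left (hS.nonneg _) h3).trans ?_
  refine h2.trans ?_
  have h4 : B ^ (κ * (D * 2) + ρ) ≤ ((E₃.mul E₂).pw (D * 2 + C_d nd)).k v ^ (κ * 4 ^ j) := by
    have h5 : κ * (D * 2) + ρ ≤ (D * 2 + C_d nd) * (κ * 4 ^ j) := by
      have h6 : 1 ≤ 4 ^ j := Nat.one_le_pow _ _ (by norm_num)
      calc κ * (D * 2) + ρ ≤ κ * (D * 2) + C_d nd * κ :=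
            Nat.add_le_add_left (hρ.trans (Nat.le_mul_of_pos_right _ hκ)) _
        _ = (D * 2 + C_d nd) * κ := by ring
        _ ≤ (D * 2 + C_d nd) * (κ * 4 ^ j) :=
            Nat.mul_le_mul_left _ (Nat.le_mul_of_pos_right κ h6)
    refine (pow_le_pow_right₀ hB1 h5).trans ?_
    rw [pow_mul]
    refine pow_le_pow_left₀ (by positivity) ?_ _
    exact (pow_le_pow_left₀ (zero_le_one.trans hB1) hBE _).trans (SC.pow_le _ _ v)
  have hE0 : 0 ≤ E₁.k v ^ (κ * 4 ^ j) * R ^ κ := by positivity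
  calc NV v (C_BP A j κ α β w μ ρ) * B ^ (κ * (D * 2) + ρ) ≤
        (E₁.k v ^ (κ * 4 ^ j) * R ^ κ) *
          ((E₃.mul E₂).pw (D * 2 + C_d nd)).k v ^ (κ * 4 ^ j) :=
        mul_le_mul h1 h4 (by positivity) hE0
    _ = (E₁.k v * ((E₃.mul E₂).pw (D * 2 + C_d nd)).k v) ^ (κ * 4 ^ j) * R ^ κ := by
        rw [mul_pow]
        ring
    _ ≤ _ := by
        refine mul_le_mul_of_nonneg_right ?_ (by positivity)
        exact pow_le_pow_left₀ (mul_nonneg (zero_le_one.trans e1) (SC.pos _ v).le)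
          (SC.mul_le _ _ v) _

end

end Pool.Agent.Lib.MP_17a322_nt.VP
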