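import Pool.Agent.Lib.MP_17a322_nt.VP.CB

/-!
Roth's theorem over abelian varieties, part C: the linear conditions at points.
-/

universe u

namespace Pool.Agent.Lib.MP_17a322_nt.VP

open MvPolynomial Height
open Pool.Agent.Lib.MP_17a322_nt.RO
open Pool.Agent.Lib.MP_17a322_nt.VJ
open Pool.Agent.Lib.MP_17a322_nt.VN
open Pool.Agent.Lib.MP_17a322_nt.VA

section

variable {K : Type u} [Field K] {N : ℕ} {A : AV K N} {n e₀ : ℕ} (nd : Noe A n e₀)

/-- The value of one block in terms of its components. -/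
theorem C_block {R : Type u} [CommRing R] [Algebra K R] (Y η : Fin (N + 1) → R)
    (hη : A.IsPt η) (hη0 : lf (nd.l 0) η = 1) (j κ : ℕ) (α β : MvPolynomial (Fin (N + 1)) K)
    (w ρ μ : ℕ) (ν : Fin n → ℕ) (D₀ : ℕ)
    (hD : ∀ ρ', (C_H nd j κ α β w ρ' ρ μ ν).totalDegree ≤ D₀) :
    (∏ a : Fin n, lf (nd.l a.succ) η ^ ν a) *
      aeval (Sum.elim Y (C_u nd η)) (C_BP A j κ α β w μ ρ) =
    ∑ p ∈ Finset.univ ×ˢ box (fun _ : Fin n => D₀ + 1),
      (aeval η nd.θ ^ ((p.1 : Fin (C_d nd + 1)) : ℕ) * ∏ a : Fin n, lf (nd.l a.succ) η ^ p.2 a) *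
        aeval Y (cz (C_H nd j κ α β w p.1 ρ μ ν) p.2) := by
  rw [GR_eval (C_T nd) (C_BP A j κ α β w μ ρ) (fun l : Fin (C_d nd + 1) => aeval η nd.θ ^ (l : ℕ))
    (fun k : Fin n => lf (nd.l k.succ) η) (C_u nd η) (by rw [Fin.val_zero, pow_zero])
    (fun i m => C_rel nd η hη hη0 i m) Y, Finset.sum_product, Finset.mul_sum]
  refine Finset.sum_congr rfl fun ρ' _ => ?_
  have h1 : aeval (Sum.elim Y fun k : Fin n => lf (nd.l k.succ) η) (C_H nd j κ α β w ρ' ρ μ ν) =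
      (∏ a : Fin n, lf (nd.l a.succ) η ^ ν a) *
        aeval (Sum.elim Y fun k : Fin n => lf (nd.l k.succ) η)
          (GR (C_T nd) (C_BP A j κ α β w μ ρ) ρ') := by
    unfold C_H
    rw [map_mul, map_prod]
    congr 1
    refine Finset.prod_congr rfl fun a _ => ?_
    rw [map_pow, aeval_X, Sum.elim_inr]
  rw [mul_left_comm, ← h1, C_expand _ D₀ (hD ρ'), Finset.mul_sum]
  refine Finset.sum_congr rfl fun q _ => ?_
  rw [mul_assoc]

theorem C_sum_zero {m : ℕ} {B : VF m n → ℕ} {j κ : Fin m → ℕ}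
    {α β : Fin m → MvPolynomial (Fin (N + 1)) K} {T : ℝ} {c : (VF m n → ℕ) → K}
    (hc : C_CC nd B j κ α β T c) {R : Type u} [CommRing R] [Algebra K R] (Y : Fin (N + 1) → R)
    (η : Fin m → Fin (N + 1) → R) (hY : A.IsPt Y) (hY0 : lf (nd.l 0) Y = 1)
    (hη : ∀ i, A.IsPt (η i)) (hη0 : ∀ i, lf (nd.l 0) (η i) = 1) (w : Fin m → ℕ)
    (hw : (∑ i, (4 : ℝ) ^ j i * w i) < T) (hwκ : ∀ i, w i ≤ κ i) :
    ∑ d ∈ box (fun t => B t + 1), algebraMap K R (c d) *
      ((∏ a : Fin n, lf (nd.l a.succ) Y ^ d (VF.x a)) *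
        ∏ i, ((∏ a : Fin n, lf (nd.l a.succ) (η i) ^ d (VF.z (i, a))) *
          aeval (Sum.elim Y (C_u nd (η i)))
            (C_BP A (j i) (κ i) (α i) (β i) (w i) (d (VF.u i)) (d (VF.th i))))) = 0 := by
  classical
  obtain ⟨H, hH⟩ : ∃ H : (VF m n → ℕ) → Fin m → Fin (C_d nd + 1) →
      MvPolynomial (Fin (N + 1) ⊕ Fin n) K, H = fun d i ρ' =>
        C_H nd (j i) (κ i) (α i) (β i) (w i) ρ' (d (VF.th i)) (d (VF.u i))
          fun a => d (VF.z (i, a)) := ⟨_, rfl⟩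
  -- a bound for the degrees
  obtain ⟨D₀, hD₀⟩ : ∃ D₀ : ℕ, ∀ d ∈ box (fun t => B t + 1), ∀ i ρ',
      (H d i ρ').totalDegree ≤ D₀ := by
    refine ⟨∑ d ∈ box (fun t => B t + 1), ∑ i, ∑ ρ', (H d i ρ').totalDegree,
      fun d hd i ρ' => ?_⟩
    refine le_trans ?_ (Finset.single_le_sum (f := fun d => ∑ i, ∑ ρ', (H d i ρ').totalDegree)
      (fun _ _ => Nat.zero_le _) hd)
    refine le_trans ?_ (Finset.single_le_sum (f := fun i => ∑ ρ', (H d i ρ').totalDegree)
      (fun _ _ => Nat.zero_le _) (Finset.mem_univ i))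
    exact Finset.single_le_sum (f := fun ρ' => (H d i ρ').totalDegree)
      (fun _ _ => Nat.zero_le _) (Finset.mem_univ ρ')
  -- the reduced polynomials vanish
  have hQ : ∀ (r' : Fin (e₀ + 1)) (ρ' : Fin m → Fin (C_d nd + 1)) (q : Fin m → Fin n → ℕ),
      ∑ d ∈ box (fun t => B t + 1), (MvPolynomial.C (c d) : MvPolynomial (Fin n) K) *
        ((∏ a, X a ^ d (VF.x a)) * RR nd.Mx (∏ i, cz (H d i (ρ' i)) (q i)) r') = 0 := by
    intro r' ρ' q
    refine MvPolynomial.ext _ _ fun q₀ => ?_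
    have h1 := hc w r' ρ' (fun t => q₀ t) q hw hwκ
    have hq : Finsupp.equivFunOnFinite.symm (fun t => q₀ t) = q₀ := by
      ext t
      rfl
    rw [coeff_zero, coeff_sum, ← h1]
    refine Finset.sum_congr rfl fun d _ => ?_
    rw [coeff_C_mul, C_MC, hq, hH]
  have hwz : aeval Y (nd.w 0) = (1 : R) := by rw [nd.w_zero, map_one]
  have hr := nd.rel R Y hY hY0
  -- the sums over `d`
  have hin : ∀ (ρ' : Fin m → Fin (C_d nd + 1)) (q : Fin m → Fin n → ℕ),
      ∑ d ∈ box (fun t => B t + 1), algebraMap K R (c d) *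
        ((∏ a : Fin n, lf (nd.l a.succ) Y ^ d (VF.x a)) *
          aeval Y (∏ i, cz (H d i (ρ' i)) (q i))) = 0 := by
    intro ρ' q
    have h1 : ∀ d ∈ box (fun t => B t + 1), algebraMap K R (c d) *
        ((∏ a : Fin n, lf (nd.l a.succ) Y ^ d (VF.x a)) *
          aeval Y (∏ i, cz (H d i (ρ' i)) (q i))) =
        ∑ r', aeval Y (nd.w r') * aeval (fun t : Fin n => lf (nd.l t.succ) Y)
          ((MvPolynomial.C (c d) : MvPolynomial (Fin n) K) *
            ((∏ a, X a ^ d (VF.x a)) * RR nd.Mx (∏ i, cz (H d i (ρ' i)) (q i)) r')) := by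
      intro d _
      rw [RR_eval nd.Mx (∏ i, cz (H d i (ρ' i)) (q i)) (fun r' => aeval Y (nd.w r'))
        (fun t : Fin n => lf (nd.l t.succ) Y) Y hwz hr, Finset.mul_sum, Finset.mul_sum]
      refine Finset.sum_congr rfl fun r' _ => ?_
      rw [map_mul, map_mul, map_prod, aeval_C]
      have h2 : ∏ t, aeval (fun t : Fin n => lf (nd.l t.succ) Y)
          (X t ^ d (VF.x t) : MvPolynomial (Fin n) K) =
          ∏ a : Fin n, lf (nd.l a.succ) Y ^ d (VF.x a) := by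
        refine Finset.prod_congr rfl fun t _ => ?_
        rw [map_pow, aeval_X]
      rw [h2]
      ring
    rw [Finset.sum_congr rfl h1, Finset.sum_comm]
    refine Finset.sum_eq_zero fun r' _ => ?_
    rw [← Finset.mul_sum, ← map_sum, hQ, map_zero, mul_zero]
  -- expansion of the blocks
  have hbl : ∀ d ∈ box (fun t => B t + 1), algebraMap K R (c d) *
      ((∏ a : Fin n, lf (nd.l a.succ) Y ^ d (VF.x a)) *
        ∏ i, ((∏ a : Fin n, lf (nd.l a.succ) (η i) ^ d (VF.z (i, a))) *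
          aeval (Sum.elim Y (C_u nd (η i)))
            (C_BP A (j i) (κ i) (α i) (β i) (w i) (d (VF.u i)) (d (VF.th i))))) =
      ∑ π ∈ Fintype.piFinset fun _ : Fin m => Finset.univ ×ˢ box (fun _ : Fin n => D₀ + 1),
        (∏ i, (aeval (η i) nd.θ ^ (((π i).1 : Fin (C_d nd + 1)) : ℕ) *
          ∏ a : Fin n, lf (nd.l a.succ) (η i) ^ (π i).2 a)) *
        (algebraMap K R (c d) * ((∏ a : Fin n, lf (nd.l a.succ) Y ^ d (VF.x a)) *
          aeval Y (∏ i, cz (H d i (π i).1) (π i).2))) := by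
    intro d hd
    have h1 : ∀ i, (∏ a : Fin n, lf (nd.l a.succ) (η i) ^ d (VF.z (i, a))) *
          aeval (Sum.elim Y (C_u nd (η i)))
            (C_BP A (j i) (κ i) (α i) (β i) (w i) (d (VF.u i)) (d (VF.th i))) =
        ∑ p ∈ Finset.univ ×ˢ box (fun _ : Fin n => D₀ + 1),
          (aeval (η i) nd.θ ^ ((p.1 : Fin (C_d nd + 1)) : ℕ) *
            ∏ a : Fin n, lf (nd.l a.succ) (η i) ^ p.2 a) *
            aeval Y (cz (H d i p.1) p.2) := by
      intro i
      have h2 := C_block nd Y (η i) (hη i) (hη0 i) (j i) (κ i) (α i) (β i) (w i) (d (VF.th i))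
        (d (VF.u i)) (fun a => d (VF.z (i, a))) D₀ (fun ρ' => by
          have h3 := hD₀ d hd i ρ'
          rw [hH] at h3
          exact h3)
      rw [h2, hH]
    rw [Finset.prod_congr rfl fun i _ => h1 i, Finset.prod_univ_sum, Finset.mul_sum,
      Finset.mul_sum]
    refine Finset.sum_congr rfl fun π _ => ?_
    rw [Finset.prod_mul_distrib, map_prod]
    ring
  rw [Finset.sum_congr rfl hbl, Finset.sum_comm]
  refine Finset.sum_eq_zero fun π _ => ?_
  rw [← Finset.mul_sum, hin (fun i => (π i).1) (fun i => (π i).2), mul_zero]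

end

end Pool.Agent.Lib.MP_17a322_nt.VP
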