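import Pool.Agent.Lib.MP_17a322_nt.VP.CC

/-!
Roth's theorem over abelian varieties, part C: the vanishing of the auxiliary polynomial.
-/

universe u

namespace Pool.Agent.Lib.MP_17a322_nt.VP

open MvPolynomial Height
open Pool.Agent.Lib.MP_17a322_nt.RO
open Pool.Agent.Lib.MP_17a322_nt.VJ
open Pool.Agent.Lib.MP_17a322_nt.VN
open Pool.Agent.Lib.MP_17a322_nt.VA

section

variable {K : Type u} [Field K] {N : ℕ} {A : AV K N} {n e₀ : ℕ} (nd : Noe A n e₀)

theorem C_V_eval {R : Type u} [CommRing R] [Algebra K R] (Y η : Fin (N + 1) → R) (j : ℕ)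
    (a : Fin (N + 1)) :
    aeval (Sum.elim Y (C_u nd η)) (C_V A j a) =
      aeval (fun k : Fin n => lf (nd.l k.succ) η) nd.δ ^ 2 *
        A.row A.b₀ η (A.mu j Y) a := by
  unfold C_V AV.row
  rw [← AlgHom.comp_apply, MvPolynomial.comp_aeval]
  have h1 : (fun i => aeval (Sum.elim Y (C_u nd η))
      ((Sum.elim (fun b : Fin (N + 1) => X (Sum.inr b.castSucc)) (A.mu j fun b => X (Sum.inl b)) :
        Fin (N + 1) ⊕ Fin (N + 1) → MvPolynomial (Fin (N + 1) ⊕ Fin (N + 2)) K) i)) =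
      Sum.elim (fun b => aeval (fun k : Fin n => lf (nd.l k.succ) η) nd.δ * η b)
        (fun b => 1 * A.mu j Y b) := by
    funext i
    rcases i with b | b
    · rw [Sum.elim_inl, Sum.elim_inl, aeval_X, Sum.elim_inr]
      unfold C_u
      rw [Fin.snoc_castSucc]
    · rw [Sum.elim_inr, Sum.elim_inr, A.map_mu, one_mul]
      congr 1
      funext b
      rw [aeval_X, Sum.elim_inl]
  rw [h1, A.S_smul, one_pow, mul_one]

theorem C_BP_eval {R : Type u} [CommRing R] [Algebra K R] (Y η x : Fin (N + 1) → R) (c f : R)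
    {j κ D : ℕ} {α β : MvPolynomial (Fin (N + 1)) K} (hα : α.IsHomogeneous D)
    (hβ : β.IsHomogeneous D) (hrow : ∀ a, A.row A.b₀ η (A.mu j Y) a = c * x a)
    (hf : f * aeval x β = aeval x α) {w μ : ℕ} (ρ : ℕ) (hμ : μ ≤ κ) :
    aeval (Sum.elim Y (C_u nd η)) (C_BP A j κ α β w μ ρ) =
      ((aeval (fun k : Fin n => lf (nd.l k.succ) η) nd.δ ^ 2 * c) ^ D * aeval x β) ^ (κ - w) *
        (((μ.choose w : ℕ) : R) * f ^ (μ - w)) * aeval η nd.θ ^ ρ := by
  by_cases hw : μ < w
  · unfold C_BP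
    rw [Nat.choose_eq_zero_of_lt hw, Nat.cast_zero, Nat.cast_zero, map_zero, zero_mul, zero_mul,
      map_zero, zero_mul, mul_zero, zero_mul]
  rw [not_lt] at hw
  have h1 : ∀ g : MvPolynomial (Fin (N + 1)) K, g.IsHomogeneous D →
      aeval (Sum.elim Y (C_u nd η)) (aeval (C_V A j) g) =
        (aeval (fun k : Fin n => lf (nd.l k.succ) η) nd.δ ^ 2 * c) ^ D * aeval x g := by
    intro g hg
    rw [← AlgHom.comp_apply, MvPolynomial.comp_aeval, ← aeval_mul_homog hg]
    congr 2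
    funext a
    rw [C_V_eval, hrow, mul_assoc]
  unfold C_BP
  rw [map_mul, map_mul, map_mul, map_pow, map_pow, map_pow, h1 α hα, h1 β hβ, aeval_X,
    Sum.elim_inr, aeval_C, map_natCast]
  have h2 : C_u nd η (Fin.last (N + 1)) = aeval η nd.θ := by
    unfold C_u
    rw [Fin.snoc_last]
  have h3 : κ - w = (μ - w) + (κ - μ) := by omega
  rw [h2, ← hf, h3, pow_add]
  ring

theorem C_Van {m : ℕ} {B : VF m n → ℕ} {j κ : Fin m → ℕ} {D : ℕ}
    {α β : Fin m → MvPolynomial (Fin (N + 1)) K} {T : ℝ} {c : (VF m n → ℕ) → K}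
    (hc : C_CC nd B j κ α β T c) (hα : ∀ i, (α i).IsHomogeneous D)
    (hβ : ∀ i, (β i).IsHomogeneous D) (hB : ∀ i, B (VF.u i) ≤ κ i) :
    Van nd j α β T (C_F B c) := by
  classical
  intro R _ _ _ Y η x c' f hY hη hc' hrow hβ0 hf w hw
  -- the value of the polynomial
  have hval : ∀ d : VF m n → ℕ, aeval (vN nd (fun a => (C (Y a) : MvPolynomial (Fin m) R))
      (fun i a => C (η i a)) fun i => X i + C (f i))
      (monomial (Finsupp.equivFunOnFinite.symm d) (c d)) =
      C (algebraMap K R (c d) * ((∏ a : Fin n, lf (nd.l a.succ) Y ^ d (VF.x a)) *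
        ∏ i, (aeval (η i) nd.θ ^ d (VF.th i) *
          ∏ a : Fin n, lf (nd.l a.succ) (η i) ^ d (VF.z (i, a))))) *
        ∏ i, (X i + C (f i)) ^ d (VF.u i) := by
    intro d
    have hlf : ∀ (l : Fin (N + 1) → K) (y : Fin (N + 1) → R),
        lf l (fun a => (C (y a) : MvPolynomial (Fin m) R)) = C (lf l y) := by
      intro l y
      unfold lf
      rw [map_sum]
      refine Finset.sum_congr rfl fun a _ => ?_
      rw [map_mul]
      rfl
    have hth : ∀ (y : Fin (N + 1) → R),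
        aeval (fun a => (C (y a) : MvPolynomial (Fin m) R)) nd.θ = C (aeval y nd.θ) := by
      intro y
      have h1 := MvPolynomial.comp_aeval_apply y
        ((Algebra.ofId R (MvPolynomial (Fin m) R)).restrictScalars K) nd.θ
      exact h1.symm
    rw [aeval_monomial, Finsupp.prod_fintype _ _ (fun i => pow_zero _), C_prodVF']
    simp only [Finsupp.equivFunOnFinite_symm_apply_apply]
    have h1 : ∀ a, vN nd (fun a => (C (Y a) : MvPolynomial (Fin m) R)) (fun i a => C (η i a))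
        (fun i => X i + C (f i)) (VF.x a) = C (lf (nd.l a.succ) Y) := fun a => hlf _ _
    have h2 : ∀ i, vN nd (fun a => (C (Y a) : MvPolynomial (Fin m) R)) (fun i a => C (η i a))
        (fun i => X i + C (f i)) (VF.th i) = C (aeval (η i) nd.θ) := fun i => hth _
    have h3 : ∀ p : Fin m × Fin n, vN nd (fun a => (C (Y a) : MvPolynomial (Fin m) R))
        (fun i a => C (η i a)) (fun i => X i + C (f i)) (VF.z p) =
          C (lf (nd.l p.2.succ) (η p.1)) := fun p => hlf _ _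
    have h4 : ∀ i, vN nd (fun a => (C (Y a) : MvPolynomial (Fin m) R)) (fun i a => C (η i a))
        (fun i => X i + C (f i)) (VF.u i) = X i + C (f i) := fun i => rfl
    simp only [h1, h2, h3, h4]
    have h5 : algebraMap K (MvPolynomial (Fin m) R) (c d) = C (algebraMap K R (c d)) := rfl
    rw [h5]
    simp only [← map_pow, ← map_prod, Finset.prod_mul_distrib, map_mul]
    ring
  have hcoeff : ∀ d ∈ box (fun t => B t + 1), coeff w (aeval (vN nd
      (fun a => (C (Y a) : MvPolynomial (Fin m) R))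
      (fun i a => C (η i a)) fun i => X i + C (f i))
      (monomial (Finsupp.equivFunOnFinite.symm d) (c d))) =
      algebraMap K R (c d) * ((∏ a : Fin n, lf (nd.l a.succ) Y ^ d (VF.x a)) *
        ∏ i, (aeval (η i) nd.θ ^ d (VF.th i) *
          ∏ a : Fin n, lf (nd.l a.succ) (η i) ^ d (VF.z (i, a)))) *
        ∏ i, (((d (VF.u i)).choose (w i) : ℕ) : R) * f i ^ (d (VF.u i) - w i) := by
    intro d _
    rw [hval, coeff_C_mul, C_coeff_prod]
  unfold C_F
  rw [map_sum, coeff_sum, Finset.sum_congr rfl hcoeff]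
  by_cases hwκ : ∀ i, w i ≤ κ i
  swap
  · push Not at hwκ
    obtain ⟨i, hi⟩ := hwκ
    refine Finset.sum_eq_zero fun d hd => ?_
    have h1 : d (VF.u i) ≤ κ i := (Nat.lt_succ_iff.1 ((mem_box _ _).1 hd (VF.u i))).trans (hB i)
    have h2 : ∏ i, (((d (VF.u i)).choose (w i) : ℕ) : R) * f i ^ (d (VF.u i) - w i) = 0 :=
      Finset.prod_eq_zero (Finset.mem_univ i) (by
        rw [Nat.choose_eq_zero_of_lt (by omega), Nat.cast_zero, zero_mul])
    rw [h2, mul_zero]
  -- the factor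
  obtain ⟨G, hG⟩ : ∃ G : R, G = ∏ i, ((aeval (fun k : Fin n => lf (nd.l k.succ) (η i)) nd.δ ^ 2 *
      c' i) ^ D * aeval (x i) (β i)) ^ (κ i - w i) := ⟨_, rfl⟩
  have hG0 : G ≠ 0 := by
    rw [hG]
    refine Finset.prod_ne_zero_iff.2 fun i _ => pow_ne_zero _ (mul_ne_zero (pow_ne_zero _
      (mul_ne_zero (pow_ne_zero _ (hη i).2.2) (hc' i))) (hβ0 i))
  have h0 := C_sum_zero nd hc Y η hY.1 hY.2.1 (fun i => (hη i).1) (fun i => (hη i).2.1)
    (fun i => w i) hw hwκ
  have h1 : G * ∑ d ∈ box (fun t => B t + 1),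
      algebraMap K R (c d) * ((∏ a : Fin n, lf (nd.l a.succ) Y ^ d (VF.x a)) *
        ∏ i, (aeval (η i) nd.θ ^ d (VF.th i) *
          ∏ a : Fin n, lf (nd.l a.succ) (η i) ^ d (VF.z (i, a)))) *
        ∏ i, (((d (VF.u i)).choose (w i) : ℕ) : R) * f i ^ (d (VF.u i) - w i) = 0 := by
    rw [← h0, Finset.mul_sum]
    refine Finset.sum_congr rfl fun d hd => ?_
    have h2 : ∀ i, aeval (Sum.elim Y (C_u nd (η i)))
        (C_BP A (j i) (κ i) (α i) (β i) (w i) (d (VF.u i)) (d (VF.th i))) =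
        ((aeval (fun k : Fin n => lf (nd.l k.succ) (η i)) nd.δ ^ 2 * c' i) ^ D *
          aeval (x i) (β i)) ^ (κ i - w i) *
        ((((d (VF.u i)).choose (w i) : ℕ) : R) * f i ^ (d (VF.u i) - w i)) *
          aeval (η i) nd.θ ^ d (VF.th i) := fun i =>
      C_BP_eval nd Y (η i) (x i) (c' i) (f i) (hα i) (hβ i) (hrow i) (hf i) _
        ((Nat.lt_succ_iff.1 ((mem_box _ _).1 hd (VF.u i))).trans (hB i))
    simp only [h2, hG, Finset.prod_mul_distrib]
    ring
  exact (mul_eq_zero.1 h1).resolve_left hG0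

end

end Pool.Agent.Lib.MP_17a322_nt.VP
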