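import Pool.Agent.Lib.MP_17a322_nt.VP.CE
import Pool.Agent.Lib.MP_17a322_nt.VDA.J2

/-!
Roth's theorem over abelian varieties, part C: the entries of the matrix of the linear equations.
-/

universe u

namespace Pool.Agent.Lib.MP_17a322_nt.VP

open MvPolynomial Height
open Pool.Agent.Lib.MP_17a322_nt.RO
open Pool.Agent.Lib.MP_17a322_nt.VJ
open Pool.Agent.Lib.MP_17a322_nt.VN
open Pool.Agent.Lib.MP_17a322_nt.VA

/-- The bounds for the degrees. -/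
def C_Bd {m : ℕ} (n Nx M₀ g J : ℕ) (j : Fin m → ℕ) : VF m n → ℕ
  | VF.x _ => Nx * 4 ^ J
  | VF.th _ => g
  | VF.z p => M₀ * 4 ^ (J - j p.1)
  | VF.u i => 4 ^ (J - j i)

section

variable {K : Type u} [Field K] {N : ℕ} {A : AV K N} {n e₀ : ℕ} (nd : Noe A n e₀)

theorem C_MC_zero {D Nx M₀ J m : ℕ} {j : Fin m → ℕ} (hj : ∀ i, j i ≤ J)
    {α β : Fin m → MvPolynomial (Fin (N + 1)) K} (hα : ∀ i, ∀ s ∈ (α i).support, ∑ t, s t ≤ D)
    (hβ : ∀ i, ∀ s ∈ (β i).support, ∑ t, s t ≤ D) {w : Fin m → ℕ} {r' : Fin (e₀ + 1)}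
    {ρ' : Fin m → Fin (C_d nd + 1)} {q₀ : Fin n → ℕ} {q : Fin m → Fin n → ℕ} {d : VF m n → ℕ}
    (hd : d ∈ box (fun t => C_Bd n Nx M₀ (C_d nd) J j t + 1))
    (h : C_MC nd j (fun i => 4 ^ (J - j i)) α β w r' ρ' q₀ q d ≠ 0) :
    q₀ ∈ box (fun _ : Fin n => (Nx + 2 * D * nd.DM * m) * 4 ^ J + 1) ∧
      q ∈ BB (fun i : Fin m => (M₀ + (2 * D + C_d nd) * C_D nd) * 4 ^ (J - j i) + 1) := by
  classical
  have hd' := (mem_box _ _).1 hd
  have hdx : ∀ a, d (VF.x a) ≤ Nx * 4 ^ J := fun a => Nat.lt_succ_iff.1 (hd' (VF.x a))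
  have hdt : ∀ i, d (VF.th i) ≤ C_d nd := fun i => Nat.lt_succ_iff.1 (hd' (VF.th i))
  have hdz : ∀ i a, d (VF.z (i, a)) ≤ M₀ * 4 ^ (J - j i) := fun i a =>
    Nat.lt_succ_iff.1 (hd' (VF.z (i, a)))
  have hdu : ∀ i, d (VF.u i) ≤ 4 ^ (J - j i) := fun i => Nat.lt_succ_iff.1 (hd' (VF.u i))
  have hbj : ∀ i, 4 ^ (J - j i) * 4 ^ j i = 4 ^ J := by
    intro i
    rw [← pow_add, Nat.sub_add_cancel (hj i)]
  have hBD : ∀ i, BD (C_H nd (j i) (4 ^ (J - j i)) (α i) (β i) (w i) (ρ' i) (d (VF.th i))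
      (d (VF.u i)) fun a => d (VF.z (i, a))) (D * (2 * 4 ^ J))
      (∑ a, d (VF.z (i, a)) + (4 ^ (J - j i) * (D * 2) + d (VF.th i)) * C_D nd) := by
    intro i
    refine (C_H_BD nd (hα i) (hβ i) (w i) (d (VF.u i)) (d (VF.th i)) (hdu i) (ρ' i) _).mono ?_ le_rfl
    rw [← hbj i]
    exact le_of_eq (by ring)
  obtain ⟨P, hP⟩ : ∃ P : MvPolynomial (Fin (N + 1)) K,
    P = ∏ i, cz (C_H nd (j i) (4 ^ (J - j i)) (α i) (β i) (w i) (ρ' i) (d (VF.th i))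
      (d (VF.u i)) fun a => d (VF.z (i, a))) (q i) := ⟨_, rfl⟩
  unfold C_MC at h
  rw [← hP] at h
  have hP0 : P ≠ 0 := by
    intro h0
    rw [h0, VDA.J2_RR_zero, mul_zero, coeff_zero] at h
    exact h rfl
  have hcz : ∀ i, cz (C_H nd (j i) (4 ^ (J - j i)) (α i) (β i) (w i) (ρ' i) (d (VF.th i))
      (d (VF.u i)) fun a => d (VF.z (i, a))) (q i) ≠ 0 := by
    intro i
    rw [hP] at hP0
    exact Finset.prod_ne_zero_iff.1 hP0 i (Finset.mem_univ i)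
  refine ⟨(mem_box _ _).2 fun t => ?_, (mem_BB _ _).2 fun i t => ?_⟩
  · have h1 := monomial_le_degreeOf t (mem_support_iff.2 h)
    have h2 : (Finsupp.equivFunOnFinite.symm q₀ : Fin n →₀ ℕ) t = q₀ t := rfl
    rw [h2] at h1
    have h3 : degreeOf t (∏ t, (X t : MvPolynomial (Fin n) K) ^ d (VF.x t)) ≤ d (VF.x t) := by
      refine (degreeOf_prod_le _ _ _).trans ?_
      rw [Finset.sum_eq_single t]
      · exact C05_degX _ _ _ _ fun _ => le_rfl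
      · intro t' _ ht'
        exact Nat.le_zero.1 (C05_degX _ _ _ _ fun h => absurd h.symm ht')
      · intro h
        exact absurd (Finset.mem_univ t) h
    have h4 : P.totalDegree ≤ m * (D * (2 * 4 ^ J)) := by
      rw [hP]
      refine (totalDegree_finsetProd _ _).trans ?_
      refine (Finset.sum_le_card_nsmul Finset.univ _ (D * (2 * 4 ^ J))
        fun i _ => VDA.J2_total_le _ (cz_support (hBD i) (q i))).trans (le_of_eq ?_)
      rw [Finset.card_univ, Fintype.card_fin, smul_eq_mul]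
    have h5 := RR_total nd.Mx (C7_total P h4) (le_DM nd) r'
    have h6 : degreeOf t (RR nd.Mx P r') ≤ m * (D * (2 * 4 ^ J)) * nd.DM :=
      (degreeOf_le_totalDegree _ _).trans h5
    have h7 := h1.trans (degreeOf_mul_le _ _ _)
    have h8 := hdx t
    have h9 : (Nx + 2 * D * nd.DM * m) * 4 ^ J = Nx * 4 ^ J + m * (D * (2 * 4 ^ J)) * nd.DM := by
      ring
    rw [h9]
    omega
  · have h1 := C_H_cz nd (hα i) (hβ i) (hdu i) (hcz i) t
    have h2 := hdz i t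
    have h3 := hdt i
    have h4 : 1 ≤ 4 ^ (J - j i) := Nat.one_le_pow _ _ (by norm_num)
    have h5 : (4 ^ (J - j i) * (D * 2) + d (VF.th i)) * C_D nd ≤
        ((2 * D + C_d nd) * C_D nd) * 4 ^ (J - j i) := by
      calc (4 ^ (J - j i) * (D * 2) + d (VF.th i)) * C_D nd ≤
            (4 ^ (J - j i) * (D * 2) + C_d nd * 4 ^ (J - j i)) * C_D nd :=
            Nat.mul_le_mul_right _ (Nat.add_le_add_left
              (h3.trans (Nat.le_mul_of_pos_right _ h4)) _)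
        _ = ((2 * D + C_d nd) * C_D nd) * 4 ^ (J - j i) := by ring
    have h6 : (M₀ + (2 * D + C_d nd) * C_D nd) * 4 ^ (J - j i) =
        M₀ * 4 ^ (J - j i) + ((2 * D + C_d nd) * C_D nd) * 4 ^ (J - j i) := by ring
    rw [h6]
    have h7 : q i t ≤ d (VF.z (i, t)) +
      (4 ^ (J - j i) * (D * 2) + d (VF.th i)) * C_D nd := h1
    omega

theorem exists_C_MC_le (D : ℕ) : ∃ E : SC K, ∀ (v : AbsoluteValue K ℝ) {m : ℕ}
    (j κ : Fin m → ℕ) (α β : Fin m → MvPolynomial (Fin (N + 1)) K) (w : Fin m → ℕ)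
    (r' : Fin (e₀ + 1)) (ρ' : Fin m → Fin (C_d nd + 1)) (q₀ : Fin n → ℕ) (q : Fin m → Fin n → ℕ)
    (d : VF m n → ℕ), (∀ i, ∀ s ∈ (α i).support, ∑ t, s t ≤ D) →
    (∀ i, ∀ s ∈ (β i).support, ∑ t, s t ≤ D) → (∀ i, d (VF.u i) ≤ κ i) →
    (∀ i, d (VF.th i) ≤ C_d nd) → (∀ i, 1 ≤ κ i) →
    v (C_MC nd j κ α β w r' ρ' q₀ q d) ≤ ∏ i, (E.k v ^ (κ i * 4 ^ j i) *
      max 1 (max (NV v (α i)) (NV v (β i))) ^ κ i) := by
  classical
  obtain ⟨E1, hE1⟩ := exists_C_H_NV nd D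
  obtain ⟨E2, hE2⟩ := C7_fam (fun p : Fin (N + 1) × Fin (e₀ + 1) × Fin (e₀ + 1) =>
    nd.Mx p.1 p.2.1 p.2.2)
  obtain ⟨E3, hE3⟩ := (Adm_cst.{u, u} (K := K) (e₀ + 1)).exists_SC
  refine ⟨E1.mul ((E3.mul E2).pw (D * 2)),
    fun v m j κ α β w r' ρ' q₀ q d hα hβ hdu hdt hκ => ?_⟩
  have hS := SN_NV v (σ := Fin n)
  have hS' := SN_NV v (σ := Fin (N + 1))
  have e1 : 1 ≤ E1.k v := E1.one_le v
  have e2 : 1 ≤ E2.k v := E2.one_le v
  have hc1 : 1 ≤ cst v (e₀ + 1) := one_le_cst v (Nat.succ_pos _)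
  obtain ⟨B, hB⟩ : ∃ B : ℝ, B = cst v (e₀ + 1) * E2.k v := ⟨_, rfl⟩
  have hB1 : 1 ≤ B := by
    rw [hB]
    exact one_le_mul_of_one_le_of_one_le hc1 e2
  have hB0 : 0 ≤ B := zero_le_one.trans hB1
  have hBE : B ^ (D * 2) ≤ ((E3.mul E2).pw (D * 2)).k v := by
    refine (pow_le_pow_left₀ hB0 ?_ _).trans (SC.pow_le _ _ v)
    rw [hB]
    exact (mul_le_mul_of_nonneg_right (hE3 K v) (zero_le_one.trans e2)).trans (SC.mul_le _ _ v)
  have hM : ∀ (j' : Fin (N + 1)) (l' m' : Fin (e₀ + 1)), NV v (nd.Mx j' l' m') ≤ E2.k v := by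
    intro j' l' m'
    have h1 := hE2 (j', l', m') K v
    rw [C_map_self] at h1
    exact h1
  obtain ⟨R, hR⟩ : ∃ R : Fin m → ℝ, R = fun i => max 1 (max (NV v (α i)) (NV v (β i))) :=
    ⟨_, rfl⟩
  have hR1 : ∀ i, 1 ≤ R i := by
    intro i
    rw [hR]
    exact le_max_left _ _
  have hRi : ∀ i, max 1 (max (NV v (α i)) (NV v (β i))) = R i := by
    intro i
    rw [hR]
  simp only [hRi]
  obtain ⟨P, hP⟩ : ∃ P : MvPolynomial (Fin (N + 1)) K,
    P = ∏ i, cz (C_H nd (j i) (κ i) (α i) (β i) (w i) (ρ' i) (d (VF.th i))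
      (d (VF.u i)) fun a => d (VF.z (i, a))) (q i) := ⟨_, rfl⟩
  unfold C_MC
  rw [← hP]
  refine (coeff_le_NV v _ _).trans ?_
  have h5 : NV v (∏ t, (X t : MvPolynomial (Fin n) K) ^ d (VF.x t)) ≤ 1 := by
    refine (hS.prod_le Finset.univ _).trans ?_
    refine Finset.prod_le_one (fun t _ => hS.nonneg _) fun t _ => ?_
    refine (hS.pow_le _ _).trans ?_
    show NV v (X t : MvPolynomial (Fin n) K) ^ _ ≤ 1
    rw [NV_X, one_pow]
  have h4 : P.totalDegree ≤ ∑ i, κ i * (D * (2 * 4 ^ j i)) := by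
    rw [hP]
    refine (totalDegree_finsetProd _ _).trans (Finset.sum_le_sum fun i _ => ?_)
    exact VDA.J2_total_le _ (cz_support (C_H_BD nd (hα i) (hβ i) (w i) (d (VF.u i))
      (d (VF.th i)) (hdu i) (ρ' i) _) (q i))
  have h6 := RR_NV v nd.Mx (C7_total P h4) e2 hM r'
  have h7 : NV v P ≤ ∏ i, (E1.k v ^ (κ i * 4 ^ j i) * R i ^ κ i) := by
    rw [hP]
    refine (hS'.prod_le Finset.univ _).trans ?_
    refine Finset.prod_le_prod (fun i _ => hS'.nonneg _) fun i _ => ?_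
    refine (cz_NV v _ _).trans ?_
    have h8 := hE1 v (j i) (κ i) (α i) (β i) (w i) (ρ' i) (d (VF.th i)) (d (VF.u i))
      (fun a => d (VF.z (i, a))) (hα i) (hβ i) (hdu i) (hdt i) (hκ i)
    rw [hRi] at h8
    exact h8
  calc NV v ((∏ t, X t ^ d (VF.x t)) * RR nd.Mx P r')
      ≤ NV v (∏ t, (X t : MvPolynomial (Fin n) K) ^ d (VF.x t)) * NV v (RR nd.Mx P r') :=
        hS.mul _ _
    _ ≤ 1 * NV v (RR nd.Mx P r') := mul_le_mul_of_nonneg_right h5 (hS.nonneg _)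
    _ = NV v (RR nd.Mx P r') := one_mul _
    _ ≤ NV v P * B ^ (∑ i, κ i * (D * (2 * 4 ^ j i))) := by rw [hB]; exact h6
    _ ≤ (∏ i, (E1.k v ^ (κ i * 4 ^ j i) * R i ^ κ i)) *
          ∏ i, B ^ (κ i * (D * (2 * 4 ^ j i))) := by
        rw [Finset.prod_pow_eq_pow_sum]
        exact mul_le_mul_of_nonneg_right h7 (pow_nonneg hB0 _)
    _ = ∏ i, ((E1.k v ^ (κ i * 4 ^ j i) * R i ^ κ i) * B ^ (κ i * (D * (2 * 4 ^ j i)))) :=
        Finset.prod_mul_distrib.symm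
    _ ≤ ∏ i, ((E1.mul ((E3.mul E2).pw (D * 2))).k v ^ (κ i * 4 ^ j i) * R i ^ κ i) := by
        refine Finset.prod_le_prod (fun i _ => ?_) fun i _ => ?_
        · have h8 : 0 ≤ R i := zero_le_one.trans (hR1 i)
          positivity
        · have h8 : 0 ≤ R i ^ κ i := pow_nonneg (zero_le_one.trans (hR1 i)) _
          rw [mul_right_comm]
          refine mul_le_mul_of_nonneg_right ?_ h8
          have h9 : B ^ (κ i * (D * (2 * 4 ^ j i))) = (B ^ (D * 2)) ^ (κ i * 4 ^ j i) := by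
            rw [← pow_mul]
            congr 1
            ring
          rw [h9, ← mul_pow]
          refine pow_le_pow_left₀ (by positivity) ?_ _
          exact (mul_le_mul_of_nonneg_left hBE (zero_le_one.trans e1)).trans (SC.mul_le _ _ v)

end

end Pool.Agent.Lib.MP_17a322_nt.VP
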