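import Pool.Agent.Lib.MP_17a322_nt.VA.Z13
import Pool.Agent.Lib.MP_17a322_nt.VD.D11a

/-!
Proximity at one place of elements which are algebraic over the field of the Noether coordinates.
-/

universe u

namespace Pool.Agent.Lib.MP_17a322_nt.VP

open MvPolynomial Height Filter
open Pool.Agent.Lib.MP_17a322_nt.RO
open Pool.Agent.Lib.MP_17a322_nt.VJ
open Pool.Agent.Lib.MP_17a322_nt.VN
open Pool.Agent.Lib.MP_17a322_nt.VA

section

variable {K : Type u} [Field K] [NumberField K] {H : ℕ → ℝ}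
  (hH : Tendsto H (hyperfilter ℕ : Filter ℕ) atTop) (v₀ : AbsoluteValue K ℝ)

/-- The sequence is bounded by `exp (o(H))` at the place `v₀`. -/
def P_vb (H : ℕ → ℝ) (v₀ : AbsoluteValue K ℝ) (β : ℕ → K) : Prop :=
  oH H fun i => Real.log (max 1 (v₀ (β i)))

theorem P_lm_nonneg (v : AbsoluteValue K ℝ) (a : K) : 0 ≤ Real.log (max 1 (v a)) :=
  Real.log_nonneg (le_max_left _ _)

theorem P_lm_le {v : AbsoluteValue K ℝ} {a : K} {B : ℝ} (h1 : 1 ≤ B) (h : v a ≤ B) :
    Real.log (max 1 (v a)) ≤ Real.log B :=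
  Real.log_le_log (lt_max_of_lt_left one_pos) (max_le h1 h)

theorem P_lm_mul (v : AbsoluteValue K ℝ) (a b : K) :
    Real.log (max 1 (v (a * b))) ≤ Real.log (max 1 (v a)) + Real.log (max 1 (v b)) := by
  have ha : (1 : ℝ) ≤ max 1 (v a) := le_max_left _ _
  have hb : (1 : ℝ) ≤ max 1 (v b) := le_max_left _ _
  rw [← Real.log_mul (by positivity) (by positivity)]
  refine P_lm_le (by nlinarith) ?_
  rw [map_mul]
  exact mul_le_mul (le_max_right _ _) (le_max_right _ _) (v.nonneg _) (by positivity)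

theorem P_lm_add (v : AbsoluteValue K ℝ) (a b : K) :
    Real.log (max 1 (v (a + b))) ≤ Real.log 2 + Real.log (max 1 (v a)) + Real.log (max 1 (v b)) := by
  have ha : (1 : ℝ) ≤ max 1 (v a) := le_max_left _ _
  have hb : (1 : ℝ) ≤ max 1 (v b) := le_max_left _ _
  rw [← Real.log_mul (by norm_num) (by positivity), ← Real.log_mul (by positivity) (by positivity)]
  refine P_lm_le (by nlinarith) ((v.add_le a b).trans ?_)
  have h1 := le_max_right 1 (v a)
  have h2 := le_max_right 1 (v b)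
  nlinarith

variable {v₀}

theorem P_vb.mul {a b : ℕ → K} (ha : P_vb H v₀ a) (hb : P_vb H v₀ b) :
    P_vb H v₀ fun i => a i * b i :=
  (oH.add ha hb).mono (Eventually.of_forall fun i => P_lm_mul v₀ (a i) (b i))

include hH in
theorem P_vb.add {a b : ℕ → K} (ha : P_vb H v₀ a) (hb : P_vb H v₀ b) :
    P_vb H v₀ fun i => a i + b i :=
  (((oH_const hH (Real.log 2)).add ha).add hb).mono
    (Eventually.of_forall fun i => P_lm_add v₀ (a i) (b i))

theorem P_vb.congr {a b : ℕ → K} (ha : P_vb H v₀ a) (h : gm a = gm b) : P_vb H v₀ b :=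
  ha.mono ((gm_eq_iff.1 h).mono fun i hi => by rw [hi])

/-- Elements of `k0` are bounded. -/
theorem P_vb_k0 (hv : Pl v₀) {a : ℕ → K} (ha : gm a ∈ k0 K H hH) : P_vb H v₀ a := by
  rw [mem_k0] at ha
  refine ha.mono (Eventually.of_forall fun i => ?_)
  have h3 := VD.gs_single (FS_log_max (a i))
    (fun v _ => Real.log_nonneg (le_max_left (1 : ℝ) (v (a i)))) hv
  rwa [gs_log_max] at h3

include hH in
theorem P_vb_bound {a : ℕ → K} {C : ℝ}
    (h : ∀ᶠ i in (hyperfilter ℕ : Filter ℕ), v₀ (a i) ≤ C) : P_vb H v₀ a :=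
  (oH_const hH (Real.log (max 1 C))).mono (h.mono fun i hi =>
    P_lm_le (le_max_left _ _) (hi.trans (le_max_right _ _)))

theorem P_vb_oH {a : ℕ → K} {e : ℕ → ℝ} (he : oH H e) (he0 : ∀ i, 0 ≤ e i)
    (h : ∀ᶠ i in (hyperfilter ℕ : Filter ℕ), v₀ (a i) ≤ Real.exp (e i)) : P_vb H v₀ a :=
  he.mono (h.mono fun i hi => by
    have h1 := P_lm_le (Real.one_le_exp (he0 i)) hi
    rwa [Real.log_exp] at h1)

/-- Values of polynomials over `k0` at bounded sequences are bounded. -/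
theorem P_vb_rep (hv : Pl v₀) {σ : Type*} (u : σ → ℕ → K) (hu : ∀ t, P_vb H v₀ (u t))
    (p : MvPolynomial σ (k0 K H hH)) :
    ∃ β : ℕ → K, gm β = aeval (fun t => gm (u t)) p ∧ P_vb H v₀ β := by
  induction p using MvPolynomial.induction_on with
  | C a =>
    obtain ⟨α, hα⟩ := exists_gm (a : GK K)
    refine ⟨α, ?_, P_vb_k0 hH hv (by rw [hα]; exact a.2)⟩
    rw [hα, aeval_C]
    rfl
  | add p q hp hq =>
    obtain ⟨β, hβ, hβ'⟩ := hp
    obtain ⟨γ, hγ, hγ'⟩ := hq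
    exact ⟨fun i => β i + γ i, by rw [gm_add, hβ, hγ, map_add], hβ'.add hH hγ'⟩
  | mul_X p t hp =>
    obtain ⟨β, hβ, hβ'⟩ := hp
    exact ⟨fun i => β i * u t i, by rw [gm_mul, hβ, map_mul, aeval_X], hβ'.mul (hu t)⟩

/-- An element which is algebraic over `k0(s)` and bounded at `v₀` is not small there. -/
theorem P_alg (hv : Pl v₀) {n : ℕ} (s : Fin n → ℕ → K) (hs : ∀ k, P_vb H v₀ (s k))
    (hnp : ∀ z : MvPolynomial (Fin n) (k0 K H hH), aeval (fun k => gm (s k)) z ≠ 0 → ∀ a : ℕ → K,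
      gm a = aeval (fun k => gm (s k)) z → ∀ ε : ℝ, 0 < ε →
        ∀ᶠ i in (hyperfilter ℕ : Filter ℕ), - Real.log (v₀ (a i)) ≤ ε * H i)
    (y : ℕ → K) (hy : gm y ≠ 0) (hyb : P_vb H v₀ y)
    (hya : IsAlgebraic (Algebra.adjoin (k0 K H hH) (Set.range fun k => gm (s k))) (gm y))
    (ε : ℝ) (hε : 0 < ε) :
    ∀ᶠ i in (hyperfilter ℕ : Filter ℕ), - Real.log (v₀ (y i)) ≤ ε * H i := by
  obtain ⟨T, hT, r, hr, h⟩ := hya.exists_nonzero_eq_adjoin_mul (mem_nonZeroDivisors_of_ne_zero hy)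
  obtain ⟨u, hu⟩ : ∃ u : Option (Fin n) → ℕ → K, u = fun o => o.elim y s := ⟨_, rfl⟩
  have huv : ∀ o, P_vb H v₀ (u o) := by
    rw [hu]
    rintro (_ | k)
    · exact hyb
    · exact hs k
  have h1 : ∀ c ∈ Algebra.adjoin (k0 K H hH) (Set.range fun k => gm (s k)),
      ∃ z : MvPolynomial (Fin n) (k0 K H hH), aeval (fun k => gm (s k)) z = c := by
    intro c hc
    rw [Algebra.adjoin_range_eq_range_aeval] at hc
    exact hc
  have h2 : ∀ z : MvPolynomial (Fin n) (k0 K H hH), aeval (fun o => gm (u o)) (rename some z) =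
      aeval (fun k => gm (s k)) z := by
    intro z
    rw [aeval_rename, hu]
    rfl
  have h3 : T ∈ (aeval (fun o => gm (u o)) :
      MvPolynomial (Option (Fin n)) (k0 K H hH) →ₐ[k0 K H hH] GK K).range := by
    clear h
    induction hT using Algebra.adjoin_induction with
    | mem x hx =>
      rw [Set.mem_singleton_iff] at hx
      refine ⟨X none, ?_⟩
      rw [hx]
      show aeval (fun o => gm (u o)) (X none) = gm y
      rw [aeval_X, hu]
      rfl
    | algebraMap x =>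
      obtain ⟨z, hz⟩ := h1 x x.2
      exact ⟨rename some z, (h2 z).trans hz⟩
    | add a b _ _ ha hb => exact add_mem ha hb
    | mul a b _ _ ha hb => exact mul_mem ha hb
  obtain ⟨E, hE⟩ := h3
  obtain ⟨z, hz⟩ := h1 r r.2
  obtain ⟨β, hβ, hβ'⟩ := P_vb_rep hH hv u huv E
  obtain ⟨α, hα⟩ := exists_gm (r : GK K)
  have hr0 : (r : GK K) ≠ 0 := fun h0 => hr (Subtype.ext h0)
  have h4 : gm α = gm fun i => y i * β i := by
    rw [gm_mul, hβ, hα]
    have h5 : aeval (fun o => gm (u o)) E = T := hE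
    rw [h5, h]
    rfl
  have h5 : ∀ᶠ i in (hyperfilter ℕ : Filter ℕ), α i ≠ 0 := by
    rw [← gm_ne_zero_iff, hα]
    exact hr0
  filter_upwards [hnp z (by rw [hz]; exact hr0) α (by rw [hα, hz]) (ε / 2) (by positivity),
    hβ' (ε / 2) (by positivity), gm_eq_iff.1 h4, h5] with i g1 g2 g3 g4
  rw [g3] at g1 g4
  have g5 := v₀.pos (left_ne_zero_of_mul g4)
  have g6 := v₀.pos (right_ne_zero_of_mul g4)
  rw [map_mul, Real.log_mul g5.ne' g6.ne'] at g1
  have g7 : Real.log (v₀ (β i)) ≤ Real.log (max 1 (v₀ (β i))) :=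
    Real.log_le_log g6 (le_max_right _ _)
  linarith

end

section

variable {K : Type u} [Field K] [NumberField K] {N : ℕ} {B : AV K N} {n e : ℕ} (nd : Noe B n e)
  {H : ℕ → ℝ} (hH : Tendsto H (hyperfilter ℕ : Filter ℕ) atTop) {Q : ℕ → B.Pts K}
  {b : B.Pts (GK K)} (hQb : IsGerm B Q b) {v₀ : AbsoluteValue K ℝ}

include hH in
/-- The affine coordinates are bounded in the chart. -/
theorem P_vb_y (κ : SC K) (hch : ∀ᶠ i in (hyperfilter ℕ : Filter ℕ), nd.In κ v₀ (Q i))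
    (a : Fin (N + 1)) : P_vb H v₀ fun i => nd.y (Q i) a := by
  refine P_vb_bound hH (C := κ.k v₀) (hch.mono fun i hi => ?_)
  have h1 := hi a
  unfold Noe.y
  rw [map_div₀]
  rcases eq_or_ne (lf (nd.l 0) (B.x (Q i))) 0 with h0 | h0
  · rw [h0, map_zero, div_zero]
    exact (κ.pos v₀).le
  · rw [div_le_iff₀ (v₀.pos h0)]
    exact h1

include hH in
/-- The Noether coordinates are bounded if the affine coordinates are. -/
theorem P_vb_s (hv : Pl v₀) (hQb : IsGerm B Q b) (hy : ∀ a, P_vb H v₀ fun i => nd.y (Q i) a)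
    (k : Fin n) : P_vb H v₀ fun i => nd.s (Q i) k := by
  obtain ⟨β, hβ, hβ'⟩ := P_vb_rep hH hv (fun a i => nd.y (Q i) a) hy
    (∑ i, MvPolynomial.C (algebraMap K (k0 K H hH) (nd.l k.succ i)) * X i)
  refine hβ'.congr ?_
  rw [hβ, Z_gm_s nd hQb, ← Z_lf_s, map_sum]
  unfold VA.lf
  refine Finset.sum_congr rfl fun i _ => ?_
  rw [map_mul, aeval_C, aeval_X, Z_gm_y nd hQb]
  rfl

include hQb in
theorem P_gm_s : (fun k => gm fun i => nd.s (Q i) k) = nd.s b := funext fun k => Z_gm_s nd hQb k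

end

end Pool.Agent.Lib.MP_17a322_nt.VP
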