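import Pool.Agent.Lib.MP_17a322_nt.VDA.P2
import Pool.Agent.Lib.MP_17a322_nt.VP.Q1

/-!
Proximity at one place for all Noether normalisations which are good at `b`.
-/

universe u

namespace Pool.Agent.Lib.MP_17a322_nt.VP

open MvPolynomial Height Filter
open Pool.Agent.Lib.MP_17a322_nt.RO
open Pool.Agent.Lib.MP_17a322_nt.VJ
open Pool.Agent.Lib.MP_17a322_nt.VN
open Pool.Agent.Lib.MP_17a322_nt.VA

/-- The elements which are algebraic over `k(s)`. -/
theorem P_field {k F : Type*} [Field k] [Field F] [Algebra k F] (S : Set F) :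
    ∃ E : IntermediateField k F, (∀ c, c ∈ E ↔ IsAlgebraic (Algebra.adjoin k S) c) ∧
      S ⊆ E ∧ ∀ c, IsAlgebraic E c → c ∈ E := by
  obtain ⟨E, hE⟩ : ∃ E : IntermediateField k F, ∀ c, c ∈ E ↔
      IsAlgebraic (IntermediateField.adjoin k S) c :=
    ⟨(algebraicClosure (IntermediateField.adjoin k S) F).toSubfield.toIntermediateField
      (fun c => mem_algebraicClosure_iff.2
        (isAlgebraic_algebraMap (algebraMap k (IntermediateField.adjoin k S) c))),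
      fun c => mem_algebraicClosure_iff⟩
  have h1 : ∀ x ∈ IntermediateField.adjoin k S, x ∈ E := fun x hx => by
    rw [hE]
    exact isAlgebraic_algebraMap (⟨x, hx⟩ : IntermediateField.adjoin k S)
  refine ⟨E, fun c => ?_, fun c hc => h1 c (IntermediateField.subset_adjoin k S hc), ?_⟩
  · rw [hE, IntermediateField.isAlgebraic_adjoin_iff]
  · intro c hc
    rw [hE]
    let _ : Algebra (IntermediateField.adjoin k S) E :=
      ((algebraMap (IntermediateField.adjoin k S) F).codRestrict E.toSubring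
        fun x => h1 _ x.2).toAlgebra
    have i7 : IsScalarTower (IntermediateField.adjoin k S) E F :=
      IsScalarTower.of_algebraMap_eq fun _ => rfl
    have i8 : Algebra.IsAlgebraic (IntermediateField.adjoin k S) E := by
      refine ⟨fun e => ?_⟩
      have h2 := (hE e).1 e.2
      exact (isAlgebraic_algebraMap_iff (R := IntermediateField.adjoin k S)
        (algebraMap E F).injective).1 h2
    exact hc.restrictScalars _

section

variable {K : Type u} [Field K] [NumberField K] {N : ℕ} {B : AV K N} {H : ℕ → ℝ}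
  {hH : Tendsto H (hyperfilter ℕ : Filter ℕ) atTop} {b : B.Pts (GK K)}

/-- The affine coordinates are algebraic over the Noether coordinates. -/
theorem P_y_mem {n e : ℕ} (nd : Noe B n e) (hl : VA.lf (nd.l 0) (B.x b) ≠ 0)
    (E : IntermediateField (k0 K H hH) (GK K)) (hs : ∀ k, nd.s b k ∈ E)
    (hE : ∀ c, IsAlgebraic E c → c ∈ E) (j : Fin (N + 1)) : nd.y b j ∈ E := by
  have h1 := (Z_integral nd hl j).isAlgebraic
  have h2 : ∀ c ∈ Algebra.adjoin K (Set.range (nd.s b)), c ∈ E := by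
    intro c hc
    induction hc using Algebra.adjoin_induction with
    | mem x hx =>
      obtain ⟨k, rfl⟩ := hx
      exact hs k
    | algebraMap x => exact E.algebraMap_mem (algebraMap K (k0 K H hH) x)
    | add x y _ _ hx hy => exact add_mem hx hy
    | mul x y _ _ hx hy => exact mul_mem hx hy
  obtain ⟨φ, hφ⟩ : ∃ φ : Algebra.adjoin K (Set.range (nd.s b)) →+* E, ∀ c, (φ c : GK K) = c :=
    ⟨(algebraMap (Algebra.adjoin K (Set.range (nd.s b))) (GK K)).codRestrict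
      E.toSubfield.toSubring fun c => h2 c c.2, fun _ => rfl⟩
  have hφi : Function.Injective φ := fun c c' h => Subtype.ext (by rw [← hφ c, ← hφ c', h])
  exact hE _ (IsAlgebraic.ringHom_of_comp_eq (S := E) φ (RingHom.id (GK K)) h1 hφi
    (RingHom.ext fun c => hφ c))

theorem P_lf_mem {E : IntermediateField (k0 K H hH) (GK K)} {y : Fin (N + 1) → GK K}
    (hy : ∀ j, y j ∈ E) (l : Fin (N + 1) → K) : VA.lf l y ∈ E := by
  unfold VA.lf
  exact sum_mem fun a _ => mul_mem (E.algebraMap_mem (algebraMap K (k0 K H hH) (l a))) (hy a)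

/-- The Noether coordinates for another normalisation are algebraic, too. -/
theorem P_y_mem' {n e n' e' : ℕ} (nd : Noe B n e) (nd' : Noe B n' e')
    (hl : VA.lf (nd.l 0) (B.x b) ≠ 0) {E : IntermediateField (k0 K H hH) (GK K)}
    (hy : ∀ j, nd.y b j ∈ E) (j : Fin (N + 1)) : nd'.y b j ∈ E := by
  have h1 : nd'.y b j = nd.y b j / VA.lf (nd'.l 0) (nd.y b) := by
    have h2 : nd.y b = fun i => (VA.lf (nd.l 0) (B.x b))⁻¹ * B.x b i := by
      funext i
      unfold Noe.y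
      rw [div_eq_inv_mul]
    rw [h2, Z_lf_smul]
    unfold Noe.y
    rw [mul_div_mul_left _ _ (inv_ne_zero hl)]
  rw [h1]
  exact div_mem (hy j) (P_lf_mem hy _)

theorem P_s_mem' {n' e' : ℕ} (nd' : Noe B n' e') {E : IntermediateField (k0 K H hH) (GK K)}
    (hy : ∀ j, nd'.y b j ∈ E) (k : Fin n') : nd'.s b k ∈ E := by
  rw [← Z_lf_s]
  exact P_lf_mem hy _

theorem P_aeval_mem {E : IntermediateField (k0 K H hH) (GK K)} {σ : Type*} {s : σ → GK K}
    (hs : ∀ k, s k ∈ E) (z : MvPolynomial σ (k0 K H hH)) : aeval s z ∈ E := by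
  induction z using MvPolynomial.induction_on with
  | C a =>
    rw [aeval_C]
    exact E.algebraMap_mem a
  | add p q hp hq =>
    rw [map_add]
    exact add_mem hp hq
  | mul_X p t hp =>
    rw [map_mul, aeval_X]
    exact mul_mem hp (hs t)

end

/-- No proximity at one place for elements algebraic over `k0(s(b))`. -/
theorem P_prox {K : Type u} [Field K] [NumberField K] {N : ℕ} (B : AV K N) {H : ℕ → ℝ}
    (hH : Tendsto H (hyperfilter ℕ : Filter ℕ) atTop) (Q : ℕ → B.Pts K) (hQ : FRM B.h H Q)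
    (hc : ∃ c : ℝ, 0 < c ∧ ∀ᶠ i in (hyperfilter ℕ : Filter ℕ), c * H i ≤ B.h (Q i))
    (hC : ∃ C : ℝ, 0 < C ∧ ∀ᶠ i in (hyperfilter ℕ : Filter ℕ), B.h (Q i) ≤ C * H i)
    (b : B.Pts (GK K)) (hb : IsGerm B Q b) {n e₀ : ℕ} (hdim : B.dimIs n)
    (nd : Noe B n e₀) (κ : SC K) (hgood : nd.Good b) (hnr : NoRat B hH b)
    {v₀ : AbsoluteValue K ℝ} (hv : Pl v₀)
    (hch : ∀ᶠ i in (hyperfilter ℕ : Filter ℕ), nd.In κ v₀ (Q i))
    (y : ℕ → K) (hy : gm y ≠ 0) (hyb : P_vb H v₀ y)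
    (hya : IsAlgebraic (Algebra.adjoin (k0 K H hH) (Set.range (nd.s b))) (gm y))
    (ε : ℝ) (hε : 0 < ε) :
    ∀ᶠ i in (hyperfilter ℕ : Filter ℕ), - Real.log (v₀ (y i)) ≤ ε * H i := by
  refine P_alg hH hv (fun k i => nd.s (Q i) k)
    (P_vb_s nd hH hv hb (P_vb_y nd hH κ hch)) ?_ y hy hyb (by rw [P_gm_s nd hb]; exact hya) ε hε
  intro z hz a ha ε' hε'
  rw [P_gm_s nd hb] at hz ha
  exact PX.no_prox B hH Q hQ hc hC b hb hdim nd κ hgood hnr hv hch z hz a ha ε' hε'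

/-- The affine coordinates for another normalisation are bounded. -/
theorem P_vb_y' {K : Type u} [Field K] [NumberField K] {N : ℕ} (B : AV K N) {H : ℕ → ℝ}
    (hH : Tendsto H (hyperfilter ℕ : Filter ℕ) atTop) (Q : ℕ → B.Pts K)
    (b : B.Pts (GK K)) (hb : IsGerm B Q b) {n e₀ : ℕ}
    (nd : Noe B n e₀) (κ : SC K) (hl : VA.lf (nd.l 0) (B.x b) ≠ 0)
    {v₀ : AbsoluteValue K ℝ} (hv : Pl v₀)
    (hch : ∀ᶠ i in (hyperfilter ℕ : Filter ℕ), nd.In κ v₀ (Q i))
    (hnp : ∀ y : ℕ → K, gm y ≠ 0 → P_vb H v₀ y →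
      IsAlgebraic (Algebra.adjoin (k0 K H hH) (Set.range (nd.s b))) (gm y) → ∀ ε : ℝ, 0 < ε →
      ∀ᶠ i in (hyperfilter ℕ : Filter ℕ), - Real.log (v₀ (y i)) ≤ ε * H i)
    {n' e' : ℕ} (nd' : Noe B n' e') (hl' : VA.lf (nd'.l 0) (B.x b) ≠ 0) (j : Fin (N + 1)) :
    P_vb H v₀ fun i => nd'.y (Q i) j := by
  obtain ⟨E, hE, hSE, hEa⟩ := P_field (k := k0 K H hH) (Set.range (nd.s b))
  have hyE : ∀ j, nd.y b j ∈ E := P_y_mem nd hl E (fun k => hSE ⟨k, rfl⟩) hEa
  obtain ⟨u, hu⟩ : ∃ u : ℕ → K, u = fun i => VA.lf (nd'.l 0) (nd.y (Q i)) := ⟨_, rfl⟩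
  have hgu : gm u = VA.lf (nd'.l 0) (nd.y b) := by
    rw [hu]
    unfold VA.lf
    rw [gm_sum]
    refine Finset.sum_congr rfl fun a _ => ?_
    rw [gm_mul, Z_gm_y nd hb]
    rfl
  have hne : VA.lf (nd'.l 0) (nd.y b) ≠ 0 := by
    have h2 : nd.y b = fun i => (VA.lf (nd.l 0) (B.x b))⁻¹ * B.x b i := by
      funext i
      unfold Noe.y
      rw [div_eq_inv_mul]
    rw [h2, Z_lf_smul]
    exact mul_ne_zero (inv_ne_zero hl) hl'
  have hub : P_vb H v₀ u := by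
    obtain ⟨β, hβ, hβ'⟩ := P_vb_rep hH hv (fun a i => nd.y (Q i) a) (P_vb_y nd hH κ hch)
      (∑ i, MvPolynomial.C (algebraMap K (k0 K H hH) (nd'.l 0 i)) * X i)
    refine hβ'.congr ?_
    rw [hβ, hgu, map_sum]
    unfold VA.lf
    refine Finset.sum_congr rfl fun i _ => ?_
    rw [map_mul, aeval_C, aeval_X, Z_gm_y nd hb]
    rfl
  have h1 := hnp u (by rw [hgu]; exact hne) hub (by
    rw [hgu, ← hE]
    exact P_lf_mem hyE _)
  have h2 : ∀ᶠ i in (hyperfilter ℕ : Filter ℕ), u i ≠ 0 := by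
    rw [← gm_ne_zero_iff, hgu]
    exact hne
  have h3 : P_vb H v₀ fun i => (u i)⁻¹ := by
    intro δ hδ
    filter_upwards [h1 δ hδ, h2, hH.eventually_ge_atTop 0] with i g1 g2 g3
    show Real.log (max 1 (v₀ (u i)⁻¹)) ≤ δ * H i
    rcases le_total (v₀ (u i)⁻¹) 1 with g4 | g4
    · rw [max_eq_left g4, Real.log_one]
      positivity
    · rw [max_eq_right g4, map_inv₀, Real.log_inv]
      exact g1
  refine ((P_vb_y nd hH κ hch j).mul h3).congr ?_
  rw [gm_mul, gm_inv, hgu, Z_gm_y nd hb, Z_gm_y nd' hb]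
  have h4 : nd.y b = fun i => (VA.lf (nd.l 0) (B.x b))⁻¹ * B.x b i := by
    funext i
    unfold Noe.y
    rw [div_eq_inv_mul]
  rw [h4, Z_lf_smul]
  unfold Noe.y
  field_simp

/-- The hypothesis `hchart` of `main_case`. -/
theorem P_hchart {K : Type u} [Field K] [NumberField K] {N : ℕ} {B : AV K N} {H : ℕ → ℝ}
    {Q : ℕ → B.Pts K} {v₀ : AbsoluteValue K ℝ} {n' e' : ℕ} (nd' : Noe B n' e')
    (hH : Tendsto H (hyperfilter ℕ : Filter ℕ) atTop)
    (hy : ∀ j, P_vb H v₀ fun i => nd'.y (Q i) j) (δ : ℝ) (hδ : 0 < δ) :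
    ∀ᶠ i in (hyperfilter ℕ : Filter ℕ), mq v₀ (nd'.y (Q i)) ≤ Real.exp (δ * H i) := by
  filter_upwards [eventually_all.2 fun j => hy j δ hδ, hH.eventually_ge_atTop 0] with i hi h0
  refine mq_le _ (Real.one_le_exp (by positivity)) fun j => ?_
  have h1 := hi j
  have h2 : (0 : ℝ) < max 1 (v₀ (nd'.y (Q i) j)) := lt_max_of_lt_left one_pos
  rw [Real.log_le_iff_le_exp h2] at h1
  exact (le_max_right _ _).trans h1

/-- The hypothesis `hprox` of `main_case` (for any normalisation `nd'` with bounded coordinates). -/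
theorem P_hprox {K : Type u} [Field K] [NumberField K] {N : ℕ} (B : AV K N) {H : ℕ → ℝ}
    (hH : Tendsto H (hyperfilter ℕ : Filter ℕ) atTop) (Q : ℕ → B.Pts K)
    (b : B.Pts (GK K)) (hb : IsGerm B Q b) {n e₀ : ℕ}
    (nd : Noe B n e₀) (hl : VA.lf (nd.l 0) (B.x b) ≠ 0)
    {v₀ : AbsoluteValue K ℝ} (hv : Pl v₀)
    (hnp : ∀ y : ℕ → K, gm y ≠ 0 → P_vb H v₀ y →
      IsAlgebraic (Algebra.adjoin (k0 K H hH) (Set.range (nd.s b))) (gm y) → ∀ ε : ℝ, 0 < ε →
      ∀ᶠ i in (hyperfilter ℕ : Filter ℕ), - Real.log (v₀ (y i)) ≤ ε * H i)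
    {n' e' : ℕ} (nd' : Noe B n' e') (hy' : ∀ j, P_vb H v₀ fun i => nd'.y (Q i) j)
    (z : MvPolynomial (Fin n') (k0 K H hH)) (hz : aeval (nd'.s b) z ≠ 0) (a : ℕ → K)
    (ha : gm a = aeval (nd'.s b) z) (δ : ℝ) (hδ : 0 < δ) :
    ∀ᶠ i in (hyperfilter ℕ : Filter ℕ), Real.exp (- δ * H i) ≤ v₀ (a i) := by
  obtain ⟨E, hE, hSE, hEa⟩ := P_field (k := k0 K H hH) (Set.range (nd.s b))
  have hyE : ∀ j, nd.y b j ∈ E := P_y_mem nd hl E (fun k => hSE ⟨k, rfl⟩) hEa
  have hsE : ∀ k, nd'.s b k ∈ E := P_s_mem' nd' (P_y_mem' nd nd' hl hyE)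
  obtain ⟨β, hβ, hβ'⟩ := P_vb_rep hH hv (fun k i => nd'.s (Q i) k) (P_vb_s nd' hH hv hb hy') z
  rw [P_gm_s nd' hb] at hβ
  have h1 := hnp a (by rw [ha]; exact hz) (hβ'.congr (hβ.trans ha.symm)) (by
    rw [ha, ← hE]
    exact P_aeval_mem hsE z) δ hδ
  have h2 : ∀ᶠ i in (hyperfilter ℕ : Filter ℕ), a i ≠ 0 := by
    rw [← gm_ne_zero_iff, ha]
    exact hz
  filter_upwards [h1, h2] with i g1 g2
  rw [← Real.le_log_iff_exp_le (v₀.pos g2)]
  linarith

end Pool.Agent.Lib.MP_17a322_nt.VP
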