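import Pool.Agent.Lib.MP_17a322_nt.VP.S7
import Pool.Agent.Lib.MP_17a322_nt.VP.Q2

/-!
The values and the sizes of the targets as functions of `Q`.
-/

universe u

namespace Pool.Agent.Lib.MP_17a322_nt.VP

open MvPolynomial Height Filter
open Pool.Agent.Lib.MP_17a322_nt.RO
open Pool.Agent.Lib.MP_17a322_nt.VJ
open Pool.Agent.Lib.MP_17a322_nt.VN hiding lf
open Pool.Agent.Lib.MP_17a322_nt.VA

section

variable {K : Type u} [Field K] {N : ℕ} {A B : AV K N} (hB : IsSubAV B A)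

/-- The forms at `W`, `Q` and the lower bound. -/
theorem S_pt {κ : SC K} (hκ : ∀ (L : Type u) [Field L] [Algebra K L] (v : AbsoluteValue L ℝ)
    (y y' : Fin (N + 1) → L), A.IsPt y → A.IsPt y' →
      ∃ a b, vm v y ^ 2 * vm v y' ^ 2 ≤ κ.k v * v (aeval (Sum.elim y y') (A.S a b)))
    (W : A.Pts K) (Q : B.Pts K) (v : AbsoluteValue K ℝ) (b₁ : Fin (N + 1))
    (hb₁ : ∀ b, v (A.x (W - hB.inc K Q) b) ≤ v (A.x (W - hB.inc K Q) b₁)) :
    ∃ c : K, c ≠ 0 ∧ (∀ (D : ℕ) (α : MvPolynomial (Fin (N + 1)) K), α.IsHomogeneous D →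
      aeval (B.x Q) (S_tw A (A.x W) b₁ α) = c ^ D * aeval (A.x (W + hB.inc K Q)) α) ∧
      vm v (A.x W) ^ 2 * vm v (B.x Q) ^ 2 ≤ κ.k v * (v c * vm v (A.x (W + hB.inc K Q))) := by
  obtain ⟨c₀, hc₀, hsp⟩ := A.spec K W (hB.inc K Q)
  have hx : A.x (W - hB.inc K Q) b₁ ≠ 0 := by
    intro h0
    rw [h0, map_zero] at hb₁
    refine Z_x_ne A (W - hB.inc K Q) (funext fun b => ?_)
    exact (v.eq_zero).1 (le_antisymm (hb₁ b) (v.nonneg _))
  have hsp' : ∀ a b, aeval (Sum.elim (A.x W) (B.x Q)) (A.S a b) =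
      c₀ * (A.x (W + hB.inc K Q) a * A.x (W - hB.inc K Q) b) := hsp
  refine ⟨c₀ * A.x (W - hB.inc K Q) b₁, mul_ne_zero hc₀ hx, fun D α hα => ?_, ?_⟩
  · rw [S_tw_aeval, ← Z_aeval_smul hα]
    congr 2
    funext a
    rw [hsp']
    ring
  · obtain ⟨a, b, hab⟩ := hκ K v (A.x W) (B.x Q) (Z_x_isPt A W) (Z_x_isPt A (hB.inc K Q))
    refine hab.trans (mul_le_mul_of_nonneg_left ?_ (κ.pos v).le)
    rw [hsp', map_mul, map_mul, map_mul]
    have h1 : v (A.x (W + hB.inc K Q) a) ≤ vm v (A.x (W + hB.inc K Q)) := le_vm v _ a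
    have h2 := mul_le_mul h1 (hb₁ b) (v.nonneg _) (vm_nonneg v _)
    have h3 := mul_le_mul_of_nonneg_left h2 (v.nonneg c₀)
    refine h3.trans (le_of_eq ?_)
    ring

end

/-- The hypothesis on the denominators. -/
theorem S_hbeta {K : Type u} [Field K] [NumberField K] {N : ℕ} {A B : AV K N}
    (hB : IsSubAV B A) {H : ℕ → ℝ} (hH : Tendsto H (hyperfilter ℕ : Filter ℕ) atTop)
    {κ : SC K} (hκ : ∀ (L : Type u) [Field L] [Algebra K L] (v : AbsoluteValue L ℝ)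
    (y y' : Fin (N + 1) → L), A.IsPt y → A.IsPt y' →
      ∃ a b, vm v y ^ 2 * vm v y' ^ 2 ≤ κ.k v * v (aeval (Sum.elim y y') (A.S a b)))
    (W : ℕ → A.Pts K) (Q : ℕ → B.Pts K) (v : AbsoluteValue K ℝ) (b₁ : Fin (N + 1))
    (hb₁ : ∀ᶠ i in (hyperfilter ℕ : Filter ℕ),
      ∀ b, v (A.x (W i - hB.inc K (Q i)) b) ≤ v (A.x (W i - hB.inc K (Q i)) b₁))
    {D : ℕ} {α β : MvPolynomial (Fin (N + 1)) K} (hα : α.IsHomogeneous D)
    (hβ : β.IsHomogeneous D)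
    (hlow : ∀ δ : ℝ, 0 < δ → ∀ᶠ i in (hyperfilter ℕ : Filter ℕ),
      (⨆ a, v (A.x (W i + hB.inc K (Q i)) a)) ^ D * Real.exp (- δ * H i) ≤
        v (aeval (A.x (W i + hB.inc K (Q i))) β)) (δ : ℝ) (hδ : 0 < δ) :
    ∀ᶠ i in (hyperfilter ℕ : Filter ℕ),
      (⨆ a, v (B.x (Q i) a)) ^ (2 * D) * (max (NV v (S_tw A (A.x (W i)) b₁ α))
        (NV v (S_tw A (A.x (W i)) b₁ β))) * Real.exp (- δ * H i) ≤
        v (aeval (B.x (Q i)) (S_tw A (A.x (W i)) b₁ β)) := by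
  obtain ⟨E, hE⟩ : ∃ E : ℝ, E = max 1 (NV v (S_big A b₁ α)) * max 1 (NV v (S_big A b₁ β)) :=
    ⟨_, rfl⟩
  have hE1 : 1 ≤ max 1 (NV v (S_big A b₁ α)) := le_max_left _ _
  have hE2 : 1 ≤ max 1 (NV v (S_big A b₁ β)) := le_max_left _ _
  have hE0 : 1 ≤ E := by
    rw [hE]
    exact one_le_mul_of_one_le_of_one_le hE1 hE2
  have hκ0 := κ.pos v
  filter_upwards [hlow (δ / 2) (by positivity), hb₁,
    oH_const hH (Real.log (E * κ.k v ^ D)) (δ / 2) (by positivity)] with i g1 g2 g3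
  obtain ⟨c, hc, hval, hle⟩ := S_pt hB hκ (W i) (Q i) v b₁ g2
  have hW : A.x (W i) ≠ 0 := Z_x_ne A _
  have h1 : max (NV v (S_tw A (A.x (W i)) b₁ α)) (NV v (S_tw A (A.x (W i)) b₁ β)) ≤
      vm v (A.x (W i)) ^ (2 * D) * E := by
    rw [hE]
    refine max_le ((S_tw_NV A v _ hW b₁ hα).trans ?_) ((S_tw_NV A v _ hW b₁ hβ).trans ?_)
    · refine mul_le_mul_of_nonneg_left ?_ (pow_nonneg (vm_nonneg v _) _)
      exact (le_max_right 1 _).trans (le_mul_of_one_le_right (zero_le_one.trans hE1) hE2)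
    · refine mul_le_mul_of_nonneg_left ?_ (pow_nonneg (vm_nonneg v _) _)
      exact (le_max_right 1 _).trans (le_mul_of_one_le_left (zero_le_one.trans hE2) hE1)
  have h2 : E * κ.k v ^ D ≤ Real.exp (δ / 2 * H i) := by
    have h3 : 0 < E * κ.k v ^ D := mul_pos (one_pos.trans_le hE0) (pow_pos hκ0 _)
    rw [← Real.log_le_iff_le_exp h3]
    exact g3
  have h3 := pow_le_pow_left₀ (mul_nonneg (pow_nonneg (vm_nonneg v (A.x (W i))) 2)
    (pow_nonneg (vm_nonneg v (B.x (Q i))) 2)) hle D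
  have h4 : Real.exp (δ / 2 * H i) * Real.exp (- δ * H i) = Real.exp (- (δ / 2) * H i) := by
    rw [← Real.exp_add]
    congr 1
    ring
  rw [hval D β hβ, map_mul, map_pow]
  have hQd : (⨆ a, v (B.x (Q i) a)) = vm v (B.x (Q i)) := rfl
  have hPd : (⨆ a, v (A.x (W i + hB.inc K (Q i)) a)) =
    vm v (A.x (W i + hB.inc K (Q i))) := rfl
  rw [hQd]
  rw [hPd] at g1
  have hcD : 0 ≤ v c ^ D := pow_nonneg (v.nonneg c) D
  calc vm v (B.x (Q i)) ^ (2 * D) * (max (NV v (S_tw A (A.x (W i)) b₁ α))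
        (NV v (S_tw A (A.x (W i)) b₁ β))) * Real.exp (- δ * H i)
      ≤ vm v (B.x (Q i)) ^ (2 * D) * (vm v (A.x (W i)) ^ (2 * D) * E) * Real.exp (- δ * H i) :=
        mul_le_mul_of_nonneg_right (mul_le_mul_of_nonneg_left h1
          (pow_nonneg (vm_nonneg v _) _)) (Real.exp_pos _).le
    _ = (vm v (A.x (W i)) ^ 2 * vm v (B.x (Q i)) ^ 2) ^ D * (E * Real.exp (- δ * H i)) := by
        rw [mul_pow, ← pow_mul, ← pow_mul]
        ring
    _ ≤ (κ.k v * (v c * vm v (A.x (W i + hB.inc K (Q i))))) ^ D *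
          (E * Real.exp (- δ * H i)) :=
        mul_le_mul_of_nonneg_right h3 (mul_nonneg (zero_le_one.trans hE0) (Real.exp_pos _).le)
    _ = v c ^ D * (vm v (A.x (W i + hB.inc K (Q i))) ^ D * ((E * κ.k v ^ D) *
          Real.exp (- δ * H i))) := by
        rw [mul_pow, mul_pow]
        ring
    _ ≤ v c ^ D * (vm v (A.x (W i + hB.inc K (Q i))) ^ D * (Real.exp (δ / 2 * H i) *
          Real.exp (- δ * H i))) :=
        mul_le_mul_of_nonneg_left (mul_le_mul_of_nonneg_left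
          (mul_le_mul_of_nonneg_right h2 (Real.exp_pos _).le)
          (pow_nonneg (vm_nonneg v _) _)) hcD
    _ = v c ^ D * (vm v (A.x (W i + hB.inc K (Q i))) ^ D * Real.exp (- (δ / 2) * H i)) := by
        rw [h4]
    _ ≤ _ := mul_le_mul_of_nonneg_left g1 hcD

end Pool.Agent.Lib.MP_17a322_nt.VP
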