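import Pool.Agent.Lib.MP_17a322_nt.VDA.P2

/-!
The germs of size `exp (o(H))` at a place form a valuation ring; it contains everything which is
algebraic over the Noether coordinates.
-/

universe u

namespace Pool.Agent.Lib.MP_17a322_nt.VP

open MvPolynomial Height Filter
open Pool.Agent.Lib.MP_17a322_nt.RO
open Pool.Agent.Lib.MP_17a322_nt.VJ
open Pool.Agent.Lib.MP_17a322_nt.VN hiding lf
open Pool.Agent.Lib.MP_17a322_nt.VA

section

variable {K : Type u} [Field K] [NumberField K] {H : ℕ → ℝ}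

/-- The sequence is at most `exp (o(H))` at `v`. -/
def Bv (H : ℕ → ℝ) (v : AbsoluteValue K ℝ) (β : ℕ → K) : Prop :=
  ∀ δ : ℝ, 0 < δ → ∀ᶠ i in (hyperfilter ℕ : Filter ℕ), v (β i) ≤ Real.exp (δ * H i)

omit [NumberField K] in
theorem Bv.congr {v : AbsoluteValue K ℝ} {β β' : ℕ → K} (h : Bv H v β) (hg : gm β = gm β') :
    Bv H v β' := by
  intro δ hδ
  filter_upwards [h δ hδ, gm_eq_iff.1 hg] with i h1 h2
  rwa [← h2]

omit [NumberField K] in
theorem Bv.mul {v : AbsoluteValue K ℝ} {β β' : ℕ → K} (h : Bv H v β) (h' : Bv H v β') :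
    Bv H v fun i => β i * β' i := by
  intro δ hδ
  filter_upwards [h (δ / 2) (by positivity), h' (δ / 2) (by positivity)] with i h1 h2
  rw [map_mul]
  have h3 := mul_le_mul h1 h2 (v.nonneg _) (Real.exp_pos _).le
  rw [← Real.exp_add] at h3
  have h4 : δ / 2 * H i + δ / 2 * H i = δ * H i := by ring
  rwa [h4] at h3

omit [NumberField K] in
theorem Bv.add (hH : Tendsto H (hyperfilter ℕ : Filter ℕ) atTop) {v : AbsoluteValue K ℝ}
    {β β' : ℕ → K} (h : Bv H v β) (h' : Bv H v β') : Bv H v fun i => β i + β' i := by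
  intro δ hδ
  filter_upwards [h (δ / 2) (by positivity), h' (δ / 2) (by positivity),
    hH.eventually_ge_atTop (Real.log 2 / (δ / 2))] with i h1 h2 h3
  have h4 : v (β i + β' i) ≤ 2 * Real.exp (δ / 2 * H i) := by
    have := v.add_le (β i) (β' i)
    linarith
  refine h4.trans ?_
  rw [div_le_iff₀ (by positivity)] at h3
  have h5 : (2 : ℝ) = Real.exp (Real.log 2) := (Real.exp_log (by norm_num)).symm
  have h6 : 2 * Real.exp (δ / 2 * H i) = Real.exp (Real.log 2 + δ / 2 * H i) := by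
    rw [Real.exp_add, ← h5]
  rw [h6, Real.exp_le_exp]
  linarith

omit [NumberField K] in
theorem Bv_const (hH : Tendsto H (hyperfilter ℕ : Filter ℕ) atTop) (v : AbsoluteValue K ℝ)
    {β : ℕ → K} (C : ℝ) (h : ∀ᶠ i in (hyperfilter ℕ : Filter ℕ), v (β i) ≤ C) : Bv H v β := by
  intro δ hδ
  filter_upwards [h, hH.eventually_ge_atTop (Real.log (max 1 C) / δ)] with i h1 h2
  rw [div_le_iff₀ hδ] at h2
  have h3 : max 1 C = Real.exp (Real.log (max 1 C)) :=
    (Real.exp_log (lt_max_of_lt_left one_pos)).symm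
  refine h1.trans ((le_max_right 1 C).trans ?_)
  rw [h3, Real.exp_le_exp]
  linarith

theorem Bv_height {v : AbsoluteValue K ℝ} (hv : Pl v) {β : ℕ → K}
    (h : oH H fun i => logHeight₁ (β i)) : Bv H v β := by
  intro δ hδ
  filter_upwards [h δ hδ] with i h1
  have h2 := VD.gs_single (FS_log_max (β i))
    (fun v _ => Real.log_nonneg (le_max_left (1 : ℝ) (v (β i)))) hv
  rw [gs_log_max] at h2
  have h3 := Real.exp_le_exp.2 (h2.trans h1)
  rw [Real.exp_log (lt_max_of_lt_left one_pos)] at h3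
  exact (le_max_right _ _).trans h3

/-- The valuation ring of the germs of size `exp (o(H))` at `v`. -/
noncomputable def Ov (hH : Tendsto H (hyperfilter ℕ : Filter ℕ) atTop) (v : AbsoluteValue K ℝ) :
    ValuationSubring (GK K) where
  carrier := {y | ∃ β : ℕ → K, gm β = y ∧ Bv H v β}
  mul_mem' := by
    rintro _ _ ⟨β, rfl, h⟩ ⟨β', rfl, h'⟩
    exact ⟨_, gm_mul β β', h.mul h'⟩
  one_mem' := ⟨fun _ => 1, rfl, Bv_const hH v 1 (Eventually.of_forall fun i => by
    rw [map_one])⟩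
  add_mem' := by
    rintro _ _ ⟨β, rfl, h⟩ ⟨β', rfl, h'⟩
    exact ⟨_, gm_add β β', h.add hH h'⟩
  zero_mem' := ⟨fun _ => 0, rfl, Bv_const hH v 0 (Eventually.of_forall fun i => by
    rw [map_zero])⟩
  neg_mem' := by
    rintro _ ⟨β, rfl, h⟩
    refine ⟨fun i => - β i, rfl, fun δ hδ => ?_⟩
    filter_upwards [h δ hδ] with i hi
    rwa [map_neg_eq_map]
  mem_or_inv_mem' := by
    intro x
    obtain ⟨β, rfl⟩ := exists_gm x
    by_cases h : Bv H v β
    · exact Or.inl ⟨β, rfl, h⟩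
    · refine Or.inr ⟨fun i => (β i)⁻¹, gm_inv β, ?_⟩
      unfold Bv at h
      push Not at h
      obtain ⟨δ₀, hδ₀, h1⟩ := h
      intro δ hδ
      filter_upwards [h1, hH.eventually_ge_atTop 0] with i h2 h3
      rw [map_inv₀]
      have h4 : 1 ≤ v (β i) := by
        refine le_trans ?_ h2.le
        rw [Real.one_le_exp_iff]
        exact mul_nonneg hδ₀.le h3
      exact (inv_le_one_of_one_le₀ h4).trans (Real.one_le_exp (mul_nonneg hδ.le h3))

omit [NumberField K] in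
theorem mem_Ov (hH : Tendsto H (hyperfilter ℕ : Filter ℕ) atTop) {v : AbsoluteValue K ℝ}
    {β : ℕ → K} : gm β ∈ Ov hH v ↔ Bv H v β :=
  ⟨fun ⟨_, h1, h2⟩ => h2.congr h1, fun h => ⟨β, rfl, h⟩⟩

theorem k0_le_Ov (hH : Tendsto H (hyperfilter ℕ : Filter ℕ) atTop) {v : AbsoluteValue K ℝ}
    (hv : Pl v) {a : GK K} (ha : a ∈ k0 K H hH) : a ∈ Ov hH v := by
  obtain ⟨β, rfl⟩ := exists_gm a
  rw [mem_Ov]
  exact Bv_height hv (sml_iff.1 ha)

/-- Lower bounds. -/
theorem lower_of_inv (hH : Tendsto H (hyperfilter ℕ : Filter ℕ) atTop) {v : AbsoluteValue K ℝ}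
    {β : ℕ → K} (h0 : gm β ≠ 0) (h : (gm β)⁻¹ ∈ Ov hH v) (δ : ℝ) (hδ : 0 < δ) :
    ∀ᶠ i in (hyperfilter ℕ : Filter ℕ), Real.exp (- δ * H i) ≤ v (β i) := by
  rw [← gm_inv, mem_Ov] at h
  filter_upwards [h δ hδ, gm_ne_zero_iff.1 h0] with i h1 h2
  rw [map_inv₀] at h1
  have h3 : 0 < v (β i) := v.pos h2
  rw [inv_le_comm₀ h3 (Real.exp_pos _), ← Real.exp_neg] at h1
  rwa [neg_mul]

/-- Everything algebraic over a subfield of the valuation ring is in the valuation ring. -/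
theorem Ov_algebraic (hH : Tendsto H (hyperfilter ℕ : Filter ℕ) atTop) {v : AbsoluteValue K ℝ}
    (F : IntermediateField (k0 K H hH) (GK K)) (hF : ∀ x ∈ F, x ∈ Ov hH v) {y : GK K}
    (hy : IsAlgebraic F y) : y ∈ Ov hH v := by
  have h1 : IsIntegral F y := hy.isIntegral
  obtain ⟨φ, hφ⟩ : ∃ φ : F →+* Ov hH v, ∀ c, ((φ c : Ov hH v) : GK K) = c :=
    ⟨(algebraMap F (GK K)).codRestrict (Ov hH v).toSubring fun c => hF c c.2, fun _ => rfl⟩
  have h2 : IsIntegral (Ov hH v) y := by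
    obtain ⟨p, hp, hp0⟩ := h1
    refine ⟨p.map φ, hp.map φ, ?_⟩
    rw [Polynomial.eval₂_map]
    have h3 : (algebraMap (Ov hH v) (GK K)).comp φ = algebraMap F (GK K) :=
      RingHom.ext fun c => hφ c
    rw [h3]
    exact hp0
  obtain ⟨z, hz⟩ := IsIntegrallyClosed.isIntegral_iff.1 h2
  rw [← hz]
  exact z.2

end

/-- Everything algebraic over the Noether coordinates in the chart at `v` has size `exp (o(H))`
at `v`. -/
theorem S_alg {K : Type u} [Field K] [NumberField K] {N : ℕ} (B : AV K N) {H : ℕ → ℝ}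
    (hH : Tendsto H (hyperfilter ℕ : Filter ℕ) atTop) (Q : ℕ → B.Pts K) (hQ : FRM B.h H Q)
    (hc : ∃ c : ℝ, 0 < c ∧ ∀ᶠ i in (hyperfilter ℕ : Filter ℕ), c * H i ≤ B.h (Q i))
    (hC : ∃ C : ℝ, 0 < C ∧ ∀ᶠ i in (hyperfilter ℕ : Filter ℕ), B.h (Q i) ≤ C * H i)
    (b : B.Pts (GK K)) (hb : IsGerm B Q b) {n e₀ : ℕ} (hdim : B.dimIs n)
    (nd : Noe B n e₀) (κ : SC K) (hgood : nd.Good b) (hnr : NoRat B hH b)
    {v : AbsoluteValue K ℝ} (hv : Pl v)
    (hch : ∀ᶠ i in (hyperfilter ℕ : Filter ℕ), nd.In κ v (Q i)) {y : GK K}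
    (hy : IsAlgebraic (IntermediateField.adjoin (k0 K H hH) (Set.range (nd.s b))) y) :
    y ∈ Ov hH v := by
  refine Ov_algebraic hH (IntermediateField.adjoin (k0 K H hH) (Set.range (nd.s b))) ?_ hy
  -- polynomials
  have hy1 : ∀ j, nd.y b j ∈ Ov hH v := by
    intro j
    rw [← Z_gm_y nd hb, mem_Ov]
    refine Bv_const hH v (κ.k v) ?_
    filter_upwards [hch] with i hi
    have h1 := hi j
    unfold Noe.y
    rw [map_div₀]
    rcases eq_or_ne (lf (nd.l 0) (B.x (Q i))) 0 with h0 | h0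
    · rw [h0, map_zero, div_zero]
      exact (κ.pos v).le
    · rw [div_le_iff₀ (v.pos h0)]
      exact h1
  have hK : ∀ c : K, algebraMap K (GK K) c ∈ Ov hH v := fun c =>
    k0_le_Ov hH hv ((k0 K H hH).algebraMap_mem c)
  have hs1 : ∀ k, nd.s b k ∈ Ov hH v := by
    intro k
    rw [← Z_lf_s nd b k]
    unfold lf
    exact sum_mem fun a _ => mul_mem (hK _) (hy1 a)
  have hpoly : ∀ z : MvPolynomial (Fin n) (k0 K H hH), aeval (nd.s b) z ∈ Ov hH v := by
    intro z
    induction z using MvPolynomial.induction_on with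
    | C a =>
      rw [aeval_C]
      exact k0_le_Ov hH hv a.2
    | add p q hp hq =>
      rw [map_add]
      exact add_mem hp hq
    | mul_X p k hp =>
      rw [map_mul, aeval_X]
      exact mul_mem hp (hs1 k)
  have hinv : ∀ z : MvPolynomial (Fin n) (k0 K H hH), (aeval (nd.s b) z)⁻¹ ∈ Ov hH v := by
    intro z
    by_cases hz : aeval (nd.s b) z = 0
    · rw [hz, inv_zero]
      exact zero_mem _
    · obtain ⟨a, ha⟩ := exists_gm (aeval (nd.s b) z)
      rw [← ha, ← gm_inv, mem_Ov]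
      intro δ hδ
      have hne : gm a ≠ 0 := by rwa [ha]
      filter_upwards [PX.no_prox B hH Q hQ hc hC b hb hdim nd κ hgood hnr hv hch z hz a ha δ hδ,
        gm_ne_zero_iff.1 hne] with i h1 h2
      rw [map_inv₀, ← Real.exp_log (inv_pos.2 (v.pos h2)), Real.log_inv, Real.exp_le_exp]
      exact h1
  intro x hx
  rw [IntermediateField.mem_adjoin_range_iff] at hx
  obtain ⟨r, s, rfl⟩ := hx
  rw [div_eq_mul_inv]
  exact mul_mem (hpoly r) (hinv s)

end Pool.Agent.Lib.MP_17a322_nt.VP
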