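import Pool.Agent.Lib.MP_17a322_nt.VA.Z15
import Pool.Agent.Lib.MP_17a322_nt.VP.S5

/-!
Every germ algebraic over the coordinates of the germ of a sequence of points of a finitely generated
group has size `exp (o(H))` at every place.
-/

universe u

namespace Pool.Agent.Lib.MP_17a322_nt.VP

open MvPolynomial Height Filter
open Pool.Agent.Lib.MP_17a322_nt.RO
open Pool.Agent.Lib.MP_17a322_nt.VJ
open Pool.Agent.Lib.MP_17a322_nt.VN hiding lf
open Pool.Agent.Lib.MP_17a322_nt.VA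

theorem S_alg_trans {k L : Type*} [Field k] [Field L] [Algebra k L] (F E : IntermediateField k L)
    (h : ∀ x ∈ F, IsAlgebraic E x) {y : L} (hy : IsAlgebraic F y) : IsAlgebraic E y := by
  obtain ⟨φ, hφ⟩ : ∃ φ : F →+* algebraicClosure E L, ∀ c, ((φ c : algebraicClosure E L) : L) = c :=
    ⟨(algebraMap F L).codRestrict (algebraicClosure E L).toSubring fun c =>
      mem_algebraicClosure_iff.2 (h c c.2), fun _ => rfl⟩
  have h1 : IsAlgebraic (algebraicClosure E L) y :=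
    hy.ringHom_of_comp_eq (S := algebraicClosure E L) φ (RingHom.id L)
      (fun c c' h => Subtype.ext (by rw [← hφ c, ← hφ c', h])) (RingHom.ext fun c => hφ c)
  have : Algebra.IsAlgebraic E (algebraicClosure E L) := algebraicClosure.isAlgebraic E L
  exact h1.restrictScalars E

/-- `frm_sub` for a function `H` comparable to the height. -/
theorem S_frm {K : Type u} [Field K] [NumberField K] {N : ℕ} (A B : AV K N) (hB : IsSubAV B A)
    (Γ : AddSubgroup (A.Pts K)) (hΓ : Γ.FG) (P : ℕ → A.Pts K) (hP : ∀ i, P i ∈ Γ) {H : ℕ → ℝ}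
    (hH : Tendsto H (hyperfilter ℕ : Filter ℕ) atTop)
    (hlow : ∃ c : ℝ, 0 < c ∧ ∀ᶠ i in (hyperfilter ℕ : Filter ℕ), c * H i ≤ A.h (P i))
    (hupp : ∃ C : ℝ, 0 < C ∧ ∀ᶠ i in (hyperfilter ℕ : Filter ℕ), A.h (P i) ≤ C * H i)
    {δ : ℕ} (hδ : 0 < δ) (w : ℕ → A.Pts K) (hw : oH H fun i => A.h (w i)) (Q : ℕ → B.Pts K)
    (hQ : ∀ᶠ i in (hyperfilter ℕ : Filter ℕ), hB.inc K (Q i) = δ • P i - w i) :
    FRM B.h H Q ∧
      (∃ c : ℝ, 0 < c ∧ ∀ᶠ i in (hyperfilter ℕ : Filter ℕ), c * H i ≤ B.h (Q i)) ∧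
      ∃ C : ℝ, 0 < C ∧ ∀ᶠ i in (hyperfilter ℕ : Filter ℕ), B.h (Q i) ≤ C * H i := by
  obtain ⟨c, hc, hc'⟩ := hlow
  obtain ⟨C, hC, hC'⟩ := hupp
  have hH' : Tendsto (fun i => A.h (P i)) (hyperfilter ℕ : Filter ℕ) atTop := by
    refine tendsto_atTop_mono' _ hc' ?_
    exact hH.const_mul_atTop hc
  have ho : ∀ h : ℕ → ℝ, oH H h → oH (fun i => A.h (P i)) h := by
    intro h h1 δ hδ
    filter_upwards [h1 (δ * c) (by positivity), hc'] with i h2 h3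
    have h4 := mul_le_mul_of_nonneg_left h3 hδ.le
    linarith
  obtain ⟨h1, ⟨c₁, hc₁, h2⟩, ⟨C₁, hC₁, h3⟩⟩ := frm_sub A B hB Γ hΓ P hP hH' hδ w (ho _ hw) Q hQ
  refine ⟨fun hh hho => h1 hh (ho hh hho), ⟨c₁ * c, by positivity, ?_⟩,
    ⟨C₁ * C, by positivity, ?_⟩⟩
  · filter_upwards [h2, hc'] with i h4 h5
    have h6 := mul_le_mul_of_nonneg_left h5 hc₁.le
    linarith
  · filter_upwards [h3, hC'] with i h4 h5
    have h6 := mul_le_mul_of_nonneg_left h5 hC₁.le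
    linarith

/-- Translation of `b` by a point over `K`. -/
theorem S_shift {K : Type u} [Field K] [NumberField K] {N : ℕ} (A B : AV K N) (hB : IsSubAV B A)
    (Γ : AddSubgroup (A.Pts K)) (hΓ : Γ.FG) (P : ℕ → A.Pts K) (hP : ∀ i, P i ∈ Γ) {H : ℕ → ℝ}
    (hH : Tendsto H (hyperfilter ℕ : Filter ℕ) atTop)
    (hlow : ∃ c : ℝ, 0 < c ∧ ∀ᶠ i in (hyperfilter ℕ : Filter ℕ), c * H i ≤ A.h (P i))
    (hupp : ∃ C : ℝ, 0 < C ∧ ∀ᶠ i in (hyperfilter ℕ : Filter ℕ), A.h (P i) ≤ C * H i)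
    {p : A.Pts (GK K)} (hPp : IsGerm A P p) {δ : ℕ} (hδ : 0 < δ)
    {w : A.Pts (k0 K H hH)} {w' : A.Pts (GK K)} (hw : A.Img (k0 K H hH).val w w')
    {b : B.Pts (GK K)} (hrel : δ • p = w' + hB.inc (GK K) b) {W : ℕ → A.Pts K}
    (hW : IsGerm A W w') {Q₀ : ℕ → B.Pts K} (hQ₀ : IsGerm B Q₀ b) (p₁ : B.Pts K)
    {q₁ : B.Pts (GK K)} (hq₁ : q₁ = B.img (Algebra.ofId K (GK K)) p₁) :
    IsGerm B (fun ν => Q₀ ν - p₁) (b - q₁) ∧
      IsGerm A (fun ν => W ν + hB.inc K p₁) (w' + hB.inc (GK K) q₁) ∧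
      (∃ w₁ : A.Pts (k0 K H hH), A.Img (k0 K H hH).val w₁ (w' + hB.inc (GK K) q₁)) ∧
      δ • p = (w' + hB.inc (GK K) q₁) + hB.inc (GK K) (b - q₁) ∧
      FRM B.h H (fun ν => Q₀ ν - p₁) ∧
      (∃ c : ℝ, 0 < c ∧ ∀ᶠ i in (hyperfilter ℕ : Filter ℕ), c * H i ≤ B.h (Q₀ i - p₁)) ∧
      ∃ C : ℝ, 0 < C ∧ ∀ᶠ i in (hyperfilter ℕ : Filter ℕ), B.h (Q₀ i - p₁) ≤ C * H i := by
  have hp₁ : B.Img (Algebra.ofId K (GK K)) p₁ q₁ := by
    rw [hq₁]
    exact Z_img_img _ _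
  have hQ : IsGerm B (fun ν => Q₀ ν - p₁) (b - q₁) := (hQ₀.add_sub (IsGerm.const p₁ hp₁)).2
  obtain ⟨Q, hQdef⟩ : ∃ Q : ℕ → B.Pts K, ∀ ν, Q ν = Q₀ ν - p₁ := ⟨_, fun _ => rfl⟩
  have hQb : IsGerm B Q (b - q₁) := by
    rw [show Q = fun ν => Q₀ ν - p₁ from funext hQdef]
    exact hQ
  have hw₁ : A.Img (k0 K H hH).val
      (A.img (Algebra.ofId K (k0 K H hH)) (hB.inc K p₁)) (hB.inc (GK K) q₁) := by
    obtain ⟨y, hy⟩ := Z_exists_img A (k0 K H hH).val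
      (A.img (Algebra.ofId K (k0 K H hH)) (hB.inc K p₁))
    have h1 := Z_img_trans A (Z_img_img (Algebra.ofId K (k0 K H hH)) (hB.inc K p₁)) hy
    have h2 : (k0 K H hH).val.comp (Algebra.ofId K (k0 K H hH)) = Algebra.ofId K (GK K) :=
      Subsingleton.elim _ _
    rw [h2] at h1
    rw [← Z_img_unique A h1 (Z_inc_img hB hp₁)]
    exact hy
  have hw₂ := Z_img_add A hw hw₁
  have hrel₂ : δ • p = (w' + hB.inc (GK K) q₁) + hB.inc (GK K) (b - q₁) := by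
    rw [map_sub, hrel]
    abel
  have hW₂ : IsGerm A (fun ν => W ν + hB.inc K p₁) (w' + hB.inc (GK K) q₁) :=
    (hW.add_sub (IsGerm.inc hB (IsGerm.const p₁ hp₁))).1
  have hoH := Z_oH_of_img hH hW₂ hw₂
  have hrelK : ∀ᶠ ν in (hyperfilter ℕ : Filter ℕ),
      hB.inc K (Q ν) = δ • P ν - (W ν + hB.inc K p₁) := by
    have h1 := (hPp.nsmul δ)
    rw [hrel₂] at h1
    filter_upwards [h1.ev_eq (hW₂.add_sub (hQb.inc hB)).1] with ν hν
    rw [hν]
    abel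
  have hfr := S_frm A B hB Γ hΓ P hP hH hlow hupp hδ _ hoH Q hrelK
  rw [show Q = fun ν => Q₀ ν - p₁ from funext hQdef] at hfr
  exact ⟨hQ, hW₂, ⟨_, hw₂⟩, hrel₂, hfr⟩

/-- Ratios of coordinates of a sequence of height `o(H)`. -/
theorem S_rt_mem {K : Type u} [Field K] [NumberField K] {N : ℕ} {A : AV K N} {H : ℕ → ℝ}
    (hH : Tendsto H (hyperfilter ℕ : Filter ℕ) atTop) {P : ℕ → A.Pts K} {p : A.Pts (GK K)}
    (hPp : IsGerm A P p) (ho : oH H fun i => A.h (P i)) (i : Fin (N + 1) × Fin (N + 1)) :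
    rt (A.x p) i ∈ k0 K H hH := by
  rw [hPp.rt, mem_k0]
  refine ho.mono (Eventually.of_forall fun ν => ?_)
  show logHeight₁ (A.x (P ν) i.1 / A.x (P ν) i.2) ≤ logHeight (A.x (P ν))
  obtain ⟨x, hx⟩ : ∃ x, x = A.x (P ν) := ⟨_, rfl⟩
  have hx0 : x ≠ 0 := by
    rw [hx]
    exact Z_x_ne A _
  rw [← hx]
  by_cases h0 : x i.2 = 0
  · rw [h0, div_zero, logHeight₁_zero]
    exact logHeight_nonneg _
  · rw [← gs_log_max, ← sub_zero (logHeight x), ← gs_log_iSup hx0, ← gs_log_abv h0,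
      ← gs_sub (FS_log_iSup hx0) (FS_log_abv h0)]
    refine gs_le (FS_log_max _) (FS_sub (FS_log_iSup hx0) (FS_log_abv h0)) fun v _ => ?_
    have h1 : 0 < v (x i.2) := v.pos h0
    have hM : ∀ a, v (x a) ≤ ⨆ a, v (x a) := fun a =>
      le_ciSup (Set.finite_range fun a => v (x a)).bddAbove a
    have h2 : 0 < ⨆ a, v (x a) := h1.trans_le (hM i.2)
    rw [← Real.log_div h2.ne' h1.ne']
    refine Real.log_le_log (lt_max_of_lt_left one_pos) (max_le ?_ ?_)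
    · rw [le_div_iff₀ h1, one_mul]
      exact hM i.2
    · rw [map_div₀]
      exact div_le_div_of_nonneg_right (hM i.1) h1.le

/-- Everything algebraic over the coordinates of `p` has size `exp (o(H))` at `v`. -/
theorem Ov_all {K : Type u} [Field K] [NumberField K] {N : ℕ} (A : AV K N)
    (Γ : AddSubgroup (A.Pts K)) (hΓ : Γ.FG) (P : ℕ → A.Pts K) (hP : ∀ i, P i ∈ Γ) {H : ℕ → ℝ}
    (hH : Tendsto H (hyperfilter ℕ : Filter ℕ) atTop)
    (hupp : ∃ C : ℝ, 0 < C ∧ ∀ᶠ i in (hyperfilter ℕ : Filter ℕ), A.h (P i) ≤ C * H i)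
    {p : A.Pts (GK K)} (hPp : IsGerm A P p) {v : AbsoluteValue K ℝ} (hv : Pl v) {y : GK K}
    (hy : IsAlgebraic (IntermediateField.adjoin (k0 K H hH) (Set.range (rt (A.x p)))) y) :
    y ∈ Ov hH v := by
  classical
  by_cases ho : oH H fun i => A.h (P i)
  · refine Ov_algebraic hH _ ?_ hy
    intro x hx
    have h1 : IntermediateField.adjoin (k0 K H hH) (Set.range (rt (A.x p))) ≤ ⊥ := by
      rw [IntermediateField.adjoin_le_iff]
      rintro _ ⟨i, rfl⟩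
      exact IntermediateField.mem_bot.2 ⟨⟨_, S_rt_mem hH hPp ho i⟩, rfl⟩
    obtain ⟨c, hc⟩ := IntermediateField.mem_bot.1 (h1 hx)
    rw [← hc]
    exact k0_le_Ov hH hv c.2
  · have hlow : ∃ c : ℝ, 0 < c ∧ ∀ᶠ i in (hyperfilter ℕ : Filter ℕ), c * H i ≤ A.h (P i) := by
      unfold oH at ho
      push Not at ho
      obtain ⟨c, hc, h1⟩ := ho
      exact ⟨c, hc, h1.mono fun i hi => hi.le⟩
    obtain ⟨B, hB, δ, w, w', b, hδ, hw, hrel, hmin, hnr⟩ := geom_noRat A hH p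
    obtain ⟨W, hW⟩ := Z_germ_seq A w'
    obtain ⟨Q₀, hQ₀⟩ := Z_germ_seq B b
    obtain ⟨n, hn⟩ := Z_exists_dim B
    obtain ⟨s, e, nd, κ, hcov⟩ := exists_cover B hn
    obtain ⟨p₁, hgood⟩ := exists_shift B Q₀ b hQ₀ hmin e nd
    obtain ⟨q₁, hq₁⟩ : ∃ q₁, q₁ = B.img (Algebra.ofId K (GK K)) p₁ := ⟨_, rfl⟩
    obtain ⟨hQb, -, ⟨w₁, hw₁⟩, hrel₂, hfrm, hlow', hupp'⟩ := S_shift A B hB Γ hΓ P hP hH hlow hupp
      hPp hδ hw hrel hW hQ₀ p₁ hq₁
    have hch : ∀ᶠ ν in (hyperfilter ℕ : Filter ℕ), ∃ x : Fin s, (nd x).In κ v (Q₀ ν - p₁) :=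
      Eventually.of_forall fun ν => hcov K v _
    obtain ⟨c, hc⟩ := eventually_exists_fintype _ _ hch
    obtain ⟨a, ha⟩ : ∃ a, A.x p a ≠ 0 := by
      by_contra h
      push Not at h
      exact Z_x_ne A p (funext h)
    refine S_alg B hH _ hfrm hlow' hupp' (b - q₁) hQb hn (nd c) κ (by rw [hq₁]; exact hgood c)
      (by rw [hq₁]; exact hnr p₁) hv hc ?_
    have hcoord : ∀ i, IsAlgebraic (IntermediateField.adjoin (k0 K H hH)
        (Set.range ((nd c).s (b - q₁)))) (A.x p i / A.x p a) := by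
      intro i
      have h1 := Z_algebraic hB hH hδ hw₁ hrel₂ (nd c)
        (by rw [hq₁]; exact (hgood c).1) a (Sum.inl i)
      rw [← IntermediateField.isAlgebraic_adjoin_iff] at h1
      exact h1
    have hle : ∀ x ∈ IntermediateField.adjoin (k0 K H hH) (Set.range (rt (A.x p))),
        IsAlgebraic (IntermediateField.adjoin (k0 K H hH)
          (Set.range ((nd c).s (b - q₁)))) x := by
      intro x hx
      refine Z_alg_adjoin (fun z hz => ?_) hx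
      obtain ⟨i, rfl⟩ := hz
      have h1 : rt (A.x p) i = A.x p i.1 / A.x p a / (A.x p i.2 / A.x p a) := by
        unfold rt
        rw [div_div_div_cancel_right₀ ha]
      rw [h1, div_eq_mul_inv]
      exact (hcoord _).mul (hcoord _).inv
    exact S_alg_trans _ _ hle hy

end Pool.Agent.Lib.MP_17a322_nt.VP
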