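import Pool.Agent.Lib.MP_17a322_nt.VP.S6

/-!
Lower bounds for forms at the points of a sequence.
-/

universe u

namespace Pool.Agent.Lib.MP_17a322_nt.VP

open MvPolynomial Height Filter
open Pool.Agent.Lib.MP_17a322_nt.RO
open Pool.Agent.Lib.MP_17a322_nt.VJ
open Pool.Agent.Lib.MP_17a322_nt.VN hiding lf
open Pool.Agent.Lib.MP_17a322_nt.VA

section

variable {K : Type u} [Field K] [NumberField K] {N : ℕ} (A : AV K N)
    (Γ : AddSubgroup (A.Pts K)) (hΓ : Γ.FG) (P : ℕ → A.Pts K) (hP : ∀ i, P i ∈ Γ) {H : ℕ → ℝ}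
    (hH : Tendsto H (hyperfilter ℕ : Filter ℕ) atTop)
    (hupp : ∃ C : ℝ, 0 < C ∧ ∀ᶠ i in (hyperfilter ℕ : Filter ℕ), A.h (P i) ≤ C * H i)
    {p : A.Pts (GK K)} (hPp : IsGerm A P p) {v : AbsoluteValue K ℝ} (hv : Pl v)

include hΓ hP hupp hPp hv in
/-- The lower bound for a function of degree `D` of the coordinates. -/
theorem Ov_gen {D : ℕ} (g : ℕ → K)
    (hg : ∀ a, A.x p a ≠ 0 → gm (fun i => g i / A.x (P i) a ^ D) ≠ 0 ∧
      IsAlgebraic (IntermediateField.adjoin (k0 K H hH) (Set.range (rt (A.x p))))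
        (gm fun i => g i / A.x (P i) a ^ D)) (δ : ℝ) (hδ : 0 < δ) :
    ∀ᶠ i in (hyperfilter ℕ : Filter ℕ),
      (⨆ a, v (A.x (P i) a)) ^ D * Real.exp (- δ * H i) ≤ v (g i) := by
  have h1 : ∀ a, A.x p a ≠ 0 → ∀ᶠ i in (hyperfilter ℕ : Filter ℕ),
      v (A.x (P i) a) ^ D * Real.exp (- δ * H i) ≤ v (g i) := by
    intro a ha
    obtain ⟨h2, h3⟩ := hg a ha
    have h4 := Ov_all A Γ hΓ P hP hH hupp hPp hv h3.inv
    filter_upwards [lower_of_inv hH h2 h4 δ hδ, (hPp.ne_iff a).1 ha] with i g1 g2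
    rw [map_div₀, map_pow, le_div_iff₀ (pow_pos (v.pos g2) D)] at g1
    linarith
  obtain ⟨a₀, ha₀⟩ : ∃ a, A.x p a ≠ 0 := by
    by_contra h
    push Not at h
    exact Z_x_ne A p (funext h)
  rcases Nat.eq_zero_or_pos D with hD | hD
  · subst hD
    filter_upwards [h1 a₀ ha₀] with i g1
    rwa [pow_zero] at g1 ⊢
  · have h2 : ∀ a, ∀ᶠ i in (hyperfilter ℕ : Filter ℕ),
        v (A.x (P i) a) ^ D * Real.exp (- δ * H i) ≤ v (g i) := by
      intro a
      by_cases ha : A.x p a = 0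
      · have h3 : ∀ᶠ i in (hyperfilter ℕ : Filter ℕ), A.x (P i) a = 0 := by
          by_contra hcon
          rw [not_eventually_iff] at hcon
          exact (hPp.ne_iff a).2 hcon ha
        filter_upwards [h3] with i hi
        rw [hi, map_zero, zero_pow hD.ne', zero_mul]
        exact v.nonneg _
      · exact h1 a ha
    filter_upwards [eventually_all.2 h2] with i hi
    obtain ⟨a, ha⟩ := exists_vm v (A.x (P i))
    have h3 : (⨆ a, v (A.x (P i) a)) = v (A.x (P i) a) := ha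
    rw [h3]
    exact hi a

omit [NumberField K] in
/-- The values of a form. -/
theorem S_form_div {D : ℕ} {f : MvPolynomial (Fin (N + 1)) K} (hf : f.IsHomogeneous D)
    {L : Type u} [Field L] [Algebra K L] (y : Fin (N + 1) → L) (a : Fin (N + 1)) (ha : y a ≠ 0) :
    aeval y f / y a ^ D = aeval (fun c => y c / y a) f := by
  rw [div_eq_iff (pow_ne_zero _ ha), mul_comm, ← Z_aeval_smul hf]
  congr 2
  funext c
  rw [mul_div_cancel₀ _ ha]

include hPp in
omit [NumberField K] in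
theorem S_gm_form {D : ℕ} {f : MvPolynomial (Fin (N + 1)) K} (hf : f.IsHomogeneous D)
    (a : Fin (N + 1)) (ha : A.x p a ≠ 0) :
    gm (fun i => aeval (A.x (P i)) f / A.x (P i) a ^ D) = aeval (fun c => A.x p c / A.x p a) f := by
  have h1 : gm (fun i => aeval (A.x (P i)) f / A.x (P i) a ^ D) =
      gm fun i => aeval (fun c => A.x (P i) c / A.x (P i) a) f := by
    rw [gm_eq_iff]
    filter_upwards [(hPp.ne_iff a).1 ha] with i hi
    exact S_form_div hf _ a hi
  rw [h1, ← Z_aeval_gm fun c i => A.x (P i) c / A.x (P i) a]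
  congr 2
  funext c
  exact (hPp.rt (c, a)).symm

theorem S_form_mem (f : MvPolynomial (Fin (N + 1)) K) (a : Fin (N + 1)) :
    aeval (fun c => A.x p c / A.x p a) f ∈
      IntermediateField.adjoin (k0 K H hH) (Set.range (rt (A.x p))) := by
  obtain ⟨E, hE⟩ : ∃ E, E = IntermediateField.adjoin (k0 K H hH) (Set.range (rt (A.x p))) :=
    ⟨_, rfl⟩
  have h1 : ∀ c, A.x p c / A.x p a ∈ E := fun c => by
    rw [hE]
    exact IntermediateField.subset_adjoin _ _ ⟨(c, a), rfl⟩
  rw [← hE]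
  induction f using MvPolynomial.induction_on with
  | C c =>
    rw [aeval_C]
    exact E.algebraMap_mem (algebraMap K (k0 K H hH) c)
  | add p q hp hq =>
    rw [map_add]
    exact add_mem hp hq
  | mul_X p k hp =>
    rw [map_mul, aeval_X]
    exact mul_mem hp (h1 k)

include hH hΓ hP hupp hPp hv in
/-- The lower bound for a form which does not vanish at the germ. -/
theorem Ov_form {D : ℕ} {f : MvPolynomial (Fin (N + 1)) K} (hf : f.IsHomogeneous D)
    (hfp : aeval (A.x p) f ≠ 0) (δ : ℝ) (hδ : 0 < δ) :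
    ∀ᶠ i in (hyperfilter ℕ : Filter ℕ),
      (⨆ a, v (A.x (P i) a)) ^ D * Real.exp (- δ * H i) ≤ v (aeval (A.x (P i)) f) := by
  refine Ov_gen A Γ hΓ P hP hH hupp hPp hv (fun i => aeval (A.x (P i)) f) (fun a ha => ?_) δ hδ
  rw [S_gm_form A P hPp hf a ha]
  refine ⟨?_, isAlgebraic_algebraMap (⟨_, S_form_mem A hH f a⟩ :
    IntermediateField.adjoin (k0 K H hH) (Set.range (rt (A.x p))))⟩
  rw [← S_form_div hf _ a ha]
  exact div_ne_zero hfp (pow_ne_zero _ ha)

include hH hΓ hP hupp hPp hv in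
/-- The lower bound for `α - β t` if `t` is algebraic over the coordinates. -/
theorem Ov_target {D : ℕ} {α β : MvPolynomial (Fin (N + 1)) K} (hα : α.IsHomogeneous D)
    (hβ : β.IsHomogeneous D) (t : ℕ → K)
    (ht : IsAlgebraic (IntermediateField.adjoin (k0 K H hH) (Set.range (rt (A.x p)))) (gm t))
    (hne : ∀ᶠ i in (hyperfilter ℕ : Filter ℕ),
      aeval (A.x (P i)) α - aeval (A.x (P i)) β * t i ≠ 0) (δ : ℝ) (hδ : 0 < δ) :
    ∀ᶠ i in (hyperfilter ℕ : Filter ℕ),
      (⨆ a, v (A.x (P i) a)) ^ D * Real.exp (- δ * H i) ≤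
        v (aeval (A.x (P i)) α - aeval (A.x (P i)) β * t i) := by
  refine Ov_gen A Γ hΓ P hP hH hupp hPp hv
    (fun i => aeval (A.x (P i)) α - aeval (A.x (P i)) β * t i) (fun a ha => ⟨?_, ?_⟩) δ hδ
  · rw [gm_ne_zero_iff]
    filter_upwards [hne, (hPp.ne_iff a).1 ha] with i h1 h2
    exact div_ne_zero h1 (pow_ne_zero _ h2)
  · have h1 : gm (fun i => (aeval (A.x (P i)) α - aeval (A.x (P i)) β * t i) /
        A.x (P i) a ^ D) = gm (fun i => aeval (A.x (P i)) α / A.x (P i) a ^ D) -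
          gm (fun i => aeval (A.x (P i)) β / A.x (P i) a ^ D) * gm t := by
      rw [← gm_mul, ← gm_sub]
      congr 1
      funext i
      ring
    rw [h1, S_gm_form A P hPp hα a ha, S_gm_form A P hPp hβ a ha]
    have h2 := fun f => isAlgebraic_algebraMap (R := IntermediateField.adjoin (k0 K H hH)
      (Set.range (rt (A.x p)))) (A := GK K) (⟨_, S_form_mem A hH f a⟩ :
        IntermediateField.adjoin (k0 K H hH) (Set.range (rt (A.x p))))
    exact (h2 α).sub ((h2 β).mul ht)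

end

end Pool.Agent.Lib.MP_17a322_nt.VP
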