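import Pool.Agent.Lib.MP_17a322_nt.VD.D11a
import Pool.Agent.Lib.MP_17a322_nt.VN.F3

/-!
Limits along the hyperfilter and sums over finitely many places.
-/

universe u

namespace Pool.Agent.Lib.MP_17a322_nt.VP

open MvPolynomial Height Filter
open Pool.Agent.Lib.MP_17a322_nt.RO
open Pool.Agent.Lib.MP_17a322_nt.VJ
open Pool.Agent.Lib.MP_17a322_nt.VN

/-- A bounded sequence has a limit. -/
theorem S_lim (a : ℕ → ℝ) {A B : ℝ}
    (h : ∀ᶠ i in (hyperfilter ℕ : Filter ℕ), A ≤ a i ∧ a i ≤ B) :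
    ∃ l : ℝ, A ≤ l ∧ l ≤ B ∧ ∀ κ : ℝ, 0 < κ →
      ∀ᶠ i in (hyperfilter ℕ : Filter ℕ), |a i - l| ≤ κ := by
  obtain ⟨l, hl, h1⟩ := (isCompact_Icc (a := A) (b := B)).ultrafilter_le_nhds
    (Ultrafilter.map a (hyperfilter ℕ)) (le_principal_iff.2 h)
  refine ⟨l, hl.1, hl.2, fun κ hκ => ?_⟩
  have h2 : Metric.closedBall l κ ∈ nhds l := Metric.closedBall_mem_nhds l hκ
  have h3 : ∀ᶠ x in (Ultrafilter.map a (hyperfilter ℕ) : Filter ℝ), x ∈ Metric.closedBall l κ :=
    h1 h2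
  rw [Ultrafilter.coe_map, eventually_map] at h3
  filter_upwards [h3] with i hi
  rwa [Metric.mem_closedBall, Real.dist_eq] at hi

section

variable {K : Type*} [Field K] [AdmissibleAbsValues K]

open Classical in
theorem S_FS_ite (Sg : Finset (AbsoluteValue K ℝ)) (f : AbsoluteValue K ℝ → ℝ) :
    FS fun v => if v ∈ Sg then f v else 0 := by
  have h1 : ((fun v : AdmissibleAbsValues.nonarchAbsVal (K := K) => (v.val : AbsoluteValue K ℝ)) ⁻¹'
      (Sg : Set (AbsoluteValue K ℝ))).Finite :=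
    Sg.finite_toSet.preimage (Subtype.val_injective.injOn)
  refine h1.subset fun v hv => ?_
  by_contra h2
  exact hv (if_neg h2)

open Classical in
/-- The limits of the heights and of the local terms. -/
theorem S_gain (Sg : Finset (AbsoluteValue K ℝ)) (hS : ∀ v ∈ Sg, Pl v)
    (lam : AbsoluteValue K ℝ → ℕ → ℝ) (hlam : ∀ v i, 0 ≤ lam v i) (hq tt : ℕ → ℝ)
    (hpos : ∀ᶠ i in (hyperfilter ℕ : Filter ℕ), 0 < hq i) (htt : ∀ i, 0 ≤ tt i) (C : ℝ)
    (hC : ∀ᶠ i in (hyperfilter ℕ : Filter ℕ), tt i ≤ C * hq i) (ε : ℝ) (hε : 0 < ε)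
    (hg : ∀ᶠ i in (hyperfilter ℕ : Filter ℕ),
      2 * tt i + ε * hq i ≤ gs fun v => if v ∈ Sg then lam v i else 0) :
    ∃ (τ : ℝ) (c : AbsoluteValue K ℝ → ℝ), 0 ≤ τ ∧ (∀ v, 0 ≤ c v) ∧
      (∀ κ : ℝ, 0 < κ → ∀ᶠ i in (hyperfilter ℕ : Filter ℕ), tt i ≤ (τ + κ) * hq i ∧
        ∀ v ∈ Sg, (c v - κ) * hq i ≤ lam v i) ∧
      2 * τ + ε ≤ gs fun v => if v ∈ Sg then c v else 0 := by
  obtain ⟨τ, hτ0, -, hτ⟩ := S_lim (fun i => tt i / hq i) (A := 0) (B := C) (by
    filter_upwards [hpos, hC] with i h1 h2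
    refine ⟨div_nonneg (htt i) h1.le, ?_⟩
    rw [div_le_iff₀ h1]
    exact h2)
  obtain ⟨Cm, hCm⟩ : ∃ Cm : ℝ, Cm = 2 * τ + ε + 1 := ⟨_, rfl⟩
  have hCm0 : 0 ≤ Cm := by
    rw [hCm]
    linarith
  have hlimv : ∀ v, ∃ l : ℝ, 0 ≤ l ∧ l ≤ Cm ∧ ∀ κ : ℝ, 0 < κ →
      ∀ᶠ i in (hyperfilter ℕ : Filter ℕ), |min (lam v i / hq i) Cm - l| ≤ κ := by
    intro v
    refine S_lim (fun i => min (lam v i / hq i) Cm) (A := 0) (B := Cm) ?_
    filter_upwards [hpos] with i h1
    exact ⟨le_min (div_nonneg (hlam v i) h1.le) hCm0, min_le_right _ _⟩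
  choose c hc0 hcC hc using hlimv
  have hcS : ∀ κ : ℝ, 0 < κ → ∀ᶠ i in (hyperfilter ℕ : Filter ℕ),
      ∀ v ∈ Sg, |min (lam v i / hq i) Cm - c v| ≤ κ := by
    intro κ hκ
    exact (eventually_all_finset Sg).2 fun v _ => hc v κ hκ
  refine ⟨τ, c, hτ0, hc0, fun κ hκ => ?_, ?_⟩
  · filter_upwards [hpos, hτ κ hκ, hcS κ hκ] with i h1 h2 h3
    constructor
    · have h4 := (abs_le.1 h2).2
      rw [sub_le_iff_le_add, div_le_iff₀ h1] at h4
      linarith
    · intro v hv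
      have h4 := (abs_le.1 (h3 v hv)).1
      have h5 : c v - κ ≤ lam v i / hq i := by
        have := min_le_left (lam v i / hq i) Cm
        linarith
      rwa [le_div_iff₀ h1] at h5
  · obtain ⟨M, hM⟩ : ∃ M : ℝ, M = gs fun v : AbsoluteValue K ℝ => if v ∈ Sg then (1 : ℝ) else 0 :=
      ⟨_, rfl⟩
    have hM0 : 0 ≤ M := by
      rw [hM]
      refine gs_nonneg fun v _ => ?_
      split_ifs
      · exact zero_le_one
      · exact le_rfl
    obtain ⟨L, hL⟩ : ∃ L : ℝ, L = gs fun v : AbsoluteValue K ℝ => if v ∈ Sg then c v else 0 :=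
      ⟨_, rfl⟩
    rw [← hL]
    refine le_of_forall_pos_le_add fun e he => ?_
    obtain ⟨κ, hκd⟩ : ∃ κ : ℝ, κ = e / (M + 2) := ⟨_, rfl⟩
    have hM2 : 0 < M + 2 := by linarith
    have hκ : 0 < κ := by
      rw [hκd]
      positivity
    have hκe : κ * (M + 2) = e := by
      rw [hκd]
      field_simp
    obtain ⟨i, h1, h2, h3, h4⟩ := (hpos.and ((hτ κ hκ).and ((hcS κ hκ).and hg))).exists
    have h5 : τ - κ ≤ tt i / hq i := by
      have := (abs_le.1 h2).1
      linarith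
    rw [le_div_iff₀ h1] at h5
    by_cases hcase : ∀ v ∈ Sg, lam v i / hq i ≤ Cm
    · have h6 : (gs fun v => if v ∈ Sg then lam v i else 0) ≤
          gs fun v => hq i * ((if v ∈ Sg then c v else 0) + κ * if v ∈ Sg then (1 : ℝ) else 0) := by
        refine gs_le (S_FS_ite Sg _) (FS_const_mul _ (FS_add (S_FS_ite Sg c)
          (FS_const_mul κ (S_FS_ite Sg fun _ => (1 : ℝ))))) fun v _ => ?_
        by_cases hv : v ∈ Sg
        · rw [if_pos hv, if_pos hv, if_pos hv, mul_one]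
          have h7 := (abs_le.1 (h3 v hv)).2
          rw [min_eq_left (hcase v hv), sub_le_iff_le_add, div_le_iff₀ h1] at h7
          linarith
        · rw [if_neg hv, if_neg hv, if_neg hv, mul_zero, add_zero, mul_zero]
      have h7 : gs (fun v : AbsoluteValue K ℝ => hq i * ((if v ∈ Sg then c v else 0) +
          κ * if v ∈ Sg then (1 : ℝ) else 0)) = hq i * (L + κ * M) := by
        rw [gs_const_mul, gs_add (S_FS_ite Sg c) (FS_const_mul κ (S_FS_ite Sg fun _ => (1 : ℝ))),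
          gs_const_mul, ← hL, ← hM]
      rw [h7] at h6
      have h8 : hq i * (2 * τ + ε) ≤ hq i * (L + κ * M + 2 * κ) := by
        have h9 := h4.trans h6
        nlinarith
      have h9 := le_of_mul_le_mul_left h8 h1
      have h10 : κ * M + 2 * κ = e := by
        rw [← hκe]
        ring
      linarith
    · push Not at hcase
      obtain ⟨v, hv, h6⟩ := hcase
      have h7 := (abs_le.1 (h3 v hv)).2
      rw [min_eq_right h6.le] at h7
      have h8 := VD.gs_single (f := fun v : AbsoluteValue K ℝ => if v ∈ Sg then c v else 0)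
        (S_FS_ite Sg c) (fun v _ => by
          split_ifs
          · exact hc0 v
          · exact le_rfl) (hS v hv)
      beta_reduce at h8
      rw [if_pos hv, ← hL] at h8
      have h9 : κ * 1 ≤ κ * (M + 2) := mul_le_mul_of_nonneg_left (by linarith) hκ.le
      rw [hκe, mul_one] at h9
      linarith

end

end Pool.Agent.Lib.MP_17a322_nt.VP
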