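import Pool.Agent.Lib.MP_17a322_nt.VP.E01
import Pool.Agent.Lib.MP_17a322_nt.VP.EN3
import Pool.Agent.Lib.MP_17a322_nt.VA.E21

/-!
A nonzero polynomial of small degree in the `th i` does not vanish at a generic point.
-/

universe u

namespace Pool.Agent.Lib.MP_17a322_nt.VP

open MvPolynomial
open Pool.Agent.Lib.MP_17a322_nt.VJ
open Pool.Agent.Lib.MP_17a322_nt.VN
open Pool.Agent.Lib.MP_17a322_nt.VA

theorem E_ne {K : Type u} [Field K] {N : ℕ} {A : AV K N} {n e m : ℕ} (nd : Noe A n e)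
    {Ω : Type u} [Field Ω] [IsAlgClosed Ω] [Algebra K Ω] (x : Fin n → Ω) (th : Fin m → Ω)
    (z : Fin m × Fin n → Ω) (u : Fin m → Ω)
    (hind : AlgebraicIndependent K (Sum.elim x (Sum.elim z u)))
    (hth : ∀ i, aeval (fun o : Option (Fin n) => o.elim (th i) fun t => z (i, t)) nd.ed.f = 0)
    (F : MvPolynomial (VF m n) K) (hF : F ≠ 0)
    (hd : ∀ i, F.degreeOf (VF.th i) < nd.Φ.natDegree) :
    aeval (vf x th z u) F ≠ 0 := by
  intro h
  refine hF (EN_zero nd hind (fun i => ?_) hd h)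
  exact (aeval_unp nd.Φ fun o : Option (Fin n) => o.elim (th i) fun t => z (i, t)).symm.trans
    (hth i)

end Pool.Agent.Lib.MP_17a322_nt.VP
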