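import Pool.Agent.Lib.MP_17a322_nt.VP.E04d
import Pool.Agent.Lib.MP_17a322_nt.VP.E03

/-!
VP, part E: the norm over the primitive elements is not zero.
-/

universe u

namespace Pool.Agent.Lib.MP_17a322_nt.VP

open MvPolynomial
open Pool.Agent.Lib.MP_17a322_nt.VJ
open Pool.Agent.Lib.MP_17a322_nt.VN
open Pool.Agent.Lib.MP_17a322_nt.VA

private theorem E04a_rename {R σ τ : Type*} [CommRing R] (f : σ → τ) (F : MvPolynomial σ R)
    (y : τ) (hy : ∀ t, y ≠ f t) : (rename f F).degreeOf y = 0 := by
  classical
  by_contra h0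
  rw [degreeOf_def] at h0
  have h1 : y ∈ (rename f F).vars := by
    rw [vars_def, Multiset.mem_toFinset]
    exact Multiset.count_pos.1 (Nat.pos_of_ne_zero h0)
  obtain ⟨t, _, ht⟩ := Finset.mem_image.1 (vars_rename f F h1)
  exact hy t ht.symm

private theorem E04a_w {m n : ℕ} {i i' : Fin m} (h : i' ≠ i) (o : Option (Fin n)) :
    (VE.w i' : VE m (n + 1)) ≠ E_z i o := by
  cases o with
  | none =>
    intro h1
    injection h1 with h1
    exact h h1
  | some t =>
    intro h1
    cases h1

private theorem E04a_deg {K : Type u} [Field K] {N : ℕ} {A : AV K N} {n e m : ℕ} (nd : Noe A n e)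
    {i i' : Fin m} (h : i' ≠ i) : (E_al nd m (VE.w i)).degreeOf (VE.w i') = 0 :=
  E04a_rename _ _ _ (E04a_w h)

/-- The independent coordinates. -/
private def E04a_f {m n : ℕ} : Fin n ⊕ (Fin m × Fin n ⊕ Fin m) → VE m (n + 1)
  | Sum.inl a => VE.x a.castSucc
  | Sum.inr (Sum.inl p) => VE.z (p.1, p.2.castSucc)
  | Sum.inr (Sum.inr i) => VE.z (i, Fin.last n)

private theorem E04a_f_inj {m n : ℕ} : Function.Injective (E04a_f (m := m) (n := n)) := by
  intro a b h
  rcases a with a | a | a <;> rcases b with b | b | b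
  · injection h with h
    rw [Fin.castSucc_injective _ h]
  · cases h
  · cases h
  · cases h
  · injection h with h
    obtain ⟨h1, h2⟩ := Prod.mk.inj h
    have h3 : a = b := Prod.ext h1 (Fin.castSucc_injective _ h2)
    rw [h3]
  · injection h with h
    exact absurd (Prod.mk.inj h).2 (Fin.castSucc_lt_last _).ne
  · cases h
  · injection h with h
    exact absurd (Prod.mk.inj h).2.symm (Fin.castSucc_lt_last _).ne
  · injection h with h
    rw [(Prod.mk.inj h).1]

theorem E_N_ne {K : Type u} [Field K] {N : ℕ} {A : AV K N} {n e m : ℕ} (nd : Noe A n e)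
    (F : MvPolynomial (VF m n) K) (hF : F ≠ 0)
    (hd : ∀ i, F.degreeOf (VF.th i) < nd.Φ.natDegree) : E_N nd F ≠ 0 := by
  let M := MvPolynomial (VE m (n + 1)) K
  let Ω := AlgebraicClosure (FractionRing M)
  let _ : Algebra K Ω := ((algebraMap (FractionRing M) Ω).comp
    ((algebraMap M (FractionRing M)).comp (algebraMap K M))).toAlgebra
  let φ : M →ₐ[K] Ω := { (algebraMap (FractionRing M) Ω).comp (algebraMap M (FractionRing M)) with
    commutes' := fun _ => rfl }
  have hφ : Function.Injective φ := by
    intro a b h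
    exact IsFractionRing.injective M (FractionRing M) ((algebraMap (FractionRing M) Ω).injective h)
  obtain ⟨s, hs⟩ : ∃ s : VE m (n + 1) → Ω, s = fun x => φ (X x) := ⟨_, rfl⟩
  have hsv : ∀ F : M, aeval s F = φ F := by
    intro F
    rw [hs]
    have h1 : aeval (fun x => φ (X x)) = φ := by
      refine MvPolynomial.algHom_ext fun x => ?_
      rw [aeval_X]
    rw [h1]
  have hind : AlgebraicIndependent K s := by
    intro a b h
    rw [hsv, hsv] at h
    exact hφ h
  have hne : ∀ F : M, F ≠ 0 → aeval s F ≠ 0 := by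
    intro F hF h
    exact hF (hind (by rw [h, map_zero]))
  have hf0 : nd.ed.f ≠ 0 := by
    intro h
    have h2 : nd.Φ = 0 := (optionEquivLeft K (Fin n)).symm.injective (by
      rw [map_zero]
      exact h)
    exact nd.Φ_monic.ne_zero h2
  have hal0 : ∀ i : Fin m, E_al nd m (VE.w i) ≠ 0 := by
    intro i h
    exact hf0 (rename_injective _ (E_z_injective i) (by rw [map_zero]; exact h))
  have hnd : ((List.finRange m).map (VE.w : Fin m → VE m (n + 1))).Nodup :=
    (List.nodup_finRange m).map fun a b h => by injection h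
  have hmem : ∀ y ∈ (List.finRange m).map (VE.w : Fin m → VE m (n + 1)), ∃ i, y = VE.w i := by
    intro y hy
    obtain ⟨i, _, hi⟩ := List.mem_map.1 hy
    exact ⟨i, hi.symm⟩
  intro h0
  refine ELL_ne_zero_at (E_al nd m) ((List.finRange m).map VE.w) (rename E_v F) s
    (fun l s' => (∀ y, (∀ i, y ≠ VE.w i) → s' y = s y) ∧ ∀ y ∈ l, aeval s' (E_al nd m y) = 0)
    ⟨fun _ _ => rfl, fun y hy => absurd hy List.not_mem_nil⟩ ?_ ?_
    (by
      have h1 : ELL (E_al nd m) ((List.finRange m).map VE.w) (rename E_v F) = 0 := h0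
      rw [h1, map_zero])
  · intro y l' s' hsuf hQ
    obtain ⟨hQ1, hQ2⟩ := hQ
    obtain ⟨i, rfl⟩ := hmem y (hsuf.subset List.mem_cons_self)
    have hnd' : (VE.w i :: l').Nodup := hnd.sublist hsuf.sublist
    have hnot : (VE.w i : VE m (n + 1)) ∉ l' := (List.nodup_cons.1 hnd').1
    refine ⟨?_, fun r hr => ⟨fun y' hy' => ?_, fun y' hy' => ?_⟩⟩
    · have h1 : aeval s' (lcv (VE.w i) (E_al nd m (VE.w i))) =
          aeval s (lcv (VE.w i) (E_al nd m (VE.w i))) := by
        refine aeval_congr_of_degreeOf _ _ _ fun t ht => hQ1 t fun i' hi' => ht ?_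
        rw [hi']
        unfold lcv
        by_cases h2 : i' = i
        · rw [h2]
          exact degreeOf_coeff_vw_self _ _ _
        · have h3 := degreeOf_coeff_vw (VE.w i) (E_al nd m (VE.w i))
            ((E_al nd m (VE.w i)).degreeOf (VE.w i)) (VE.w i')
          rw [E04a_deg nd h2] at h3
          exact Nat.le_zero.1 h3
      rw [h1]
      refine hne _ ?_
      unfold lcv
      rw [← natDegree_vw]
      exact Polynomial.leadingCoeff_ne_zero.2 (vw_ne_zero _ (hal0 i))
    · rw [Function.update_of_ne (hy' i)]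
      exact hQ1 y' hy'
    · rcases List.mem_cons.1 hy' with h1 | h1
      · rw [h1]
        exact hr
      · obtain ⟨i', rfl⟩ := hmem y' (hsuf.subset (List.mem_cons_of_mem _ h1))
        have h2 : i ≠ i' := by
          rintro rfl
          exact hnot h1
        rw [aeval_update_of_degreeOf_eq_zero (VE.w i) s' r (E04a_deg nd h2)]
        exact hQ2 _ h1
  · intro s' hQ
    obtain ⟨hQ1, hQ2⟩ := hQ
    have hx : ∀ a, s' (VE.x a) = s (VE.x a) := fun a => hQ1 _ fun i h => by cases h
    have hz : ∀ p, s' (VE.z p) = s (VE.z p) := fun p => hQ1 _ fun i h => by cases h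
    rw [aeval_rename]
    have h1 : s' ∘ E_v = vf (fun a => s (VE.x a.castSucc)) (fun i => s' (VE.w i))
        (fun p => s (VE.z (p.1, p.2.castSucc))) (fun i => s (VE.z (i, Fin.last n))) := by
      funext y
      cases y with
      | x a => exact hx _
      | th i => rfl
      | z p => exact hz _
      | u i => exact hz _
    rw [h1]
    refine E_ne nd _ _ _ _ ?_ ?_ F hF hd
    · have h2 : (Sum.elim (fun a : Fin n => s (VE.x a.castSucc))
          (Sum.elim (fun p : Fin m × Fin n => s (VE.z (p.1, p.2.castSucc)))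
            fun i : Fin m => s (VE.z (i, Fin.last n)))) = s ∘ E04a_f := by
        funext y
        rcases y with a | a | a <;> rfl
      rw [h2]
      exact hind.comp _ E04a_f_inj
    · intro i
      have h2 := hQ2 (VE.w i) (List.mem_map.2 ⟨i, List.mem_finRange i, rfl⟩)
      have h3 : aeval s' (rename (E_z i) nd.ed.f) = 0 := h2
      rw [aeval_rename] at h3
      have h4 : (fun o : Option (Fin n) => o.elim (s' (VE.w i)) fun t =>
          (fun p : Fin m × Fin n => s (VE.z (p.1, p.2.castSucc))) (i, t)) = s' ∘ E_z i := by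
        funext o
        cases o with
        | none => rfl
        | some t => exact (hz _).symm
      rw [h4]
      exact h3

end Pool.Agent.Lib.MP_17a322_nt.VP
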