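import Pool.Agent.Lib.MP_17a322_nt.VP.E04d

/-!
Roth's theorem with moving targets over abelian varieties, part E: variables, divisibility and size of
the norm over the primitive elements.
-/

universe u

namespace Pool.Agent.Lib.MP_17a322_nt.VP

open MvPolynomial Height
open Pool.Agent.Lib.MP_17a322_nt.VJ
open Pool.Agent.Lib.MP_17a322_nt.VN
open Pool.Agent.Lib.MP_17a322_nt.VA

private theorem E04b_rename {σ τ R : Type*} [CommRing R] (f : σ → τ) (F : MvPolynomial σ R) (y : τ)
    (hy : ∀ t, y ≠ f t) : (rename f F).degreeOf y = 0 := by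
  classical
  by_contra h0
  rw [degreeOf_def] at h0
  have h1 : y ∈ (rename f F).vars := by
    rw [vars_def, Multiset.mem_toFinset]
    exact Multiset.count_pos.1 (Nat.pos_of_ne_zero h0)
  obtain ⟨t, _, ht⟩ := Finset.mem_image.1 (vars_rename f F h1)
  exact hy t ht.symm

private theorem E04b_nh_rename {K : Type*} [Field K] [NumberField K] {σ τ : Type*}
    (F : MvPolynomial σ K) (f : σ → τ) (hf : Function.Injective f) : nh (rename f F) = nh F := by
  unfold nh
  congr 1
  funext v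
  rw [NV_rename v F f hf]

private theorem E04b_al {K : Type u} [Field K] {N : ℕ} {A : AV K N} {n e : ℕ} (nd : Noe A n e)
    (m : ℕ) (i : Fin m) : E_al nd m (VE.w i) = rename (E_z i) nd.ed.f := rfl

private theorem E04b_mem {m n : ℕ} {y : VE m n}
    (hy : y ∈ ((List.finRange m).map VE.w : List (VE m n))) : ∃ i, y = VE.w i := by
  obtain ⟨i, _, h⟩ := List.mem_map.1 hy
  exact ⟨i, h.symm⟩

private theorem E04b_pairwise {K : Type u} [Field K] {N : ℕ} {A : AV K N} {n e : ℕ}
    (nd : Noe A n e) (m : ℕ) : ((List.finRange m).map VE.w : List (VE m (n + 1))).Pairwise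
      fun y y' => (E_al nd m y').degreeOf y = 0 := by
  rw [List.pairwise_map]
  refine List.Pairwise.imp ?_ (List.nodup_finRange m)
  intro i i' hii
  rw [E04b_al]
  refine E04b_rename _ _ _ fun o h => ?_
  cases o with
  | none =>
    injection h with h
    exact hii h
  | some t => cases h

private theorem E04b_ne {K : Type u} [Field K] {N : ℕ} {A : AV K N} {n e : ℕ}
    (nd : Noe A n e) (m : ℕ) (i : Fin m) : (E_al nd m (VE.w i)).degreeOf (VE.w i) ≠ 0 := by
  have h : (rename (E_z i) nd.ed.f : MvPolynomial (VE m (n + 1)) K).degreeOf (E_z i none) =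
      nd.ed.f.degreeOf none := degreeOf_rename_of_injective (E_z_injective i) none
  have h1 : (E_al nd m (VE.w i)).degreeOf (VE.w i) = nd.ed.f.degreeOf none := h
  rw [h1]
  exact nd.ed_f0

private theorem E04b_GR {K : Type u} [Field K] [NumberField K] {N : ℕ} {A : AV K N} {n e : ℕ}
    (nd : Noe A n e) {C : ℝ} (hE : nd.ed.Ok C) {m : ℕ} (j : Fin m → ℕ) (i : Fin m) :
    GRE j C (VE.w i) (E_al nd m (VE.w i)) := by
  have hC : 0 ≤ C := zero_le_one.trans hE.one_le
  have hd : ∀ o, (rename (E_z i) nd.ed.f : MvPolynomial (VE m (n + 1)) K).degreeOf (E_z i o) =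
      nd.ed.f.degreeOf o := fun o => degreeOf_rename_of_injective (E_z_injective i) o
  rw [E04b_al]
  refine ⟨?_, fun t => ?_, ?_⟩
  · have h := hd none
    change ((rename (E_z i) nd.ed.f : MvPolynomial (VE m (n + 1)) K).degreeOf (E_z i none) : ℝ) ≤ C
    rw [h]
    exact hE.fd none
  · change wt j t * ((rename (E_z i) nd.ed.f : MvPolynomial (VE m (n + 1)) K).degreeOf t : ℝ) ≤
      C * 4 ^ j i
    by_cases ht : ∃ o, t = E_z i o
    · obtain ⟨o, rfl⟩ := ht
      rw [hd o]
      have hw : wt j (E_z i o : VE m (n + 1)) = 4 ^ j i := by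
        rcases o with _ | t
        · rfl
        · rfl
      rw [hw, mul_comm]
      exact mul_le_mul_of_nonneg_right (hE.fd o) (by positivity)
    · rw [E04b_rename _ _ _ fun o ho => ht ⟨o, ho⟩, Nat.cast_zero, mul_zero]
      exact mul_nonneg hC (by positivity)
  · change nh (rename (E_z i) nd.ed.f : MvPolynomial (VE m (n + 1)) K) ≤ C * 4 ^ j i
    rw [E04b_nh_rename _ _ (E_z_injective i)]
    exact hE.fh.trans (le_mul_of_one_le_right hC (one_le_pow₀ (by norm_num)))

theorem E_N_Oc {K : Type u} [Field K] {N : ℕ} {A : AV K N} {n e m : ℕ} (nd : Noe A n e)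
    (F : MvPolynomial (VF m n) K) (y : VE m (n + 1)) (hy : ¬ Oc Finset.univ 0 y) :
    (E_N nd F).degreeOf y = 0 := by
  unfold E_N
  refine ELL_degreeOf_eq_zero _ _ (E04b_pairwise nd m) _ y ?_
  have hr : (∀ a, y ≠ E_v a) → (∀ i o, y ≠ E_z i o) → (rename E_v F).degreeOf y = 0 ∧
      ∀ y' ∈ ((List.finRange m).map VE.w : List (VE m (n + 1))), (E_al nd m y').degreeOf y = 0 := by
    intro h1 h2
    refine ⟨E04b_rename _ _ _ h1, fun y' hy' => ?_⟩
    obtain ⟨i, rfl⟩ := E04b_mem hy'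
    rw [E04b_al]
    exact E04b_rename _ _ _ (h2 i)
  cases y with
  | x t => exact absurd trivial hy
  | q =>
    refine Or.inr (hr (fun a => ?_) fun i o => ?_)
    · cases a <;> intro h <;> cases h
    · cases o <;> intro h <;> cases h
  | S p =>
    refine Or.inr (hr (fun a => ?_) fun i o => ?_)
    · cases a <;> intro h <;> cases h
    · cases o <;> intro h <;> cases h
  | w i => exact Or.inl (List.mem_map.2 ⟨i, List.mem_finRange i, rfl⟩)
  | z p => exact absurd (Nat.zero_le _) hy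
  | v p =>
    refine Or.inr (hr (fun a => ?_) fun i o => ?_)
    · cases a <;> intro h <;> cases h
    · cases o <;> intro h <;> cases h

theorem E_N_dvd {K : Type u} [Field K] {N : ℕ} {A : AV K N} {n e m : ℕ} (nd : Noe A n e)
    (F : MvPolynomial (VF m n) K) {R : Type*} [CommRing R] [Algebra K R]
    (s : VE m (n + 1) → R) (hs : ∀ i, aeval (fun o => s (E_z i o)) nd.ed.f = 0) :
    aeval (fun y => s (E_v y)) F ∣ aeval s (E_N nd F) := by
  have h := aeval_dvd_ELL (E_al nd m) ((List.finRange m).map VE.w) (rename E_v F)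
    (fun y hy => by
      obtain ⟨i, rfl⟩ := E04b_mem hy
      exact E04b_ne nd m i) s
    (fun y hy => by
      obtain ⟨i, rfl⟩ := E04b_mem hy
      rw [E04b_al, aeval_rename]
      exact hs i)
  rw [aeval_rename] at h
  exact h

theorem E_N_QE {K : Type u} [Field K] [NumberField K] {N : ℕ} {A : AV K N} {n e : ℕ}
    (nd : Noe A n e) (m : ℕ) :
    ∃ C : ℝ, 1 ≤ C ∧ ∀ (j : Fin m → ℕ) (b H : ℝ) (F : MvPolynomial (VF m n) K), 0 ≤ b →
      F ≠ 0 → E_N nd F ≠ 0 → (∀ i, F.degreeOf (VF.th i) < nd.Φ.natDegree) →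
      (∀ a, (F.degreeOf (VF.x a) : ℝ) ≤ b) →
      (∀ p, (4 : ℝ) ^ j p.1 * F.degreeOf (VF.z p) ≤ b) →
      (∀ i, (4 : ℝ) ^ j i * F.degreeOf (VF.u i) ≤ b) → (∀ i, (4 : ℝ) ^ j i ≤ b) → nh F ≤ H →
      QE j (C * b) (C * (H + b)) (E_N nd F) := by
  obtain ⟨C₀, hC₀⟩ := nd.ed_ok
  have hC1 := hC₀.one_le
  have h3 : 1 ≤ 3 * C₀ := by linarith
  have hd0 : (0 : ℝ) ≤ (nd.Φ.natDegree : ℝ) := Nat.cast_nonneg _
  have hp3 : 1 ≤ (3 * C₀) ^ m := one_le_pow₀ h3
  have hp2 : (2 * C₀) ^ m ≤ (3 * C₀) ^ m := pow_le_pow_left₀ (by linarith) (by linarith) m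
  refine ⟨(3 * C₀) ^ m * (nd.Φ.natDegree + 1), by nlinarith, ?_⟩
  intro j b H F hb hF hE hth hx hz hu hj hH
  have hH0 : 0 ≤ H := (nh_nonneg hF).trans hH
  have hinj : Function.Injective (E_v : VF m n → VE m (n + 1)) := E_v_injective
  have hdeg : ∀ a, (rename E_v F : MvPolynomial (VE m (n + 1)) K).degreeOf (E_v a) =
      F.degreeOf a := fun a => degreeOf_rename_of_injective hinj a
  have hbb : b ≤ (nd.Φ.natDegree + 1) * b := by nlinarith
  have hbb0 : 0 ≤ ((nd.Φ.natDegree : ℝ) + 1) * b := by nlinarith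
  have hQ : QE j ((nd.Φ.natDegree + 1) * b) H (rename E_v F : MvPolynomial (VE m (n + 1)) K) := by
    refine ⟨fun y => ?_, ?_⟩
    · by_cases hy : ∃ a, y = E_v a
      · obtain ⟨a, rfl⟩ := hy
        rw [hdeg a]
        cases a with
        | x a =>
          change 1 * (F.degreeOf (VF.x a) : ℝ) ≤ _
          rw [one_mul]
          exact (hx a).trans hbb
        | th i =>
          change (4 : ℝ) ^ j i * (F.degreeOf (VF.th i) : ℝ) ≤ _
          have h1 : (F.degreeOf (VF.th i) : ℝ) ≤ nd.Φ.natDegree := by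
            exact_mod_cast (hth i).le
          have h2 : (4 : ℝ) ^ j i * (F.degreeOf (VF.th i) : ℝ) ≤ b * nd.Φ.natDegree :=
            mul_le_mul (hj i) h1 (Nat.cast_nonneg _) hb
          nlinarith
        | z p =>
          change (4 : ℝ) ^ j p.1 * (F.degreeOf (VF.z p) : ℝ) ≤ _
          exact (hz p).trans hbb
        | u i =>
          change (4 : ℝ) ^ j i * (F.degreeOf (VF.u i) : ℝ) ≤ _
          exact (hu i).trans hbb
      · rw [E04b_rename _ _ _ fun a ha => hy ⟨a, ha⟩, Nat.cast_zero, mul_zero]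
        exact hbb0
    · rw [E04b_nh_rename _ _ hinj]
      exact hH
  have hQ2 := QE_ELL j C₀ hC1 (E_al nd m) ((List.finRange m).map VE.w)
    (fun y hy => by
      obtain ⟨i, rfl⟩ := E04b_mem hy
      exact E04b_GR nd hC₀ j i)
    (fun y hy => by
      obtain ⟨i, rfl⟩ := E04b_mem hy
      exact E04b_ne nd m i) _ H hH0 _ hQ hE
  rw [List.length_map, List.length_finRange] at hQ2
  refine QE_mono ?_ ?_ hQ2
  · calc (2 * C₀) ^ m * ((nd.Φ.natDegree + 1) * b) ≤ (3 * C₀) ^ m * ((nd.Φ.natDegree + 1) * b) :=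
        mul_le_mul_of_nonneg_right hp2 hbb0
      _ = (3 * C₀) ^ m * (nd.Φ.natDegree + 1) * b := by ring
  · calc (3 * C₀) ^ m * (H + (nd.Φ.natDegree + 1) * b) ≤
        (3 * C₀) ^ m * ((nd.Φ.natDegree + 1) * (H + b)) :=
          mul_le_mul_of_nonneg_left (by nlinarith) (by linarith)
      _ = (3 * C₀) ^ m * (nd.Φ.natDegree + 1) * (H + b) := by ring

end Pool.Agent.Lib.MP_17a322_nt.VP
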