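import Pool.Agent.Lib.MP_17a322_nt.VP.Defs

/-!
Roth's theorem with moving targets over abelian varieties: the paths (definitions of part E and L).
-/

universe u

namespace Pool.Agent.Lib.MP_17a322_nt.VP

open MvPolynomial Height
open Pool.Agent.Lib.MP_17a322_nt.RO
open Pool.Agent.Lib.MP_17a322_nt.VJ
open Pool.Agent.Lib.MP_17a322_nt.VN
open Pool.Agent.Lib.MP_17a322_nt.VA

/-- The path through a point and its difference with `2 ^ j Q`. -/
structure BlkP {K : Type u} [Field K] {N : ℕ} {A : AV K N} {n e : ℕ} (nd : Noe A n e)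
    {L : Type u} [Field L] [Algebra K L] (P : A.Pts K) (w : ℕ) (ζ : Fin n → L)
    (M : Fin (N + 1) → L) (y η : Fin (N + 1) → PowerSeries L) : Prop where
  isPt : A.IsPt y
  lf0 : lf (nd.l 0) y = 1
  const : ∀ b, PowerSeries.constantCoeff (y b) = algebraMap K L (nd.y P b)
  lfs : ∀ k : Fin n, lf (nd.l k.succ) y = PowerSeries.C (algebraMap K L (nd.s P k)) +
    PowerSeries.C (ζ k) * PowerSeries.X ^ w
  eta_isPt : A.IsPt η
  eta_lf0 : lf (nd.l 0) η = 1
  col : ∀ a b, A.col a y (fun i => PowerSeries.C (M i)) b =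
    η b * lf (nd.l 0) (A.col a y fun i => PowerSeries.C (M i))
  col_ne : ∃ a, PowerSeries.constantCoeff (lf (nd.l 0) (A.col a y fun i => PowerSeries.C (M i))) ≠ 0

/-- The value of the auxiliary polynomial on the paths. -/
noncomputable def vl {K : Type u} [Field K] {N : ℕ} {A : AV K N} {n e : ℕ} (nd : Noe A n e)
    {L : Type u} [Field L] [Algebra K L] {m : ℕ} (j : Fin m → ℕ) (t : Fin m → K)
    (Y : Fin (N + 1) → L) (ζ : Fin m × Option (Fin n) → L)
    (η : Fin m → Fin (N + 1) → PowerSeries L) (F : MvPolynomial (VF m n) K) : PowerSeries L :=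
  aeval (vN nd (fun a => PowerSeries.C (Y a)) η fun i =>
    PowerSeries.C (algebraMap K L (t i)) + PowerSeries.C (ζ (i, none)) * PowerSeries.X ^ 4 ^ j i) F

end Pool.Agent.Lib.MP_17a322_nt.VP
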