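import Pool.Agent.Lib.MP_17a322_nt.VP.E05b
import Pool.Agent.Lib.MP_17a322_nt.VP.DefsB

/-!
VP, part E: the relations on the paths.
-/

universe u

namespace Pool.Agent.Lib.MP_17a322_nt.VP

open MvPolynomial Height
open Pool.Agent.Lib.MP_17a322_nt.RO
open Pool.Agent.Lib.MP_17a322_nt.VJ
open Pool.Agent.Lib.MP_17a322_nt.VN
open Pool.Agent.Lib.MP_17a322_nt.VA

/-- The values of the variables: `x` coordinates of `Q`, `q` primitive element, `y`, `η` affine coordinates of
`P i`, `P i - 2 ^ j i Q`, `u` coordinates of the line, `w` values of the variables `w`. -/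
noncomputable def E_val {K : Type u} [Field K] {N : ℕ} {A : AV K N} {n e m : ℕ} (nd : Noe A n e)
    {R : Type u} [CommRing R] [Algebra K R] (c : R) (Y : Fin (N + 1) → R)
    (y η : Fin m → Fin (N + 1) → R) (u w : Fin m → R) : VE m (n + 1) → R
  | VE.x t => Fin.lastCases (motive := fun _ => R) c (fun t : Fin n => lf (nd.l t.succ) Y) t
  | VE.q => aeval Y nd.θ
  | VE.S p => Fin.lastCases (motive := fun _ => R) (u p.1)
      (fun t : Fin n => lf (nd.l t.succ) (y p.1)) p.2
  | VE.w i => w i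
  | VE.z p => Fin.lastCases (motive := fun _ => R) (u p.1)
      (fun t : Fin n => lf (nd.l t.succ) (η p.1)) p.2
  | VE.v _ => 0

section

variable {K : Type u} [Field K] {N : ℕ} {A : AV K N} {n e m : ℕ} (nd : Noe A n e)
  {R : Type u} [CommRing R] [Algebra K R] (c : R) (Y : Fin (N + 1) → R)
  (y η : Fin m → Fin (N + 1) → R) (u w : Fin m → R)

theorem E_val_x (t : Fin n) : E_val nd c Y y η u w (VE.x t.castSucc) = lf (nd.l t.succ) Y := by
  show Fin.lastCases (motive := fun _ => R) _ _ t.castSucc = _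
  rw [Fin.lastCases_castSucc]

theorem E_val_xl : E_val nd c Y y η u w (VE.x (Fin.last n)) = c := by
  show Fin.lastCases (motive := fun _ => R) _ _ (Fin.last n) = _
  rw [Fin.lastCases_last]

theorem E_val_S (i : Fin m) (t : Fin n) :
    E_val nd c Y y η u w (VE.S (i, t.castSucc)) = lf (nd.l t.succ) (y i) := by
  show Fin.lastCases (motive := fun _ => R) _ _ t.castSucc = _
  rw [Fin.lastCases_castSucc]

theorem E_val_Sl (i : Fin m) : E_val nd c Y y η u w (VE.S (i, Fin.last n)) = u i := by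
  show Fin.lastCases (motive := fun _ => R) _ _ (Fin.last n) = _
  rw [Fin.lastCases_last]

theorem E_val_z (i : Fin m) (t : Fin n) :
    E_val nd c Y y η u w (VE.z (i, t.castSucc)) = lf (nd.l t.succ) (η i) := by
  show Fin.lastCases (motive := fun _ => R) _ _ t.castSucc = _
  rw [Fin.lastCases_castSucc]

theorem E_val_zl (i : Fin m) : E_val nd c Y y η u w (VE.z (i, Fin.last n)) = u i := by
  show Fin.lastCases (motive := fun _ => R) _ _ (Fin.last n) = _
  rw [Fin.lastCases_last]

theorem E_val_v : (fun o => E_val nd c Y y η u (fun i => aeval (η i) nd.θ) (E_v o)) =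
    vN nd Y η u := by
  funext o
  cases o with
  | x a => exact E_val_x nd c Y y η u _ a
  | th i => rfl
  | z p => exact E_val_z nd c Y y η u _ p.1 p.2
  | u i => exact E_val_zl nd c Y y η u _ i

/-- The relation of the primitive element of `P i - 2 ^ j i Q`. -/
theorem E_val_th (hη : ∀ i, A.IsPt (η i)) (hη1 : ∀ i, lf (nd.l 0) (η i) = 1) (i : Fin m) :
    aeval (fun o => E_val nd c Y y η u (fun i => aeval (η i) nd.θ) (E_z i o)) nd.ed.f = 0 := by
  have h : (fun o => E_val nd c Y y η u (fun i => aeval (η i) nd.θ) (E_z i o)) = nd.pO (η i) := by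
    funext o
    cases o with
    | none => rfl
    | some t => exact E_val_z nd c Y y η u _ i t
  rw [h]
  exact nd.aeval_f (hη i) (hη1 i)

private theorem E06b_pQ (o : Option (Fin n)) :
    E_val nd c Y y η u w (pQ (eix o)) = nd.pO Y o := by
  cases o with
  | none => rfl
  | some t => exact E_val_x nd c Y y η u w t

private theorem E06b_pP (i : Fin m) (o : Option (Fin n)) :
    E_val nd c Y y η u (fun i => aeval (y i) nd.θ) (pP i (eix o)) = nd.pO (y i) o := by
  cases o with
  | none => rfl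
  | some t => exact E_val_S nd c Y y η u _ i t

theorem E_val_fQ (hY : A.IsPt Y) (hY1 : lf (nd.l 0) Y = 1) :
    aeval (E_val nd c Y y η u w) ((E_ed nd).fQ m) = 0 := by
  rw [aeval_fQ]
  show aeval _ (rename eix nd.ed.f) = 0
  rw [aeval_rename]
  have h : ((fun o => E_val nd c Y y η u w (pQ o)) ∘ eix) = nd.pO Y :=
    funext fun o => E06b_pQ nd c Y y η u w o
  rw [h]
  exact nd.aeval_f hY hY1

theorem E_val_fP (hy : ∀ i, A.IsPt (y i)) (hy1 : ∀ i, lf (nd.l 0) (y i) = 1) (i : Fin m) :
    aeval (E_val nd c Y y η u fun i => aeval (y i) nd.θ) ((E_ed nd).fP i) = 0 := by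
  rw [aeval_fP]
  show aeval _ (rename eix nd.ed.f) = 0
  rw [aeval_rename]
  have h : ((fun o => E_val nd c Y y η u (fun i => aeval (y i) nd.θ) (pP i o)) ∘ eix) =
      nd.pO (y i) := funext fun o => E06b_pP nd c Y y η u i o
  rw [h]
  exact nd.aeval_f (hy i) (hy1 i)

theorem E_val_al (hY : A.IsPt Y) (hY1 : lf (nd.l 0) Y = 1) (hy : ∀ i, A.IsPt (y i))
    (hy1 : ∀ i, lf (nd.l 0) (y i) = 1) (j : Fin m → ℕ)
    (hc : ∀ i a b, A.col a (y i) (A.mu (j i) Y) b =
      η i b * lf (nd.l 0) (A.col a (y i) (A.mu (j i) Y))) (p : Fin m × Fin (n + 1)) :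
    aeval (E_val nd c Y y η u fun i => aeval (y i) nd.θ) ((E_ed nd).al j p) = 0 := by
  obtain ⟨i, t⟩ := p
  obtain ⟨s, hs⟩ : ∃ s : VE m (n + 1) → R, s = E_val nd c Y y η u fun i => aeval (y i) nd.θ :=
    ⟨_, rfl⟩
  have hQ : ∀ o, s (pQ (eix o)) = nd.pO Y o := by
    intro o
    rw [hs]
    exact E06b_pQ nd c Y y η u _ o
  have hP : ∀ o, s (pP i (eix o)) = nd.pO (y i) o := by
    intro o
    rw [hs]
    exact E06b_pP nd c Y y η u i o
  have hbb : ∀ q : MvPolynomial (Option (Fin n) ⊕ Option (Fin n)) K,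
      aeval (Sum.elim (fun o => s (pQ o)) fun o => s (pP i o)) (rename (Sum.map eix eix) q) =
        aeval (Sum.elim (nd.pO Y) (nd.pO (y i))) q := by
    intro q
    rw [aeval_rename]
    congr 2
    funext o
    rcases o with o | o
    · exact hQ o
    · exact hP o
  rw [← hs, VA.aeval_al, aeval_bb, aeval_bb]
  induction t using Fin.lastCases with
  | last =>
    show aeval _ ((E_ed nd).b (j i) none) * s (VE.z (i, Fin.last n)) -
      aeval _ ((E_ed nd).b (j i) (some (Fin.last n))) = 0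
    rw [E_ed_last, E_ed_none, map_mul, hbb, aeval_X]
    have h1 : s (VE.z (i, Fin.last n)) = u i := by
      rw [hs]
      exact E_val_zl nd c Y y η u _ i
    have h2 : (Sum.elim (fun o => s (pQ o)) fun o => s (pP i o) :
        Option (Fin (n + 1)) ⊕ Option (Fin (n + 1)) → R) (Sum.inr (some (Fin.last n))) = u i := by
      show s (VE.S (i, Fin.last n)) = u i
      rw [hs]
      exact E_val_Sl nd c Y y η u _ i
    rw [h1, h2, sub_self]
  | cast t =>
    show aeval _ ((E_ed nd).b (j i) none) * s (VE.z (i, t.castSucc)) -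
      aeval _ ((E_ed nd).b (j i) (some t.castSucc)) = 0
    rw [E_ed_some, E_ed_none, hbb, hbb]
    have h1 : s (VE.z (i, t.castSucc)) = lf (nd.l t.succ) (η i) := by
      rw [hs]
      exact E_val_z nd c Y y η u _ i t
    rw [h1, sub_eq_zero]
    refine nd.rel_b (hy i) (hy1 i) hY hY1 (j i) (κ := 1) isUnit_one (M := A.mu (j i) Y)
      (fun a => (one_mul _).symm) (ξ := fun t => lf (nd.l t.succ) (η i)) (fun a k => ?_) t
    obtain ⟨c', hc'⟩ : ∃ c', c' = lf (nd.l 0) (A.col a (y i) (A.mu (j i) Y)) := ⟨_, rfl⟩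
    have h2 : A.col a (y i) (A.mu (j i) Y) = fun b => c' * η i b := by
      funext b
      rw [hc i a b, ← hc', mul_comm]
    show lf (nd.l k.succ) (η i) * lf (nd.l 0) (A.col a (y i) (A.mu (j i) Y)) = _
    rw [← hc', h2, lf_smulE, mul_comm]

end

end Pool.Agent.Lib.MP_17a322_nt.VP
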