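import Pool.Agent.Lib.MP_17a322_nt.VP.E06a
import Pool.Agent.Lib.MP_17a322_nt.VP.E06b
import Pool.Agent.Lib.MP_17a322_nt.VP.E04a
import Pool.Agent.Lib.MP_17a322_nt.VP.E04b

/-!
VP, part E: the zero estimate.
-/

universe u

namespace Pool.Agent.Lib.MP_17a322_nt.VP

open MvPolynomial Height
open Pool.Agent.Lib.MP_17a322_nt.RO
open Pool.Agent.Lib.MP_17a322_nt.VJ
open Pool.Agent.Lib.MP_17a322_nt.VN
open Pool.Agent.Lib.MP_17a322_nt.VA

/-- `n + 1` coordinates as `Option`. -/
def E06_io {n : ℕ} : Fin (n + 1) → Option (Fin n) :=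
  Fin.lastCases (motive := fun _ => Option (Fin n)) none some

theorem E06_io_last {n : ℕ} : E06_io (Fin.last n) = none := by
  unfold E06_io
  rw [Fin.lastCases_last]

theorem E06_io_cast {n : ℕ} (t : Fin n) : E06_io t.castSucc = some t := by
  unfold E06_io
  rw [Fin.lastCases_castSucc]

theorem E06_io_injective {n : ℕ} : Function.Injective (E06_io : Fin (n + 1) → Option (Fin n)) := by
  intro a b h
  induction a using Fin.lastCases with
  | last =>
    induction b using Fin.lastCases with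
    | last => rfl
    | cast b =>
      rw [E06_io_last, E06_io_cast] at h
      cases h
  | cast a =>
    induction b using Fin.lastCases with
    | last =>
      rw [E06_io_last, E06_io_cast] at h
      cases h
    | cast b =>
      rw [E06_io_cast, E06_io_cast] at h
      rw [Option.some.inj h]

theorem E06_io_surjective {n : ℕ} : Function.Surjective (E06_io : Fin (n + 1) → Option (Fin n)) := by
  intro o
  cases o with
  | none => exact ⟨Fin.last n, E06_io_last⟩
  | some t => exact ⟨t.castSucc, E06_io_cast t⟩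

/-- The coordinates of the point and of the line. -/
def E06_sg {K : Type*} {m n : ℕ} (t : Fin m → K) (s : Fin m → Fin n → K) :
    Fin m × Fin (n + 1) → K :=
  fun p => (E06_io p.2).elim (t p.1) (s p.1)

private theorem E06_div {L : Type*} [Field L] (f h : PowerSeries L) (a : ℕ)
    (hd : f ∣ h) (ha : PowerSeries.coeff a h ≠ 0) :
    ∃ a' ≤ a, PowerSeries.coeff a' f ≠ 0 := by
  by_contra hcon
  push Not at hcon
  obtain ⟨g, rfl⟩ := hd
  apply ha
  rw [PowerSeries.coeff_mul]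
  refine Finset.sum_eq_zero fun p hp => ?_
  rw [Finset.HasAntidiagonal.mem_antidiagonal] at hp
  rw [hcon p.1 (by omega), zero_mul]

/-- The condition in `n + 1` coordinates from a condition in `n` coordinates. -/
private theorem E06_g {K : Type u} [Field K] [Infinite K] {m n : ℕ}
    (g' : MvPolynomial (Fin (n + 1) ⊕ Fin m × Fin (n + 1)) K) (hg' : g' ≠ 0) :
    ∃ (c : K) (g : MvPolynomial (Fin n ⊕ Fin m × Option (Fin n)) K), g ≠ 0 ∧
      ∀ (L : Type u) [Field L] [Algebra K L] (x : Fin n → L) (ζ : Fin m × Option (Fin n) → L),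
        aeval (Sum.elim x ζ) g = aeval (Sum.elim
          (Fin.lastCases (motive := fun _ => L) (algebraMap K L c) x)
          fun p => ζ (p.1, E06_io p.2)) g' := by
  obtain ⟨v, hv⟩ : ∃ v : Fin (n + 1) ⊕ Fin m × Fin (n + 1) → K, eval v g' ≠ 0 := by
    by_contra hcon
    push Not at hcon
    exact hg' (MvPolynomial.funext fun v => by rw [hcon v, map_zero])
  obtain ⟨ψ, hψ⟩ : ∃ ψ : Fin (n + 1) ⊕ Fin m × Fin (n + 1) →
      MvPolynomial (Fin n ⊕ Fin m × Option (Fin n)) K, ψ = Sum.elim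
        (Fin.lastCases (motive := fun _ => MvPolynomial (Fin n ⊕ Fin m × Option (Fin n)) K)
          (C (v (Sum.inl (Fin.last n)))) fun t => X (Sum.inl t))
        fun p => X (Sum.inr (p.1, E06_io p.2)) := ⟨_, rfl⟩
  have key : ∀ (L : Type u) [Field L] [Algebra K L] (x : Fin n → L)
      (ζ : Fin m × Option (Fin n) → L), aeval (Sum.elim x ζ) (aeval ψ g') =
        aeval (Sum.elim
          (Fin.lastCases (motive := fun _ => L) (algebraMap K L (v (Sum.inl (Fin.last n)))) x)
          fun p => ζ (p.1, E06_io p.2)) g' := by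
    intro L _ _ x ζ
    rw [← AlgHom.comp_apply, MvPolynomial.comp_aeval]
    congr 2
    funext o
    rw [hψ]
    rcases o with o | p
    · induction o using Fin.lastCases with
      | last =>
        rw [Sum.elim_inl, Sum.elim_inl, Fin.lastCases_last, Fin.lastCases_last, aeval_C]
      | cast o =>
        rw [Sum.elim_inl, Sum.elim_inl, Fin.lastCases_castSucc, Fin.lastCases_castSucc, aeval_X,
          Sum.elim_inl]
    · rw [Sum.elim_inr, Sum.elim_inr, aeval_X, Sum.elim_inr]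
  refine ⟨v (Sum.inl (Fin.last n)), aeval ψ g', ?_, key⟩
  intro h0
  obtain ⟨r, hr⟩ : ∃ r : Option (Fin n) → Fin (n + 1), ∀ t, r (E06_io t) = t :=
    ⟨Function.invFun E06_io, Function.leftInverse_invFun E06_io_injective⟩
  have h1 := key K (fun t => v (Sum.inl t.castSucc)) (fun p => v (Sum.inr (p.1, r p.2)))
  rw [h0, map_zero] at h1
  apply hv
  rw [← coe_aeval_eq_eval]
  refine Eq.trans ?_ h1.symm
  show aeval v g' = _
  congr 2
  funext o
  rcases o with o | p
  · induction o using Fin.lastCases with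
    | last =>
      rw [Sum.elim_inl, Fin.lastCases_last]
      rfl
    | cast o => rw [Sum.elim_inl, Fin.lastCases_castSucc]
  · rw [Sum.elim_inr]
    show v (Sum.inr p) = v (Sum.inr (p.1, r (E06_io p.2)))
    rw [hr]

/-- The conclusion on the paths. -/
private theorem E06_path {K : Type u} [Field K] {N : ℕ} {A : AV K N} {n e m : ℕ}
    (nd : Noe A n e) (P : Fin m → A.Pts K) (j : Fin m → ℕ) (t : Fin m → K)
    (F : MvPolynomial (VF m n) K) (NN c' : MvPolynomial (VE m (n + 1)) K) (a : ℕ)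
    (hdvd : ∀ (R : Type u) [CommRing R] [Algebra K R] (s : VE m (n + 1) → R),
      aeval s ((E_ed nd).fQ m) = 0 → (∀ i, aeval s ((E_ed nd).fP i) = 0) →
      (∀ p, aeval s ((E_ed nd).al j p) = 0) → aeval s (E_N nd F) ∣ aeval s NN)
    (hOc : ∀ y, ¬ Oc Finset.univ m y → c'.degreeOf y = 0)
    (hord : ∀ (A' : Type u) [CommRing A'] [Algebra K A'] (y : VE m (n + 1) → PowerSeries A')
      (y₀ : VE m (n + 1) → A'),
      (∀ p : Fin m × Fin (n + 1), p.2 ∈ Finset.univ → y (VE.S p) =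
        PowerSeries.C (algebraMap K A' (E06_sg t (fun i => nd.s (P i)) p)) +
          PowerSeries.C (y₀ (VE.S p)) * PowerSeries.X ^ (4 ^ j p.1)) →
      (∀ o, Oc Finset.univ m o → (∀ p, o ≠ VE.S p) →
        y₀ o = PowerSeries.constantCoeff (y o)) →
      (∀ k < a, PowerSeries.coeff k (aeval y NN) = 0) ∧
        PowerSeries.coeff a (aeval y NN) = aeval y₀ c')
    {L : Type u} [Field L] [Algebra K L] (cK : K) (Y : Fin (N + 1) → L)
    (ζ : Fin m × Option (Fin n) → L) (y η : Fin m → Fin (N + 1) → PowerSeries L)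
    (hY : A.IsPt Y) (hY1 : lf (nd.l 0) Y = 1)
    (hg : aeval (czE (Fin.lastCases (motive := fun _ => L) (algebraMap K L cK)
      fun k => lf (nd.l k.succ) Y) fun p : Fin m × Fin (n + 1) => ζ (p.1, E06_io p.2)) c' ≠ 0)
    (hB : ∀ i, BlkP nd (P i) (4 ^ j i) (fun k => ζ (i, some k)) (A.mu (j i) Y) (y i) (η i)) :
    ∃ a' ≤ a, PowerSeries.coeff a' (vl nd j t Y ζ η F) ≠ 0 := by
  let φ : L →ₐ[K] PowerSeries L := (Algebra.ofId L (PowerSeries L)).restrictScalars K
  have hφ : ∀ r, φ r = PowerSeries.C r := fun r => rfl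
  obtain ⟨YC, hYC⟩ : ∃ YC : Fin (N + 1) → PowerSeries L, YC = fun i => PowerSeries.C (Y i) :=
    ⟨_, rfl⟩
  have hYC' : YC = fun i => φ (Y i) := hYC
  have hYCp : A.IsPt YC := by
    rw [hYC']
    exact hY.map φ
  have hlfC : ∀ l : Fin (N + 1) → K, lf l YC = PowerSeries.C (lf l Y) := by
    intro l
    rw [hYC', lf_mapE, hφ]
  have hYC1 : lf (nd.l 0) YC = 1 := by
    rw [hlfC, hY1, map_one]
  have hmu : ∀ i, (fun b => PowerSeries.C (A.mu (j i) Y b)) = A.mu (j i) YC := by
    intro i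
    funext b
    rw [← hφ, A.map_mu, hYC']
  obtain ⟨uu, huu⟩ : ∃ uu : Fin m → PowerSeries L, uu = fun i =>
      PowerSeries.C (algebraMap K L (t i)) + PowerSeries.C (ζ (i, none)) *
        PowerSeries.X ^ 4 ^ j i := ⟨_, rfl⟩
  obtain ⟨s, hs⟩ : ∃ s : VE m (n + 1) → PowerSeries L, s = E_val nd
      (PowerSeries.C (algebraMap K L cK)) YC y η uu fun i => aeval (y i) nd.θ := ⟨_, rfl⟩
  obtain ⟨s₁, hs₁⟩ : ∃ s₁ : VE m (n + 1) → PowerSeries L, s₁ = E_val nd
      (PowerSeries.C (algebraMap K L cK)) YC y η uu fun i => aeval (η i) nd.θ := ⟨_, rfl⟩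
  -- the value of `F`
  have h1 : vl nd j t Y ζ η F = aeval (fun o => s₁ (E_v o)) F := by
    rw [hs₁, E_val_v]
    unfold vl
    rw [hYC, huu]
  have h2 : aeval (fun o => s₁ (E_v o)) F ∣ aeval s₁ (E_N nd F) := by
    refine E_N_dvd nd F s₁ fun i => ?_
    rw [hs₁]
    exact E_val_th nd _ _ _ _ _ (fun i => (hB i).eta_isPt) (fun i => (hB i).eta_lf0) i
  have h3 : aeval s₁ (E_N nd F) = aeval s (E_N nd F) := by
    refine aeval_congr_of_degreeOf _ _ _ fun o ho => ?_
    cases o with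
    | w i => exact absurd (E_N_Oc nd F (VE.w i) id) ho
    | _ =>
      rw [hs, hs₁]
      rfl
  have h4 : aeval s (E_N nd F) ∣ aeval s NN := by
    refine hdvd _ s ?_ ?_ ?_
    · rw [hs]
      exact E_val_fQ nd _ _ _ _ _ _ hYCp hYC1
    · rw [hs]
      exact E_val_fP nd _ _ _ _ _ (fun i => (hB i).isPt) (fun i => (hB i).lf0)
    · rw [hs]
      refine E_val_al nd _ _ _ _ _ hYCp hYC1 (fun i => (hB i).isPt) (fun i => (hB i).lf0) j ?_
      intro i a b
      rw [← hmu]
      exact (hB i).col a b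
  -- the coefficient
  obtain ⟨y₀, hy₀⟩ : ∃ y₀ : VE m (n + 1) → L, y₀ = fun o => match o with
    | VE.x k => Fin.lastCases (motive := fun _ => L) (algebraMap K L cK)
        (fun k => lf (nd.l k.succ) Y) k
    | VE.S p => ζ (p.1, E06_io p.2)
    | _ => 0 := ⟨_, rfl⟩
  have hy₀S : ∀ p, y₀ (VE.S p) = ζ (p.1, E06_io p.2) := fun p => by rw [hy₀]
  have hy₀x : ∀ k, y₀ (VE.x k) = Fin.lastCases (motive := fun _ => L) (algebraMap K L cK)
      (fun k => lf (nd.l k.succ) Y) k := fun p => by rw [hy₀]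
  obtain ⟨-, h5⟩ := hord L s y₀ (by
    rintro ⟨i, k⟩ -
    rw [hy₀S, hs]
    unfold E06_sg
    induction k using Fin.lastCases with
    | last =>
      rw [E_val_Sl, E06_io_last, huu]
      rfl
    | cast k =>
      rw [E_val_S, E06_io_cast, (hB i).lfs k]
      rfl) (by
    intro o ho ho'
    cases o with
    | x k =>
      rw [hy₀x, hs]
      induction k using Fin.lastCases with
      | last => rw [E_val_xl, Fin.lastCases_last, PowerSeries.constantCoeff_C]
      | cast k => rw [E_val_x, Fin.lastCases_castSucc, hlfC, PowerSeries.constantCoeff_C]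
    | q => exact absurd ho id
    | S p => exact absurd rfl (ho' p)
    | w i => exact absurd ho id
    | z p => exact absurd p.1.2 (not_lt.2 ho)
    | v p => exact absurd (Finset.mem_univ _) ho.2)
  have h6 : aeval (czE (Fin.lastCases (motive := fun _ => L) (algebraMap K L cK)
      fun k => lf (nd.l k.succ) Y) fun p : Fin m × Fin (n + 1) => ζ (p.1, E06_io p.2)) c' =
      C (aeval y₀ c') := by
    have h7 : (C (aeval y₀ c') : MvPolynomial (Fin m × Fin (n + 1)) L) =
        (Algebra.ofId L (MvPolynomial (Fin m × Fin (n + 1)) L)).restrictScalars K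
          (aeval y₀ c') := rfl
    rw [h7, ← AlgHom.comp_apply, MvPolynomial.comp_aeval]
    refine aeval_congr_of_degreeOf c' _ _ fun o ho => ?_
    have hO : Oc Finset.univ m o := by
      by_contra h
      exact ho (hOc o h)
    cases o with
    | x k =>
      rw [hy₀x]
      rfl
    | q => exact absurd hO id
    | S p =>
      rw [hy₀S]
      rfl
    | w i => exact absurd hO id
    | z p => exact absurd p.1.2 (not_lt.2 hO)
    | v p => exact absurd (Finset.mem_univ _) hO.2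
  have h8 : PowerSeries.coeff a (aeval s NN) ≠ 0 := by
    rw [h5]
    intro h
    rw [h, C_0] at h6
    exact hg h6
  rw [h1]
  exact E06_div _ _ a ((h3 ▸ h2).trans h4) h8

/-- The zero estimate. -/
theorem EP {K : Type u} [Field K] [NumberField K] {N : ℕ} (A : AV K N) {n e : ℕ} (nd : Noe A n e)
    (m : ℕ) (hm : 0 < m) (s B : ℝ) (hs : 0 < s) (hB : 0 ≤ B) :
    ∃ (D' R₀ : ℕ) (B' : ℝ), 0 ≤ B' ∧ ∀ (P : Fin m → A.Pts K) (j : Fin m → ℕ) (t : Fin m → K)
      (F : MvPolynomial (VF m n) K) (b : ℝ),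
      (∀ i i', i < i' → R₀ * 4 ^ j i ≤ 4 ^ j i') →
      (∀ i, nd.Good (P i)) → F ≠ 0 →
      (∀ i, F.degreeOf (VF.th i) < nd.Φ.natDegree) →
      (∀ a, (F.degreeOf (VF.x a) : ℝ) ≤ b) →
      (∀ p, (4 : ℝ) ^ j p.1 * F.degreeOf (VF.z p) ≤ b) →
      (∀ i, (4 : ℝ) ^ j i * F.degreeOf (VF.u i) ≤ b) →
      (∀ i, (4 : ℝ) ^ j i ≤ b) → nh F ≤ B * b →
      (∃ (i : Fin m) (G : MvPolynomial (Option (Fin n)) K), G ≠ 0 ∧ (∀ y, G.degreeOf y ≤ D') ∧
        nh G ≤ B' * 4 ^ j i ∧
        eval (fun y : Option (Fin n) => y.elim (t i) (nd.s (P i))) G = 0) ∨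
      ∃ g : MvPolynomial (Fin n ⊕ Fin m × Option (Fin n)) K, g ≠ 0 ∧
        ∀ (L : Type u) [Field L] [NumberField L] [Algebra K L] (Y : Fin (N + 1) → L)
          (ζ : Fin m × Option (Fin n) → L) (y η : Fin m → Fin (N + 1) → PowerSeries L),
          A.IsPt Y → lf (nd.l 0) Y = 1 →
          aeval (Sum.elim (fun k => lf (nd.l k.succ) Y) ζ) g ≠ 0 →
          (∀ i, BlkP nd (P i) (4 ^ j i) (fun k => ζ (i, some k)) (A.mu (j i) Y) (y i) (η i)) →
          ∃ a : ℕ, (a : ℝ) < s * b ∧ PowerSeries.coeff a (vl nd j t Y ζ η F) ≠ 0 := by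
  obtain ⟨C₀, hE⟩ := E_ed_ok nd
  obtain ⟨C₁, hC₁, hN⟩ := E_N_QE nd m
  obtain ⟨C₂, hC₂, helim⟩ := E_elim m hE
  have hC₁0 : 0 < C₁ := by linarith
  have hC₂0 : 0 < C₂ := by linarith
  have hC : 0 < C₂ * C₁ := mul_pos hC₂0 hC₁0
  obtain ⟨R₀, D', B', hB', hord⟩ := order_T (K := K) m (n + 1) Finset.univ (s / (C₂ * C₁))
    (B + 2) (div_pos hs hC) (by linarith)
  refine ⟨D', R₀, B', hB', ?_⟩
  intro P j t F b hj hP hF hFth hFx hFz hFu hjb hFh
  have hb0 : 0 < b := lt_of_lt_of_le (by positivity) (hjb ⟨0, hm⟩)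
  have hN0 := E_N_ne nd F hF hFth
  have hQ := hN j b (B * b) F hb0.le hF hN0 hFth hFx hFz hFu hjb hFh
  have hH0 : 0 ≤ C₁ * (B * b + b) := by positivity
  obtain ⟨NN, h1, h2, h3, h4⟩ := helim j (C₁ * b) (C₁ * (B * b + b)) (E_N nd F) hN0
    (fun y hy => E_N_Oc nd F y hy) (by positivity) hH0 hQ
  have h6 := hord j (E06_sg t fun i => nd.s (P i)) NN (C₂ * C₁ * b) hj h1 (by positivity)
    h2 (fun p => (h3.1 (VE.S p)).trans (le_of_eq (by ring)))
    (h3.2.trans (le_of_eq (by ring)))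
  rcases h6 with ⟨i, G, hG, hG1, hG2, hG3, hG4⟩ | ⟨a, c', ha, hc', hc1, hc2⟩
  · left
    refine ⟨i, rename E06_io G, ?_, ?_, ?_, ?_⟩
    · intro h
      exact hG (rename_injective _ E06_io_injective (by rw [h, map_zero]))
    · intro y
      obtain ⟨k, rfl⟩ := E06_io_surjective y
      rw [degreeOf_rename_of_injective E06_io_injective]
      exact hG2 k
    · refine le_of_eq_of_le ?_ hG3
      unfold nh
      congr 1
      funext v
      rw [NV_rename v _ _ E06_io_injective]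
    · rw [eval_rename]
      exact hG4
  · right
    obtain ⟨g', hg', hg'1⟩ := exists_g c' hc' (hc1 _ id) (fun i => hc1 _ id)
      (fun p => hc1 _ (not_le.2 p.1.2))
    obtain ⟨cK, g, hg, hg1⟩ := E06_g g' hg'
    refine ⟨g, hg, ?_⟩
    intro L _ _ _ Y ζ y η hY hY1 hgY hBl
    rw [hg1] at hgY
    obtain ⟨a', ha', hne⟩ := E06_path nd P j t F NN c' a h4 hc1 hc2 cK Y ζ y η hY hY1
      (hg'1 L _ _ hgY) hBl
    refine ⟨a', ?_, hne⟩
    have h7 : (a' : ℝ) ≤ a := by exact_mod_cast ha'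
    refine h7.trans_lt (ha.trans_le (le_of_eq ?_))
    field_simp

end Pool.Agent.Lib.MP_17a322_nt.VP
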