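import Pool.Agent.Lib.MP_17a322_nt.VP.N7

/-!
VP, numerical theorem: the local estimate.
-/

universe u

namespace Pool.Agent.Lib.MP_17a322_nt.VP

open MvPolynomial Height
open Pool.Agent.Lib.MP_17a322_nt.RO
open Pool.Agent.Lib.MP_17a322_nt.VJ
open Pool.Agent.Lib.MP_17a322_nt.VN
open Pool.Agent.Lib.MP_17a322_nt.VA

section

variable {K : Type u} [Field K] {N : ℕ} {A : AV K N} {n e : ℕ} (nd : Noe A n e)

/-- The total loss. -/
noncomputable def N_L (E : SC K) {r : ℕ} {L : Type u} [Field L] [Algebra K L]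
    (v : AbsoluteValue L ℝ) (P : A.Pts K) (t : K)
    (α β : Fin r → MvPolynomial (Fin (N + 1)) K) : ℝ :=
  N_l0 nd E v P t + ∑ l, N_lx nd v P (α l) (β l)

theorem N_l0_le_L (E : SC K) {r : ℕ} {L : Type u} [Field L] [Algebra K L]
    (v : AbsoluteValue L ℝ) (P : A.Pts K) (t : K)
    (α β : Fin r → MvPolynomial (Fin (N + 1)) K) : N_l0 nd E v P t ≤ N_L nd E v P t α β := by
  unfold N_L
  exact le_add_of_nonneg_right (Finset.sum_nonneg fun l _ => N_lx_nonneg nd v P _ _)

theorem N_L_nonneg (E : SC K) {r : ℕ} {L : Type u} [Field L] [Algebra K L]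
    (v : AbsoluteValue L ℝ) (P : A.Pts K) (t : K)
    (α β : Fin r → MvPolynomial (Fin (N + 1)) K) : 0 ≤ N_L nd E v P t α β :=
  (N_l0_nonneg nd E v P t).trans (N_l0_le_L nd E v P t α β)

theorem N_lossP_le_L (E : SC K) {r : ℕ} {L : Type u} [Field L] [Algebra K L]
    (v : AbsoluteValue L ℝ) (P : A.Pts K) (t : K)
    (α β : Fin r → MvPolynomial (Fin (N + 1)) K) (l : Fin r) :
    lossP nd E v P t (α l) (β l) ≤ N_L nd E v P t α β := by
  rw [N_lossP_eq]
  unfold N_L
  have h1 : N_lx nd v P (α l) (β l) ≤ ∑ l, N_lx nd v P (α l) (β l) :=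
    Finset.single_le_sum (f := fun l => N_lx nd v P (α l) (β l))
      (fun l _ => N_lx_nonneg nd v P _ _) (Finset.mem_univ l)
  linarith

/-- The bounds of the variables. -/
noncomputable def N_Bs {m : ℕ} (E : SC K) (a₁ : ℕ) {L : Type u} [Field L] [Algebra K L]
    (v : AbsoluteValue L ℝ) (t : Fin m → K) (sQ : Fin n → L) (q : Fin m → Fin n → L) :
    VF m n → ℝ :=
  vf (fun a => max 1 (v (sQ a))) (fun i => E.k v * (E.k v * mq v (q i)) ^ a₁)
    (fun p => E.k v * (E.k v * mq v (q p.1)) ^ a₁)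
    fun i => cst v 2 * (cst v 2 * max 1 (v (algebraMap K L (t i))))

theorem N_Bs_one_le {m : ℕ} (E : SC K) (a₁ : ℕ) {L : Type u} [Field L] [Algebra K L]
    (v : AbsoluteValue L ℝ) (t : Fin m → K) (sQ : Fin n → L) (q : Fin m → Fin n → L)
    (s : VF m n) : 1 ≤ N_Bs E a₁ v t sQ q s := by
  have hE := E.one_le v
  have hc : 1 ≤ cst v 2 := one_le_cst v (by norm_num)
  cases s with
  | x a => exact le_max_left _ _
  | th i => exact one_le_mul_of_one_le_of_one_le hE (one_le_pow₀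
      (one_le_mul_of_one_le_of_one_le hE (N_one_le_mq v _)))
  | z p => exact one_le_mul_of_one_le_of_one_le hE (one_le_pow₀
      (one_le_mul_of_one_le_of_one_le hE (N_one_le_mq v _)))
  | u i =>
    exact one_le_mul_of_one_le_of_one_le hc
      (one_le_mul_of_one_le_of_one_le hc (le_max_left _ _))

theorem N_tg_nonneg (E : SC K) (C₁ : ℝ) {L : Type u} [Field L] [Algebra K L] {m r : ℕ}
    (j : Fin m → ℕ) (P : Fin m → A.Pts K) (t : Fin m → K)
    (α β : Fin m → Fin r → MvPolynomial (Fin (N + 1)) K) (v : AbsoluteValue L ℝ) :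
    0 ≤ tg nd E C₁ j P t α β v := by
  unfold tg
  exact Real.iSup_nonneg fun l => le_max_left _ _

/-- The target which attains the maximum. -/
theorem N_tg_pos (E : SC K) (C₁ : ℝ) {L : Type u} [Field L] [Algebra K L] {m r : ℕ}
    (j : Fin m → ℕ) (P : Fin m → A.Pts K) (t : Fin m → K)
    (α β : Fin m → Fin r → MvPolynomial (Fin (N + 1)) K) (v : AbsoluteValue L ℝ)
    (h : 0 < tg nd E C₁ j P t α β v) : ∃ l : Fin r, ∀ i,
      4 ^ j i * tg nd E C₁ j P t α β v ≤
        - Real.log (v (algebraMap K L (t i - eval (nd.y (P i)) (α i l) /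
          eval (nd.y (P i)) (β i l)))) - C₁ * lossP nd E v (P i) (t i) (α i l) (β i l) := by
  rcases isEmpty_or_nonempty (Fin r) with hr | hr
  · exfalso
    unfold tg at h
    rw [Real.iSup_of_isEmpty] at h
    exact lt_irrefl _ h
  · obtain ⟨l, hl⟩ := exists_eq_ciSup_of_finite (f := fun l : Fin r => max 0 (⨅ i : Fin m,
      (- Real.log (v (algebraMap K L (t i - eval (nd.y (P i)) (α i l) /
        eval (nd.y (P i)) (β i l)))) -
        C₁ * lossP nd E v (P i) (t i) (α i l) (β i l)) / 4 ^ j i))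
    refine ⟨l, fun i => ?_⟩
    have h1 : tg nd E C₁ j P t α β v = max 0 (⨅ i : Fin m,
      (- Real.log (v (algebraMap K L (t i - eval (nd.y (P i)) (α i l) /
        eval (nd.y (P i)) (β i l)))) -
        C₁ * lossP nd E v (P i) (t i) (α i l) (β i l)) / 4 ^ j i) := hl.symm
    have h2 : tg nd E C₁ j P t α β v = ⨅ i : Fin m,
      (- Real.log (v (algebraMap K L (t i - eval (nd.y (P i)) (α i l) /
        eval (nd.y (P i)) (β i l)))) -
        C₁ * lossP nd E v (P i) (t i) (α i l) (β i l)) / 4 ^ j i := by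
      rcases max_choice 0 (⨅ i : Fin m,
        (- Real.log (v (algebraMap K L (t i - eval (nd.y (P i)) (α i l) /
          eval (nd.y (P i)) (β i l)))) -
          C₁ * lossP nd E v (P i) (t i) (α i l) (β i l)) / 4 ^ j i) with h3 | h3
      · rw [h3] at h1
        rw [h1] at h
        exact absurd h (lt_irrefl _)
      · rw [h3] at h1
        exact h1
    have h4 : tg nd E C₁ j P t α β v ≤
      (- Real.log (v (algebraMap K L (t i - eval (nd.y (P i)) (α i l) /
        eval (nd.y (P i)) (β i l)))) -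
        C₁ * lossP nd E v (P i) (t i) (α i l) (β i l)) / 4 ^ j i := by
      rw [h2]
      exact ciInf_le (Set.finite_range _).bddBelow i
    have h5 : (0 : ℝ) < 4 ^ j i := by positivity
    rw [le_div_iff₀ h5] at h4
    rw [mul_comm]
    exact h4

/-- The values of the variables at the constant path. -/
theorem N_lf_C {L : Type u} [Field L] [Algebra K L] (Q : A.Pts L) (k : Fin n) :
    lf (nd.l k.succ) (fun a => (PowerSeries.C (nd.y Q a) : PowerSeries L)) =
      PowerSeries.C (nd.s Q k) := by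
  have h2 := VA.lf_map (N_C K L) (nd.l k.succ) (nd.y Q)
  rw [nd.lf_y_succ Q] at h2
  exact h2.symm

/-- The local estimate. -/
theorem N_size {m r : ℕ} (E₀ E : SC K) (c₀ a₁ : ℕ) (hOK : N_OK nd E₀ E a₁) (D : ℕ) (C₁ : ℝ)
    (hC₁ : N_C1 N D c₀ ≤ C₁) (P : Fin m → A.Pts K) (j : Fin m → ℕ) (t : Fin m → K)
    (hP : ∀ i, nd.Good (P i)) (α β : Fin m → Fin r → MvPolynomial (Fin (N + 1)) K)
    (hα : ∀ i l s, (α i l).degreeOf s ≤ D) (hβ : ∀ i l s, (β i l).degreeOf s ≤ D)
    (hβ0 : ∀ i l, eval (nd.y (P i)) (β i l) ≠ 0) (F : MvPolynomial (VF m n) K) (T : ℝ)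
    (hvan : ∀ l, Van nd j (fun i => α i l) (fun i => β i l) T F)
    {L : Type u} [Field L] [Algebra K L] (Q : A.Pts L)
    (hQ : nd.Good Q) (ζ : Fin m × Option (Fin n) → L) (v : AbsoluteValue L ℝ)
    (hζ : ∀ p, v (ζ p) ≤ 1)
    (y η : Fin m → Fin (N + 1) → PowerSeries L)
    (hB : ∀ i, N_B nd E₀ c₀ (P i) (4 ^ j i) (fun k => ζ (i, some k)) (A.mu (j i) (nd.y Q))
      (nd.s (A.img (Algebra.ofId K L) (P i) - 2 ^ j i • Q)) (y i) (η i))
    (hgood : ∀ i, nd.Good (A.img (Algebra.ofId K L) (P i) - 2 ^ j i • Q))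
    (hrow : ∀ i, A.x (A.img (Algebra.ofId K L) (P i) - 2 ^ (j i + 1) • Q) A.b₀ ≠ 0)
    (ρ : ℝ) (hρ0 : 0 ≤ ρ)
    (hρ : ∀ i, ρ ^ 4 ^ j i * (E.k v * mq v (nd.s (A.img (Algebra.ofId K L) (P i) -
      2 ^ j i • Q))) ≤ Real.exp (- (4 ^ j i * tg nd E C₁ j P t α β v)) *
        Real.exp (- (C₁ * N_L nd E v (P i) (t i) (α i) (β i)))) (N₁ : ℕ) :
    PN v ρ N₁ (vl nd j t (nd.y Q) ζ η F) ≤ NV v (MvPolynomial.map (algebraMap K L) F) *
      (∏ s, (cst v 2 * N_Bs E a₁ v t (nd.s Q)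
        (fun i => nd.s (A.img (Algebra.ofId K L) (P i) - 2 ^ j i • Q)) s) ^ F.degreeOf s) *
        Real.exp (- (T * tg nd E C₁ j P t α β v)) := by
  classical
  obtain ⟨g, hg⟩ : ∃ g, g = tg nd E C₁ j P t α β v := ⟨_, rfl⟩
  have hg0 : 0 ≤ g := by rw [hg]; exact N_tg_nonneg nd E C₁ j P t α β v
  have hC₁0 : 0 ≤ C₁ := (N_C1_nonneg N D c₀).trans hC₁
  obtain ⟨hE, hE3, hsz⟩ := hOK L v
  have hc2 : 1 ≤ cst v 2 := one_le_cst v (by norm_num)
  have hSN := SN_PN v hρ0 N₁
  obtain ⟨q, hq⟩ : ∃ q : Fin m → Fin n → L,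
    q = fun i => nd.s (A.img (Algebra.ofId K L) (P i) - 2 ^ j i • Q) := ⟨_, rfl⟩
  have hqi : ∀ i, nd.s (A.img (Algebra.ofId K L) (P i) - 2 ^ j i • Q) = q i := fun i => by
    rw [hq]
  simp only [hqi] at hρ
  have hB' : ∀ i, N_B nd E₀ c₀ (P i) (4 ^ j i) (fun k => ζ (i, some k)) (A.mu (j i) (nd.y Q))
      (q i) (y i) (η i) := fun i => by
    rw [← hqi i]
    exact hB i
  rw [← hg] at hρ ⊢
  have hδ : ∀ i, eval (nd.s (P i)) nd.δ ≠ 0 := fun i => (hP i).2
  have hEq1 : ∀ i, 1 ≤ E.k v * mq v (q i) := fun i =>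
    one_le_mul_of_one_le_of_one_le (E.one_le v) (N_one_le_mq v _)
  -- the radius
  have hρw : ∀ i, ρ ^ 4 ^ j i ≤ Real.exp (- (4 ^ j i * g)) *
      Real.exp (- (C₁ * N_L nd E v (P i) (t i) (α i) (β i))) := fun i =>
    (le_mul_of_one_le_right (pow_nonneg hρ0 _) (hEq1 i)).trans (hρ i)
  have hexpg : ∀ i, Real.exp (- (4 ^ j i * g)) ≤ 1 := fun i =>
    Real.exp_le_one_iff.2 (neg_nonpos.2 (mul_nonneg (by positivity) hg0))
  have hexpL : ∀ i, Real.exp (- (C₁ * N_L nd E v (P i) (t i) (α i) (β i))) ≤ 1 := fun i =>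
    Real.exp_le_one_iff.2 (neg_nonpos.2 (mul_nonneg hC₁0 (N_L_nonneg nd E v _ _ _ _)))
  have hρ1 : Fin m → ρ ≤ 1 := fun i => by
    have h1 : ρ ^ 4 ^ j i ≤ 1 := (hρw i).trans (mul_le_one₀ (hexpg i) (Real.exp_pos _).le
      (hexpL i))
    exact (pow_le_one_iff_of_nonneg hρ0 (by positivity)).1 h1
  -- the sizes of `η`
  have hη : ∀ i b, PN v ρ N₁ (η i b) ≤ E.k v * mq v (q i) := by
    intro i b
    have h1 : ρ ^ 4 ^ j i * (E₀.k v * mq v (q i)) ≤ rdP nd E₀ c₀ v (P i) := by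
      calc ρ ^ 4 ^ j i * (E₀.k v * mq v (q i)) ≤ ρ ^ 4 ^ j i * (E.k v * mq v (q i)) :=
            mul_le_mul_of_nonneg_left (mul_le_mul_of_nonneg_right hE
              (zero_le_one.trans (N_one_le_mq v _))) (pow_nonneg hρ0 _)
        _ ≤ Real.exp (- (4 ^ j i * g)) *
            Real.exp (- (C₁ * N_L nd E v (P i) (t i) (α i) (β i))) := hρ i
        _ ≤ Real.exp (- (C₁ * N_L nd E v (P i) (t i) (α i) (β i))) :=
            mul_le_of_le_one_left (Real.exp_pos _).le (hexpg i)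
        _ ≤ Real.exp (- (C₁ * N_l0 nd E v (P i) (t i))) := by
            rw [Real.exp_le_exp, neg_le_neg_iff]
            exact mul_le_mul_of_nonneg_left (N_l0_le_L nd E v _ _ _ _) hC₁0
        _ ≤ _ := N_rd nd E₀ E c₀ v hE D C₁ hC₁ (P i) (t i) (hδ i)
    exact ((hB' i).seta v ρ hρ0 h1 b N₁).trans (mul_le_mul_of_nonneg_right hE
      (zero_le_one.trans (N_one_le_mq v _)))
  have hηs : ∀ i, PN v ρ N₁ (aeval (η i) nd.θ) ≤ E.k v * (E.k v * mq v (q i)) ^ a₁ ∧
      ∀ k : Fin n, PN v ρ N₁ (lf (nd.l k.succ) (η i)) ≤ E.k v * (E.k v * mq v (q i)) ^ a₁ :=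
    fun i => hsz (PowerSeries L) (fun f => PN v ρ N₁ f) hSN (η i) _ (hEq1 i) (hη i)
  have hNV : 0 ≤ NV v (MvPolynomial.map (algebraMap K L) F) :=
    (v.nonneg _).trans (coeff_le_NV v _ 0)
  rcases hg0.lt_or_eq with hgp | hgz
  · -- the gain
    obtain ⟨l, hl⟩ := N_tg_pos nd E C₁ j P t α β v (by rw [← hg]; exact hgp)
    rw [← hg] at hl
    obtain ⟨gg, hgg⟩ : ∃ gg : Fin m → PowerSeries L,
      gg = fun i => aeval (y i) (α i l) * (aeval (y i) (β i l))⁻¹ := ⟨_, rfl⟩
    obtain ⟨ξ, hξ⟩ : ∃ ξ : Fin m → PowerSeries L,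
      ξ = fun i => PowerSeries.C (algebraMap K L (t i)) +
        PowerSeries.C (ζ (i, none)) * PowerSeries.X ^ 4 ^ j i - gg i := ⟨_, rfl⟩
    have hξs : ∀ i, PN v ρ N₁ (ξ i) ≤ Real.exp (- (4 ^ j i * g)) := by
      intro i
      rw [hξ]
      beta_reduce
      rw [hgg]
      refine N_blk nd E₀ E c₀ v hE hE3 D C₁ hC₁ (P i) (t i) (α i l) (β i l) (hα i l) (hβ i l)
        (hδ i) (hβ0 i l) (4 ^ j i) (by positivity) (y i) (hB' i).blk.const (hB' i).form
        ((hB' i).rad v) ((hB' i).sy v) (ζ (i, none)) (hζ _)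
        (mul_nonneg (by positivity) hg0) (hl i) ρ hρ0 ((hρw i).trans ?_) N₁
      refine mul_le_mul_of_nonneg_left ?_ (Real.exp_pos _).le
      rw [Real.exp_le_exp, neg_le_neg_iff]
      exact mul_le_mul_of_nonneg_left (N_lossP_le_L nd E v _ _ _ _ l) hC₁0
    have hggs : ∀ i, PN v ρ N₁ (gg i) ≤
        cst v 2 * (cst v 2 * max 1 (v (algebraMap K L (t i)))) := by
      intro i
      refine N_blk_size v hρ0 (hρ1 i) (4 ^ j i) N₁ (gg i) (algebraMap K L (t i)) (ζ (i, none))
        (hζ _) ?_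
      have h1 := (hξs i).trans (hexpg i)
      rw [hξ] at h1
      exact h1
    have hcoef : ∀ k : ℕ, (k : ℝ) < T → PowerSeries.coeff k (aeval (fun s =>
        (PowerSeries.C (vN nd (fun a => (PowerSeries.C (nd.y Q a) : PowerSeries L)) η gg s) +
        PowerSeries.C (vf (fun _ => (0 : PowerSeries L)) (fun _ => 0) (fun _ => 0) ξ s) *
        PowerSeries.X ^ (vf (fun _ => (0 : ℕ)) (fun _ => 0) (fun _ => 0)
          (fun i => 4 ^ j i) s) : PowerSeries (PowerSeries L))) F) = 0 := by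
      intro k hk
      refine N_van nd F (fun a => (PowerSeries.C (nd.y Q a) : PowerSeries L)) η gg ξ
        (fun i => 4 ^ j i) T (fun μ hμ => ?_) k hk
      rw [hgg]
      exact N_vanL nd E₀ c₀ P j hP (fun i => α i l) (fun i => β i l) (fun i => hβ0 i l) F T
        (hvan l) Q hQ ζ y η hB hgood hrow μ hμ
    have hgain := N_gain (K := K) hSN F
      (vN nd (fun a => (PowerSeries.C (nd.y Q a) : PowerSeries L)) η gg)
      (vf (fun _ => (0 : PowerSeries L)) (fun _ => 0) (fun _ => 0) ξ)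
      (vf (fun _ => (0 : ℕ)) (fun _ => 0) (fun _ => 0) (fun i => 4 ^ j i)) T hcoef
      (N_Bs E a₁ v t (nd.s Q) q) (N_Bs_one_le E a₁ v t (nd.s Q) q) (fun s => by
        cases s with
        | x a =>
          show PN v ρ N₁ (lf (nd.l a.succ) fun a => (PowerSeries.C (nd.y Q a) :
            PowerSeries L)) ≤ max 1 (v (nd.s Q a))
          rw [N_lf_C, PN_C]
          exact le_max_right _ _
        | th i => exact (hηs i).1
        | z p => exact (hηs p.1).2 p.2
        | u i => exact hggs i) (lam := Real.exp (-g)) (Real.exp_pos _)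
      (Real.exp_le_one_iff.2 (neg_nonpos.2 hg0)) (fun s => by
        have h0 : ∀ k : ℕ, PN v ρ N₁ (0 : PowerSeries L) ≤ Real.exp (-g) ^ k := fun k => by
          have h1 : PN v ρ N₁ (0 : PowerSeries L) = 0 := hSN.zero
          rw [h1]
          exact pow_nonneg (Real.exp_pos _).le _
        cases s with
        | x a => exact h0 _
        | th i => exact h0 _
        | z p => exact h0 _
        | u i =>
          show PN v ρ N₁ (ξ i) ≤ Real.exp (-g) ^ 4 ^ j i
          refine (hξs i).trans (le_of_eq ?_)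
          rw [← Real.exp_nat_mul]
          push_cast
          ring_nf)
    have hvl : vl nd j t (nd.y Q) ζ η F = aeval (fun s =>
        vN nd (fun a => (PowerSeries.C (nd.y Q a) : PowerSeries L)) η gg s +
        vf (fun _ => (0 : PowerSeries L)) (fun _ => 0) (fun _ => 0) ξ s) F := by
      unfold vl
      congr 2
      funext s
      cases s with
      | x a => exact (add_zero _).symm
      | th i => exact (add_zero _).symm
      | z p => exact (add_zero _).symm
      | u i =>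
        show PowerSeries.C (algebraMap K L (t i)) +
          PowerSeries.C (ζ (i, none)) * PowerSeries.X ^ 4 ^ j i = gg i + ξ i
        rw [hξ]
        ring
    rw [hvl]
    refine hgain.trans (le_of_eq ?_)
    rw [← Real.exp_mul, hq]
    congr 2
    ring
  · -- no gain
    rw [← hgz, mul_zero, neg_zero, Real.exp_zero, mul_one, ← hq]
    unfold vl
    refine (hSN.aeval_le' (K := K) F (fun s => F.degreeOf s) (fun s => le_rfl) _).trans ?_
    refine mul_le_mul_of_nonneg_left ?_ hNV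
    refine Finset.prod_le_prod (fun s _ => pow_nonneg (zero_le_one.trans (le_max_left _ _)) _)
      fun s _ => pow_le_pow_left₀ (zero_le_one.trans (le_max_left _ _)) ?_ _
    have hB1 := N_Bs_one_le E a₁ v t (nd.s Q) q s
    refine max_le (one_le_mul_of_one_le_of_one_le hc2 hB1) ?_
    refine le_trans ?_ (le_mul_of_one_le_left (zero_le_one.trans hB1) hc2)
    cases s with
    | x a =>
      show PN v ρ N₁ (lf (nd.l a.succ) fun a => (PowerSeries.C (nd.y Q a) :
        PowerSeries L)) ≤ max 1 (v (nd.s Q a))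
      rw [N_lf_C, PN_C]
      exact le_max_right _ _
    | th i => exact (hηs i).1
    | z p => exact (hηs p.1).2 p.2
    | u i =>
      show PN v ρ N₁ (PowerSeries.C (algebraMap K L (t i)) +
          PowerSeries.C (ζ (i, none)) * PowerSeries.X ^ 4 ^ j i) ≤
          cst v 2 * (cst v 2 * max 1 (v (algebraMap K L (t i))))
      have hm1 : (1 : ℝ) ≤ max 1 (v (algebraMap K L (t i))) := le_max_left _ _
      refine hSN.add_le_cst ?_ ?_
      · show PN v ρ N₁ (PowerSeries.C (algebraMap K L (t i))) ≤ _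
        rw [PN_C]
        exact (le_max_right _ _).trans (le_mul_of_one_le_left (zero_le_one.trans hm1) hc2)
      · refine le_trans ?_ (one_le_mul_of_one_le_of_one_le hc2 hm1)
        refine (hSN.mul _ _).trans ?_
        have h2 : PN v ρ N₁ (PowerSeries.C (ζ (i, none))) ≤ 1 := by rw [PN_C]; exact hζ _
        have h3 : PN v ρ N₁ (PowerSeries.X ^ 4 ^ j i) ≤ 1 :=
          (hSN.pow_le _ _).trans (pow_le_one₀ (hSN.nonneg _)
            ((PA_X_le (SN_self v) hρ0 N₁).trans (hρ1 i)))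
        exact mul_le_one₀ h2 (hSN.nonneg _) h3

end

end Pool.Agent.Lib.MP_17a322_nt.VP
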