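import Pool.Agent.Lib.MP_17a322_nt.VN.L1p
import Pool.Agent.Lib.MP_17a322_nt.VP.N8

/-!
VP, numerical theorem: the product formula.
-/

universe u

namespace Pool.Agent.Lib.MP_17a322_nt.VP

open MvPolynomial Height
open Pool.Agent.Lib.MP_17a322_nt.RO
open Pool.Agent.Lib.MP_17a322_nt.VJ
open Pool.Agent.Lib.MP_17a322_nt.VN
open Pool.Agent.Lib.MP_17a322_nt.VA

theorem N_FS_mq {L : Type*} [Field L] [AdmissibleAbsValues L] {ι : Type*} [Fintype ι]
    (q : ι → L) : FS fun v : AbsoluteValue L ℝ => Real.log (mq v q) := by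
  rcases isEmpty_or_nonempty ι with h | h
  · have h1 : ∀ v : AbsoluteValue L ℝ, mq v q = 1 := by
      intro v
      unfold mq
      rw [Real.iSup_of_isEmpty]
      exact max_eq_left zero_le_one
    simp only [h1, Real.log_one]
    unfold FS
    simp
  · exact FS_log_mq q

theorem N_root {L : Type*} [Field L] (v : AbsoluteValue L ℝ) {ζ : L}
    (h : ∃ k : ℕ, 0 < k ∧ ζ ^ k = 1) : v ζ ≤ 1 := by
  obtain ⟨k, hk, h1⟩ := h
  have h2 : v ζ ^ k = 1 := by rw [← map_pow, h1, map_one]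
  exact ((pow_eq_one_iff_of_nonneg (v.nonneg _) hk.ne').1 h2).le

section

variable {K : Type u} [Field K] {N : ℕ} {A : AV K N} {n e : ℕ} (nd : Noe A n e)

/-- The logarithms of the bounds of the variables. -/
noncomputable def N_W {m : ℕ} (E : SC K) (a₁ : ℕ) {L : Type u} [Field L] [Algebra K L]
    (v : AbsoluteValue L ℝ) (t : Fin m → K) (sQ : Fin n → L) (q : Fin m → Fin n → L) :
    VF m n → ℝ :=
  vf (fun a => Real.log (cst v 2) + Real.log (max 1 (v (sQ a))))
    (fun i => Real.log (cst v 2) + (Real.log (E.k v) +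
      a₁ * (Real.log (E.k v) + Real.log (mq v (q i)))))
    (fun p => Real.log (cst v 2) + (Real.log (E.k v) +
      a₁ * (Real.log (E.k v) + Real.log (mq v (q p.1)))))
    fun i => Real.log (cst v 2) + (Real.log (cst v 2) + (Real.log (cst v 2) +
      Real.log (max 1 (v (algebraMap K L (t i))))))

theorem N_W_eq {m : ℕ} (E : SC K) (a₁ : ℕ) {L : Type u} [Field L] [Algebra K L]
    (v : AbsoluteValue L ℝ) (t : Fin m → K) (sQ : Fin n → L) (q : Fin m → Fin n → L)
    (s : VF m n) : Real.log (cst v 2 * N_Bs E a₁ v t sQ q s) = N_W E a₁ v t sQ q s := by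
  have hE := (E.pos v).ne'
  have hc : cst v 2 ≠ 0 := (zero_lt_one.trans_le (one_le_cst v (by norm_num))).ne'
  have hm : ∀ x : ℝ, max 1 x ≠ 0 := fun x => (lt_max_of_lt_left one_pos).ne'
  have hq : ∀ i, mq v (q i) ≠ 0 := fun i => (mq_posB v _).ne'
  have hB := (zero_lt_one.trans_le (N_Bs_one_le E a₁ v t sQ q s)).ne'
  rw [Real.log_mul hc hB]
  cases s with
  | x a => rfl
  | th i =>
    show Real.log (cst v 2) + Real.log (E.k v * (E.k v * mq v (q i)) ^ a₁) = _
    rw [Real.log_mul hE (pow_ne_zero _ (mul_ne_zero hE (hq i))), Real.log_pow,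
      Real.log_mul hE (hq i)]
    rfl
  | z p =>
    show Real.log (cst v 2) + Real.log (E.k v * (E.k v * mq v (q p.1)) ^ a₁) = _
    rw [Real.log_mul hE (pow_ne_zero _ (mul_ne_zero hE (hq p.1))), Real.log_pow,
      Real.log_mul hE (hq p.1)]
    rfl
  | u i =>
    show Real.log (cst v 2) +
      Real.log (cst v 2 * (cst v 2 * max 1 (v (algebraMap K L (t i))))) = _
    rw [Real.log_mul hc (mul_ne_zero hc (hm _)), Real.log_mul hc (hm _)]
    rfl

end

section

variable {K : Type u} [Field K] [NumberField K] {N : ℕ} {A : AV K N} {n e : ℕ} (nd : Noe A n e)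

/-- The global bounds of the logarithms of the bounds of the variables. -/
noncomputable def N_G {m : ℕ} (E : SC K) (a₁ : ℕ) {L : Type u} [Field L] [NumberField L]
    [Algebra K L] (t : Fin m → K) (sQ : Fin n → L) (q : Fin m → Fin n → L) : VF m n → ℝ :=
  vf (fun a => Module.finrank ℚ L * Real.log 2 + logHeight₁ (sQ a))
    (fun i => Module.finrank ℚ L * Real.log 2 +
      (gs (fun v : AbsoluteValue L ℝ => Real.log (E.k v)) +
      a₁ * (gs (fun v : AbsoluteValue L ℝ => Real.log (E.k v)) +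
        gs (fun v : AbsoluteValue L ℝ => Real.log (mq v (q i))))))
    (fun p => Module.finrank ℚ L * Real.log 2 +
      (gs (fun v : AbsoluteValue L ℝ => Real.log (E.k v)) +
      a₁ * (gs (fun v : AbsoluteValue L ℝ => Real.log (E.k v)) +
        gs (fun v : AbsoluteValue L ℝ => Real.log (mq v (q p.1))))))
    fun i => Module.finrank ℚ L * Real.log 2 + (Module.finrank ℚ L * Real.log 2 +
      (Module.finrank ℚ L * Real.log 2 + logHeight₁ (algebraMap K L (t i))))

omit [NumberField K] in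
theorem N_GLA_W {m : ℕ} (E : SC K) (a₁ : ℕ) {L : Type u} [Field L] [NumberField L]
    [Algebra K L] (t : Fin m → K) (sQ : Fin n → L) (q : Fin m → Fin n → L) (s : VF m n) :
    GLA (fun v : AbsoluteValue L ℝ => N_W E a₁ v t sQ q s) (N_G E a₁ t sQ q s) := by
  have gC : GLA (fun v : AbsoluteValue L ℝ => Real.log (cst v 2))
      (Module.finrank ℚ L * Real.log 2) := by
    refine ⟨FS_log_cst _, ?_⟩
    have h1 := gs_log_cst (L := L) (n := 2) (by norm_num)
    rw [NumberField.totalWeight_eq_finrank] at h1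
    exact h1
  have gK : GLA (fun v : AbsoluteValue L ℝ => Real.log (E.k v))
      (gs (fun v : AbsoluteValue L ℝ => Real.log (E.k v))) := ⟨E.FS_log L, le_rfl⟩
  have gQ : ∀ i, GLA (fun v : AbsoluteValue L ℝ => Real.log (mq v (q i)))
      (gs (fun v : AbsoluteValue L ℝ => Real.log (mq v (q i)))) := fun i =>
    ⟨N_FS_mq _, le_rfl⟩
  have gM : ∀ x : L, GLA (fun v : AbsoluteValue L ℝ => Real.log (max 1 (v x)))
      (logHeight₁ x) := fun x => ⟨FS_log_max _, (gs_log_max _).le⟩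
  cases s with
  | x a => exact GLA_add gC (gM _)
  | th i => exact GLA_add gC (GLA_add gK (GLA_mul a₁ (GLA_add gK (gQ i))))
  | z p => exact GLA_add gC (GLA_add gK (GLA_mul a₁ (GLA_add gK (gQ p.1))))
  | u i => exact GLA_add gC (GLA_add gC (GLA_add gC (gM _)))

/-- The product formula for the coefficient. -/
theorem N_prod {m r : ℕ} (E₀ E : SC K) (c₀ a₁ : ℕ) (hOK : N_OK nd E₀ E a₁) (D : ℕ) (C₁ : ℝ)
    (hC₁ : N_C1 N D c₀ ≤ C₁) (P : Fin m → A.Pts K) (j : Fin m → ℕ) (t : Fin m → K)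
    (hP : ∀ i, nd.Good (P i)) (α β : Fin m → Fin r → MvPolynomial (Fin (N + 1)) K)
    (hα : ∀ i l s, (α i l).degreeOf s ≤ D) (hβ : ∀ i l s, (β i l).degreeOf s ≤ D)
    (hβ0 : ∀ i l, eval (nd.y (P i)) (β i l) ≠ 0) (F : MvPolynomial (VF m n) K) (hF : F ≠ 0)
    (T : ℝ) (hvan : ∀ l, Van nd j (fun i => α i l) (fun i => β i l) T F)
    {L : Type u} [Field L] [NumberField L] [Algebra K L] (Q : A.Pts L)
    (hQ : nd.Good Q) (ζ : Fin m × Option (Fin n) → L) (hζ : ∀ p, ∃ k : ℕ, 0 < k ∧ ζ p ^ k = 1)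
    (y η : Fin m → Fin (N + 1) → PowerSeries L)
    (hB : ∀ i, N_B nd E₀ c₀ (P i) (4 ^ j i) (fun k => ζ (i, some k)) (A.mu (j i) (nd.y Q))
      (nd.s (A.img (Algebra.ofId K L) (P i) - 2 ^ j i • Q)) (y i) (η i))
    (hgood : ∀ i, nd.Good (A.img (Algebra.ofId K L) (P i) - 2 ^ j i • Q))
    (hrow : ∀ i, A.x (A.img (Algebra.ofId K L) (P i) - 2 ^ (j i + 1) • Q) A.b₀ ≠ 0)
    (a : ℕ) (ha : PowerSeries.coeff a (vl nd j t (nd.y Q) ζ η F) ≠ 0)
    (hgF : FS fun v : AbsoluteValue L ℝ => tg nd E C₁ j P t α β v)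
    (hLF : ∀ i, FS fun v : AbsoluteValue L ℝ => N_L nd E v (P i) (t i) (α i) (β i)) :
    0 ≤ (Module.finrank K L * nh F +
      ∑ s, (F.degreeOf s : ℝ) * N_G E a₁ t (nd.s Q)
        (fun i => nd.s (A.img (Algebra.ofId K L) (P i) - 2 ^ j i • Q)) s) -
      T * gs (fun v : AbsoluteValue L ℝ => tg nd E C₁ j P t α β v) +
      a * (gs (fun v : AbsoluteValue L ℝ => tg nd E C₁ j P t α β v) +
        ∑ i, ((4 : ℝ) ^ j i)⁻¹ *
          (C₁ * gs (fun v : AbsoluteValue L ℝ => N_L nd E v (P i) (t i) (α i) (β i)) +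
            (gs (fun v : AbsoluteValue L ℝ => Real.log (E.k v)) +
            gs (fun v : AbsoluteValue L ℝ => Real.log (mq v
              (nd.s (A.img (Algebra.ofId K L) (P i) - 2 ^ j i • Q))))))) := by
  classical
  obtain ⟨q, hq⟩ : ∃ q : Fin m → Fin n → L,
    q = fun i => nd.s (A.img (Algebra.ofId K L) (P i) - 2 ^ j i • Q) := ⟨_, rfl⟩
  have hqi : ∀ i, nd.s (A.img (Algebra.ofId K L) (P i) - 2 ^ j i • Q) = q i := fun i => by
    rw [hq]
  have hC₁0 : 0 ≤ C₁ := (N_C1_nonneg N D c₀).trans hC₁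
  simp only [hqi]
  -- the radius
  obtain ⟨lr, hlr⟩ : ∃ lr : AbsoluteValue L ℝ → ℝ, lr = fun v => tg nd E C₁ j P t α β v +
    ∑ i, ((4 : ℝ) ^ j i)⁻¹ * (C₁ * N_L nd E v (P i) (t i) (α i) (β i) +
      (Real.log (E.k v) + Real.log (mq v (q i)))) := ⟨_, rfl⟩
  have hterm : ∀ (v : AbsoluteValue L ℝ) i, 0 ≤ C₁ * N_L nd E v (P i) (t i) (α i) (β i) +
      (Real.log (E.k v) + Real.log (mq v (q i))) := fun v i =>
    add_nonneg (mul_nonneg hC₁0 (N_L_nonneg nd E v _ _ _ _))
      (add_nonneg (Real.log_nonneg (E.one_le v)) (Real.log_nonneg (N_one_le_mq v _)))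
  have hinv : ∀ i, 0 ≤ ((4 : ℝ) ^ j i)⁻¹ := fun i => inv_nonneg.2 (pow_nonneg (by norm_num) _)
  have hlr0 : ∀ v, 0 ≤ lr v := by
    intro v
    rw [hlr]
    exact add_nonneg (N_tg_nonneg nd E C₁ j P t α β v)
      (Finset.sum_nonneg fun i _ => mul_nonneg (hinv i) (hterm v i))
  obtain ⟨rv, hrv⟩ : ∃ rv : AbsoluteValue L ℝ → ℝ, rv = fun v => Real.exp (- lr v) := ⟨_, rfl⟩
  have hlogr : ∀ v, Real.log (rv v) = (-1 : ℝ) * lr v := by
    intro v
    rw [hrv]
    beta_reduce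
    rw [Real.log_exp, neg_one_mul]
  have hrad : ∀ v i, rv v ^ 4 ^ j i * (E.k v * mq v (q i)) ≤
      Real.exp (- (4 ^ j i * tg nd E C₁ j P t α β v)) *
        Real.exp (- (C₁ * N_L nd E v (P i) (t i) (α i) (β i))) := by
    intro v i
    have h4 : (0 : ℝ) < 4 ^ j i := by positivity
    have h1 : E.k v * mq v (q i) = Real.exp (Real.log (E.k v) + Real.log (mq v (q i))) := by
      rw [Real.exp_add, Real.exp_log (E.pos v), Real.exp_log (mq_posB v _)]
    rw [h1, hrv]
    beta_reduce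
    rw [← Real.exp_nat_mul, ← Real.exp_add, ← Real.exp_add, Real.exp_le_exp]
    have h2 : ((4 : ℝ) ^ j i)⁻¹ * (C₁ * N_L nd E v (P i) (t i) (α i) (β i) +
        (Real.log (E.k v) + Real.log (mq v (q i)))) ≤
        ∑ i, ((4 : ℝ) ^ j i)⁻¹ * (C₁ * N_L nd E v (P i) (t i) (α i) (β i) +
        (Real.log (E.k v) + Real.log (mq v (q i)))) :=
      Finset.single_le_sum (f := fun i => ((4 : ℝ) ^ j i)⁻¹ *
        (C₁ * N_L nd E v (P i) (t i) (α i) (β i) +
        (Real.log (E.k v) + Real.log (mq v (q i)))))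
        (fun i _ => mul_nonneg (hinv i) (hterm v i)) (Finset.mem_univ i)
    have h3 := mul_le_mul_of_nonneg_left h2 h4.le
    rw [← mul_assoc, mul_inv_cancel₀ h4.ne', one_mul] at h3
    have h5 : lr v = tg nd E C₁ j P t α β v +
      ∑ i, ((4 : ℝ) ^ j i)⁻¹ * (C₁ * N_L nd E v (P i) (t i) (α i) (β i) +
      (Real.log (E.k v) + Real.log (mq v (q i)))) := by rw [hlr]
    rw [h5]
    push_cast
    linarith
  -- the bound
  obtain ⟨G, hG⟩ : ∃ G : AbsoluteValue L ℝ → ℝ, G = fun v =>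
    (Real.log (NV v (MvPolynomial.map (algebraMap K L) F)) +
      ∑ s, (F.degreeOf s : ℝ) * N_W E a₁ v t (nd.s Q) q s) +
      (-T) * tg nd E C₁ j P t α β v := ⟨_, rfl⟩
  have hFm : MvPolynomial.map (algebraMap K L) F ≠ 0 := fun h0 =>
    hF (MvPolynomial.map_injective _ (algebraMap K L).injective (h0.trans (map_zero _).symm))
  have hNVpos : ∀ v : AbsoluteValue L ℝ, 0 < NV v (MvPolynomial.map (algebraMap K L) F) := by
    intro v
    obtain ⟨μ, hμ⟩ := MvPolynomial.ne_zero_iff.1 hFm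
    exact (v.pos hμ).trans_le (coeff_le_NV v _ μ)
  have hBexp : ∀ v : AbsoluteValue L ℝ, NV v (MvPolynomial.map (algebraMap K L) F) *
      (∏ s, (cst v 2 * N_Bs E a₁ v t (nd.s Q) q s) ^ F.degreeOf s) *
        Real.exp (- (T * tg nd E C₁ j P t α β v)) = Real.exp (G v) := by
    intro v
    have hc : 0 < cst v 2 := zero_lt_one.trans_le (one_le_cst v (by norm_num))
    have hBs : ∀ s, 0 < cst v 2 * N_Bs E a₁ v t (nd.s Q) q s := fun s =>
      mul_pos hc (zero_lt_one.trans_le (N_Bs_one_le E a₁ v t (nd.s Q) q s))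
    have hprod : 0 < ∏ s, (cst v 2 * N_Bs E a₁ v t (nd.s Q) q s) ^ F.degreeOf s :=
      Finset.prod_pos fun s _ => pow_pos (hBs s) _
    have h1 : G v = Real.log (NV v (MvPolynomial.map (algebraMap K L) F) *
      (∏ s, (cst v 2 * N_Bs E a₁ v t (nd.s Q) q s) ^ F.degreeOf s) *
        Real.exp (- (T * tg nd E C₁ j P t α β v))) := by
      rw [Real.log_mul (mul_pos (hNVpos v) hprod).ne' (Real.exp_pos _).ne',
        Real.log_mul (hNVpos v).ne' hprod.ne', Real.log_exp,
        Real.log_prod fun s _ => (pow_pos (hBs s) _).ne', hG]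
      beta_reduce
      have h2 : ∀ s, Real.log ((cst v 2 * N_Bs E a₁ v t (nd.s Q) q s) ^ F.degreeOf s) =
          (F.degreeOf s : ℝ) * N_W E a₁ v t (nd.s Q) q s := by
        intro s
        rw [Real.log_pow, N_W_eq]
      rw [Finset.sum_congr rfl fun s _ => h2 s]
      ring
    rw [h1, Real.exp_log (mul_pos (mul_pos (hNVpos v) hprod) (Real.exp_pos _))]
  have hloc : ∀ v : AbsoluteValue L ℝ, PN v (rv v) a (vl nd j t (nd.y Q) ζ η F) ≤
      Real.exp (G v) := by
    intro v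
    rw [← hBexp v]
    have h1 := N_size nd E₀ E c₀ a₁ hOK D C₁ hC₁ P j t hP α β hα hβ hβ0 F T hvan Q hQ ζ v
      (fun p => N_root v (hζ p)) y η hB hgood hrow (rv v)
      (by rw [hrv]; exact (Real.exp_pos _).le) (fun i => by rw [hqi]; exact hrad v i) a
    simp only [hqi] at h1
    exact h1
  -- the sums over the places
  have gN : GLA (fun v : AbsoluteValue L ℝ =>
      Real.log (NV v (MvPolynomial.map (algebraMap K L) F))) (Module.finrank K L * nh F) :=
    ⟨FS_log_NV hFm, (nh_map (L := L) F).le⟩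
  have gT : GLA (fun v : AbsoluteValue L ℝ => (-T) * tg nd E C₁ j P t α β v)
      (-T * gs (fun v : AbsoluteValue L ℝ => tg nd E C₁ j P t α β v)) :=
    ⟨FS_const_mul _ hgF, (gs_const_mul _).le⟩
  have gE := GLA_add (GLA_add gN (GLA_sum Finset.univ fun s _ =>
    GLA_mul (F.degreeOf s) (N_GLA_W E a₁ t (nd.s Q) q s))) gT
  rw [← hG] at gE
  have hGlog : (fun v => Real.log (Real.exp (G v))) = G := by
    funext v
    rw [Real.log_exp]
  have hFlr : FS lr := by
    rw [hlr]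
    exact FS_add hgF (FS_sum _ fun i _ => FS_const_mul _ (FS_add (FS_const_mul _ (hLF i))
      (FS_add (E.FS_log L) (N_FS_mq _))))
  have hglr : gs lr = gs (fun v : AbsoluteValue L ℝ => tg nd E C₁ j P t α β v) +
        ∑ i, ((4 : ℝ) ^ j i)⁻¹ *
          (C₁ * gs (fun v : AbsoluteValue L ℝ => N_L nd E v (P i) (t i) (α i) (β i)) +
            (gs (fun v : AbsoluteValue L ℝ => Real.log (E.k v)) +
            gs (fun v : AbsoluteValue L ℝ => Real.log (mq v (q i))))) := by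
    have hFi : ∀ i, FS fun v : AbsoluteValue L ℝ => C₁ * N_L nd E v (P i) (t i) (α i) (β i) +
        (Real.log (E.k v) + Real.log (mq v (q i))) := fun i =>
      FS_add (FS_const_mul _ (hLF i)) (FS_add (E.FS_log L) (N_FS_mq _))
    rw [hlr, gs_add hgF (FS_sum _ fun i _ => FS_const_mul _ (hFi i)),
      gs_sum _ fun i _ => FS_const_mul _ (hFi i)]
    congr 1
    refine Finset.sum_congr rfl fun i _ => ?_
    rw [gs_const_mul, gs_add (FS_const_mul _ (hLF i)) (FS_add (E.FS_log L) (N_FS_mq _)),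
      gs_const_mul, gs_add (E.FS_log L) (N_FS_mq _)]
  have hfin := final_product a (vl nd j t (nd.y Q) ζ η F) (vl nd j t (nd.y Q) ζ η F) dvd_rfl ha
    rv (fun v => Real.exp (G v))
    (fun v _ => by
      rw [hrv]
      exact ⟨Real.exp_pos _, Real.exp_le_one_iff.2 (neg_nonpos.2 (hlr0 v))⟩)
    (by
      have h1 : (fun v => Real.log (rv v)) = fun v => (-1 : ℝ) * lr v := funext hlogr
      rw [h1]
      exact FS_const_mul _ hFlr)
    (by
      rw [hGlog]
      exact gE.1)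
    (fun v _ => hloc v)
  have h1 : (fun v => Real.log (rv v)) = fun v => (-1 : ℝ) * lr v := funext hlogr
  rw [hGlog, h1, gs_const_mul, hglr] at hfin
  have h2 := gE.2
  linarith

end

end Pool.Agent.Lib.MP_17a322_nt.VP
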