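import Pool.Agent.Lib.MP_17a322_nt.Mb

/-!
VP, numerical theorem: real numbers.
-/

namespace Pool.Agent.Lib.MP_17a322_nt.VP

theorem N11_e4 {C₁ CL tau eta c5 : ℝ} (hC₁0 : 0 ≤ C₁) (hCL : 0 ≤ CL) (htau : 0 ≤ tau)
    (hc5 : c5 = C₁ * CL + C₁ + 2) :
    C₁ * (CL * (1 + eta)) + C₁ * (tau + eta) + 2 * eta ≤ c5 * (1 + tau + eta) := by
  have k1 : 0 ≤ C₁ * CL * tau := mul_nonneg (mul_nonneg hC₁0 hCL) htau
  have k2 : c5 * (1 + tau + eta) = C₁ * (CL * (1 + eta)) + C₁ * (tau + eta) + 2 * eta +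
      (C₁ * CL * tau + C₁ + 2 * (1 + tau)) := by rw [hc5]; ring
  linarith

theorem N11_last {C₁ CL tau eta c5 d p h₀ r dK Ck C1 NL k q X : ℝ}
    (hd0 : 0 < d) (hp4 : 0 < p) (hh₀0 : 0 ≤ h₀) (hC₁0 : 0 ≤ C₁)
    (e4 : C₁ * (CL * (1 + eta)) + C₁ * (tau + eta) + 2 * eta ≤ c5 * (1 + tau + eta))
    (g4 : NL ≤ CL * (p + (1 + eta) * (p * h₀)) + (tau + eta) * (p * h₀) + r * p)
    (e2 : k ≤ d * (dK * Ck * p)) (e3 : q ≤ d * (2 * (eta * (p * h₀)) + C1 * p))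
    (hX : X = d * ((C₁ * (CL + r) + (dK * Ck + C1)) + c5 * (1 + tau + eta) * h₀)) :
    C₁ * (d * NL) + (k + q) ≤ p * X := by
  have g5 := mul_le_mul_of_nonneg_left (mul_le_mul_of_nonneg_left g4 hd0.le) hC₁0
  have e5 := mul_le_mul_of_nonneg_left e4 (mul_nonneg hd0.le (mul_nonneg hp4.le hh₀0))
  have e6 : C₁ * (d * (CL * (p + (1 + eta) * (p * h₀)) + (tau + eta) * (p * h₀) + r * p)) +
      (d * (dK * Ck * p) + d * (2 * (eta * (p * h₀)) + C1 * p)) =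
      p * (d * (C₁ * (CL + r) + (dK * Ck + C1))) + d * (p * h₀) *
        (C₁ * (CL * (1 + eta)) + C₁ * (tau + eta) + 2 * eta) := by ring
  have e7 : p * X = p * (d * (C₁ * (CL + r) + (dK * Ck + C1))) + d * (p * h₀) *
            (c5 * (1 + tau + eta)) := by rw [hX]; ring
  rw [e7]
  linarith

theorem N11_k {m n g M a NX J T G h₀ a₁ eta tau c1 c2 c3 c4 c5 C nh : ℝ} (hm0 : 0 ≤ m) (hn0 : 0 ≤ n)
    (hg0 : 0 ≤ g) (hM0 : 0 ≤ M) (ha0 : 0 ≤ a) (hNX : 0 ≤ NX) (hJ0 : 0 ≤ J) (hh : 0 ≤ h₀)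
    (htau : 0 ≤ tau) (heta : 0 ≤ eta)
    (hc10 : 0 ≤ c1) (hc20 : 0 ≤ c2) (hc30 : 0 ≤ c3) (hc40 : 0 ≤ c4) (hc50 : 0 ≤ c5)
    (hC : C = c1 + c2 + c3 + c4 + c5)
    (h : 0 ≤ (nh + (n * NX * (c1 + 2 * h₀) +
      m * (g + n * M) * (c2 + 2 * a₁ * eta * h₀) * J +
        m * (c3 + (tau + eta) * h₀) * J)) - T * G +
        a * (G + m * (c4 + c5 * (1 + tau + eta) * h₀))) :
    0 ≤ nh + n * NX * (C + 2 * h₀) +
        m * (g + n * M) * (C + 2 * a₁ * eta * h₀) * J +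
        m * (C + (tau + eta) * h₀) * J - T * G + a * (G + m * (C + C * (1 + tau + eta) * h₀)) := by
  have k1 : n * NX * (c1 + 2 * h₀) ≤ n * NX * (C + 2 * h₀) :=
    mul_le_mul_of_nonneg_left (by linarith) (mul_nonneg hn0 hNX)
  have k2 : m * (g + n * M) * (c2 + 2 * a₁ * eta * h₀) * J ≤
      m * (g + n * M) * (C + 2 * a₁ * eta * h₀) * J :=
    mul_le_mul_of_nonneg_right (mul_le_mul_of_nonneg_left (by linarith)
      (mul_nonneg hm0 (add_nonneg hg0 (mul_nonneg hn0 hM0)))) hJ0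
  have k3 : m * (c3 + (tau + eta) * h₀) * J ≤ m * (C + (tau + eta) * h₀) * J :=
    mul_le_mul_of_nonneg_right (mul_le_mul_of_nonneg_left (by linarith) hm0) hJ0
  have k5 : c4 + c5 * (1 + tau + eta) * h₀ ≤ C + C * (1 + tau + eta) * h₀ := by
    have k6 : c5 * (1 + tau + eta) * h₀ ≤ C * (1 + tau + eta) * h₀ :=
      mul_le_mul_of_nonneg_right (mul_le_mul_of_nonneg_right (by linarith) (by linarith)) hh
    linarith
  have k4 : a * (G + m * (c4 + c5 * (1 + tau + eta) * h₀)) ≤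
      a * (G + m * (C + C * (1 + tau + eta) * h₀)) :=
    mul_le_mul_of_nonneg_left (by linarith [mul_le_mul_of_nonneg_left k5 hm0]) ha0
  linarith

end Pool.Agent.Lib.MP_17a322_nt.VP
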