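import Pool.Agent.Lib.MP_17a322_nt.VP.N9
import Pool.Agent.Lib.MP_17a322_nt.VP.N10
import Pool.Agent.Lib.MP_17a322_nt.VA.LB7
import Pool.Agent.Lib.MP_17a322_nt.VP.N11n

/-!
VP, numerical theorem: the inequality over `K`.
-/

universe u

namespace Pool.Agent.Lib.MP_17a322_nt.VP

open MvPolynomial Height
open Pool.Agent.Lib.MP_17a322_nt.RO
open Pool.Agent.Lib.MP_17a322_nt.VJ
open Pool.Agent.Lib.MP_17a322_nt.VN
open Pool.Agent.Lib.MP_17a322_nt.VA

/-- Sums over the variables. -/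
theorem N_sum_VF {m n : ℕ} (f : VF m n → ℝ) :
    ∑ s, f s = ∑ a, f (VF.x a) + ∑ i, f (VF.th i) + ∑ p, f (VF.z p) + ∑ i, f (VF.u i) := by
  let ε : ((Fin n ⊕ Fin m) ⊕ (Fin m × Fin n)) ⊕ Fin m ≃ VF m n :=
    { toFun := Sum.elim (Sum.elim (Sum.elim VF.x VF.th) VF.z) VF.u
      invFun := fun s => match s with
        | VF.x a => Sum.inl (Sum.inl (Sum.inl a))
        | VF.th i => Sum.inl (Sum.inl (Sum.inr i))
        | VF.z p => Sum.inl (Sum.inr p)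
        | VF.u i => Sum.inr i
      left_inv := by
        rintro (((a | i) | p) | i) <;> rfl
      right_inv := by
        intro s
        cases s <;> rfl }
  rw [← Equiv.sum_comp ε f, Fintype.sum_sum_type, Fintype.sum_sum_type, Fintype.sum_sum_type]
  rfl

/-- The sum over the variables. -/
theorem N11_S {K : Type u} [Field K] {m n g M₀ J : ℕ} {j : Fin m → ℕ} {NX eta tau d h₀ c1 c2 c3 : ℝ}
    {a₁ : ℕ} (F : MvPolynomial (VF m n) K) (H : VF m n → ℝ) (hh₀0 : 0 ≤ h₀) (heta : 0 ≤ eta)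
    (htau : 0 ≤ tau) (hd0 : 0 < d) (hJ : ∀ i, j i ≤ J)
    (hdx : ∀ a, (F.degreeOf (VF.x a) : ℝ) ≤ NX) (hdth : ∀ i, F.degreeOf (VF.th i) ≤ g)
    (hdz : ∀ p, F.degreeOf (VF.z p) ≤ M₀ * 4 ^ (J - j p.1))
    (hdu : ∀ i, F.degreeOf (VF.u i) ≤ 4 ^ (J - j i))
    (hGx : ∀ b, H (VF.x b) ≤ d * (c1 + 2 * h₀))
    (hGq : ∀ i, H (VF.th i) ≤ d * ((c2 + 2 * a₁ * eta * h₀) * 4 ^ j i))
    (hGz : ∀ p : Fin m × Fin n, H (VF.z p) ≤ d * ((c2 + 2 * a₁ * eta * h₀) * 4 ^ j p.1))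
    (hGu : ∀ i, H (VF.u i) ≤ d * ((c3 + (tau + eta) * h₀) * 4 ^ j i))
    (hc10 : 0 ≤ c1) (hc20 : 0 ≤ c2) (hc30 : 0 ≤ c3) :
    ∑ s, (F.degreeOf s : ℝ) * H s ≤
      d * (n * NX * (c1 + 2 * h₀) + m * (g + n * M₀) * (c2 + 2 * a₁ * eta * h₀) * 4 ^ J +
        m * (c3 + (tau + eta) * h₀) * 4 ^ J) := by
  rw [N_sum_VF]
  obtain ⟨X, hX⟩ : ∃ X, X = c1 + 2 * h₀ := ⟨_, rfl⟩
  obtain ⟨Y, hY⟩ : ∃ Y, Y = c2 + 2 * a₁ * eta * h₀ := ⟨_, rfl⟩
  obtain ⟨Z, hZ⟩ : ∃ Z, Z = c3 + (tau + eta) * h₀ := ⟨_, rfl⟩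
  have hX0 : 0 ≤ X := by rw [hX]; positivity
  have hY0 : 0 ≤ Y := by rw [hY]; positivity
  have hZ0 : 0 ≤ Z := by rw [hZ]; positivity
  have hJJ : (0 : ℝ) ≤ 4 ^ J := pow_nonneg (by norm_num) J
  rw [← hX, ← hY, ← hZ]
  simp only [← hX, ← hY, ← hZ] at hGx hGq hGz hGu
  clear hX hY hZ hc10 hc20 hc30 hh₀0 heta htau
  have h4J : ∀ i, (4 : ℝ) ^ (J - j i) * 4 ^ j i = 4 ^ J := by
    intro i
    rw [← pow_add, Nat.sub_add_cancel (hJ i)]
  have s1 : ∑ b, (F.degreeOf (VF.x b) : ℝ) * H (VF.x b) ≤ n * (NX * (d * X)) := by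
    have hb : ∀ b ∈ (Finset.univ : Finset (Fin n)),
        (F.degreeOf (VF.x b) : ℝ) * H (VF.x b) ≤ NX * (d * X) := fun b _ =>
      (mul_le_mul_of_nonneg_left (hGx b) (Nat.cast_nonneg _)).trans
        (mul_le_mul_of_nonneg_right (hdx b) (mul_nonneg hd0.le hX0))
    refine (Finset.sum_le_sum hb).trans (le_of_eq ?_)
    rw [Finset.sum_const, Finset.card_univ, Fintype.card_fin, nsmul_eq_mul]
  have s2 : ∑ i, (F.degreeOf (VF.th i) : ℝ) * H (VF.th i) ≤ m * (g * (d * (Y * 4 ^ J))) := by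
    have hb : ∀ i ∈ (Finset.univ : Finset (Fin m)),
        (F.degreeOf (VF.th i) : ℝ) * H (VF.th i) ≤ g * (d * (Y * 4 ^ J)) := by
      intro i _
      refine (mul_le_mul_of_nonneg_left (hGq i) (Nat.cast_nonneg _)).trans ?_
      refine mul_le_mul (by exact_mod_cast hdth i) ?_
        (mul_nonneg hd0.le (mul_nonneg hY0 (pow_nonneg (by norm_num) _))) (Nat.cast_nonneg _)
      refine mul_le_mul_of_nonneg_left (mul_le_mul_of_nonneg_left ?_ hY0) hd0.le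
      exact pow_le_pow_right₀ (by norm_num) (hJ i)
    refine (Finset.sum_le_sum hb).trans (le_of_eq ?_)
    rw [Finset.sum_const, Finset.card_univ, Fintype.card_fin, nsmul_eq_mul]
  have s3 : ∑ p, (F.degreeOf (VF.z p) : ℝ) * H (VF.z p) ≤
      (m * n : ℕ) * (M₀ * (d * (Y * 4 ^ J))) := by
    have hb : ∀ p ∈ (Finset.univ : Finset (Fin m × Fin n)),
        (F.degreeOf (VF.z p) : ℝ) * H (VF.z p) ≤ M₀ * (d * (Y * 4 ^ J)) := by
      intro p _
      refine (mul_le_mul_of_nonneg_left (hGz p) (Nat.cast_nonneg _)).trans ?_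
      have h5 : (F.degreeOf (VF.z p) : ℝ) ≤ M₀ * 4 ^ (J - j p.1) := by exact_mod_cast hdz p
      refine (mul_le_mul_of_nonneg_right h5
        (mul_nonneg hd0.le (mul_nonneg hY0 (pow_nonneg (by norm_num) _)))).trans (le_of_eq ?_)
      rw [← h4J p.1]
      ring
    refine (Finset.sum_le_sum hb).trans (le_of_eq ?_)
    rw [Finset.sum_const, Finset.card_univ, Fintype.card_prod, Fintype.card_fin,
      Fintype.card_fin, nsmul_eq_mul]
  have s4 : ∑ i, (F.degreeOf (VF.u i) : ℝ) * H (VF.u i) ≤ m * (d * (Z * 4 ^ J)) := by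
    have hb : ∀ i ∈ (Finset.univ : Finset (Fin m)),
        (F.degreeOf (VF.u i) : ℝ) * H (VF.u i) ≤ d * (Z * 4 ^ J) := by
      intro i _
      refine (mul_le_mul_of_nonneg_left (hGu i) (Nat.cast_nonneg _)).trans ?_
      have h5 : (F.degreeOf (VF.u i) : ℝ) ≤ 4 ^ (J - j i) := by exact_mod_cast hdu i
      refine (mul_le_mul_of_nonneg_right h5
        (mul_nonneg hd0.le (mul_nonneg hZ0 (pow_nonneg (by norm_num) _)))).trans (le_of_eq ?_)
      rw [← h4J i]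
      ring
    refine (Finset.sum_le_sum hb).trans (le_of_eq ?_)
    rw [Finset.sum_const, Finset.card_univ, Fintype.card_fin, nsmul_eq_mul]
  refine (add_le_add (add_le_add (add_le_add s1 s2) s3) s4).trans (le_of_eq ?_)
  rw [Nat.cast_mul]
  ring

section

variable {K : Type u} [Field K] [NumberField K] {N : ℕ} {A : AV K N} {n e : ℕ} (nd : Noe A n e)

/-- The heights of the Noether coordinates. -/
theorem N_qv : ∃ C : ℝ, 0 ≤ C ∧ ∀ (L : Type u) [Field L] [NumberField L] [Algebra K L]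
    (R : A.Pts L), lf (nd.l 0) (A.x R) ≠ 0 →
    gs (fun v : AbsoluteValue L ℝ => Real.log (mq v (nd.s R))) ≤
      A.h R + C * Module.finrank ℚ L ∧
    ∀ a, logHeight₁ (nd.s R a) ≤ A.h R + C * Module.finrank ℚ L := by
  rcases Nat.eq_zero_or_pos n with hn | hn
  · subst hn
    refine ⟨0, le_rfl, fun L _ _ _ R hR => ⟨?_, fun a => a.elim0⟩⟩
    have h1 : ∀ v : AbsoluteValue L ℝ, mq v (nd.s R) = 1 := by
      intro v
      unfold mq
      rw [Real.iSup_of_isEmpty]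
      exact max_eq_left zero_le_one
    simp only [h1, Real.log_one, zero_mul, add_zero]
    have h2 : gs (fun _ : AbsoluteValue L ℝ => (0 : ℝ)) = 0 := by
      unfold gs
      simp
    rw [h2]
    exact AV.h_nonneg R
  · have : NeZero n := ⟨hn.ne'⟩
    have hne : Nonempty (Fin n) := ⟨⟨0, hn⟩⟩
    obtain ⟨C, hC, hq⟩ := exists_qv_le nd.l
    refine ⟨C, hC, fun L _ _ _ R hR => ⟨?_, fun a => ?_⟩⟩
    · rw [gs_log_mq]
      exact hq L (A.x R) hR
    · exact (logHeight₁_le_qv (nd.s R) a).trans (hq L (A.x R) hR)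

/-- The inequality over `K`. -/
theorem N_ineqK (E₀ E : SC K) (c₀ a₁ : ℕ) (hOK : N_OK nd E₀ E a₁) (D r : ℕ) (C₁ : ℝ)
    (hC₁ : N_C1 N D c₀ ≤ C₁) (Cw : ℝ) (hCw : 0 ≤ Cw) :
    ∃ C : ℝ, 0 ≤ C ∧ ∀ (m g M₀ J : ℕ) (NX T eta tau : ℝ) (P₀ : A.Pts K) (P : Fin m → A.Pts K)
      (j : Fin m → ℕ) (t : Fin m → K) (α β : Fin m → Fin r → MvPolynomial (Fin (N + 1)) K)
      (F : MvPolynomial (VF m n) K), 0 < m → 0 ≤ NX → 0 ≤ eta → 0 ≤ tau → (∀ i, j i ≤ J) →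
      (∀ i, nd.Good (P i)) → (∀ i l s, (α i l).degreeOf s ≤ D) →
      (∀ i l s, (β i l).degreeOf s ≤ D) → (∀ i l, eval (nd.y (P i)) (β i l) ≠ 0) →
      (∀ i l, ht2 (α i l) (β i l) ≤ 4 ^ j i) → F ≠ 0 →
      (∀ i, F.degreeOf (VF.th i) ≤ g) → (∀ a, (F.degreeOf (VF.x a) : ℝ) ≤ NX) →
      (∀ p, F.degreeOf (VF.z p) ≤ M₀ * 4 ^ (J - j p.1)) →
      (∀ i, F.degreeOf (VF.u i) ≤ 4 ^ (J - j i)) →
      (∀ l, Van nd j (fun i => α i l) (fun i => β i l) T F) →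
      (∀ i, A.h (P i - 2 ^ j i • P₀) ≤ eta * (4 ^ j i * A.h P₀)) →
      (∀ i, A.h (P i) ≤ (1 + eta) * (4 ^ j i * A.h P₀)) →
      (∀ i, logHeight₁ (t i) ≤ (tau + eta) * (4 ^ j i * A.h P₀)) →
      ∀ (L : Type u) [Field L] [NumberField L] [Algebra K L] (w : A.Pts L)
        (ζ : Fin m × Option (Fin n) → L) (y η : Fin m → Fin (N + 1) → PowerSeries L) (a : ℕ),
      A.h w ≤ Cw * Module.finrank ℚ L →
      (∀ p, ∃ k : ℕ, 0 < k ∧ ζ p ^ k = 1) →
      nd.Good (A.img (Algebra.ofId K L) P₀ + w) →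
      (∀ i, nd.Good (A.img (Algebra.ofId K L) (P i) -
        2 ^ j i • (A.img (Algebra.ofId K L) P₀ + w))) →
      (∀ i, A.x (A.img (Algebra.ofId K L) (P i) -
        2 ^ (j i + 1) • (A.img (Algebra.ofId K L) P₀ + w)) A.b₀ ≠ 0) →
      (∀ i, N_B nd E₀ c₀ (P i) (4 ^ j i) (fun k => ζ (i, some k))
        (A.mu (j i) (nd.y (A.img (Algebra.ofId K L) P₀ + w)))
        (nd.s (A.img (Algebra.ofId K L) (P i) -
          2 ^ j i • (A.img (Algebra.ofId K L) P₀ + w))) (y i) (η i)) →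
      PowerSeries.coeff a (vl nd j t (nd.y (A.img (Algebra.ofId K L) P₀ + w)) ζ η F) ≠ 0 →
      0 ≤ nh F + n * NX * (C + 2 * A.h P₀) +
        m * (g + n * M₀) * (C + 2 * a₁ * eta * A.h P₀) * 4 ^ J +
        m * (C + (tau + eta) * A.h P₀) * 4 ^ J -
        T * gs (fun v : AbsoluteValue K ℝ => tg nd E C₁ j P t α β v) +
        a * (gs (fun v : AbsoluteValue K ℝ => tg nd E C₁ j P t α β v) +
          m * (C + C * (1 + tau + eta) * A.h P₀)) := by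
  classical
  obtain ⟨Cq, hCq, hqv⟩ := N_qv nd
  obtain ⟨Ch, hCh, hheights⟩ := A.exists_heights
  obtain ⟨Ck, hCk, hgk⟩ := E.gs_log_le
  obtain ⟨CL, hCL, hgL⟩ := N_gsL nd E D r
  obtain ⟨dK, hdK⟩ : ∃ dK : ℝ, dK = Module.finrank ℚ K := ⟨_, rfl⟩
  have hdK0 : 0 ≤ dK := by rw [hdK]; exact Nat.cast_nonneg _
  have hC₁0 : 0 ≤ C₁ := (N_C1_nonneg N D c₀).trans hC₁
  have hl2 : 0 ≤ Real.log 2 := Real.log_nonneg (by norm_num)
  obtain ⟨C1, hC1⟩ : ∃ C1 : ℝ, C1 = dK * (2 * Cw + 3 * Ch) + Cq * dK := ⟨_, rfl⟩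
  have hC10 : 0 ≤ C1 := by rw [hC1]; positivity
  obtain ⟨c1, hc1⟩ : ∃ c1 : ℝ, c1 = dK * Real.log 2 + C1 := ⟨_, rfl⟩
  obtain ⟨c2, hc2⟩ : ∃ c2 : ℝ, c2 = dK * Real.log 2 + (dK * Ck + a₁ * (dK * Ck + C1)) := ⟨_, rfl⟩
  obtain ⟨c3, hc3⟩ : ∃ c3 : ℝ, c3 = dK * Real.log 2 + (dK * Real.log 2 + dK * Real.log 2) :=
    ⟨_, rfl⟩
  obtain ⟨c4, hc4⟩ : ∃ c4 : ℝ, c4 = C₁ * (CL + r) + (dK * Ck + C1) := ⟨_, rfl⟩
  obtain ⟨c5, hc5⟩ : ∃ c5 : ℝ, c5 = C₁ * CL + C₁ + 2 := ⟨_, rfl⟩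
  have hc10 : 0 ≤ c1 := by rw [hc1]; positivity
  have hc20 : 0 ≤ c2 := by rw [hc2]; positivity
  have hc30 : 0 ≤ c3 := by rw [hc3]; positivity
  have hc40 : 0 ≤ c4 := by rw [hc4]; positivity
  have hc50 : 0 ≤ c5 := by rw [hc5]; positivity
  refine ⟨c1 + c2 + c3 + c4 + c5, by positivity, ?_⟩
  intro m g M₀ J NX T eta tau P₀ P j t α β F hm hNX heta htau hJ hP hα hβ hβ0 hht hF hdth hdx
    hdz hdu hvan hhd hhP hht₁ L _ _ _ w ζ y η a hw hζ hQ hgood hrow hB ha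
  obtain ⟨Q, hQdef⟩ : ∃ Q : A.Pts L, Q = A.img (Algebra.ofId K L) P₀ + w := ⟨_, rfl⟩
  simp only [← hQdef] at hQ hgood hrow hB ha
  obtain ⟨d, hd⟩ : ∃ d : ℝ, d = Module.finrank K L := ⟨_, rfl⟩
  have hd0 : 0 < d := by
    rw [hd]
    exact_mod_cast Module.finrank_pos
  have hdL : (Module.finrank ℚ L : ℝ) = d * dK := by
    rw [hd, hdK, ← Module.finrank_mul_finrank ℚ K L]
    push_cast
    ring
  -- the functions over `L`
  have htg := N_tg_bc nd E C₁ hC₁0 hm j P t α β L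
  have hLb := fun i => N_L_bc nd E (P i) (hP i) (t i) (α i) (β i) (fun l => hβ0 i l) L
  have hprod := N_prod nd E₀ E c₀ a₁ hOK D C₁ hC₁ P j t hP α β hα hβ hβ0 F hF T hvan Q hQ ζ hζ
    y η hB hgood hrow a ha htg.1 fun i => (hLb i).1
  rw [htg.2] at hprod
  simp only [(hLb _).2] at hprod
  rw [← hd] at hprod
  obtain ⟨G, hG⟩ : ∃ G : ℝ, G = gs (fun v : AbsoluteValue K ℝ => tg nd E C₁ j P t α β v) :=
    ⟨_, rfl⟩
  rw [← hG] at hprod ⊢
  obtain ⟨h₀, hh₀⟩ : ∃ h₀ : ℝ, h₀ = A.h P₀ := ⟨_, rfl⟩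
  have hh₀0 : 0 ≤ h₀ := by rw [hh₀]; exact AV.h_nonneg P₀
  rw [← hh₀] at hhd hhP hht₁ ⊢
  obtain ⟨q, hq⟩ : ∃ q : Fin m → Fin n → L,
    q = fun i => nd.s (A.img (Algebra.ofId K L) (P i) - 2 ^ j i • Q) := ⟨_, rfl⟩
  have hqi : ∀ i, nd.s (A.img (Algebra.ofId K L) (P i) - 2 ^ j i • Q) = q i := fun i => by
    rw [hq]
  simp only [hqi] at hprod
  have h4 : ∀ i, (1 : ℝ) ≤ 4 ^ j i := fun i => one_le_pow₀ (by norm_num)
  -- the sizes
  have hhts := hheights Cw hCw L w hw P₀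
  rw [← hQdef, ← hdK, ← hd, ← hh₀] at hhts
  have hkk : gs (fun v : AbsoluteValue L ℝ => Real.log (E.k v)) ≤ d * (dK * Ck) := by
    refine (hgk L).trans (le_of_eq ?_)
    rw [hdL]
    ring
  have hkk0 : 0 ≤ gs (fun v : AbsoluteValue L ℝ => Real.log (E.k v)) :=
    gs_nonneg fun v _ => Real.log_nonneg (E.one_le v)
  have hmq : ∀ i, gs (fun v : AbsoluteValue L ℝ => Real.log (mq v (q i))) ≤
      d * (2 * A.h (P i - 2 ^ j i • P₀) + C1 * 4 ^ j i) := by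
    intro i
    have h1 := (hqv L (A.img (Algebra.ofId K L) (P i) - 2 ^ j i • Q) (hgood i).1).1
    rw [hqi, hdL] at h1
    have h2 := hhts.2 (P i) (j i)
    have h5 : Cq * (d * dK) ≤ Cq * (d * dK) * 4 ^ j i :=
      le_mul_of_one_le_right (by positivity) (h4 i)
    rw [hC1]
    calc _ ≤ A.h (A.img (Algebra.ofId K L) (P i) - 2 ^ j i • Q) + Cq * (d * dK) := h1
      _ ≤ d * (2 * A.h (P i - 2 ^ j i • P₀) + dK * (2 * Cw + 3 * Ch) * 4 ^ j i) +
          Cq * (d * dK) * 4 ^ j i := add_le_add h2 h5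
      _ = _ := by ring
  have hmq0 : ∀ i, 0 ≤ gs (fun v : AbsoluteValue L ℝ => Real.log (mq v (q i))) := fun i =>
    gs_nonneg fun v _ => Real.log_nonneg (N_one_le_mq v _)
  have hxQ : ∀ b, logHeight₁ (nd.s Q b) ≤ d * (2 * h₀ + C1) := by
    intro b
    have h1 := (hqv L Q hQ.1).2 b
    rw [hdL] at h1
    have h6 : 0 ≤ d * (dK * (2 * Ch)) := by positivity
    rw [hC1]
    calc _ ≤ A.h Q + Cq * (d * dK) := h1
      _ ≤ d * (2 * h₀ + dK * (2 * Cw + Ch)) + Cq * (d * dK) + d * (dK * (2 * Ch)) := by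
          linarith [hhts.1]
      _ = _ := by ring
  -- the terms of the first sum
  have hGx : ∀ b, N_G E a₁ t (nd.s Q) q (VF.x b) ≤ d * (c1 + 2 * h₀) := by
    intro b
    show Module.finrank ℚ L * Real.log 2 + logHeight₁ (nd.s Q b) ≤ _
    rw [hdL, hc1]
    calc _ ≤ d * dK * Real.log 2 + d * (2 * h₀ + C1) := by linarith [hxQ b]
      _ = _ := by ring
  have hGq : ∀ i, Module.finrank ℚ L * Real.log 2 +
      (gs (fun v : AbsoluteValue L ℝ => Real.log (E.k v)) +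
      a₁ * (gs (fun v : AbsoluteValue L ℝ => Real.log (E.k v)) +
        gs (fun v : AbsoluteValue L ℝ => Real.log (mq v (q i))))) ≤
      d * ((c2 + 2 * a₁ * eta * h₀) * 4 ^ j i) := by
    intro i
    have ha1 : (0 : ℝ) ≤ a₁ := Nat.cast_nonneg _
    have e1 : d * dK * Real.log 2 ≤ d * (dK * Real.log 2 * 4 ^ j i) := by
      rw [mul_assoc]
      refine mul_le_mul_of_nonneg_left ?_ hd0.le
      exact le_mul_of_one_le_right (by positivity) (h4 i)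
    have e2 : gs (fun v : AbsoluteValue L ℝ => Real.log (E.k v)) ≤
        d * (dK * Ck * 4 ^ j i) := by
      refine hkk.trans (mul_le_mul_of_nonneg_left ?_ hd0.le)
      exact le_mul_of_one_le_right (by positivity) (h4 i)
    have e3 : gs (fun v : AbsoluteValue L ℝ => Real.log (mq v (q i))) ≤
        d * (2 * (eta * (4 ^ j i * h₀)) + C1 * 4 ^ j i) := by
      refine (hmq i).trans (mul_le_mul_of_nonneg_left ?_ hd0.le)
      linarith [hhd i]
    have e4 := mul_le_mul_of_nonneg_left (add_le_add e2 e3) ha1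
    rw [hdL, hc2]
    calc _ ≤ d * (dK * Real.log 2 * 4 ^ j i) + (d * (dK * Ck * 4 ^ j i) +
          a₁ * (d * (dK * Ck * 4 ^ j i) +
            d * (2 * (eta * (4 ^ j i * h₀)) + C1 * 4 ^ j i))) := by linarith
      _ = _ := by ring
  have hGu : ∀ i, N_G E a₁ t (nd.s Q) q (VF.u i) ≤
      d * ((c3 + (tau + eta) * h₀) * 4 ^ j i) := by
    intro i
    show Module.finrank ℚ L * Real.log 2 + (Module.finrank ℚ L * Real.log 2 +
      (Module.finrank ℚ L * Real.log 2 + logHeight₁ (algebraMap K L (t i)))) ≤ _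
    have e0 : logHeight₁ (algebraMap K L (t i)) = d * logHeight₁ (t i) := by
      rw [hd]
      exact logHeight₁_algebraMap (t i)
    have e1 : c3 ≤ c3 * 4 ^ j i := le_mul_of_one_le_right hc30 (h4 i)
    rw [e0, hdL]
    calc _ = d * (c3 + logHeight₁ (t i)) := by rw [hc3]; ring
      _ ≤ d * (c3 * 4 ^ j i + (tau + eta) * (4 ^ j i * h₀)) :=
          mul_le_mul_of_nonneg_left (add_le_add e1 (hht₁ i)) hd0.le
      _ = _ := by ring
  have h4J : ∀ i, (4 : ℝ) ^ (J - j i) * 4 ^ j i = 4 ^ J := by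
    intro i
    rw [← pow_add, Nat.sub_add_cancel (hJ i)]
  have hS : ∑ s, (F.degreeOf s : ℝ) * N_G E a₁ t (nd.s Q) q s ≤
      d * (n * NX * (c1 + 2 * h₀) + m * (g + n * M₀) * (c2 + 2 * a₁ * eta * h₀) * 4 ^ J +
        m * (c3 + (tau + eta) * h₀) * 4 ^ J) := by
    exact N11_S F _ hh₀0 heta htau hd0 hJ hdx hdth hdz hdu hGx (fun i => hGq i)
      (fun p => hGq p.1) hGu hc10 hc20 hc30
  -- the terms of the last sum
  have hlast : ∑ i, ((4 : ℝ) ^ j i)⁻¹ * (C₁ * (d * gs (fun v : AbsoluteValue K ℝ =>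
        N_L nd E v (P i) (t i) (α i) (β i))) +
        (gs (fun v : AbsoluteValue L ℝ => Real.log (E.k v)) +
          gs (fun v : AbsoluteValue L ℝ => Real.log (mq v (q i))))) ≤
      d * (m * (c4 + c5 * (1 + tau + eta) * h₀)) := by
    have hb : ∀ i ∈ (Finset.univ : Finset (Fin m)),
        ((4 : ℝ) ^ j i)⁻¹ * (C₁ * (d * gs (fun v : AbsoluteValue K ℝ =>
        N_L nd E v (P i) (t i) (α i) (β i))) +
        (gs (fun v : AbsoluteValue L ℝ => Real.log (E.k v)) +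
          gs (fun v : AbsoluteValue L ℝ => Real.log (mq v (q i))))) ≤
        d * (c4 + c5 * (1 + tau + eta) * h₀) := by
      intro i _
      have hp4 : (0 : ℝ) < 4 ^ j i := by positivity
      rw [inv_mul_le_iff₀ hp4]
      have g1 := hgL (P i) (hP i) (t i) (α i) (β i) (fun l => hβ0 i l) (hα i) (hβ i)
      have g2 : ∑ l, ht2 (α i l) (β i l) ≤ r * 4 ^ j i := by
        refine (Finset.sum_le_sum fun l _ => hht i l).trans (le_of_eq ?_)
        rw [Finset.sum_const, Finset.card_univ, Fintype.card_fin, nsmul_eq_mul]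
      have g3 : CL * (1 + A.h (P i)) ≤ CL * (4 ^ j i + (1 + eta) * (4 ^ j i * h₀)) :=
        mul_le_mul_of_nonneg_left (add_le_add (h4 i) (hhP i)) hCL
      have g4 : gs (fun v : AbsoluteValue K ℝ => N_L nd E v (P i) (t i) (α i) (β i)) ≤
          CL * (4 ^ j i + (1 + eta) * (4 ^ j i * h₀)) + (tau + eta) * (4 ^ j i * h₀) +
            r * 4 ^ j i := by linarith [hht₁ i]
      have e2 : gs (fun v : AbsoluteValue L ℝ => Real.log (E.k v)) ≤
          d * (dK * Ck * 4 ^ j i) := by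
        refine hkk.trans (mul_le_mul_of_nonneg_left ?_ hd0.le)
        exact le_mul_of_one_le_right (by positivity) (h4 i)
      have e3 : gs (fun v : AbsoluteValue L ℝ => Real.log (mq v (q i))) ≤
          d * (2 * (eta * (4 ^ j i * h₀)) + C1 * 4 ^ j i) := by
        refine (hmq i).trans (mul_le_mul_of_nonneg_left ?_ hd0.le)
        linarith [hhd i]
      exact N11_last hd0 hp4 hh₀0 hC₁0 (N11_e4 hC₁0 hCL htau hc5) g4 e2 e3 (by rw [hc4])
    refine (Finset.sum_le_sum hb).trans (le_of_eq ?_)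
    rw [Finset.sum_const, Finset.card_univ, Fintype.card_fin, nsmul_eq_mul]
    ring
  -- conclusion
  have hfin : 0 ≤ d * ((nh F + (n * NX * (c1 + 2 * h₀) +
      m * (g + n * M₀) * (c2 + 2 * a₁ * eta * h₀) * 4 ^ J +
        m * (c3 + (tau + eta) * h₀) * 4 ^ J)) - T * G +
        a * (G + m * (c4 + c5 * (1 + tau + eta) * h₀))) := by
    have ha0 : (0 : ℝ) ≤ a := Nat.cast_nonneg _
    have h5 := mul_le_mul_of_nonneg_left (add_le_add_left hlast (d * G)) ha0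
    refine hprod.trans ?_
    have h6 : d * ((nh F + (n * NX * (c1 + 2 * h₀) +
      m * (g + n * M₀) * (c2 + 2 * a₁ * eta * h₀) * 4 ^ J +
        m * (c3 + (tau + eta) * h₀) * 4 ^ J)) - T * G +
        a * (G + m * (c4 + c5 * (1 + tau + eta) * h₀))) =
        (d * nh F + d * (n * NX * (c1 + 2 * h₀) +
      m * (g + n * M₀) * (c2 + 2 * a₁ * eta * h₀) * 4 ^ J +
        m * (c3 + (tau + eta) * h₀) * 4 ^ J)) - T * (d * G) +
        a * (d * G + d * (m * (c4 + c5 * (1 + tau + eta) * h₀))) := by ring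
    rw [h6]
    linarith
  have hfin2 := nonneg_of_mul_nonneg_right hfin hd0
  exact N11_k (Nat.cast_nonneg m) (Nat.cast_nonneg n) (Nat.cast_nonneg g) (Nat.cast_nonneg M₀)
    (Nat.cast_nonneg a) hNX (by positivity) hh₀0 htau heta hc10 hc20 hc30 hc40 hc50 rfl hfin2

end

end Pool.Agent.Lib.MP_17a322_nt.VP
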