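import Pool.Agent.Lib.MP_17a322_nt.VP.B1

/-!
Roth's theorem with moving targets over abelian varieties: the block for one point, assembly.
-/

universe u

namespace Pool.Agent.Lib.MP_17a322_nt.VP

open MvPolynomial Height
open Pool.Agent.Lib.MP_17a322_nt.RO
open Pool.Agent.Lib.MP_17a322_nt.VJ
open Pool.Agent.Lib.MP_17a322_nt.VN
open Pool.Agent.Lib.MP_17a322_nt.VA

/-- The radius for `c = 0`. -/
theorem B_rad {K : Type u} [Field K] {N : ℕ} {A : AV K N} {n e : ℕ} (nd : Noe A n e)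
    (rr : Fin 0 → Fin n) (E : SC K) (c₀ : ℕ) (P : A.Pts K) (q' : Fin 0 → MvPolynomial (Fin n) K)
    {L : Type u} [Field L] [Algebra K L] (v : AbsoluteValue L ℝ) :
    rad nd rr E c₀ P q' v = rdP nd E c₀ v P := by
  unfold rad rdP
  rw [Finset.univ_eq_empty, Finset.prod_empty, mul_one]

/-- The difference of the path and a constant point. -/
theorem B_exists_eta {K : Type u} [Field K] {N : ℕ} {A : AV K N} {n e : ℕ} (nd : Noe A n e)
    {L : Type u} [Field L] [Algebra K L] (y₀ M : Fin (N + 1) → L)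
    (Y : Fin (N + 1) → PowerSeries L) (hY : A.IsPt Y)
    (hY0 : ∀ b, PowerSeries.constantCoeff (Y b) = y₀ b) (hM : A.IsPt M) (q : Fin n → L)
    (hq0 : ∃ a, lf (nd.l 0) (A.col a y₀ M) ≠ 0)
    (hq : ∀ (a : Fin (N + 1)) (k : Fin n), lf (nd.l k.succ) (A.col a y₀ M) =
      q k * lf (nd.l 0) (A.col a y₀ M)) :
    ∃ η : Fin (N + 1) → PowerSeries L, A.IsPt η ∧ lf (nd.l 0) η = 1 ∧
      (∀ a b, A.col a Y (fun i => PowerSeries.C (M i)) b =
        η b * lf (nd.l 0) (A.col a Y fun i => PowerSeries.C (M i))) ∧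
      (∀ k : Fin n, PowerSeries.constantCoeff (lf (nd.l k.succ) η) = q k) ∧
      ∃ a, PowerSeries.constantCoeff
        (lf (nd.l 0) (A.col a Y fun i => PowerSeries.C (M i))) ≠ 0 := by
  obtain ⟨a, ha⟩ := hq0
  have hM' : A.IsPt (fun i => PowerSeries.C (M i) : Fin (N + 1) → PowerSeries L) := by
    have h1 := hM.map ((IsScalarTower.toAlgHom K L (PowerSeries L)))
    exact h1
  have hcc : ∀ (l : Fin (N + 1) → K) (c : Fin (N + 1)), PowerSeries.constantCoeff
      (lf l (A.col c Y fun i => PowerSeries.C (M i))) = lf l (A.col c y₀ M) := by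
    intro l c
    have h6 := map_lf l (cA K L) (A.col c Y fun i => PowerSeries.C (M i))
    have h7 : (fun b => cA K L (A.col c Y (fun i => PowerSeries.C (M i)) b)) = A.col c y₀ M := by
      funext b
      rw [AV.map_col]
      have h8 : (fun i => cA K L (Y i)) = y₀ := funext hY0
      have h9 : (fun i => cA K L (PowerSeries.C (M i))) = M := by
        funext i
        exact PowerSeries.constantCoeff_C (M i)
      rw [h8, h9]
    rw [h7] at h6
    exact h6
  have hu : IsUnit (lf (nd.l 0) (A.col a Y fun i => PowerSeries.C (M i))) := by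
    rw [PowerSeries.isUnit_iff_constantCoeff, hcc]
    exact isUnit_iff_ne_zero.2 ha
  obtain ⟨g, hg⟩ := hu.exists_right_inv
  set col : Fin (N + 1) → PowerSeries L := A.col a Y (fun i => PowerSeries.C (M i)) with hcol
  have hcp : A.IsPt col := AV.row_isPt hY hM' a
  have hlf : ∀ l : Fin (N + 1) → K, lf l (fun b => g * col b) = g * lf l col := fun l =>
    lf_smul l g col
  refine ⟨fun b => g * col b, hcp.smul g, ?_, fun c b => ?_, fun k => ?_, a, ?_⟩
  · rw [hlf, mul_comm, hg]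
  · have h1 := AV.col_cross hY hM' (fun d => if d = b then (1 : K) else 0) (nd.l 0) c a
    rw [B_lf_single, B_lf_single] at h1
    rw [← hcol] at h1
    calc A.col c Y (fun i => PowerSeries.C (M i)) b =
        A.col c Y (fun i => PowerSeries.C (M i)) b * (lf (nd.l 0) col * g) := by rw [hg, mul_one]
      _ = (A.col c Y (fun i => PowerSeries.C (M i)) b * lf (nd.l 0) col) * g := by ring
      _ = g * col b * lf (nd.l 0) (A.col c Y fun i => PowerSeries.C (M i)) := by
          rw [h1]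
          ring
  · rw [hlf, map_mul]
    have h1 := congrArg (fun x => PowerSeries.constantCoeff x) hg
    simp only [map_mul, map_one] at h1
    have h2 := hcc (nd.l k.succ) a
    rw [← hcol] at h2
    have h3 := hcc (nd.l 0) a
    rw [← hcol] at h3
    rw [h2, hq a k, ← h3]
    calc PowerSeries.constantCoeff g * (q k * PowerSeries.constantCoeff (lf (nd.l 0) col)) =
        q k * (PowerSeries.constantCoeff (lf (nd.l 0) col) * PowerSeries.constantCoeff g) := by ring
      _ = q k := by rw [h1, mul_one]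
  · rw [hcc]
    exact ha

/-- The block for one point. -/
theorem exists_blockP {K : Type u} [Field K] [CharZero K] {N : ℕ} (A : AV K N) {n e : ℕ}
    (nd : Noe A n e) :
    ∃ (E : SC K) (c₀ : ℕ), ∀ (P : A.Pts K), nd.Good P →
      ∀ (L : Type u) [Field L] [Algebra K L] (w : ℕ) (ζ : Fin n → L) (M : Fin (N + 1) → L)
        (q : Fin n → L), 0 < w → (∀ a, ∃ k, 0 < k ∧ ζ a ^ k = 1) → A.IsPt M → M ≠ 0 →
        (∃ a, lf (nd.l 0) (A.col a (fun b => algebraMap K L (nd.y P b)) M) ≠ 0) →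
        (∀ (a : Fin (N + 1)) (k : Fin n),
          lf (nd.l k.succ) (A.col a (fun b => algebraMap K L (nd.y P b)) M) =
            q k * lf (nd.l 0) (A.col a (fun b => algebraMap K L (nd.y P b)) M)) →
        ∃ y η : Fin (N + 1) → PowerSeries L, BlkP nd P w ζ M y η ∧
          (∀ k : Fin n, PowerSeries.constantCoeff (lf (nd.l k.succ) η) = q k) ∧
          (∀ b, ∃ f : PowerSeries L, ∀ k, PowerSeries.coeff k (y b) =
            if w ∣ k then PowerSeries.coeff (k / w) f else 0) ∧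
          ∀ v : AbsoluteValue L ℝ, (0 < rdP nd E c₀ v P ∧ rdP nd E c₀ v P ≤ 1) ∧
            (∀ r : ℝ, 0 ≤ r → r ^ w ≤ rdP nd E c₀ v P → ∀ (b : Fin (N + 1)) (N₁ : ℕ),
              PN v r N₁ (y b) ≤ E.k v * mq v fun b => algebraMap K L (nd.y P b)) ∧
            ∀ r : ℝ, 0 ≤ r → r ^ w * (E.k v * mq v q) ≤ rdP nd E c₀ v P →
              ∀ (b : Fin (N + 1)) (N₁ : ℕ), PN v r N₁ (η b) ≤ E.k v * mq v q := by
  obtain ⟨E1, c₀, hpath⟩ := exists_path nd (fun i : Fin 0 => i.elim0)
    (fun i => i.elim0) 0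
  obtain ⟨E2, hsize⟩ := B_sizes nd
  refine ⟨E1.mul E2, c₀, fun P hP L _ _ w ζ M q hw hζ hM hM0 hq0 hqr => ?_⟩
  have hq' : IsEq nd (fun i : Fin 0 => (i.elim0 : Fin n)) 0 P
      (fun i : Fin 0 => (i.elim0 : MvPolynomial (Fin n) K)) := fun b => b.elim0
  obtain ⟨hrad, Y, hY1, hY2, hY3, hY4, hY5, hY6⟩ := hpath P _ hP hq' L ζ hζ
  obtain ⟨hy1, hy2, hy3⟩ := nd.y_facts P hP.1 L
  set y₀ : Fin (N + 1) → L := fun b => algebraMap K L (nd.y P b) with hy₀
  obtain ⟨η, hη1, hη2, hη3, hη4, hη5⟩ := B_exists_eta nd y₀ M Y hY1 hY3 hM q hq0 hqr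
  let φ : PowerSeries L →ₐ[K] PowerSeries L := (PowerSeries.expand w hw.ne').restrictScalars K
  have hφ : ∀ f, φ f = PowerSeries.expand w hw.ne' f := fun f => rfl
  have hcc : ∀ f, PowerSeries.constantCoeff (φ f) = PowerSeries.constantCoeff f := by
    intro f
    rw [hφ, ← PowerSeries.coeff_zero_eq_constantCoeff_apply, PowerSeries.coeff_expand]
    simp
  have hφC : ∀ a : L, φ (PowerSeries.C a) = PowerSeries.C a := fun a => by
    rw [hφ, PowerSeries.expand_C]
  have hcol : ∀ (a b : Fin (N + 1)), A.col a (fun b => φ (Y b)) (fun i => PowerSeries.C (M i)) b =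
      φ (A.col a Y (fun i => PowerSeries.C (M i)) b) := by
    intro a b
    rw [AV.map_col]
    congr 1
    funext i
    exact (hφC (M i)).symm
  have hlcol : ∀ (l : Fin (N + 1) → K) (a : Fin (N + 1)),
      lf l (A.col a (fun b => φ (Y b)) fun i => PowerSeries.C (M i)) =
        φ (lf l (A.col a Y fun i => PowerSeries.C (M i))) := by
    intro l a
    rw [map_lf]
    congr 1
    funext b
    exact hcol a b
  refine ⟨fun b => φ (Y b), fun b => φ (η b), ⟨hY1.map φ, ?_, fun b => ?_, fun k => ?_, hη1.map φ,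
    ?_, fun a b => ?_, ?_⟩, fun k => ?_, fun b => ⟨Y b, fun k => ?_⟩, fun v => ?_⟩
  · rw [← map_lf, hY2, map_one]
  · rw [hcc, hY3]
  · rw [← map_lf, hY4 k (fun ⟨i, _⟩ => i.elim0), map_add, map_mul, hφC, hφC, hφ,
      PowerSeries.expand_X]
  · rw [← map_lf, hη2, map_one]
  · rw [hcol, hη3 a b, hlcol, map_mul]
  · obtain ⟨a, ha⟩ := hη5
    refine ⟨a, ?_⟩
    rw [hlcol, hcc]
    exact ha
  · rw [← map_lf, hcc]
    exact hη4 k
  · beta_reduce
    rw [hφ, PowerSeries.coeff_expand]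
  · have hE1 : E1.k v ≤ (E1.mul E2).k v := SC.le_mul_left E1 E2 v
    have hE2 : E2.k v ≤ (E1.mul E2).k v := SC.le_mul_right E1 E2 v
    obtain ⟨hr0, hr1⟩ := rad_mono nd (fun i : Fin 0 => (i.elim0 : Fin n)) (E := E1)
      (E' := E1.mul E2) c₀ 0 P _ hP hq' v hE1
    have hr2 := (hrad v).2
    rw [B_rad] at hr0 hr1
    set rho := rdP nd (E1.mul E2) c₀ v P with hrho
    have hYs : ∀ b s, PN v rho s (Y b - PowerSeries.C (y₀ b)) ≤ 1 := fun b s =>
      hY6 v rho hr0.le hr1 b s
    obtain ⟨hA, hB⟩ := hsize L v y₀ M q Y η rho hy1 hy2 hM hM0 hqr hr0.le hY3 hYs hη3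
    refine ⟨⟨hr0, hr1.trans hr2⟩, fun r hr hrr b s => ?_, fun r hr hrr b s => ?_⟩
    · have hrw : 0 ≤ r ^ w := pow_nonneg hr w
      refine (PN_expand v hr hw.ne' s (Y b)).trans ?_
      refine (hA (r ^ w) hrw hrr b s).trans ?_
      exact mul_le_mul_of_nonneg_right hE2 (mq_pos v y₀).le
    · have hrw : 0 ≤ r ^ w := pow_nonneg hr w
      refine (PN_expand v hr hw.ne' s (η b)).trans ?_
      refine (hB (r ^ w) hrw ?_ b s).trans ?_
      · exact (mul_le_mul_of_nonneg_left (mul_le_mul_of_nonneg_right hE2 (mq_pos v q).le)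
          hrw).trans hrr
      · exact mul_le_mul_of_nonneg_right hE2 (mq_pos v q).le

end Pool.Agent.Lib.MP_17a322_nt.VP
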