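import Pool.Agent.Lib.MP_17a322_nt.VP.CP2

/-!
The choice of the auxiliary field for moving targets, part 3: the polynomial of the conditions.
-/

universe u

namespace Pool.Agent.Lib.MP_17a322_nt.VP

open MvPolynomial
open Pool.Agent.Lib.MP_17a322_nt.VJ
open Pool.Agent.Lib.MP_17a322_nt.VN
open Pool.Agent.Lib.MP_17a322_nt.VA

section

variable {K : Type u} [Field K] {N : ℕ} {A : AV K N} {n e : ℕ} (nd : Noe A n e)

/-- The vector of the difference of a rational point and a multiple. -/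
noncomputable def CP_T (P : A.Pts K) (j : ℕ) {R : Type*} [CommRing R] [Algebra K R]
    (V : Fin (N + 1) → R) : Fin (N + 1) → R :=
  fun b => lf (nd.l 0) fun a => A.col a (fun i => algebraMap K R (A.x P i)) (A.mu j V) b

theorem CP_map_T (P : A.Pts K) (j : ℕ) {R R' : Type*} [CommRing R] [Algebra K R] [CommRing R']
    [Algebra K R'] (φ : R →ₐ[K] R') (V : Fin (N + 1) → R) (b : Fin (N + 1)) :
    φ (CP_T nd P j V b) = CP_T nd P j (fun i => φ (V i)) b := by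
  unfold CP_T
  rw [lf_map]
  congr 1
  funext a
  rw [AV.map_colE]
  congr 1
  · funext i
    exact φ.commutes _
  · funext i
    exact A.map_mu φ j V i

theorem CP_T_eq {L : Type u} [Field L] [Algebra K L] (P : A.Pts K) (j : ℕ) {Q : A.Pts L}
    {V : Fin (N + 1) → L} (hV : A.Rep Q V) : ∃ c : L, c ≠ 0 ∧ ∀ b, CP_T nd P j V b =
      c * lf (nd.l 0) (A.x (A.img (Algebra.ofId K L) P + 2 ^ j • Q)) *
        A.x (A.img (Algebra.ofId K L) P - 2 ^ j • Q) b := by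
  have h1 : A.Rep (A.img (Algebra.ofId K L) P) fun i => algebraMap K L (A.x P i) :=
    A.img_rep (Algebra.ofId K L) P
  obtain ⟨c, hc, h2⟩ := h1.spec (hV.mu j)
  refine ⟨c, hc, fun b => ?_⟩
  have h3 : (fun a => A.col a (fun i => algebraMap K L (A.x P i)) (A.mu j V) b) =
      fun a => (c * A.x (A.img (Algebra.ofId K L) P - 2 ^ j • Q) b) *
        A.x (A.img (Algebra.ofId K L) P + 2 ^ j • Q) a := by
    funext a
    unfold AV.col
    rw [h2]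
    ring
  unfold CP_T
  rw [h3, lf_smul]
  ring

/-- The polynomial of the additional conditions. -/
noncomputable def CP_F {m : ℕ} {τ : Type} (P₀ : A.Pts K) (P : Fin m → A.Pts K) (j : Fin m → ℕ)
    (G : MvPolynomial (Option (Fin n) ⊕ τ) K) : MvPolynomial (Option (Fin n) ⊕ τ) K :=
  nd.Hp P₀ P j G * aeval (nd.Vv P₀ fun i => rename Sum.inl (nd.pv i)) nd.gf *
    (∏ i, aeval (CP_T nd (P i) (j i) (nd.Vv P₀ fun i => rename Sum.inl (nd.pv i))) nd.gf) *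
    ∏ i, CP_T nd (P i) (j i + 1) (nd.Vv P₀ fun i => rename Sum.inl (nd.pv i)) A.b₀

theorem CP_aeval_F {m : ℕ} {τ : Type} (P₀ : A.Pts K) (P : Fin m → A.Pts K) (j : Fin m → ℕ)
    (G : MvPolynomial (Option (Fin n) ⊕ τ) K) {R : Type*} [CommRing R] [Algebra K R]
    (z : Option (Fin n) → R) (ζ : τ → R) (y : Fin (N + 1) → R)
    (hy : ∀ i, aeval z (nd.pv i) = y i) :
    aeval (Sum.elim z ζ) (CP_F nd P₀ P j G) = aeval (Sum.elim z ζ) (nd.Hp P₀ P j G) *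
      aeval (nd.Vv P₀ y) nd.gf * (∏ i, aeval (CP_T nd (P i) (j i) (nd.Vv P₀ y)) nd.gf) *
      ∏ i, CP_T nd (P i) (j i + 1) (nd.Vv P₀ y) A.b₀ := by
  have h0 : ∀ i, aeval (Sum.elim z ζ) (rename (Sum.inl : Option (Fin n) → Option (Fin n) ⊕ τ)
      (nd.pv i)) = y i := by
    intro i
    rw [aeval_rename, ← hy i]
    rfl
  have h1 : ∀ a, aeval (Sum.elim z ζ) (nd.Vv P₀ (fun i =>
      rename (Sum.inl : Option (Fin n) → Option (Fin n) ⊕ τ) (nd.pv i)) a) = nd.Vv P₀ y a := by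
    intro a
    rw [nd.map_Vv]
    congr 1
    exact funext h0
  have h2 : ∀ (i : Fin m) (k : ℕ) (b : Fin (N + 1)), aeval (Sum.elim z ζ)
      (CP_T nd (P i) k (nd.Vv P₀ (fun i =>
        rename (Sum.inl : Option (Fin n) → Option (Fin n) ⊕ τ) (nd.pv i))) b) =
      CP_T nd (P i) k (nd.Vv P₀ y) b := by
    intro i k b
    rw [CP_map_T]
    congr 1
    exact funext h1
  unfold CP_F
  rw [map_mul, map_mul, map_mul, map_prod, map_prod]
  congr 1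
  · congr 1
    · congr 1
      rw [comp_aeval_apply]
      congr 2
      exact funext h1
    · refine Finset.prod_congr rfl fun i _ => ?_
      rw [comp_aeval_apply]
      congr 2
      exact funext (h2 i (j i))
  · exact Finset.prod_congr rfl fun i _ => h2 i (j i + 1) A.b₀

/-- The meaning of the polynomial of the conditions. -/
theorem CP_F_ne_iff {L : Type u} [Field L] [Algebra K L] {m : ℕ} {τ : Type} (P₀ : A.Pts K)
    (P : Fin m → A.Pts K) (j : Fin m → ℕ)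
    (g : MvPolynomial (Fin n ⊕ τ) K) (d : ℕ) (G : MvPolynomial (Option (Fin n) ⊕ τ) K)
    (hG : ∀ (v : Option (Fin n) → L) (ζ : τ → L), v none ≠ 0 →
      aeval (Sum.elim v ζ) G =
        v none ^ d * aeval (Sum.elim (fun t => v (some t) / v none) ζ) g)
    (z : Option (Fin n) → L) (ζ : τ → L) (y : Fin (N + 1) → L) (w : A.Pts L)
    (hy : ∀ i, aeval z (nd.pv i) = y i) (hw : A.Rep w y) :
    aeval (Sum.elim z ζ) (CP_F nd P₀ P j G) ≠ 0 ↔
      lf (nd.l 0) (A.x (A.img (Algebra.ofId K L) P₀ - w)) ≠ 0 ∧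
      nd.Good (A.img (Algebra.ofId K L) P₀ + w) ∧
      aeval (Sum.elim (nd.s (A.img (Algebra.ofId K L) P₀ + w)) ζ) g ≠ 0 ∧
      ∀ i, (lf (nd.l 0) (A.x (A.img (Algebra.ofId K L) (P i) +
          2 ^ j i • (A.img (Algebra.ofId K L) P₀ + w))) ≠ 0 ∧
        nd.Good (A.img (Algebra.ofId K L) (P i) -
          2 ^ j i • (A.img (Algebra.ofId K L) P₀ + w))) ∧
        lf (nd.l 0) (A.x (A.img (Algebra.ofId K L) (P i) +
          2 ^ (j i + 1) • (A.img (Algebra.ofId K L) P₀ + w))) ≠ 0 ∧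
        A.x (A.img (Algebra.ofId K L) (P i) -
          2 ^ (j i + 1) • (A.img (Algebra.ofId K L) P₀ + w)) A.b₀ ≠ 0 := by
  rw [CP_aeval_F nd P₀ P j G z ζ y hy, mul_ne_zero_iff, mul_ne_zero_iff, mul_ne_zero_iff,
    Finset.prod_ne_zero_iff, Finset.prod_ne_zero_iff,
    nd.Hp_ne_iff P₀ P j g d G hG z ζ y w hy hw]
  obtain ⟨c, hc, hV⟩ := nd.lf_Vv P₀ hw
  obtain ⟨Q, hQ⟩ : ∃ Q : A.Pts L, Q = A.img (Algebra.ofId K L) P₀ + w := ⟨_, rfl⟩
  obtain ⟨Q', hQ'⟩ : ∃ Q' : A.Pts L, Q' = A.img (Algebra.ofId K L) P₀ - w := ⟨_, rfl⟩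
  rw [← hQ, ← hQ'] at hV ⊢
  by_cases h0 : lf (nd.l 0) (A.x Q') = 0
  · simp [h0]
  have hc' : c * lf (nd.l 0) (A.x Q') ≠ 0 := mul_ne_zero hc h0
  have hVrep : A.Rep Q (nd.Vv P₀ y) := ⟨_, hc', hV⟩
  rw [nd.gf_ne_iff hVrep]
  have hT : ∀ i, lf (nd.l 0) (A.x (A.img (Algebra.ofId K L) (P i) + 2 ^ j i • Q)) ≠ 0 →
      (aeval (CP_T nd (P i) (j i) (nd.Vv P₀ y)) nd.gf ≠ 0 ↔
        nd.Good (A.img (Algebra.ofId K L) (P i) - 2 ^ j i • Q)) := by
    intro i h1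
    obtain ⟨c', hc'', h2⟩ := CP_T_eq nd (P i) (j i) hVrep
    exact nd.gf_ne_iff ⟨_, mul_ne_zero hc'' h1, h2⟩
  have hB : ∀ i, CP_T nd (P i) (j i + 1) (nd.Vv P₀ y) A.b₀ ≠ 0 ↔
      (lf (nd.l 0) (A.x (A.img (Algebra.ofId K L) (P i) + 2 ^ (j i + 1) • Q)) ≠ 0 ∧
        A.x (A.img (Algebra.ofId K L) (P i) - 2 ^ (j i + 1) • Q) A.b₀ ≠ 0) := by
    intro i
    obtain ⟨c', hc'', h2⟩ := CP_T_eq nd (P i) (j i + 1) hVrep
    rw [h2, mul_ne_zero_iff, mul_ne_zero_iff]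
    exact ⟨fun h => ⟨h.1.2, h.2⟩, fun h => ⟨⟨hc'', h.1⟩, h.2⟩⟩
  constructor
  · rintro ⟨⟨⟨⟨-, -, h3, h4⟩, h5⟩, h6⟩, h7⟩
    exact ⟨h0, h5, h3, fun i => ⟨⟨(h4 i).1, (hT i (h4 i).1).1 (h6 i (Finset.mem_univ i))⟩,
      (hB i).1 (h7 i (Finset.mem_univ i))⟩⟩
  · rintro ⟨-, h5, h3, h4⟩
    exact ⟨⟨⟨⟨h0, h5.1, h3, fun i => ⟨(h4 i).1.1, (h4 i).1.2.1⟩⟩, h5⟩,
      fun i _ => (hT i (h4 i).1.1).2 (h4 i).1.2⟩, fun i _ => (hB i).2 (h4 i).2⟩

variable {Ω : Type u} [Field Ω] [Algebra K Ω]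

/-- The generic point satisfies the conditions. -/
theorem CP_generic_ne {m : ℕ} {τ : Type} [Finite τ] (P₀ : A.Pts K) (P : Fin m → A.Pts K)
    (j : Fin m → ℕ) (g : MvPolynomial (Fin n ⊕ τ) K) (hg : g ≠ 0) {w : A.Pts Ω}
    {y : Fin (N + 1) → Ω} (hw : A.Rep w y) (h1 : lf (nd.l 0) y = 1) (ζ : τ → Ω)
    (hind : AlgebraicIndependent K (Sum.elim (fun t : Fin n => lf (nd.l t.succ) y) ζ)) :
    lf (nd.l 0) (A.x (A.img (Algebra.ofId K Ω) P₀ - w)) ≠ 0 ∧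
      nd.Good (A.img (Algebra.ofId K Ω) P₀ + w) ∧
      aeval (Sum.elim (nd.s (A.img (Algebra.ofId K Ω) P₀ + w)) ζ) g ≠ 0 ∧
      ∀ i, (lf (nd.l 0) (A.x (A.img (Algebra.ofId K Ω) (P i) +
          2 ^ j i • (A.img (Algebra.ofId K Ω) P₀ + w))) ≠ 0 ∧
        nd.Good (A.img (Algebra.ofId K Ω) (P i) -
          2 ^ j i • (A.img (Algebra.ofId K Ω) P₀ + w))) ∧
        lf (nd.l 0) (A.x (A.img (Algebra.ofId K Ω) (P i) +
          2 ^ (j i + 1) • (A.img (Algebra.ofId K Ω) P₀ + w))) ≠ 0 ∧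
        A.x (A.img (Algebra.ofId K Ω) (P i) -
          2 ^ (j i + 1) • (A.img (Algebra.ofId K Ω) P₀ + w)) A.b₀ ≠ 0 := by
  have hind1 : AlgebraicIndependent K fun t : Fin n => lf (nd.l t.succ) y :=
    hind.comp Sum.inl Sum.inl_injective
  have hind2 : AlgebraicIndependent K (Sum.elim (fun t : Fin n => lf (nd.l t.succ) y)
      (Empty.elim : Empty → Ω)) := by
    have h2 : (Sum.elim (fun t : Fin n => lf (nd.l t.succ) y) (Empty.elim : Empty → Ω)) =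
        (fun t : Fin n => lf (nd.l t.succ) y) ∘ Sum.elim id Empty.elim := by
      funext x
      rcases x with t | p
      · rfl
      · exact p.elim
    rw [h2]
    refine hind1.comp _ fun x x' hx => ?_
    rcases x with t | p
    · rcases x' with t' | p'
      · exact congrArg Sum.inl hx
      · exact p'.elim
    · exact p.elim
  have hs : ∀ T : A.Pts Ω, (∀ S : Set Ω, IsOv A S T → IsOv A S w) →
      lf (nd.l 0) (A.x T) ≠ 0 ∧ AlgebraicIndependent K (nd.s T) := by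
    intro T hT
    have h0 := lf_ne_of_dep nd hw h1 hind1 T hT
    have h2 := indep_of_dep nd hw h1 (Empty.elim : Empty → Ω) hind2 T hT h0
    exact ⟨h0, h2.comp Sum.inl Sum.inl_injective⟩
  have hG : ∀ T : A.Pts Ω, (∀ S : Set Ω, IsOv A S T → IsOv A S w) → nd.Good T := by
    intro T hT
    obtain ⟨h0, h2⟩ := hs T hT
    exact ⟨h0, fun h3 => nd.δ_ne (h2.eq_zero_of_aeval_eq_zero _ h3)⟩
  have hQ : ∀ S : Set Ω, IsOv A S (A.img (Algebra.ofId K Ω) P₀ + w) → IsOv A S w := by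
    intro S h
    have h2 := h.sub (IsOv.rat S P₀)
    rwa [add_sub_cancel_left] at h2
  obtain ⟨g1, -, g3, -⟩ := generic_ne nd P₀ P j g hg hw h1 ζ hind
  have hadd : ∀ (i : Fin m) (k : ℕ) (S : Set Ω), IsOv A S (A.img (Algebra.ofId K Ω) (P i) +
      2 ^ k • (A.img (Algebra.ofId K Ω) P₀ + w)) → IsOv A S w := by
    intro i k S h
    have h2 := h.sub (IsOv.rat S (P i))
    rw [add_sub_cancel_left] at h2
    exact hQ S (h2.of_nsmul (pow_ne_zero _ two_ne_zero))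
  have hsub : ∀ (i : Fin m) (k : ℕ) (S : Set Ω), IsOv A S (A.img (Algebra.ofId K Ω) (P i) -
      2 ^ k • (A.img (Algebra.ofId K Ω) P₀ + w)) → IsOv A S w := by
    intro i k S h
    have h2 := (IsOv.rat S (P i)).sub h
    rw [sub_sub_cancel] at h2
    exact hQ S (h2.of_nsmul (pow_ne_zero _ two_ne_zero))
  refine ⟨g1, hG _ hQ, g3, fun i => ⟨⟨(hs _ (hadd i (j i))).1, hG _ (hsub i (j i))⟩,
    (hs _ (hadd i (j i + 1))).1, ?_⟩⟩
  obtain ⟨h2, h3⟩ := hs _ (hsub i (j i + 1))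
  exact CP_b₀ nd h2 h3

end

/-- The choice of the field, of the translation and of the roots of unity. -/
theorem choose_LP {K : Type u} [Field K] [NumberField K] {N : ℕ} (A : AV K N) {n e m : ℕ}
    (nd : Noe A n e) (g : MvPolynomial (Fin n ⊕ Fin m × Option (Fin n)) K) (hg : g ≠ 0)
    (P₀ : A.Pts K) (P : Fin m → A.Pts K) (j : Fin m → ℕ) :
    ∃ (L : Type u) (_ : Field L) (_ : NumberField L) (_ : Algebra K L) (w : A.Pts L)
      (ζ : Fin m × Option (Fin n) → L), lf (nd.l 0) (A.x w) ≠ 0 ∧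
      (∀ t, ∃ k, 0 < k ∧ nd.s w t ^ k = 1) ∧ (∀ p, ∃ k, 0 < k ∧ ζ p ^ k = 1) ∧
      nd.Good (A.img (Algebra.ofId K L) P₀ + w) ∧
      aeval (Sum.elim (nd.s (A.img (Algebra.ofId K L) P₀ + w)) ζ) g ≠ 0 ∧
      ∀ i, nd.Good (A.img (Algebra.ofId K L) (P i) -
          2 ^ j i • (A.img (Algebra.ofId K L) P₀ + w)) ∧
        A.x (A.img (Algebra.ofId K L) (P i) -
          2 ^ (j i + 1) • (A.img (Algebra.ofId K L) P₀ + w)) A.b₀ ≠ 0 := by
  obtain ⟨d, G, hG⟩ := exists_homog g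
  have hF : CP_Gen nd (CP_F nd P₀ P j G) := by
    intro Ω _ _ z ζ y w hw h1 hδ hy hind
    rw [CP_F_ne_iff nd P₀ P j g d G (hG Ω) z ζ _ w hy (hw.smul hδ)]
    exact CP_generic_ne nd P₀ P j g hg hw h1 ζ hind
  obtain ⟨L, _, _, _, w, z, ζ, y, h1, h2, h3, hw, -, hδ, hy, hne⟩ := CP_choose nd _ hF
  rw [CP_F_ne_iff nd P₀ P j g d G (hG L) z ζ _ w hy (hw.smul hδ)] at hne
  obtain ⟨-, g2, g3, g4⟩ := hne
  exact ⟨L, inferInstance, inferInstance, inferInstance, w, ζ, h1, h2, h3, g2, g3,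
    fun i => ⟨(g4 i).1.2, (g4 i).2.2⟩⟩

end Pool.Agent.Lib.MP_17a322_nt.VP
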