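import Pool.Agent.Lib.MP_17a322_nt.VP.Defs
import Pool.Agent.Lib.MP_17a322_nt.VA.Z15
import Pool.Agent.Lib.MP_17a322_nt.VA.LA3a

/-!
The loss at the places of the chart is `o(H)`.
-/

universe u

namespace Pool.Agent.Lib.MP_17a322_nt.VP

open MvPolynomial Height Filter
open Pool.Agent.Lib.MP_17a322_nt.RO
open Pool.Agent.Lib.MP_17a322_nt.VJ
open Pool.Agent.Lib.MP_17a322_nt.VN hiding lf
open Pool.Agent.Lib.MP_17a322_nt.VA

/-- The size of a linear form. -/
theorem S_lf_le {K : Type*} [Field K] {N : ℕ} (v : AbsoluteValue K ℝ) (l : Fin (N + 1) → K) :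
    ∃ c : ℝ, 1 ≤ c ∧ ∀ x : Fin (N + 1) → K, v (lf l x) ≤ c * ⨆ a, v (x a) := by
  refine ⟨1 + ∑ a, v (l a), ?_, fun x => ?_⟩
  · have h1 : 0 ≤ ∑ a, v (l a) := Finset.sum_nonneg fun a _ => v.nonneg _
    linarith
  · have hM : ∀ a, v (x a) ≤ ⨆ a, v (x a) := fun a =>
      le_ciSup (Set.finite_range fun a => v (x a)).bddAbove a
    have hM0 : 0 ≤ ⨆ a, v (x a) := (v.nonneg _).trans (hM 0)
    have h1 : v (lf l x) ≤ ∑ a, v (l a) * v (x a) := by
      unfold lf
      refine (v.sum_le _ _).trans (Finset.sum_le_sum fun a _ => ?_)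
      rw [map_mul]
      exact le_rfl
    have h2 : ∑ a, v (l a) * v (x a) ≤ ∑ a, v (l a) * ⨆ a, v (x a) :=
      Finset.sum_le_sum fun a _ => mul_le_mul_of_nonneg_left (hM a) (v.nonneg _)
    rw [← Finset.sum_mul] at h2
    have h3 := h1.trans h2
    rw [add_mul, one_mul]
    linarith

/-- `lossP` is nonnegative. -/
theorem S_loss_nonneg {K : Type u} [Field K] {N : ℕ} {A : AV K N} {n e : ℕ} (nd : Noe A n e)
    (E : SC K) {L : Type u} [Field L] [Algebra K L] (v : AbsoluteValue L ℝ)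
    (P : A.Pts K) (t : K) (α β : MvPolynomial (Fin (N + 1)) K) :
    0 ≤ lossP nd E v P t α β := by
  unfold lossP
  have h1 : 0 ≤ Real.log (E.k v) := Real.log_nonneg (E.one_le v)
  have h2 : 0 ≤ Real.log (mq v fun b => algebraMap K L (nd.y P b)) :=
    Real.log_nonneg (one_le_mq v _)
  have h3 : 0 ≤ Real.log (max 1 (v (algebraMap K L t))) := Real.log_nonneg (le_max_left _ _)
  have h4 : Real.log (min 1 (v (algebraMap K L (eval (nd.s P) nd.δ)))) ≤ 0 :=
    Real.log_nonpos (le_min zero_le_one (v.nonneg _)) (min_le_left _ _)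
  have h5 := le_max_left 0 (Real.log (max (NV v (MvPolynomial.map (algebraMap K L) α))
      (NV v (MvPolynomial.map (algebraMap K L) β)) / v (algebraMap K L (eval (nd.y P) β))))
  linarith

theorem S_NV_nonneg {L : Type*} [Field L] (v : AbsoluteValue L ℝ) {σ : Type*}
    (F : MvPolynomial σ L) : 0 ≤ NV v F := by
  unfold NV
  split_ifs
  · exact Real.iSup_nonneg fun m => v.nonneg _
  · exact Finset.sum_nonneg fun m _ => v.nonneg _

/-- The value of a form at the affine coordinates. -/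
theorem S_eval_y {K : Type u} [Field K] {N : ℕ} {A : AV K N} {n e : ℕ} (nd : Noe A n e)
    (P : A.Pts K) (hP : lf (nd.l 0) (A.x P) ≠ 0) {D : ℕ} {α : MvPolynomial (Fin (N + 1)) K}
    (hα : α.IsHomogeneous D) :
    lf (nd.l 0) (A.x P) ^ D * eval (nd.y P) α = aeval (A.x P) α := by
  have h1 := Z_aeval_smul hα (lf (nd.l 0) (A.x P)) (nd.y P)
  have h2 : (fun i => lf (nd.l 0) (A.x P) * nd.y P i) = A.x P := by
    funext i
    unfold Noe.y
    rw [mul_div_cancel₀ _ hP]
  rw [h2] at h1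
  rw [h1]
  rfl

/-- The loss is `o(H)`. -/
theorem S_loss {K : Type u} [Field K] [NumberField K] {N : ℕ} {B : AV K N} {H : ℕ → ℝ}
    (hH : Tendsto H (hyperfilter ℕ : Filter ℕ) atTop) {Q : ℕ → B.Pts K}
    {b : B.Pts (GK K)} (hb : IsGerm B Q b) {n e : ℕ} (nd : Noe B n e) (hgood : nd.Good b)
    (t : ℕ → K) (v : AbsoluteValue K ℝ) (D : ℕ)
    (α β : ℕ → MvPolynomial (Fin (N + 1)) K)
    (hhom : ∀ᶠ i in (hyperfilter ℕ : Filter ℕ), (β i).IsHomogeneous D)
    (htv : ∃ C : ℝ, ∀ᶠ i in (hyperfilter ℕ : Filter ℕ), v (t i) ≤ C)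
    (hβ : ∀ δ : ℝ, 0 < δ → ∀ᶠ i in (hyperfilter ℕ : Filter ℕ),
      (⨆ a, v (B.x (Q i) a)) ^ D * (max (NV v (α i)) (NV v (β i))) * Real.exp (- δ * H i) ≤
        v (aeval (B.x (Q i)) (β i)))
    (hprox : ∀ z : MvPolynomial (Fin n) (k0 K H hH), aeval (nd.s b) z ≠ 0 →
      ∀ a : ℕ → K, gm a = aeval (nd.s b) z → ∀ δ : ℝ, 0 < δ →
      ∀ᶠ i in (hyperfilter ℕ : Filter ℕ), Real.exp (- δ * H i) ≤ v (a i))
    (hchart : ∀ δ : ℝ, 0 < δ → ∀ᶠ i in (hyperfilter ℕ : Filter ℕ),
      mq v (nd.y (Q i)) ≤ Real.exp (δ * H i)) (E : SC K) :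
    oH H fun i => lossP nd E v (Q i) (t i) (α i) (β i) := by
  have hgoodQ : ∀ᶠ i in (hyperfilter ℕ : Filter ℕ), nd.Good (Q i) := (good_germ nd hb).mp hgood
  -- the size of the affine coordinates
  have h1 : oH H fun i => Real.log (mq v (nd.y (Q i))) := by
    intro δ hδ
    filter_upwards [hchart δ hδ] with i hi
    have h2 := Real.log_le_log (mq_pos v _) hi
    rwa [Real.log_exp] at h2
  -- `t`
  have h2 : oH H fun i => Real.log (max 1 (v (t i))) := by
    obtain ⟨C, hC⟩ := htv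
    refine (oH_const hH (Real.log (max 1 C))).mono ?_
    filter_upwards [hC] with i hi
    exact Real.log_le_log (lt_max_of_lt_left one_pos) (max_le_max le_rfl hi)
  -- the discriminant
  have h3 : oH H fun i => - Real.log (min 1 (v (eval (nd.s (Q i)) nd.δ))) := by
    have g1 : aeval (nd.s b) (map (algebraMap K (k0 K H hH)) nd.δ) = aeval (nd.s b) nd.δ :=
      aeval_map_algebraMap _ _ _
    have g2 : gm (fun i => eval (nd.s (Q i)) nd.δ) = aeval (nd.s b) nd.δ := by
      have g3 := Z_aeval_gm (fun k i => nd.s (Q i) k) nd.δ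
      rw [show (fun k => gm fun i => nd.s (Q i) k) = nd.s b from
        funext fun k => Z_gm_s nd hb k] at g3
      rw [g3]
      rfl
    intro δ hδ
    filter_upwards [hprox (map (algebraMap K (k0 K H hH)) nd.δ) (by rw [g1]; exact hgood.2)
      (fun i => eval (nd.s (Q i)) nd.δ) (by rw [g1, g2]) δ hδ, hH.eventually_ge_atTop 0]
      with i hi hi0
    have g3 : Real.exp (- δ * H i) ≤ 1 := by
      rw [Real.exp_le_one_iff]
      have := mul_nonneg hδ.le hi0
      linarith
    have g4 := Real.log_le_log (Real.exp_pos _) (le_min g3 hi)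
    rw [Real.log_exp] at g4
    linarith
  -- the denominator
  obtain ⟨c, hc1, hc⟩ := S_lf_le v (nd.l 0)
  have h4 : oH H fun i => max 0 (Real.log (max (NV v (α i)) (NV v (β i)) /
      v (eval (nd.y (Q i)) (β i)))) := by
    have hDc : 0 ≤ (D : ℝ) * Real.log c := mul_nonneg (Nat.cast_nonneg _) (Real.log_nonneg hc1)
    intro δ hδ
    filter_upwards [hβ (δ / 2) (by positivity), hgoodQ, hhom,
      oH_const hH (D * Real.log c) (δ / 2) (by positivity), hH.eventually_ge_atTop 0]
      with i g1 g2 g3 g4 g5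
    refine max_le (mul_nonneg hδ.le g5) ?_
    obtain ⟨X, hX⟩ : ∃ X : ℝ, X = ⨆ a, v (B.x (Q i) a) := ⟨_, rfl⟩
    obtain ⟨M, hM⟩ : ∃ M : ℝ, M = max (NV v (α i)) (NV v (β i)) := ⟨_, rfl⟩
    rw [← hX, ← hM] at g1
    rw [← hM]
    have hM0 : 0 ≤ M := by
      rw [hM]
      exact (S_NV_nonneg v _).trans (le_max_left _ _)
    have g6 := S_eval_y nd (Q i) g2.1 g3
    have g7 : v (lf (nd.l 0) (B.x (Q i))) ≤ c * X := by
      rw [hX]
      exact hc _
    have g8 : 0 < v (lf (nd.l 0) (B.x (Q i))) := v.pos g2.1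
    have hcX : 0 < c * X := g8.trans_le g7
    have hc0 : 0 < c := one_pos.trans_le hc1
    have hX0 : 0 < X := pos_of_mul_pos_right hcX hc0.le
    have g9 : M / v (eval (nd.y (Q i)) (β i)) ≤ c ^ D * Real.exp (δ / 2 * H i) := by
      rcases (v.nonneg (eval (nd.y (Q i)) (β i))).eq_or_lt with h0 | h0
      · rw [← h0, div_zero]
        positivity
      · rw [div_le_iff₀ h0]
        have g10 : X ^ D * M * Real.exp (-(δ / 2) * H i) ≤
            (c * X) ^ D * v (eval (nd.y (Q i)) (β i)) := by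
          refine g1.trans ?_
          rw [← g6, map_mul, map_pow]
          exact mul_le_mul_of_nonneg_right (pow_le_pow_left₀ g8.le g7 D) h0.le
        have g11 : Real.exp (-(δ / 2) * H i) * Real.exp (δ / 2 * H i) = 1 := by
          rw [← Real.exp_add]
          have : -(δ / 2) * H i + δ / 2 * H i = 0 := by ring
          rw [this, Real.exp_zero]
        have g12 := mul_le_mul_of_nonneg_right g10 (Real.exp_pos (δ / 2 * H i)).le
        have g13 : X ^ D * M * Real.exp (-(δ / 2) * H i) * Real.exp (δ / 2 * H i) = X ^ D * M := by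
          rw [mul_assoc, g11, mul_one]
        rw [g13, mul_pow] at g12
        have g14 : X ^ D * M ≤ X ^ D * (c ^ D * Real.exp (δ / 2 * H i) *
            v (eval (nd.y (Q i)) (β i))) := by
          refine g12.trans (le_of_eq ?_)
          ring
        exact le_of_mul_le_mul_left g14 (pow_pos hX0 D)
    rcases (div_nonneg hM0 (v.nonneg (eval (nd.y (Q i)) (β i)))).eq_or_lt with h0 | h0
    · rw [← h0, Real.log_zero]
      exact mul_nonneg hδ.le g5
    · have g10 := Real.log_le_log h0 g9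
      rw [Real.log_mul (pow_pos hc0 D).ne' (Real.exp_pos _).ne', Real.log_pow,
        Real.log_exp] at g10
      linarith
  have h5 := ((((oH_const hH (Real.log (E.k v))).add h1).add h2).add h3).add h4
  refine h5.mono (Eventually.of_forall fun i => le_of_eq ?_)
  unfold lossP
  have e1 : MvPolynomial.map (algebraMap K K) (α i) = α i := by
    rw [Algebra.algebraMap_self, MvPolynomial.map_id]
  have e2 : MvPolynomial.map (algebraMap K K) (β i) = β i := by
    rw [Algebra.algebraMap_self, MvPolynomial.map_id]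
  rw [e1, e2]
  simp only [Algebra.algebraMap_self, RingHom.id_apply]
  ring

end Pool.Agent.Lib.MP_17a322_nt.VP
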