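import Pool.Agent.Lib.MP_17a322_nt.VA.L0

/-!
Roth's theorem with moving targets over abelian varieties: definitions.
-/

universe u

namespace Pool.Agent.Lib.MP_17a322_nt.VP

open MvPolynomial Height
open Pool.Agent.Lib.MP_17a322_nt.RO
open Pool.Agent.Lib.MP_17a322_nt.VJ
open Pool.Agent.Lib.MP_17a322_nt.VN
open Pool.Agent.Lib.MP_17a322_nt.VA

/-- The variables of the auxiliary polynomial: `x a` Noether coordinates of `Q`, `th i` the primitive
element of `P i - 2 ^ j i Q`, `z (i, a)` its Noether coordinates, `u i` the coordinate of the `i`-th point of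
the line. -/
inductive VF (m n : ℕ) : Type
  | x : Fin n → VF m n
  | th : Fin m → VF m n
  | z : Fin m × Fin n → VF m n
  | u : Fin m → VF m n
  deriving DecidableEq, Fintype

/-- Values of the variables. -/
def vf {m n : ℕ} {R : Type*} (x : Fin n → R) (th : Fin m → R) (z : Fin m × Fin n → R)
    (u : Fin m → R) : VF m n → R
  | VF.x a => x a
  | VF.th i => th i
  | VF.z p => z p
  | VF.u i => u i

section

variable {K : Type u} [Field K] {N : ℕ} {A : AV K N} {n e : ℕ} (nd : Noe A n e)

/-- The values at the vectors `Y` (for `Q`), `η i` (for `P i - 2 ^ j i Q`), `u`. -/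
noncomputable def vN {m : ℕ} {R : Type*} [CommRing R] [Algebra K R] (Y : Fin (N + 1) → R)
    (η : Fin m → Fin (N + 1) → R) (u : Fin m → R) : VF m n → R :=
  vf (fun a => lf (nd.l a.succ) Y) (fun i => aeval (η i) nd.θ)
    (fun p => lf (nd.l p.2.succ) (η p.1)) u

/-- The vector `y` satisfies the equations of `A`, is in the chart `l 0 = 1`, and the discriminant does
not vanish. -/
def Ch {R : Type u} [CommRing R] [Algebra K R] (y : Fin (N + 1) → R) : Prop :=
  A.IsPt y ∧ lf (nd.l 0) y = 1 ∧ aeval (fun k : Fin n => lf (nd.l k.succ) y) nd.δ ≠ 0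

/-- `F` vanishes to weight `T` along `u i = α i / β i` (functions of `P i`): at all points over all
domains the coefficients of weight less than `T` of the expansion in the variables `u i` vanish. -/
def Van {m : ℕ} (j : Fin m → ℕ) (α β : Fin m → MvPolynomial (Fin (N + 1)) K) (T : ℝ)
    (F : MvPolynomial (VF m n) K) : Prop :=
  ∀ (R : Type u) [CommRing R] [IsDomain R] [Algebra K R] (Y : Fin (N + 1) → R)
    (η x : Fin m → Fin (N + 1) → R) (c f : Fin m → R),
    Ch nd Y → (∀ i, Ch nd (η i)) → (∀ i, c i ≠ 0) →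
    (∀ i a, A.row A.b₀ (η i) (A.mu (j i) Y) a = c i * x i a) →
    (∀ i, aeval (x i) (β i) ≠ 0) → (∀ i, f i * aeval (x i) (β i) = aeval (x i) (α i)) →
    ∀ w : Fin m →₀ ℕ, (∑ i, (4 : ℝ) ^ j i * w i) < T →
      coeff w (aeval (vN nd (fun a => (C (Y a) : MvPolynomial (Fin m) R)) (fun i a => C (η i a))
        fun i => X i + C (f i)) F) = 0

/-- The height of a pair of polynomials. -/
noncomputable def ht2 {K : Type*} [Field K] [AdmissibleAbsValues K] {σ : Type*}
    (α β : MvPolynomial σ K) : ℝ :=
  gs fun v => Real.log (max (NV v α) (NV v β))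

/-- The size of the denominators at the point `P` (affine coordinates `nd.y P`), of `t` and of the
target `α / β`. -/
noncomputable def lossP (E : SC K) {L : Type u} [Field L] [Algebra K L] (v : AbsoluteValue L ℝ)
    (P : A.Pts K) (t : K) (α β : MvPolynomial (Fin (N + 1)) K) : ℝ :=
  Real.log (E.k v) + Real.log (mq v fun b => algebraMap K L (nd.y P b)) +
    Real.log (max 1 (v (algebraMap K L t))) -
    Real.log (min 1 (v (algebraMap K L (eval (nd.s P) nd.δ)))) +
    max 0 (Real.log (max (NV v (MvPolynomial.map (algebraMap K L) α))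
      (NV v (MvPolynomial.map (algebraMap K L) β)) / v (algebraMap K L (eval (nd.y P) β))))

/-- The joint gain at `v` for the targets `α i l / β i l`. -/
noncomputable def tg (E : SC K) (C₁ : ℝ) {L : Type u} [Field L] [Algebra K L] {m r : ℕ}
    (j : Fin m → ℕ) (P : Fin m → A.Pts K) (t : Fin m → K)
    (α β : Fin m → Fin r → MvPolynomial (Fin (N + 1)) K) (v : AbsoluteValue L ℝ) : ℝ :=
  ⨆ l : Fin r, max 0 (⨅ i : Fin m,
    (- Real.log (v (algebraMap K L (t i - eval (nd.y (P i)) (α i l) / eval (nd.y (P i)) (β i l)))) -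
      C₁ * lossP nd E v (P i) (t i) (α i l) (β i l)) / 4 ^ j i)

/-- The radius of the path through `P`. -/
noncomputable def rdP (E : SC K) (c₀ : ℕ) {L : Type u} [Field L] [Algebra K L]
    (v : AbsoluteValue L ℝ) (P : A.Pts K) : ℝ :=
  (v (algebraMap K L (eval (nd.s P) nd.δ)) /
    (E.k v * mq v (fun b => algebraMap K L (nd.y P b)) ^ c₀)) ^ c₀

end

end Pool.Agent.Lib.MP_17a322_nt.VP
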