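import Pool.Agent.Lib.MP_17a322_nt.VP.EN1
import Pool.Agent.Lib.MP_17a322_nt.VP.Defs

/-!
Roth's theorem over abelian varieties, part E: exchange of the primitive element of one block.
-/

universe u

namespace Pool.Agent.Lib.MP_17a322_nt.VP

open MvPolynomial
open Pool.Agent.Lib.MP_17a322_nt.RO
open Pool.Agent.Lib.MP_17a322_nt.VJ
open Pool.Agent.Lib.MP_17a322_nt.VN
open Pool.Agent.Lib.MP_17a322_nt.VA

section

open scoped IntermediateField.algebraAdjoinAdjoin

/-- Independence over the relative algebraic closure of the field generated by the other elements. -/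
theorem EN_indep {K Ω ι κ : Type*} [Field K] [Field Ω] [Algebra K Ω] {v : ι → Ω}
    (hv : AlgebraicIndependent K v) (f : κ → ι) (hf : Function.Injective f) :
    AlgebraicIndependent (algebraicClosure (IntermediateField.adjoin K (v '' (Set.range f)ᶜ)) Ω)
      (v ∘ f) := by
  have h1 := (AlgebraicIndependent.iff_adjoin_image_compl (Set.range f)).1 hv
  have h2 : AlgebraicIndependent (Algebra.adjoin K (v '' (Set.range f)ᶜ)) (v ∘ f) :=
    h1.2.comp (fun a : κ => (⟨f a, ⟨a, rfl⟩⟩ : Set.range f)) fun a b hab =>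
      hf (congrArg Subtype.val hab)
  exact (h2.extendScalars (IntermediateField.adjoin K (v '' (Set.range f)ᶜ))).algebraicClosure

end

section

variable {K : Type u} [Field K] {N : ℕ} {A : AV K N} {n e : ℕ} (nd : Noe A n e)

/-- The primitive element of one block may be replaced by any other root. -/
theorem EN_step {m : ℕ} {Ω : Type u} [Field Ω] [Algebra K Ω] {x : Fin n → Ω}
    {z : Fin m × Fin n → Ω} {w : Fin m → Ω}
    (hind : AlgebraicIndependent K (Sum.elim x (Sum.elim z w))) {t : Fin m → Ω}
    (ht : ∀ i, nd.Φ.eval₂ (aeval fun a => z (i, a)).toRingHom (t i) = 0) (i : Fin m) {r : Ω}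
    (hr : nd.Φ.eval₂ (aeval fun a => z (i, a)).toRingHom r = 0)
    {F : MvPolynomial (VF m n) K} (hF : aeval (vf x t z w) F = 0) :
    aeval (vf x (Function.update t i r) z w) F = 0 := by
  classical
  obtain ⟨v, hv⟩ : ∃ v : Fin n ⊕ ((Fin m × Fin n) ⊕ Fin m) → Ω,
    v = Sum.elim x (Sum.elim z w) := ⟨_, rfl⟩
  rw [← hv] at hind
  let f : Fin n → Fin n ⊕ ((Fin m × Fin n) ⊕ Fin m) := fun a => Sum.inr (Sum.inl (i, a))
  have hf : Function.Injective f := by
    intro a b h
    have h1 := Sum.inl_injective (Sum.inr_injective h)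
    exact congrArg Prod.snd h1
  have hz := EN_indep hind f hf
  have hvf : v ∘ f = fun a => z (i, a) := by
    rw [hv]
    rfl
  rw [hvf] at hz
  let k₀ := IntermediateField.adjoin K (v '' (Set.range f)ᶜ)
  let k := algebraicClosure k₀ Ω
  have htow : IsScalarTower K k Ω := IsScalarTower.of_algebraMap_eq fun _ => rfl
  -- the elements of the field
  have hmem0 : ∀ p, p ∉ Set.range f → v p ∈ k₀ := fun p hp =>
    IntermediateField.subset_adjoin K _ ⟨p, hp, rfl⟩
  have hk0 : ∀ y : Ω, y ∈ k₀ → ∃ c : k, algebraMap k Ω c = y := by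
    intro y hy
    exact ⟨algebraMap k₀ k ⟨y, hy⟩, rfl⟩
  have hx : ∀ a, ∃ c : k, algebraMap k Ω c = x a := by
    intro a
    refine hk0 _ ?_
    have h1 := hmem0 (Sum.inl a) (by rintro ⟨b, hb⟩; exact Sum.inr_ne_inl hb)
    rw [hv] at h1
    exact h1
  have hw : ∀ a, ∃ c : k, algebraMap k Ω c = w a := by
    intro a
    refine hk0 _ ?_
    have h1 := hmem0 (Sum.inr (Sum.inr a)) (by
      rintro ⟨b, hb⟩
      exact Sum.inl_ne_inr (Sum.inr_injective hb))
    rw [hv] at h1
    exact h1
  have hzm : ∀ p : Fin m × Fin n, p.1 ≠ i → z p ∈ k₀ := by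
    intro p hp
    have h1 := hmem0 (Sum.inr (Sum.inl p)) (by
      rintro ⟨b, hb⟩
      have h2 := Sum.inl_injective (Sum.inr_injective hb)
      exact hp (by rw [← h2]))
    rw [hv] at h1
    exact h1
  have hz' : ∀ p : Fin m × Fin n, ∃ c : k, p.1 ≠ i → algebraMap k Ω c = z p := by
    intro p
    by_cases hp : p.1 = i
    · exact ⟨0, fun h => absurd hp h⟩
    · obtain ⟨c, hc⟩ := hk0 _ (hzm p hp)
      exact ⟨c, fun _ => hc⟩
  have ht' : ∀ j : Fin m, ∃ c : k, j ≠ i → algebraMap k Ω c = t j := by
    intro j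
    by_cases hj : j = i
    · exact ⟨0, fun h => absurd hj h⟩
    · have h1 : IsAlgebraic k₀ (t j) := by
        let φ : MvPolynomial (Fin n) K →ₐ[K] k₀ :=
          aeval fun a => (⟨z (j, a), hzm (j, a) hj⟩ : k₀)
        refine ⟨nd.Φ.map φ.toRingHom, (nd.Φ_monic.map _).ne_zero, ?_⟩
        rw [Polynomial.aeval_def, Polynomial.eval₂_map, ← ht j]
        congr 1
        have h2 : ((IsScalarTower.toAlgHom K k₀ Ω).comp φ) = aeval fun a => z (j, a) := by
          apply MvPolynomial.algHom_ext
          intro a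
          rw [AlgHom.comp_apply, aeval_X, aeval_X]
          rfl
        exact congrArg AlgHom.toRingHom h2
      have h2 : t j ∈ k := mem_algebraicClosure_iff.2 h1
      exact ⟨⟨t j, h2⟩, fun _ => rfl⟩
  choose cx hcx using hx
  choose cw hcw using hw
  choose cz' hcz using hz'
  choose ct hct using ht'
  -- the polynomial in the coordinates of one point
  let σ : VF m n → MvPolynomial (Fin (N + 1)) k := vf (fun a => C (cx a))
    (fun j => if j = i then MvPolynomial.map (algebraMap K k) nd.θ else C (ct j))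
    (fun p => if p.1 = i then lp (fun b => algebraMap K k (nd.l p.2.succ b)) else C (cz' p))
    (fun j => C (cw j))
  have hval : ∀ (y : Fin (N + 1) → Ω) (s : Ω), (∀ a : Fin n, lf (nd.l a.succ) y = z (i, a)) →
      aeval y nd.θ = s →
      aeval y (aeval σ F : MvPolynomial (Fin (N + 1)) k) =
        aeval (vf x (Function.update t i s) z w) F := by
    intro y s hy hs
    have h1 := MvPolynomial.comp_aeval_apply σ
      ((aeval y : MvPolynomial (Fin (N + 1)) k →ₐ[k] Ω).restrictScalars K) F
    have h2 : (fun q => ((aeval y : MvPolynomial (Fin (N + 1)) k →ₐ[k] Ω).restrictScalars K)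
        (σ q)) = vf x (Function.update t i s) z w := by
      funext q
      rw [AlgHom.restrictScalars_apply]
      rcases q with a | j | p | j
      · show aeval y (C (cx a)) = x a
        rw [aeval_C, hcx]
      · show aeval y (if j = i then MvPolynomial.map (algebraMap K k) nd.θ else C (ct j)) =
          Function.update t i s j
        by_cases hj : j = i
        · rw [if_pos hj, hj, Function.update_self, aeval_map_algebraMap, hs]
        · rw [if_neg hj, Function.update_of_ne hj, aeval_C, hct j hj]
      · show aeval y (if p.1 = i then lp (fun b => algebraMap K k (nd.l p.2.succ b))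
          else C (cz' p)) = z p
        by_cases hp : p.1 = i
        · rw [if_pos hp, aeval_lp, EN_lf, hy, ← hp]
        · rw [if_neg hp, aeval_C, hcz p hp]
      · show aeval y (C (cw j)) = w j
        rw [aeval_C, hcw]
    rw [← h2]
    exact h1
  -- the two points
  have hδ : IsUnit (aeval (fun a => z (i, a)) nd.δ) := by
    rw [isUnit_iff_ne_zero]
    intro h
    have h1 : AlgebraicIndependent K fun a => z (i, a) := by
      have h2 := hind.comp f hf
      rw [hvf] at h2
      exact h2
    exact nd.δ_ne ((injective_iff_map_eq_zero _).1 h1 _ h)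
  obtain ⟨y, hy, hy0, hys, hyt⟩ := nd.back Ω (fun a => z (i, a)) (t i) (ht i) hδ
  obtain ⟨y', hy', hy'0, hy's, hy't⟩ := nd.back Ω (fun a => z (i, a)) r hr hδ
  have hind' : AlgebraicIndependent k fun a : Fin n => lf (nd.l a.succ) y := by
    have h1 : (fun a : Fin n => lf (nd.l a.succ) y) = fun a => z (i, a) := funext hys
    rw [h1]
    exact hz
  have h1 : aeval y (aeval σ F : MvPolynomial (Fin (N + 1)) k) = 0 := by
    rw [hval y (t i) hys hyt, Function.update_eq_self, hF]
  have h2 := EN_gen nd hy hy0 hind' h1 hy' hy'0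
  rw [hval y' r hy's hy't] at h2
  exact h2

end

end Pool.Agent.Lib.MP_17a322_nt.VP
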