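import Pool.Agent.Lib.MP_17a322_nt.VP.Defs
import Pool.Agent.Lib.MP_17a322_nt.VN.L1d
import Pool.Agent.Lib.MP_17a322_nt.VJ.A3
import Pool.Agent.Lib.MP_17a322_nt.VJ.E2
import Pool.Agent.Lib.MP_17a322_nt.VA.LA1

/-!
VP, numerical theorem: the gain from the vanishing of the coefficients of small weight.
-/

universe u

namespace Pool.Agent.Lib.MP_17a322_nt.VP

open MvPolynomial Height
open Pool.Agent.Lib.MP_17a322_nt.RO
open Pool.Agent.Lib.MP_17a322_nt.VJ
open Pool.Agent.Lib.MP_17a322_nt.VN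
open Pool.Agent.Lib.MP_17a322_nt.VA

section

variable {L : Type*} [Field L] {v : AbsoluteValue L ℝ} {R : Type*} [CommRing R] [Algebra L R]
  {ν : R → ℝ}

/-- The sum of the coefficients of a series (up to degree `n`) whose coefficients of degree less than
`T` vanish. -/
theorem N_sum_le (h : SN v ν) {lam : ℝ} (h0 : 0 < lam) (h1 : lam ≤ 1) (n : ℕ) (T : ℝ)
    (c : PowerSeries R) (hc : ∀ k : ℕ, (k : ℝ) < T → PowerSeries.coeff k c = 0) :
    ν (∑ k ∈ Finset.range (n + 1), PowerSeries.coeff k c) ≤ lam ^ T * PA v ν lam⁻¹ n c := by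
  have hli : 0 ≤ lam⁻¹ := (inv_pos.2 h0).le
  have hT : 0 < lam ^ T := Real.rpow_pos_of_pos h0 T
  have hterm : ∀ k : ℕ, ν (PowerSeries.coeff k c) ≤
      lam ^ T * (ν (PowerSeries.coeff k c) * lam⁻¹ ^ k) := by
    intro k
    by_cases hk : (k : ℝ) < T
    · rw [hc k hk, h.zero, zero_mul, mul_zero]
    · have h2 : lam ^ (k : ℝ) ≤ lam ^ T := Real.rpow_le_rpow_of_exponent_ge h0 h1 (not_lt.1 hk)
      rw [Real.rpow_natCast] at h2
      have h3 : lam ^ k * lam⁻¹ ^ k = 1 := by
        rw [← mul_pow, mul_inv_cancel₀ h0.ne', one_pow]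
      have h4 : 0 ≤ ν (PowerSeries.coeff k c) * lam⁻¹ ^ k :=
        mul_nonneg (h.nonneg _) (pow_nonneg hli _)
      calc ν (PowerSeries.coeff k c) = lam ^ k * (ν (PowerSeries.coeff k c) * lam⁻¹ ^ k) := by
            rw [mul_left_comm, h3, mul_one]
        _ ≤ _ := mul_le_mul_of_nonneg_right h2 h4
  by_cases hv : IsNonarchimedean v
  · refine SN.sum_le_max hv h _ _ ?_ fun k hk => ?_
    · exact mul_nonneg hT.le ((SN_PA h hli n).nonneg c)
    · refine (hterm k).trans (mul_le_mul_of_nonneg_left ?_ hT.le)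
      exact PA_coeff_le h hli (Nat.lt_succ_iff.1 (Finset.mem_range.1 hk)) c
  · refine (h.sum_le_sum _ _).trans ?_
    refine (Finset.sum_le_sum fun k _ => hterm k).trans (le_of_eq ?_)
    rw [← Finset.mul_sum]
    congr 1
    unfold PA
    rw [if_neg hv, ← Finset.sum_range fun k => ν (PowerSeries.coeff k c) * lam⁻¹ ^ k]

end

section

variable {K L : Type*} [Field K] [Field L] [Algebra K L] {v : AbsoluteValue L ℝ} {R : Type*}
  [CommRing R] [Algebra L R] [Algebra K R] [IsScalarTower K L R] {ν : R → ℝ}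

/-- The gain. -/
theorem N_gain (h : SN v ν) {σ : Type*} [Fintype σ] (F : MvPolynomial σ K) (f x : σ → R)
    (w : σ → ℕ) (T : ℝ)
    (hc : ∀ k : ℕ, (k : ℝ) < T → PowerSeries.coeff k
      (aeval (fun s => (PowerSeries.C (f s) + PowerSeries.C (x s) * PowerSeries.X ^ w s :
        PowerSeries R)) F) = 0) (B : σ → ℝ) (hB : ∀ s, 1 ≤ B s) (hf : ∀ s, ν (f s) ≤ B s)
    {lam : ℝ} (h0 : 0 < lam) (h1 : lam ≤ 1) (hx : ∀ s, ν (x s) ≤ lam ^ w s) :
    ν (aeval (fun s => f s + x s) F) ≤ NV v (MvPolynomial.map (algebraMap K L) F) *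
      (∏ s, (cst v 2 * B s) ^ F.degreeOf s) * lam ^ T := by
  classical
  have hli : 0 ≤ lam⁻¹ := (inv_pos.2 h0).le
  obtain ⟨Φ, hΦ⟩ : ∃ Φ : Polynomial R, Φ = aeval (fun s => Polynomial.C (f s) +
    Polynomial.C (x s) * Polynomial.X ^ w s) F := ⟨_, rfl⟩
  -- the power series
  let ι : Polynomial R →ₐ[K] PowerSeries R :=
    { Polynomial.coeToPowerSeries.ringHom with
      commutes' := by
        intro a
        show Polynomial.coeToPowerSeries.ringHom (algebraMap K (Polynomial R) a) =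
          algebraMap K (PowerSeries R) a
        rw [Polynomial.algebraMap_apply, PowerSeries.algebraMap_apply]
        exact Polynomial.coe_C _ }
  have hι : ∀ p : Polynomial R, ι p = (p : PowerSeries R) := fun _ => rfl
  have e1 : (Φ : PowerSeries R) =
      aeval (fun s => (PowerSeries.C (f s) + PowerSeries.C (x s) * PowerSeries.X ^ w s :
        PowerSeries R)) F := by
    rw [← hι, hΦ, ← AlgHom.comp_apply, MvPolynomial.comp_aeval]
    congr 2
    funext s
    show ι (Polynomial.C (f s) + Polynomial.C (x s) * Polynomial.X ^ w s) = _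
    rw [hι, Polynomial.coe_add, Polynomial.coe_mul, Polynomial.coe_pow, Polynomial.coe_C,
      Polynomial.coe_C, Polynomial.coe_X]
  -- the value at 1
  have e2 : aeval (fun s => f s + x s) F = ∑ k ∈ Finset.range (Φ.natDegree + 1),
      PowerSeries.coeff k (Φ : PowerSeries R) := by
    let ev : Polynomial R →ₐ[K] R := (Polynomial.aeval (1 : R)).restrictScalars K
    have e3 : aeval (fun s => f s + x s) F = ev Φ := by
      rw [hΦ, ← AlgHom.comp_apply, MvPolynomial.comp_aeval]
      congr 2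
      funext s
      show _ = Polynomial.aeval (1 : R) (Polynomial.C (f s) + Polynomial.C (x s) *
        Polynomial.X ^ w s)
      rw [map_add, map_mul, map_pow, Polynomial.aeval_X, Polynomial.aeval_C, Polynomial.aeval_C,
        one_pow, mul_one]
      rfl
    have e4 : ev Φ = Polynomial.aeval (1 : R) Φ := rfl
    rw [e3, e4, Polynomial.aeval_eq_sum_range]
    refine Finset.sum_congr rfl fun k _ => ?_
    rw [one_pow, smul_eq_mul, mul_one, Polynomial.coeff_coe]
  rw [e2]
  refine (N_sum_le h h0 h1 _ T _ fun k hk => by rw [e1]; exact hc k hk).trans ?_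
  rw [mul_comm]
  refine mul_le_mul_of_nonneg_right ?_ (Real.rpow_nonneg h0.le T)
  have hS := SN_PA h hli Φ.natDegree
  rw [e1]
  have hcst : 1 ≤ cst v 2 := one_le_cst v (by norm_num)
  refine (hS.aeval_le' F (fun s => F.degreeOf s) (fun _ => le_rfl) _).trans ?_
  refine mul_le_mul_of_nonneg_left ?_ ((v.nonneg _).trans (coeff_le_NV v _ 0))
  refine Finset.prod_le_prod (fun s _ => pow_nonneg (zero_le_one.trans (le_max_left _ _)) _)
    fun s _ => ?_
  refine pow_le_pow_left₀ (zero_le_one.trans (le_max_left _ _)) ?_ _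
  have hBs : 1 ≤ cst v 2 * B s := one_le_mul_of_one_le_of_one_le hcst (hB s)
  refine max_le hBs ?_
  refine hS.add_le_cst ?_ ?_
  · rw [PA_C h]
    exact hf s
  · refine (hS.mul _ _).trans ?_
    rw [PA_C h]
    have h3 : PA v ν lam⁻¹ Φ.natDegree ((PowerSeries.X : PowerSeries R) ^ w s) ≤ lam⁻¹ ^ w s :=
      (hS.pow_le _ _).trans (pow_le_pow_left₀ (hS.nonneg _) (PA_X_le h hli _) _)
    refine (mul_le_mul (hx s) h3 (hS.nonneg _) (pow_nonneg h0.le _)).trans ?_
    rw [← mul_pow, mul_inv_cancel₀ h0.ne', one_pow]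
    exact hB s

end

end Pool.Agent.Lib.MP_17a322_nt.VP
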