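import Pool.Agent.Lib.MP_17a322_nt.VP.N3
import Pool.Agent.Lib.MP_17a322_nt.VP.DefsB
import Pool.Agent.Lib.MP_17a322_nt.VA.A1

/-!
VP, numerical theorem: one block at one place.
-/

universe u

namespace Pool.Agent.Lib.MP_17a322_nt.VP

open MvPolynomial Height
open Pool.Agent.Lib.MP_17a322_nt.RO
open Pool.Agent.Lib.MP_17a322_nt.VJ
open Pool.Agent.Lib.MP_17a322_nt.VN
open Pool.Agent.Lib.MP_17a322_nt.VA

section

variable {K L : Type*} [Field K] [Field L] [Algebra K L]

theorem N_expand_eq {w : ℕ} (hw : w ≠ 0) (y f : PowerSeries L)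
    (h : ∀ k, PowerSeries.coeff k y = if w ∣ k then PowerSeries.coeff (k / w) f else 0) :
    y = PowerSeries.expand w hw f := by
  ext k
  rw [PowerSeries.coeff_expand, h]

theorem N_expand_C {w : ℕ} (hw : w ≠ 0) (a : L) :
    PowerSeries.expand w hw (PowerSeries.C a) = PowerSeries.C a := by
  ext k
  rw [PowerSeries.coeff_expand, PowerSeries.coeff_C, PowerSeries.coeff_C]
  by_cases hk : w ∣ k
  · rw [if_pos hk]
    obtain ⟨l, rfl⟩ := hk
    rw [Nat.mul_div_cancel_left l (Nat.pos_of_ne_zero hw)]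
    simp [hw]
  · rw [if_neg hk, if_neg]
    rintro rfl
    exact hk (dvd_zero w)

/-- Uniqueness of the quotient. -/
theorem N_quot {σ : Type*} (α β : MvPolynomial σ K) (y : σ → PowerSeries L)
    (h : PowerSeries.constantCoeff (aeval y β) ≠ 0) {u : PowerSeries L}
    (hu : u * aeval y β = aeval y α) : u = aeval y α * (aeval y β)⁻¹ := by
  rw [← hu, mul_assoc, PowerSeries.mul_inv_cancel _ h, mul_one]

/-- The size of `t + ζ Z ^ w - α / β` along a path at one place. -/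
theorem N_blk_aux (v : AbsoluteValue L ℝ) {N : ℕ} (D : ℕ) (α β : MvPolynomial (Fin (N + 1)) K)
    (hα : ∀ t, α.degreeOf t ≤ D) (hβ : ∀ t, β.degreeOf t ≤ D) (w : ℕ) (hw : w ≠ 0)
    (y : Fin (N + 1) → PowerSeries L) (y₀ : Fin (N + 1) → L)
    (hy0 : ∀ b, PowerSeries.constantCoeff (y b) = y₀ b)
    (hyf : ∀ b, ∃ f : PowerSeries L, ∀ k, PowerSeries.coeff k (y b) =
      if w ∣ k then PowerSeries.coeff (k / w) f else 0)
    {R Y : ℝ} (hR0 : 0 < R) (hR1 : R ≤ 1) (hY : 1 ≤ Y)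
    (hsz : ∀ r : ℝ, 0 ≤ r → r ^ w ≤ R → ∀ b N₁, PN v r N₁ (y b) ≤ Y)
    (hβ0 : aeval y₀ β ≠ 0) {B : ℝ} (hB1 : 1 ≤ B)
    (hB : cst v 2 * (max (NV v (MvPolynomial.map (algebraMap K L) α))
      (NV v (MvPolynomial.map (algebraMap K L) β)) * Y ^ ((N + 1) * D)) ≤
        B * v (aeval y₀ β)) (t ζ : L) (hζ : v ζ ≤ 1) {g : ℝ} (hg : g ≤ 1)
    (hg0 : 0 ≤ g) (ht : cst v 3 * v (t - aeval y₀ α / aeval y₀ β) ≤ g) :
    ∀ r : ℝ, 0 ≤ r → cst v 3 * (r ^ w * B ^ 2) ≤ g * R → ∀ N₁,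
      PN v r N₁ (PowerSeries.C t + PowerSeries.C ζ * PowerSeries.X ^ w -
        aeval y α * (aeval y β)⁻¹) ≤ g := by
  intro r hr0 hr N₁
  choose F hF using hyf
  have hF' : ∀ b, y b = PowerSeries.expand w hw (F b) := fun b => N_expand_eq hw _ _ (hF b)
  have hB0 : 0 < B := zero_lt_one.trans_le hB1
  have hc3 : 1 ≤ cst v 3 := one_le_cst v (by norm_num)
  have hc30 : 0 < cst v 3 := zero_lt_one.trans_le hc3
  -- the inner series
  have hF0 : ∀ b, PowerSeries.constantCoeff (F b) = y₀ b := by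
    intro b
    rw [← hy0, ← PowerSeries.coeff_zero_eq_constantCoeff_apply,
      ← PowerSeries.coeff_zero_eq_constantCoeff_apply, hF b 0, if_pos (dvd_zero w), Nat.zero_div]
  have hFs : ∀ b n, PN v R n (F b) ≤ Y := by
    intro b n
    obtain ⟨ρ, hρ⟩ : ∃ ρ : ℝ, ρ = R ^ ((w : ℝ)⁻¹) := ⟨_, rfl⟩
    have hρ0 : 0 ≤ ρ := by rw [hρ]; exact Real.rpow_nonneg hR0.le _
    have hρw : ρ ^ w = R := by
      rw [hρ]
      exact Real.rpow_inv_natCast_pow hR0.le hw
    have h1 := N_expand_ge v hρ0 hw n (F b)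
    rw [hρw, ← hF'] at h1
    exact h1.trans (hsz ρ hρ0 hρw.le b _)
  obtain ⟨u, hu, hus⟩ := N_target v D α β hα hβ F y₀ hF0 hR0.le hY hFs hβ0 hB1 hB
  -- the quotient along the path
  have hae : ∀ G : MvPolynomial (Fin (N + 1)) K,
      aeval y G = PowerSeries.expand w hw (aeval F G) := by
    intro G
    let φ : PowerSeries L →ₐ[K] PowerSeries L :=
      (PowerSeries.expand w hw : PowerSeries L →ₐ[L] PowerSeries L).restrictScalars K
    have h1 : PowerSeries.expand w hw (aeval F G) = φ (aeval F G) := rfl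
    rw [h1, ← AlgHom.comp_apply, MvPolynomial.comp_aeval]
    congr 2
    funext b
    exact hF' b
  have hcc : ∀ G : MvPolynomial (Fin (N + 1)) K,
      PowerSeries.constantCoeff (aeval y G) = aeval y₀ G := by
    intro G
    let φ : PowerSeries L →ₐ[K] L :=
      { (PowerSeries.constantCoeff (R := L)) with
        commutes' := by
          intro a
          show PowerSeries.constantCoeff (algebraMap K (PowerSeries L) a) = algebraMap K L a
          rw [PowerSeries.algebraMap_apply, PowerSeries.constantCoeff_C] }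
    have h1 : PowerSeries.constantCoeff (aeval y G) = φ (aeval y G) := rfl
    rw [h1, ← AlgHom.comp_apply, MvPolynomial.comp_aeval]
    congr 2
    funext b
    exact hy0 b
  have hq : PowerSeries.expand w hw u = aeval y α * (aeval y β)⁻¹ := by
    refine N_quot α β y (by rw [hcc]; exact hβ0) ?_
    rw [hae, hae, ← map_mul, hu]
  rw [← hq]
  -- the decomposition
  obtain ⟨u₀, hu₀⟩ : ∃ u₀, u₀ = aeval y₀ α / aeval y₀ β := ⟨_, rfl⟩
  rw [← hu₀] at hus ht
  have hdec : PowerSeries.C t + PowerSeries.C ζ * PowerSeries.X ^ w -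
      PowerSeries.expand w hw u = ∑ i : Fin 3, ![PowerSeries.C (t - u₀),
        PowerSeries.C ζ * PowerSeries.X ^ w,
        - PowerSeries.expand w hw (u - PowerSeries.C u₀)] i := by
    rw [Fin.sum_univ_three]
    simp only [Matrix.cons_val_zero, Matrix.cons_val_one, Matrix.cons_val_two,
      Matrix.tail_cons, Matrix.head_cons, map_sub, N_expand_C]
    ring
  have hSN := SN_PN v hr0 N₁
  have hgc : 0 ≤ g / cst v 3 := div_nonneg hg0 hc30.le
  rw [hdec]
  refine (hSN.sum_le Finset.univ _ hgc ?_).trans ?_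
  · intro i _
    have hrw : r ^ w ≤ g / cst v 3 := by
      rw [le_div_iff₀ hc30]
      have h1 : 1 ≤ B ^ 2 := one_le_pow₀ hB1
      have h2 : r ^ w ≤ r ^ w * B ^ 2 := le_mul_of_one_le_right (pow_nonneg hr0 _) h1
      calc r ^ w * cst v 3 ≤ r ^ w * B ^ 2 * cst v 3 := mul_le_mul_of_nonneg_right h2 hc30.le
        _ = cst v 3 * (r ^ w * B ^ 2) := mul_comm _ _
        _ ≤ g * R := hr
        _ ≤ g := mul_le_of_le_one_right hg0 hR1
    fin_cases i
    · show PN v r N₁ (PowerSeries.C (t - u₀)) ≤ _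
      rw [PN_C, le_div_iff₀ hc30, mul_comm]
      exact ht
    · show PN v r N₁ (PowerSeries.C ζ * PowerSeries.X ^ w) ≤ _
      refine (hSN.mul _ _).trans ?_
      have h1 : PN v r N₁ (PowerSeries.C ζ) ≤ 1 := by rw [PN_C]; exact hζ
      have h2 : PN v r N₁ (PowerSeries.X ^ w) ≤ r ^ w :=
        (hSN.pow_le _ _).trans (pow_le_pow_left₀ (hSN.nonneg _) (PA_X_le (SN_self v) hr0 N₁) w)
      calc _ ≤ 1 * r ^ w := mul_le_mul h1 h2 (hSN.nonneg _) zero_le_one
        _ = r ^ w := one_mul _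
        _ ≤ _ := hrw
    · show PN v r N₁ (- PowerSeries.expand w hw (u - PowerSeries.C u₀)) ≤ _
      rw [hSN.neg]
      refine (PN_expand v hr0 hw N₁ _).trans ?_
      obtain ⟨lam, hlam⟩ : ∃ lam, lam = g / (cst v 3 * B ^ 2) := ⟨_, rfl⟩
      have hcB : 0 < cst v 3 * B ^ 2 := mul_pos hc30 (pow_pos hB0 2)
      have hl0 : 0 ≤ lam := by rw [hlam]; exact div_nonneg hg0 hcB.le
      have hlR : r ^ w ≤ lam * R := by
        rw [hlam, div_mul_eq_mul_div, le_div_iff₀ hcB]
        calc r ^ w * (cst v 3 * B ^ 2) = cst v 3 * (r ^ w * B ^ 2) := by ring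
          _ ≤ _ := hr
      have hlB : lam * B ≤ 1 := by
        rw [hlam, div_mul_eq_mul_div, div_le_one hcB]
        calc g * B ≤ 1 * B := mul_le_mul_of_nonneg_right hg hB0.le
          _ ≤ cst v 3 * B ^ 2 := by
            rw [pow_two, ← mul_assoc]
            refine mul_le_mul_of_nonneg_right ?_ hB0.le
            calc (1 : ℝ) ≤ cst v 3 := hc3
              _ ≤ cst v 3 * B := le_mul_of_one_le_right hc30.le hB1
      have h1 := hus lam hl0 hlB N₁
      have h2 : PN v (r ^ w) N₁ (u - PowerSeries.C u₀) ≤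
          PN v (lam * R) N₁ (u - PowerSeries.C u₀) :=
        PA_mono (SN_self v) (pow_nonneg hr0 w) hlR N₁ _
      refine (h2.trans h1).trans (le_of_eq ?_)
      rw [hlam]
      field_simp
  · rw [Finset.card_univ, Fintype.card_fin]
    exact (mul_div_cancel₀ g hc30.ne').le

/-- The size of the quotient along the path. -/
theorem N_blk_size (v : AbsoluteValue L ℝ) {r : ℝ} (hr : 0 ≤ r) (hr1 : r ≤ 1) (w N₁ : ℕ)
    (f : PowerSeries L) (t ζ : L) (hζ : v ζ ≤ 1)
    (h : PN v r N₁ (PowerSeries.C t + PowerSeries.C ζ * PowerSeries.X ^ w - f) ≤ 1) :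
    PN v r N₁ f ≤ cst v 2 * (cst v 2 * max 1 (v t)) := by
  have hSN := SN_PN v hr N₁
  have h0 : f = (PowerSeries.C t + PowerSeries.C ζ * PowerSeries.X ^ w) -
      (PowerSeries.C t + PowerSeries.C ζ * PowerSeries.X ^ w - f) := by ring
  have hc : 1 ≤ cst v 2 := one_le_cst v (by norm_num)
  have h1 : PN v r N₁ (PowerSeries.C t + PowerSeries.C ζ * PowerSeries.X ^ w) ≤
      cst v 2 * max 1 (v t) := by
    refine hSN.add_le_cst ?_ ?_
    · show PN v r N₁ (PowerSeries.C t) ≤ _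
      rw [PN_C]
      exact le_max_right _ _
    · refine le_trans ?_ (le_max_left _ _)
      refine (hSN.mul _ _).trans ?_
      have h2 : PN v r N₁ (PowerSeries.C ζ) ≤ 1 := by rw [PN_C]; exact hζ
      have h3 : PN v r N₁ (PowerSeries.X ^ w) ≤ 1 :=
        (hSN.pow_le _ _).trans (pow_le_one₀ (hSN.nonneg _)
          ((PA_X_le (SN_self v) hr N₁).trans hr1))
      exact mul_le_one₀ h2 (hSN.nonneg _) h3
  rw [h0]
  refine hSN.sub_le_cst h1 (h.trans ?_)
  calc (1 : ℝ) ≤ cst v 2 := hc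
    _ ≤ _ := le_mul_of_one_le_right (zero_le_one.trans hc) (le_max_left _ _)

end

section

variable {K : Type u} [Field K] {N : ℕ} {A : AV K N} {n e : ℕ} (nd : Noe A n e)

/-- The constant. -/
noncomputable def N_C1 (N D c₀ : ℕ) : ℝ := 3 + 2 * ((N + 1) * D : ℕ) + c₀ + (c₀ : ℝ) ^ 2

theorem N_C1_nonneg (N D c₀ : ℕ) : 0 ≤ N_C1 N D c₀ := by
  unfold N_C1
  positivity

/-- The first part of the loss. -/
noncomputable def N_l0 (E : SC K) {L : Type u} [Field L] [Algebra K L] (v : AbsoluteValue L ℝ)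
    (P : A.Pts K) (t : K) : ℝ :=
  Real.log (E.k v) + Real.log (mq v fun b => algebraMap K L (nd.y P b)) +
    Real.log (max 1 (v (algebraMap K L t))) -
    Real.log (min 1 (v (algebraMap K L (eval (nd.s P) nd.δ))))

/-- The second part of the loss. -/
noncomputable def N_lx {L : Type u} [Field L] [Algebra K L] (v : AbsoluteValue L ℝ)
    (P : A.Pts K) (α β : MvPolynomial (Fin (N + 1)) K) : ℝ :=
  max 0 (Real.log (max (NV v (MvPolynomial.map (algebraMap K L) α))
      (NV v (MvPolynomial.map (algebraMap K L) β)) / v (algebraMap K L (eval (nd.y P) β))))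

theorem N_lossP_eq (E : SC K) {L : Type u} [Field L] [Algebra K L] (v : AbsoluteValue L ℝ)
    (P : A.Pts K) (t : K) (α β : MvPolynomial (Fin (N + 1)) K) :
    lossP nd E v P t α β = N_l0 nd E v P t + N_lx nd v P α β := rfl

theorem N_lx_nonneg {L : Type u} [Field L] [Algebra K L] (v : AbsoluteValue L ℝ)
    (P : A.Pts K) (α β : MvPolynomial (Fin (N + 1)) K) : 0 ≤ N_lx nd v P α β := le_max_left _ _

theorem N_one_le_mq {L : Type*} [Field L] (v : AbsoluteValue L ℝ) {ι : Type*} [Fintype ι]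
    (q : ι → L) : 1 ≤ mq v q := le_max_left _ _

theorem N_l0_nonneg (E : SC K) {L : Type u} [Field L] [Algebra K L] (v : AbsoluteValue L ℝ)
    (P : A.Pts K) (t : K) : 0 ≤ N_l0 nd E v P t := by
  unfold N_l0
  have h1 := Real.log_nonneg (E.one_le v)
  have h2 := Real.log_nonneg (N_one_le_mq v fun b => algebraMap K L (nd.y P b))
  have h3 := Real.log_nonneg (le_max_left 1 (v (algebraMap K L t)))
  have h4 : Real.log (min 1 (v (algebraMap K L (eval (nd.s P) nd.δ)))) ≤ 0 :=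
    Real.log_nonpos (le_min zero_le_one (v.nonneg _)) (min_le_left _ _)
  linarith

theorem N_lossP_nonneg (E : SC K) {L : Type u} [Field L] [Algebra K L] (v : AbsoluteValue L ℝ)
    (P : A.Pts K) (t : K) (α β : MvPolynomial (Fin (N + 1)) K) :
    0 ≤ lossP nd E v P t α β := by
  rw [N_lossP_eq]
  exact add_nonneg (N_l0_nonneg nd E v P t) (N_lx_nonneg nd v P α β)

/-- One block at one place. -/
theorem N_blk (E₀ E : SC K) (c₀ : ℕ) {L : Type u} [Field L] [Algebra K L]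
    (v : AbsoluteValue L ℝ) (hE : E₀.k v ≤ E.k v) (hE3 : cst v 3 ≤ E.k v) (D : ℕ) (C₁ : ℝ)
    (hC₁ : N_C1 N D c₀ ≤ C₁) (P : A.Pts K) (t : K) (α β : MvPolynomial (Fin (N + 1)) K)
    (hα : ∀ s, α.degreeOf s ≤ D) (hβ : ∀ s, β.degreeOf s ≤ D)
    (hδ : eval (nd.s P) nd.δ ≠ 0) (hβ0 : eval (nd.y P) β ≠ 0) (w : ℕ) (hw : w ≠ 0)
    (y : Fin (N + 1) → PowerSeries L)
    (hy0 : ∀ b, PowerSeries.constantCoeff (y b) = algebraMap K L (nd.y P b))
    (hyf : ∀ b, ∃ f : PowerSeries L, ∀ k, PowerSeries.coeff k (y b) =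
      if w ∣ k then PowerSeries.coeff (k / w) f else 0)
    (hR : 0 < rdP nd E₀ c₀ v P ∧ rdP nd E₀ c₀ v P ≤ 1)
    (hsz : ∀ r : ℝ, 0 ≤ r → r ^ w ≤ rdP nd E₀ c₀ v P → ∀ b N₁,
      PN v r N₁ (y b) ≤ E₀.k v * mq v fun b => algebraMap K L (nd.y P b))
    (ζ : L) (hζ : v ζ ≤ 1) {γ : ℝ} (hγ : 0 ≤ γ)
    (hγt : γ ≤ - Real.log (v (algebraMap K L (t - eval (nd.y P) α / eval (nd.y P) β))) -
      C₁ * lossP nd E v P t α β) (r : ℝ) (hr0 : 0 ≤ r)
    (hr : r ^ w ≤ Real.exp (- γ) * Real.exp (- (C₁ * lossP nd E v P t α β))) (N₁ : ℕ) :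
    PN v r N₁ (PowerSeries.C (algebraMap K L t) + PowerSeries.C ζ * PowerSeries.X ^ w -
        aeval y α * (aeval y β)⁻¹) ≤ Real.exp (- γ) := by
  have hmap : ∀ F : MvPolynomial (Fin (N + 1)) K,
      aeval (fun b => algebraMap K L (nd.y P b)) F = algebraMap K L (eval (nd.y P) F) := by
    intro F
    exact MvPolynomial.aeval_algebraMap_apply L (nd.y P) F
  have hvβ : 0 < v (algebraMap K L (eval (nd.y P) β)) :=
    v.pos ((map_ne_zero_iff _ (algebraMap K L).injective).2 hβ0)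
  have hvδ : 0 < v (algebraMap K L (eval (nd.s P) nd.δ)) :=
    v.pos ((map_ne_zero_iff _ (algebraMap K L).injective).2 hδ)
  obtain ⟨Mx, hMx⟩ : ∃ Mx, Mx = max (NV v (MvPolynomial.map (algebraMap K L) α))
      (NV v (MvPolynomial.map (algebraMap K L) β)) := ⟨_, rfl⟩
  have hMx0 : 0 ≤ Mx := by
    rw [hMx]
    exact ((v.nonneg _).trans (coeff_le_NV v _ 0)).trans (le_max_left _ _)
  obtain ⟨q, hq⟩ : ∃ q, q = mq v fun b => algebraMap K L (nd.y P b) := ⟨_, rfl⟩
  have hq1 : 1 ≤ q := by rw [hq]; exact N_one_le_mq v _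
  have hE1 : 1 ≤ E₀.k v := E₀.one_le v
  obtain ⟨Y, hY⟩ : ∃ Y, Y = E₀.k v * q := ⟨_, rfl⟩
  have hY1 : 1 ≤ Y := by rw [hY]; exact one_le_mul_of_one_le_of_one_le hE1 hq1
  have hY0 : 0 < Y := zero_lt_one.trans_le hY1
  have hc21 : 1 ≤ cst v 2 := one_le_cst v (by norm_num)
  have hc31 : 1 ≤ cst v 3 := one_le_cst v (by norm_num)
  have hc23 : cst v 2 ≤ cst v 3 := cst_mono v (by norm_num)
  obtain ⟨B, hB⟩ : ∃ B, B = max 1 (cst v 2 * (Mx * Y ^ ((N + 1) * D)) /
      v (algebraMap K L (eval (nd.y P) β))) := ⟨_, rfl⟩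
  have hB1 : 1 ≤ B := by rw [hB]; exact le_max_left _ _
  have hB0 : 0 < B := zero_lt_one.trans_le hB1
  have hBm : cst v 2 * (Mx * Y ^ ((N + 1) * D)) ≤
      B * v (algebraMap K L (eval (nd.y P) β)) := by
    rw [← div_le_iff₀ hvβ, hB]
    exact le_max_right _ _
  -- the logarithms
  obtain ⟨a1, ha1⟩ : ∃ a1, a1 = Real.log (E.k v) := ⟨_, rfl⟩
  obtain ⟨a2, ha2⟩ : ∃ a2, a2 = Real.log q := ⟨_, rfl⟩
  obtain ⟨a3, ha3⟩ : ∃ a3, a3 = Real.log (max 1 (v (algebraMap K L t))) := ⟨_, rfl⟩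
  obtain ⟨a4, ha4⟩ : ∃ a4, a4 = - Real.log (min 1 (v (algebraMap K L (eval (nd.s P) nd.δ)))) :=
    ⟨_, rfl⟩
  obtain ⟨a5, ha5⟩ : ∃ a5, a5 = N_lx nd v P α β := ⟨_, rfl⟩
  have hloss : lossP nd E v P t α β = a1 + a2 + a3 + a4 + a5 := by
    rw [N_lossP_eq, ha1, ha2, ha3, ha4, ha5, hq]
    unfold N_l0
    ring
  have hE0 : 0 < E.k v := E.pos v
  have h1 : 0 ≤ a1 := by rw [ha1]; exact Real.log_nonneg (E.one_le v)
  have h2 : 0 ≤ a2 := by rw [ha2]; exact Real.log_nonneg hq1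
  have h3 : 0 ≤ a3 := by rw [ha3]; exact Real.log_nonneg (le_max_left _ _)
  have h4 : 0 ≤ a4 := by
    rw [ha4, neg_nonneg]
    exact Real.log_nonpos (le_min zero_le_one (v.nonneg _)) (min_le_left _ _)
  have h5 : 0 ≤ a5 := by rw [ha5]; exact N_lx_nonneg nd v P α β
  have hlE : Real.log (E₀.k v) ≤ a1 := by rw [ha1]; exact Real.log_le_log (E₀.pos v) hE
  have hlE0 : 0 ≤ Real.log (E₀.k v) := Real.log_nonneg hE1
  have hlc3 : Real.log (cst v 3) ≤ a1 := by
    rw [ha1]; exact Real.log_le_log (zero_lt_one.trans_le hc31) hE3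
  have hlc2 : Real.log (cst v 2) ≤ a1 :=
    (Real.log_le_log (zero_lt_one.trans_le hc21) hc23).trans hlc3
  have hlY : Real.log Y ≤ a1 + a2 := by
    rw [hY, Real.log_mul (zero_lt_one.trans_le hE1).ne' (zero_lt_one.trans_le hq1).ne', ← ha2]
    linarith
  have hlY0 : 0 ≤ Real.log Y := Real.log_nonneg hY1
  have hnn : 0 ≤ (((N + 1) * D : ℕ) : ℝ) := Nat.cast_nonneg _
  have hlB : Real.log B ≤ a1 + a5 + ((N + 1) * D : ℕ) * (a1 + a2) := by
    have hrhs : 0 ≤ a1 + a5 + ((N + 1) * D : ℕ) * (a1 + a2) :=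
      add_nonneg (add_nonneg h1 h5) (mul_nonneg hnn (add_nonneg h1 h2))
    rw [hB]
    rcases le_total (cst v 2 * (Mx * Y ^ ((N + 1) * D)) /
      v (algebraMap K L (eval (nd.y P) β))) 1 with hle | hle
    · rw [max_eq_left hle, Real.log_one]
      exact hrhs
    · rw [max_eq_right hle]
      have hMp : 0 < Mx := by
        rcases hMx0.lt_or_eq with h | h
        · exact h
        · exfalso
          rw [← h, zero_mul, mul_zero, zero_div] at hle
          exact absurd hle (by norm_num)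
      have h6 : cst v 2 * (Mx * Y ^ ((N + 1) * D)) / v (algebraMap K L (eval (nd.y P) β)) =
          cst v 2 * ((Mx / v (algebraMap K L (eval (nd.y P) β))) * Y ^ ((N + 1) * D)) := by
        ring
      have hMd : 0 < Mx / v (algebraMap K L (eval (nd.y P) β)) := div_pos hMp hvβ
      rw [h6, Real.log_mul (zero_lt_one.trans_le hc21).ne' (mul_pos hMd (pow_pos hY0 _)).ne',
        Real.log_mul hMd.ne' (pow_pos hY0 _).ne', Real.log_pow]
      have h7 : Real.log (Mx / v (algebraMap K L (eval (nd.y P) β))) ≤ a5 := by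
        rw [ha5, hMx]
        exact le_max_right _ _
      have h8 := mul_le_mul_of_nonneg_left hlY hnn
      linarith
  have hlR : - Real.log (rdP nd E₀ c₀ v P) ≤ c₀ * (a4 + a1 + c₀ * a2) := by
    have h6 : Real.log (rdP nd E₀ c₀ v P) = c₀ * (Real.log (v (algebraMap K L
        (eval (nd.s P) nd.δ))) - (Real.log (E₀.k v) + c₀ * a2)) := by
      unfold rdP
      rw [← hq, Real.log_pow, Real.log_div hvδ.ne'
        (mul_pos (zero_lt_one.trans_le hE1) (pow_pos (zero_lt_one.trans_le hq1) _)).ne',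
        Real.log_mul (zero_lt_one.trans_le hE1).ne' (pow_pos (zero_lt_one.trans_le hq1) _).ne',
        Real.log_pow, ← ha2]
    have h7 : - Real.log (v (algebraMap K L (eval (nd.s P) nd.δ))) ≤ a4 := by
      rw [ha4]
      exact neg_le_neg (Real.log_le_log (lt_min zero_lt_one hvδ) (min_le_right _ _))
    rw [h6, ← mul_neg]
    refine mul_le_mul_of_nonneg_left ?_ (Nat.cast_nonneg _)
    linarith
  have hkey : Real.log (cst v 3) + 2 * Real.log B - Real.log (rdP nd E₀ c₀ v P) ≤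
      C₁ * lossP nd E v P t α β := by
    have h6 : N_C1 N D c₀ * lossP nd E v P t α β ≤ C₁ * lossP nd E v P t α β :=
      mul_le_mul_of_nonneg_right hC₁ (N_lossP_nonneg nd E v P t α β)
    refine le_trans ?_ h6
    rw [hloss]
    unfold N_C1
    have hc : (0 : ℝ) ≤ c₀ := Nat.cast_nonneg _
    have e1 := mul_nonneg hc h1
    have e2 := mul_nonneg hc h2
    have e3 := mul_nonneg hc h3
    have e4 := mul_nonneg hc h4
    have e5 := mul_nonneg hc h5
    have f1 := mul_nonneg hc e1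
    have f2 := mul_nonneg hc e2
    have f3 := mul_nonneg hc e3
    have f4 := mul_nonneg hc e4
    have f5 := mul_nonneg hc e5
    have g1 := mul_nonneg hnn h1
    have g2 := mul_nonneg hnn h2
    have g3 := mul_nonneg hnn h3
    have g4 := mul_nonneg hnn h4
    have g5 := mul_nonneg hnn h5
    nlinarith [hlc3, hlB, hlR]
  have hexp : cst v 3 * (B ^ 2 * Real.exp (- (C₁ * lossP nd E v P t α β))) ≤
      rdP nd E₀ c₀ v P := by
    have hc30 : 0 < cst v 3 := zero_lt_one.trans_le hc31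
    rw [← Real.log_le_log_iff (mul_pos hc30 (mul_pos (pow_pos hB0 2) (Real.exp_pos _))) hR.1,
      Real.log_mul hc30.ne' (mul_pos (pow_pos hB0 2) (Real.exp_pos _)).ne',
      Real.log_mul (pow_pos hB0 2).ne' (Real.exp_pos _).ne', Real.log_exp, Real.log_pow]
    push_cast
    linarith
  have hexp2 : cst v 3 * Real.exp (- (C₁ * lossP nd E v P t α β)) ≤ 1 := by
    have h6 : cst v 3 * Real.exp (- (C₁ * lossP nd E v P t α β)) ≤
        cst v 3 * (B ^ 2 * Real.exp (- (C₁ * lossP nd E v P t α β))) := by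
      refine mul_le_mul_of_nonneg_left ?_ (zero_le_one.trans hc31)
      exact le_mul_of_one_le_left (Real.exp_pos _).le (one_le_pow₀ hB1)
    exact (h6.trans hexp).trans hR.2
  have hγ1 : Real.exp (- γ) ≤ 1 := Real.exp_le_one_iff.2 (by linarith)
  have hyb : aeval (fun b => algebraMap K L (nd.y P b)) β ≠ 0 := by
    rw [hmap]
    exact (map_ne_zero_iff _ (algebraMap K L).injective).2 hβ0
  refine N_blk_aux v D α β hα hβ w hw y (fun b => algebraMap K L (nd.y P b)) hy0 hyf hR.1 hR.2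
    hY1 (by rw [hY, hq]; exact hsz) hyb hB1 (by rw [hmap, ← hMx]; exact hBm)
    (algebraMap K L t) ζ hζ hγ1 (Real.exp_pos _).le ?_ r hr0 ?_ N₁
  · rw [hmap, hmap, ← map_div₀, ← map_sub]
    obtain ⟨z, hz⟩ : ∃ z, z = v (algebraMap K L (t - eval (nd.y P) α / eval (nd.y P) β)) :=
      ⟨_, rfl⟩
    rw [← hz] at hγt ⊢
    have hz0 : 0 ≤ z := by rw [hz]; exact v.nonneg _
    rcases hz0.lt_or_eq with hz1 | hz1
    · have h6 : z ≤ Real.exp (- γ) * Real.exp (- (C₁ * lossP nd E v P t α β)) := by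
        rw [← Real.exp_add, ← Real.log_le_iff_le_exp hz1]
        linarith
      calc cst v 3 * z ≤ cst v 3 * (Real.exp (- γ) *
            Real.exp (- (C₁ * lossP nd E v P t α β))) :=
            mul_le_mul_of_nonneg_left h6 (zero_le_one.trans hc31)
        _ = Real.exp (- γ) * (cst v 3 * Real.exp (- (C₁ * lossP nd E v P t α β))) := by ring
        _ ≤ Real.exp (- γ) * 1 := mul_le_mul_of_nonneg_left hexp2 (Real.exp_pos _).le
        _ = _ := mul_one _
    · rw [← hz1, mul_zero]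
      exact (Real.exp_pos _).le
  · calc cst v 3 * (r ^ w * B ^ 2) ≤ cst v 3 * ((Real.exp (- γ) *
          Real.exp (- (C₁ * lossP nd E v P t α β))) * B ^ 2) :=
          mul_le_mul_of_nonneg_left (mul_le_mul_of_nonneg_right hr (pow_nonneg hB0.le 2))
            (zero_le_one.trans hc31)
      _ = Real.exp (- γ) * (cst v 3 * (B ^ 2 * Real.exp (- (C₁ * lossP nd E v P t α β)))) := by
        ring
      _ ≤ _ := mul_le_mul_of_nonneg_left hexp (Real.exp_pos _).le

end

end Pool.Agent.Lib.MP_17a322_nt.VP
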