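import Pool.Agent.Lib.MP_17a322_nt.VA.A5b
import Pool.Agent.Lib.MP_17a322_nt.VP.Defs

/-!
VP, numerical theorem: the vanishing along the paths.
-/

universe u

namespace Pool.Agent.Lib.MP_17a322_nt.VP

open MvPolynomial Height
open Pool.Agent.Lib.MP_17a322_nt.RO
open Pool.Agent.Lib.MP_17a322_nt.VJ
open Pool.Agent.Lib.MP_17a322_nt.VN
open Pool.Agent.Lib.MP_17a322_nt.VA

/-- The substitution `X i ↦ x i * Z ^ w i`. -/
theorem N_subst {R : Type*} [CommRing R] {m : ℕ} (G : MvPolynomial (Fin m) R) (x : Fin m → R)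
    (w : Fin m → ℕ) (T : ℝ)
    (hG : ∀ μ : Fin m →₀ ℕ, (∑ i, (w i : ℝ) * μ i) < T → coeff μ G = 0) (k : ℕ)
    (hk : (k : ℝ) < T) :
    PowerSeries.coeff k (aeval (fun i => (PowerSeries.C (x i) * PowerSeries.X ^ w i :
      PowerSeries R)) G) = 0 := by
  classical
  rw [aeval_def, eval₂_eq', map_sum]
  refine Finset.sum_eq_zero fun μ _ => ?_
  have h1 : ∏ i, (PowerSeries.C (x i) * PowerSeries.X ^ w i : PowerSeries R) ^ μ i =
      PowerSeries.C (∏ i, x i ^ μ i) * PowerSeries.X ^ (∑ i, w i * μ i) := by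
    simp only [mul_pow, Finset.prod_mul_distrib, ← pow_mul, map_prod, map_pow,
      Finset.prod_pow_eq_pow_sum]
  rw [h1]
  have h2 : algebraMap R (PowerSeries R) (coeff μ G) = PowerSeries.C (coeff μ G) :=
    PowerSeries.algebraMap_apply
  rw [h2, ← mul_assoc, ← map_mul, PowerSeries.coeff_C_mul, PowerSeries.coeff_X_pow]
  split_ifs with h3
  · have h4 : coeff μ G = 0 := by
      refine hG μ ?_
      have h5 : (∑ i, (w i : ℝ) * μ i) = (k : ℝ) := by
        rw [h3]
        push_cast
        rfl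
      rw [h5]
      exact hk
    rw [h4, zero_mul, zero_mul]
  · rw [mul_zero]

section

variable {K : Type u} [Field K] {N : ℕ} {A : AV K N} {n e : ℕ} (nd : Noe A n e)

/-- Images of the values of the variables. -/
theorem N_map_vN {m : ℕ} {R R' : Type*} [CommRing R] [Algebra K R] [CommRing R'] [Algebra K R']
    (φ : R →ₐ[K] R') (Y : Fin (N + 1) → R) (η : Fin m → Fin (N + 1) → R) (u : Fin m → R)
    (s : VF m n) : φ (vN nd Y η u s) = vN nd (fun a => φ (Y a)) (fun i a => φ (η i a))
      (fun i => φ (u i)) s := by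
  unfold vN
  cases s with
  | x a => exact VA.lf_map φ _ _
  | th i =>
    show φ (aeval (η i) nd.θ) = aeval (fun a => φ (η i a)) nd.θ
    rw [← AlgHom.comp_apply, MvPolynomial.comp_aeval]
  | z p => exact VA.lf_map φ _ _
  | u i => rfl

/-- The values of the variables after the substitution. -/
theorem N_van {m : ℕ} {R : Type u} [CommRing R] [Algebra K R] (F : MvPolynomial (VF m n) K)
    (Y : Fin (N + 1) → R) (η : Fin m → Fin (N + 1) → R) (g ξ : Fin m → R) (w : Fin m → ℕ)
    (T : ℝ)
    (h : ∀ μ : Fin m →₀ ℕ, (∑ i, (w i : ℝ) * μ i) < T →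
      coeff μ (aeval (vN nd (fun a => (C (Y a) : MvPolynomial (Fin m) R)) (fun i a => C (η i a))
        fun i => X i + C (g i)) F) = 0) (k : ℕ) (hk : (k : ℝ) < T) :
    PowerSeries.coeff k (aeval (fun s => (PowerSeries.C (vN nd Y η g s) +
      PowerSeries.C (vf (fun _ => (0 : R)) (fun _ => 0) (fun _ => 0) ξ s) *
        PowerSeries.X ^ (vf (fun _ => (0 : ℕ)) (fun _ => 0) (fun _ => 0) w s) :
          PowerSeries R)) F) = 0 := by
  have h1 := N_subst _ ξ w T h k hk
  let Ψ : MvPolynomial (Fin m) R →ₐ[K] PowerSeries R :=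
    (aeval (fun i => (PowerSeries.C (ξ i) * PowerSeries.X ^ w i : PowerSeries R)) :
      MvPolynomial (Fin m) R →ₐ[R] PowerSeries R).restrictScalars K
  have h2 : ∀ G : MvPolynomial (Fin m) R, aeval (fun i => (PowerSeries.C (ξ i) *
    PowerSeries.X ^ w i : PowerSeries R)) G = Ψ G := fun G => rfl
  have hC : ∀ a : R, Ψ (C a) = PowerSeries.C a := by
    intro a
    rw [← h2, ← MvPolynomial.algebraMap_eq, AlgHom.commutes]
    exact PowerSeries.algebraMap_apply
  have hX : ∀ i, Ψ (X i) = PowerSeries.C (ξ i) * PowerSeries.X ^ w i := by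
    intro i
    rw [← h2, aeval_X]
  rw [h2, ← AlgHom.comp_apply, MvPolynomial.comp_aeval] at h1
  let CC : R →ₐ[K] PowerSeries R :=
    { (PowerSeries.C : R →+* PowerSeries R) with
      commutes' := by
        intro a
        show PowerSeries.C (algebraMap K R a) = algebraMap K (PowerSeries R) a
        rw [PowerSeries.algebraMap_apply] }
  have hCC : ∀ a : R, PowerSeries.C a = CC a := fun a => rfl
  have h3 : (fun s => (PowerSeries.C (vN nd Y η g s) +
      PowerSeries.C (vf (fun _ => (0 : R)) (fun _ => 0) (fun _ => 0) ξ s) *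
        PowerSeries.X ^ (vf (fun _ => (0 : ℕ)) (fun _ => 0) (fun _ => 0) w s) :
          PowerSeries R)) = fun s => Ψ (vN nd (fun a => (C (Y a) : MvPolynomial (Fin m) R))
          (fun i a => C (η i a)) (fun i => X i + C (g i)) s) := by
    funext s
    rw [N_map_vN, hCC (vN nd Y η g s), N_map_vN]
    have h4 : (fun a => Ψ (C (Y a))) = fun a => CC (Y a) := funext fun a => hC _
    have h5 : (fun (i : Fin m) (a : Fin (N + 1)) => Ψ (C (η i a))) = fun i a => CC (η i a) := by
      funext i a
      rw [hC (η i a), hCC (η i a)]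
    rw [h4, h5]
    cases s with
    | x a =>
      show _ + PowerSeries.C 0 * _ = _
      rw [map_zero, zero_mul, add_zero]
      rfl
    | th i =>
      show _ + PowerSeries.C 0 * _ = _
      rw [map_zero, zero_mul, add_zero]
      rfl
    | z p =>
      show _ + PowerSeries.C 0 * _ = _
      rw [map_zero, zero_mul, add_zero]
      rfl
    | u i =>
      show CC (g i) + PowerSeries.C (ξ i) * PowerSeries.X ^ w i = Ψ (X i + C (g i))
      rw [map_add, hC, hX, add_comm]
      rfl
  rw [h3]
  exact h1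

end

end Pool.Agent.Lib.MP_17a322_nt.VP
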