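import Pool.Agent.Lib.MP_17a322_nt.VA.LA3a
import Pool.Agent.Lib.MP_17a322_nt.VP.N4
import Pool.Agent.Lib.MP_17a322_nt.VP.N5

/-!
VP, numerical theorem: the vanishing along the paths, the size constants.
-/

universe u

namespace Pool.Agent.Lib.MP_17a322_nt.VP

open MvPolynomial Height
open Pool.Agent.Lib.MP_17a322_nt.RO
open Pool.Agent.Lib.MP_17a322_nt.VJ
open Pool.Agent.Lib.MP_17a322_nt.VN
open Pool.Agent.Lib.MP_17a322_nt.VA

section

variable {K : Type u} [Field K] {N : ℕ} {A : AV K N} {n e : ℕ} (nd : Noe A n e)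

/-- The data of one block. -/
structure N_B (E₀ : SC K) (c₀ : ℕ) {L : Type u} [Field L] [Algebra K L] (P : A.Pts K) (w : ℕ)
    (ζ : Fin n → L) (M : Fin (N + 1) → L) (q : Fin n → L) (y η : Fin (N + 1) → PowerSeries L) :
    Prop where
  blk : BlkP nd P w ζ M y η
  hq : ∀ k : Fin n, PowerSeries.constantCoeff (lf (nd.l k.succ) η) = q k
  form : ∀ b, ∃ f : PowerSeries L, ∀ k, PowerSeries.coeff k (y b) =
    if w ∣ k then PowerSeries.coeff (k / w) f else 0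
  rad : ∀ v : AbsoluteValue L ℝ, 0 < rdP nd E₀ c₀ v P ∧ rdP nd E₀ c₀ v P ≤ 1
  sy : ∀ (v : AbsoluteValue L ℝ) (r : ℝ), 0 ≤ r → r ^ w ≤ rdP nd E₀ c₀ v P →
    ∀ (b : Fin (N + 1)) (N₁ : ℕ),
      PN v r N₁ (y b) ≤ E₀.k v * mq v fun b => algebraMap K L (nd.y P b)
  seta : ∀ (v : AbsoluteValue L ℝ) (r : ℝ), 0 ≤ r →
    r ^ w * (E₀.k v * mq v q) ≤ rdP nd E₀ c₀ v P →
      ∀ (b : Fin (N + 1)) (N₁ : ℕ), PN v r N₁ (η b) ≤ E₀.k v * mq v q

/-- The exponential of the loss is at most the radius. -/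
theorem N_rd (E₀ E : SC K) (c₀ : ℕ) {L : Type u} [Field L] [Algebra K L]
    (v : AbsoluteValue L ℝ) (hE : E₀.k v ≤ E.k v) (D : ℕ) (C₁ : ℝ)
    (hC₁ : N_C1 N D c₀ ≤ C₁) (P : A.Pts K) (t : K) (hδ : eval (nd.s P) nd.δ ≠ 0) :
    Real.exp (- (C₁ * N_l0 nd E v P t)) ≤ rdP nd E₀ c₀ v P := by
  have hvδ : 0 < v (algebraMap K L (eval (nd.s P) nd.δ)) :=
    v.pos ((map_ne_zero_iff _ (algebraMap K L).injective).2 hδ)
  obtain ⟨q, hq⟩ : ∃ q, q = mq v fun b => algebraMap K L (nd.y P b) := ⟨_, rfl⟩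
  have hq1 : 1 ≤ q := by rw [hq]; exact N_one_le_mq v _
  have hE1 : 1 ≤ E₀.k v := E₀.one_le v
  obtain ⟨a1, ha1⟩ : ∃ a1, a1 = Real.log (E.k v) := ⟨_, rfl⟩
  obtain ⟨a2, ha2⟩ : ∃ a2, a2 = Real.log q := ⟨_, rfl⟩
  obtain ⟨a3, ha3⟩ : ∃ a3, a3 = Real.log (max 1 (v (algebraMap K L t))) := ⟨_, rfl⟩
  obtain ⟨a4, ha4⟩ : ∃ a4, a4 = - Real.log (min 1 (v (algebraMap K L (eval (nd.s P) nd.δ)))) :=
    ⟨_, rfl⟩
  have hloss : N_l0 nd E v P t = a1 + a2 + a3 + a4 := by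
    rw [ha1, ha2, ha3, ha4, hq]
    unfold N_l0
    ring
  have h1 : 0 ≤ a1 := by rw [ha1]; exact Real.log_nonneg (E.one_le v)
  have h2 : 0 ≤ a2 := by rw [ha2]; exact Real.log_nonneg hq1
  have h3 : 0 ≤ a3 := by rw [ha3]; exact Real.log_nonneg (le_max_left _ _)
  have h4 : 0 ≤ a4 := by
    rw [ha4, neg_nonneg]
    exact Real.log_nonpos (le_min zero_le_one (v.nonneg _)) (min_le_left _ _)
  have hlE : Real.log (E₀.k v) ≤ a1 := by rw [ha1]; exact Real.log_le_log (E₀.pos v) hE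
  have hlR : - Real.log (rdP nd E₀ c₀ v P) ≤ c₀ * (a4 + a1 + c₀ * a2) := by
    have h6 : Real.log (rdP nd E₀ c₀ v P) = c₀ * (Real.log (v (algebraMap K L
        (eval (nd.s P) nd.δ))) - (Real.log (E₀.k v) + c₀ * a2)) := by
      unfold rdP
      rw [← hq, Real.log_pow, Real.log_div hvδ.ne'
        (mul_pos (zero_lt_one.trans_le hE1) (pow_pos (zero_lt_one.trans_le hq1) _)).ne',
        Real.log_mul (zero_lt_one.trans_le hE1).ne' (pow_pos (zero_lt_one.trans_le hq1) _).ne',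
        Real.log_pow, ← ha2]
    have h7 : - Real.log (v (algebraMap K L (eval (nd.s P) nd.δ))) ≤ a4 := by
      rw [ha4]
      exact neg_le_neg (Real.log_le_log (lt_min zero_lt_one hvδ) (min_le_right _ _))
    rw [h6, ← mul_neg]
    refine mul_le_mul_of_nonneg_left ?_ (Nat.cast_nonneg _)
    linarith
  have hkey : - Real.log (rdP nd E₀ c₀ v P) ≤ C₁ * N_l0 nd E v P t := by
    have h6 : N_C1 N D c₀ * N_l0 nd E v P t ≤ C₁ * N_l0 nd E v P t :=
      mul_le_mul_of_nonneg_right hC₁ (N_l0_nonneg nd E v P t)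
    refine hlR.trans (le_trans ?_ h6)
    rw [hloss]
    unfold N_C1
    have hc : (0 : ℝ) ≤ c₀ := Nat.cast_nonneg _
    have hnn : 0 ≤ (((N + 1) * D : ℕ) : ℝ) := Nat.cast_nonneg _
    have e1 := mul_nonneg hc h1
    have e2 := mul_nonneg hc h2
    have e3 := mul_nonneg hc h3
    have e4 := mul_nonneg hc h4
    have f1 := mul_nonneg hc e1
    have f2 := mul_nonneg hc e2
    have f3 := mul_nonneg hc e3
    have f4 := mul_nonneg hc e4
    have g1 := mul_nonneg hnn h1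
    have g2 := mul_nonneg hnn h2
    have g3 := mul_nonneg hnn h3
    have g4 := mul_nonneg hnn h4
    nlinarith
  have hR0 : 0 < rdP nd E₀ c₀ v P := by
    unfold rdP
    rw [← hq]
    exact pow_pos (div_pos hvδ (mul_pos (zero_lt_one.trans_le hE1)
      (pow_pos (zero_lt_one.trans_le hq1) _))) _
  rw [← Real.le_log_iff_exp_le hR0]
  linarith

/-- The size constants. -/
def N_OK (E₀ E : SC K) (a₁ : ℕ) : Prop :=
  ∀ (L : Type u) [Field L] [Algebra K L] (v : AbsoluteValue L ℝ),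
    E₀.k v ≤ E.k v ∧ cst v 3 ≤ E.k v ∧
    ∀ (R : Type u) [CommRing R] [Algebra L R] [Algebra K R] [IsScalarTower K L R] (ν : R → ℝ),
      SN v ν → ∀ (η : Fin (N + 1) → R) (Y : ℝ), 1 ≤ Y → (∀ b, ν (η b) ≤ Y) →
        ν (aeval η nd.θ) ≤ E.k v * Y ^ a₁ ∧ ∀ k : Fin n, ν (lf (nd.l k.succ) η) ≤ E.k v * Y ^ a₁

theorem N_exists_OK (E₀ : SC K) : ∃ (E : SC K) (a₁ : ℕ), N_OK nd E₀ E a₁ := by
  classical
  obtain ⟨E1, hE1⟩ := (Adm_NV.{u, u} nd.θ).exists_SC
  obtain ⟨E2, hE2⟩ := (Adm_cst.{u, u} (K := K) 3).exists_SC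
  obtain ⟨E3, hE3⟩ := (Adm.prod.{u, u} (K := K) (Finset.univ : Finset (Fin n))
    (fun k L _ _ v => max 1 (NV v (MvPolynomial.map (algebraMap K L) (lfP (nd.l k.succ)))))
    (fun k _ => Adm_NV _) (fun k _ L _ _ v => zero_le_one.trans (le_max_left _ _))).exists_SC
  obtain ⟨d, hd⟩ : ∃ d : ℕ, d = (∑ s, nd.θ.degreeOf s) + ∑ k : Fin n, ∑ s,
    (lfP (nd.l k.succ) : MvPolynomial (Fin (N + 1)) K).degreeOf s := ⟨_, rfl⟩
  have hdθ : ∀ s, nd.θ.degreeOf s ≤ d := by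
    intro s
    rw [hd]
    exact (Finset.single_le_sum (f := fun s => nd.θ.degreeOf s) (fun _ _ => Nat.zero_le _)
      (Finset.mem_univ s)).trans (Nat.le_add_right _ _)
  have hdl : ∀ (k : Fin n) s,
      (lfP (nd.l k.succ) : MvPolynomial (Fin (N + 1)) K).degreeOf s ≤ d := by
    intro k s
    rw [hd]
    refine le_trans ?_ (Nat.le_add_left _ _)
    exact (Finset.single_le_sum
      (f := fun s => (lfP (nd.l k.succ) : MvPolynomial (Fin (N + 1)) K).degreeOf s)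
      (fun _ _ => Nat.zero_le _) (Finset.mem_univ s)).trans
      (Finset.single_le_sum (f := fun k : Fin n => ∑ s,
        (lfP (nd.l k.succ) : MvPolynomial (Fin (N + 1)) K).degreeOf s)
        (fun _ _ => Nat.zero_le _) (Finset.mem_univ k))
  refine ⟨E₀.mul (E1.mul (E2.mul E3)), (N + 1) * d, fun L _ _ v => ⟨E₀.le_mul_left _ v, ?_, ?_⟩⟩
  · exact (hE2 L v).trans ((E2.le_mul_left E3 v).trans ((E1.le_mul_right _ v).trans
      (E₀.le_mul_right _ v)))
  · intro R _ _ _ _ ν hν η Y hY hη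
    have hY0 : 0 ≤ Y ^ ((N + 1) * d) := pow_nonneg (zero_le_one.trans hY) _
    refine ⟨?_, fun k => ?_⟩
    · refine (N_aeval_le v hν nd.θ d hdθ η hY hη).trans (mul_le_mul_of_nonneg_right ?_ hY0)
      exact ((le_max_right _ _).trans (hE1 L v)).trans
        ((E1.le_mul_left _ v).trans (E₀.le_mul_right _ v))
    · rw [← aeval_lfP]
      refine (N_aeval_le v hν (lfP (nd.l k.succ)) d (hdl k) η hY hη).trans
        (mul_le_mul_of_nonneg_right ?_ hY0)
      have h1 : max 1 (NV v (MvPolynomial.map (algebraMap K L) (lfP (nd.l k.succ)))) ≤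
          ∏ k : Fin n, max 1 (NV v (MvPolynomial.map (algebraMap K L) (lfP (nd.l k.succ)))) :=
        le_prod_max Finset.univ (fun k : Fin n =>
          max 1 (NV v (MvPolynomial.map (algebraMap K L) (lfP (nd.l k.succ)))))
          (fun _ _ => le_max_left _ _) (Finset.mem_univ k)
      exact ((le_max_right _ _).trans (h1.trans (hE3 L v))).trans
        ((E2.le_mul_right E3 v).trans ((E1.le_mul_right _ v).trans (E₀.le_mul_right _ v)))

end

end Pool.Agent.Lib.MP_17a322_nt.VP
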