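import Pool.Agent.Lib.MP_17a322_nt.VP.N2
import Pool.Agent.Lib.MP_17a322_nt.VP.N6

/-!
VP, numerical theorem: the vanishing along the paths through the points.
-/

universe u

namespace Pool.Agent.Lib.MP_17a322_nt.VP

open MvPolynomial Height
open Pool.Agent.Lib.MP_17a322_nt.RO
open Pool.Agent.Lib.MP_17a322_nt.VJ
open Pool.Agent.Lib.MP_17a322_nt.VN
open Pool.Agent.Lib.MP_17a322_nt.VA

section

variable {K : Type u} [Field K] {N : ℕ} {A : AV K N} {n e : ℕ} (nd : Noe A n e)

/-- The inclusion of the constants. -/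
noncomputable def N_C (K : Type u) [Field K] (L : Type u) [Field L] [Algebra K L] :
    L →ₐ[K] PowerSeries L :=
  { (PowerSeries.C : L →+* PowerSeries L) with
    commutes' := by
      intro a
      show PowerSeries.C (algebraMap K L a) = algebraMap K (PowerSeries L) a
      rw [PowerSeries.algebraMap_apply] }

theorem N_C_apply {L : Type u} [Field L] [Algebra K L] (a : L) :
    N_C K L a = PowerSeries.C a := rfl

theorem N_cc_aeval {L : Type u} [Field L] [Algebra K L] {σ : Type*} (y : σ → PowerSeries L)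
    (F : MvPolynomial σ K) : PowerSeries.constantCoeff (aeval y F) =
      aeval (fun b => PowerSeries.constantCoeff (y b)) F := by
  rw [← N_cc_apply (K := K), ← AlgHom.comp_apply, MvPolynomial.comp_aeval]
  rfl

theorem N_aeval_map {L : Type u} [Field L] [Algebra K L] {σ : Type*} (y : σ → K)
    (F : MvPolynomial σ K) : aeval (fun b => algebraMap K L (y b)) F =
      algebraMap K L (eval y F) := MvPolynomial.aeval_algebraMap_apply L y F

/-- The constant path at a good point. -/
theorem N_Ch_C {L : Type u} [Field L] [Algebra K L] (Q : A.Pts L) (hQ : nd.Good Q) :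
    Ch nd (fun a => (PowerSeries.C (nd.y Q a) : PowerSeries L)) := by
  refine ⟨(nd.y_isPt Q).map (N_C K L), ?_, ?_⟩
  · have h1 := VA.lf_map (N_C K L) (nd.l 0) (nd.y Q)
    rw [nd.lf_y_zero Q hQ.1, map_one] at h1
    exact h1.symm
  · have h1 : (fun k : Fin n => lf (nd.l k.succ) fun a => (PowerSeries.C (nd.y Q a) :
        PowerSeries L)) = fun k => N_C K L (nd.s Q k) := by
      funext k
      have h2 := VA.lf_map (N_C K L) (nd.l k.succ) (nd.y Q)
      rw [nd.lf_y_succ Q] at h2
      exact h2.symm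
    rw [h1]
    have h3 : aeval (fun k => N_C K L (nd.s Q k)) nd.δ = N_C K L (aeval (nd.s Q) nd.δ) := by
      rw [← AlgHom.comp_apply, MvPolynomial.comp_aeval]
    rw [h3, N_C_apply]
    intro h4
    have h5 := congrArg PowerSeries.constantCoeff h4
    rw [PowerSeries.constantCoeff_C, map_zero] at h5
    exact hQ.2 h5

/-- The vanishing along the paths. -/
theorem N_vanL {m : ℕ} (E₀ : SC K) (c₀ : ℕ) (P : Fin m → A.Pts K) (j : Fin m → ℕ)
    (hP : ∀ i, nd.Good (P i)) (α β : Fin m → MvPolynomial (Fin (N + 1)) K)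
    (hβ0 : ∀ i, eval (nd.y (P i)) (β i) ≠ 0) (F : MvPolynomial (VF m n) K) (T : ℝ)
    (hvan : Van nd j α β T F) {L : Type u} [Field L] [Algebra K L] (Q : A.Pts L)
    (hQ : nd.Good Q) (ζ : Fin m × Option (Fin n) → L)
    (y η : Fin m → Fin (N + 1) → PowerSeries L)
    (hB : ∀ i, N_B nd E₀ c₀ (P i) (4 ^ j i) (fun k => ζ (i, some k)) (A.mu (j i) (nd.y Q))
      (nd.s (A.img (Algebra.ofId K L) (P i) - 2 ^ j i • Q)) (y i) (η i))
    (hgood : ∀ i, nd.Good (A.img (Algebra.ofId K L) (P i) - 2 ^ j i • Q))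
    (hrow : ∀ i, A.x (A.img (Algebra.ofId K L) (P i) - 2 ^ (j i + 1) • Q) A.b₀ ≠ 0)
    (μ : Fin m →₀ ℕ) (hμ : ∑ i, ((4 ^ j i : ℕ) : ℝ) * μ i < T) :
    coeff μ (aeval (vN nd (fun a => (C (PowerSeries.C (nd.y Q a)) :
      MvPolynomial (Fin m) (PowerSeries L))) (fun i a => C (η i a))
      fun i => X i + C (aeval (y i) (α i) * (aeval (y i) (β i))⁻¹)) F) = 0 := by
  have hrep : A.Rep Q (nd.y Q) := nd.rep_y Q hQ.1
  have hrow' : ∀ i, ∃ c : PowerSeries L, PowerSeries.constantCoeff c ≠ 0 ∧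
      ∀ a, A.row A.b₀ (η i) (fun b => PowerSeries.C (A.mu (j i) (nd.y Q) b)) a = c * y i a := by
    intro i
    refine (N_row nd (P i) (hP i).1 (4 ^ j i) (fun k => ζ (i, some k)) (2 ^ j i • Q)
      (A.mu (j i) (nd.y Q)) (hrep.mu (j i)) (y i) (η i) (hB i).blk ?_).2
    have h1 := hrow i
    rw [pow_succ', mul_nsmul'] at h1
    exact h1
  choose c hc hcy using hrow'
  have hβc : ∀ i, PowerSeries.constantCoeff (aeval (y i) (β i)) ≠ 0 := by
    intro i
    rw [N_cc_aeval]
    have h1 : (fun b => PowerSeries.constantCoeff (y i b)) =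
        fun b => algebraMap K L (nd.y (P i) b) := funext fun b => (hB i).blk.const b
    rw [h1, N_aeval_map]
    exact (map_ne_zero_iff _ (algebraMap K L).injective).2 (hβ0 i)
  refine hvan (PowerSeries L) (fun a => PowerSeries.C (nd.y Q a)) η y c
    (fun i => aeval (y i) (α i) * (aeval (y i) (β i))⁻¹) (N_Ch_C nd Q hQ) (fun i => ?_)
    (fun i => ?_) (fun i a => ?_) (fun i => ?_) (fun i => ?_) μ ?_
  · refine ⟨(hB i).blk.eta_isPt, (hB i).blk.eta_lf0, ?_⟩
    intro h1
    have h2 := congrArg PowerSeries.constantCoeff h1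
    rw [N_cc_aeval, map_zero] at h2
    have h3 : (fun k : Fin n => PowerSeries.constantCoeff (lf (nd.l k.succ) (η i))) =
        nd.s (A.img (Algebra.ofId K L) (P i) - 2 ^ j i • Q) := funext fun k => (hB i).hq k
    rw [h3] at h2
    exact (hgood i).2 h2
  · intro h1
    apply hc i
    rw [h1, map_zero]
  · have h1 : A.mu (j i) (fun a => (PowerSeries.C (nd.y Q a) : PowerSeries L)) =
        fun b => PowerSeries.C (A.mu (j i) (nd.y Q) b) := by
      funext b
      have h2 := A.map_mu (N_C K L) (j i) (nd.y Q) b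
      exact h2.symm
    rw [h1]
    exact hcy i a
  · intro h1
    apply hβc i
    rw [h1, map_zero]
  · rw [mul_assoc, mul_comm (aeval (y i) (β i))⁻¹, PowerSeries.mul_inv_cancel _ (hβc i), mul_one]
  · refine lt_of_eq_of_lt ?_ hμ
    refine Finset.sum_congr rfl fun i _ => ?_
    push_cast
    rfl

end

end Pool.Agent.Lib.MP_17a322_nt.VP
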