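import Pool.Agent.Lib.MP_17a322_nt.VA.Z10
import Pool.Agent.Lib.MP_17a322_nt.VG.Z7a
import Pool.Agent.Lib.MP_17a322_nt.VP.N8

/-!
VP, numerical theorem: tg and the loss: finite support, base change, bound.
-/

universe u

namespace Pool.Agent.Lib.MP_17a322_nt.VP

open MvPolynomial Height NumberField
open Pool.Agent.Lib.MP_17a322_nt.RO
open Pool.Agent.Lib.MP_17a322_nt.VJ
open Pool.Agent.Lib.MP_17a322_nt.VN
open Pool.Agent.Lib.MP_17a322_nt.VA

/-! ### Powers -/

theorem N9_max_pow {x : ℝ} (hx : 0 ≤ x) (n : ℕ) : max 1 (x ^ n) = (max 1 x) ^ n := by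
  rcases le_total 1 x with h | h
  · rw [max_eq_right h, max_eq_right (one_le_pow₀ h)]
  · rw [max_eq_left h, max_eq_left (pow_le_one₀ hx h), one_pow]

theorem N9_min_pow {x : ℝ} (hx : 0 ≤ x) (n : ℕ) : min 1 (x ^ n) = (min 1 x) ^ n := by
  rcases le_total 1 x with h | h
  · rw [min_eq_left h, min_eq_left (one_le_pow₀ h), one_pow]
  · rw [min_eq_right h, min_eq_right (pow_le_one₀ hx h)]

theorem N9_max_pow' {x y : ℝ} (hx : 0 ≤ x) (hy : 0 ≤ y) (n : ℕ) :
    max (x ^ n) (y ^ n) = (max x y) ^ n := by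
  rcases le_total x y with h | h
  · rw [max_eq_right h, max_eq_right (pow_le_pow_left₀ hx h n)]
  · rw [max_eq_left h, max_eq_left (pow_le_pow_left₀ hy h n)]

theorem N9_k_arch {K : Type*} [Field K] (κ : SC K) {L : Type*} [Field L] [Algebra K L]
    (ψ : L →+* ℂ) :
    κ.k (InfinitePlace.mk ψ).val = κ.k (InfinitePlace.mk (ψ.comp (algebraMap K L))).val := by
  unfold SC.k cst
  rw [if_neg (A7_not_nonarch _), if_neg (A7_not_nonarch _)]
  simp only [A7_apply, Algebra.algebraMap_self_apply]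

theorem N9_k_fin {K : Type*} [Field K] (κ : SC K) {L : Type*} [Field L] [Algebra K L]
    (v : AbsoluteValue K ℝ) (w : AbsoluteValue L ℝ) (n : ℕ) (hv : IsNonarchimedean v)
    (hw : IsNonarchimedean w) (h : ∀ x, w (algebraMap K L x) = v x ^ n) :
    κ.k w = κ.k v ^ n := by
  unfold SC.k cst
  have hp : ∏ a ∈ κ.T, max 1 (w (algebraMap K L a)) =
      (∏ a ∈ κ.T, max 1 (v (algebraMap K K a))) ^ n := by
    rw [← Finset.prod_pow κ.T n (fun a => max 1 (v (algebraMap K K a)))]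
    refine Finset.prod_congr rfl fun a _ => ?_
    rw [h, Algebra.algebraMap_self_apply, N9_max_pow (v.nonneg _)]
  rw [if_pos hv, if_pos hw, one_mul, one_mul, hp, ← pow_mul, ← pow_mul, mul_comm n]

section

variable {K L : Type*} [Field K] [Field L] [Algebra K L]

theorem N9_NV_self {σ : Type*} (F : MvPolynomial σ K) :
    MvPolynomial.map (algebraMap K K) F = F := by
  rw [Algebra.algebraMap_self, MvPolynomial.map_id]

theorem N9_NV_arch (ψ : L →+* ℂ) {σ : Type*} (F : MvPolynomial σ K) :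
    NV (InfinitePlace.mk ψ).val (MvPolynomial.map (algebraMap K L) F) =
      NV (InfinitePlace.mk (ψ.comp (algebraMap K L))).val F := by
  rw [A2_ar (A7_not_nonarch _), A2_ar (A7_not_nonarch _),
    MvPolynomial.support_map_of_injective _ (algebraMap K L).injective]
  refine Finset.sum_congr rfl fun m _ => ?_
  rw [coeff_map, A7_apply]

theorem N9_NV_fin (v : AbsoluteValue K ℝ) (w : AbsoluteValue L ℝ) (n : ℕ) (hn : 0 < n)
    (hv : IsNonarchimedean v) (hw : IsNonarchimedean w)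
    (h : ∀ x, w (algebraMap K L x) = v x ^ n) {σ : Type*} (F : MvPolynomial σ K) :
    NV w (MvPolynomial.map (algebraMap K L) F) = NV v F ^ n := by
  by_cases hF : F = 0
  · subst hF
    rw [map_zero]
    have h1 : NV w (0 : MvPolynomial σ L) = 0 := A2_zero w
    have h2 : NV v (0 : MvPolynomial σ K) = 0 := A2_zero v
    rw [h1, h2, zero_pow hn.ne']
  · refine le_antisymm ?_ ?_
    · rw [A2_na hw]
      refine ciSup_le fun m => ?_
      rw [coeff_map, h]
      exact pow_le_pow_left₀ (v.nonneg _) (coeff_le_NV v F m) n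
    · obtain ⟨m, -, hm⟩ := exists_coeff_ge v F hF
      have hc : cst v F.support.card = 1 := by
        unfold cst
        rw [if_pos hv]
      rw [hc, one_mul] at hm
      have h1 := coeff_le_NV w (MvPolynomial.map (algebraMap K L) F) m
      rw [coeff_map, h] at h1
      exact (pow_le_pow_left₀ (A2_nonneg v F) hm n).trans h1

theorem N9_mq_fin (v : AbsoluteValue K ℝ) (w : AbsoluteValue L ℝ) (n : ℕ)
    (h : ∀ x, w (algebraMap K L x) = v x ^ n) {N : ℕ} (y : Fin (N + 1) → K) :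
    mq w (fun b => algebraMap K L (y b)) = mq v y ^ n := by
  unfold mq
  simp only [h]
  obtain ⟨a, ha⟩ := exists_vm v y
  have h0 : ∀ b, v (y b) ≤ v (y a) := fun b => by
    rw [← ha]
    exact le_vm v y b
  have h1 : (⨆ b, v (y b)) = v (y a) := ha
  have h2 : (⨆ b, v (y b) ^ n) = v (y a) ^ n := by
    refine le_antisymm (ciSup_le fun b => pow_le_pow_left₀ (v.nonneg _) (h0 b) n) ?_
    exact le_ciSup (f := fun b => v (y b) ^ n) (Set.finite_range _).bddAbove a
  rw [h1, h2, N9_max_pow (v.nonneg _)]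

end

section

variable {K : Type u} [Field K] {N : ℕ} {A : AV K N} {n e : ℕ} (nd : Noe A n e)

theorem N9_l0_arch (E : SC K) {L : Type u} [Field L] [Algebra K L] (ψ : L →+* ℂ)
    (P : A.Pts K) (t : K) : N_l0 nd E (InfinitePlace.mk ψ).val P t =
      N_l0 nd E (InfinitePlace.mk (ψ.comp (algebraMap K L))).val P t := by
  unfold N_l0 mq
  rw [N9_k_arch]
  simp only [A7_apply, Algebra.algebraMap_self_apply]

theorem N9_lx_arch {L : Type u} [Field L] [Algebra K L] (ψ : L →+* ℂ)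
    (P : A.Pts K) (α β : MvPolynomial (Fin (N + 1)) K) :
    N_lx nd (InfinitePlace.mk ψ).val P α β =
      N_lx nd (InfinitePlace.mk (ψ.comp (algebraMap K L))).val P α β := by
  unfold N_lx
  rw [N9_NV_arch, N9_NV_arch, N9_NV_self, N9_NV_self]
  simp only [A7_apply, Algebra.algebraMap_self_apply]

theorem N9_l0_fin (E : SC K) {L : Type u} [Field L] [Algebra K L] (v : AbsoluteValue K ℝ)
    (w : AbsoluteValue L ℝ) (k : ℕ) (hv : IsNonarchimedean v)
    (hw : IsNonarchimedean w) (h : ∀ x, w (algebraMap K L x) = v x ^ k) (P : A.Pts K) (t : K) :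
    N_l0 nd E w P t = k * N_l0 nd E v P t := by
  unfold N_l0
  rw [N9_k_fin E v w k hv hw h, N9_mq_fin v w k h, h, h, N9_max_pow (v.nonneg _),
    N9_min_pow (v.nonneg _), Real.log_pow, Real.log_pow, Real.log_pow, Real.log_pow]
  simp only [Algebra.algebraMap_self_apply]
  ring

theorem N9_lx_fin {L : Type u} [Field L] [Algebra K L] (v : AbsoluteValue K ℝ)
    (w : AbsoluteValue L ℝ) (k : ℕ) (hk : 0 < k) (hv : IsNonarchimedean v)
    (hw : IsNonarchimedean w) (h : ∀ x, w (algebraMap K L x) = v x ^ k) (P : A.Pts K)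
    (α β : MvPolynomial (Fin (N + 1)) K) :
    N_lx nd w P α β = k * N_lx nd v P α β := by
  unfold N_lx
  rw [N9_NV_fin v w k hk hv hw h, N9_NV_fin v w k hk hv hw h, h,
    N9_max_pow' (A2_nonneg v _) (A2_nonneg v _), ← div_pow, Real.log_pow, N9_NV_self, N9_NV_self,
    mul_max_of_nonneg _ _ (Nat.cast_nonneg k), mul_zero, Algebra.algebraMap_self_apply]

theorem N9_loss_arch (E : SC K) {L : Type u} [Field L] [Algebra K L] (ψ : L →+* ℂ)
    (P : A.Pts K) (t : K) (α β : MvPolynomial (Fin (N + 1)) K) :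
    lossP nd E (InfinitePlace.mk ψ).val P t α β =
      lossP nd E (InfinitePlace.mk (ψ.comp (algebraMap K L))).val P t α β := by
  rw [N_lossP_eq, N_lossP_eq, N9_l0_arch, N9_lx_arch]

theorem N9_loss_fin (E : SC K) {L : Type u} [Field L] [Algebra K L] (v : AbsoluteValue K ℝ)
    (w : AbsoluteValue L ℝ) (k : ℕ) (hk : 0 < k) (hv : IsNonarchimedean v)
    (hw : IsNonarchimedean w) (h : ∀ x, w (algebraMap K L x) = v x ^ k) (P : A.Pts K) (t : K)
    (α β : MvPolynomial (Fin (N + 1)) K) :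
    lossP nd E w P t α β = k * lossP nd E v P t α β := by
  rw [N_lossP_eq, N_lossP_eq, N9_l0_fin nd E v w k hv hw h, N9_lx_fin nd v w k hk hv hw h]
  ring

end

section

variable {K : Type u} [Field K] [NumberField K] {N : ℕ} {A : AV K N} {n e : ℕ} (nd : Noe A n e)

/-- The joint gain has finite support. -/
theorem N9_FS_tg (E : SC K) {C₁ : ℝ} (hC₁ : 0 ≤ C₁) {m r : ℕ} (hm : 0 < m)
    (j : Fin m → ℕ) (P : Fin m → A.Pts K) (t : Fin m → K)
    (α β : Fin m → Fin r → MvPolynomial (Fin (N + 1)) K) :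
    FS fun v : AbsoluteValue K ℝ => tg nd E C₁ j P t α β v := by
  obtain ⟨i₀, -⟩ : ∃ i₀ : Fin m, i₀ = i₀ := ⟨⟨0, hm⟩, rfl⟩
  have h1 : (⋃ l : Fin r, {v : AdmissibleAbsValues.nonarchAbsVal (K := K) |
      Real.log (v.val (algebraMap K K (t i₀ - eval (nd.y (P i₀)) (α i₀ l) /
        eval (nd.y (P i₀)) (β i₀ l)))) ≠ 0}).Finite :=
    Set.finite_iUnion fun l => VG.FS_log' _
  refine h1.subset fun v hv => ?_
  by_contra h2
  rw [Set.mem_iUnion] at h2
  push Not at h2
  apply hv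
  show tg nd E C₁ j P t α β v.val = 0
  unfold tg
  have h3 : ∀ l : Fin r, max 0 (⨅ i : Fin m,
      (- Real.log (v.val (algebraMap K K (t i - eval (nd.y (P i)) (α i l) /
        eval (nd.y (P i)) (β i l)))) -
        C₁ * lossP nd E v.val (P i) (t i) (α i l) (β i l)) / 4 ^ j i) = 0 := by
    intro l
    refine max_eq_left ?_
    refine (ciInf_le (Set.finite_range _).bddBelow i₀).trans ?_
    refine div_nonpos_of_nonpos_of_nonneg ?_ (by positivity)
    have h4 : Real.log (v.val (algebraMap K K (t i₀ - eval (nd.y (P i₀)) (α i₀ l) /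
        eval (nd.y (P i₀)) (β i₀ l)))) = 0 := by
      by_contra h5
      exact h2 l h5
    rw [h4]
    have h5 := mul_nonneg hC₁ (N_lossP_nonneg nd E v.val (P i₀) (t i₀) (α i₀ l) (β i₀ l))
    linarith
  simp only [h3]
  exact Real.iSup_const_zero

/-- T1: the joint gain over an extension. -/
theorem N_tg_bc (E : SC K) (C₁ : ℝ) (hC₁ : 0 ≤ C₁) {m r : ℕ} (hm : 0 < m)
    (j : Fin m → ℕ) (P : Fin m → A.Pts K) (t : Fin m → K)
    (α β : Fin m → Fin r → MvPolynomial (Fin (N + 1)) K)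
    (L : Type u) [Field L] [NumberField L] [Algebra K L] :
    FS (fun v : AbsoluteValue L ℝ => tg nd E C₁ j P t α β v) ∧
      gs (fun v : AbsoluteValue L ℝ => tg nd E C₁ j P t α β v) =
        Module.finrank K L * gs (fun v : AbsoluteValue K ℝ => tg nd E C₁ j P t α β v) := by
  refine gs_bc_fin (fun v : AbsoluteValue K ℝ => tg nd E C₁ j P t α β v)
    (fun v : AbsoluteValue L ℝ => tg nd E C₁ j P t α β v) (N9_FS_tg nd E hC₁ hm j P t α β)
    (fun ψ => ?_) (fun v w k hk hv hw h => ?_)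
  · unfold tg
    refine iSup_congr fun l => congrArg (max 0) (iInf_congr fun i => ?_)
    rw [N9_loss_arch nd E ψ, A7_apply ψ, Algebra.algebraMap_self_apply]
  · unfold tg
    rw [Real.mul_iSup_of_nonneg (Nat.cast_nonneg k)]
    refine iSup_congr fun l => ?_
    rw [mul_max_of_nonneg _ _ (Nat.cast_nonneg k), mul_zero,
      Real.mul_iInf_of_nonneg (Nat.cast_nonneg k)]
    congr 1
    refine iInf_congr fun i => ?_
    rw [h, N9_loss_fin nd E v w k hk hv hw h, Real.log_pow, Algebra.algebraMap_self_apply]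
    ring

theorem N9_FS_log_min {x : K} (hx : x ≠ 0) :
    FS fun v : AbsoluteValue K ℝ => Real.log (min 1 (v x)) := by
  refine (FS_log_abv hx).subset fun v hv => ?_
  intro h1
  apply hv
  have h2 : v.val x = 1 := Real.eq_one_of_pos_of_log_eq_zero (v.val.pos hx) h1
  show Real.log (min 1 (v.val x)) = 0
  rw [h2, min_self, Real.log_one]

omit [NumberField K] in
theorem N9_δ_ne {P : A.Pts K} (hP : nd.Good P) : eval (nd.s P) nd.δ ≠ 0 := by
  have h1 := hP.2
  rw [MvPolynomial.aeval_eq_eval] at h1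
  exact h1

theorem N9_FS_l0 (E : SC K) {P : A.Pts K} (hP : nd.Good P) (t : K) :
    FS fun v : AbsoluteValue K ℝ => N_l0 nd E v P t := by
  unfold N_l0
  simp only [Algebra.algebraMap_self_apply]
  exact FS_sub (FS_add (FS_add (E.FS_log K) (FS_log_mq (nd.y P))) (FS_log_max t))
    (N9_FS_log_min (N9_δ_ne nd hP))

/-- Finite support of the local heights of a pair of polynomials. -/
theorem N9_FS_log_max_NV {σ : Type*} (F G : MvPolynomial σ K) (hG : G ≠ 0) :
    FS fun v : AbsoluteValue K ℝ => Real.log (max (NV v F) (NV v G)) := by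
  by_cases hF : F = 0
  · subst hF
    have h1 : ∀ v : AbsoluteValue K ℝ, max (NV v (0 : MvPolynomial σ K)) (NV v G) = NV v G := by
      intro v
      have h2 : NV v (0 : MvPolynomial σ K) = 0 := A2_zero v
      rw [h2]
      exact max_eq_right (A2_nonneg v G)
    simp only [h1]
    exact FS_log_NV hG
  · refine ((FS_log_NV hF).union (FS_log_NV hG)).subset fun v hv => ?_
    by_contra hc
    rw [Set.mem_union, not_or] at hc
    obtain ⟨h1, h2⟩ := hc
    have h1' : NV v.val F = 1 := Real.eq_one_of_pos_of_log_eq_zero (NV_pos v.val hF) (by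
      by_contra h
      exact h1 h)
    have h2' : NV v.val G = 1 := Real.eq_one_of_pos_of_log_eq_zero (NV_pos v.val hG) (by
      by_contra h
      exact h2 h)
    exact hv (by simp only [h1', h2', max_self, Real.log_one])

omit [NumberField K] in
theorem N9_ne_of_eval {σ : Type*} {y : σ → K} {β : MvPolynomial σ K} (h : eval y β ≠ 0) :
    β ≠ 0 := by
  rintro rfl
  exact h (map_zero _)

omit [NumberField K] in
theorem N9_lx_eq {v : AbsoluteValue K ℝ} {P : A.Pts K}
    {α β : MvPolynomial (Fin (N + 1)) K} (hβ0 : eval (nd.y P) β ≠ 0) :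
    N_lx nd v P α β = max 0 (Real.log (max (NV v α) (NV v β)) -
      Real.log (v (eval (nd.y P) β))) := by
  unfold N_lx
  rw [N9_NV_self, N9_NV_self, Algebra.algebraMap_self_apply, Real.log_div
    (lt_max_of_lt_right (NV_pos v (N9_ne_of_eval hβ0))).ne' (v.pos hβ0).ne']

theorem N9_FS_lx {P : A.Pts K} {α β : MvPolynomial (Fin (N + 1)) K}
    (hβ0 : eval (nd.y P) β ≠ 0) : FS fun v : AbsoluteValue K ℝ => N_lx nd v P α β := by
  have h1 : ∀ v : AbsoluteValue K ℝ, N_lx nd v P α β = max 0 (Real.log (max (NV v α) (NV v β)) -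
      Real.log (v (eval (nd.y P) β))) := fun v => N9_lx_eq nd hβ0
  simp only [h1]
  exact VG.FS_max0 (FS_sub (N9_FS_log_max_NV α β (N9_ne_of_eval hβ0)) (FS_log_abv hβ0))

/-- T2: the loss over an extension. -/
theorem N_L_bc (E : SC K) {r : ℕ} (P : A.Pts K) (hP : nd.Good P) (t : K)
    (α β : Fin r → MvPolynomial (Fin (N + 1)) K) (hβ0 : ∀ l, eval (nd.y P) (β l) ≠ 0)
    (L : Type u) [Field L] [NumberField L] [Algebra K L] :
    FS (fun v : AbsoluteValue L ℝ => N_L nd E v P t α β) ∧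
      gs (fun v : AbsoluteValue L ℝ => N_L nd E v P t α β) =
        Module.finrank K L * gs (fun v : AbsoluteValue K ℝ => N_L nd E v P t α β) := by
  refine gs_bc_fin (fun v : AbsoluteValue K ℝ => N_L nd E v P t α β)
    (fun v : AbsoluteValue L ℝ => N_L nd E v P t α β) ?_
    (fun ψ => ?_) (fun v w k hk hv hw h => ?_)
  · unfold N_L
    exact FS_add (N9_FS_l0 nd E hP t) (FS_sum _ fun l _ => N9_FS_lx nd (hβ0 l))
  · unfold N_L
    rw [N9_l0_arch nd E ψ]
    congr 1
    exact Finset.sum_congr rfl fun l _ => N9_lx_arch nd ψ P (α l) (β l)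
  · unfold N_L
    rw [N9_l0_fin nd E v w k hv hw h, mul_add, Finset.mul_sum]
    congr 1
    exact Finset.sum_congr rfl fun l _ => N9_lx_fin nd v w k hk hv hw h P (α l) (β l)

omit [NumberField K] in
/-- The affine coordinates are not much smaller than `1`. -/
theorem N9_mq_le : ∃ F : SC K, ∀ (P : A.Pts K), nd.Good P → ∀ v : AbsoluteValue K ℝ,
    mq v (nd.y P) ≤ F.k v * vm v (nd.y P) := by
  obtain ⟨F, hF⟩ := lf_upper (K := K) (fun _ : Unit => nd.l 0)
  refine ⟨F, fun P hP v => ?_⟩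
  have h1 : lf (nd.l 0) (nd.y P) = 1 := by
    have h2 : nd.y P = fun i => (lf (nd.l 0) (A.x P))⁻¹ * A.x P i := by
      funext i
      unfold Noe.y
      rw [div_eq_inv_mul]
    rw [h2, lf_smul, inv_mul_cancel₀ hP.1]
  have h2 := hF K v (nd.y P) ()
  rw [h1, map_one] at h2
  refine max_le h2 ?_
  exact le_mul_of_one_le_left (vm_nonneg v _) (F.one_le v)

/-- T3: the bound of the loss. -/
theorem N_gsL (E : SC K) (D r : ℕ) : ∃ C : ℝ, 0 ≤ C ∧ ∀ (P : A.Pts K), nd.Good P →
    ∀ (t : K) (α β : Fin r → MvPolynomial (Fin (N + 1)) K),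
    (∀ l, eval (nd.y P) (β l) ≠ 0) → (∀ l s, (α l).degreeOf s ≤ D) →
    (∀ l s, (β l).degreeOf s ≤ D) →
    gs (fun v : AbsoluteValue K ℝ => N_L nd E v P t α β) ≤
      C * (1 + A.h P) + logHeight₁ t + ∑ l, ht2 (α l) (β l) := by
  classical
  obtain ⟨F, hF⟩ := N9_mq_le nd
  obtain ⟨E', a₁, hOK⟩ := N_exists_OK nd E
  obtain ⟨d, hd⟩ : ∃ d : ℕ, d = ∑ k, nd.δ.degreeOf k := ⟨_, rfl⟩
  obtain ⟨c1, hc1⟩ : ∃ c1 : ℝ, c1 = 1 + d * a₁ + r * ((N + 1) * D : ℕ) := ⟨_, rfl⟩
  have hc10 : 0 ≤ c1 := by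
    rw [hc1]
    positivity
  obtain ⟨GE, hGE⟩ : ∃ G : ℝ, G = gs fun v : AbsoluteValue K ℝ => Real.log (E.k v) := ⟨_, rfl⟩
  obtain ⟨GE', hGE'⟩ : ∃ G : ℝ, G = gs fun v : AbsoluteValue K ℝ => Real.log (E'.k v) := ⟨_, rfl⟩
  obtain ⟨GF, hGF⟩ : ∃ G : ℝ, G = gs fun v : AbsoluteValue K ℝ => Real.log (F.k v) := ⟨_, rfl⟩
  have hGE0 : 0 ≤ GE := by
    rw [hGE]
    exact gs_nonneg fun v _ => Real.log_nonneg (E.one_le v)
  have hGE'0 : 0 ≤ GE' := by
    rw [hGE']
    exact gs_nonneg fun v _ => Real.log_nonneg (E'.one_le v)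
  have hGF0 : 0 ≤ GF := by
    rw [hGF]
    exact gs_nonneg fun v _ => Real.log_nonneg (F.one_le v)
  have hδ0 : 0 ≤ nh1 nd.δ := nh1_nonneg _
  refine ⟨GE + nh1 nd.δ + d * GE' + c1 * (GF + 1), by positivity, ?_⟩
  intro P hP t α β hβ0 hα hβ
  have hδ := N9_δ_ne nd hP
  have hy0 : nd.y P ≠ 0 := by
    intro h0
    refine Z_x_ne A P (funext fun i => ?_)
    have h1 := congrFun h0 i
    unfold Noe.y at h1
    rw [Pi.zero_apply, div_eq_zero_iff] at h1
    exact h1.resolve_right hP.1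
  -- the size of the affine coordinates
  obtain ⟨q, hq⟩ : ∃ q : AbsoluteValue K ℝ → ℝ, ∀ v, q v = Real.log (mq v (nd.y P)) :=
    ⟨_, fun _ => rfl⟩
  have hq0 : ∀ v, 0 ≤ q v := fun v => by
    rw [hq]
    exact Real.log_nonneg (N_one_le_mq v _)
  have hqFS : FS q := by
    rw [show q = fun v => Real.log (mq v (nd.y P)) from funext hq]
    exact FS_log_mq _
  have hGq : gs q ≤ GF + A.h P := by
    have h1 : gs (fun v : AbsoluteValue K ℝ => Real.log (F.k v) +
        Real.log (⨆ i, v (nd.y P i))) = GF + A.h P := by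
      rw [gs_add (F.FS_log K) (FS_log_iSup hy0), gs_log_iSup hy0, ← hGF]
      congr 1
      have h2 : nd.y P = (lf (nd.l 0) (A.x P))⁻¹ • A.x P := by
        funext i
        unfold Noe.y
        rw [Pi.smul_apply, smul_eq_mul, div_eq_inv_mul]
      rw [h2]
      exact logHeight_smul_eq_logHeight (A.x P) (inv_ne_zero hP.1)
    rw [← h1]
    refine gs_le hqFS (FS_add (F.FS_log K) (FS_log_iSup hy0)) fun v _ => ?_
    rw [hq]
    have h2 := Real.log_le_log (zero_lt_one.trans_le (N_one_le_mq v (nd.y P))) (hF P hP v)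
    rwa [Real.log_mul (F.pos v).ne' (vm_pos v hy0).ne'] at h2
  -- the discriminant
  have hs : ∀ (v : AbsoluteValue K ℝ) (k : Fin n),
      v (nd.s P k) ≤ E'.k v * mq v (nd.y P) ^ a₁ := by
    intro v k
    have h1 := ((hOK K v).2.2 K (fun x => v x) (SN_self v) (nd.y P) (mq v (nd.y P))
      (N_one_le_mq v _) (fun b => le_mqB v _ b)).2 k
    rwa [Z_lf_s] at h1
  have hmin : ∀ v : AbsoluteValue K ℝ, - Real.log (min 1 (v (eval (nd.s P) nd.δ))) ≤
      (Real.log (max 1 (NV v nd.δ)) + (d : ℝ) * (Real.log (E'.k v) + a₁ * q v)) -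
        Real.log (v (eval (nd.s P) nd.δ)) := by
    intro v
    obtain ⟨X, hX⟩ : ∃ X, X = v (eval (nd.s P) nd.δ) := ⟨_, rfl⟩
    rw [← hX]
    have hX0 : 0 < X := by
      rw [hX]
      exact v.pos hδ
    have hmq : 1 ≤ mq v (nd.y P) := N_one_le_mq v _
    have hY1 : 1 ≤ E'.k v * mq v (nd.y P) ^ a₁ :=
      one_le_mul_of_one_le_of_one_le (E'.one_le v) (one_le_pow₀ hmq)
    have h1 : X ≤ NV v nd.δ * (E'.k v * mq v (nd.y P) ^ a₁) ^ d := by
      have h2 := (SN_self v).aeval_le nd.δ (fun k => nd.δ.degreeOf k) (fun _ => le_rfl) (nd.s P)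
      rw [hX]
      refine h2.trans (mul_le_mul_of_nonneg_left ?_ (A2_nonneg v _))
      rw [hd, ← Finset.prod_pow_eq_pow_sum]
      exact Finset.prod_le_prod (fun k _ => pow_nonneg (zero_le_one.trans (le_max_left _ _)) _)
        fun k _ => pow_le_pow_left₀ (zero_le_one.trans (le_max_left _ _))
          (max_le hY1 (hs v k)) _
    have h2 : max 1 X ≤ max 1 (NV v nd.δ) * (E'.k v * mq v (nd.y P) ^ a₁) ^ d := by
      have h3 : 1 ≤ (E'.k v * mq v (nd.y P) ^ a₁) ^ d := one_le_pow₀ hY1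
      refine max_le (one_le_mul_of_one_le_of_one_le (le_max_left _ _) h3) (h1.trans ?_)
      exact mul_le_mul_of_nonneg_right (le_max_right _ _) (zero_le_one.trans h3)
    have h3 : Real.log (max 1 X) ≤
        Real.log (max 1 (NV v nd.δ)) + (d : ℝ) * (Real.log (E'.k v) + a₁ * q v) := by
      have h4 := Real.log_le_log (lt_max_of_lt_left one_pos) h2
      rwa [Real.log_mul (lt_max_of_lt_left one_pos).ne'
        (pow_pos (zero_lt_one.trans_le hY1) _).ne', Real.log_pow,
        Real.log_mul (E'.pos v).ne' (pow_pos (zero_lt_one.trans_le hmq) _).ne', Real.log_pow,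
        ← hq] at h4
    have h4 : - Real.log (min 1 X) = Real.log (max 1 X) - Real.log X := by
      rcases le_total 1 X with h | h
      · rw [min_eq_left h, max_eq_right h, Real.log_one]
        ring
      · rw [min_eq_right h, max_eq_left h, Real.log_one]
        ring
    rw [h4]
    linarith
  -- the targets
  have hlx : ∀ (v : AbsoluteValue K ℝ) (l : Fin r), N_lx nd v P (α l) (β l) ≤
      (Real.log (max (NV v (α l)) (NV v (β l))) - Real.log (v (eval (nd.y P) (β l)))) +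
        ((N + 1) * D : ℕ) * q v := by
    intro v l
    rw [N9_lx_eq nd (hβ0 l)]
    have hmq : 1 ≤ mq v (nd.y P) := N_one_le_mq v _
    have hb := N9_ne_of_eval (hβ0 l)
    have h1 := N_aeval_le (K := K) (L := K) (v := v) (SN_self v) (β l) D (hβ l) (nd.y P) hmq
      (fun b => le_mqB v _ b)
    rw [N9_NV_self] at h1
    have h2 : v (eval (nd.y P) (β l)) ≤
        max (NV v (α l)) (NV v (β l)) * mq v (nd.y P) ^ ((N + 1) * D) :=
      h1.trans (mul_le_mul_of_nonneg_right (le_max_right _ _)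
        (pow_nonneg (zero_le_one.trans hmq) _))
    have h3 := Real.log_le_log (v.pos (hβ0 l)) h2
    rw [Real.log_mul (lt_max_of_lt_right (NV_pos v hb)).ne'
      (pow_pos (zero_lt_one.trans_le hmq) _).ne', Real.log_pow, ← hq] at h3
    have h4 : 0 ≤ (((N + 1) * D : ℕ) : ℝ) * q v := mul_nonneg (Nat.cast_nonneg _) (hq0 v)
    refine max_le ?_ ?_
    · linarith
    · linarith
  -- the sum
  have hFS1 : FS fun v : AbsoluteValue K ℝ => Real.log (E.k v) + q v + Real.log (max 1 (v t)) :=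
    FS_add (FS_add (E.FS_log K) hqFS) (FS_log_max t)
  have hFS2 : FS fun v : AbsoluteValue K ℝ =>
      (Real.log (max 1 (NV v nd.δ)) + (d : ℝ) * (Real.log (E'.k v) + a₁ * q v)) -
        Real.log (v (eval (nd.s P) nd.δ)) :=
    FS_sub (FS_add (FS_nh1 _) (FS_const_mul _ (FS_add (E'.FS_log K) (FS_const_mul _ hqFS))))
      (FS_log_abv hδ)
  have hFS3 : ∀ l, FS fun v : AbsoluteValue K ℝ =>
      (Real.log (max (NV v (α l)) (NV v (β l))) - Real.log (v (eval (nd.y P) (β l)))) +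
        (((N + 1) * D : ℕ) : ℝ) * q v := fun l =>
    FS_add (FS_sub (N9_FS_log_max_NV _ _ (N9_ne_of_eval (hβ0 l))) (FS_log_abv (hβ0 l)))
      (FS_const_mul _ hqFS)
  have hle : gs (fun v : AbsoluteValue K ℝ => N_L nd E v P t α β) ≤
      gs (fun v : AbsoluteValue K ℝ => (Real.log (E.k v) + q v + Real.log (max 1 (v t))) +
        ((Real.log (max 1 (NV v nd.δ)) + (d : ℝ) * (Real.log (E'.k v) + a₁ * q v)) -
          Real.log (v (eval (nd.s P) nd.δ))) +
        ∑ l, ((Real.log (max (NV v (α l)) (NV v (β l))) - Real.log (v (eval (nd.y P) (β l)))) +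
          (((N + 1) * D : ℕ) : ℝ) * q v)) := by
    refine gs_le ?_ (FS_add (FS_add hFS1 hFS2) (FS_sum _ fun l _ => hFS3 l)) fun v _ => ?_
    · unfold N_L
      exact FS_add (N9_FS_l0 nd E hP t) (FS_sum _ fun l _ => N9_FS_lx nd (hβ0 l))
    · unfold N_L N_l0
      simp only [Algebra.algebraMap_self_apply]
      rw [← hq]
      have h1 := hmin v
      have h2 : ∑ l, N_lx nd v P (α l) (β l) ≤ _ := Finset.sum_le_sum fun l _ => hlx v l
      linarith
  refine hle.trans ?_
  rw [gs_add (FS_add hFS1 hFS2) (FS_sum _ fun l _ => hFS3 l), gs_add hFS1 hFS2,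
    gs_add (FS_add (E.FS_log K) hqFS) (FS_log_max t), gs_add (E.FS_log K) hqFS, gs_log_max,
    gs_sub (FS_add (FS_nh1 _) (FS_const_mul _ (FS_add (E'.FS_log K) (FS_const_mul _ hqFS))))
      (FS_log_abv hδ), gs_log_abv hδ,
    gs_add (FS_nh1 _) (FS_const_mul _ (FS_add (E'.FS_log K) (FS_const_mul _ hqFS))),
    gs_const_mul, gs_add (E'.FS_log K) (FS_const_mul _ hqFS), gs_const_mul,
    gs_sum _ fun l _ => hFS3 l, ← hGE, ← hGE']
  have h1 : ∀ l, gs (fun v : AbsoluteValue K ℝ =>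
      (Real.log (max (NV v (α l)) (NV v (β l))) - Real.log (v (eval (nd.y P) (β l)))) +
        (((N + 1) * D : ℕ) : ℝ) * q v) = ht2 (α l) (β l) + ((N + 1) * D : ℕ) * gs q := by
    intro l
    rw [gs_add (FS_sub (N9_FS_log_max_NV _ _ (N9_ne_of_eval (hβ0 l))) (FS_log_abv (hβ0 l)))
      (FS_const_mul _ hqFS), gs_sub (N9_FS_log_max_NV _ _ (N9_ne_of_eval (hβ0 l)))
      (FS_log_abv (hβ0 l)), gs_log_abv (hβ0 l), gs_const_mul, sub_zero]
    rfl
  have h2 : (gs fun v : AbsoluteValue K ℝ => Real.log (max 1 (NV v nd.δ))) = nh1 nd.δ := rfl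
  rw [Finset.sum_congr rfl fun l _ => h1 l, Finset.sum_add_distrib, Finset.sum_const,
    Finset.card_univ, Fintype.card_fin, nsmul_eq_mul, h2]
  have h3 : c1 * gs q ≤ c1 * (GF + A.h P) := mul_le_mul_of_nonneg_left hGq hc10
  have h4 : c1 * gs q = gs q + d * (a₁ * gs q) + r * (((N + 1) * D : ℕ) * gs q) := by
    rw [hc1]
    ring
  have h5 : 0 ≤ A.h P := logHeight_nonneg _
  have h6 : 0 ≤ (GE + nh1 nd.δ + d * GE' + c1 * GF) * A.h P := by positivity
  have h7 : (GE + nh1 nd.δ + d * GE' + c1 * (GF + 1)) * (1 + A.h P) =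
      GE + nh1 nd.δ + d * GE' + c1 * (GF + A.h P) + c1 +
        (GE + nh1 nd.δ + d * GE' + c1 * GF) * A.h P := by ring
  have h8 : (d : ℝ) * (GE' + a₁ * gs q) = d * GE' + d * (a₁ * gs q) := by ring
  rw [h7, h8]
  linarith

end

end Pool.Agent.Lib.MP_17a322_nt.VP
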