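import Pool.Agent.Lib.MP_17a322_nt.VP.R2
import Pool.Agent.Lib.MP_17a322_nt.VA.E09

/-!
Roth's theorem with moving targets of small height: Roth's lemma.
-/

universe u

namespace Pool.Agent.Lib.MP_17a322_nt.VP

open MvPolynomial Height
open Pool.Agent.Lib.MP_17a322_nt.RO
open Pool.Agent.Lib.MP_17a322_nt.VJ
open Pool.Agent.Lib.MP_17a322_nt.VN
open Pool.Agent.Lib.MP_17a322_nt.VA

theorem R_tr_rename {R σ τ : Type*} [CommRing R] (g : σ → τ) (ξ : τ → R)
    (F : MvPolynomial σ R) : tr ξ (rename g F) = rename g (tr (fun t => ξ (g t)) F) := by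
  unfold tr
  rw [aeval_rename]
  have h1 : (rename g : MvPolynomial σ R →ₐ[R] MvPolynomial τ R).comp
      (aeval fun t => X t + C (ξ (g t))) = aeval ((fun t => X t + C (ξ t)) ∘ g) := by
    refine algHom_ext fun t => ?_
    rw [AlgHom.comp_apply, aeval_X, aeval_X, map_add, rename_X, rename_C]
    rfl
  rw [← h1]
  rfl

/-- Roth's lemma. -/
theorem R_zero {K : Type u} [Field K] [NumberField K] (m : ℕ) (s B : ℝ) (hs : 0 < s)
    (hB : 0 ≤ B) :
    ∃ (R₀ : ℕ) (B' : ℝ), 0 ≤ B' ∧ ∀ (j : Fin m → ℕ) (t : Fin m → K)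
      (F : MvPolynomial (Fin m) K) (μ : ℝ),
      (∀ i i', i < i' → R₀ * 4 ^ j i ≤ 4 ^ j i') → F ≠ 0 → 0 < μ →
      (∀ i, (4 : ℝ) ^ j i * F.degreeOf i ≤ μ) → nh F ≤ B * μ →
      (∃ i, logHeight₁ (t i) ≤ B' * 4 ^ j i) ∨
      ∃ w : Fin m →₀ ℕ, ∑ i, (4 : ℝ) ^ j i * w i < s * μ ∧ coeff w (tr t F) ≠ 0 := by
  classical
  obtain ⟨R₀, D', B', hB', H⟩ := T_index (K := K) m 1 Finset.univ s B hs hB
  refine ⟨R₀, B', hB', fun j t F μ hj hF hμ hdeg hnh => ?_⟩
  obtain ⟨g, hg⟩ : ∃ g : Fin m → {p : Fin m × Fin 1 // p.2 ∈ (Finset.univ : Finset (Fin 1))},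
      ∀ i, (g i).1 = (i, 0) := ⟨fun i => ⟨(i, 0), Finset.mem_univ _⟩, fun i => rfl⟩
  have hginj : Function.Injective g := by
    intro i i' h
    have h1 := congrArg (fun p => p.1.1) h
    simp only [hg] at h1
    exact h1
  have hgp : ∀ p, g p.1.1 = p := by
    intro p
    refine Subtype.ext ?_
    rw [hg]
    refine Prod.ext rfl ?_
    exact Subsingleton.elim _ _
  have hF' : rename g F ≠ 0 := by
    intro h0
    exact hF (rename_injective g hginj (by rw [h0, map_zero]))
  have hnh' : nh (rename g F) ≤ B * μ := by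
    have h1 : nh (rename g F) = nh F := by
      unfold nh
      congr 1
      funext v
      rw [NV_rename v F g hginj]
    rwa [h1]
  rcases H j (fun p => t p.1) (rename g F) μ hj hF' hμ (fun p => by
    have h1 := hdeg p.1.1
    rw [← degreeOf_rename_of_injective hginj, hgp] at h1
    exact h1) hnh' with ⟨i, G, hG, -, -, hGn, hGe⟩ | ⟨m₀, hm₀, hc⟩
  · left
    refine ⟨i, (logHeight_root_le G hG 0 ?_ (fun _ => t i) hGe).trans hGn⟩
    intro y _
    rw [Finset.mem_singleton]
    exact Subsingleton.elim _ _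
  · right
    have hm : m₀ = Finsupp.mapDomain g (Finsupp.comapDomain g m₀ hginj.injOn) := by
      rw [Finsupp.mapDomain_comapDomain g hginj]
      intro p _
      exact ⟨p.1.1, hgp p⟩
    refine ⟨Finsupp.comapDomain g m₀ hginj.injOn, ?_, ?_⟩
    · refine lt_of_le_of_lt (le_of_eq ?_) hm₀
      rw [Finsupp.weight_apply, Finsupp.sum_fintype _ _ (fun p => by rw [zero_smul])]
      push_cast
      refine Finset.sum_bij' (fun i _ => g i) (fun p _ => p.1.1) (fun i _ => Finset.mem_univ _)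
        (fun p _ => Finset.mem_univ _) (fun i _ => ?_) (fun p _ => hgp p) fun i _ => ?_
      · rw [hg]
      · rw [Finsupp.comapDomain_apply, smul_eq_mul]
        push_cast
        rw [hg, mul_comm]
    · rw [R_tr_rename, hm, coeff_rename_mapDomain g hginj] at hc
      have h2 : (fun t_1 => (fun p : Fin m × Fin 1 => t p.1) (g t_1).1) = t := by
        funext i
        rw [hg]
      rw [h2] at hc
      exact hc

end Pool.Agent.Lib.MP_17a322_nt.VP
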