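import Pool.Agent.Lib.MP_17a322_nt.VP.R1
import Pool.Agent.Lib.MP_17a322_nt.VJ.A5

/-!
Roth's theorem with moving targets of small height: the auxiliary polynomial.
-/

universe u

namespace Pool.Agent.Lib.MP_17a322_nt.VP

open MvPolynomial Height
open Pool.Agent.Lib.MP_17a322_nt.RO
open Pool.Agent.Lib.MP_17a322_nt.VJ

theorem R_log_card {ι : Type*} [Fintype ι] (d : ι → ℕ) :
    Real.log (∏ i, ((d i : ℝ) + 1)) ≤ ∑ i, (d i : ℝ) := by
  rw [Real.log_prod (fun i _ => by positivity)]
  refine Finset.sum_le_sum fun i _ => ?_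
  have h := Real.log_le_sub_one_of_pos (show (0 : ℝ) < (d i : ℝ) + 1 by positivity)
  linarith

theorem R_coeff_zero {R σ : Type*} [CommSemiring R] (G : MvPolynomial σ R) (w : σ →₀ ℕ) (i : σ)
    (h : G.degreeOf i < w i) : coeff w G = 0 := by
  by_contra hcon
  exact absurd (monomial_le_degreeOf i (mem_support_iff.2 hcon)) (not_le.2 h)

/-- The auxiliary polynomial. -/
theorem R_aux (K : Type u) [Field K] [NumberField K] :
    ∃ C : ℝ, 0 ≤ C ∧ ∀ (m : ℕ) (Λ : Type) [Fintype Λ] (δ : ℝ), 0 < δ →
      (Fintype.card Λ : ℝ) ≤ 2 * m * δ ^ 2 →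
      ∀ (d : Fin m → ℕ), (∀ i, 0 < d i) → ∀ f : Λ → Fin m → K,
      ∃ F : MvPolynomial (Fin m) K, F ≠ 0 ∧ (∀ i, F.degreeOf i ≤ d i) ∧
        nh F ≤ C * (1 + ∑ i, (d i : ℝ)) + ∑ l, ∑ i, (d i : ℝ) * logHeight₁ (f l i) ∧
        ∀ (l : Λ) (w : Fin m →₀ ℕ), (∑ i, (w i : ℝ) / d i) < (1 / 2 - δ) * m →
          coeff w (tr (f l) F) = 0 := by
  classical
  obtain ⟨c, hC0, hC⟩ := siegel K
  refine ⟨2 * c + totalWeight K * Real.log 2 + 2 * totalWeight K + 1, by positivity, ?_⟩
  intro m Λ _ δ hδ hr d hd f
  obtain ⟨T, hT⟩ : ∃ T : Finset (Fin m → ℕ), T = Fintype.piFinset fun i => Finset.range (d i + 1) :=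
    ⟨_, rfl⟩
  obtain ⟨T', hT'⟩ : ∃ T' : Finset (Fin m → ℕ), T' =
      T.filter fun u => ∑ i, (u i : ℝ) / d i < (1 / 2 - δ) * m := ⟨_, rfl⟩
  have hTc : (T.card : ℝ) = ∏ i, ((d i : ℝ) + 1) := by
    rw [hT, Fintype.card_piFinset]
    push_cast
    refine Finset.prod_congr rfl fun i _ => ?_
    rw [Finset.card_range]
    push_cast
    rfl
  have hTmem : ∀ u : Fin m → ℕ, u ∈ T ↔ ∀ i, u i ≤ d i := fun u => by
    rw [hT, Fintype.mem_piFinset]
    exact forall_congr' fun i => by rw [Finset.mem_range, Nat.lt_succ_iff]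
  have hTpos : (0 : ℝ) < T.card := by
    rw [hTc]
    exact Finset.prod_pos fun i _ => by positivity
  -- count
  have hcount : 2 * ((Fintype.card Λ : ℝ) * T'.card) ≤ T.card := by
    have h1 := L_count' d hd δ hδ
    rw [← hTc, ← hT, ← hT'] at h1
    have h2 : (Fintype.card Λ : ℝ) * T'.card ≤ 2 * m * δ ^ 2 * T'.card :=
      mul_le_mul_of_nonneg_right hr (by positivity)
    linarith
  let α := Λ × {u // u ∈ T'}
  let β := {u // u ∈ T}
  have hα : Fintype.card α = Fintype.card Λ * T'.card := by
    rw [Fintype.card_prod, Fintype.card_coe]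
  have hβ : Fintype.card β = T.card := Fintype.card_coe _
  have hcount' : 2 * Fintype.card α ≤ Fintype.card β := by
    rw [hα, hβ]
    exact_mod_cast hcount
  have hβpos : 0 < Fintype.card β := by
    rw [hβ]
    exact_mod_cast hTpos
  obtain ⟨A, hA⟩ : ∃ A : Matrix α β K, ∀ (a : α) (b : β), A a b =
      coeff (Finsupp.equivFunOnFinite.symm (a.2 : Fin m → ℕ)) (tr (f a.1)
        (monomial (Finsupp.equivFunOnFinite.symm (b : Fin m → ℕ)) (1 : K))) :=
    ⟨fun a b => _, fun a b => rfl⟩
  obtain ⟨x, hx0, hAx, hx⟩ := hC α β A (by omega)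
  obtain ⟨F, hF⟩ : ∃ F : MvPolynomial (Fin m) K, F =
      ∑ b : β, monomial (Finsupp.equivFunOnFinite.symm (b : Fin m → ℕ)) (x b) := ⟨_, rfl⟩
  have hcoef : ∀ b : β, coeff (Finsupp.equivFunOnFinite.symm (b : Fin m → ℕ)) F = x b := by
    intro b
    rw [hF, coeff_sum, Finset.sum_eq_single b]
    · rw [coeff_monomial, if_pos rfl]
    · intro b' _ hb'
      rw [coeff_monomial, if_neg]
      intro h
      exact hb' (Subtype.ext (Finsupp.equivFunOnFinite.symm.injective h))
    · intro h
      exact absurd (Finset.mem_univ b) h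
  have hcoef' : ∀ w : Fin m →₀ ℕ, coeff w F = 0 ∨ ∃ b : β, coeff w F = x b ∧
      w = Finsupp.equivFunOnFinite.symm (b : Fin m → ℕ) := by
    intro w
    by_cases hw : (fun i => w i) ∈ T
    · right
      have e1 : w = Finsupp.equivFunOnFinite.symm (fun i => w i) := Finsupp.ext fun i => rfl
      refine ⟨⟨_, hw⟩, ?_, e1⟩
      rw [← hcoef]
      exact congrArg (fun z => coeff z F) e1
    · left
      rw [hF, coeff_sum]
      refine Finset.sum_eq_zero fun b _ => ?_
      rw [coeff_monomial, if_neg]
      intro h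
      apply hw
      rw [← h]
      exact b.2
  have hF0 : F ≠ 0 := by
    intro h0
    apply hx0
    funext b
    rw [← hcoef b, h0, coeff_zero]
    rfl
  have hdeg : ∀ i, F.degreeOf i ≤ d i := by
    intro i
    rw [degreeOf_le_iff]
    intro w hw
    rw [mem_support_iff] at hw
    rcases hcoef' w with h | ⟨b, -, h⟩
    · exact absurd h hw
    · rw [h]
      exact (hTmem _).1 b.2 i
  refine ⟨F, hF0, hdeg, ?_, ?_⟩
  · -- the height
    have hlogT : Real.log (T.card : ℝ) ≤ ∑ i, (d i : ℝ) := by
      rw [hTc]
      exact R_log_card d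
    have hd0 : (0 : ℝ) ≤ ∑ i, (d i : ℝ) := Finset.sum_nonneg fun i _ => Nat.cast_nonneg _
    have hT1 : 1 ≤ T.card := by exact_mod_cast hTpos
    -- the height of `F` is bounded by that of `x`
    have hxi : ∀ (v : AbsoluteValue K ℝ) (b : β), v (x b) ≤ ⨆ b, v (x b) := fun v b =>
      le_ciSup (f := fun b => v (x b)) (Set.finite_range _).bddAbove b
    have hxpos : ∀ v : AbsoluteValue K ℝ, 0 < ⨆ b, v (x b) := by
      intro v
      obtain ⟨b, hb⟩ : ∃ b, x b ≠ 0 := by
        by_contra hcon
        push Not at hcon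
        exact hx0 (funext hcon)
      exact (v.pos hb).trans_le (hxi v b)
    have hFx : nh F ≤ totalWeight K * Real.log T.card + logHeight x := by
      have h1 : ∀ v : AbsoluteValue K ℝ, Real.log (NV v F) ≤
          Real.log (cst v T.card) + Real.log (⨆ b, v (x b)) := by
        intro v
        have h2 : F.support.card ≤ T.card := by
          have h3 := card_support_le F d hdeg
          refine h3.trans (le_of_eq ?_)
          rw [hT, Fintype.card_piFinset]
          exact Finset.prod_congr rfl fun i _ => (Finset.card_range _).symm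
        have h3 : NV v F ≤ cst v F.support.card * ⨆ b, v (x b) := by
          refine NV_le_of_coeff v F (hxpos v).le fun w => ?_
          rcases hcoef' w with h | ⟨b, h, -⟩
          · rw [h, map_zero]
            exact (hxpos v).le
          · rw [h]
            exact hxi v b
        have h4 : NV v F ≤ cst v T.card * ⨆ b, v (x b) :=
          h3.trans (mul_le_mul_of_nonneg_right (cst_mono v h2) (hxpos v).le)
        rw [← Real.log_mul (one_pos.trans_le (one_le_cst v hT1)).ne' (hxpos v).ne']
        exact Real.log_le_log (NV_pos v hF0) h4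
      unfold nh
      refine (gs_le (FS_log_NV hF0) (FS_add (FS_log_cst _) (FS_log_iSup hx0)) fun v _ => h1 v).trans ?_
      rw [gs_add (FS_log_cst _) (FS_log_iSup hx0), gs_log_iSup hx0]
      exact add_le_add_left (gs_log_cst hT1) _
    -- the height of the matrix
    have hAb : logHeight (fun p : α × β => A p.1 p.2) ≤
        totalWeight K * (Real.log 2 * ∑ i, (d i : ℝ)) + ∑ l, ∑ i, (d i : ℝ) * logHeight₁ (f l i) := by
      have hR0 : 0 ≤ ∑ l, ∑ i, (d i : ℝ) * logHeight₁ (f l i) :=
        Finset.sum_nonneg fun l _ => Finset.sum_nonneg fun i _ =>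
          mul_nonneg (Nat.cast_nonneg _) (zero_le_logHeight₁ _)
      by_cases hA0 : (fun p : α × β => A p.1 p.2) = 0
      · rw [hA0, logHeight_zero]
        positivity
      · have hFS1 : FS (fun v : AbsoluteValue K ℝ =>
            (∑ i, (d i : ℝ)) * Real.log (cst v 2)) := FS_const_mul _ (FS_log_cst 2)
        have hFS2 : FS (fun v : AbsoluteValue K ℝ =>
            ∑ l, ∑ i, (d i : ℝ) * Real.log (max 1 (v (f l i)))) :=
          FS_sum _ fun l _ => FS_sum _ fun i _ => FS_const_mul _ (FS_log_max _)
        rw [← gs_log_iSup hA0]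
        refine (gs_le (FS_log_iSup hA0) (FS_add hFS1 hFS2) fun v _ => ?_).trans ?_
        · have hent : ∀ p : α × β, v (A p.1 p.2) ≤
              Real.exp ((∑ i, (d i : ℝ)) * Real.log (cst v 2) +
                ∑ l, ∑ i, (d i : ℝ) * Real.log (max 1 (v (f l i)))) := by
            intro p
            have hc2 : 1 ≤ cst v 2 := one_le_cst v (by norm_num)
            have hu : ∀ i, (monomial (Finsupp.equivFunOnFinite.symm (p.2 : Fin m → ℕ))
                (1 : K)).degreeOf i ≤ d i := by
              intro i
              rw [degreeOf_le_iff]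
              intro w hw
              rw [mem_support_iff, coeff_monomial] at hw
              have h3 : Finsupp.equivFunOnFinite.symm (p.2 : Fin m → ℕ) = w := by
                by_contra hcon
                exact hw (if_neg hcon)
              rw [← h3]
              exact (hTmem _).1 p.2.2 i
            have h1 := (A2_coeff_le v _ (Finsupp.equivFunOnFinite.symm (p.1.2 : Fin m → ℕ))).trans
              (NV_tr_le v _ d hu (f p.1.1))
            rw [NV_monomial, v.map_one, one_mul] at h1
            rw [hA]
            refine h1.trans ?_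
            have h4 : ∀ i, (cst v 2 * max 1 (v (f p.1.1 i))) ^ d i =
                Real.exp ((d i : ℝ) * Real.log (cst v 2) +
                  (d i : ℝ) * Real.log (max 1 (v (f p.1.1 i)))) := by
              intro i
              have h5 : 0 < max 1 (v (f p.1.1 i)) := one_pos.trans_le (le_max_left _ _)
              rw [← mul_add, ← Real.log_mul (one_pos.trans_le hc2).ne' h5.ne',
                Real.exp_nat_mul, Real.exp_log (mul_pos (one_pos.trans_le hc2) h5)]
            rw [Finset.prod_congr rfl fun i _ => h4 i, ← Real.exp_sum, Finset.sum_add_distrib,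
              ← Finset.sum_mul]
            refine Real.exp_le_exp.2 (add_le_add_right ?_ _)
            refine Finset.single_le_sum (f := fun l => ∑ i, (d i : ℝ) * Real.log (max 1 (v (f l i))))
              (fun l _ => Finset.sum_nonneg fun i _ => mul_nonneg (Nat.cast_nonneg _)
                (Real.log_nonneg (le_max_left _ _))) (Finset.mem_univ p.1.1)
          have hpos : 0 < ⨆ p : α × β, v (A p.1 p.2) := by
            obtain ⟨p, hp⟩ : ∃ p : α × β, A p.1 p.2 ≠ 0 := by
              by_contra hcon
              push Not at hcon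
              exact hA0 (funext hcon)
            exact (v.pos hp).trans_le (le_ciSup (f := fun p : α × β => v (A p.1 p.2))
              (Set.finite_range _).bddAbove p)
          rw [← Real.log_exp ((∑ i, (d i : ℝ)) * Real.log (cst v 2) +
                ∑ l, ∑ i, (d i : ℝ) * Real.log (max 1 (v (f l i))))]
          refine Real.log_le_log hpos (Real.iSup_le hent (Real.exp_pos _).le)
        · rw [gs_add hFS1 hFS2, gs_const_mul, gs_sum _ fun l _ =>
            FS_sum _ fun i _ => FS_const_mul _ (FS_log_max _)]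
          refine add_le_add ?_ (Finset.sum_le_sum fun l _ => ?_)
          · have h1 := gs_log_cst (L := K) (n := 2) (by norm_num)
            push_cast at h1
            calc (∑ i, (d i : ℝ)) * gs (fun v : AbsoluteValue K ℝ => Real.log (cst v 2))
                ≤ (∑ i, (d i : ℝ)) * (totalWeight K * Real.log 2) :=
                  mul_le_mul_of_nonneg_left h1 hd0
              _ = _ := by ring
          · rw [gs_sum _ fun i _ => FS_const_mul _ (FS_log_max _)]
            refine Finset.sum_le_sum fun i _ => ?_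
            rw [gs_const_mul, gs_log_max]
    have hfrac : (Fintype.card α : ℝ) / (Fintype.card β - Fintype.card α : ℝ) ≤ 1 := by
      have h1 : (2 : ℝ) * Fintype.card α ≤ Fintype.card β := by exact_mod_cast hcount'
      have h2 : (0 : ℝ) < Fintype.card β := by exact_mod_cast hβpos
      rw [div_le_one (by linarith)]
      linarith
    have hnn : 0 ≤ logHeight (fun p : α × β => A p.1 p.2) + c + c * Real.log (Fintype.card β) := by
      have := logHeight_nonneg (fun p : α × β => A p.1 p.2)
      have := Real.log_natCast_nonneg (Fintype.card β)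
      positivity
    have hx2 : logHeight x ≤ c + (logHeight (fun p : α × β => A p.1 p.2) + c +
        c * Real.log (Fintype.card β)) := by
      refine hx.trans (add_le_add_right ?_ _)
      exact mul_le_of_le_one_left hnn hfrac
    rw [hβ] at hx2
    have h5 : c * Real.log (T.card : ℝ) ≤ c * ∑ i, (d i : ℝ) := mul_le_mul_of_nonneg_left hlogT hC0
    have h6 : (totalWeight K : ℝ) * Real.log (T.card : ℝ) ≤ totalWeight K * ∑ i, (d i : ℝ) :=
      mul_le_mul_of_nonneg_left hlogT (Nat.cast_nonneg _)
    have h7 : 0 ≤ (totalWeight K : ℝ) * ∑ i, (d i : ℝ) := by positivity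
    have h8 : 0 ≤ c * ∑ i, (d i : ℝ) := by positivity
    have h9 : 0 ≤ (totalWeight K : ℝ) * Real.log 2 := by positivity
    have h10 : (0 : ℝ) ≤ totalWeight K := Nat.cast_nonneg _
    linarith
  · intro l w hw
    by_cases hwT : (fun i => w i) ∈ T
    · have hwT' : (fun i => w i) ∈ T' := by
        rw [hT', Finset.mem_filter]
        exact ⟨hwT, hw⟩
      have h1 := congrFun hAx (l, ⟨_, hwT'⟩)
      have h2 : tr (f l) F = ∑ b : β, C (x b) * tr (f l)
          (monomial (Finsupp.equivFunOnFinite.symm (b : Fin m → ℕ)) (1 : K)) := by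
        have h3 : tr (f l) F = ∑ b : β, tr (f l)
            (monomial (Finsupp.equivFunOnFinite.symm (b : Fin m → ℕ)) (x b)) := by
          rw [hF]
          unfold tr
          rw [map_sum]
        rw [h3]
        refine Finset.sum_congr rfl fun b _ => ?_
        rw [← tr_C_mul, C_mul_monomial, mul_one]
      rw [h2, coeff_sum]
      have h3 : ∑ b : β, A (l, ⟨_, hwT'⟩) b * x b = 0 := h1
      rw [← h3]
      refine Finset.sum_congr rfl fun b _ => ?_
      have e1 : w = Finsupp.equivFunOnFinite.symm (fun i => w i) := Finsupp.ext fun i => rfl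
      rw [coeff_C_mul, hA, mul_comm]
      exact congrArg (fun z => coeff z (tr (f l)
        (monomial (Finsupp.equivFunOnFinite.symm (b : Fin m → ℕ)) (1 : K))) * x b) e1
    · rw [hTmem] at hwT
      push Not at hwT
      obtain ⟨i, hi⟩ := hwT
      refine R_coeff_zero _ _ i (lt_of_le_of_lt ?_ hi)
      rw [degreeOf_tr]
      exact hdeg i

end Pool.Agent.Lib.MP_17a322_nt.VP
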