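import Pool.Agent.Lib.MP_17a322_nt.VP.R3

/-!
Roth's theorem with moving targets of small height: the product formula.
-/

universe u

namespace Pool.Agent.Lib.MP_17a322_nt.VP

open MvPolynomial Height
open Pool.Agent.Lib.MP_17a322_nt.RO
open Pool.Agent.Lib.MP_17a322_nt.VJ

/-- The local estimate at a place at which `t` is close to the target. -/
theorem R_close {L : Type*} [Field L] (v : AbsoluteValue L ℝ) {ι : Type*} [Fintype ι]
    [DecidableEq ι] (F : MvPolynomial ι L) (d : ι → ℕ) (hd : ∀ t, F.degreeOf t ≤ d t)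
    (t f : ι → L) (x : ι → ℝ) (hη : ∀ i, v (t i - f i) ≤ Real.exp (- x i)) (T : ℝ)
    (hT : ∀ w : ι →₀ ℕ, ∑ i, x i * w i < T → coeff w (tr f F) = 0) (w : ι →₀ ℕ) :
    v (coeff w (tr t F)) ≤ NV v F * (∏ i, (cst v 2 * max 1 (v (f i))) ^ d i) *
      (cst v 2 ^ (∑ i, d i) * Real.exp (∑ i, x i * w i - T)) := by
  have h1 : tr t F = tr (fun i => t i - f i) (tr f F) := by
    rw [tr_tr]
    congr 1
    funext i
    rw [sub_add_cancel]
  rw [h1]
  have h2 : 1 ≤ cst v 2 := one_le_cst v (by norm_num)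
  rcases isEmpty_or_nonempty ι with hι | hι
  · refine (R_loc v (tr f F) d (fun t => (hι.false t).elim) (fun i => t i - f i) x hη T
      (fun w hw => ?_) w).trans (mul_le_mul_of_nonneg_right (NV_tr_le v F d hd f) (by positivity))
    by_contra hcon
    exact (mem_support_iff.1 hw) (hT w (not_le.1 hcon))
  · refine (R_loc v (tr f F) d (fun t => ?_) (fun i => t i - f i) x hη T
      (fun w hw => ?_) w).trans (mul_le_mul_of_nonneg_right (NV_tr_le v F d hd f) (by positivity))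
    · rw [degreeOf_tr]
      exact hd t
    · by_contra hcon
      exact (mem_support_iff.1 hw) (hT w (not_le.1 hcon))

theorem R_log_prod {L : Type*} [Field L] (v : AbsoluteValue L ℝ) {ι : Type*} [Fintype ι]
    (d : ι → ℕ) (t : ι → L) :
    ∏ i, (cst v 2 * max 1 (v (t i))) ^ d i = Real.exp ((∑ i, (d i : ℝ)) * Real.log (cst v 2) +
      ∑ i, (d i : ℝ) * Real.log (max 1 (v (t i)))) := by
  have hc2 : 1 ≤ cst v 2 := one_le_cst v (by norm_num)
  have h4 : ∀ i, (cst v 2 * max 1 (v (t i))) ^ d i =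
      Real.exp ((d i : ℝ) * Real.log (cst v 2) + (d i : ℝ) * Real.log (max 1 (v (t i)))) := by
    intro i
    have h5 : 0 < max 1 (v (t i)) := one_pos.trans_le (le_max_left _ _)
    rw [← mul_add, ← Real.log_mul (one_pos.trans_le hc2).ne' h5.ne',
      Real.exp_nat_mul, Real.exp_log (mul_pos (one_pos.trans_le hc2) h5)]
  rw [Finset.prod_congr rfl fun i _ => h4 i, ← Real.exp_sum, Finset.sum_add_distrib,
    ← Finset.sum_mul]

/-- The product formula. -/
theorem R_prod {K : Type u} [Field K] [NumberField K] {m : ℕ} (F : MvPolynomial (Fin m) K)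
    (hF : F ≠ 0) (d : Fin m → ℕ) (hd : ∀ t, F.degreeOf t ≤ d t) (t : Fin m → K)
    (w : Fin m →₀ ℕ) (hw : coeff w (tr t F) ≠ 0) (Sg : Finset (AbsoluteValue K ℝ))
    (f : AbsoluteValue K ℝ → Fin m → K) (γ : AbsoluteValue K ℝ → ℝ)
    (hγ : ∀ v ∈ Sg, v (coeff w (tr t F)) ≤
      NV v F * (∏ i, (cst v 2 * max 1 (v (f v i))) ^ d i) *
      (cst v 2 ^ (∑ i, d i) * Real.exp (- γ v))) :
    open Classical in
    gs (fun v => if v ∈ Sg then γ v else 0) ≤ nh F +
      2 * (∑ i, (d i : ℝ)) * (totalWeight K * Real.log 2) + ∑ i, (d i : ℝ) * logHeight₁ (t i) +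
      ∑ v ∈ Sg, ∑ i, (d i : ℝ) * logHeight₁ (f v i) := by
  classical
  obtain ⟨D, hD⟩ : ∃ D, D = ∑ i, (d i : ℝ) := ⟨_, rfl⟩
  have hD0 : 0 ≤ D := by
    rw [hD]
    exact Finset.sum_nonneg fun i _ => Nat.cast_nonneg _
  obtain ⟨g0, hg0⟩ : ∃ g : AbsoluteValue K ℝ → ℝ, ∀ v, g v = if v ∈ Sg then γ v else 0 :=
    ⟨_, fun v => rfl⟩
  have hFS0 : FS g0 := by
    refine Set.Finite.subset (s := {v : AdmissibleAbsValues.nonarchAbsVal (K := K) | v.val ∈ Sg})
      ?_ fun v hv => ?_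
    · exact Set.Finite.preimage Subtype.val_injective.injOn Sg.finite_toSet
    · by_contra hcon
      refine hv ?_
      rw [hg0]
      exact if_neg hcon
  have hFSF : FS fun v => Real.log (NV v F) := FS_log_NV hF
  have hFSc : FS fun v : AbsoluteValue K ℝ => (2 * D) * Real.log (cst v 2) :=
    FS_const_mul _ (FS_log_cst 2)
  have hFSt : FS fun v : AbsoluteValue K ℝ => ∑ i, (d i : ℝ) * Real.log (max 1 (v (t i))) :=
    FS_sum _ fun i _ => FS_const_mul _ (FS_log_max _)
  have hFSf : FS fun v : AbsoluteValue K ℝ =>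
      ∑ v' ∈ Sg, ∑ i, (d i : ℝ) * Real.log (max 1 (v (f v' i))) :=
    FS_sum _ fun l _ => FS_sum _ fun i _ => FS_const_mul _ (FS_log_max _)
  have hkey : ∀ v : AbsoluteValue K ℝ, Real.log (v (coeff w (tr t F))) + g0 v ≤
      Real.log (NV v F) + (2 * D) * Real.log (cst v 2) +
      (∑ i, (d i : ℝ) * Real.log (max 1 (v (t i))) +
      ∑ v' ∈ Sg, ∑ i, (d i : ℝ) * Real.log (max 1 (v (f v' i)))) := by
    intro v
    have hc2 : 1 ≤ cst v 2 := one_le_cst v (by norm_num)
    have hlc : 0 ≤ Real.log (cst v 2) := Real.log_nonneg hc2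
    have hpos : 0 < v (coeff w (tr t F)) := v.pos hw
    have hN := NV_pos v hF
    have ht0 : 0 ≤ ∑ i, (d i : ℝ) * Real.log (max 1 (v (t i))) :=
      Finset.sum_nonneg fun i _ => mul_nonneg (Nat.cast_nonneg _)
        (Real.log_nonneg (le_max_left _ _))
    have hf0 : ∀ v' : AbsoluteValue K ℝ, 0 ≤ ∑ i, (d i : ℝ) * Real.log (max 1 (v (f v' i))) :=
      fun v' => Finset.sum_nonneg fun i _ => mul_nonneg (Nat.cast_nonneg _)
        (Real.log_nonneg (le_max_left _ _))
    by_cases hv : v ∈ Sg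
    · have h1 := hγ v hv
      rw [R_log_prod, ← hD] at h1
      have h2 : cst v 2 ^ (∑ i, d i) = Real.exp (D * Real.log (cst v 2)) := by
        rw [hD, ← Nat.cast_sum, Real.exp_nat_mul, Real.exp_log (one_pos.trans_le hc2)]
      rw [h2, ← Real.exp_add, mul_assoc, ← Real.exp_add] at h1
      have h3 := Real.log_le_log hpos h1
      rw [Real.log_mul hN.ne' (Real.exp_pos _).ne', Real.log_exp] at h3
      have h4 := Finset.single_le_sum (f := fun v' => ∑ i, (d i : ℝ) *
        Real.log (max 1 (v (f v' i)))) (fun v' _ => hf0 v') hv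
      rw [hg0, if_pos hv]
      linarith
    · have h1 := (A2_coeff_le v _ w).trans (NV_tr_le v F d hd t)
      rw [R_log_prod, ← hD] at h1
      have h3 := Real.log_le_log hpos h1
      rw [Real.log_mul hN.ne' (Real.exp_pos _).ne', Real.log_exp] at h3
      have h4 : 0 ≤ ∑ v' ∈ Sg, ∑ i, (d i : ℝ) * Real.log (max 1 (v (f v' i))) :=
        Finset.sum_nonneg fun v' _ => hf0 v'
      rw [hg0, if_neg hv]
      have h5 : 0 ≤ D * Real.log (cst v 2) := mul_nonneg hD0 hlc
      linarith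
  have h1 : gs (fun v => if v ∈ Sg then γ v else 0) = gs g0 := by
    congr 1
    exact funext fun v => (hg0 v).symm
  have h2 := gs_le (FS_add (FS_log_abv hw) hFS0) (FS_add (FS_add hFSF hFSc) (FS_add hFSt hFSf))
    fun v _ => hkey v
  rw [gs_add (FS_log_abv hw) hFS0, gs_log_abv hw, gs_add (FS_add hFSF hFSc) (FS_add hFSt hFSf),
    gs_add hFSF hFSc, gs_add hFSt hFSf, gs_const_mul,
    gs_sum _ fun i _ => FS_const_mul _ (FS_log_max _),
    gs_sum _ fun l _ => FS_sum _ fun i _ => FS_const_mul _ (FS_log_max _)] at h2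
  have h3 : ∑ i, gs (fun v : AbsoluteValue K ℝ => (d i : ℝ) * Real.log (max 1 (v (t i)))) =
      ∑ i, (d i : ℝ) * logHeight₁ (t i) :=
    Finset.sum_congr rfl fun i _ => by rw [gs_const_mul, gs_log_max]
  have h4 : ∑ v' ∈ Sg, gs (fun v : AbsoluteValue K ℝ =>
      ∑ i, (d i : ℝ) * Real.log (max 1 (v (f v' i)))) =
      ∑ v' ∈ Sg, ∑ i, (d i : ℝ) * logHeight₁ (f v' i) :=
    Finset.sum_congr rfl fun v' _ => by
      rw [gs_sum _ fun i _ => FS_const_mul _ (FS_log_max _)]
      exact Finset.sum_congr rfl fun i _ => by rw [gs_const_mul, gs_log_max]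
  have h5 := gs_log_cst (L := K) (n := 2) (by norm_num)
  push_cast at h5
  have h6 := mul_le_mul_of_nonneg_left h5 (show 0 ≤ 2 * D by positivity)
  rw [h3, h4, zero_add] at h2
  rw [h1, ← hD]
  have h7 : gs (fun v => Real.log (NV v F)) = nh F := rfl
  rw [h7] at h2
  linarith

end Pool.Agent.Lib.MP_17a322_nt.VP
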