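import Pool.Agent.Lib.MP_17a322_nt.VP.R5
import Pool.Agent.Lib.MP_17a322_nt.VN.F3

/-!
Roth's theorem with moving targets of small height.
-/

universe u

namespace Pool.Agent.Lib.MP_17a322_nt.VP

open MvPolynomial Height Filter Topology
open Pool.Agent.Lib.MP_17a322_nt.RO
open Pool.Agent.Lib.MP_17a322_nt.VJ
open Pool.Agent.Lib.MP_17a322_nt.VN

/-- The limit of a bounded sequence along the ultrafilter. -/
theorem R_lim (x : ℕ → ℝ) (a b : ℝ)
    (h : ∀ᶠ i in (hyperfilter ℕ : Filter ℕ), a ≤ x i ∧ x i ≤ b) :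
    ∃ ξ : ℝ, Tendsto x (hyperfilter ℕ : Filter ℕ) (𝓝 ξ) := by
  have h1 : ((hyperfilter ℕ).map x : Filter ℝ) ≤ 𝓟 (Set.Icc a b) := by
    rw [le_principal_iff, Ultrafilter.coe_map, mem_map]
    exact h
  obtain ⟨ξ, -, hξ⟩ := isCompact_Icc.ultrafilter_le_nhds ((hyperfilter ℕ).map x) h1
  exact ⟨ξ, hξ⟩

/-- A sequence of indices with rapidly increasing heights. -/
theorem R_chain (h : ℕ → ℝ) (hh : Tendsto h (hyperfilter ℕ : Filter ℕ) atTop) (S : ℕ → Prop)
    (hS : ∀ᶠ i in (hyperfilter ℕ : Filter ℕ), S i) (R : ℝ) (hR : 1 ≤ R) (m : ℕ) :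
    ∃ g : Fin m → ℕ, (∀ k, S (g k)) ∧ ∀ k k', k < k' → R * h (g k) ≤ h (g k') := by
  have hnext : ∀ n : ℕ, ∃ i, S i ∧ 0 ≤ h i ∧ R * h n ≤ h i := by
    intro n
    obtain ⟨i, h1, h2, h3⟩ := (hS.and ((hh.eventually_ge_atTop 0).and
      (hh.eventually_ge_atTop (R * h n)))).exists
    exact ⟨i, h1, h2, h3⟩
  choose nx hn1 hn2 hn3 using hnext
  obtain ⟨G, hG⟩ : ∃ G : ℕ → ℕ, ∀ k, G k = nx^[k + 1] 0 := ⟨_, fun k => rfl⟩
  have hG1 : ∀ k, G (k + 1) = nx (G k) := fun k => by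
    rw [hG, hG, Function.iterate_succ_apply']
  have hGS : ∀ k, S (G k) ∧ 0 ≤ h (G k) := fun k => by
    rw [hG, Function.iterate_succ_apply']
    exact ⟨hn1 _, hn2 _⟩
  have hmono : ∀ k l, h (G k) ≤ h (G (k + l)) := by
    intro k l
    induction l with
    | zero => exact le_refl _
    | succ l ih =>
      rw [← add_assoc, hG1]
      have h1 := hn3 (G (k + l))
      have h2 := le_mul_of_one_le_left (hGS (k + l)).2 hR
      linarith
  refine ⟨fun k => G k, fun k => (hGS k).1, fun k k' hkk => ?_⟩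
  obtain ⟨l, hl⟩ := Nat.exists_eq_add_of_lt hkk
  have h1 := hn3 (G k)
  rw [← hG1] at h1
  have h2 := hmono ((k : ℕ) + 1) l
  have h3 : (k : ℕ) + 1 + l = (k' : ℕ) := by omega
  rw [h3] at h2
  exact h1.trans h2

theorem R_neg_log_nonneg {x : ℝ} (hx : 0 ≤ x) : 0 ≤ - Real.log (min 1 x) := by
  rw [neg_nonneg]
  exact Real.log_nonpos (le_min zero_le_one hx) (min_le_left _ _)

theorem R_gs_single {K : Type*} [Field K] [AdmissibleAbsValues K] {f : AbsoluteValue K ℝ → ℝ}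
    (hf : FS f) (h0 : ∀ v, Pl v → 0 ≤ f v) {v₀ : AbsoluteValue K ℝ} (hv : Pl v₀) :
    f v₀ ≤ gs f := by
  classical
  obtain ⟨S, hS⟩ : ∃ S : ℝ, S = ∑ᶠ v : AdmissibleAbsValues.nonarchAbsVal (K := K), f v.val :=
    ⟨_, rfl⟩
  have hS0 : 0 ≤ S := by
    rw [hS]
    exact finsum_nonneg fun v => h0 v.val (Or.inr v.2)
  have hA0 : 0 ≤ (AdmissibleAbsValues.archAbsVal (K := K) |>.map f).sum := by
    refine Multiset.sum_nonneg fun x hx => ?_
    obtain ⟨v, hv, rfl⟩ := Multiset.mem_map.1 hx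
    exact h0 v (Or.inl hv)
  rcases hv with hv | hv
  · have h1 : f v₀ ≤ (AdmissibleAbsValues.archAbsVal (K := K) |>.map f).sum := by
      refine Multiset.single_le_sum (fun x hx => ?_) _ (Multiset.mem_map_of_mem f hv)
      obtain ⟨v, hv, rfl⟩ := Multiset.mem_map.1 hx
      exact h0 v (Or.inl hv)
    unfold gs
    rw [← hS]
    linarith
  · have h1 : f v₀ ≤ S := by
      rw [hS]
      exact single_le_finsum (⟨v₀, hv⟩ : AdmissibleAbsValues.nonarchAbsVal (K := K)) hf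
        fun v => h0 v.val (Or.inr v.2)
    unfold gs
    rw [← hS]
    linarith

theorem R_neg_log_le {K : Type*} [Field K] [NumberField K] {v₀ : AbsoluteValue K ℝ} (hv : Pl v₀)
    (a : K) (ha : a ≠ 0) : - Real.log (min 1 (v₀ a)) ≤ logHeight₁ a := by
  rcases le_total 1 (v₀ a) with h | h
  · rw [min_eq_left h, Real.log_one, neg_zero]
    exact zero_le_logHeight₁ a
  · rw [min_eq_right h]
    have h1 : - Real.log (v₀ a) = Real.log (v₀ a⁻¹) := by
      rw [map_inv₀, Real.log_inv]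
    have h2 : Real.log (v₀ a⁻¹) ≤ Real.log (max 1 (v₀ a⁻¹)) :=
      Real.log_le_log (v₀.pos (inv_ne_zero ha)) (le_max_right _ _)
    have h3 := R_gs_single (FS_log_max a⁻¹)
      (fun v _ => Real.log_nonneg (le_max_left (1 : ℝ) (v a⁻¹))) hv
    rw [gs_log_max, logHeight₁_inv] at h3
    rw [h1]
    exact h2.trans h3

section

variable {K : Type*} [Field K] [AdmissibleAbsValues K]

theorem R_FS_ind (Sg : Finset (AbsoluteValue K ℝ)) (g : AbsoluteValue K ℝ → ℝ) :
    open Classical in FS (fun v : AbsoluteValue K ℝ => if v ∈ Sg then g v else 0) := by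
  classical
  refine Set.Finite.subset (s := {v : AdmissibleAbsValues.nonarchAbsVal (K := K) | v.val ∈ Sg})
    ?_ fun v hv => ?_
  · exact Set.Finite.preimage Subtype.val_injective.injOn Sg.finite_toSet
  · by_contra hcon
    refine hv ?_
    exact if_neg hcon

end

/-- Roth's theorem with moving targets of small height. -/
theorem R0 {K : Type u} [Field K] [NumberField K] {H : ℕ → ℝ}
    (hH : Tendsto H (hyperfilter ℕ : Filter ℕ) atTop) (Sg : Finset (AbsoluteValue K ℝ))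
    (hS : ∀ v ∈ Sg, Pl v) (t : ℕ → K) (f : AbsoluteValue K ℝ → ℕ → K)
    (ht : ∃ c : ℝ, 0 < c ∧ ∀ᶠ i in (hyperfilter ℕ : Filter ℕ), c * H i ≤ logHeight₁ (t i))
    (ht' : ∃ C : ℝ, ∀ᶠ i in (hyperfilter ℕ : Filter ℕ), logHeight₁ (t i) ≤ C * H i)
    (hf : ∀ v ∈ Sg, oH H fun i => logHeight₁ (f v i)) (ε : ℝ) (hε : 0 < ε) :
    open Classical in
    ∀ᶠ i in (hyperfilter ℕ : Filter ℕ),
      gs (fun v : AbsoluteValue K ℝ => if v ∈ Sg then - Real.log (min 1 (v (t i - f v i))) else 0) ≤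
        2 * logHeight₁ (t i) + ε * H i := by
  classical
  obtain ⟨c, hc0, hc⟩ := ht
  obtain ⟨C, hC⟩ := ht'
  obtain ⟨h, hh⟩ : ∃ h : ℕ → ℝ, ∀ i, h i = logHeight₁ (t i) := ⟨_, fun i => rfl⟩
  obtain ⟨lam, hlam⟩ : ∃ lam : AbsoluteValue K ℝ → ℕ → ℝ, ∀ v i,
    lam v i = - Real.log (min 1 (v (t i - f v i))) := ⟨_, fun v i => rfl⟩
  have hlam0 : ∀ v i, 0 ≤ lam v i := fun v i => by
    rw [hlam]
    exact R_neg_log_nonneg (v.nonneg _)
  have hhT : Tendsto h (hyperfilter ℕ : Filter ℕ) atTop := by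
    refine tendsto_atTop.2 fun D => ?_
    filter_upwards [hc, hH.eventually_ge_atTop (D / c)] with i h1 h2
    rw [div_le_iff₀ hc0] at h2
    rw [hh]
    linarith
  -- the targets are different from `t` and not too close
  have hbd : ∀ v ∈ Sg, ∀ᶠ i in (hyperfilter ℕ : Filter ℕ), 0 ≤ lam v i / h i ∧ lam v i / h i ≤ 3 := by
    intro v hv
    filter_upwards [hc, hf v hv (c / 2) (by positivity), hH.eventually_gt_atTop 0,
      hhT.eventually_gt_atTop 0, hhT.eventually_ge_atTop (totalWeight K * Real.log 2)]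
      with i h1 h2 h3 h4 h5
    have h6 : 0 < c * H i := by positivity
    refine ⟨div_nonneg (hlam0 v i) h4.le, ?_⟩
    rw [div_le_iff₀ h4, hlam]
    have hne : t i - f v i ≠ 0 := by
      intro h0
      rw [sub_eq_zero] at h0
      rw [← h0] at h2
      linarith
    have h7 := R_neg_log_le (hS v hv) _ hne
    have h8 := logHeight₁_sub_le (t i) (f v i)
    rw [hh] at h4 h5 ⊢
    linarith
  have hlim : ∀ v, ∃ ξ : ℝ, v ∈ Sg → Tendsto (fun i => lam v i / h i)
      (hyperfilter ℕ : Filter ℕ) (𝓝 ξ) := by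
    intro v
    by_cases hv : v ∈ Sg
    · obtain ⟨ξ, hξ⟩ := R_lim _ _ _ (hbd v hv)
      exact ⟨ξ, fun _ => hξ⟩
    · exact ⟨0, fun h => absurd h hv⟩
  choose ξ hξ using hlim
  by_contra hcon
  rw [not_eventually_iff] at hcon
  -- constants
  have hC1 : 0 < max C 1 := lt_max_of_lt_right one_pos
  obtain ⟨ε', hε'⟩ : ∃ ε' : ℝ, ε' = ε / max C 1 := ⟨_, rfl⟩
  have hε'0 : 0 < ε' := by
    rw [hε']
    positivity
  obtain ⟨w, hw⟩ : ∃ w : ℝ, w = gs (fun v : AbsoluteValue K ℝ => if v ∈ Sg then (1 : ℝ) else 0) :=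
    ⟨_, rfl⟩
  have hw0 : 0 ≤ w := by
    rw [hw]
    refine gs_nonneg fun v _ => ?_
    split_ifs
    · exact zero_le_one
    · exact le_refl _
  obtain ⟨η, hη⟩ : ∃ η : ℝ, η = ε' / (4 * w + 4) := ⟨_, rfl⟩
  have hη0 : 0 < η := by
    rw [hη]
    positivity
  have hηw : 2 * (η * w) ≤ ε' / 2 := by
    have h1 : η * (4 * w + 4) = ε' := by
      rw [hη]
      field_simp
    linarith
  obtain ⟨Sg', hSg'⟩ : ∃ Sg', Sg' = Sg.filter fun v => η < ξ v := ⟨_, rfl⟩
  obtain ⟨m, h₀, R₀, hm, hh₀, hR₀, H5⟩ := R_num Sg' (ε' / 2) (by positivity)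
  have hhpos : 0 < h₀ := by linarith
  -- the good indices
  have hgood : ∀ᶠ i in (hyperfilter ℕ : Filter ℕ), (h₀ * R₀ ≤ h i ∧
      2 * h i + ε * H i < gs (fun v : AbsoluteValue K ℝ => if v ∈ Sg then lam v i else 0) ∧
      h i ≤ C * H i ∧ 0 < h i ∧ 0 < H i) ∧ ∀ v ∈ Sg, h₀ * logHeight₁ (f v i) ≤ h i ∧
        (ξ v - η) * h i ≤ lam v i ∧ lam v i ≤ (ξ v + η) * h i := by
    refine Filter.Eventually.and ?_ ((Finset.eventually_all Sg).2 fun v hv => ?_)
    · filter_upwards [hhT.eventually_ge_atTop (h₀ * R₀), hcon, hC, hhT.eventually_gt_atTop 0,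
        hH.eventually_gt_atTop 0] with i h1 h2 h3 h4 h5
      refine ⟨h1, ?_, by rw [hh]; exact h3, h4, h5⟩
      rw [not_le] at h2
      rw [hh]
      simp only [hlam]
      exact h2
    · have h1 := hξ v hv
      have h2 := h1.eventually (lt_mem_nhds (show ξ v - η < ξ v by linarith))
      have h3 := h1.eventually (gt_mem_nhds (show ξ v < ξ v + η by linarith))
      filter_upwards [hf v hv (c / h₀) (by positivity), hc, h2, h3, hhT.eventually_gt_atTop 0,
        hH.eventually_gt_atTop 0] with i g1 g2 g3 g4 g5 g6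
      refine ⟨?_, ?_, ?_⟩
      · have g7 := mul_le_mul_of_nonneg_left g1 hhpos.le
        have g8 : h₀ * (c / h₀ * H i) = c * H i := by field_simp
        rw [hh]
        linarith
      · rw [lt_div_iff₀ g5] at g3
        exact g3.le
      · rw [div_lt_iff₀ g5] at g4
        exact g4.le
  obtain ⟨g, hg1, hg2⟩ := R_chain h hhT _ hgood R₀ hR₀ m
  obtain ⟨ρ, hρ⟩ : ∃ ρ : AbsoluteValue K ℝ → ℝ, ∀ v, ρ v = ξ v - η := ⟨_, fun v => rfl⟩
  have hmem : ∀ v, v ∈ Sg' ↔ v ∈ Sg ∧ η < ξ v := fun v => by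
    rw [hSg', Finset.mem_filter]
  have hfin := H5 (fun k => t (g k)) (fun v k => f v (g k)) ρ
    (fun v hv => by
      rw [hρ]
      have := ((hmem v).1 hv).2
      linarith)
    (fun k => by
      have := (hg1 k).1.1
      rwa [hh] at this)
    (fun k k' hk => by
      have := hg2 k k' hk
      rwa [hh, hh] at this)
    (fun v hv k => by
      have := ((hg1 k).2 v ((hmem v).1 hv).1).1
      rwa [hh] at this)
    (fun v hv k => by
      have h1 := ((hg1 k).2 v ((hmem v).1 hv).1).2.1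
      have h2 := (hg1 k).1.2.2.2.1
      have h3 := ((hmem v).1 hv).2
      have h4 : 0 < lam v (g k) := by
        have : 0 < (ξ v - η) * h (g k) := mul_pos (by linarith) h2
        linarith
      have h5 : v (t (g k) - f v (g k)) ≤ 1 := by
        by_contra h6
        rw [not_le] at h6
        rw [hlam, min_eq_left h6.le, Real.log_one, neg_zero] at h4
        exact lt_irrefl _ h4
      rw [hρ, ← hh]
      rcases (v.nonneg (t (g k) - f v (g k))).eq_or_lt with h6 | h6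
      · rw [← h6]
        exact (Real.exp_pos _).le
      · rw [← Real.log_le_iff_le_exp h6]
        rw [hlam, min_eq_right h5] at h1
        linarith)
  -- the contradiction
  obtain ⟨i, hi⟩ : ∃ i, i = g ⟨0, hm⟩ := ⟨_, rfl⟩
  have hgi := hg1 ⟨0, hm⟩
  rw [← hi] at hgi
  obtain ⟨⟨k1, k2, k3, k4, k5⟩, k6⟩ := hgi
  have h1 : gs (fun v : AbsoluteValue K ℝ => if v ∈ Sg then lam v i else 0) ≤
      h i * (gs (fun v => if v ∈ Sg' then ρ v else 0) + 2 * η * w) := by
    have hF1 : FS (fun v : AbsoluteValue K ℝ => if v ∈ Sg' then ρ v else 0) := R_FS_ind Sg' ρ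
    have hF2 : FS (fun v : AbsoluteValue K ℝ => if v ∈ Sg then (1 : ℝ) else 0) :=
      R_FS_ind Sg fun _ => 1
    rw [hw, ← gs_const_mul, ← gs_add hF1 (FS_const_mul _ hF2), ← gs_const_mul]
    refine gs_le (R_FS_ind Sg _) (FS_const_mul _ (FS_add hF1 (FS_const_mul _ hF2))) fun v _ => ?_
    by_cases hv : v ∈ Sg
    · have h2 := (k6 v hv).2.2
      rw [if_pos hv]
      by_cases hv' : v ∈ Sg'
      · simp only [if_pos hv', if_pos hv, hρ]
        linarith
      · simp only [if_neg hv', if_pos hv]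
        have h3 : ξ v ≤ η := by
          by_contra h4
          exact hv' ((hmem v).2 ⟨hv, not_le.1 h4⟩)
        have h4 := mul_le_mul_of_nonneg_right h3 k4.le
        linarith
    · have hv' : v ∉ Sg' := fun h => hv ((hmem v).1 h).1
      simp only [if_neg hv', if_neg hv]
      simp
  have h2 : ε' * h i ≤ ε * H i := by
    have h3 : h i ≤ max C 1 * H i := k3.trans (mul_le_mul_of_nonneg_right (le_max_left _ _) k5.le)
    rw [hε']
    calc ε / max C 1 * h i ≤ ε / max C 1 * (max C 1 * H i) :=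
          mul_le_mul_of_nonneg_left h3 (by positivity)
      _ = ε * H i := by field_simp
  have h3 : (2 + ε') * h i < (gs (fun v => if v ∈ Sg' then ρ v else 0) + 2 * η * w) * h i := by
    linarith
  have h4 := lt_of_mul_lt_mul_right h3 k4.le
  linarith

end Pool.Agent.Lib.MP_17a322_nt.VP
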