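import Pool.Agent.Lib.MP_17a322_nt.VP.DefsB
import Pool.Agent.Lib.MP_17a322_nt.VA.LA6

/-!
Roth's theorem with moving targets over abelian varieties: the block for one point.
-/

universe u

namespace Pool.Agent.Lib.MP_17a322_nt.VP

open MvPolynomial Height
open Pool.Agent.Lib.MP_17a322_nt.RO
open Pool.Agent.Lib.MP_17a322_nt.VJ
open Pool.Agent.Lib.MP_17a322_nt.VN
open Pool.Agent.Lib.MP_17a322_nt.VA

/-- Lower bounds (no frame). -/
theorem B_num {K : Type u} [Field K] {N : ℕ} {A : AV K N} {n e : ℕ} (nd : Noe A n e) :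
    ∃ E : SC K, ∀ (L : Type u) [Field L] [Algebra K L] (v : AbsoluteValue L ℝ)
      (y₀ M : Fin (N + 1) → L) (q : Fin n → L), A.IsPt y₀ → lf (nd.l 0) y₀ = 1 → A.IsPt M →
      M ≠ 0 → (∀ (a : Fin (N + 1)) (k : Fin n), lf (nd.l k.succ) (A.col a y₀ M) =
        q k * lf (nd.l 0) (A.col a y₀ M)) →
      1 ≤ E.k v * vm v y₀ ∧
      ∃ a, vm v y₀ ^ 2 * vm v M ^ 2 ≤ E.k v * mq v q * v (lf (nd.l 0) (A.col a y₀ M)) := by
  obtain ⟨κ1, h1⟩ := lf_upper.{u, u} nd.l
  obtain ⟨κ2, h2⟩ := AV.S_lower (A := A)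
  obtain ⟨κ3, h3⟩ := AV.lf_lower (A := A) nd.l nd.nz
  obtain ⟨E1, hE1⟩ := exists_sup.{u, u} ![κ1, κ2, κ3]
  refine ⟨E1.pw 2, fun L _ _ v y₀ M q hy₀ hl₀ hM hM0 hq => ?_⟩
  have e1 : κ1.k v ≤ E1.k v := hE1 0 L v
  have e2 : κ2.k v ≤ E1.k v := hE1 1 L v
  have e3 : κ3.k v ≤ E1.k v := hE1 2 L v
  have hE : (1 : ℝ) ≤ E1.k v := E1.one_le v
  have hEp : E1.k v ^ 2 ≤ (E1.pw 2).k v := E1.pow_le 2 v
  set e := E1.k v with he
  have he0 : 0 < e := one_pos.trans_le hE
  have hy00 : y₀ ≠ 0 := by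
    intro h
    rw [h] at hl₀
    unfold lf at hl₀
    simp at hl₀
  have hV : 0 < vm v y₀ := vm_pos v hy00
  have hMp : 0 < vm v M := vm_pos v hM0
  have hp1 : e ≤ (E1.pw 2).k v := by
    refine le_trans ?_ hEp
    calc e = e ^ 1 := (pow_one e).symm
      _ ≤ e ^ 2 := pow_le_pow_right₀ hE (by norm_num)
  refine ⟨?_, ?_⟩
  · have h5 := h1 L v y₀ 0
    rw [hl₀, map_one] at h5
    exact h5.trans (mul_le_mul_of_nonneg_right (e1.trans hp1) hV.le)
  · obtain ⟨a, b, hab⟩ := h2 L v y₀ M hy₀ hM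
    refine ⟨a, ?_⟩
    have h5 : v (aeval (Sum.elim y₀ M) (A.S a b)) ≤ vm v (A.col a y₀ M) :=
      le_vm v (A.col a y₀ M) b
    have hpos : 0 < vm v y₀ ^ 2 * vm v M ^ 2 := mul_pos (pow_pos hV 2) (pow_pos hMp 2)
    have hcol : A.col a y₀ M ≠ 0 := by
      intro h
      have h6 : vm v (A.col a y₀ M) = 0 := by
        rw [h]
        exact vm_zero v
      rw [h6] at h5
      have h7 : v (aeval (Sum.elim y₀ M) (A.S a b)) = 0 := le_antisymm h5 (v.nonneg _)
      rw [h7, mul_zero] at hab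
      exact absurd hab (not_le.2 hpos)
    obtain ⟨k, hk⟩ := h3 L v (A.col a y₀ M) (AV.row_isPt hy₀ hM a) hcol
    have h6 : v (lf (nd.l k) (A.col a y₀ M)) ≤ mq v q * v (lf (nd.l 0) (A.col a y₀ M)) := by
      rcases Fin.eq_zero_or_eq_succ k with hk0 | ⟨k', hk'⟩
      · rw [hk0]
        exact le_mul_of_one_le_left (v.nonneg _) (one_le_mq v q)
      · rw [hk', hq, map_mul]
        exact mul_le_mul_of_nonneg_right (le_mq v q k') (v.nonneg _)
    calc vm v y₀ ^ 2 * vm v M ^ 2 ≤ κ2.k v * v (aeval (Sum.elim y₀ M) (A.S a b)) := hab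
      _ ≤ e * vm v (A.col a y₀ M) := mul_le_mul e2 h5 (v.nonneg _) he0.le
      _ ≤ e * (e * (mq v q * v (lf (nd.l 0) (A.col a y₀ M)))) := by
          refine mul_le_mul_of_nonneg_left (hk.trans ?_) he0.le
          exact mul_le_mul e3 h6 (v.nonneg _) he0.le
      _ = e ^ 2 * mq v q * v (lf (nd.l 0) (A.col a y₀ M)) := by ring
      _ ≤ (E1.pw 2).k v * mq v q * v (lf (nd.l 0) (A.col a y₀ M)) := by
          refine mul_le_mul_of_nonneg_right ?_ (v.nonneg _)
          exact mul_le_mul_of_nonneg_right hEp (mq_pos v q).le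

/-- The unit vector as a linear form. -/
theorem B_lf_single {K : Type u} [Field K] {N : ℕ} {R : Type*} [CommRing R] [Algebra K R]
    (b : Fin (N + 1)) (y : Fin (N + 1) → R) :
    lf (fun a => if a = b then (1 : K) else 0) y = y b := by
  unfold lf
  rw [Finset.sum_eq_single b]
  · beta_reduce
    rw [if_pos rfl, map_one, one_mul]
  · intro c _ hc
    beta_reduce
    rw [if_neg hc, map_zero, zero_mul]
  · intro h
    exact absurd (Finset.mem_univ b) h

/-- The sizes of the difference, `w = 1`. -/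
theorem B_sizes {K : Type u} [Field K] {N : ℕ} {A : AV K N} {n e : ℕ} (nd : Noe A n e) :
    ∃ E : SC K, ∀ (L : Type u) [Field L] [Algebra K L] (v : AbsoluteValue L ℝ)
      (y₀ M : Fin (N + 1) → L) (q : Fin n → L) (Y η : Fin (N + 1) → PowerSeries L) (rho : ℝ),
      A.IsPt y₀ → lf (nd.l 0) y₀ = 1 → A.IsPt M → M ≠ 0 →
      (∀ (a : Fin (N + 1)) (k : Fin n), lf (nd.l k.succ) (A.col a y₀ M) =
        q k * lf (nd.l 0) (A.col a y₀ M)) → 0 ≤ rho →
      (∀ b, PowerSeries.constantCoeff (Y b) = y₀ b) →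
      (∀ b s, PN v rho s (Y b - PowerSeries.C (y₀ b)) ≤ 1) →
      (∀ a b, A.col a Y (fun i => PowerSeries.C (M i)) b =
        η b * lf (nd.l 0) (A.col a Y fun i => PowerSeries.C (M i))) →
      (∀ r : ℝ, 0 ≤ r → r ≤ rho → ∀ b s, PN v r s (Y b) ≤ E.k v * mq v y₀) ∧
      ∀ r : ℝ, 0 ≤ r → r * (E.k v * mq v q) ≤ rho → ∀ b s, PN v r s (η b) ≤ E.k v * mq v q := by
  obtain ⟨κ1, h1⟩ := lf_size nd.l
  obtain ⟨κ2, h2⟩ := s2_size A
  obtain ⟨κ3, h3⟩ := B_num nd
  obtain ⟨κ4, h4⟩ := (Adm_cst.{u, u} (K := K) 2).exists_SC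
  obtain ⟨E1, hE1⟩ := exists_sup.{u, u} ![κ1, κ2, κ3, κ4]
  refine ⟨E1.pw 8, fun L _ _ v y₀ M q Y η rho hy₀ hl₀ hM hM0 hq hrho hY0 hYs hη => ?_⟩
  have e1 : κ1.k v ≤ E1.k v := hE1 0 L v
  have e2 : κ2.k v ≤ E1.k v := hE1 1 L v
  have e3 : κ3.k v ≤ E1.k v := hE1 2 L v
  have e4 : κ4.k v ≤ E1.k v := hE1 3 L v
  have hE : (1 : ℝ) ≤ E1.k v := E1.one_le v
  have hEp : E1.k v ^ 8 ≤ (E1.pw 8).k v := E1.pow_le 8 v
  set ee := E1.k v with hee
  set E := (E1.pw 8).k v with hEE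
  have he0 : 0 < ee := one_pos.trans_le hE
  have hpw : ∀ k, k ≤ 8 → ee ^ k ≤ E := fun k hk => (pow_le_pow_right₀ hE hk).trans hEp
  have hE0 : 0 < E := (pow_pos he0 8).trans_le hEp
  have hcst : cst v 2 ≤ ee := (h4 L v).trans e4
  obtain ⟨hV1, a, ha⟩ := h3 L v y₀ M q hy₀ hl₀ hM hM0 hq
  have hy00 : y₀ ≠ 0 := by
    intro h
    rw [h] at hl₀
    unfold lf at hl₀
    simp at hl₀
  have hV : 0 < vm v y₀ := vm_pos v hy00
  have hW : 0 < vm v M := vm_pos v hM0
  set V := vm v y₀ with hVdef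
  set W := vm v M with hWdef
  set f₀ := v (lf (nd.l 0) (A.col a y₀ M)) with hf₀
  have hmq1 : 1 ≤ mq v q := one_le_mq v q
  have hmq0 : 0 < mq v q := mq_pos v q
  have hV1' : 1 ≤ ee * V := hV1.trans (mul_le_mul_of_nonneg_right e3 hV.le)
  have ha' : V ^ 2 * W ^ 2 ≤ ee * mq v q * f₀ :=
    ha.trans (mul_le_mul_of_nonneg_right (mul_le_mul_of_nonneg_right e3 hmq0.le) (v.nonneg _))
  have hf₀0 : 0 < f₀ := by
    rcases (v.nonneg (lf (nd.l 0) (A.col a y₀ M))).eq_or_lt with h | h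
    · have h5 : f₀ = 0 := h.symm
      rw [h5, mul_zero] at ha'
      exact absurd ha' (not_le.2 (mul_pos (pow_pos hV 2) (pow_pos hW 2)))
    · exact h
  have hSN : ∀ (r : ℝ), 0 ≤ r → ∀ s, SN v (fun f : PowerSeries L => PN v r s f) :=
    fun r hr s => SN_PN v hr s
  have hdec : ∀ b, Y b = PowerSeries.C (y₀ b) + (Y b - PowerSeries.C (y₀ b)) := fun b => by ring
  refine ⟨fun r hr hrr b s => ?_, fun r hr hrr b s => ?_⟩
  · have hB : (0 : ℝ) ≤ mq v y₀ := (mq_pos v y₀).le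
    have h6 : PN v r s (PowerSeries.C (y₀ b)) ≤ mq v y₀ :=
      ((hSN r hr s).map (y₀ b)).trans (le_mq v y₀ b)
    have h7 : PN v r s (Y b - PowerSeries.C (y₀ b)) ≤ mq v y₀ :=
      ((PN_mono_radius v hr hrr s _).trans (hYs b s)).trans (one_le_mq v y₀)
    rw [hdec b]
    refine (SN_add_cst (hSN r hr s) hB h6 h7).trans ?_
    refine mul_le_mul_of_nonneg_right ?_ hB
    calc cst v 2 ≤ ee := hcst
      _ = ee ^ 1 := (pow_one ee).symm
      _ ≤ E := hpw 1 (by norm_num)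
  · have sY : ∀ b s, PN v rho s (Y b) ≤ ee ^ 2 * V := by
      intro b s
      have hB : 0 ≤ ee * V := (mul_pos he0 hV).le
      have h6 : PN v rho s (PowerSeries.C (y₀ b)) ≤ ee * V := by
        refine ((hSN rho hrho s).map (y₀ b)).trans ((le_vm v y₀ b).trans ?_)
        exact le_mul_of_one_le_left hV.le hE
      have h7 : PN v rho s (Y b - PowerSeries.C (y₀ b)) ≤ ee * V := (hYs b s).trans hV1'
      rw [hdec b]
      refine (SN_add_cst (hSN rho hrho s) hB h6 h7).trans ?_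
      calc cst v 2 * (ee * V) ≤ ee * (ee * V) := mul_le_mul_of_nonneg_right hcst hB
        _ = ee ^ 2 * V := by ring
    have sM : ∀ b s, PN v rho s (PowerSeries.C (M b)) ≤ W := fun b s =>
      ((hSN rho hrho s).map (M b)).trans (le_vm v M b)
    have sC : ∀ b s, PN v rho s (A.col a Y (fun i => PowerSeries.C (M i)) b) ≤
        ee ^ 5 * (V ^ 2 * W ^ 2) := by
      intro b s
      refine (h2 L v _ _ (hSN rho hrho s) Y (fun i => PowerSeries.C (M i)) _ _
        (fun b => sY b s) (fun b => sM b s) a b).trans ?_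
      calc κ2.k v * ((ee ^ 2 * V) ^ 2 * W ^ 2) ≤ ee * ((ee ^ 2 * V) ^ 2 * W ^ 2) :=
            mul_le_mul_of_nonneg_right e2 (by positivity)
        _ = ee ^ 5 * (V ^ 2 * W ^ 2) := by ring
    have sR : ∀ s, PN v rho s (lf (nd.l 0) (A.col a Y fun i => PowerSeries.C (M i))) ≤
        ee ^ 6 * (V ^ 2 * W ^ 2) := by
      intro s
      refine (h1 L v _ _ (hSN rho hrho s) _ _ (fun b => sC b s) 0).trans ?_
      calc κ1.k v * (ee ^ 5 * (V ^ 2 * W ^ 2)) ≤ ee * (ee ^ 5 * (V ^ 2 * W ^ 2)) :=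
            mul_le_mul_of_nonneg_right e1 (by positivity)
        _ = ee ^ 6 * (V ^ 2 * W ^ 2) := by ring
    have cR : PowerSeries.constantCoeff (lf (nd.l 0) (A.col a Y fun i => PowerSeries.C (M i))) =
        lf (nd.l 0) (A.col a y₀ M) := by
      have h6 := map_lf (nd.l 0) (cA K L) (A.col a Y fun i => PowerSeries.C (M i))
      have h7 : (fun b => cA K L (A.col a Y (fun i => PowerSeries.C (M i)) b)) = A.col a y₀ M := by
        funext b
        rw [AV.map_col]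
        have h8 : (fun i => cA K L (Y i)) = y₀ := funext hY0
        have h9 : (fun i => cA K L (PowerSeries.C (M i))) = M := by
          funext i
          exact PowerSeries.constantCoeff_C (M i)
        rw [h8, h9]
      rw [h7] at h6
      exact h6
    have hR0 : IsUnit (lf (nd.l 0) (A.col a Y fun i => PowerSeries.C (M i))) := by
      rw [PowerSeries.isUnit_iff_constantCoeff, cR]
      exact isUnit_iff_ne_zero.2 fun h => hf₀0.ne' (by rw [hf₀, h, map_zero])
    obtain ⟨g, hg⟩ := hR0.exists_right_inv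
    have hηb : η b = A.col a Y (fun i => PowerSeries.C (M i)) b * g := by
      rw [hη a b, mul_assoc, hg, mul_one]
    set lam : ℝ := (E * mq v q)⁻¹ with hlam
    have hEq : 0 < E * mq v q := mul_pos hE0 hmq0
    have hlam0 : 0 < lam := inv_pos.2 hEq
    have hlam1 : lam ≤ 1 := by
      refine inv_le_one_of_one_le₀ ?_
      refine one_le_mul_of_one_le_of_one_le ?_ hmq1
      exact (one_le_pow₀ hE).trans (hpw 8 le_rfl)
    have hr' : r ≤ lam * rho := by
      rw [hlam, ← div_eq_inv_mul, le_div_iff₀ hEq]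
      exact hrr
    have hginv : PN v (lam * rho) s g ≤ ee / f₀ := by
      have h6 := PN_inv v hrho hlam0.le hlam1 _ g hg sR (by
        rw [cR]
        calc lam * (cst v 2 * (ee ^ 6 * (V ^ 2 * W ^ 2)))
            ≤ lam * (ee * (ee ^ 6 * (ee * mq v q * f₀))) := by
              refine mul_le_mul_of_nonneg_left ?_ hlam0.le
              refine mul_le_mul hcst ?_ (by positivity) he0.le
              exact mul_le_mul_of_nonneg_left ha' (pow_pos he0 6).le
          _ = lam * (ee ^ 8 * mq v q) * f₀ := by ring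
          _ ≤ 1 * f₀ := by
              refine mul_le_mul_of_nonneg_right ?_ hf₀0.le
              rw [hlam, inv_mul_le_iff₀ hEq, mul_one]
              exact mul_le_mul_of_nonneg_right (hpw 8 le_rfl) hmq0.le
          _ = f₀ := one_mul _) s
      rw [cR] at h6
      exact h6.trans (div_le_div_of_nonneg_right hcst hf₀0.le)
    have hlr : lam * rho ≤ rho := mul_le_of_le_one_left hrho hlam1
    have hl0 : 0 ≤ lam * rho := mul_nonneg hlam0.le hrho
    rw [hηb]
    refine (PN_mono_radius v hr hr' s _).trans ?_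
    refine ((hSN _ hl0 s).mul _ _).trans ?_
    refine (mul_le_mul ((PN_mono_radius v hl0 hlr s _).trans (sC b s)) hginv
      ((hSN _ hl0 s).nonneg _) (by positivity)).trans ?_
    rw [mul_div_assoc', div_le_iff₀ hf₀0]
    calc ee ^ 5 * (V ^ 2 * W ^ 2) * ee = ee ^ 6 * (V ^ 2 * W ^ 2) := by ring
      _ ≤ ee ^ 6 * (ee * mq v q * f₀) := mul_le_mul_of_nonneg_left ha' (pow_pos he0 6).le
      _ = ee ^ 7 * (mq v q * f₀) := by ring
      _ ≤ E * (mq v q * f₀) := mul_le_mul_of_nonneg_right (hpw 7 (by norm_num))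
          (mul_nonneg hmq0.le hf₀0.le)
      _ = E * mq v q * f₀ := by ring

end Pool.Agent.Lib.MP_17a322_nt.VP
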