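import Pool.Agent.Lib.MP_17a322_nt.VP.Defs
import Pool.Agent.Lib.MP_17a322_nt.VA.A3
import Pool.Agent.Lib.MP_17a322_nt.VA.C4a

/-!
Roth's theorem over abelian varieties, part C: the multiplication table of the coordinates and of
the primitive element in the basis of the powers of the primitive element.
-/

universe u

namespace Pool.Agent.Lib.MP_17a322_nt.VP

open MvPolynomial Height
open Pool.Agent.Lib.MP_17a322_nt.RO
open Pool.Agent.Lib.MP_17a322_nt.VJ
open Pool.Agent.Lib.MP_17a322_nt.VN
open Pool.Agent.Lib.MP_17a322_nt.VA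

section

variable {S : Type*} [CommRing S]

/-- The companion matrix of a monic polynomial of degree `d + 1`. -/
def C_cmp (Φ : Polynomial S) (d : ℕ) : Matrix (Fin (d + 1)) (Fin (d + 1)) S :=
  Matrix.of fun l m => if (m : ℕ) < d then (if (l : ℕ) = m + 1 then 1 else 0) else -Φ.coeff l

theorem C_cmp_rel {Φ : Polynomial S} {d : ℕ} (hd : Φ.natDegree = d + 1) (hm : Φ.Monic)
    {B : Type*} [CommRing B] (f : S →+* B) (θ : B) (hθ : Φ.eval₂ f θ = 0) (m : Fin (d + 1)) :
    ∑ l : Fin (d + 1), θ ^ (l : ℕ) * f (C_cmp Φ d l m) = θ * θ ^ (m : ℕ) := by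
  classical
  unfold C_cmp
  simp only [Matrix.of_apply]
  by_cases h : (m : ℕ) < d
  · have h1 : ∀ l : Fin (d + 1), θ ^ (l : ℕ) * f (if (m : ℕ) < d then
        (if (l : ℕ) = m + 1 then 1 else 0) else -Φ.coeff l) =
        if l = ⟨m + 1, by omega⟩ then θ ^ ((m : ℕ) + 1) else 0 := by
      intro l
      rw [if_pos h]
      by_cases h2 : (l : ℕ) = m + 1
      · rw [if_pos h2, if_pos (Fin.ext h2), map_one, mul_one, h2]
      · rw [if_neg h2, if_neg fun h3 => h2 (congrArg Fin.val h3), map_zero, mul_zero]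
    rw [Finset.sum_congr rfl fun l _ => h1 l, Finset.sum_ite_eq', if_pos (Finset.mem_univ _),
      pow_succ, mul_comm]
  · have hmd : (m : ℕ) = d := by
      have := m.2
      omega
    have h1 : ∀ l : Fin (d + 1), θ ^ (l : ℕ) * f (if (m : ℕ) < d then
        (if (l : ℕ) = m + 1 then 1 else 0) else -Φ.coeff l) =
        - (f (Φ.coeff l) * θ ^ (l : ℕ)) := by
      intro l
      rw [if_neg h, map_neg]
      ring
    rw [Finset.sum_congr rfl fun l _ => h1 l, Finset.sum_neg_distrib, hmd]
    have h2 := hθ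
    rw [Polynomial.eval₂_eq_sum_range, hd, Finset.sum_range_succ, ← hd, hm.coeff_natDegree,
      map_one, one_mul, hd, Finset.sum_range] at h2
    rw [← pow_succ']
    linear_combination -h2

theorem C_aeval_rel {Φ : Polynomial S} {d : ℕ} (hd : Φ.natDegree = d + 1) (hm : Φ.Monic)
    {B : Type*} [CommRing B] (f : S →+* B) (θ : B) (hθ : Φ.eval₂ f θ = 0) (p : Polynomial S)
    (m : Fin (d + 1)) :
    ∑ l : Fin (d + 1), θ ^ (l : ℕ) * f (Polynomial.aeval (C_cmp Φ d) p l m) =
      p.eval₂ f θ * θ ^ (m : ℕ) := by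
  classical
  -- powers of the companion matrix
  have hpow : ∀ (k : ℕ) (m : Fin (d + 1)), ∑ l : Fin (d + 1),
      θ ^ (l : ℕ) * f ((C_cmp Φ d ^ k) l m) = θ ^ k * θ ^ (m : ℕ) := by
    intro k
    induction k with
    | zero =>
      intro m
      rw [pow_zero, pow_zero, one_mul, Finset.sum_eq_single m]
      · rw [Matrix.one_apply_eq, map_one, mul_one]
      · intro l _ hl
        rw [Matrix.one_apply_ne hl, map_zero, mul_zero]
      · intro h
        exact absurd (Finset.mem_univ m) h
    | succ k ih =>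
      intro m
      have h1 : ∀ l : Fin (d + 1), θ ^ (l : ℕ) * f ((C_cmp Φ d ^ (k + 1)) l m) =
          ∑ i : Fin (d + 1), θ ^ (l : ℕ) * f ((C_cmp Φ d ^ k) l i) * f (C_cmp Φ d i m) := by
        intro l
        rw [pow_succ, Matrix.mul_apply, map_sum, Finset.mul_sum]
        refine Finset.sum_congr rfl fun i _ => ?_
        rw [map_mul]
        ring
      rw [Finset.sum_congr rfl fun l _ => h1 l, Finset.sum_comm]
      have h2 : ∀ i : Fin (d + 1), ∑ l : Fin (d + 1),
          θ ^ (l : ℕ) * f ((C_cmp Φ d ^ k) l i) * f (C_cmp Φ d i m) =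
          θ ^ k * (θ ^ (i : ℕ) * f (C_cmp Φ d i m)) := by
        intro i
        rw [← Finset.sum_mul, ih i]
        ring
      rw [Finset.sum_congr rfl fun i _ => h2 i, ← Finset.mul_sum, C_cmp_rel hd hm f θ hθ m]
      ring
  induction p using Polynomial.induction_on' with
  | add p q hp hq =>
    have h1 : ∀ l : Fin (d + 1), θ ^ (l : ℕ) * f (Polynomial.aeval (C_cmp Φ d) (p + q) l m) =
        θ ^ (l : ℕ) * f (Polynomial.aeval (C_cmp Φ d) p l m) +
          θ ^ (l : ℕ) * f (Polynomial.aeval (C_cmp Φ d) q l m) := by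
      intro l
      rw [map_add, Matrix.add_apply, map_add]
      ring
    rw [Finset.sum_congr rfl fun l _ => h1 l, Finset.sum_add_distrib, hp, hq,
      Polynomial.eval₂_add]
    ring
  | monomial k c =>
    have h1 : ∀ l : Fin (d + 1), θ ^ (l : ℕ) *
        f (Polynomial.aeval (C_cmp Φ d) (Polynomial.monomial k c) l m) =
        f c * (θ ^ (l : ℕ) * f ((C_cmp Φ d ^ k) l m)) := by
      intro l
      rw [Polynomial.aeval_monomial, ← Algebra.smul_def, Matrix.smul_apply, smul_eq_mul, map_mul]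
      ring
    rw [Finset.sum_congr rfl fun l _ => h1 l, ← Finset.mul_sum, hpow,
      Polynomial.eval₂_monomial]
    ring

end

section

variable {K : Type u} [Field K] {N : ℕ} {A : AV K N} {n e₀ : ℕ} (nd : Noe A n e₀)

/-- The degree of the primitive element, minus one. -/
noncomputable def C_d : ℕ := nd.Φ.natDegree - 1

/-- The multiplication table of `δ` times the coordinates and of the primitive element. -/
noncomputable def C_T : Fin (N + 2) → Matrix (Fin (C_d nd + 1)) (Fin (C_d nd + 1))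
    (MvPolynomial (Fin n) K) :=
  Fin.snoc (fun j => Polynomial.aeval (C_cmp nd.Φ (C_d nd)) (nd.p j)) (C_cmp nd.Φ (C_d nd))

/-- A bound for the total degrees of the multiplication table. -/
noncomputable def C_D : ℕ := ∑ j, ∑ l, ∑ m, (C_T nd j l m).totalDegree

/-- The values of the variables of the table: `δ` times the coordinates, the primitive element. -/
noncomputable def C_u {R : Type*} [CommRing R] [Algebra K R] (y : Fin (N + 1) → R) :
    Fin (N + 2) → R :=
  Fin.snoc (fun b => aeval (fun k : Fin n => lf (nd.l k.succ) y) nd.δ * y b) (aeval y nd.θ)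

theorem le_C_D (j : Fin (N + 2)) (l m : Fin (C_d nd + 1)) : (C_T nd j l m).totalDegree ≤ C_D nd := by
  unfold C_D
  refine le_trans ?_ (Finset.single_le_sum (f := fun j => ∑ l, ∑ m, (C_T nd j l m).totalDegree)
    (fun _ _ => Nat.zero_le _) (Finset.mem_univ j))
  refine le_trans ?_ (Finset.single_le_sum (f := fun l => ∑ m, (C_T nd j l m).totalDegree)
    (fun _ _ => Nat.zero_le _) (Finset.mem_univ l))
  exact Finset.single_le_sum (f := fun m => (C_T nd j l m).totalDegree)
    (fun _ _ => Nat.zero_le _) (Finset.mem_univ m)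

theorem C_natDegree : nd.Φ.natDegree = C_d nd + 1 := by
  unfold C_d
  have h : nd.Φ.natDegree ≠ 0 := by
    intro h
    have h1 : nd.Φ = 1 := (Polynomial.Monic.natDegree_eq_zero nd.Φ_monic).1 h
    obtain ⟨L, _, _, P, hP, -⟩ := nd.indep
    have h3 : nd.y P = fun a => (lf (nd.l 0) (A.x P))⁻¹ * A.x P a := by
      funext a
      unfold Noe.y
      rw [div_eq_inv_mul]
    have h4 : A.IsPt (nd.y P) := by
      rw [h3]
      exact (A.x_isPt P).smul _
    have h5 : lf (nd.l 0) (nd.y P) = 1 := by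
      rw [h3]
      unfold lf
      have h6 : ∀ a : Fin (N + 1), algebraMap K L (nd.l 0 a) *
          ((∑ a, algebraMap K L (nd.l 0 a) * A.x P a)⁻¹ * A.x P a) =
          (∑ a, algebraMap K L (nd.l 0 a) * A.x P a)⁻¹ * (algebraMap K L (nd.l 0 a) * A.x P a) :=
        fun a => by ring
      rw [Finset.sum_congr rfl fun a _ => h6 a, ← Finset.mul_sum]
      exact inv_mul_cancel₀ hP
    have h2 := nd.Φ_zero L (nd.y P) h4 h5
    rw [h1, Polynomial.eval₂_one] at h2
    exact one_ne_zero h2
  omega

theorem C_rel {R : Type u} [CommRing R] [Algebra K R] (y : Fin (N + 1) → R) (hy : A.IsPt y)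
    (h0 : lf (nd.l 0) y = 1) (j : Fin (N + 2)) (m : Fin (C_d nd + 1)) :
    ∑ l : Fin (C_d nd + 1), aeval y nd.θ ^ (l : ℕ) *
      aeval (fun k : Fin n => lf (nd.l k.succ) y) (C_T nd j l m) =
      C_u nd y j * aeval y nd.θ ^ (m : ℕ) := by
  have h1 := nd.Φ_zero R y hy h0
  induction j using Fin.lastCases with
  | last =>
    unfold C_T C_u
    rw [Fin.snoc_last, Fin.snoc_last]
    exact C_cmp_rel (C_natDegree nd) nd.Φ_monic _ _ h1 m
  | cast j =>
    unfold C_T C_u
    rw [Fin.snoc_castSucc, Fin.snoc_castSucc, nd.p_eq R y hy h0 j]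
    exact C_aeval_rel (C_natDegree nd) nd.Φ_monic _ _ h1 (nd.p j) m

end

end Pool.Agent.Lib.MP_17a322_nt.VP
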