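import Pool.Agent.Lib.MP_17a322_nt.VP.CA
import Pool.Agent.Lib.MP_17a322_nt.VA.C5a
import Pool.Agent.Lib.MP_17a322_nt.VJ.G3a
import Pool.Agent.Lib.MP_17a322_nt.VN.C10

/-!
Roth's theorem over abelian varieties, part C: the linear conditions for the auxiliary polynomial.
-/

universe u

namespace Pool.Agent.Lib.MP_17a322_nt.VP

open MvPolynomial Height
open Pool.Agent.Lib.MP_17a322_nt.RO
open Pool.Agent.Lib.MP_17a322_nt.VJ
open Pool.Agent.Lib.MP_17a322_nt.VN
open Pool.Agent.Lib.MP_17a322_nt.VA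

/-! ### The index type -/

/-- The four groups of variables. -/
def C_eqv (m n : ℕ) : VF m n ≃ Fin n ⊕ Fin m ⊕ (Fin m × Fin n) ⊕ Fin m where
  toFun
    | VF.x a => Sum.inl a
    | VF.th i => Sum.inr (Sum.inl i)
    | VF.z p => Sum.inr (Sum.inr (Sum.inl p))
    | VF.u i => Sum.inr (Sum.inr (Sum.inr i))
  invFun
    | Sum.inl a => VF.x a
    | Sum.inr (Sum.inl i) => VF.th i
    | Sum.inr (Sum.inr (Sum.inl p)) => VF.z p
    | Sum.inr (Sum.inr (Sum.inr i)) => VF.u i
  left_inv := by rintro (a | i | p | i) <;> rfl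
  right_inv := by rintro (a | i | p | i) <;> rfl

theorem C_prodVF {m n : ℕ} {M : Type*} [CommMonoid M] (g : VF m n → M) :
    ∏ t, g t = (∏ a, g (VF.x a)) * ((∏ i, g (VF.th i)) * ((∏ p, g (VF.z p)) * ∏ i, g (VF.u i))) := by
  rw [← (C_eqv m n).symm.prod_comp g, Fintype.prod_sum_type, Fintype.prod_sum_type,
    Fintype.prod_sum_type]
  rfl

/-- Products over all variables, block by block. -/
theorem C_prodVF' {m n : ℕ} {M : Type*} [CommMonoid M] (g : VF m n → M) :
    ∏ t, g t = (∏ a, g (VF.x a)) *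
      ∏ i, (g (VF.th i) * ((∏ a, g (VF.z (i, a))) * g (VF.u i))) := by
  rw [C_prodVF, Finset.prod_mul_distrib, Finset.prod_mul_distrib, Fintype.prod_prod_type]

/-! ### Coefficients of products of powers -/

theorem C_coeff_prod {R : Type*} [CommRing R] {m : ℕ} (f : Fin m → R) (μ : Fin m → ℕ)
    (w : Fin m →₀ ℕ) :
    coeff w (∏ i, (X i + C (f i) : MvPolynomial (Fin m) R) ^ μ i) =
      ∏ i, (((μ i).choose (w i) : ℕ) : R) * f i ^ (μ i - w i) := by
  classical
  have h1 : ∀ i, (X i + C (f i) : MvPolynomial (Fin m) R) ^ μ i =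
      ∑ k ∈ Finset.range (μ i + 1), C ((((μ i).choose k : ℕ) : R) * f i ^ (μ i - k)) * X i ^ k := by
    intro i
    rw [add_pow]
    refine Finset.sum_congr rfl fun k _ => ?_
    rw [map_mul, map_pow, map_natCast]
    ring
  rw [Finset.prod_congr rfl fun i _ => h1 i, Finset.prod_univ_sum, coeff_sum]
  have h2 : ∀ p ∈ Fintype.piFinset fun i => Finset.range (μ i + 1),
      coeff w (∏ i, C ((((μ i).choose (p i) : ℕ) : R) * f i ^ (μ i - p i)) *
        (X i : MvPolynomial (Fin m) R) ^ p i) =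
      if p = (fun i => w i) then ∏ i, (((μ i).choose (w i) : ℕ) : R) * f i ^ (μ i - w i) else 0 := by
    intro p _
    rw [Finset.prod_mul_distrib, ← map_prod, coeff_C_mul]
    have h3 : (∏ i, (X i : MvPolynomial (Fin m) R) ^ p i) =
        monomial (Finsupp.equivFunOnFinite.symm p) 1 := by
      rw [monomial_eq, Finsupp.prod_fintype _ _ (fun i => pow_zero _), map_one, one_mul]
      rfl
    rw [h3, coeff_monomial]
    by_cases h4 : p = fun i => w i
    · have h5 : (Finsupp.equivFunOnFinite.symm p : Fin m →₀ ℕ) = w := by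
        ext i
        rw [h4]
        rfl
      rw [if_pos h5, if_pos h4, mul_one, h4]
    · have h5 : (Finsupp.equivFunOnFinite.symm p : Fin m →₀ ℕ) ≠ w := by
        intro h5
        apply h4
        funext i
        rw [← h5]
        rfl
      rw [if_neg h5, if_neg h4, mul_zero]
  rw [Finset.sum_congr rfl h2, Finset.sum_ite_eq']
  by_cases h6 : (fun i => w i) ∈ Fintype.piFinset fun i => Finset.range (μ i + 1)
  · rw [if_pos h6]
  · rw [if_neg h6]
    rw [Fintype.mem_piFinset] at h6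
    push Not at h6
    obtain ⟨i, hi⟩ := h6
    rw [Finset.mem_range, not_lt] at hi
    symm
    refine Finset.prod_eq_zero (Finset.mem_univ i) ?_
    rw [Nat.choose_eq_zero_of_lt (by omega), Nat.cast_zero, zero_mul]

/-! ### Expansion with respect to the second group of variables -/

theorem C_expand {K : Type*} [CommRing K] {a n : ℕ} (P : MvPolynomial (Fin a ⊕ Fin n) K) (D₀ : ℕ)
    (h : P.totalDegree ≤ D₀) {R : Type*} [CommRing R] [Algebra K R] (Y : Fin a → R)
    (s : Fin n → R) :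
    aeval (Sum.elim Y s) P =
      ∑ q ∈ box (fun _ : Fin n => D₀ + 1), (∏ t, s t ^ q t) * aeval Y (cz P q) := by
  classical
  have h1 : ∀ q : Fin n → ℕ, (∏ t, s t ^ q t) * aeval Y (cz P q) =
      ∑ m ∈ P.support, if q = (fun t => m (Sum.inr t)) then
        algebraMap K R (coeff m P) * ((∏ t, Y t ^ m (Sum.inl t)) * ∏ t, s t ^ m (Sum.inr t))
        else 0 := by
    intro q
    unfold cz
    rw [map_sum, Finset.mul_sum]
    refine Finset.sum_congr rfl fun m _ => ?_
    by_cases h2 : q = fun t => m (Sum.inr t)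
    · have h3 : ∀ t, m (Sum.inr t) = q t := fun t => by rw [h2]
      rw [if_pos h3, if_pos h2, aeval_monomial, Finsupp.prod_fintype _ _ (fun i => pow_zero _)]
      simp only [Finsupp.equivFunOnFinite_symm_apply_apply, h3]
      ring
    · have h3 : ¬ ∀ t, m (Sum.inr t) = q t := fun h3 => h2 (funext fun t => (h3 t).symm)
      rw [if_neg h3, if_neg h2, map_zero, mul_zero]
  rw [Finset.sum_congr rfl fun q _ => h1 q, Finset.sum_comm, aeval_def, eval₂_eq']
  refine Finset.sum_congr rfl fun m hm => ?_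
  rw [Finset.sum_ite_eq' , if_pos, Fintype.prod_sum_type]
  · rfl
  · rw [mem_box]
    intro t
    have h2 := (le_totalDegree hm).trans h
    rw [Finsupp.sum_fintype _ _ fun _ => rfl] at h2
    have h3 : m (Sum.inr t) ≤ ∑ i, m i :=
      Finset.single_le_sum (f := fun i => m i) (fun _ _ => Nat.zero_le _) (Finset.mem_univ _)
    omega

/-! ### Definitions -/

section

variable {K : Type u} [Field K] {N : ℕ} {A : AV K N} {n e₀ : ℕ} (nd : Noe A n e₀)

variable (A) in
/-- The vector of the sum, as forms. -/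
noncomputable def C_V (j : ℕ) (a : Fin (N + 1)) : MvPolynomial (Fin (N + 1) ⊕ Fin (N + 2)) K :=
  A.row A.b₀ (fun b => X (Sum.inr b.castSucc)) (A.mu j fun b => X (Sum.inl b)) a

variable (A) in
/-- The block polynomial. -/
noncomputable def C_BP (j κ : ℕ) (α β : MvPolynomial (Fin (N + 1)) K) (w μ ρ : ℕ) :
    MvPolynomial (Fin (N + 1) ⊕ Fin (N + 2)) K :=
  C (((μ.choose w : ℕ) : K)) * (aeval (C_V A j) α ^ (μ - w) * aeval (C_V A j) β ^ (κ - μ)) *
    X (Sum.inr (Fin.last (N + 1))) ^ ρ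

/-- The component `ρ'` of the block polynomial, times a monomial. -/
noncomputable def C_H (j κ : ℕ) (α β : MvPolynomial (Fin (N + 1)) K) (w : ℕ)
    (ρ' : Fin (C_d nd + 1)) (ρ μ : ℕ) (ν : Fin n → ℕ) : MvPolynomial (Fin (N + 1) ⊕ Fin n) K :=
  (∏ a, X (Sum.inr a) ^ ν a) * GR (C_T nd) (C_BP A j κ α β w μ ρ) ρ'

/-- The coefficients of the linear equations. -/
noncomputable def C_MC {m : ℕ} (j κ : Fin m → ℕ) (α β : Fin m → MvPolynomial (Fin (N + 1)) K)
    (w : Fin m → ℕ) (r' : Fin (e₀ + 1)) (ρ' : Fin m → Fin (C_d nd + 1)) (q₀ : Fin n → ℕ)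
    (q : Fin m → Fin n → ℕ) (d : VF m n → ℕ) : K :=
  coeff (Finsupp.equivFunOnFinite.symm q₀) ((∏ a, X a ^ d (VF.x a)) *
    RR nd.Mx (∏ i, cz (C_H nd (j i) (κ i) (α i) (β i) (w i) (ρ' i) (d (VF.th i)) (d (VF.u i))
      fun a => d (VF.z (i, a))) (q i)) r')

/-- The linear equations. -/
def C_CC {m : ℕ} (B : VF m n → ℕ) (j κ : Fin m → ℕ) (α β : Fin m → MvPolynomial (Fin (N + 1)) K)
    (T : ℝ) (c : (VF m n → ℕ) → K) : Prop :=
  ∀ (w : Fin m → ℕ) (r' : Fin (e₀ + 1)) (ρ' : Fin m → Fin (C_d nd + 1)) (q₀ : Fin n → ℕ)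
    (q : Fin m → Fin n → ℕ), (∑ i, (4 : ℝ) ^ j i * w i) < T → (∀ i, w i ≤ κ i) →
    ∑ d ∈ box (fun t => B t + 1), c d * C_MC nd j κ α β w r' ρ' q₀ q d = 0

end

/-- The polynomial with given coefficients. -/
noncomputable def C_F {K : Type*} [CommRing K] {m n : ℕ} (B : VF m n → ℕ)
    (c : (VF m n → ℕ) → K) : MvPolynomial (VF m n) K :=
  ∑ d ∈ box (fun t => B t + 1), monomial (Finsupp.equivFunOnFinite.symm d) (c d)

end Pool.Agent.Lib.MP_17a322_nt.VP
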