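import Pool.Agent.Lib.MP_17a322_nt.VP.CB

/-!
Roth's theorem over abelian varieties, part C: counting the linear equations.
-/

universe u

namespace Pool.Agent.Lib.MP_17a322_nt.VP

open MvPolynomial Height
open Pool.Agent.Lib.MP_17a322_nt.RO
open Pool.Agent.Lib.MP_17a322_nt.VJ
open Pool.Agent.Lib.MP_17a322_nt.VN
open Pool.Agent.Lib.MP_17a322_nt.VA

theorem C_exp_sum (κ : ℕ) (hκ : 1 ≤ κ) (t : ℝ) :
    ∑ k ∈ Finset.range (κ + 1), Real.exp (t * (1 / 2 - (k : ℝ) / κ)) ≤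
      (κ + 1) * Real.exp (t ^ 2 / 8) := by
  have hκ0 : (0 : ℝ) < κ := by exact_mod_cast hκ
  have h1 := Finset.sum_range_reflect (fun k : ℕ => Real.exp (t * (1 / 2 - (k : ℝ) / κ))) (κ + 1)
  have h2 : ∑ k ∈ Finset.range (κ + 1), Real.exp (t * (1 / 2 - ((κ + 1 - 1 - k : ℕ) : ℝ) / κ)) =
      ∑ k ∈ Finset.range (κ + 1), Real.exp (-(t * (1 / 2 - (k : ℝ) / κ))) := by
    refine Finset.sum_congr rfl fun k hk => ?_
    have hk' : k ≤ κ := Nat.lt_succ_iff.1 (Finset.mem_range.1 hk)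
    congr 1
    have h3 : ((κ + 1 - 1 - k : ℕ) : ℝ) = κ - k := by
      rw [Nat.add_sub_cancel, Nat.cast_sub hk']
    rw [h3]
    field_simp
    ring
  rw [h2] at h1
  have h4 : ∀ k ∈ Finset.range (κ + 1), Real.exp (t * (1 / 2 - (k : ℝ) / κ)) +
      Real.exp (-(t * (1 / 2 - (k : ℝ) / κ))) ≤ 2 * Real.exp (t ^ 2 / 8) := by
    intro k hk
    have hk' : (k : ℝ) ≤ κ := by exact_mod_cast Nat.lt_succ_iff.1 (Finset.mem_range.1 hk)
    have h5 : Real.exp (t * (1 / 2 - (k : ℝ) / κ)) +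
        Real.exp (-(t * (1 / 2 - (k : ℝ) / κ))) = 2 * Real.cosh (t * (1 / 2 - (k : ℝ) / κ)) := by
      rw [Real.cosh_eq]
      ring
    rw [h5]
    refine mul_le_mul_of_nonneg_left ((Real.cosh_le_exp_half_sq _).trans
      (Real.exp_le_exp.2 ?_)) (by norm_num)
    have h6 : (k : ℝ) / κ ≤ 1 := (div_le_one hκ0).2 hk'
    have h7 : 0 ≤ (k : ℝ) / κ := by positivity
    have h8 : (1 / 2 - (k : ℝ) / κ) ^ 2 ≤ 1 / 4 := by nlinarith
    have h9 : t ^ 2 * (1 / 2 - (k : ℝ) / κ) ^ 2 ≤ t ^ 2 * (1 / 4) :=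
      mul_le_mul_of_nonneg_left h8 (sq_nonneg t)
    rw [mul_pow]
    linarith
  have h10 := Finset.sum_le_sum h4
  rw [Finset.sum_add_distrib, h1, Finset.sum_const, Finset.card_range, nsmul_eq_mul] at h10
  push_cast at h10
  linarith

theorem C_hoeffding {m : ℕ} (κ : Fin m → ℕ) (hκ : ∀ i, 1 ≤ κ i) (δ : ℝ) (hδ : 0 ≤ δ)
    (S : Finset (Fin m → ℕ)) (hS : ∀ w ∈ S, (∀ i, w i ≤ κ i) ∧
      (∑ i, (w i : ℝ) / κ i) ≤ (1 / 2 - δ) * m) :
    (S.card : ℝ) ≤ Real.exp (-(2 * δ ^ 2 * m)) * ∏ i, ((κ i : ℝ) + 1) := by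
  classical
  have h1 : ∀ w ∈ S, (1 : ℝ) ≤ Real.exp (-(4 * δ ^ 2 * m)) *
      ∏ i, Real.exp (4 * δ * (1 / 2 - (w i : ℝ) / κ i)) := by
    intro w hw
    rw [← Real.exp_sum, ← Real.exp_add]
    refine Real.one_le_exp ?_
    rw [← Finset.mul_sum, Finset.sum_sub_distrib, Finset.sum_const, Finset.card_univ,
      Fintype.card_fin, nsmul_eq_mul]
    have h2 := mul_le_mul_of_nonneg_left (hS w hw).2 hδ
    linarith
  have h2 : (S.card : ℝ) ≤ ∑ w ∈ S, Real.exp (-(4 * δ ^ 2 * m)) *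
      ∏ i, Real.exp (4 * δ * (1 / 2 - (w i : ℝ) / κ i)) := by
    have := Finset.sum_le_sum h1
    rw [Finset.sum_const, nsmul_eq_mul, mul_one] at this
    exact this
  have h3 : ∑ w ∈ S, Real.exp (-(4 * δ ^ 2 * m)) *
      ∏ i, Real.exp (4 * δ * (1 / 2 - (w i : ℝ) / κ i)) ≤
      ∑ w ∈ Fintype.piFinset fun i => Finset.range (κ i + 1), Real.exp (-(4 * δ ^ 2 * m)) *
      ∏ i, Real.exp (4 * δ * (1 / 2 - (w i : ℝ) / κ i)) := by
    refine Finset.sum_le_sum_of_subset_of_nonneg (fun w hw => ?_) fun w _ _ => by positivity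
    rw [Fintype.mem_piFinset]
    intro i
    exact Finset.mem_range.2 (Nat.lt_succ_iff.2 ((hS w hw).1 i))
  have h4 := Finset.prod_univ_sum (fun i : Fin m => Finset.range (κ i + 1))
    (fun i k => Real.exp (4 * δ * (1 / 2 - (k : ℝ) / κ i)))
  rw [← Finset.mul_sum (Fintype.piFinset fun i => Finset.range (κ i + 1)), ← h4] at h3
  refine h2.trans (h3.trans ?_)
  have h5 : ∏ i, ∑ k ∈ Finset.range (κ i + 1), Real.exp (4 * δ * (1 / 2 - (k : ℝ) / κ i)) ≤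
      ∏ i, (((κ i : ℝ) + 1) * Real.exp (2 * δ ^ 2)) := by
    refine Finset.prod_le_prod (fun i _ => Finset.sum_nonneg fun k _ => (Real.exp_pos _).le)
      fun i _ => ?_
    refine (C_exp_sum (κ i) (hκ i) (4 * δ)).trans (le_of_eq ?_)
    congr 2
    ring
  rw [Finset.prod_mul_distrib, Finset.prod_const, Finset.card_univ, Fintype.card_fin,
    ← Real.exp_nat_mul] at h5
  refine (mul_le_mul_of_nonneg_left h5 (Real.exp_pos _).le).trans (le_of_eq ?_)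
  rw [mul_left_comm, ← Real.exp_add, mul_comm]
  congr 2
  ring

theorem C_row {a c : ℝ} (ha : 0 < a) (hc : 0 ≤ c) (x : ℝ) :
    (a + c) * x + 1 ≤ (1 + c / a) * (a * x + 1) := by
  have h1 : (1 + c / a) * (a * x + 1) = (a + c) * x + 1 + c / a := by
    field_simp
    ring
  rw [h1]
  have : 0 ≤ c / a := div_nonneg hc ha.le
  linarith

theorem C_count (r g e n c c' : ℕ) (δ ε : ℝ) (hδ : 0 < δ) (hε : 0 < ε) :
    ∃ m₀ : ℕ, ∀ m : ℕ, m₀ ≤ m → 0 < m → ∀ Nx : ℕ, ε * m / 2 ≤ Nx → ∀ (J : ℕ) (j : Fin m → ℕ)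
      (L : ℕ), (L : ℝ) ≤ Real.exp (-(2 * δ ^ 2 * m)) *
        ∏ i, (((4 ^ (J - j i) : ℕ) : ℝ) + 1) →
      2 * (r * (e * (g ^ m * (((Nx + c' * m) * 4 ^ J + 1) ^ n *
        ((∏ i, (((c * n * m + 1) + c) * 4 ^ (J - j i) + 1) ^ n) * L))))) ≤
      (Nx * 4 ^ J + 1) ^ n * (g ^ m * ((∏ i, ((c * n * m + 1) * 4 ^ (J - j i) + 1) ^ n) *
        ∏ i, (4 ^ (J - j i) + 1))) := by
  obtain ⟨ρ, hρ⟩ : ∃ ρ : ℝ, ρ = 1 + 2 * c' / ε := ⟨_, rfl⟩
  have hρ1 : 1 ≤ ρ := by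
    rw [hρ]
    have : 0 ≤ 2 * (c' : ℝ) / ε := by positivity
    linarith
  have hρ0 : 0 < ρ := by linarith
  obtain ⟨G, hG⟩ : ∃ G : ℝ, G = 2 * r * e * ρ ^ n * Real.exp 1 := ⟨_, rfl⟩
  have hG0 : 0 ≤ G := by
    rw [hG]
    positivity
  obtain ⟨m₀, hm₀⟩ := exists_nat_gt (G / (2 * δ ^ 2))
  refine ⟨m₀, fun m hm hm0 Nx hNx J j L hL => ?_⟩
  have hm0' : (0 : ℝ) < m := by exact_mod_cast hm0
  have hNx0 : (0 : ℝ) < Nx := lt_of_lt_of_le (by positivity) hNx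
  have hGm : G * Real.exp (-(2 * δ ^ 2 * m)) ≤ 1 := by
    have h1 : G ≤ 2 * δ ^ 2 * m := by
      have h2 : G / (2 * δ ^ 2) ≤ m := hm₀.le.trans (by exact_mod_cast hm)
      rwa [div_le_iff₀ (by positivity), mul_comm] at h2
    have h3 : G ≤ Real.exp (2 * δ ^ 2 * m) := by
      have := Real.add_one_le_exp (2 * δ ^ 2 * (m : ℝ))
      linarith
    rw [Real.exp_neg, ← div_eq_mul_inv, div_le_one (Real.exp_pos _)]
    exact h3
  have ha : (((Nx : ℝ) + c' * m) * 4 ^ J + 1) ^ n ≤ ρ ^ n * (Nx * 4 ^ J + 1) ^ n := by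
    rw [← mul_pow]
    refine pow_le_pow_left₀ (by positivity) ?_ _
    refine (C_row hNx0 (c := (c' : ℝ) * m) (by positivity) ((4 : ℝ) ^ J)).trans ?_
    refine mul_le_mul_of_nonneg_right ?_ (by positivity)
    rw [hρ]
    have h1 : (c' : ℝ) * m / Nx ≤ 2 * c' / ε := by
      rw [div_le_div_iff₀ hNx0 hε]
      have h2 := mul_le_mul_of_nonneg_left hNx (show (0 : ℝ) ≤ 2 * c' by positivity)
      calc (c' : ℝ) * m * ε = 2 * c' * (ε * m / 2) := by ring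
        _ ≤ 2 * c' * Nx := h2
    linarith
  have hb : ∏ i, ((((c : ℝ) * n * m + 1) + c) * 4 ^ (J - j i) + 1) ^ n ≤
      Real.exp 1 * ∏ i, (((c : ℝ) * n * m + 1) * 4 ^ (J - j i) + 1) ^ n := by
    have hM : (0 : ℝ) < (c : ℝ) * n * m + 1 := by positivity
    have h1 : ∀ i, ((((c : ℝ) * n * m + 1) + c) * 4 ^ (J - j i) + 1) ^ n ≤
        (1 + c / ((c : ℝ) * n * m + 1)) ^ n *
          (((c : ℝ) * n * m + 1) * 4 ^ (J - j i) + 1) ^ n := by
      intro i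
      rw [← mul_pow]
      refine pow_le_pow_left₀ (by positivity) ?_ _
      exact C_row hM (Nat.cast_nonneg c) _
    refine (Finset.prod_le_prod (fun i _ => by positivity) fun i _ => h1 i).trans ?_
    rw [Finset.prod_mul_distrib, Finset.prod_const, Finset.card_univ, Fintype.card_fin]
    refine mul_le_mul_of_nonneg_right ?_ (Finset.prod_nonneg fun i _ => by positivity)
    rw [← pow_mul]
    have h2 : 1 + c / ((c : ℝ) * n * m + 1) ≤ Real.exp (c / ((c : ℝ) * n * m + 1)) := by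
      have := Real.add_one_le_exp (c / ((c : ℝ) * n * m + 1))
      linarith
    refine (pow_le_pow_left₀ (by positivity) h2 _).trans ?_
    rw [← Real.exp_nat_mul]
    refine Real.exp_le_exp.2 ?_
    push_cast
    rw [mul_div_assoc', div_le_one hM]
    have : (n : ℝ) * m * c = c * n * m := by ring
    linarith
  have hmain : (2 : ℝ) * (r * (e * (g ^ m * ((((Nx : ℝ) + c' * m) * 4 ^ J + 1) ^ n *
        ((∏ i, ((((c : ℝ) * n * m + 1) + c) * 4 ^ (J - j i) + 1) ^ n) * L))))) ≤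
      (Nx * 4 ^ J + 1) ^ n * (g ^ m * ((∏ i, (((c : ℝ) * n * m + 1) * 4 ^ (J - j i) + 1) ^ n) *
        ∏ i, ((4 : ℝ) ^ (J - j i) + 1))) := by
    have hL' : (L : ℝ) ≤ Real.exp (-(2 * δ ^ 2 * m)) * ∏ i, ((4 : ℝ) ^ (J - j i) + 1) := by
      refine hL.trans (le_of_eq ?_)
      push_cast
      rfl
    have hP0 : 0 ≤ ∏ i, (((c : ℝ) * n * m + 1) * 4 ^ (J - j i) + 1) ^ n :=
      Finset.prod_nonneg fun i _ => by positivity
    have hQ0 : 0 ≤ ∏ i, ((4 : ℝ) ^ (J - j i) + 1) := Finset.prod_nonneg fun i _ => by positivity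
    have hP1 : 0 ≤ ∏ i, ((((c : ℝ) * n * m + 1) + c) * 4 ^ (J - j i) + 1) ^ n :=
      Finset.prod_nonneg fun i _ => by positivity
    have h1 : (((Nx : ℝ) + c' * m) * 4 ^ J + 1) ^ n *
        ((∏ i, ((((c : ℝ) * n * m + 1) + c) * 4 ^ (J - j i) + 1) ^ n) * L) ≤
        (ρ ^ n * (Nx * 4 ^ J + 1) ^ n) *
          ((Real.exp 1 * ∏ i, (((c : ℝ) * n * m + 1) * 4 ^ (J - j i) + 1) ^ n) *
            (Real.exp (-(2 * δ ^ 2 * m)) * ∏ i, ((4 : ℝ) ^ (J - j i) + 1))) := by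
      refine mul_le_mul ha (mul_le_mul hb hL' (Nat.cast_nonneg _) (by positivity))
        (mul_nonneg hP1 (Nat.cast_nonneg _)) (by positivity)
    have h2 : (0 : ℝ) ≤ 2 * (r * (e * g ^ m)) := by positivity
    calc _ = 2 * (r * (e * (g : ℝ) ^ m)) * ((((Nx : ℝ) + c' * m) * 4 ^ J + 1) ^ n *
        ((∏ i, ((((c : ℝ) * n * m + 1) + c) * 4 ^ (J - j i) + 1) ^ n) * L)) := by ring
      _ ≤ 2 * (r * (e * (g : ℝ) ^ m)) * ((ρ ^ n * (Nx * 4 ^ J + 1) ^ n) *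
          ((Real.exp 1 * ∏ i, (((c : ℝ) * n * m + 1) * 4 ^ (J - j i) + 1) ^ n) *
            (Real.exp (-(2 * δ ^ 2 * m)) * ∏ i, ((4 : ℝ) ^ (J - j i) + 1)))) :=
          mul_le_mul_of_nonneg_left h1 h2
      _ = (G * Real.exp (-(2 * δ ^ 2 * m))) * ((Nx * 4 ^ J + 1) ^ n * (g ^ m *
          ((∏ i, (((c : ℝ) * n * m + 1) * 4 ^ (J - j i) + 1) ^ n) *
            ∏ i, ((4 : ℝ) ^ (J - j i) + 1)))) := by
          rw [hG]
          ring
      _ ≤ 1 * ((Nx * 4 ^ J + 1) ^ n * (g ^ m *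
          ((∏ i, (((c : ℝ) * n * m + 1) * 4 ^ (J - j i) + 1) ^ n) *
            ∏ i, ((4 : ℝ) ^ (J - j i) + 1)))) := by
          refine mul_le_mul_of_nonneg_right hGm ?_
          positivity
      _ = _ := one_mul _
  have h3 : ((2 * (r * (e * (g ^ m * (((Nx + c' * m) * 4 ^ J + 1) ^ n *
        ((∏ i, (((c * n * m + 1) + c) * 4 ^ (J - j i) + 1) ^ n) * L))))) : ℕ) : ℝ) ≤
      (((Nx * 4 ^ J + 1) ^ n * (g ^ m * ((∏ i, ((c * n * m + 1) * 4 ^ (J - j i) + 1) ^ n) *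
        ∏ i, (4 ^ (J - j i) + 1))) : ℕ) : ℝ) := by
    push_cast
    exact hmain
  exact_mod_cast h3

end Pool.Agent.Lib.MP_17a322_nt.VP
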