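import Pool.Agent.Lib.MP_17a322_nt.VP.CD
import Pool.Agent.Lib.MP_17a322_nt.VP.CG
import Pool.Agent.Lib.MP_17a322_nt.VP.CH
import Pool.Agent.Lib.MP_17a322_nt.VJ.F3

/-!
Roth's theorem over abelian varieties, part C: the auxiliary polynomial (Siegel's lemma).
-/

universe u

namespace Pool.Agent.Lib.MP_17a322_nt.VP

open MvPolynomial Height
open Pool.Agent.Lib.MP_17a322_nt.RO
open Pool.Agent.Lib.MP_17a322_nt.VJ
open Pool.Agent.Lib.MP_17a322_nt.VN
open Pool.Agent.Lib.MP_17a322_nt.VA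

theorem C_norm {K σ : Type*} [Field K] {β : MvPolynomial σ K} (hβ : β ≠ 0) :
    ∃ c : K, c ≠ 0 ∧ ∀ v : AbsoluteValue K ℝ, 1 ≤ NV v (C c * β) := by
  obtain ⟨m, hm⟩ := MvPolynomial.ne_zero_iff.1 hβ
  refine ⟨(coeff m β)⁻¹, inv_ne_zero hm, fun v => ?_⟩
  have h1 := coeff_le_NV v (C (coeff m β)⁻¹ * β) m
  rw [coeff_C_mul, inv_mul_cancel₀ hm, map_one] at h1
  exact h1

theorem C_Van_smul {K : Type u} [Field K] {N : ℕ} {A : AV K N} {n e₀ : ℕ} (nd : Noe A n e₀)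
    {m : ℕ} {j : Fin m → ℕ} {α β : Fin m → MvPolynomial (Fin (N + 1)) K} {T : ℝ}
    {F : MvPolynomial (VF m n) K} {c : Fin m → K} (hc : ∀ i, c i ≠ 0)
    (h : Van nd j (fun i => C (c i) * α i) (fun i => C (c i) * β i) T F) :
    Van nd j α β T F := by
  intro R _ _ _ Y η x c' f hY hη hc' hrow hβ0 hf w hw
  refine h R Y η x c' f hY hη hc' hrow (fun i => ?_) (fun i => ?_) w hw
  · rw [map_mul, aeval_C]
    exact mul_ne_zero ((map_ne_zero_iff _ (algebraMap K R).injective).2 (hc i)) (hβ0 i)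
  · rw [map_mul, map_mul, aeval_C, mul_left_comm, hf i]

theorem C_card_box {m n : ℕ} (Nx M₀ g J : ℕ) (j : Fin m → ℕ) :
    (box (fun t => C_Bd n Nx M₀ g J j t + 1)).card =
      (Nx * 4 ^ J + 1) ^ n * ((g + 1) ^ m * ((∏ i, (M₀ * 4 ^ (J - j i) + 1) ^ n) *
        ∏ i, (4 ^ (J - j i) + 1))) := by
  rw [card_box, C_prodVF]
  show (∏ _a : Fin n, (Nx * 4 ^ J + 1)) * ((∏ _i : Fin m, (g + 1)) *
    ((∏ p : Fin m × Fin n, (M₀ * 4 ^ (J - j p.1) + 1)) * ∏ i, (4 ^ (J - j i) + 1))) = _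
  rw [Finset.prod_const, Finset.prod_const, Finset.card_univ, Finset.card_univ, Fintype.card_fin,
    Fintype.card_fin, Fintype.prod_prod_type]
  simp only [Finset.prod_const, Finset.card_univ, Fintype.card_fin]

theorem C_log_card {m n : ℕ} (Nx M₀ g J : ℕ) (j : Fin m → ℕ) :
    Real.log ((box (fun t => C_Bd n Nx M₀ g J j t + 1)).card) ≤
      Fintype.card (VF m n) * (Nx + M₀ + g + 1) * 4 ^ J := by
  have h1 : ∀ t : VF m n, C_Bd n Nx M₀ g J j t ≤ (Nx + M₀ + g + 1) * 4 ^ J := by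
    have h4 : 1 ≤ 4 ^ J := Nat.one_le_pow _ _ (by norm_num)
    have h5 : ∀ i, 4 ^ (J - j i) ≤ 4 ^ J := fun i =>
      Nat.pow_le_pow_right (by norm_num) (Nat.sub_le _ _)
    rintro (a | i | p | i)
    · show Nx * 4 ^ J ≤ _
      exact Nat.mul_le_mul_right _ (by omega)
    · show g ≤ _
      calc g ≤ g * 4 ^ J := Nat.le_mul_of_pos_right _ h4
        _ ≤ _ := Nat.mul_le_mul_right _ (by omega)
    · show M₀ * 4 ^ (J - j p.1) ≤ _
      exact Nat.mul_le_mul (by omega) (h5 p.1)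
    · show 4 ^ (J - j i) ≤ _
      calc 4 ^ (J - j i) ≤ 1 * 4 ^ J := by rw [one_mul]; exact h5 i
        _ ≤ _ := Nat.mul_le_mul_right _ (by omega)
  rw [card_box, Nat.cast_prod, Real.log_prod fun t _ => by positivity]
  have h2 : ∀ t ∈ (Finset.univ : Finset (VF m n)),
      Real.log ((C_Bd n Nx M₀ g J j t + 1 : ℕ) : ℝ) ≤ (Nx + M₀ + g + 1) * 4 ^ J := by
    intro t _
    have h3 := Real.log_le_sub_one_of_pos (x := ((C_Bd n Nx M₀ g J j t + 1 : ℕ) : ℝ))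
      (by positivity)
    have h4 : ((C_Bd n Nx M₀ g J j t : ℕ) : ℝ) ≤ (Nx + M₀ + g + 1) * 4 ^ J := by
      exact_mod_cast h1 t
    push_cast at h3 ⊢
    linarith
  refine (Finset.sum_le_sum h2).trans (le_of_eq ?_)
  rw [Finset.sum_const, Finset.card_univ, nsmul_eq_mul]
  ring

/-- The auxiliary polynomial. -/
theorem exists_auxP {K : Type u} [Field K] [NumberField K] {N : ℕ} {A : AV K N} {n e : ℕ}
    (nd : Noe A n e) (r D : ℕ) (δ ε' : ℝ) (hδ : 0 < δ) (hδ2 : δ < 1 / 2) (hε' : 0 < ε') :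
    ∃ m₀ : ℕ, ∀ m : ℕ, m₀ ≤ m → 0 < m → ∃ (M₀ : ℕ) (C : ℝ), 0 ≤ C ∧
      ∀ (J : ℕ) (j : Fin m → ℕ) (α β : Fin m → Fin r → MvPolynomial (Fin (N + 1)) K),
      (∀ i, j i ≤ J) →
      (∀ i l, (α i l).IsHomogeneous D ∧ (β i l).IsHomogeneous D ∧ β i l ∉ A.I ∧
        ht2 (α i l) (β i l) ≤ 4 ^ j i) →
      ∃ F : MvPolynomial (VF m n) K, F ≠ 0 ∧
        (∀ i, F.degreeOf (VF.th i) < nd.Φ.natDegree) ∧
        (∀ a, (F.degreeOf (VF.x a) : ℝ) ≤ ε' * m * 4 ^ J) ∧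
        (∀ p, F.degreeOf (VF.z p) ≤ M₀ * 4 ^ (J - j p.1)) ∧
        (∀ i, F.degreeOf (VF.u i) ≤ 4 ^ (J - j i)) ∧
        nh F ≤ C * 4 ^ J ∧
        ∀ l, Van nd j (fun i => α i l) (fun i => β i l) ((1 / 2 - δ) * m * 4 ^ J) F := by
  classical
  obtain ⟨c, hcd⟩ : ∃ c, c = (2 * D + C_d nd) * C_D nd := ⟨_, rfl⟩
  obtain ⟨c', hcd'⟩ : ∃ c', c' = 2 * D * nd.DM := ⟨_, rfl⟩
  obtain ⟨m₁, hm₁⟩ := C_count r (C_d nd + 1) (e + 1) n c c' δ ε' hδ hε'
  obtain ⟨m₂, hm₂⟩ := exists_nat_gt (1 / ε')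
  obtain ⟨C1, hC1, h1⟩ := siegel K
  refine ⟨max m₁ m₂, fun m hm hm0 => ?_⟩
  obtain ⟨C2, hC2, h2⟩ := C_matrix_height nd D m r
  have hm0' : (0 : ℝ) < m := by exact_mod_cast hm0
  obtain ⟨Nx, hNxd⟩ : ∃ Nx, Nx = ⌊ε' * m⌋₊ := ⟨_, rfl⟩
  have hεm : 1 ≤ ε' * m := by
    have h3 : 1 / ε' ≤ m := hm₂.le.trans (by exact_mod_cast (le_max_right _ _).trans hm)
    rwa [div_le_iff₀ hε', mul_comm] at h3
  have hNx1 : (Nx : ℝ) ≤ ε' * m := by
    rw [hNxd]
    exact Nat.floor_le (by linarith)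
  have hNx2 : ε' * m / 2 ≤ Nx := by
    have h3 : ε' * m < Nx + 1 := by
      rw [hNxd]
      exact Nat.lt_floor_add_one _
    have h4 : (1 : ℝ) ≤ Nx := by
      have h5 : 1 ≤ Nx := by
        rw [hNxd]
        exact Nat.le_floor (by exact_mod_cast hεm)
      exact_mod_cast h5
    linarith
  obtain ⟨M₀, hM₀⟩ : ∃ M₀, M₀ = c * n * m + 1 := ⟨_, rfl⟩
  obtain ⟨lc, hlc⟩ : ∃ lc : ℝ, lc = Fintype.card (VF m n) * (Nx + M₀ + C_d nd + 1) := ⟨_, rfl⟩
  have hlc0 : 0 ≤ lc := by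
    rw [hlc]
    positivity
  refine ⟨M₀, C1 + (C2 + C1 + C1 * lc) + totalWeight K * lc, by positivity,
    fun J j α₀ β₀ hj hαβ => ?_⟩
  have hbj : ∀ i, 4 ^ (J - j i) * 4 ^ j i = 4 ^ J := by
    intro i
    rw [← pow_add, Nat.sub_add_cancel (hj i)]
  -- normalisation of the targets
  have hβ₀ : ∀ i l, β₀ i l ≠ 0 := by
    intro i l h
    apply (hαβ i l).2.2.1
    rw [h]
    exact A.I.zero_mem
  choose cc hcc0 hcc1 using fun i l => C_norm (hβ₀ i l)
  obtain ⟨α, hα⟩ : ∃ α : Fin m → Fin r → MvPolynomial (Fin (N + 1)) K,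
    α = fun i l => C (cc i l) * α₀ i l := ⟨_, rfl⟩
  obtain ⟨β, hβ⟩ : ∃ β : Fin m → Fin r → MvPolynomial (Fin (N + 1)) K,
    β = fun i l => C (cc i l) * β₀ i l := ⟨_, rfl⟩
  have hαh : ∀ i l, (α i l).IsHomogeneous D := by
    intro i l
    have h3 := (isHomogeneous_C (Fin (N + 1)) (cc i l)).mul (hαβ i l).1
    rw [zero_add] at h3
    rw [hα]
    exact h3
  have hβh : ∀ i l, (β i l).IsHomogeneous D := by
    intro i l
    have h3 := (isHomogeneous_C (Fin (N + 1)) (cc i l)).mul (hαβ i l).2.1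
    rw [zero_add] at h3
    rw [hβ]
    exact h3
  have hβ0 : ∀ i l, β i l ≠ 0 := by
    intro i l
    rw [hβ]
    exact mul_ne_zero (fun h => hcc0 i l (C_injective _ _ (by rw [h, map_zero]))) (hβ₀ i l)
  have h1v : ∀ i l (v : AbsoluteValue K ℝ), 1 ≤ max (NV v (α i l)) (NV v (β i l)) := by
    intro i l v
    refine le_trans ?_ (le_max_right _ _)
    rw [hβ]
    exact hcc1 i l v
  have hht : ∀ i l, ht2 (α i l) (β i l) ≤ 4 ^ j i := by
    intro i l
    rw [hα, hβ]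
    show ht2 (C (cc i l) * α₀ i l) (C (cc i l) * β₀ i l) ≤ _
    rw [C_ht2_smul (hβ₀ i l) (hcc0 i l)]
    exact (hαβ i l).2.2.2
  obtain ⟨T, hT⟩ : ∃ T : ℝ, T = (1 / 2 - δ) * m * 4 ^ J := ⟨_, rfl⟩
  -- the index sets
  obtain ⟨W, hW⟩ : ∃ W : Finset (Fin m → ℕ), W = (Fintype.piFinset fun i =>
    Finset.range (4 ^ (J - j i) + 1)).filter (fun w => (∑ i, (4 : ℝ) ^ j i * w i) < T) := ⟨_, rfl⟩
  have hWcard : (W.card : ℝ) ≤ Real.exp (-(2 * δ ^ 2 * m)) *
      ∏ i, (((4 ^ (J - j i) : ℕ) : ℝ) + 1) := by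
    refine C_hoeffding (fun i => 4 ^ (J - j i)) (fun i => Nat.one_le_pow _ _ (by norm_num)) δ
      hδ.le W fun w hw => ?_
    rw [hW, Finset.mem_filter, Fintype.mem_piFinset] at hw
    refine ⟨fun i => Nat.lt_succ_iff.1 (Finset.mem_range.1 (hw.1 i)), ?_⟩
    have h4J : (0 : ℝ) < 4 ^ J := by positivity
    have h3 : ∑ i, (w i : ℝ) / ((4 ^ (J - j i) : ℕ) : ℝ) = (∑ i, (4 : ℝ) ^ j i * w i) / 4 ^ J := by
      rw [Finset.sum_div]
      refine Finset.sum_congr rfl fun i _ => ?_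
      have h4 : ((4 ^ (J - j i) : ℕ) : ℝ) * 4 ^ j i = 4 ^ J := by exact_mod_cast hbj i
      rw [div_eq_div_iff (by positivity) h4J.ne', ← h4]
      ring
    rw [h3, div_le_iff₀ h4J]
    have h4 := hw.2.le
    rw [hT] at h4
    exact h4
  have hcount := hm₁ m ((le_max_left _ _).trans hm) hm0 Nx hNx2 J j W.card hWcard
  have hlog := C_log_card (m := m) (n := n) Nx M₀ (C_d nd) J j
  let rowT := Fin r × Fin (e + 1) × (Fin m → Fin (C_d nd + 1)) ×
    (box fun _ : Fin n => (Nx + c' * m) * 4 ^ J + 1) ×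
    (BB (fun i : Fin m => (M₀ + c) * 4 ^ (J - j i) + 1) : Finset (Fin m → Fin n → ℕ)) × W
  let colT := (box (fun t => C_Bd n Nx M₀ (C_d nd) J j t + 1) : Finset (VF m n → ℕ))
  have hrow : Fintype.card rowT = r * ((e + 1) * ((C_d nd + 1) ^ m *
      (((Nx + c' * m) * 4 ^ J + 1) ^ n * ((∏ i, ((M₀ + c) * 4 ^ (J - j i) + 1) ^ n) *
        W.card)))) := by
    rw [Fintype.card_prod, Fintype.card_prod, Fintype.card_prod, Fintype.card_prod,
      Fintype.card_prod, Fintype.card_coe, Fintype.card_coe, Fintype.card_coe, card_box,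
      card_BB, Fintype.card_fun, Fintype.card_fin, Fintype.card_fin, Fintype.card_fin,
      Fintype.card_fin, Finset.prod_const, Finset.card_univ, Fintype.card_fin]
  have hcol : Fintype.card colT = (Nx * 4 ^ J + 1) ^ n * ((C_d nd + 1) ^ m *
      ((∏ i, (M₀ * 4 ^ (J - j i) + 1) ^ n) * ∏ i, (4 ^ (J - j i) + 1))) := by
    rw [Fintype.card_coe, C_card_box]
  have hcolpos : 0 < Fintype.card colT := by
    rw [hcol]
    positivity
  have h2row : 2 * Fintype.card rowT ≤ Fintype.card colT := by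
    rw [hrow, hcol, hM₀]
    exact hcount
  have hlt : Fintype.card rowT < Fintype.card colT := by omega
  obtain ⟨M, hM⟩ : ∃ M : Matrix rowT colT K, M = fun (a : rowT) (b : colT) =>
      C_MC nd j (fun i => 4 ^ (J - j i)) (fun i => α i a.1) (fun i => β i a.1)
        (a.2.2.2.2.2 : Fin m → ℕ) a.2.1 a.2.2.1 (a.2.2.2.1 : Fin n → ℕ)
        (a.2.2.2.2.1 : Fin m → Fin n → ℕ) (b : VF m n → ℕ) := ⟨_, rfl⟩
  obtain ⟨x, hx0, hAx, hx⟩ := h1 rowT colT M hlt
  have hmat := h2 J j α β hj (fun i l => C_homog (hαh i l)) (fun i l => C_homog (hβh i l)) hβ0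
    h1v hht (rowT × colT) (fun p : rowT × colT => M p.1 p.2) (by
    intro p
    have hp := (mem_box _ _).1 p.2.2
    refine ⟨p.1.1, p.1.2.2.2.2.2, p.1.2.1, p.1.2.2.1, p.1.2.2.2.1, p.1.2.2.2.2.1, p.2,
      fun i => Nat.lt_succ_iff.1 (hp (VF.u i)), fun i => Nat.lt_succ_iff.1 (hp (VF.th i)), ?_⟩
    rw [hM])
  obtain ⟨cf, hcf⟩ : ∃ cf : (VF m n → ℕ) → K, cf = fun d =>
      if h : d ∈ box (fun t => C_Bd n Nx M₀ (C_d nd) J j t + 1) then x ⟨d, h⟩ else 0 := ⟨_, rfl⟩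
  have hcfp : ∀ p : colT, cf p = x p := by
    rintro ⟨d, hd⟩
    rw [hcf]
    exact dif_pos hd
  have hcfx : (fun d : box (fun t => C_Bd n Nx M₀ (C_d nd) J j t + 1) => cf d) = x := funext hcfp
  obtain ⟨p₀, hp₀⟩ := Function.ne_iff.mp hx0
  have hF0 : C_F (fun t => C_Bd n Nx M₀ (C_d nd) J j t) cf ≠ 0 :=
    C_F_ne p₀.2 (by rw [hcfp]; exact hp₀)
  refine ⟨C_F (fun t => C_Bd n Nx M₀ (C_d nd) J j t) cf, hF0, fun i => ?_, fun a => ?_,
    fun p => ?_, fun i => ?_, ?_, fun l => ?_⟩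
  · rw [C_natDegree]
    exact Nat.lt_succ_iff.2 (C_degreeOf_F _ cf (VF.th i))
  · have h3 : ((C_F (fun t => C_Bd n Nx M₀ (C_d nd) J j t) cf).degreeOf (VF.x a) : ℝ) ≤
        ((Nx * 4 ^ J : ℕ) : ℝ) := by
      exact_mod_cast C_degreeOf_F (fun t => C_Bd n Nx M₀ (C_d nd) J j t) cf (VF.x a)
    refine h3.trans ?_
    push_cast
    exact mul_le_mul_of_nonneg_right hNx1 (by positivity)
  · exact C_degreeOf_F (fun t => C_Bd n Nx M₀ (C_d nd) J j t) cf (VF.z p)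
  · exact C_degreeOf_F (fun t => C_Bd n Nx M₀ (C_d nd) J j t) cf (VF.u i)
  · -- the height
    have hnh := C_nh_F hF0 (by rw [hcfx]; exact hx0)
    rw [hcfx] at hnh
    have hfrac0 : 0 ≤ (Fintype.card rowT : ℝ) / (Fintype.card colT - Fintype.card rowT : ℝ) := by
      have : (Fintype.card rowT : ℝ) < Fintype.card colT := by exact_mod_cast hlt
      exact div_nonneg (Nat.cast_nonneg _) (by linarith)
    have hfrac1 : (Fintype.card rowT : ℝ) / (Fintype.card colT - Fintype.card rowT : ℝ) ≤ 1 := by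
      have h5 : (Fintype.card rowT : ℝ) < Fintype.card colT := by exact_mod_cast hlt
      have h6 : (2 : ℝ) * Fintype.card rowT ≤ Fintype.card colT := by exact_mod_cast h2row
      rw [div_le_one (by linarith)]
      linarith
    have h4J : (1 : ℝ) ≤ 4 ^ J := one_le_pow₀ (by norm_num)
    have hlogc : Real.log ((box (fun t => C_Bd n Nx M₀ (C_d nd) J j t + 1)).card) ≤
        lc * 4 ^ J := by
      rw [hlc]
      exact hlog
    have hlog' : Real.log (Fintype.card colT) ≤ lc * 4 ^ J := by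
      rw [Fintype.card_coe]
      exact hlogc
    have hin : logHeight (fun p : rowT × colT => M p.1 p.2) + C1 +
        C1 * Real.log (Fintype.card colT) ≤ (C2 + C1 + C1 * lc) * 4 ^ J := by
      have h7 := mul_le_mul_of_nonneg_left hlog' hC1
      have h8 : C1 ≤ C1 * 4 ^ J := le_mul_of_one_le_right hC1 h4J
      calc _ ≤ C2 * 4 ^ J + C1 * 4 ^ J + C1 * (lc * 4 ^ J) := by linarith
        _ = _ := by ring
    have hin' : (Fintype.card rowT : ℝ) / (Fintype.card colT - Fintype.card rowT : ℝ) *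
        (logHeight (fun p : rowT × colT => M p.1 p.2) + C1 +
          C1 * Real.log (Fintype.card colT)) ≤ (C2 + C1 + C1 * lc) * 4 ^ J := by
      refine (mul_le_mul_of_nonneg_left hin hfrac0).trans ?_
      exact mul_le_of_le_one_left (by positivity) hfrac1
    have h9 : C1 ≤ C1 * 4 ^ J := le_mul_of_one_le_right hC1 h4J
    have htw : (0 : ℝ) ≤ totalWeight K := Nat.cast_nonneg _
    have h10 := mul_le_mul_of_nonneg_left hlogc htw
    calc _ ≤ C1 * 4 ^ J + (C2 + C1 + C1 * lc) * 4 ^ J + totalWeight K * (lc * 4 ^ J) := by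
          linarith
      _ = _ := by ring
  · -- the conditions
    refine C_Van_smul nd (c := fun i => cc i l) (fun i => hcc0 i l) ?_
    have hCC : C_CC nd (fun t => C_Bd n Nx M₀ (C_d nd) J j t) j (fun i => 4 ^ (J - j i))
        (fun i => α i l) (fun i => β i l) T cf := by
      intro w r' ρ' q₀ q hw hwκ
      by_cases hq : q₀ ∈ box (fun _ : Fin n => (Nx + c' * m) * 4 ^ J + 1) ∧
        q ∈ BB (fun i : Fin m => (M₀ + c) * 4 ^ (J - j i) + 1)
      swap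
      · refine Finset.sum_eq_zero fun d hd => ?_
        have h3 : C_MC nd j (fun i => 4 ^ (J - j i)) (fun i => α i l) (fun i => β i l)
            w r' ρ' q₀ q d = 0 := by
          by_contra h4
          apply hq
          rw [hcd, hcd']
          exact C_MC_zero nd hj (fun i => C_homog (hαh i l)) (fun i => C_homog (hβh i l)) hd h4
        rw [h3, mul_zero]
      have hwW : w ∈ W := by
        rw [hW, Finset.mem_filter, Fintype.mem_piFinset]
        exact ⟨fun i => Finset.mem_range.2 (Nat.lt_succ_iff.2 (hwκ i)), hw⟩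
      have h3 := congrFun hAx (⟨l, r', ρ', ⟨q₀, hq.1⟩, ⟨q, hq.2⟩, ⟨w, hwW⟩⟩ : rowT)
      rw [Pi.zero_apply, Matrix.mulVec, dotProduct] at h3
      refine Eq.trans ?_ h3
      rw [← Finset.sum_coe_sort (box (fun t => C_Bd n Nx M₀ (C_d nd) J j t + 1))]
      refine Finset.sum_congr rfl fun d _ => ?_
      have h5 := hcfp d
      rw [hM]
      show _ = C_MC nd j (fun i => 4 ^ (J - j i)) (fun i => α i l) (fun i => β i l)
        w r' ρ' q₀ q (d : VF m n → ℕ) * x d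
      rw [← h5]
      exact mul_comm _ _
    have h3 := C_Van nd hCC (fun i => hαh i l) (fun i => hβh i l) (fun i => le_rfl)
    rw [hT] at h3
    rw [hα, hβ] at h3
    exact h3

end Pool.Agent.Lib.MP_17a322_nt.VP
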