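import Pool.Agent.Lib.MP_17a322_nt.VA.CL2
import Pool.Agent.Lib.MP_17a322_nt.VA.Z17
import Pool.Agent.Lib.MP_17a322_nt.VA.N1
import Pool.Agent.Lib.MP_17a322_nt.VA.A3b

/-!
The choice of the auxiliary field for moving targets, part 1: a point with independent Noether
coordinates avoids every hypersurface which does not contain the variety.
-/

universe u

namespace Pool.Agent.Lib.MP_17a322_nt.VP

open MvPolynomial
open Pool.Agent.Lib.MP_17a322_nt.VJ
open Pool.Agent.Lib.MP_17a322_nt.VN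
open Pool.Agent.Lib.MP_17a322_nt.VA

theorem CP_alg {K Ω : Type*} [Field K] [Field Ω] [Algebra K Ω] (S : Set Ω) (x : Ω)
    (h : IsAlgebraic (IntermediateField.adjoin K S) x) : IsAlgebraic (Algebra.adjoin K S) x := by
  open IntermediateField.algebraAdjoinAdjoin in
  exact (IsFractionRing.isAlgebraic_iff (Algebra.adjoin K S) (IntermediateField.adjoin K S) Ω).2 h

section

variable {K : Type u} [Field K] {N : ℕ} {A : AV K N} {n e : ℕ} (nd : Noe A n e)

theorem CP_gp_ne : lf (nd.l 0) A.gp ≠ 0 := by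
  intro h
  obtain ⟨L, _, _, P, hP, -⟩ := nd.indep
  apply hP
  rw [← aeval_lp] at h ⊢
  exact A.x_isPt P _ ((A.gp_zero_iff _).1 h)

/-- The values at the generic point are algebraic over the polynomials in the Noether coordinates. -/
theorem CP_mem (f : MvPolynomial (Fin (N + 1)) K) :
    IsAlgebraic (Algebra.adjoin K (Set.range fun t : Fin n => lf (nd.l t.succ) (A.ga (nd.l 0))))
      (aeval (A.ga (nd.l 0)) f) := by
  apply CP_alg
  rw [← mem_acl]
  have hl := CP_gp_ne nd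
  obtain ⟨w, hw⟩ := AV.exists_rep A.gp_ne A.gp_isPt
  obtain ⟨c, hc, h1⟩ := hw
  have h2 : ∀ l : Fin (N + 1) → K, lf l A.gp = c * lf l (A.x w) := by
    intro l
    rw [show A.gp = _ from funext h1, lf_smul]
  have h3 : lf (nd.l 0) (A.x w) ≠ 0 := by
    intro h
    apply hl
    rw [h2, h, mul_zero]
  have h4 : ∀ a, A.ga (nd.l 0) a = A.x w a / lf (nd.l 0) (A.x w) := by
    intro a
    rw [AV.ga, h2, h1, mul_div_mul_left _ _ hc]
  have h5 : ∀ l : Fin (N + 1) → K, lf l (A.ga (nd.l 0)) =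
      lf l (A.x w) / lf (nd.l 0) (A.x w) := by
    intro l
    have h6 : A.ga (nd.l 0) = fun a => (lf (nd.l 0) (A.x w))⁻¹ * A.x w a := by
      funext a
      rw [h4, div_eq_mul_inv, mul_comm]
    rw [h6, lf_smul, div_eq_mul_inv, mul_comm]
  have h6 : ∀ a, A.ga (nd.l 0) a ∈
      acl K (Set.range fun t : Fin n => lf (nd.l t.succ) (A.ga (nd.l 0))) := by
    intro a
    have h7 := alg_of_nz nd w 0 a
    rw [← mem_acl, ← h4] at h7
    refine acl_acl ?_ h7
    rintro _ ⟨i, rfl⟩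
    rcases Fin.eq_zero_or_eq_succ i with rfl | ⟨t, rfl⟩
    · show lf (nd.l 0) (A.x w) / lf (nd.l 0) (A.x w) ∈ _
      rw [div_self h3]
      exact one_mem _
    · exact subset_acl ⟨t, h5 _⟩
  induction f using MvPolynomial.induction_on with
  | C a =>
    rw [aeval_C]
    exact IntermediateField.algebraMap_mem _ _
  | add p q hp hq =>
    rw [map_add]
    exact add_mem hp hq
  | mul_X p i hp =>
    rw [map_mul, aeval_X]
    exact mul_mem hp (h6 i)

/-- A point with independent Noether coordinates is generic. -/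
theorem CP_generic {Ω : Type u} [Field Ω] [Algebra K Ω] {y : Fin (N + 1) → Ω} (hy : A.IsPt y)
    (h1 : lf (nd.l 0) y = 1) (hind : AlgebraicIndependent K fun t : Fin n => lf (nd.l t.succ) y)
    {f : MvPolynomial (Fin (N + 1)) K} (h0 : aeval y f = 0) : aeval (A.ga (nd.l 0)) f = 0 := by
  by_contra hne
  have hl := CP_gp_ne nd
  obtain ⟨s, hs⟩ : ∃ s : Fin n → A.FF, s = fun t => lf (nd.l t.succ) (A.ga (nd.l 0)) := ⟨_, rfl⟩
  have h2 := CP_mem nd f
  rw [← hs] at h2
  obtain ⟨q, hq0, hq⟩ := h2.exists_nonzero_coeff_and_aeval_eq_zero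
    (mem_nonZeroDivisors_of_ne_zero hne)
  obtain ⟨φ, hφ⟩ : ∃ φ : MvPolynomial (Fin n) K →ₐ[K] Algebra.adjoin K (Set.range s),
      ∀ g, ((φ g : Algebra.adjoin K (Set.range s)) : A.FF) = aeval s g := by
    refine ⟨aeval fun t => ⟨s t, Algebra.subset_adjoin ⟨t, rfl⟩⟩, fun g => ?_⟩
    have h3 : ((Algebra.adjoin K (Set.range s)).val.comp
        (aeval fun t => (⟨s t, Algebra.subset_adjoin ⟨t, rfl⟩⟩ : Algebra.adjoin K (Set.range s)))) =
        (aeval s : MvPolynomial (Fin n) K →ₐ[K] A.FF) := by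
      refine MvPolynomial.algHom_ext fun t => ?_
      rw [AlgHom.comp_apply, aeval_X, aeval_X]
      rfl
    exact congrArg (fun ψ => ψ g) h3
  have hsurj : Function.Surjective φ := by
    rintro ⟨z, hz⟩
    rw [Algebra.adjoin_range_eq_range_aeval] at hz
    obtain ⟨g, hg⟩ := hz
    exact ⟨g, Subtype.ext ((hφ g).trans hg)⟩
  obtain ⟨Q, hQ⟩ := Polynomial.map_surjective φ.toRingHom hsurj q
  let ψ : MvPolynomial (Fin n) K →ₐ[K] MvPolynomial (Fin (N + 1)) K :=
    aeval fun t => lp (nd.l t.succ)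
  have hψ : ∀ {R : Type u} [CommRing R] [Algebra K R] (y : Fin (N + 1) → R),
      (aeval y : MvPolynomial (Fin (N + 1)) K →ₐ[K] R).comp ψ =
        (aeval (fun t => lf (nd.l t.succ) y) : MvPolynomial (Fin n) K →ₐ[K] R) := by
    intro R _ _ y
    refine MvPolynomial.algHom_ext fun t => ?_
    rw [AlgHom.comp_apply, aeval_X, aeval_lp, aeval_X]
  have hev : ∀ {R : Type u} [CommRing R] [Algebra K R] (y : Fin (N + 1) → R),
      aeval y (Q.eval₂ ψ.toRingHom f) =
        Q.eval₂ (aeval (fun t => lf (nd.l t.succ) y) :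
          MvPolynomial (Fin n) K →ₐ[K] R).toRingHom (aeval y f) := by
    intro R _ _ y
    have h3 := Polynomial.hom_eval₂ Q ψ.toRingHom
      (aeval y : MvPolynomial (Fin (N + 1)) K →ₐ[K] R).toRingHom f
    rw [← hψ y]
    exact h3
  have hZ : aeval (A.ga (nd.l 0)) (Q.eval₂ ψ.toRingHom f) = 0 := by
    rw [hev, ← hs]
    rw [← hQ, Polynomial.aeval_def, Polynomial.eval₂_map] at hq
    have h3 : (algebraMap (Algebra.adjoin K (Set.range s)) A.FF).comp φ.toRingHom =
        (aeval s : MvPolynomial (Fin n) K →ₐ[K] A.FF).toRingHom := by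
      refine RingHom.ext fun g => ?_
      exact hφ g
    rw [h3] at hq
    exact hq
  have hZy := AV.transfer hl hZ hy h1
  rw [hev, h0, Polynomial.eval₂_at_zero] at hZy
  have h3 : Q.coeff 0 = 0 := hind.eq_zero_of_aeval_eq_zero _ hZy
  apply hq0
  rw [← hQ, Polynomial.coeff_map, h3, map_zero]

/-- A generic point is not in the hyperplane `x b₀ = 0`. -/
theorem CP_b₀ {Ω : Type u} [Field Ω] [Algebra K Ω] {T : A.Pts Ω} (h1 : lf (nd.l 0) (A.x T) ≠ 0)
    (hind : AlgebraicIndependent K (nd.s T)) : A.x T A.b₀ ≠ 0 := by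
  intro h0
  have h2 : A.IsPt fun a => (lf (nd.l 0) (A.x T))⁻¹ * A.x T a :=
    AV.IsPt.smul (A.x_isPt T) _
  have h3 : lf (nd.l 0) (fun a => (lf (nd.l 0) (A.x T))⁻¹ * A.x T a) = 1 := by
    rw [lf_smul, inv_mul_cancel₀ h1]
  have h4 : (fun t : Fin n => lf (nd.l t.succ) fun a => (lf (nd.l 0) (A.x T))⁻¹ * A.x T a) =
      nd.s T := by
    funext t
    rw [lf_smul, Noe.s, div_eq_mul_inv, mul_comm]
  have h5 := CP_generic nd h2 h3 (by rw [h4]; exact hind) (f := X A.b₀) (by
    rw [aeval_X, h0, mul_zero])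
  rw [aeval_X] at h5
  have h6 : A.gp A.b₀ = 0 := by
    rw [AV.gp_eq (CP_gp_ne nd)]
    show lf (nd.l 0) A.gp * A.ga (nd.l 0) A.b₀ = 0
    rw [h5, mul_zero]
  have h7 : (X A.b₀ : MvPolynomial (Fin (N + 1)) K) ∈ A.I := by
    rw [← A.gp_zero_iff, aeval_X]
    exact h6
  have h8 := A.x_isPt (0 : A.Pts K) _ h7
  rw [aeval_X] at h8
  exact AV.x_zero_b₀ h8

end

end Pool.Agent.Lib.MP_17a322_nt.VP
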