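import Pool.Agent.Lib.MP_17a322_nt.VP.CP1

/-!
The choice of the auxiliary field for moving targets, part 2: a polynomial which does not vanish at
the generic data does not vanish at some data over a number field made of roots of unity.
-/

universe u

namespace Pool.Agent.Lib.MP_17a322_nt.VP

open MvPolynomial
open Pool.Agent.Lib.MP_17a322_nt.VJ
open Pool.Agent.Lib.MP_17a322_nt.VN
open Pool.Agent.Lib.MP_17a322_nt.VA

/-- Generic nonvanishing of the polynomial `F`. -/
def CP_Gen {K : Type u} [Field K] {N : ℕ} {A : AV K N} {n e : ℕ} (nd : Noe A n e) {τ : Type}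
    (F : MvPolynomial (Option (Fin n) ⊕ τ) K) : Prop :=
  ∀ (Ω : Type u) [Field Ω] [Algebra K Ω] (z : Option (Fin n) → Ω) (ζ : τ → Ω)
    (y : Fin (N + 1) → Ω) (w : A.Pts Ω), A.Rep w y → lf (nd.l 0) y = 1 →
    aeval (fun t => z (some t)) nd.δ ≠ 0 →
    (∀ i, aeval z (nd.pv i) = aeval (fun t => z (some t)) nd.δ * y i) →
    AlgebraicIndependent K (Sum.elim (fun t : Fin n => lf (nd.l t.succ) y) ζ) →
    aeval (Sum.elim z ζ) F ≠ 0

section

variable {K : Type u} [Field K] {N : ℕ} {A : AV K N} {n e : ℕ} (nd : Noe A n e)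

/-- The eliminant of the conditions. -/
theorem CP_elim {τ : Type} [DecidableEq τ] (F : MvPolynomial (Option (Fin n) ⊕ τ) K)
    (hF : CP_Gen nd F) : El (Sum.inl none) (rename Sum.inl (unp nd.Φ)) F ≠ 0 := by
  classical
  let M := MvPolynomial (Option (Fin n) ⊕ τ) K
  let Ω := AlgebraicClosure (FractionRing M)
  let _ : Algebra K Ω := ((algebraMap (FractionRing M) Ω).comp
    ((algebraMap M (FractionRing M)).comp (algebraMap K M))).toAlgebra
  let φ : M →ₐ[K] Ω := { (algebraMap (FractionRing M) Ω).comp (algebraMap M (FractionRing M)) with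
    commutes' := fun _ => rfl }
  have hφ : Function.Injective φ := by
    intro a b h
    exact IsFractionRing.injective M (FractionRing M) ((algebraMap (FractionRing M) Ω).injective h)
  obtain ⟨s, hs⟩ : ∃ s : Option (Fin n) ⊕ τ → Ω, s = fun x => φ (X x) := ⟨_, rfl⟩
  have hsv : ∀ F : M, aeval s F = φ F := by
    intro F
    rw [hs]
    have h1 : aeval (fun x => φ (X x)) = φ := by
      refine MvPolynomial.algHom_ext fun x => ?_
      rw [aeval_X]
    rw [h1]
  have hind : AlgebraicIndependent K s := by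
    intro a b h
    rw [hsv, hsv] at h
    exact hφ h
  have hne : ∀ F : M, F ≠ 0 → aeval s F ≠ 0 := by
    intro F hF h
    exact hF (hind (by rw [h, map_zero]))
  have hf0 : (rename Sum.inl (unp nd.Φ) : M) ≠ 0 := by
    intro h
    have h1 : unp nd.Φ = 0 := rename_injective _ Sum.inl_injective (by rw [h, map_zero])
    have h2 : nd.Φ = 0 := (optionEquivLeft K (Fin n)).symm.injective (by
      rw [map_zero]
      exact h1)
    exact nd.Φ_monic.ne_zero h2
  have hl : lcv (Sum.inl none) (rename Sum.inl (unp nd.Φ) : M) ≠ 0 := by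
    unfold lcv
    rw [← natDegree_vw]
    exact Polynomial.leadingCoeff_ne_zero.2 (vw_ne_zero _ hf0)
  intro h0
  refine El_ne_zero_at (Sum.inl none) (rename Sum.inl (unp nd.Φ) : M) F s
    (hne _ hl) (fun r hr => ?_) (by rw [h0, map_zero])
  obtain ⟨z, hz⟩ : ∃ z : Option (Fin n) → Ω, z = fun o => Function.update s (Sum.inl none) r
    (Sum.inl o) := ⟨_, rfl⟩
  obtain ⟨ζ, hζ⟩ : ∃ ζ : τ → Ω, ζ = fun p => s (Sum.inr p) := ⟨_, rfl⟩
  have hu : Function.update s (Sum.inl none) r = Sum.elim z ζ := by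
    funext x
    rcases x with o | p
    · rw [hz]
      rfl
    · rw [hζ, Function.update_of_ne (by simp)]
      rfl
  have hzs : ∀ t, z (some t) = s (Sum.inl (some t)) := by
    intro t
    rw [hz]
    exact Function.update_of_ne (by simp) _ _
  rw [hu] at hr ⊢
  have hr' : aeval z (unp nd.Φ) = 0 := by
    rw [aeval_rename] at hr
    exact hr
  have hδ : aeval (fun t => z (some t)) nd.δ ≠ 0 := by
    have h1 : aeval s (rename (fun t => Sum.inl (some t)) nd.δ : M) ≠ 0 := by
      refine hne _ fun h => nd.δ_ne ?_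
      refine rename_injective (fun t : Fin n => (Sum.inl (some t) : Option (Fin n) ⊕ τ)) ?_
        (by rw [h, map_zero])
      intro a b hab
      exact Option.some.inj (Sum.inl.inj hab)
    rw [aeval_rename] at h1
    have h2 : (fun t => z (some t)) = s ∘ fun t => Sum.inl (some t) := funext hzs
    rw [h2]
    exact h1
  obtain ⟨y, w, hw, hy1, hy2, hy3⟩ := nd.exists_pt z hr' hδ
  refine hF Ω z ζ y w hw hy1 hδ hy3 ?_
  have h3 : (Sum.elim (fun t : Fin n => lf (nd.l t.succ) y) ζ) =
      s ∘ Sum.map some id := by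
    funext x
    rcases x with t | p
    · show lf (nd.l t.succ) y = s (Sum.inl (some t))
      rw [hy2, hzs]
    · show ζ p = s (Sum.inr p)
      rw [hζ]
  rw [h3]
  exact hind.comp _ (Sum.map_injective.2 ⟨Option.some_injective _, Function.injective_id⟩)

end

/-- The choice of the field, of the translation and of the roots of unity. -/
theorem CP_choose {K : Type u} [Field K] [NumberField K] {N : ℕ} {A : AV K N} {n e : ℕ}
    (nd : Noe A n e) {τ : Type} [Finite τ] (F : MvPolynomial (Option (Fin n) ⊕ τ) K)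
    (hF : CP_Gen nd F) :
    ∃ (L : Type u) (_ : Field L) (_ : NumberField L) (_ : Algebra K L) (w : A.Pts L)
      (z : Option (Fin n) → L) (ζ : τ → L) (y : Fin (N + 1) → L),
      lf (nd.l 0) (A.x w) ≠ 0 ∧ (∀ t, ∃ k, 0 < k ∧ nd.s w t ^ k = 1) ∧
      (∀ p, ∃ k, 0 < k ∧ ζ p ^ k = 1) ∧ A.Rep w y ∧ lf (nd.l 0) y = 1 ∧
      aeval (fun t => z (some t)) nd.δ ≠ 0 ∧
      (∀ i, aeval z (nd.pv i) = aeval (fun t => z (some t)) nd.δ * y i) ∧
      aeval (Sum.elim z ζ) F ≠ 0 := by
  classical
  have hR := CP_elim nd F hF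
  obtain ⟨R, hRd⟩ : ∃ R, R = El (Sum.inl none) (rename Sum.inl (unp nd.Φ)) F :=
    ⟨_, rfl⟩
  rw [← hRd] at hR
  have hinj : Function.Injective
      (fun t : Fin n => (Sum.inl (some t) : Option (Fin n) ⊕ τ)) := by
    intro a b hab
    exact Option.some.inj (Sum.inl.inj hab)
  have hδ0 : (rename (fun t => Sum.inl (some t)) nd.δ :
      MvPolynomial (Option (Fin n) ⊕ τ) K) ≠ 0 := by
    intro h
    exact nd.δ_ne (rename_injective _ hinj (by rw [h, map_zero]))
  let Ω := AlgebraicClosure K
  obtain ⟨s, hs, hsR⟩ := exists_mem_ne (Ω := Ω) _ (mul_ne_zero hR hδ0)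
    (fun _ => {ζ : Ω | ∃ N, 0 < N ∧ ζ ^ N = 1}) (fun _ => infinite_root_one Ω)
  rw [map_mul] at hsR
  have hsR1 := left_ne_zero_of_mul hsR
  have hsδ := right_ne_zero_of_mul hsR
  rw [aeval_rename] at hsδ
  -- the root
  obtain ⟨r, hr⟩ : ∃ r : Ω, (nd.Φ.map (aeval (R := K) fun t : Fin n =>
      s (Sum.inl (some t))).toRingHom).eval r = 0 := by
    refine IsAlgClosed.exists_root _ ?_
    rw [Polynomial.degree_eq_natDegree (nd.Φ_monic.map _).ne_zero, nd.Φ_monic.natDegree_map]
    exact_mod_cast nd.natDegree_ne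
  rw [Polynomial.eval_map] at hr
  -- the field
  obtain ⟨S, hS⟩ : ∃ S : Set Ω, S = Set.range (Function.update s (Sum.inl none) r) := ⟨_, rfl⟩
  have hfin : Finite S := by
    rw [hS]
    exact Set.finite_range _
  let E := IntermediateField.adjoin K S
  have hfd : FiniteDimensional K E :=
    IntermediateField.finiteDimensional_adjoin fun x _ => Algebra.IsIntegral.isIntegral x
  have hnf : NumberField E := NumberField.of_module_finite K E
  have hmem : ∀ x, Function.update s (Sum.inl none) r x ∈ E := fun x =>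
    IntermediateField.subset_adjoin K S (by rw [hS]; exact ⟨x, rfl⟩)
  obtain ⟨z, hz⟩ : ∃ z : Option (Fin n) → E, z = fun o => ⟨_, hmem (Sum.inl o)⟩ := ⟨_, rfl⟩
  obtain ⟨ζ, hζ⟩ : ∃ ζ : τ → E, ζ = fun p => ⟨_, hmem (Sum.inr p)⟩ := ⟨_, rfl⟩
  have hzv : ∀ o, E.val (z o) = Function.update s (Sum.inl none) r (Sum.inl o) := by
    intro o
    rw [hz]
    rfl
  have hζv : ∀ p, E.val (ζ p) = s (Sum.inr p) := by
    intro p
    rw [hζ]
    show Function.update s (Sum.inl none) r (Sum.inr p) = _
    exact Function.update_of_ne Sum.inr_ne_inl _ _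
  have hzt : ∀ t, E.val (z (some t)) = s (Sum.inl (some t)) := by
    intro t
    rw [hzv]
    exact Function.update_of_ne (by simp) _ _
  have hzn : E.val (z none) = r := by
    rw [hzv]
    exact Function.update_self _ _ _
  have hval : ∀ F' : MvPolynomial (Option (Fin n) ⊕ τ) K,
      E.val (aeval (Sum.elim z ζ) F') = aeval (Function.update s (Sum.inl none) r) F' := by
    intro F'
    rw [← AlgHom.comp_apply, MvPolynomial.comp_aeval]
    congr 2
    funext x
    rcases x with o | p
    · exact hzv o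
    · exact (hζv p).trans (Function.update_of_ne Sum.inr_ne_inl _ _).symm
  have hvali : Function.Injective E.val := E.val.injective
  have hzΦ : aeval z (unp nd.Φ) = 0 := by
    apply hvali
    have h1 := hval (rename Sum.inl (unp nd.Φ))
    rw [aeval_rename, aeval_rename] at h1
    rw [map_zero]
    refine (show E.val (aeval z (unp nd.Φ)) = _ from h1).trans ?_
    rw [aeval_unp]
    have h2 : (fun t : Fin n => (Function.update s (Sum.inl none) r ∘ Sum.inl) (some t)) =
        fun t => s (Sum.inl (some t)) := by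
      funext t
      exact Function.update_of_ne (by simp) _ _
    have h3 : (Function.update s (Sum.inl none) r ∘ Sum.inl) none = r :=
      Function.update_self _ _ _
    rw [h2, h3]
    exact hr
  have hzδ : aeval (fun t => z (some t)) nd.δ ≠ 0 := by
    intro h
    apply hsδ
    have h1 : E.val (aeval (fun t => z (some t)) nd.δ) =
        aeval (s ∘ fun t => Sum.inl (some t)) nd.δ := by
      rw [← AlgHom.comp_apply, MvPolynomial.comp_aeval]
      congr 2
      funext t
      exact hzt t
    rw [← h1, h, map_zero]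
  obtain ⟨y, w, hw, hy1, hy2, hy3⟩ := nd.exists_pt z hzΦ hzδ
  have hHp : aeval (Sum.elim z ζ) F ≠ 0 := by
    intro h
    have h1 := hval F
    rw [h, map_zero] at h1
    have h2 := aeval_dvd_El (Sum.inl none) (rename Sum.inl (unp nd.Φ)) F
      (Or.inl (by
        rw [degreeOf_rename_of_injective Sum.inl_injective, degreeOf_none_unp]
        exact nd.natDegree_ne)) (Function.update s (Sum.inl none) r) (by
        have h3 := hval (rename Sum.inl (unp nd.Φ))
        rw [← h3, aeval_rename]
        have h4 : aeval (Sum.elim z ζ ∘ Sum.inl) (unp nd.Φ) = 0 := hzΦ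
        rw [h4, map_zero])
    rw [← h1, zero_dvd_iff, ← hRd] at h2
    apply hsR1
    rw [← h2]
    rw [aeval_update_of_degreeOf_eq_zero]
    rw [hRd]
    exact degreeOf_El_self _ _ _
  have hw0 : lf (nd.l 0) (A.x w) ≠ 0 := by
    obtain ⟨c, hc, h1⟩ := hw
    intro h0
    rw [show y = _ from funext h1, lf_smul, h0, mul_zero] at hy1
    exact zero_ne_one hy1
  have hsw : ∀ t, nd.s w t = z (some t) := by
    intro t
    obtain ⟨c, hc, h1⟩ := hw
    have h2 : ∀ l : Fin (N + 1) → K, lf l y = c * lf l (A.x w) := by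
      intro l
      rw [show y = _ from funext h1, lf_smul]
    rw [← hy2 t]
    unfold Noe.s
    rw [h2]
    have h3 := hy1
    rw [h2] at h3
    rw [div_eq_iff hw0]
    linear_combination (-(lf (nd.l t.succ) (A.x w))) * h3
  refine ⟨E, inferInstance, hnf, inferInstance, w, z, ζ, y, hw0, fun t => ?_, fun p => ?_, hw,
    hy1, hzδ, hy3, hHp⟩
  · obtain ⟨k, hk, hk1⟩ := hs (Sum.inl (some t))
    refine ⟨k, hk, hvali ?_⟩
    rw [hsw, map_pow, hzt, map_one]
    exact hk1
  · obtain ⟨k, hk, hk1⟩ := hs (Sum.inr p)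
    refine ⟨k, hk, hvali ?_⟩
    rw [map_pow, hζv, map_one]
    exact hk1

end Pool.Agent.Lib.MP_17a322_nt.VP
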