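import Pool.Agent.Lib.MP_17a322_nt.VP.Defs
import Pool.Agent.Lib.MP_17a322_nt.VA.E10
import Pool.Agent.Lib.MP_17a322_nt.VA.E07
import Pool.Agent.Lib.MP_17a322_nt.VA.E08
import Pool.Agent.Lib.MP_17a322_nt.VA.E13
import Pool.Agent.Lib.MP_17a322_nt.VA.E14
import Pool.Agent.Lib.MP_17a322_nt.VA.E24
import Pool.Agent.Lib.MP_17a322_nt.VA.CL2

/-!
VP, part E (zero estimate): definitions. The coordinate of the line is treated as one more coordinate:
`n + 1` coordinates, the last one of `P i` and of `P i - 2 ^ j i Q` is the coordinate `u i` of the line,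
the last one of `Q` does not occur.
-/

universe u

namespace Pool.Agent.Lib.MP_17a322_nt.VP

open MvPolynomial Height
open Pool.Agent.Lib.MP_17a322_nt.RO
open Pool.Agent.Lib.MP_17a322_nt.VJ
open Pool.Agent.Lib.MP_17a322_nt.VN
open Pool.Agent.Lib.MP_17a322_nt.VA

/-- The first `n` of `n + 1` coordinates (and the primitive element). -/
def eix {n : ℕ} : Option (Fin n) → Option (Fin (n + 1)) :=
  Option.map Fin.castSucc

/-- The elimination data with one more coordinate. -/
noncomputable def E_ed {K : Type u} [Field K] {N : ℕ} {A : AV K N} {n e : ℕ} (nd : Noe A n e) :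
    ED K (n + 1) where
  f := rename eix nd.ed.f
  b j o := o.elim (rename (Sum.map eix eix) (nd.ed.b j none))
    (Fin.lastCases (motive := fun _ => MvPolynomial (Option (Fin (n + 1)) ⊕ Option (Fin (n + 1))) K)
      (rename (Sum.map eix eix) (nd.ed.b j none) * X (Sum.inr (some (Fin.last n))))
      fun t => rename (Sum.map eix eix) (nd.ed.b j (some t)))

/-- The variables. -/
def E_v {m n : ℕ} : VF m n → VE m (n + 1)
  | VF.x a => VE.x a.castSucc
  | VF.th i => VE.w i
  | VF.z p => VE.z (p.1, p.2.castSucc)
  | VF.u i => VE.z (i, Fin.last n)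

/-- The variables of the point `P i - 2 ^ j i Q` (first elimination). -/
def E_z {m n : ℕ} (i : Fin m) : Option (Fin n) → VE m (n + 1)
  | none => VE.w i
  | some t => VE.z (i, t.castSucc)

/-- The relations of the first elimination. -/
noncomputable def E_al {K : Type u} [Field K] {N : ℕ} {A : AV K N} {n e : ℕ} (nd : Noe A n e)
    (m : ℕ) : VE m (n + 1) → MvPolynomial (VE m (n + 1)) K
  | VE.w i => rename (E_z i) nd.ed.f
  | _ => 0

/-- The values of the variables in a ring for the first elimination. -/
def E_p {m n : ℕ} {R : Type*} [Zero R] (x : Fin n → R) (th : Fin m → R) (z : Fin m × Fin n → R)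
    (u : Fin m → R) : VE m (n + 1) → R
  | VE.x t => Fin.lastCases (motive := fun _ => R) 0 x t
  | VE.q => 0
  | VE.S _ => 0
  | VE.w i => th i
  | VE.z p => Fin.lastCases (motive := fun _ => R) (u p.1) (fun t => z (p.1, t)) p.2
  | VE.v _ => 0

end Pool.Agent.Lib.MP_17a322_nt.VP
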