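import Pool.Agent.Lib.MP_17a322_nt.VP.E00

/-!
VP, part E: the first elimination (norm over the primitive elements `th i`).
-/

universe u

namespace Pool.Agent.Lib.MP_17a322_nt.VP

open MvPolynomial
open Pool.Agent.Lib.MP_17a322_nt.VJ
open Pool.Agent.Lib.MP_17a322_nt.VN
open Pool.Agent.Lib.MP_17a322_nt.VA

/-- The first elimination. -/
noncomputable def E_N {K : Type u} [Field K] {N : ℕ} {A : AV K N} {n e m : ℕ} (nd : Noe A n e)
    (F : MvPolynomial (VF m n) K) : MvPolynomial (VE m (n + 1)) K :=
  ELL (E_al nd m) ((List.finRange m).map VE.w) (rename E_v F)

theorem E_v_injective {m n : ℕ} : Function.Injective (E_v : VF m n → VE m (n + 1)) := by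
  intro a b h
  cases a with
  | x a =>
    cases b with
    | x b =>
      injection h with h
      rw [Fin.castSucc_injective _ h]
    | _ => cases h
  | th a =>
    cases b with
    | th b =>
      injection h with h
      rw [h]
    | _ => cases h
  | z a =>
    cases b with
    | z b =>
      injection h with h
      obtain ⟨h1, h2⟩ := Prod.mk.inj h
      have h3 : a = b := Prod.ext h1 (Fin.castSucc_injective _ h2)
      rw [h3]
    | u b =>
      injection h with h
      exact absurd (Prod.mk.inj h).2 (Fin.castSucc_lt_last _).ne
    | _ => cases h
  | u a =>
    cases b with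
    | u b =>
      injection h with h
      rw [(Prod.mk.inj h).1]
    | z b =>
      injection h with h
      exact absurd (Prod.mk.inj h).2.symm (Fin.castSucc_lt_last _).ne
    | _ => cases h

theorem E_z_injective {m n : ℕ} (i : Fin m) :
    Function.Injective (E_z i : Option (Fin n) → VE m (n + 1)) := by
  intro a b h
  cases a with
  | none =>
    cases b with
    | none => rfl
    | some b => cases h
  | some a =>
    cases b with
    | none => cases h
    | some b =>
      injection h with h
      rw [Fin.castSucc_injective _ (Prod.mk.inj h).2]

end Pool.Agent.Lib.MP_17a322_nt.VP
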