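import Pool.Agent.Lib.MP_17a322_nt.VP.E00

/-!
VP, part E: the height of the relation of the last coordinate.
-/

universe u

namespace Pool.Agent.Lib.MP_17a322_nt.VP

open MvPolynomial Height
open Pool.Agent.Lib.MP_17a322_nt.RO
open Pool.Agent.Lib.MP_17a322_nt.VJ
open Pool.Agent.Lib.MP_17a322_nt.VN
open Pool.Agent.Lib.MP_17a322_nt.VA

private theorem e05a_S {K : Type u} [Field K] {N : ℕ} (A : AV K N) (a b : Fin (N + 1)) {τ : Type*}
    (v : AbsoluteValue K ℝ) (y w : Fin (N + 1) → MvPolynomial τ K) {U W : ℝ} (hU : 0 ≤ U)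
    (hW : 0 ≤ W) (hy : ∀ i, NV v (y i) ≤ U) (hw : ∀ i, NV v (w i) ≤ W) :
    NV v (aeval (Sum.elim y w) (A.S a b)) ≤ NV v (A.S a b) * (U ^ 2 * W ^ 2) := by
  have h : SN v (fun F : MvPolynomial τ K => NV v F) := SN_NV v
  have hP : 0 ≤ U ^ 2 * W ^ 2 := by positivity
  have hterm : ∀ m ∈ (A.S a b).support,
      NV v (algebraMap K (MvPolynomial τ K) (coeff m (A.S a b)) *
        ∏ t, Sum.elim y w t ^ m t) ≤ v (coeff m (A.S a b)) * (U ^ 2 * W ^ 2) := by
    intro m hm
    obtain ⟨h1, h2⟩ := A.bihomog a b m hm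
    refine (h.mul _ _).trans ?_
    refine mul_le_mul (h.map _) ?_ (h.nonneg _) (v.nonneg _)
    refine (h.prod_le _ _).trans ?_
    rw [Fintype.prod_sum_type]
    simp only [Sum.elim_inl, Sum.elim_inr]
    refine mul_le_mul ?_ ?_ (Finset.prod_nonneg fun t _ => h.nonneg _) (by positivity)
    · rw [← h1, ← Finset.prod_pow_eq_pow_sum]
      exact Finset.prod_le_prod (fun t _ => h.nonneg _) fun t _ =>
        (h.pow_le _ _).trans (pow_le_pow_left₀ (h.nonneg _) (hy t) _)
    · rw [← h2, ← Finset.prod_pow_eq_pow_sum]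
      exact Finset.prod_le_prod (fun t _ => h.nonneg _) fun t _ =>
        (h.pow_le _ _).trans (pow_le_pow_left₀ (h.nonneg _) (hw t) _)
  rw [aeval_def, eval₂_eq']
  by_cases hv : IsNonarchimedean v
  · refine SN.sum_le_max hv h _ _ (mul_nonneg ((v.nonneg _).trans (coeff_le_NV v _ 0)) hP)
      fun m hm => ?_
    exact (hterm m hm).trans (mul_le_mul_of_nonneg_right (coeff_le_NV v _ m) hP)
  · refine (h.sum_le_sum _ _).trans ?_
    refine (Finset.sum_le_sum hterm).trans (le_of_eq ?_)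
    rw [← Finset.sum_mul, A2_ar hv (A.S a b)]

private theorem e05a_SC_poly {K : Type u} [Field K] {ι σ : Type*} [Finite ι]
    (F : ι → MvPolynomial σ K) : ∃ E : SC K, ∀ (v : AbsoluteValue K ℝ) i, NV v (F i) ≤ E.k v := by
  obtain ⟨n, S, k, hn, h⟩ := Adm.family (K := K) (fun (i : ι) (L : Type u) [Field L] [Algebra K L]
    (v : AbsoluteValue L ℝ) => Max.max 1 (NV v (MvPolynomial.map (algebraMap K L) (F i))))
    (fun i => Adm_NV (F i))
  refine ⟨scOf n S k, fun v i => ?_⟩
  have h1 := (le_max_right 1 _).trans ((h i K v).trans (le_scOf hn S k v))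
  rw [Algebra.algebraMap_self, MvPolynomial.map_id] at h1
  exact h1

private theorem e05a_SC_abv {K : Type u} [Field K] {ι : Type*} [Finite ι]
    (c : ι → K) : ∃ E : SC K, ∀ (v : AbsoluteValue K ℝ) i, v (c i) ≤ E.k v := by
  obtain ⟨n, S, k, hn, h⟩ := Adm.family (K := K) (fun (i : ι) (L : Type u) [Field L] [Algebra K L]
    (v : AbsoluteValue L ℝ) => Max.max 1 (v (algebraMap K L (c i)))) (fun i => Adm_abv (c i))
  refine ⟨scOf n S k, fun v i => ?_⟩
  have h1 := (le_max_right 1 _).trans ((h i K v).trans (le_scOf hn S k v))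
  rw [Algebra.algebraMap_self_apply] at h1
  exact h1

private theorem e05a_SC_cst {K : Type u} [Field K] (n : ℕ) :
    ∃ E : SC K, ∀ (v : AbsoluteValue K ℝ), cst v n ≤ E.k v := by
  obtain ⟨E, hE⟩ := Adm.exists_SC (Adm_cst.{u, u} (K := K) n)
  exact ⟨E, fun v => hE K v⟩

private theorem e05a_SC {K : Type u} [Field K] {N : ℕ} {A : AV K N} {n e : ℕ} (nd : Noe A n e) :
    ∃ E : SC K, ∀ v : AbsoluteValue K ℝ, (∀ a b, NV v (A.S a b) ≤ E.k v) ∧
      (∀ i, NV v (nd.pv i) ≤ E.k v) ∧ (∀ k a, v (nd.l k a) ≤ E.k v) ∧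
      cst v (N + 1) ≤ E.k v ∧ cst v 2 ≤ E.k v := by
  obtain ⟨E1, h1⟩ := e05a_SC_poly (K := K) fun p : Fin (N + 1) × Fin (N + 1) => A.S p.1 p.2
  obtain ⟨E2, h2⟩ := e05a_SC_poly (K := K) fun i : Fin (N + 1) => nd.pv i
  obtain ⟨E3, h3⟩ := e05a_SC_abv (K := K) fun p : Fin (n + 1) × Fin (N + 1) => nd.l p.1 p.2
  obtain ⟨E4, h4⟩ := e05a_SC_cst (K := K) (N + 1)
  obtain ⟨E5, h5⟩ := e05a_SC_cst (K := K) 2
  refine ⟨(((E1.mul E2).mul E3).mul E4).mul E5, fun v => ⟨fun a b => ?_, fun i => ?_,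
    fun k a => ?_, ?_, ?_⟩⟩
  · exact (h1 v (a, b)).trans ((E1.le_mul_left E2 v).trans (((E1.mul E2).le_mul_left E3 v).trans
      ((((E1.mul E2).mul E3).le_mul_left E4 v).trans (SC.le_mul_left _ E5 v))))
  · exact (h2 v i).trans ((E1.le_mul_right E2 v).trans (((E1.mul E2).le_mul_left E3 v).trans
      ((((E1.mul E2).mul E3).le_mul_left E4 v).trans (SC.le_mul_left _ E5 v))))
  · exact (h3 v (k, a)).trans (((E1.mul E2).le_mul_right E3 v).trans
      ((((E1.mul E2).mul E3).le_mul_left E4 v).trans (SC.le_mul_left _ E5 v)))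
  · exact (h4 v).trans ((((E1.mul E2).mul E3).le_mul_right E4 v).trans (SC.le_mul_left _ E5 v))
  · exact (h5 v).trans (SC.le_mul_right _ E5 v)

private theorem e05a_mu {K : Type u} [Field K] {N : ℕ} (A : AV K N) {τ : Type*}
    (v : AbsoluteValue K ℝ) {B : ℝ} (hB : 1 ≤ B) (hS : ∀ a b, NV v (A.S a b) ≤ B)
    (w : Fin (N + 1) → MvPolynomial τ K) (hw : ∀ i, NV v (w i) ≤ B) (j : ℕ) (a : Fin (N + 1)) :
    NV v (A.mu j w a) ≤ B ^ (2 * 4 ^ j - 1) := by
  induction j generalizing a with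
  | zero =>
    rw [pow_zero, mul_one, pow_one]
    exact hw a
  | succ j ih =>
    have hB0 : 0 ≤ B := zero_le_one.trans hB
    rw [A.mu_succ]
    refine (e05a_S A a A.b₀ v _ _ (pow_nonneg hB0 _) (pow_nonneg hB0 _) ih ih).trans ?_
    refine (mul_le_mul_of_nonneg_right (hS _ _) (by positivity)).trans ?_
    rw [← pow_mul, ← pow_add, ← pow_succ']
    refine pow_le_pow_right₀ hB ?_
    have h1 : 1 ≤ 4 ^ j := Nat.one_le_pow _ _ (by norm_num)
    rw [pow_succ]
    omega

private theorem e05a_lf {K : Type u} [Field K] {N : ℕ} {τ : Type*} (v : AbsoluteValue K ℝ)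
    {B X : ℝ} (hB : 1 ≤ B) (hX : 0 ≤ X) (hc : cst v (N + 1) ≤ B) (l : Fin (N + 1) → K)
    (hl : ∀ a, v (l a) ≤ B) (w : Fin (N + 1) → MvPolynomial τ K) (hw : ∀ i, NV v (w i) ≤ X) :
    NV v (∑ a, C (l a) * w a) ≤ B ^ 2 * X := by
  have h : SN v (fun F : MvPolynomial τ K => NV v F) := SN_NV v
  have hB0 : 0 ≤ B := zero_le_one.trans hB
  have h1 := h.sum_le Finset.univ (fun a => C (l a) * w a) (B := B * X) (mul_nonneg hB0 hX)
    (fun a _ => by
      show NV v (C (l a) * w a) ≤ B * X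
      rw [NV_C_mul]
      exact mul_le_mul (hl a) (hw a) (h.nonneg _) hB0)
  rw [Finset.card_univ, Fintype.card_fin] at h1
  refine h1.trans ?_
  rw [pow_two, mul_assoc]
  exact mul_le_mul_of_nonneg_right hc (mul_nonneg hB0 hX)

private theorem e05a_sub {K : Type*} [Field K] {τ : Type*} (v : AbsoluteValue K ℝ)
    (F G : MvPolynomial τ K) {X : ℝ} (hF : NV v F ≤ X) (hG : NV v G ≤ X) :
    NV v (F - G) ≤ cst v 2 * X := by
  have h : SN v (fun F : MvPolynomial τ K => NV v F) := SN_NV v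
  have h1 : NV v (-G) = NV v G := h.neg G
  rw [sub_eq_add_neg]
  unfold cst
  by_cases hv : IsNonarchimedean v
  · rw [if_pos hv, one_mul]
    refine (h.add_max hv F (-G)).trans (max_le hF ?_)
    exact h1.le.trans hG
  · rw [if_neg hv]
    refine (h.add F (-G)).trans ?_
    show NV v F + NV v (-G) ≤ _
    rw [h1]
    push_cast
    linarith

private theorem e05a_b {K : Type u} [Field K] {N : ℕ} {A : AV K N} {n e : ℕ} (nd : Noe A n e)
    (v : AbsoluteValue K ℝ) {B : ℝ} (hB : 1 ≤ B) (hS : ∀ a b, NV v (A.S a b) ≤ B)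
    (hp : ∀ i, NV v (nd.pv i) ≤ B) (hl : ∀ k a, v (nd.l k a) ≤ B) (hc : cst v (N + 1) ≤ B)
    (j : ℕ) (o : Option (Fin n)) : NV v (nd.ed.b j o) ≤ B ^ (9 * 4 ^ j) := by
  have hB0 : 0 ≤ B := zero_le_one.trans hB
  show NV v (∑ a, C (nd.l 0 a) * lf (nd.lo o) (A.col a
      (fun i => rename (Sum.inr : Option (Fin n) → Option (Fin n) ⊕ Option (Fin n)) (nd.pv i))
      (A.mu j fun i => rename (Sum.inl : Option (Fin n) → Option (Fin n) ⊕ Option (Fin n))
        (nd.pv i)))) ≤ _
  have hlo : ∀ a, v (nd.lo o a) ≤ B := by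
    intro a
    cases o with
    | none => exact hl 0 a
    | some t => exact hl t.succ a
  have hcol : ∀ a b, NV v (A.col a
      (fun i => rename (Sum.inr : Option (Fin n) → Option (Fin n) ⊕ Option (Fin n)) (nd.pv i))
      (A.mu j fun i => rename (Sum.inl : Option (Fin n) → Option (Fin n) ⊕ Option (Fin n))
        (nd.pv i)) b) ≤ B ^ (4 * 4 ^ j + 1) := by
    intro a b
    refine (e05a_S A a b v _ _ hB0 (pow_nonneg hB0 (2 * 4 ^ j - 1)) (fun i => ?_)
      fun i => ?_).trans ?_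
    · rw [NV_rename v _ _ Sum.inr_injective]
      exact hp i
    · refine e05a_mu A v hB hS _ (fun i => ?_) j i
      rw [NV_rename v _ _ Sum.inl_injective]
      exact hp i
    · refine (mul_le_mul_of_nonneg_right (hS _ _) (by positivity)).trans ?_
      rw [← pow_mul, ← pow_add, ← pow_succ']
      refine pow_le_pow_right₀ hB ?_
      have h1 : 1 ≤ 4 ^ j := Nat.one_le_pow _ _ (by norm_num)
      omega
  have hlf : ∀ a, NV v (lf (nd.lo o) (A.col a
      (fun i => rename (Sum.inr : Option (Fin n) → Option (Fin n) ⊕ Option (Fin n)) (nd.pv i))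
      (A.mu j fun i => rename (Sum.inl : Option (Fin n) → Option (Fin n) ⊕ Option (Fin n))
        (nd.pv i)))) ≤ B ^ 2 * B ^ (4 * 4 ^ j + 1) := by
    intro a
    exact e05a_lf v hB (pow_nonneg hB0 _) hc (nd.lo o) hlo _ (hcol a)
  refine (e05a_lf v hB (by positivity) hc (nd.l 0) (hl 0) _ hlf).trans ?_
  rw [← pow_add, ← pow_add]
  refine pow_le_pow_right₀ hB ?_
  have h1 : 1 ≤ 4 ^ j := Nat.one_le_pow _ _ (by norm_num)
  omega

private theorem e05a_eix {n : ℕ} : Function.Injective (eix : Option (Fin n) → Option (Fin (n + 1))) :=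
  Option.map_injective (Fin.castSucc_injective n)

theorem E_nh_last {K : Type u} [Field K] [NumberField K] {N : ℕ} {A : AV K N} {n e : ℕ}
    (nd : Noe A n e) :
    ∃ C : ℝ, 0 ≤ C ∧ ∀ j : ℕ,
      nh (rename some (rename (Sum.map eix eix) (nd.ed.b j none)) * X none -
        rename some (rename (Sum.map eix eix) (nd.ed.b j none) *
          X (Sum.inr (some (Fin.last n)))) :
        MvPolynomial (Option (Option (Fin (n + 1)) ⊕ Option (Fin (n + 1)))) K) ≤
        C * 4 ^ j := by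
  obtain ⟨E, hE⟩ := e05a_SC nd
  obtain ⟨C', hC', hgs⟩ := E.gs_log_le
  refine ⟨10 * (C' * Module.finrank ℚ K), by positivity, fun j => ?_⟩
  obtain ⟨G, hG⟩ : ∃ G, G = (rename some (rename (Sum.map eix eix) (nd.ed.b j none)) * X none -
        rename some (rename (Sum.map eix eix) (nd.ed.b j none) *
          X (Sum.inr (some (Fin.last n)))) :
        MvPolynomial (Option (Option (Fin (n + 1)) ⊕ Option (Fin (n + 1)))) K) := ⟨_, rfl⟩
  rw [← hG]
  have hinj : Function.Injective (Sum.map eix eix :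
      Option (Fin n) ⊕ Option (Fin n) → Option (Fin (n + 1)) ⊕ Option (Fin (n + 1))) :=
    Sum.map_injective.2 ⟨e05a_eix, e05a_eix⟩
  have hbd : ∀ v : AbsoluteValue K ℝ, NV v G ≤ E.k v ^ (10 * 4 ^ j) := by
    intro v
    obtain ⟨h1, h2, h3, h4, h5⟩ := hE v
    have hB := E.one_le v
    have hB0 : 0 ≤ E.k v := zero_le_one.trans hB
    have hs : SN v (fun F : MvPolynomial (Option (Option (Fin (n + 1)) ⊕ Option (Fin (n + 1)))) K =>
      NV v F) := SN_NV v
    have hs' : SN v (fun F : MvPolynomial (Option (Fin (n + 1)) ⊕ Option (Fin (n + 1))) K =>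
      NV v F) := SN_NV v
    have h60 : NV v (rename (Sum.map eix eix) (nd.ed.b j none) :
        MvPolynomial (Option (Fin (n + 1)) ⊕ Option (Fin (n + 1))) K) ≤ E.k v ^ (9 * 4 ^ j) := by
      rw [NV_rename v _ _ hinj]
      exact e05a_b nd v hB h1 h2 h3 h4 j none
    have h6 : NV v (rename some (rename (Sum.map eix eix) (nd.ed.b j none)) * X none :
        MvPolynomial (Option (Option (Fin (n + 1)) ⊕ Option (Fin (n + 1)))) K) ≤
        E.k v ^ (9 * 4 ^ j) := by
      refine (hs.mul _ _).trans ?_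
      show NV v (rename some (rename (Sum.map eix eix) (nd.ed.b j none))) * NV v (X none) ≤ _
      rw [NV_X, mul_one, NV_rename v _ _ (Option.some_injective _)]
      exact h60
    have h7 : NV v (rename some (rename (Sum.map eix eix) (nd.ed.b j none) *
          X (Sum.inr (some (Fin.last n)))) :
        MvPolynomial (Option (Option (Fin (n + 1)) ⊕ Option (Fin (n + 1)))) K) ≤
        E.k v ^ (9 * 4 ^ j) := by
      rw [NV_rename v _ _ (Option.some_injective _)]
      refine (hs'.mul _ _).trans ?_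
      show NV v (rename (Sum.map eix eix) (nd.ed.b j none)) * NV v (X _) ≤ _
      rw [NV_X, mul_one]
      exact h60
    rw [hG]
    refine (e05a_sub v _ _ h6 h7).trans ?_
    refine (mul_le_mul_of_nonneg_right h5 (pow_nonneg hB0 _)).trans ?_
    rw [← pow_succ']
    refine pow_le_pow_right₀ hB ?_
    have h8 : 1 ≤ 4 ^ j := Nat.one_le_pow _ _ (by norm_num)
    omega
  by_cases hG0 : G = 0
  · have h1 : nh G = 0 := by
      rw [hG0]
      unfold nh
      have h2 : (fun v : AbsoluteValue K ℝ => Real.log (NV v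
          (0 : MvPolynomial (Option (Option (Fin (n + 1)) ⊕ Option (Fin (n + 1)))) K))) =
          fun _ => 0 * 0 := by
        funext v
        rw [A2_zero, Real.log_zero, mul_zero]
      rw [h2, gs_const_mul, zero_mul]
    rw [h1]
    positivity
  · have h1 : nh G ≤ gs fun v : AbsoluteValue K ℝ => ((10 * 4 ^ j : ℕ) : ℝ) *
        Real.log (E.k v) := by
      unfold nh
      refine gs_le (FS_log_NV hG0) (FS_const_mul _ (E.FS_log K)) fun v _ => ?_
      rw [← Real.log_pow]
      exact Real.log_le_log (NV_pos v hG0) (hbd v)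
    rw [gs_const_mul] at h1
    refine h1.trans ?_
    refine (mul_le_mul_of_nonneg_left (hgs K) (Nat.cast_nonneg _)).trans (le_of_eq ?_)
    push_cast
    ring

end Pool.Agent.Lib.MP_17a322_nt.VP
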