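import Pool.Agent.Lib.MP_17a322_nt.VP.E05a

/-!
VP, part E: the elimination data with one more coordinate are bounded and generic.
-/

universe u

namespace Pool.Agent.Lib.MP_17a322_nt.VP

open MvPolynomial Height
open Pool.Agent.Lib.MP_17a322_nt.RO
open Pool.Agent.Lib.MP_17a322_nt.VJ
open Pool.Agent.Lib.MP_17a322_nt.VN
open Pool.Agent.Lib.MP_17a322_nt.VA

theorem E_ed_none {K : Type u} [Field K] {N : ℕ} {A : AV K N} {n e : ℕ} (nd : Noe A n e)
    (j : ℕ) : (E_ed nd).b j none = rename (Sum.map eix eix) (nd.ed.b j none) := rfl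

theorem E_ed_last {K : Type u} [Field K] {N : ℕ} {A : AV K N} {n e : ℕ} (nd : Noe A n e)
    (j : ℕ) : (E_ed nd).b j (some (Fin.last n)) =
      rename (Sum.map eix eix) (nd.ed.b j none) * X (Sum.inr (some (Fin.last n))) := by
  show Fin.lastCases (motive := fun _ => MvPolynomial _ K) _ _ (Fin.last n) = _
  rw [Fin.lastCases_last]

theorem E_ed_some {K : Type u} [Field K] {N : ℕ} {A : AV K N} {n e : ℕ} (nd : Noe A n e)
    (j : ℕ) (t : Fin n) : (E_ed nd).b j (some t.castSucc) =
      rename (Sum.map eix eix) (nd.ed.b j (some t)) := by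
  show Fin.lastCases (motive := fun _ => MvPolynomial _ K) _ _ t.castSucc = _
  rw [Fin.lastCases_castSucc]

private theorem E05b_eix_inj {n : ℕ} : Function.Injective (eix : Option (Fin n) → Option (Fin (n + 1))) :=
  Option.map_injective (Fin.castSucc_injective n)

private theorem E05b_sum_inj {n : ℕ} : Function.Injective
    (Sum.map eix eix : Option (Fin n) ⊕ Option (Fin n) → Option (Fin (n + 1)) ⊕ Option (Fin (n + 1))) :=
  Sum.map_injective.2 ⟨E05b_eix_inj, E05b_eix_inj⟩

private theorem E05b_rename {K : Type*} [Field K] {σ τ : Type*} (f : σ → τ) (F : MvPolynomial σ K) (y : τ)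
    (hy : ∀ t, y ≠ f t) : (rename f F).degreeOf y = 0 := by
  classical
  by_contra h0
  rw [degreeOf_def] at h0
  have h1 : y ∈ (rename f F).vars := by
    rw [vars_def, Multiset.mem_toFinset]
    exact Multiset.count_pos.1 (Nat.pos_of_ne_zero h0)
  obtain ⟨t, _, ht⟩ := Finset.mem_image.1 (vars_rename f F h1)
  exact hy t ht.symm

private theorem E05b_deg {K : Type*} [Field K] {σ τ : Type*} (f : σ → τ) (hf : Function.Injective f)
    (F : MvPolynomial σ K) (B : ℝ) (hB : 0 ≤ B) (y : τ)
    (h : ∀ x, y = f x → (F.degreeOf x : ℝ) ≤ B) : ((rename f F).degreeOf y : ℝ) ≤ B := by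
  by_cases hy : ∃ x, y = f x
  · obtain ⟨x, rfl⟩ := hy
    rw [degreeOf_rename_of_injective hf]
    exact h x rfl
  · rw [E05b_rename f F y (fun t ht => hy ⟨t, ht⟩), Nat.cast_zero]
    exact hB

private theorem E05b_nh_rename {K : Type*} [Field K] [AdmissibleAbsValues K] {σ τ : Type*}
    (F : MvPolynomial σ K) (f : σ → τ) (hf : Function.Injective f) : nh (rename f F) = nh F := by
  unfold nh
  congr 1
  funext v
  rw [NV_rename v F f hf]

private theorem E05b_mul {K : Type*} [Field K] {σ : Type*} (F : MvPolynomial σ K) (y z : σ) (B : ℝ)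
    (h : (F.degreeOf y : ℝ) ≤ B) : ((F * X z).degreeOf y : ℝ) ≤ B + 1 := by
  classical
  have h1 : (F * X z).degreeOf y ≤ F.degreeOf y + (X z : MvPolynomial σ K).degreeOf y :=
    degreeOf_mul_le _ _ _
  have h2 : (X z : MvPolynomial σ K).degreeOf y ≤ 1 := by
    rw [degreeOf_X]
    split_ifs
    · exact le_rfl
    · exact Nat.zero_le 1
  have h3 : (F * X z).degreeOf y ≤ F.degreeOf y + 1 := h1.trans (Nat.add_le_add_left h2 _)
  have h4 : ((F * X z).degreeOf y : ℝ) ≤ (F.degreeOf y : ℝ) + 1 := by exact_mod_cast h3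
  linarith

theorem E_ed_ok {K : Type u} [Field K] [NumberField K] {N : ℕ} {A : AV K N} {n e : ℕ}
    (nd : Noe A n e) : ∃ C : ℝ, (E_ed nd).Ok C := by
  obtain ⟨C₁, h⟩ := nd.ed_ok
  obtain ⟨C₂, h0, h2⟩ := E_nh_last nd
  have hC1 := h.one_le
  have h4 : ∀ j : ℕ, (1 : ℝ) ≤ 4 ^ j := fun j => one_le_pow₀ (by norm_num)
  refine ⟨C₁ + C₂ + 1, ?_⟩
  have hl : ∀ (j : ℕ) (o : Option (Fin n)) (y : Option (Fin (n + 1))),
      ((rename (Sum.map eix eix) (nd.ed.b j o)).degreeOf (Sum.inl y) : ℝ) ≤ C₁ * 4 ^ j := by
    intro j o y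
    refine E05b_deg _ E05b_sum_inj _ _ (mul_nonneg (by linarith) (by linarith [h4 j])) _ ?_
    rintro (x | x) hx
    · exact h.bl j o x
    · simp only [Sum.map_inr] at hx
      exact absurd hx (by simp)
  have hr : ∀ (j : ℕ) (o : Option (Fin n)) (y : Option (Fin (n + 1))),
      ((rename (Sum.map eix eix) (nd.ed.b j o)).degreeOf (Sum.inr y) : ℝ) ≤ C₁ := by
    intro j o y
    refine E05b_deg _ E05b_sum_inj _ _ (by linarith) _ ?_
    rintro (x | x) hx
    · simp only [Sum.map_inl] at hx
      exact absurd hx (by simp)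
    · exact h.br j o x
  have hCj : ∀ j : ℕ, C₁ * 4 ^ j + 1 ≤ (C₁ + C₂ + 1) * 4 ^ j := by
    intro j
    have := h4 j
    nlinarith
  constructor
  · linarith
  · show (rename eix nd.ed.f).degreeOf (eix none) ≠ 0
    rw [degreeOf_rename_of_injective E05b_eix_inj]
    exact h.f0
  · intro y
    refine E05b_deg _ E05b_eix_inj _ _ (by linarith) _ fun x _ => ?_
    have := h.fd x
    linarith
  · show nh (rename eix nd.ed.f) ≤ _
    rw [E05b_nh_rename _ _ E05b_eix_inj]
    have := h.fh
    linarith
  · intro j o y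
    have hj := hCj j
    cases o with
    | none =>
      rw [E_ed_none]
      linarith [hl j none y]
    | some t =>
      refine Fin.lastCases ?_ (fun t => ?_) t
      · rw [E_ed_last]
        exact (E05b_mul _ _ _ _ (hl j none y)).trans hj
      · rw [E_ed_some]
        linarith [hl j (some t) y]
  · intro j o y
    cases o with
    | none =>
      rw [E_ed_none]
      linarith [hr j none y]
    | some t =>
      refine Fin.lastCases ?_ (fun t => ?_) t
      · rw [E_ed_last]
        exact (E05b_mul _ _ _ _ (hr j none y)).trans (by linarith)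
      · rw [E_ed_some]
        linarith [hr j (some t) y]
  · intro j t
    have hj := h4 j
    refine Fin.lastCases ?_ (fun t => ?_) t
    · rw [E_ed_none, E_ed_last]
      refine (h2 j).trans ?_
      nlinarith
    · rw [E_ed_none, E_ed_some]
      have e : (rename some (rename (Sum.map eix eix) (nd.ed.b j none)) * X none -
          rename some (rename (Sum.map eix eix) (nd.ed.b j (some t))) :
          MvPolynomial (Option (Option (Fin (n + 1)) ⊕ Option (Fin (n + 1)))) K) =
          rename (Option.map (Sum.map eix eix))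
            (rename some (nd.ed.b j none) * X none - rename some (nd.ed.b j (some t))) := by
        rw [map_sub, map_mul, rename_X, rename_rename, rename_rename, rename_rename, rename_rename]
        rfl
      rw [e, E05b_nh_rename _ _ (Option.map_injective E05b_sum_inj)]
      refine (h.bh j t).trans ?_
      nlinarith
  · intro Ω _ _ _ j a b hab ha hb
    have key : ∀ P : MvPolynomial (Option (Fin n) ⊕ Option (Fin n)) K,
        aeval (Sum.elim a b) (rename (Sum.map eix eix) P) =
          aeval (Sum.elim (fun o => a (eix o)) (fun o => b (eix o))) P := by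
      intro P
      rw [aeval_rename]
      congr 2
      funext x
      rcases x with x | x
      · rfl
      · rfl
    have hab' : AlgebraicIndependent K
        (Sum.elim (fun t : Fin n => a (eix (some t))) (fun t : Fin n => b (eix (some t))) :
          Fin n ⊕ Fin n → Ω) := by
      have h5 := hab.comp (Sum.map Fin.castSucc Fin.castSucc : Fin n ⊕ Fin n → _)
        (Sum.map_injective.2 ⟨Fin.castSucc_injective n, Fin.castSucc_injective n⟩)
      have e : (Sum.elim (fun t : Fin n => a (eix (some t))) (fun t : Fin n => b (eix (some t))) :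
          Fin n ⊕ Fin n → Ω) =
          (Sum.elim (fun t : Fin (n + 1) => a (some t)) (fun t : Fin (n + 1) => b (some t))) ∘
            (Sum.map Fin.castSucc Fin.castSucc : Fin n ⊕ Fin n → _) := by
        funext x
        rcases x with x | x
        · rfl
        · rfl
      rw [e]
      exact h5
    have ha' : aeval (fun o => a (eix o)) nd.ed.f = 0 := by
      have h5 : aeval a (rename eix nd.ed.f) = 0 := ha
      rw [aeval_rename] at h5
      exact h5
    have hb' : aeval (fun o => b (eix o)) nd.ed.f = 0 := by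
      have h5 : aeval b (rename eix nd.ed.f) = 0 := hb
      rw [aeval_rename] at h5
      exact h5
    obtain ⟨g1, g2⟩ := h.gen Ω j (fun o => a (eix o)) (fun o => b (eix o)) hab' ha' hb'
    have hn : aeval (Sum.elim a b) ((E_ed nd).b j none) ≠ 0 := by
      rw [E_ed_none, key]
      exact g1
    refine ⟨hn, fun t => ?_⟩
    refine Fin.lastCases ?_ (fun t => ?_) t
    · have h6 : aeval (Sum.elim a b) ((E_ed nd).b j (some (Fin.last n))) /
          aeval (Sum.elim a b) ((E_ed nd).b j none) = b (some (Fin.last n)) := by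
        rw [E_ed_last, map_mul, aeval_X, Sum.elim_inr, ← E_ed_none, mul_div_cancel_left₀ _ hn]
      have hmem : b (some (Fin.last n)) ∈ IntermediateField.adjoin K
          (Set.range (fun t : Fin (n + 1) => a (some t)) ∪ Set.range fun t : Fin (n + 1) =>
            aeval (Sum.elim a b) ((E_ed nd).b j (some t)) /
              aeval (Sum.elim a b) ((E_ed nd).b j none)) :=
        IntermediateField.subset_adjoin _ _ (Or.inr ⟨Fin.last n, h6⟩)
      exact isAlgebraic_algebraMap (⟨_, hmem⟩ : IntermediateField.adjoin K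
          (Set.range (fun t : Fin (n + 1) => a (some t)) ∪ Set.range fun t : Fin (n + 1) =>
            aeval (Sum.elim a b) ((E_ed nd).b j (some t)) /
              aeval (Sum.elim a b) ((E_ed nd).b j none)))
    · refine isAlgebraic_adjoin_mono ?_ (g2 t)
      rintro u (⟨t', rfl⟩ | ⟨t', rfl⟩)
      · exact Or.inl ⟨t'.castSucc, rfl⟩
      · refine Or.inr ⟨t'.castSucc, ?_⟩
        show aeval (Sum.elim a b) ((E_ed nd).b j (some t'.castSucc)) /
          aeval (Sum.elim a b) ((E_ed nd).b j none) = _
        rw [E_ed_some, E_ed_none, key, key]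

end Pool.Agent.Lib.MP_17a322_nt.VP
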