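import Pool.Agent.Lib.MP_17a322_nt.VP.E05b

/-!
VP, part E: the second elimination, with all coordinates independent.
-/

universe u

namespace Pool.Agent.Lib.MP_17a322_nt.VP

open MvPolynomial Height
open Pool.Agent.Lib.MP_17a322_nt.RO
open Pool.Agent.Lib.MP_17a322_nt.VJ
open Pool.Agent.Lib.MP_17a322_nt.VN
open Pool.Agent.Lib.MP_17a322_nt.VA

private theorem E06a_lw {K : Type*} [CommRing K] {m n : ℕ} (i : Fin m)
    (M : MvPolynomial (VE m n) K) (h : ∀ p, M.degreeOf (VE.v p) = 0) : lw i 0 M = M := by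
  classical
  ext u
  unfold lw
  rw [coeff_weightedHomogeneousComponent]
  by_cases hu : coeff u M = 0
  · rw [hu, ite_self]
  rw [if_pos]
  rw [Finsupp.weight_apply, Finsupp.sum_fintype _ _ (fun y => zero_smul ℕ (om i y))]
  refine Finset.sum_eq_zero fun y _ => ?_
  cases y with
  | v p =>
    have h1 := monomial_le_degreeOf (VE.v p) (mem_support_iff.2 hu)
    rw [h p] at h1
    rw [Nat.le_zero.1 h1, zero_smul]
  | _ => exact smul_zero _

private theorem E06a_Sh {m n : ℕ} (i : Fin m) {A : Type*} [Add A] (s : VE m n → A) :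
    Sh Finset.univ i s = s := by
  funext y
  cases y with
  | S p =>
    show (if p.1 = i ∧ p.2 ∉ Finset.univ then s (VE.S p) + s (VE.v p) else s (VE.S p)) = _
    rw [if_neg]
    rintro ⟨_, h⟩
    exact h (Finset.mem_univ _)
  | _ => rfl

/-- The second elimination. -/
theorem E_elim {K : Type u} [Field K] [NumberField K] (m : ℕ) {n : ℕ} {E : ED K n} {C : ℝ}
    (hE : E.Ok C) :
    ∃ C₁ : ℝ, 1 ≤ C₁ ∧ ∀ (j : Fin m → ℕ) (b H : ℝ) (N₀ : MvPolynomial (VE m n) K), N₀ ≠ 0 →
      (∀ y, ¬ Oc Finset.univ 0 y → N₀.degreeOf y = 0) → 0 ≤ b → 0 ≤ H → QE j b H N₀ →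
      ∃ NN : MvPolynomial (VE m n) K, NN ≠ 0 ∧
        (∀ y, ¬ Oc Finset.univ m y → NN.degreeOf y = 0) ∧ QE j (C₁ * b) (C₁ * (H + b)) NN ∧
        ∀ (R : Type u) [CommRing R] [Algebra K R] (s : VE m n → R), aeval s (E.fQ m) = 0 →
          (∀ i, aeval s (E.fP i) = 0) → (∀ p, aeval s (E.al j p) = 0) →
          aeval s N₀ ∣ aeval s NN := by
  obtain ⟨C₁, hC₁, helim⟩ := elim_W m hE Finset.univ 0
  refine ⟨max C₁ 1, le_max_right _ _, ?_⟩
  intro j b H N₀ hN₀ hOc hb hH hQ
  have hh : HC Finset.univ 0 j (0 : Fin m → Fin n → MvPolynomial (Fin n) K) :=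
    fun i r hr => absurd (Finset.mem_univ r) hr
  obtain ⟨NN, R, h1, h2, h3, h4, h5⟩ := helim j 0 b H N₀ hh hN₀ hOc hQ
  refine ⟨NN (Fin.last m), h2, fun y hy => h3 (Fin.last m) y (by rwa [Fin.val_last]), ?_, ?_⟩
  · exact QE_mono (mul_le_mul_of_nonneg_right (le_max_left _ _) hb)
      (mul_le_mul_of_nonneg_right (le_max_left _ _) (add_nonneg hH hb)) h4
  intro A _ _ s hq hw hz
  have step : ∀ i : Fin m, aeval s (NN i.castSucc) ∣ aeval s (NN i.succ) := by
    intro i
    have hv : ∀ p, (ME E j 0 Finset.univ i (NN i.castSucc)).degreeOf (VE.v p) = 0 := by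
      intro p
      refine degreeOf_ME_eq_zero hh i _ _ (Or.inr (Or.inr (Or.inr (Or.inr ⟨?_, ?_, ?_, ?_⟩))))
      · exact h3 i.castSucc _ fun h => h.2 (Finset.mem_univ _)
      · intro t h
        cases h
      · intro t h
        cases h
      · intro r hr
        exact absurd (Finset.mem_univ r) hr
    have hlw := E06a_lw i _ hv
    have hd : aeval s (NN i.castSucc) ∣ aeval s (ME E j 0 Finset.univ i (NN i.castSucc)) := by
      refine dvd_ME hE hh i _ (fun t => h3 i.castSucc _ fun h => ?_) s hq ?_ (fun t => ?_)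
        fun r hr => absurd (Finset.mem_univ r) hr
      · exact lt_irrefl _ h.1
      · rw [E06a_Sh]
        exact hw i
      · rw [E06a_Sh]
        exact hz (i, t)
    rcases Nat.eq_zero_or_pos (R i) with hR | hR
    · rw [(h5 i).2.1, hR, hlw]
      exact hd
    · have h0 := (h5 i).2.2 0 hR
      rw [hlw] at h0
      rw [(h5 i).2.1, h0]
      have h6 : lw i (R i) (0 : MvPolynomial (VE m n) K) = 0 := by
        unfold lw
        exact map_zero _
      rw [h6, map_zero]
      exact dvd_zero _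
  have key : ∀ k : Fin (m + 1), aeval s N₀ ∣ aeval s (NN k) := by
    intro k
    induction k using Fin.induction with
    | zero => rw [h1]
    | succ i ih => exact ih.trans (step i)
  exact key _

end Pool.Agent.Lib.MP_17a322_nt.VP
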