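import Pool.Agent.Lib.MP_17a322_nt.VP.I1

/-!
The germ of a nonconstant sequence with large height in a minimal subgroup is generic over the
small germs.
-/

universe u

namespace Pool.Agent.Lib.MP_17a322_nt.VP

open MvPolynomial Height Filter
open Pool.Agent.Lib.MP_17a322_nt.RO
open Pool.Agent.Lib.MP_17a322_nt.VJ
open Pool.Agent.Lib.MP_17a322_nt.VN
open Pool.Agent.Lib.MP_17a322_nt.VA

section

variable {K : Type u} [Field K] [NumberField K] {N : ℕ} {B : AV K N} {H : ℕ → ℝ}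
  (hH : Tendsto H (hyperfilter ℕ : Filter ℕ) atTop)

/-- The coordinates are algebraic over the Noether coordinates. -/
theorem alg_coord {b : B.Pts (GK K)} {n e : ℕ} (nd : Noe B n e)
    (hl : lf (nd.l 0) (B.x b) ≠ 0) (a : Fin (N + 1)) (i : Fin (N + 1) ⊕ Fin (N + 1)) :
    IsAlgebraic (Algebra.adjoin (k0 K H hH) (Set.range (nd.s b)))
      (Sum.elim (fun i => B.x b i / B.x b a) (nd.y b) i) := by
  rw [← IntermediateField.isAlgebraic_adjoin_iff]
  rcases i with i | i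
  · have h1 : B.x b i / B.x b a = nd.y b i / nd.y b a := by
      unfold Noe.y
      rw [div_div_div_cancel_right₀ hl]
    rw [Sum.elim_inl, h1, div_eq_mul_inv]
    exact (y_alg nd b hl _).mul (y_alg nd b hl _).inv
  · exact y_alg nd b hl i

/-- If the Noether coordinates are dependent over the small germs, every function has small
proximity to `0` in the chart. -/
theorem dep_chart (Q : ℕ → B.Pts K) (hQ : FRM B.h H Q)
    (hc : ∃ c : ℝ, 0 < c ∧ ∀ᶠ i in (hyperfilter ℕ : Filter ℕ), c * H i ≤ B.h (Q i))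
    (hC : ∃ C : ℝ, 0 < C ∧ ∀ᶠ i in (hyperfilter ℕ : Filter ℕ), B.h (Q i) ≤ C * H i)
    (b : B.Pts (GK K)) (hb : IsGerm B Q b) {n e : ℕ} (hdim : B.dimIs n)
    (nd : Noe B n e) (κ : SC K) (hgood : nd.Good b) (hnr : NoRat B hH b)
    (hdep : ¬ AlgebraicIndependent (k0 K H hH) (nd.s b)) (a₀ a : Fin (N + 1))
    (h0 : B.x b a₀ ≠ 0) (ε : ℝ) (hε : 0 < ε) :
    ∀ᶠ i in (hyperfilter ℕ : Filter ℕ), jg (ChP nd κ Q Q a i)
        (fun _ : Fin 1 => aeval (fun c => B.x (Q i) c / B.x (Q i) a)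
          (X a₀ : MvPolynomial (Fin (N + 1)) K)) ≤ ε * H i := by
  classical
  have hHpos : ∀ᶠ i in (hyperfilter ℕ : Filter ℕ), 0 < H i := hH.eventually_gt_atTop 0
  by_cases ha : B.x b a = 0
  · have h1 : ∀ᶠ i in (hyperfilter ℕ : Filter ℕ), B.x (Q i) a = 0 := by
      by_contra hcon
      rw [not_eventually_iff] at hcon
      exact (hb.ne_iff a).2 hcon ha
    filter_upwards [h1, hHpos] with i h2 h3
    by_contra hcon
    rw [not_le] at hcon
    have h4 : 0 < ε * H i := mul_pos hε h3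
    obtain ⟨v, hv⟩ := jg_pos _ (h4.trans hcon)
    have h5 := hv.1
    rw [h2, map_zero] at h5
    refine Z_x_ne B (Q i) (funext fun c => ?_)
    exact (v.eq_zero).1 (le_antisymm (h5 c) (v.nonneg _))
  rw [algebraicIndependent_iff] at hdep
  push Not at hdep
  obtain ⟨q, hq, hq0⟩ := hdep
  obtain ⟨q₁, hq₁, -, hq₁t⟩ := E3b_factor (nd.s b) q hq0 hq
  obtain ⟨z, hz0, hz⟩ := Z_push (Zideal hH nd (fun _ : Fin 1 => (X a₀ : MvPolynomial (Fin (N + 1)) K))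
    b b a) (x := Sum.elim (fun i => B.x b i / B.x b a) (nd.y b))
    (t := nd.s b) (fun f hf => Ideal.mem_sup_left hf) (alg_coord hH nd hgood.1 a)
    (f := rename (Sum.inl ∘ Sum.inl) (MvPolynomial.map (algebraMap K (k0 K H hH))
      (X a₀ : MvPolynomial (Fin (N + 1)) K)))
    (Ideal.mem_sup_right (Ideal.subset_span ⟨0, rfl⟩)) (by
      rw [Z_aeval_g, aeval_X]
      exact div_ne_zero h0 ha)
  have hq₁I : rename Sum.inr q₁ ∈ Zideal hH nd
      (fun _ : Fin 1 => (X a₀ : MvPolynomial (Fin (N + 1)) K)) b b a := by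
    refine Ideal.mem_sup_left ?_
    rw [RingHom.mem_ker]
    show aeval _ (rename Sum.inr q₁) = 0
    rw [aeval_rename]
    exact hq₁t
  have hrel : IsRelPrime z q₁ := by
    refine IsRelPrime.symm ((Irreducible.isRelPrime_iff_not_dvd hq₁).mpr fun hd => ?_)
    obtain ⟨c, hc⟩ := hd
    apply hz0
    rw [hc, map_mul, hq₁t, zero_mul]
  have hpair : ∀ z z' : MvPolynomial (Fin n) (k0 K H hH),
      rename Sum.inr z ∈ Zideal hH nd (fun _ : Fin 1 => (X a₀ : MvPolynomial (Fin (N + 1)) K)) b b a →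
      rename Sum.inr z' ∈ Zideal hH nd (fun _ : Fin 1 => (X a₀ : MvPolynomial (Fin (N + 1)) K)) b b a →
      (aeval (nd.s b) z ≠ 0 ∨ aeval (nd.s b) z' ≠ 0) → ∀ ζ ζ' : ℕ → K,
      gm ζ = aeval (nd.s b) z → gm ζ' = aeval (nd.s b) z' →
      (∀ᶠ i in (hyperfilter ℕ : Filter ℕ), nd.gn κ (Q i) (ζ i) (ζ' i) ≤ ε / 2 * H i) →
      ∀ᶠ i in (hyperfilter ℕ : Filter ℕ), jg (ChP nd κ Q Q a i)
        (fun _ : Fin 1 => aeval (fun c => B.x (Q i) c / B.x (Q i) a)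
          (X a₀ : MvPolynomial (Fin (N + 1)) K)) ≤ ε * H i := by
    intro z z' hz hz' h0 ζ ζ' hζ hζ' hs
    have h1 := Z_pair hH nd κ hb hb hgood.1 a _ hz hz' h0 hζ hζ' (ε / 2) (by positivity)
    filter_upwards [h1, hs] with i g1 g2
    linarith
  rcases Nat.lt_or_ge n 2 with h2 | h2
  · obtain ⟨α, β, hαβ⟩ := Z_isCoprime (by omega : n ≤ 1) hrel
    have h3 : rename Sum.inr (1 : MvPolynomial (Fin n) (k0 K H hH)) ∈
        Zideal hH nd (fun _ : Fin 1 => (X a₀ : MvPolynomial (Fin (N + 1)) K)) b b a := by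
      rw [← hαβ, map_add, map_mul, map_mul]
      exact Ideal.add_mem _ (Ideal.mul_mem_left _ _ hz) (Ideal.mul_mem_left _ _ hq₁I)
    refine hpair 1 0 h3 (by rw [map_zero]; exact Ideal.zero_mem _)
      (Or.inl (by rw [map_one]; exact one_ne_zero)) (fun _ => 1) (fun _ => 0)
      (by rw [map_one]; rfl) (by rw [map_zero]; rfl) ?_
    filter_upwards [hHpos] with i hi
    rw [Z_gn_one]
    positivity
  · obtain ⟨k, rfl⟩ := Nat.exists_eq_add_of_le' h2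
    obtain ⟨ζ, hζ⟩ := exists_gm (aeval (nd.s b) z)
    have hζ' : gm (fun _ => (0 : K)) = aeval (nd.s b) q₁ := by
      rw [hq₁t]
      rfl
    exact hpair z q₁ hz hq₁I (Or.inl hz0) ζ (fun _ => 0) hζ hζ'
      (no_gain B hH Q hQ hc hC b hb hdim nd κ hgood hnr z q₁ hrel (Or.inl hz0) ζ _ hζ hζ' (ε / 2)
        (by positivity))

end

/-- Independence over the small germs. -/
theorem independent {K : Type u} [Field K] [NumberField K] {N : ℕ} (B : AV K N) {H : ℕ → ℝ}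
    (hH : Tendsto H (hyperfilter ℕ : Filter ℕ) atTop) (Q₀ : ℕ → B.Pts K)
    (b : B.Pts (GK K)) (hQ₀ : IsGerm B Q₀ b) (hmin : MinSub B b)
    (hnr : ∀ p : B.Pts K, NoRat B hH (b - B.img (Algebra.ofId K (GK K)) p))
    (hsh : ∀ p : B.Pts K, FRM B.h H (fun ν => Q₀ ν - p) ∧
      (∃ c : ℝ, 0 < c ∧ ∀ᶠ i in (hyperfilter ℕ : Filter ℕ), c * H i ≤ B.h (Q₀ i - p)) ∧
      (∃ C : ℝ, 0 < C ∧ ∀ᶠ i in (hyperfilter ℕ : Filter ℕ), B.h (Q₀ i - p) ≤ C * H i))
    {n : ℕ} (hn : B.dimIs n) : (n : Cardinal.{u}) ≤ tdeg (k0 K H hH) (B.x b) := by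
  classical
  obtain ⟨s, e, nd, κ, hcov⟩ := exists_cover B hn
  obtain ⟨p₁, hgood⟩ := exists_shift B Q₀ b hQ₀ hmin e nd
  refine le_trans ?_ (tdeg_shift (k := k0 K H hH) b p₁)
  obtain ⟨q₁, hq₁⟩ : ∃ q₁, q₁ = B.img (Algebra.ofId K (GK K)) p₁ := ⟨_, rfl⟩
  have hp₁ : B.Img (Algebra.ofId K (GK K)) p₁ q₁ := by
    rw [hq₁]
    exact Z_img_img _ _
  have hQb : IsGerm B (fun ν => Q₀ ν - p₁) (b - q₁) := (hQ₀.add_sub (IsGerm.const p₁ hp₁)).2
  rw [← hq₁]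
  by_contra hcon
  obtain ⟨hfrm, ⟨c, hc0, hc⟩, hupp⟩ := hsh p₁
  obtain ⟨a₀, ha₀⟩ : ∃ a, B.x (b - q₁) a ≠ 0 := by
    by_contra h
    push Not at h
    exact Z_x_ne B (b - q₁) (funext h)
  have hdep : ∀ j : Fin s, ¬ AlgebraicIndependent (k0 K H hH) ((nd j).s (b - q₁)) := fun j h =>
    hcon (tdeg_of_indep (nd j) (b - q₁) h)
  obtain ⟨M, hM⟩ : ∃ M : ℝ, M = ((Fintype.card (Fin (N + 1) × Fin s) : ℕ) : ℝ) + 1 := ⟨_, rfl⟩
  have hM0 : 0 < M := by
    rw [hM]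
    positivity
  have hall : ∀ᶠ ν in (hyperfilter ℕ : Filter ℕ), ∀ x : Fin (N + 1) × Fin s,
      jg (ChP (nd x.2) κ (fun ν => Q₀ ν - p₁) (fun ν => Q₀ ν - p₁) x.1 ν)
        (fun _ : Fin 1 => aeval (fun c => B.x (Q₀ ν - p₁) c / B.x (Q₀ ν - p₁) x.1)
          (X a₀ : MvPolynomial (Fin (N + 1)) K)) ≤ c / (2 * M) * H ν := by
    rw [eventually_all]
    exact fun x => dep_chart hH _ hfrm ⟨c, hc0, hc⟩ hupp (b - q₁) hQb hn (nd x.2) κ
      (by rw [hq₁]; exact hgood x.2) (by rw [hq₁]; exact hnr p₁) (hdep x.2) a₀ x.1 ha₀ _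
      (by positivity)
  obtain ⟨ν, h1, h2, h3, h4⟩ := (hall.and (((hQb.ne_iff a₀).1 ha₀).and
    ((hH.eventually_gt_atTop 0).and hc))).exists
  have h5 := Z_total (d := 1) (fun _ : Fin 1 => (X a₀ : MvPolynomial (Fin (N + 1)) K))
    (fun _ => isHomogeneous_X K a₀) (B.x (Q₀ ν - p₁)) (Z_x_ne B _) (by
    intro h0
    have h6 := congrFun h0 0
    rw [aeval_X] at h6
    exact h2 h6) (fun c v => (nd c).In κ v (Q₀ ν - p₁)) (fun v => hcov K v _)
  have h6 : logHeight (fun _ : Fin 1 => aeval (B.x (Q₀ ν - p₁))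
      (X a₀ : MvPolynomial (Fin (N + 1)) K)) = 0 := logHeight_eq_zero_of_subsingleton _
  have h7 : ∑ x : Fin (N + 1) × Fin s, jg (ChC (B.x (Q₀ ν - p₁)) x.1
        fun v => (nd x.2).In κ v (Q₀ ν - p₁))
      (fun _ : Fin 1 => aeval (fun b => B.x (Q₀ ν - p₁) b / B.x (Q₀ ν - p₁) x.1)
        (X a₀ : MvPolynomial (Fin (N + 1)) K)) ≤
      ∑ x : Fin (N + 1) × Fin s, c / (2 * M) * H ν :=
    Finset.sum_le_sum fun x _ => h1 x
  rw [Finset.sum_const, Finset.card_univ, nsmul_eq_mul] at h7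
  have h8 : ((Fintype.card (Fin (N + 1) × Fin s) : ℕ) : ℝ) * (c / (2 * M) * H ν) ≤
      c / 2 * H ν := by
    have h7 : ((Fintype.card (Fin (N + 1) × Fin s) : ℕ) : ℝ) ≤ M := by
      rw [hM]
      linarith
    have h8 : 0 ≤ c / (2 * M) * H ν := by positivity
    calc _ ≤ M * (c / (2 * M) * H ν) := mul_le_mul_of_nonneg_right h7 h8
      _ = c / 2 * H ν := by field_simp
  rw [h6, Nat.cast_one, one_mul, sub_zero] at h5
  have h9 : B.h (Q₀ ν - p₁) ≤ c / 2 * H ν := h5.trans (h7.trans h8)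
  have h10 : 0 < c * H ν := mul_pos hc0 h3
  linarith

end Pool.Agent.Lib.MP_17a322_nt.VP
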