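import Pool.Agent.Lib.MP_17a322_nt.Mb

/-!
The law of large numbers for the index (Chebyshev).
-/

namespace Pool.Agent.Lib.MP_17a322_nt.VP

open Finset

theorem L_sum_zero (d : ℕ) (hd : 0 < d) :
    ∑ u ∈ range (d + 1), ((1 : ℝ) / 2 - u / d) = 0 := by
  have hd' : (d : ℝ) ≠ 0 := by exact_mod_cast hd.ne'
  have h1 : (∑ u ∈ range (d + 1), (u : ℝ)) * 2 = (d + 1) * d := by
    have h2 := Finset.sum_range_id_mul_two (d + 1)
    rw [Nat.add_sub_cancel] at h2
    have h3 : (((∑ i ∈ range (d + 1), i) * 2 : ℕ) : ℝ) = (((d + 1) * d : ℕ) : ℝ) := by rw [h2]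
    push_cast at h3
    exact h3
  have h4 : ∑ u ∈ range (d + 1), ((u : ℝ) / d) = (d + 1) / 2 := by
    rw [← Finset.sum_div, div_eq_div_iff hd' two_ne_zero]
    exact h1
  rw [Finset.sum_sub_distrib, h4, Finset.sum_const, Finset.card_range, nsmul_eq_mul]
  push_cast
  ring

/-- The number of the multi-indices `u ≤ d` with `∑ u i / d i < (1 / 2 - δ) m` is at most
`∏ (d i + 1) / (4 m δ ^ 2)`. -/
theorem L_count {ι : Type*} [Fintype ι] [DecidableEq ι] (d : ι → ℕ) (hd : ∀ i, 0 < d i) (δ : ℝ)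
    (hδ : 0 < δ) :
    4 * (Fintype.card ι : ℝ) * δ ^ 2 *
      #{u ∈ Fintype.piFinset fun i => range (d i + 1) |
        ∑ i, (u i : ℝ) / d i < (1 / 2 - δ) * Fintype.card ι} ≤ ∏ i, ((d i : ℝ) + 1) := by
  classical
  obtain ⟨T, hT⟩ : ∃ T : Finset (ι → ℕ), T = Fintype.piFinset fun i => range (d i + 1) :=
    ⟨_, rfl⟩
  obtain ⟨m, hm⟩ : ∃ m : ℝ, m = Fintype.card ι := ⟨_, rfl⟩
  obtain ⟨g, hg⟩ : ∃ g : ι → ℕ → ℝ, ∀ i u, g i u = 1 / 2 - u / d i := ⟨_, fun _ _ => rfl⟩
  have hm0 : 0 ≤ m := by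
    rw [hm]
    positivity
  rw [← hT, ← hm]
  -- the second moment
  have hcard : ∑ u ∈ T, (1 : ℝ) = ∏ i, ((d i : ℝ) + 1) := by
    rw [hT, Finset.sum_const, Fintype.card_piFinset, nsmul_eq_mul, mul_one]
    push_cast
    refine Finset.prod_congr rfl fun i _ => ?_
    rw [Finset.card_range]
    push_cast
    rfl
  have hcross : ∀ i k, i ≠ k → ∑ u ∈ T, g i (u i) * g k (u k) = 0 := by
    intro i k hik
    have h1 : ∑ u ∈ T, ∏ l, (if l = i then g i (u l) else if l = k then g k (u l) else 1) = 0 := by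
      rw [hT, ← Finset.prod_univ_sum (fun l => range (d l + 1))
        fun l (u : ℕ) => if l = i then g i u else if l = k then g k u else (1 : ℝ)]
      refine Finset.prod_eq_zero (Finset.mem_univ i) ?_
      simp only [if_true, hg]
      exact L_sum_zero (d i) (hd i)
    rw [← h1]
    refine Finset.sum_congr rfl fun u _ => ?_
    rw [← Finset.mul_prod_erase univ _ (Finset.mem_univ i),
      ← Finset.mul_prod_erase (univ.erase i) _ (Finset.mem_erase.2 ⟨hik.symm, Finset.mem_univ k⟩),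
      Finset.prod_eq_one]
    · simp only [if_true, mul_one, hik.symm, if_false]
    · intro l hl
      rw [Finset.mem_erase, Finset.mem_erase] at hl
      simp only [hl.1, hl.2.1, if_false]
  have hsq : ∀ i, ∑ u ∈ T, g i (u i) * g i (u i) ≤ 1 / 4 * ∏ i, ((d i : ℝ) + 1) := by
    intro i
    rw [← hcard, Finset.mul_sum]
    refine Finset.sum_le_sum fun u hu => ?_
    rw [hT, Fintype.mem_piFinset] at hu
    have h1 := hu i
    rw [Finset.mem_range] at h1
    have h2 : (u i : ℝ) ≤ d i := by exact_mod_cast Nat.lt_succ_iff.1 h1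
    have hd' : (0 : ℝ) < d i := by exact_mod_cast hd i
    have h3 : (u i : ℝ) / d i ≤ 1 := (div_le_one hd').2 h2
    have h4 : 0 ≤ (u i : ℝ) / d i := by positivity
    rw [hg]
    nlinarith
  have h2 : ∑ u ∈ T, (∑ i, g i (u i)) ^ 2 ≤ m / 4 * ∏ i, ((d i : ℝ) + 1) := by
    have h3 : ∀ u : ι → ℕ, (∑ i, g i (u i)) ^ 2 = ∑ i, ∑ k, g i (u i) * g k (u k) := fun u => by
      rw [sq, Finset.sum_mul_sum]
    simp only [h3]
    rw [Finset.sum_comm]
    have h4 : ∀ i, ∑ u ∈ T, ∑ k, g i (u i) * g k (u k) ≤ 1 / 4 * ∏ i, ((d i : ℝ) + 1) := by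
      intro i
      rw [Finset.sum_comm, Finset.sum_eq_single i]
      · exact hsq i
      · intro k _ hk
        exact hcross i k hk.symm
      · intro h
        exact absurd (Finset.mem_univ i) h
    refine (Finset.sum_le_sum fun i _ => h4 i).trans (le_of_eq ?_)
    rw [Finset.sum_const, Finset.card_univ, nsmul_eq_mul, ← hm]
    ring
  have h3 : (#{u ∈ T | ∑ i, (u i : ℝ) / d i < (1 / 2 - δ) * m} : ℝ) * (δ * m) ^ 2 ≤
      m / 4 * ∏ i, ((d i : ℝ) + 1) := by
    refine le_trans ?_ h2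
    rw [← nsmul_eq_mul, ← Finset.sum_const]
    refine (Finset.sum_le_sum fun u hu => ?_).trans (Finset.sum_le_sum_of_subset_of_nonneg
      (Finset.filter_subset _ T) fun u _ _ => sq_nonneg (∑ i, g i (u i)))
    rw [Finset.mem_filter] at hu
    have h4 : ∑ i, g i (u i) = m / 2 - ∑ i, (u i : ℝ) / d i := by
      simp only [hg]
      rw [Finset.sum_sub_distrib, Finset.sum_const, Finset.card_univ, nsmul_eq_mul, ← hm]
      ring
    have h5 : δ * m ≤ ∑ i, g i (u i) := by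
      rw [h4]
      have := hu.2
      linarith
    exact pow_le_pow_left₀ (by positivity) h5 2
  rcases hm0.eq_or_lt with h0 | h0
  · rw [← h0]
    simp only [mul_zero, zero_mul]
    positivity
  · refine le_of_mul_le_mul_left ?_ (show (0 : ℝ) < m / 4 by positivity)
    refine le_trans (le_of_eq ?_) h3
    ring

/-- The form for a fixed number `m` of blocks. -/
theorem L_count' {m : ℕ} (d : Fin m → ℕ) (hd : ∀ i, 0 < d i) (δ : ℝ) (hδ : 0 < δ) :
    4 * (m : ℝ) * δ ^ 2 *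
      #{u ∈ Fintype.piFinset fun i => range (d i + 1) |
        ∑ i, (u i : ℝ) / d i < (1 / 2 - δ) * m} ≤ ∏ i, ((d i : ℝ) + 1) := by
  have h := L_count d hd δ hδ
  rwa [Fintype.card_fin] at h

/-- The form with the weights `4 ^ j i` and degrees `4 ^ (J - j i)`. -/
theorem L_count4 {m : ℕ} (J : ℕ) (j : Fin m → ℕ) (hj : ∀ i, j i ≤ J) (δ : ℝ) (hδ : 0 < δ) :
    4 * (m : ℝ) * δ ^ 2 *
      #{u ∈ Fintype.piFinset fun i => range (4 ^ (J - j i) + 1) |
        ∑ i, (4 : ℝ) ^ j i * u i < (1 / 2 - δ) * m * 4 ^ J} ≤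
      ∏ i, ((4 : ℝ) ^ (J - j i) + 1) := by
  have h := L_count' (fun i => 4 ^ (J - j i)) (fun i => by positivity) δ hδ
  push_cast at h
  refine le_trans (le_of_eq ?_) h
  congr 3
  refine Finset.filter_congr fun u _ => ?_
  have h4 : (0 : ℝ) < 4 ^ J := by positivity
  have h5 : ∑ i, (u i : ℝ) / 4 ^ (J - j i) = (∑ i, (4 : ℝ) ^ j i * u i) / 4 ^ J := by
    rw [Finset.sum_div]
    refine Finset.sum_congr rfl fun i _ => ?_
    rw [div_eq_div_iff (by positivity) (by positivity)]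
    have h6 : (4 : ℝ) ^ J = 4 ^ j i * 4 ^ (J - j i) := by
      rw [← pow_add, Nat.add_sub_cancel' (hj i)]
    rw [h6]
    ring
  rw [h5, div_lt_iff₀ h4]

end Pool.Agent.Lib.MP_17a322_nt.VP
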