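import Pool.Agent.Lib.MP_17a322_nt.VA.L0

/-!
A uniform bound for the degree of a solution of a system of polynomial equations.
-/

universe u

namespace Pool.Agent.Lib.MP_17a322_nt.VP

open MvPolynomial Filter

section

variable (k : ℕ → Type u) [∀ D, Field (k D)]

/-- The sequences which vanish along the hyperfilter. -/
def M_J : Ideal (∀ D, k D) where
  carrier := {x | ∀ᶠ D in (hyperfilter ℕ : Filter ℕ), x D = 0}
  add_mem' := by
    intro x y hx hy
    filter_upwards [hx, hy] with D h1 h2
    rw [Pi.add_apply, h1, h2, add_zero]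
  zero_mem' := Eventually.of_forall fun _ => rfl
  smul_mem' := by
    intro c x hx
    filter_upwards [hx] with D h1
    rw [smul_eq_mul, Pi.mul_apply, h1, mul_zero]

variable {k}

theorem M_mem {x : ∀ D, k D} : x ∈ M_J k ↔ ∀ᶠ D in (hyperfilter ℕ : Filter ℕ), x D = 0 := Iff.rfl

theorem M_max : (M_J k).IsMaximal := by
  rw [Ideal.isMaximal_iff]
  constructor
  · intro h
    obtain ⟨D, hD⟩ := (M_mem.1 h).exists
    exact one_ne_zero hD
  · intro J x hJ hx hxJ
    have h1 : ∀ᶠ D in (hyperfilter ℕ : Filter ℕ), x D ≠ 0 := by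
      have h2 := (Ultrafilter.eventually_not (f := hyperfilter ℕ) (p := fun D => x D = 0)).2
        fun h => hx (M_mem.2 h)
      exact h2
    have h2 : (1 : ∀ D, k D) - (fun D => (x D)⁻¹) * x ∈ M_J k := by
      rw [M_mem]
      filter_upwards [h1] with D hD
      rw [Pi.sub_apply, Pi.mul_apply, Pi.one_apply, inv_mul_cancel₀ hD, sub_self]
    have h3 : (fun D => (x D)⁻¹) * x ∈ J := J.mul_mem_left _ hxJ
    have h4 := J.add_mem (hJ h2) h3
    rwa [sub_add_cancel] at h4

end

theorem M_aeval_sum {k E : Type*} [CommRing k] [CommRing E] [Algebra k E] {n : ℕ}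
    {S : Finset (Fin n →₀ ℕ)} (f : MvPolynomial (Fin n) k) (hf : f.support ⊆ S) (x : Fin n → E) :
    aeval x f = ∑ m ∈ S, algebraMap k E (coeff m f) * ∏ j, x j ^ m j := by
  rw [aeval_def, eval₂_eq']
  refine Finset.sum_subset hf fun m _ hm => ?_
  rw [notMem_support_iff.1 hm, map_zero, zero_mul]

/-- A uniform bound for the degree of a solution of a system of polynomial equations. -/
theorem M_unif (n : ℕ) (S : Finset (Fin n →₀ ℕ)) (r : ℕ) : ∃ D : ℕ, ∀ (k : Type u) [Field k]
    [CharZero k] (f : Fin r → MvPolynomial (Fin n) k), (∀ i, (f i).support ⊆ S) →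
    (∃ (E : Type u) (_ : Field E) (_ : Algebra k E) (x : Fin n → E), ∀ i, aeval x (f i) = 0) →
    ∃ (E : Type u) (_ : Field E) (_ : Algebra k E) (x : Fin n → E), FiniteDimensional k E ∧
      Module.finrank k E ≤ D ∧ ∀ i, aeval x (f i) = 0 := by
  classical
  by_contra hcon
  push Not at hcon
  choose k _ _ f hf hE hno using hcon
  choose E _ _ x hx using hE
  have : (M_J k).IsMaximal := M_max
  have : (M_J E).IsMaximal := M_max
  let _ : Field ((∀ D, k D) ⧸ M_J k) := Ideal.Quotient.field _
  let _ : Field ((∀ D, E D) ⧸ M_J E) := Ideal.Quotient.field _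
  obtain ⟨q, hq⟩ : ∃ q, q = Ideal.Quotient.mk (M_J k) := ⟨_, rfl⟩
  have hqs : Function.Surjective q := by rw [hq]; exact Ideal.Quotient.mk_surjective
  have hq0 : ∀ a, q a = 0 ↔ ∀ᶠ D in (hyperfilter ℕ : Filter ℕ), a D = 0 := by
    intro a
    rw [hq, Ideal.Quotient.eq_zero_iff_mem, M_mem]
  have hchar : CharZero ((∀ D, k D) ⧸ M_J k) := by
    refine charZero_of_inj_zero fun m hm => ?_
    have h1 : q (fun _ => (m : k _)) = 0 := by
      have h2 : (fun D => (m : k D)) = ((m : ℕ) : ∀ D, k D) := rfl
      rw [h2, map_natCast, hm]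
    obtain ⟨D, hD⟩ := ((hq0 _).1 h1).exists
    exact_mod_cast hD
  -- the limit system
  obtain ⟨g, hg⟩ : ∃ g : Fin r → MvPolynomial (Fin n) (∀ D, k D), ∀ i m,
      coeff m (g i) = if m ∈ S then fun D => coeff m (f D i) else 0 := by
    refine ⟨fun i => ∑ m ∈ S, monomial m fun D => coeff m (f D i), fun i m => ?_⟩
    rw [coeff_sum]
    simp_rw [coeff_monomial]
    rw [Finset.sum_ite_eq' S m]
  have hgS : ∀ i, (g i).support ⊆ S := by
    intro i m hm
    by_contra h
    rw [mem_support_iff, hg, if_neg h] at hm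
    exact hm rfl
  have hgf : ∀ D i, map (Pi.evalRingHom k D) (g i) = f D i := by
    intro D i
    ext m
    rw [coeff_map, hg]
    split_ifs with h
    · rfl
    · rw [map_zero]
      exact (notMem_support_iff.1 fun h' => h (hf D i h')).symm
  -- the ideal is proper
  obtain ⟨I, hI⟩ : ∃ I : Ideal (MvPolynomial (Fin n) ((∀ D, k D) ⧸ M_J k)),
    I = Ideal.span (Set.range fun i => map q (g i)) := ⟨_, rfl⟩
  obtain ⟨ψ, hψ⟩ : ∃ ψ : ((∀ D, k D) ⧸ M_J k) →+* ((∀ D, E D) ⧸ M_J E), ∀ a,
      ψ (q a) = Ideal.Quotient.mk (M_J E) fun D => algebraMap (k D) (E D) (a D) := by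
    refine ⟨Ideal.Quotient.lift (M_J k) ((Ideal.Quotient.mk (M_J E)).comp
      (RingHom.pi fun D => (algebraMap (k D) (E D)).comp (Pi.evalRingHom k D))) ?_, fun a => ?_⟩
    · intro a ha
      rw [RingHom.comp_apply, Ideal.Quotient.eq_zero_iff_mem, M_mem]
      filter_upwards [M_mem.1 ha] with D hD
      show algebraMap (k D) (E D) (a D) = 0
      rw [hD, map_zero]
    · rw [hq, Ideal.Quotient.lift_mk]
      rfl
  have hproper : I ≠ ⊤ := by
    intro htop
    obtain ⟨y, hy⟩ : ∃ y : Fin n → ((∀ D, E D) ⧸ M_J E), y = fun j =>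
      Ideal.Quotient.mk (M_J E) fun D => x D j := ⟨_, rfl⟩
    have h1 : ∀ G ∈ I, eval₂ ψ y G = 0 := by
      intro G hG
      rw [hI] at hG
      induction hG using Submodule.span_induction with
      | mem G hG =>
        obtain ⟨i, rfl⟩ := hG
        show eval₂ ψ y (map q (g i)) = 0
        rw [eval₂_map, eval₂_eq']
        have h2 : ∀ m ∈ (g i).support, (ψ.comp q) (coeff m (g i)) * ∏ j, y j ^ m j =
            Ideal.Quotient.mk (M_J E) fun D =>
              algebraMap (k D) (E D) (coeff m (f D i)) * ∏ j, x D j ^ m j := by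
          intro m hm
          rw [RingHom.comp_apply, hψ, hg, if_pos (hgS i hm), hy]
          simp_rw [← map_pow, ← map_prod, ← map_mul]
          congr 1
          funext D
          rw [Pi.mul_apply, Finset.prod_apply]
          rfl
        rw [Finset.sum_congr rfl h2, ← map_sum, Ideal.Quotient.eq_zero_iff_mem, M_mem]
        refine Eventually.of_forall fun D => ?_
        have h3 := hx D i
        rw [M_aeval_sum (f D i) (S := (g i).support) ?_] at h3
        · rw [Finset.sum_apply]
          exact h3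
        · intro m hm
          rw [mem_support_iff] at hm ⊢
          intro h0
          refine hm ?_
          rw [← hgf, coeff_map, h0, map_zero]
      | zero => exact eval₂_zero _ _
      | add a b _ _ ha hb => rw [eval₂_add, ha, hb, add_zero]
      | smul c a _ ha => rw [smul_eq_mul, eval₂_mul, ha, mul_zero]
    have h2 := h1 1 (by rw [htop]; exact Submodule.mem_top)
    rw [eval₂_one] at h2
    exact one_ne_zero h2
  -- a solution in a finite extension
  obtain ⟨P, hP, hIP⟩ := Ideal.exists_le_maximal I hproper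
  let _ : Field (MvPolynomial (Fin n) ((∀ D, k D) ⧸ M_J k) ⧸ P) := Ideal.Quotient.field _
  have hfin : Module.Finite ((∀ D, k D) ⧸ M_J k)
      (MvPolynomial (Fin n) ((∀ D, k D) ⧸ M_J k) ⧸ P) :=
    finite_of_finite_type_of_isJacobsonRing _ _
  obtain ⟨α, hα⟩ := Field.exists_primitive_element ((∀ D, k D) ⧸ M_J k)
    (MvPolynomial (Fin n) ((∀ D, k D) ⧸ M_J k) ⧸ P)
  have hαi : IsIntegral ((∀ D, k D) ⧸ M_J k) α := Algebra.IsIntegral.isIntegral α
  have h1 : ∀ y : MvPolynomial (Fin n) ((∀ D, k D) ⧸ M_J k) ⧸ P,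
      ∃ h : Polynomial ((∀ D, k D) ⧸ M_J k), Polynomial.aeval α h = y := by
    intro y
    have h2 : y ∈ (IntermediateField.adjoin ((∀ D, k D) ⧸ M_J k) {α}) := by
      rw [hα]
      exact IntermediateField.mem_top
    rw [← IntermediateField.mem_toSubalgebra,
      IntermediateField.adjoin_simple_toSubalgebra_of_isAlgebraic hαi.isAlgebraic,
      Algebra.adjoin_singleton_eq_range_aeval] at h2
    exact h2
  choose h hh using fun j : Fin n => h1 (Ideal.Quotient.mk P (X j))
  have h2 : ∀ i, minpoly ((∀ D, k D) ⧸ M_J k) α ∣ aeval h (map q (g i)) := by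
    intro i
    refine minpoly.dvd _ _ ?_
    have h3 : Polynomial.aeval α (aeval h (map q (g i))) =
        aeval (fun j => Ideal.Quotient.mk P (X j)) (map q (g i)) := by
      rw [MvPolynomial.comp_aeval_apply]
      congr 2
      funext j
      exact hh j
    rw [h3]
    have h4 : aeval (fun j => Ideal.Quotient.mk P (X j)) (map q (g i)) =
        Ideal.Quotient.mk P (map q (g i)) := by
      have h5 : (aeval fun j => Ideal.Quotient.mk P (X j)) =
          Ideal.Quotient.mkₐ ((∀ D, k D) ⧸ M_J k) P := by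
        refine MvPolynomial.algHom_ext fun j => ?_
        rw [aeval_X]
        rfl
      rw [h5]
      rfl
    rw [h4, Ideal.Quotient.eq_zero_iff_mem]
    refine hIP ?_
    rw [hI]
    exact Ideal.subset_span ⟨i, rfl⟩
  choose c hc using h2
  -- lifting
  obtain ⟨p', hp'm, hp'd, hp'mon⟩ := Polynomial.lifts_and_natDegree_eq_and_monic (f := q)
    (p := minpoly ((∀ D, k D) ⧸ M_J k) α) (by
      rw [Polynomial.lifts_iff_coeff_lifts]
      exact fun m => hqs _) (minpoly.monic hαi)
  have h3 : ∀ y : Polynomial ((∀ D, k D) ⧸ M_J k), ∃ y' : Polynomial (∀ D, k D),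
      Polynomial.map q y' = y := fun y => Polynomial.map_surjective q hqs y
  choose h' hh' using fun j => h3 (h j)
  choose c' hc' using fun i => h3 (c i)
  have h4 : ∀ i, ∀ᶠ D in (hyperfilter ℕ : Filter ℕ),
      Polynomial.map (Pi.evalRingHom k D) (aeval h' (g i) - p' * c' i) = 0 := by
    intro i
    have h5 : Polynomial.map q (aeval h' (g i) - p' * c' i) = 0 := by
      rw [Polynomial.map_sub, Polynomial.map_mul, hp'm, hc', ← hc, sub_eq_zero]
      have h6 : ∀ G : MvPolynomial (Fin n) (∀ D, k D),
          Polynomial.map q (aeval h' G) = aeval h (map q G) := by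
        intro G
        induction G using MvPolynomial.induction_on with
        | C a =>
          rw [map_C, aeval_C, aeval_C]
          exact Polynomial.map_C _
        | add a b ha hb => rw [map_add, Polynomial.map_add, ha, hb, map_add, map_add]
        | mul_X a j ha =>
          rw [map_mul, Polynomial.map_mul, ha, aeval_X, hh', map_mul, map_mul, map_X, aeval_X]
      exact h6 _
    have h6 : ∀ m ∈ (aeval h' (g i) - p' * c' i).support, ∀ᶠ D in (hyperfilter ℕ : Filter ℕ),
        (aeval h' (g i) - p' * c' i).coeff m D = 0 := by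
      intro m _
      rw [← hq0, ← Polynomial.coeff_map, h5, Polynomial.coeff_zero]
    rw [← eventually_all_finset] at h6
    filter_upwards [h6] with D hD
    ext m
    rw [Polynomial.coeff_map, Polynomial.coeff_zero]
    by_cases hm : m ∈ (aeval h' (g i) - p' * c' i).support
    · exact hD m hm
    · rw [Polynomial.notMem_support_iff.1 hm, map_zero]
  obtain ⟨D, hD1, hD2⟩ := ((eventually_all.2 h4).and
    ((eventually_ge_atTop p'.natDegree).filter_mono Nat.hyperfilter_le_atTop)).exists
  obtain ⟨pD, hpD⟩ : ∃ pD, pD = Polynomial.map (Pi.evalRingHom k D) p' := ⟨_, rfl⟩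
  have hpDm : pD.Monic := by rw [hpD]; exact hp'mon.map _
  have hpDd : pD.natDegree = p'.natDegree := by rw [hpD]; exact hp'mon.natDegree_map _
  have hpD1 : ¬ IsUnit pD := by
    intro hu
    have h5 := Polynomial.natDegree_eq_zero_of_isUnit hu
    have h6 := minpoly.natDegree_pos hαi
    rw [hpDd, hp'd] at h5
    omega
  obtain ⟨π, hπ, hπp⟩ := WfDvdMonoid.exists_irreducible_factor hpD1 hpDm.ne_zero
  have : Fact (Irreducible π) := ⟨hπ⟩
  have hπ0 := hπ.ne_zero
  refine absurd (hno D (AdjoinRoot π) inferInstance inferInstance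
    (fun j => Polynomial.aeval (AdjoinRoot.root π) (Polynomial.map (Pi.evalRingHom k D) (h' j)))
    ?_ ?_) ?_
  · exact (AdjoinRoot.powerBasis hπ0).finite
  · rw [(AdjoinRoot.powerBasis hπ0).finrank, AdjoinRoot.powerBasis_dim]
    exact (Polynomial.natDegree_le_of_dvd hπp hpDm.ne_zero).trans (hpDd.le.trans hD2)
  · push Not
    intro i
    have h5 := hD1 i
    rw [Polynomial.map_sub, Polynomial.map_mul, sub_eq_zero, ← hpD] at h5
    have h6 : ∀ G : MvPolynomial (Fin n) (∀ D, k D),
        aeval (fun j => Polynomial.map (Pi.evalRingHom k D) (h' j)) (map (Pi.evalRingHom k D) G) =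
          Polynomial.map (Pi.evalRingHom k D) (aeval h' G) := by
      intro G
      induction G using MvPolynomial.induction_on with
      | C a =>
        rw [map_C, aeval_C, aeval_C]
        exact (Polynomial.map_C _).symm
      | add a b ha hb => rw [map_add, map_add, ha, hb, map_add, Polynomial.map_add]
      | mul_X a j ha =>
        rw [map_mul, map_mul, map_X, aeval_X, ha, map_mul, aeval_X, Polynomial.map_mul]
    have h7 := h6 (g i)
    rw [hgf, h5] at h7
    rw [← MvPolynomial.comp_aeval_apply, h7, map_mul]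
    have h8 : Polynomial.aeval (AdjoinRoot.root π) pD = 0 := by
      obtain ⟨c₂, hc₂⟩ := hπp
      rw [hc₂, map_mul, AdjoinRoot.aeval_eq, AdjoinRoot.mk_self, zero_mul]
    rw [h8, zero_mul]

end Pool.Agent.Lib.MP_17a322_nt.VP
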