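import Pool.Agent.Lib.MP_17a322_nt.VP.M1
import Pool.Agent.Lib.MP_17a322_nt.VA.G30

/-!
Systems of equations with arbitrarily many equations of bounded degree.
-/

universe u

namespace Pool.Agent.Lib.MP_17a322_nt.VP

open MvPolynomial
open Pool.Agent.Lib.MP_17a322_nt.VA.G

/-- A family of polynomials with support in `S` has the same zeros as `S.card` of its combinations. -/
theorem M_span {k : Type u} [Field k] {n : ℕ} (S : Finset (Fin n →₀ ℕ))
    (T : Set (MvPolynomial (Fin n) k)) (hT : ∀ f ∈ T, f.support ⊆ S) :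
    ∃ f : Fin S.card → MvPolynomial (Fin n) k, (∀ i, f i ∈ Submodule.span k T) ∧
      (∀ i, (f i).support ⊆ S) ∧ ∀ g ∈ T, g ∈ Submodule.span k (Set.range f) := by
  classical
  obtain ⟨V, hV⟩ : ∃ V, V = Submodule.span k T := ⟨_, rfl⟩
  have hVS : ∀ f ∈ V, f.support ⊆ S := by
    intro f hf
    rw [hV] at hf
    induction hf using Submodule.span_induction with
    | mem f hf => exact hT f hf
    | zero =>
      rw [support_zero]
      exact Finset.empty_subset _
    | add a b _ _ ha hb => exact support_add.trans (Finset.union_subset ha hb)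
    | smul c a _ ha => exact support_smul.trans ha
  obtain ⟨φ, hφ⟩ : ∃ φ : V →ₗ[k] (S → k), ∀ f m, φ f m = coeff m.1 (f : MvPolynomial (Fin n) k) :=
    ⟨LinearMap.pi fun m => (lcoeff k m.1).comp V.subtype, fun f m => rfl⟩
  have hinj : Function.Injective φ := by
    rw [← LinearMap.ker_eq_bot, LinearMap.ker_eq_bot']
    intro f hf
    refine Subtype.ext ?_
    show (f : MvPolynomial (Fin n) k) = 0
    ext m
    rw [coeff_zero]
    by_cases hm : m ∈ S
    · have h1 := congrFun hf ⟨m, hm⟩
      rw [hφ] at h1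
      exact h1
    · exact notMem_support_iff.1 fun h => hm (hVS _ f.2 h)
  have : Module.Finite k V := Module.Finite.of_injective φ hinj
  have hdim : Module.finrank k V ≤ S.card := by
    have h1 := LinearMap.finrank_le_finrank_of_injective hinj
    rwa [Module.finrank_fintype_fun_eq_card, Fintype.card_coe] at h1
  obtain ⟨b, hb⟩ : ∃ b, b = Module.finBasis k V := ⟨_, rfl⟩
  obtain ⟨f, hf⟩ : ∃ f : Fin S.card → V, f = fun i : Fin S.card =>
    if h : (i : ℕ) < Module.finrank k V then b ⟨i, h⟩ else 0 := ⟨_, rfl⟩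
  refine ⟨fun i => (f i : MvPolynomial (Fin n) k), fun i => ?_, fun i => hVS _ (f i).2,
    fun g hg => ?_⟩
  · rw [← hV]
    exact (f i).2
  · have hgV : g ∈ V := by
      rw [hV]
      exact Submodule.subset_span hg
    have h1 : (⟨g, hgV⟩ : V) ∈ Submodule.span k (Set.range f) := by
      have h2 : (⊤ : Submodule k V) ≤ Submodule.span k (Set.range f) := by
        rw [← b.span_eq]
        refine Submodule.span_mono ?_
        rintro _ ⟨i, rfl⟩
        refine ⟨⟨i, i.2.trans_le hdim⟩, ?_⟩
        rw [hf]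
        simp only [i.2, dif_pos]
      exact h2 Submodule.mem_top
    have h2 := Submodule.mem_map_of_mem (f := V.subtype) h1
    rw [Submodule.map_span, ← Set.range_comp] at h2
    exact h2

/-- A uniform bound for the degree of a solution of a system with equations supported in `S`. -/
theorem M_unifS (n : ℕ) (S : Finset (Fin n →₀ ℕ)) : ∃ D : ℕ, ∀ (k : Type u) [Field k]
    [CharZero k] (T : Set (MvPolynomial (Fin n) k)), (∀ f ∈ T, f.support ⊆ S) →
    (∃ (E : Type u) (_ : Field E) (_ : Algebra k E) (x : Fin n → E), ∀ f ∈ T, aeval x f = 0) →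
    ∃ (E : Type u) (_ : Field E) (_ : Algebra k E) (x : Fin n → E), FiniteDimensional k E ∧
      Module.finrank k E ≤ D ∧ ∀ f ∈ T, aeval x f = 0 := by
  obtain ⟨D, hD⟩ := M_unif.{u} n S S.card
  refine ⟨D, ?_⟩
  intro k _ _ T hT hE
  obtain ⟨E, _, _, x, hx⟩ := hE
  obtain ⟨f, hf1, hf2, hf3⟩ := M_span S T hT
  have h0 : ∀ (E : Type u) [Field E] [Algebra k E] (x : Fin n → E)
      (T' : Set (MvPolynomial (Fin n) k)), (∀ f ∈ T', aeval x f = 0) →
      ∀ g ∈ Submodule.span k T', aeval x g = 0 := by
    intro E _ _ x T' hT' g hg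
    induction hg using Submodule.span_induction with
    | mem g hg => exact hT' g hg
    | zero => exact map_zero _
    | add a b _ _ ha hb => rw [map_add, ha, hb, add_zero]
    | smul c a _ ha => rw [map_smul, ha, smul_zero]
  obtain ⟨E', _, _, x', h1, h2, h3⟩ := hD k f hf2 ⟨E, _, _, x, fun i => h0 E x T hx _ (hf1 i)⟩
  refine ⟨E', _, _, x', h1, h2, fun g hg => ?_⟩
  refine h0 E' x' (Set.range f) ?_ g (hf3 g hg)
  rintro _ ⟨i, rfl⟩
  exact h3 i

/-- The coefficients of `G (x T)`. -/
theorem M_coeff {k L : Type*} [Field k] [Field L] [Algebra k L] {n : ℕ}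
    (G : MvPolynomial (Fin n) k) (x : Fin n → L) (d : ℕ) :
    (aeval (fun i => Polynomial.C (x i) * Polynomial.X) G : Polynomial L).coeff d =
      aeval x (homogeneousComponent d G) := by
  have h0 : ∀ (e : ℕ) (G : MvPolynomial (Fin n) k), G.IsHomogeneous e →
      (aeval (fun i => Polynomial.C (x i) * Polynomial.X) G : Polynomial L).coeff d =
        if d = e then aeval x G else 0 := by
    intro e G hG
    have h1 : (fun i => Polynomial.C (x i) * Polynomial.X : Fin n → Polynomial L) =
        fun i => Polynomial.X * (algebraMap L (Polynomial L) ∘ x) i := by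
      funext i
      rw [mul_comm]
      rfl
    rw [h1, aeval_smul_of_homog hG, aeval_algebraMap_apply, mul_comm, ← Polynomial.C_eq_algebraMap,
      Polynomial.coeff_C_mul_X_pow]
  have h1 : (aeval (fun i => Polynomial.C (x i) * Polynomial.X) G : Polynomial L) =
      ∑ e ∈ Finset.range (G.totalDegree + 1),
        (aeval (fun i => Polynomial.C (x i) * Polynomial.X) (homogeneousComponent e G) :
          Polynomial L) := by
    rw [← map_sum, sum_homogeneousComponent]
  rw [h1, Polynomial.finsetSum_coeff,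
    Finset.sum_congr rfl fun e _ => h0 e _ (homogeneousComponent_isHomogeneous e G)]
  rw [Finset.sum_ite_eq]
  split_ifs with hd
  · rfl
  · rw [homogeneousComponent_eq_zero, map_zero]
    rw [Finset.mem_range] at hd
    omega

/-- Elements of small degree of an extended homogeneous ideal. -/
theorem M_trunc {k₀ k : Type*} [Field k₀] [Field k] [Algebra k₀ k] {n : ℕ}
    (J : Ideal (MvPolynomial (Fin n) k₀)) (e : ℕ) (x : Fin n → k)
    (hJ : ∀ G ∈ J, ∀ d ≤ e, aeval x (homogeneousComponent d G) = 0)
    {g : MvPolynomial (Fin n) k} (hg : g ∈ J.map (map (σ := Fin n) (algebraMap k₀ k))) {d : ℕ}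
    (hd : d ≤ e) : aeval x (homogeneousComponent d g) = 0 := by
  obtain ⟨Q, hQ⟩ : ∃ Q : Ideal (MvPolynomial (Fin n) k), Q =
    (Ideal.span {(Polynomial.X : Polynomial k) ^ (e + 1)}).comap
      (aeval fun i => Polynomial.C (x i) * Polynomial.X : MvPolynomial (Fin n) k →ₐ[k]
        Polynomial k).toRingHom := ⟨_, rfl⟩
  have h1 : J.map (map (σ := Fin n) (algebraMap k₀ k)) ≤ Q := by
    rw [Ideal.map_le_iff_le_comap]
    intro G hG
    rw [hQ]
    show (aeval fun i => Polynomial.C (x i) * Polynomial.X : MvPolynomial (Fin n) k →ₐ[k]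
        Polynomial k) (map (algebraMap k₀ k) G) ∈ Ideal.span {(Polynomial.X : Polynomial k) ^ (e + 1)}
    rw [Ideal.mem_span_singleton, Polynomial.X_pow_dvd_iff]
    intro d hd
    rw [M_coeff, VA.G.comp_map, aeval_map_algebraMap]
    exact hJ G hG d (by omega)
  have h2 := h1 hg
  rw [hQ] at h2
  have h3 : (aeval fun i => Polynomial.C (x i) * Polynomial.X : MvPolynomial (Fin n) k →ₐ[k]
        Polynomial k) g ∈ Ideal.span {(Polynomial.X : Polynomial k) ^ (e + 1)} := h2
  rw [Ideal.mem_span_singleton, Polynomial.X_pow_dvd_iff] at h3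
  rw [← M_coeff]
  exact h3 d (by omega)

end Pool.Agent.Lib.MP_17a322_nt.VP
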