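import Pool.Agent.Lib.MP_17a322_nt.VP.M2

/-!
The ideal of a coset of a closed subgroup.
-/

universe u

namespace Pool.Agent.Lib.MP_17a322_nt.VP

open MvPolynomial
open Pool.Agent.Lib.MP_17a322_nt.VN
open Pool.Agent.Lib.MP_17a322_nt.VA
open Pool.Agent.Lib.MP_17a322_nt.VA.G

section

variable {K : Type u} [Field K] {N : ℕ} {A B : AV K N} (hB : IsSubAV B A)

theorem M_range {L : Type u} [Field L] [Algebra K L] {P : A.Pts L} :
    P ∈ (hB.inc L).range ↔ ∀ f ∈ B.I, f ∈ loc K (A.x P) := by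
  constructor
  · rintro ⟨P', rfl⟩ f hf
    rw [hB.x_inc, mem_loc]
    exact fun d => Z_x_isPt B P' _ (B.homog f hf d)
  · intro h
    exact ⟨⟨P.1, fun f hf => aeval_of_mem_loc (h f hf)⟩, Subtype.ext rfl⟩

theorem M_range_img {L L' : Type u} [Field L] [Algebra K L] [Field L'] [Algebra K L']
    (φ : L →ₐ[K] L') {P : A.Pts L} {P' : A.Pts L'} (h : A.Img φ P P')
    (hP : P ∈ (hB.inc L).range) : P' ∈ (hB.inc L').range := by
  rw [M_range] at hP ⊢
  exact fun f hf => (vanish_img A φ h).2 (hP f hf)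

variable {k : Type u} [Field k] [Algebra K k]

/-- The ideal of the coset `W + B`. -/
noncomputable def M_C (W : A.Pts k) : Ideal (MvPolynomial (Fin (N + 1)) k) :=
  sInf {I | ∃ (L : Type u) (_ : Field L) (_ : Algebra K L) (_ : Algebra k L)
    (_ : IsScalarTower K k L) (x W' : A.Pts L), A.Img (IsScalarTower.toAlgHom K k L) W W' ∧
      x - W' ∈ (hB.inc L).range ∧ I = loc k (A.x x)}

theorem mem_M_C {W : A.Pts k} {G : MvPolynomial (Fin (N + 1)) k} : G ∈ M_C hB W ↔
    ∀ (L : Type u) [Field L] [Algebra K L] [Algebra k L] [IsScalarTower K k L] (x W' : A.Pts L),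
      A.Img (IsScalarTower.toAlgHom K k L) W W' → x - W' ∈ (hB.inc L).range →
        G ∈ loc k (A.x x) := by
  unfold M_C
  rw [Submodule.mem_sInf]
  constructor
  · intro h L _ _ _ _ x W' h1 h2
    exact h _ ⟨L, _, _, _, inferInstance, x, W', h1, h2, rfl⟩
  · rintro h _ ⟨L, _, _, _, _, x, W', h1, h2, rfl⟩
    exact h L x W' h1 h2

theorem mem_M_C' {W : A.Pts k} {G : MvPolynomial (Fin (N + 1)) k} : G ∈ M_C hB W ↔
    ∀ (L : Type u) [Field L] [Algebra K L] (j : k →ₐ[K] L) (x W' : A.Pts L),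
      A.Img j W W' → x - W' ∈ (hB.inc L).range →
        ∀ d, eval₂ (j : k →+* L) (A.x x) (homogeneousComponent d G) = 0 := by
  rw [mem_M_C]
  constructor
  · intro h L _ _ j x W' h1 h2 d
    let iA : Algebra k L := (j : k →+* L).toAlgebra
    have iT : IsScalarTower K k L := IsScalarTower.of_algebraMap_eq fun c => (j.commutes c).symm
    have h3 : A.Img (IsScalarTower.toAlgHom K k L) W W' := h1
    exact mem_loc.1 (h L x W' h3 h2) d
  · intro h L _ _ _ _ x W' h1 h2
    rw [mem_loc]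
    exact h L (IsScalarTower.toAlgHom K k L) x W' h1 h2

theorem M_C_hom {W : A.Pts k} {G : MvPolynomial (Fin (N + 1)) k} (hG : G ∈ M_C hB W) (d : ℕ) :
    homogeneousComponent d G ∈ M_C hB W := by
  rw [mem_M_C] at hG ⊢
  intro L _ _ _ _ x W' h1 h2
  exact comp_mem_loc (hG L x W' h1 h2) d

/-- The ideal of the coset is stable under the automorphisms which preserve the coset. -/
theorem M_C_stable {W : A.Pts k} (σ : k →ₐ[K] k)
    (hW : ∀ W₁, A.Img σ W W₁ → W₁ - W ∈ (hB.inc k).range) {G : MvPolynomial (Fin (N + 1)) k}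
    (hG : G ∈ M_C hB W) : map (σ : k →+* k) G ∈ M_C hB W := by
  rw [mem_M_C'] at hG ⊢
  intro L _ _ j x W' hW' hx d
  obtain ⟨W₁, hW₁⟩ := Z_exists_img A σ W
  obtain ⟨W₂, hW₂⟩ := Z_exists_img A j W₁
  have h1 : W₂ - W' ∈ (hB.inc L).range :=
    M_range_img hB j (Z_img_sub A hW₂ hW') (hW W₁ hW₁)
  have h2 : x - W₂ ∈ (hB.inc L).range := by
    have h3 := (hB.inc L).range.sub_mem hx h1
    rwa [show x - W' - (W₂ - W') = x - W₂ by abel] at h3
  have h3 := img_comp A σ j hW₁ hW₂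
  have h4 := hG L (j.comp σ) x W₂ h3 h2 d
  rw [VA.G.comp_map, eval₂_map]
  exact h4

end

end Pool.Agent.Lib.MP_17a322_nt.VP
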