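import Pool.Agent.Lib.MP_17a322_nt.VP.M3

/-!
A coset which is defined over `k₀` has a point of bounded degree over `k₀`.
-/

universe u

namespace Pool.Agent.Lib.MP_17a322_nt.VP

open MvPolynomial
open Pool.Agent.Lib.MP_17a322_nt.VN
open Pool.Agent.Lib.MP_17a322_nt.VA
open Pool.Agent.Lib.MP_17a322_nt.VA.G

/-- An ideal is generated by elements of bounded degree. -/
theorem M_gens {K : Type u} [Field K] {n : ℕ} (I : Ideal (MvPolynomial (Fin n) K)) :
    ∃ T : Finset (MvPolynomial (Fin n) K), Ideal.span (T : Set (MvPolynomial (Fin n) K)) = I :=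
  (isNoetherian_def.1 inferInstance) I

/-- The equations of the coset. -/
theorem M_eqs {K : Type u} [Field K] {N : ℕ} {A B : AV K N} (hB : IsSubAV B A) {k : Type u}
    [Field k] [Algebra K k] (W : A.Pts k) {f : MvPolynomial (Fin (N + 1)) K} (hf : f ∈ B.I) {d : ℕ}
    (hfd : f.IsHomogeneous d) (a : Fin (N + 1)) :
    ∃ g : MvPolynomial (Fin (N + 1)) k, g ∈ M_C hB W ∧ g.IsHomogeneous (d * 2) ∧
      ∀ y : Fin (N + 1) → k, aeval y g =
        aeval (Sum.elim y (A.x W)) (subP A k (map (algebraMap K k) f) a) := by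
  obtain ⟨H, hH⟩ : ∃ H, H = subP A k (map (algebraMap K k) f) a := ⟨_, rfl⟩
  have hHB : BiH (d * 2) (d * 2) H := by
    rw [hH]
    exact BiH_subP A (hfd.map _) a
  obtain ⟨g, hg⟩ : ∃ g : MvPolynomial (Fin (N + 1)) k,
    g = aeval (Sum.elim X fun i => C (A.x W i)) H := ⟨_, rfl⟩
  have hgL : ∀ (L : Type u) [Field L] [Algebra k L] (y : Fin (N + 1) → L),
      aeval y g = aeval (Sum.elim y fun i => algebraMap k L (A.x W i)) H := by
    intro L _ _ y
    rw [hg, comp_aeval_apply]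
    congr 2
    funext i
    rcases i with i | i
    · rw [Sum.elim_inl, Sum.elim_inl, aeval_X]
    · rw [Sum.elim_inr, Sum.elim_inr, aeval_C]
  have hgd : g.IsHomogeneous (d * 2) := by
    rw [hg, aeval_def, eval₂_eq']
    refine IsHomogeneous.sum _ _ _ fun m hm => ?_
    have h1 := hHB m hm
    rw [show (algebraMap k (MvPolynomial (Fin (N + 1)) k)) (coeff m H) = C (coeff m H) from rfl,
      Fintype.prod_sum_type]
    have h2 : (∏ i, (Sum.elim X (fun i => C (A.x W i)) (Sum.inl i :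
        Fin (N + 1) ⊕ Fin (N + 1)) : MvPolynomial (Fin (N + 1)) k) ^ m (Sum.inl i)).IsHomogeneous
          (∑ i, m (Sum.inl i)) := by
      refine IsHomogeneous.prod _ _ _ fun i _ => ?_
      have h3 := (isHomogeneous_X k i).pow (m (Sum.inl i))
      rwa [one_mul] at h3
    have h4 : (∏ i, (Sum.elim X (fun i => C (A.x W i)) (Sum.inr i :
        Fin (N + 1) ⊕ Fin (N + 1)) : MvPolynomial (Fin (N + 1)) k) ^ m (Sum.inr i)).IsHomogeneous
          0 := by
      have h5 : (∏ i, (Sum.elim X (fun i => C (A.x W i)) (Sum.inr i :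
          Fin (N + 1) ⊕ Fin (N + 1)) : MvPolynomial (Fin (N + 1)) k) ^ m (Sum.inr i)) =
          C (∏ i, A.x W i ^ m (Sum.inr i)) := by
        rw [map_prod]
        refine Finset.prod_congr rfl fun i _ => ?_
        rw [Sum.elim_inr, map_pow]
      rw [h5]
      exact isHomogeneous_C _ _
    have h6 := (isHomogeneous_C (Fin (N + 1)) (coeff m H)).mul (h2.mul h4)
    rw [h1.1, add_zero, zero_add] at h6
    exact h6
  refine ⟨g, ?_, hgd, fun y => ?_⟩
  · rw [mem_M_C]
    intro L _ _ _ _ x W' hW' hx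
    rw [mem_loc_of_homog hgd, hgL]
    obtain ⟨c, hc, h1⟩ := hW'
    have h2 : (fun i => algebraMap k L (A.x W i)) = fun i => c * A.x W' i := funext h1
    obtain ⟨c', hc', h3⟩ := aeval_subP (k := k) A x W'
    have h4 := aeval_smul_BiH hHB (A.x x) (A.x W') (1 : L) c
    simp_rw [one_mul] at h4
    rw [h2, h4, hH, h3 _ d (hfd.map _) a, aeval_map_algebraMap]
    have h5 := (M_range hB).1 hx f hf
    rw [mem_loc_of_homog hfd] at h5
    rw [h5, mul_zero, mul_zero]
  · rw [hgL, hH]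
    rfl

theorem M_lift (k₀ E k : Type u) [Field k₀] [Field E] [Field k] [Algebra k₀ E] [Algebra k₀ k]
    [FiniteDimensional k₀ E] [IsAlgClosed k] : Nonempty (E →ₐ[k₀] k) := by
  have : Algebra.IsAlgebraic k₀ E := Algebra.IsAlgebraic.of_finite k₀ E
  exact ⟨IsAlgClosed.lift⟩

/-- A coset which is defined over `k₀` has a point of bounded degree over `k₀`. -/
theorem M_coset {K : Type u} [Field K] {N : ℕ} {A B : AV K N} (hB : IsSubAV B A) :
    ∃ D : ℕ, ∀ (k₀ k : Type u) [Field k₀] [Field k] [Algebra K k₀] [Algebra K k] [Algebra k₀ k]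
      [IsScalarTower K k₀ k] [CharZero k₀] [IsAlgClosed k] (Γ : Set (k →+* k)),
      (∀ φ ∈ Γ, ∀ c : K, φ (algebraMap K k c) = algebraMap K k c) →
      (∀ c : k, (∀ φ ∈ Γ, φ c = c) → c ∈ (algebraMap k₀ k).range) →
      (∀ δ : Derivation ℤ k k, (∀ c : k₀, δ (algebraMap k₀ k c) = 0) → ∀ c, δ c = 0) →
      ∀ W : A.Pts k, (∀ φ ∈ Γ, ∀ (σ : k →ₐ[K] k), (∀ c, σ c = φ c) → ∀ W₁, A.Img σ W W₁ →
        W₁ - W ∈ (hB.inc k).range) →
      ∃ (E : Type u) (_ : Field E) (_ : Algebra k₀ E) (_ : Algebra K E) (_ : IsScalarTower K k₀ E)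
        (ι : E →ₐ[k₀] k) (P : A.Pts E) (P' : A.Pts k), FiniteDimensional k₀ E ∧
          Module.finrank k₀ E ≤ D ∧ A.Img (ι.restrictScalars K) P P' ∧
          P' - W ∈ (hB.inc k).range := by
  classical
  obtain ⟨TA, hTA⟩ := M_gens A.I
  obtain ⟨TB, hTB⟩ := M_gens B.I
  obtain ⟨e, heA, heB, he1⟩ : ∃ e : ℕ, (∀ f ∈ TA, f.totalDegree ≤ e) ∧
      (∀ f ∈ TB, f.totalDegree * 2 ≤ e) ∧ 1 ≤ e := by
    refine ⟨TA.sup totalDegree + TB.sup (fun f => f.totalDegree * 2) + 1, fun f hf => ?_,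
      fun f hf => ?_, by omega⟩
    · have := Finset.le_sup (f := totalDegree) hf
      omega
    · have := Finset.le_sup (f := fun f : MvPolynomial (Fin (N + 1)) K => f.totalDegree * 2) hf
      omega
  obtain ⟨S, hS⟩ : ∃ S : Finset (Fin (N + 1) →₀ ℕ), ∀ m, m ∈ S ↔ m.degree ≤ e :=
    ⟨(Finsupp.finite_of_degree_le e).toFinset, fun m => by
      rw [Set.Finite.mem_toFinset]
      rfl⟩
  have hSsupp : ∀ {k : Type u} [Field k] (G : MvPolynomial (Fin (N + 1)) k),
      G.totalDegree ≤ e → G.support ⊆ S := by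
    intro k _ G hG m hm
    rw [hS]
    exact (le_totalDegree hm).trans hG
  obtain ⟨D, hD⟩ := M_unifS.{u} (N + 1) S
  refine ⟨D, ?_⟩
  intro k₀ k _ _ _ _ _ _ _ _ Γ hΓ hfix hder W hW
  obtain ⟨a, ha⟩ := Function.ne_iff.1 (Z_x_ne A W)
  have ha : A.x W a ≠ 0 := ha
  obtain ⟨J, hJ⟩ : ∃ J : Ideal (MvPolynomial (Fin (N + 1)) k₀),
    J = (M_C hB W).comap (map (algebraMap k₀ k)) := ⟨_, rfl⟩
  have hdesc : M_C hB W = J.map (map (algebraMap k₀ k)) := by
    rw [hJ]
    refine descend (M_C hB W) Γ ?_ ?_ ?_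
    · intro φ hφ G hG
      obtain ⟨σ, hσ⟩ : ∃ σ : k →ₐ[K] k, ∀ c, σ c = φ c :=
        ⟨{ toRingHom := φ, commutes' := hΓ φ hφ }, fun _ => rfl⟩
      have h1 : (σ : k →+* k) = φ := RingHom.ext hσ
      rw [← h1]
      exact M_C_stable hB σ (hW φ hφ σ hσ) hG
    · intro δ hδ G _
      have h1 : dc (Fin (N + 1)) δ G = 0 := by
        ext m
        rw [coeff_dc, hder δ hδ, coeff_zero]
      rw [h1]
      exact Ideal.zero_mem _
    · intro c hc _
      exact hfix c hc
  have hJhom : ∀ G ∈ J, ∀ d, homogeneousComponent d G ∈ J := by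
    intro G hG d
    rw [hJ, Ideal.mem_comap] at hG ⊢
    rw [← VA.G.comp_map]
    exact M_C_hom hB hG d
  have hAJ : ∀ f ∈ A.I, map (algebraMap K k₀) f ∈ J := by
    intro f hf
    rw [hJ, Ideal.mem_comap, map_map, ← IsScalarTower.algebraMap_eq, mem_M_C]
    intro L _ _ _ _ x W' _ _
    rw [map_mem_loc, mem_loc]
    exact fun d => Z_x_isPt A x _ (A.homog f hf d)
  -- the system
  obtain ⟨q, hq⟩ : ∃ q : MvPolynomial (Fin (N + 1)) k₀, q = X a - 1 := ⟨_, rfl⟩
  obtain ⟨T, hT⟩ : ∃ T : Set (MvPolynomial (Fin (N + 1)) k₀), ∀ G, G ∈ T ↔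
      (G ∈ J ∧ G.totalDegree ≤ e) ∨ G = q :=
    ⟨{G | (G ∈ J ∧ G.totalDegree ≤ e) ∨ G = q}, fun G => Iff.rfl⟩
  have hTS : ∀ G ∈ T, G.support ⊆ S := by
    intro G hG
    rw [hT] at hG
    rcases hG with hG | hG
    · exact hSsupp G hG.2
    · refine hSsupp _ ?_
      rw [hG, hq]
      refine (totalDegree_sub (X a) 1).trans ?_
      rw [totalDegree_X, totalDegree_one]
      exact max_le he1 (Nat.zero_le _)
  have hTW : ∀ G ∈ T, aeval (fun i => (A.x W a)⁻¹ * A.x W i) G = 0 := by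
    intro G hG
    rw [hT] at hG
    rcases hG with hG | hG
    · have h1 := hG.1
      rw [hJ, Ideal.mem_comap, mem_M_C] at h1
      have h2 := h1 k W W ⟨1, one_ne_zero, fun i => by rw [one_mul]; rfl⟩ (by
        rw [sub_self]
        exact zero_mem _)
      rw [← loc_smul (x := A.x W) (inv_ne_zero ha)] at h2
      have h3 := aeval_of_mem_loc h2
      rwa [aeval_map_algebraMap] at h3
    · rw [hG, hq, map_sub, aeval_X, map_one, inv_mul_cancel₀ ha, sub_self]
  obtain ⟨E, _, _, x, hEf, hED, hx⟩ := hD k₀ T hTS ⟨k, _, _, _, hTW⟩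
  have hxa : x a = 1 := by
    have h1 := hx q ((hT _).2 (Or.inr rfl))
    rw [hq, map_sub, aeval_X, map_one, sub_eq_zero] at h1
    exact h1
  let iKE : Algebra K E := ((algebraMap k₀ E).comp (algebraMap K k₀)).toAlgebra
  have iT : IsScalarTower K k₀ E := IsScalarTower.of_algebraMap_eq fun _ => rfl
  obtain ⟨ι⟩ := M_lift k₀ E k
  have hxJ : ∀ G ∈ J, ∀ d ≤ e, aeval x (homogeneousComponent d G) = 0 := by
    intro G hG d hd
    refine hx _ ((hT _).2 (Or.inl ⟨hJhom G hG d, ?_⟩))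
    exact (homogeneousComponent_isHomogeneous d G).totalDegree_le.trans hd
  have hpt : A.IsPt x := by
    have h1 : ∀ f ∈ TA, aeval x f = 0 := by
      intro f hf
      have hfI : f ∈ A.I := by
        rw [← hTA]
        exact Ideal.subset_span hf
      rw [← aeval_map_algebraMap (A := k₀),
        ← sum_homogeneousComponent (map (algebraMap K k₀) f), map_sum]
      refine Finset.sum_eq_zero fun d hd => hxJ _ (hAJ f hfI) d ?_
      rw [Finset.mem_range] at hd
      have h2 : (map (algebraMap K k₀) f).totalDegree ≤ f.totalDegree :=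
        Finset.sup_mono (support_map_subset _ _)
      have h3 := heA f hf
      omega
    intro f hf
    rw [← hTA] at hf
    induction hf using Submodule.span_induction with
    | mem f hf => exact h1 f hf
    | zero => exact map_zero _
    | add a b _ _ ha hb => rw [map_add, ha, hb, add_zero]
    | smul c a _ ha => rw [smul_eq_mul, map_mul, ha, mul_zero]
  have hx0 : x ≠ 0 := by
    intro h0
    rw [h0] at hxa
    exact zero_ne_one hxa
  obtain ⟨P, c, hc, hP⟩ := Z_exists_pt A hx0 hpt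
  obtain ⟨P', hP'⟩ := Z_exists_img A (ι.restrictScalars K) P
  refine ⟨E, _, _, iKE, iT, ι, P, P', hEf, hED, hP', ?_⟩
  -- the image
  obtain ⟨c', hc', h1⟩ := hP'
  obtain ⟨y, hy⟩ : ∃ y : Fin (N + 1) → k, y = fun i => ι (x i) := ⟨_, rfl⟩
  have hPy : ∀ i, ι c * y i = c' * A.x P' i := by
    intro i
    rw [hy, ← h1 i, hP i]
    show ι c * ι (x i) = ι (c * x i)
    rw [map_mul]
  have hιc : ι c ≠ 0 := (map_ne_zero ι).2 hc
  have hyJ : ∀ G ∈ J, ∀ d ≤ e, aeval y (homogeneousComponent d G) = 0 := by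
    intro G hG d hd
    have h2 := hxJ G hG d hd
    have h3 : aeval y (homogeneousComponent d G) = ι (aeval x (homogeneousComponent d G)) := by
      rw [hy]
      exact (comp_aeval_apply x ι _).symm
    rw [h3, h2, map_zero]
  have hPt : ∀ f ∈ TB, ∀ d, aeval (A.x (P' - W)) (homogeneousComponent d f) = 0 := by
    intro f hf d
    by_cases hd : f.totalDegree < d
    · rw [homogeneousComponent_eq_zero _ _ hd, map_zero]
    push Not at hd
    have hfI : f ∈ B.I := by
      rw [← hTB]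
      exact Ideal.subset_span hf
    obtain ⟨c₂, hc₂, h3⟩ := aeval_subP (k := k) A P' W
    obtain ⟨a', ha'⟩ := Function.ne_iff.1 (Z_x_ne A (P' + W))
    obtain ⟨g, hg1, hg2, hg3⟩ := M_eqs hB W (B.homog f hfI d)
      (homogeneousComponent_isHomogeneous d f) a'
    have hfd : (homogeneousComponent d f).IsHomogeneous d := homogeneousComponent_isHomogeneous d f
    have h4 : aeval y (homogeneousComponent (d * 2) g) = 0 := by
      rw [hdesc] at hg1
      refine M_trunc J e y hyJ hg1 ?_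
      have := heB f hf
      omega
    rw [homogeneousComponent_of_mem ((mem_homogeneousSubmodule _ _).2 hg2), if_pos rfl] at h4
    have h5 : aeval (A.x P') g = 0 := by
      have h6 : A.x P' = fun i => c'⁻¹ * ι c * y i := by
        funext i
        rw [mul_assoc, hPy, ← mul_assoc, inv_mul_cancel₀ hc', one_mul]
      rw [h6, aeval_smul_of_homog hg2, h4, mul_zero]
    rw [hg3, h3 _ d (hfd.map _) a', aeval_map_algebraMap] at h5
    exact (mul_eq_zero.1 h5).resolve_left (pow_ne_zero d (mul_ne_zero hc₂ ha'))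
  rw [M_range]
  intro f hf
  rw [← hTB] at hf
  have h2 : Ideal.span (TB : Set (MvPolynomial (Fin (N + 1)) K)) ≤ loc K (A.x (P' - W)) := by
    rw [Ideal.span_le]
    intro f hf
    exact mem_loc.2 (hPt f hf)
  exact h2 hf

end Pool.Agent.Lib.MP_17a322_nt.VP
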