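import Pool.Agent.Lib.MP_17a322_nt.VP.M4
import Pool.Agent.Lib.MP_17a322_nt.VA.A3b

/-!
The sum of the conjugates of a point of bounded degree.
-/

universe u

namespace Pool.Agent.Lib.MP_17a322_nt.VP

open MvPolynomial
open Pool.Agent.Lib.MP_17a322_nt.VN
open Pool.Agent.Lib.MP_17a322_nt.VA
open Pool.Agent.Lib.MP_17a322_nt.VA.G

section

variable {K : Type u} [Field K] {N : ℕ} (A : AV K N)

variable {F Ω : Type u} [Field F] [Field Ω] [Algebra K F] [Algebra F Ω] [Algebra K Ω]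
  [IsScalarTower K F Ω]

/-- Images under an automorphism determine the point. -/
theorem M_inj (τ : Ω ≃ₐ[F] Ω) {q q' p : A.Pts Ω}
    (h : A.Img ((τ : Ω →ₐ[F] Ω).restrictScalars K) q p)
    (h' : A.Img ((τ : Ω →ₐ[F] Ω).restrictScalars K) q' p) : q = q' := by
  have h1 := (A.img_eq_iff _).2 h
  have h2 := (A.img_eq_iff _).2 h'
  exact AV.img_injective _ (h1.trans h2.symm)

/-- Composition of images. -/
theorem M_comp (τ τ' : Ω ≃ₐ[F] Ω) {q p p' : A.Pts Ω}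
    (h : A.Img ((τ : Ω →ₐ[F] Ω).restrictScalars K) q p)
    (h' : A.Img ((τ' : Ω →ₐ[F] Ω).restrictScalars K) p p') :
    A.Img (((τ.trans τ' : Ω ≃ₐ[F] Ω) : Ω →ₐ[F] Ω).restrictScalars K) q p' :=
  img_comp A _ _ h h'

/-- The image of a sum. -/
theorem M_sum (τ : Ω ≃ₐ[F] Ω) (f : A.Pts Ω → A.Pts Ω)
    (hf : ∀ q, A.Img ((τ : Ω →ₐ[F] Ω).restrictScalars K) q (f q)) (T : Finset (A.Pts Ω)) :
    A.Img ((τ : Ω →ₐ[F] Ω).restrictScalars K) (∑ q ∈ T, q) (∑ q ∈ T, f q) := by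
  classical
  induction T using Finset.induction_on with
  | empty =>
    rw [Finset.sum_empty, Finset.sum_empty]
    exact Z_img_zero A _
  | insert a T ha ih =>
    rw [Finset.sum_insert ha, Finset.sum_insert ha]
    exact Z_img_add A (hf a) ih

/-- The conjugates of the image of a point over a finite extension of `k₀`. -/
theorem M_average {k₀ E : Type u} [Field k₀] [Field E] [Algebra k₀ E] [FiniteDimensional k₀ E]
    [Algebra K E] [Algebra k₀ Ω] [Algebra k₀ F] [IsScalarTower k₀ F Ω] (ι : E →ₐ[k₀] Ω)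
    (ι' : E →ₐ[K] Ω) (hι : ∀ a, ι' a = ι a) {P : A.Pts E} {P' : A.Pts Ω} (hP : A.Img ι' P P') :
    ∃ (m : ℕ) (p : Fin m → A.Pts Ω), 0 < m ∧ m ≤ Module.finrank k₀ E ∧
      (∀ l, ∃ τ : Ω ≃ₐ[F] Ω, A.Img ((τ : Ω →ₐ[F] Ω).restrictScalars K) P' (p l)) ∧
      ∀ τ : Ω ≃ₐ[F] Ω, A.Img ((τ : Ω →ₐ[F] Ω).restrictScalars K) (∑ l, p l) (∑ l, p l) := by
  classical
  have hdet : ∀ (τ τ' : Ω ≃ₐ[F] Ω) (p p' : A.Pts Ω), (∀ a, τ (ι a) = τ' (ι a)) →
      A.Img ((τ : Ω →ₐ[F] Ω).restrictScalars K) P' p →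
      A.Img ((τ' : Ω →ₐ[F] Ω).restrictScalars K) P' p' → p = p' := by
    intro τ τ' p p' h h1 h2
    have h3 := img_comp A _ _ hP h1
    have h4 := img_comp A _ _ hP h2
    have h5 : ((τ : Ω →ₐ[F] Ω).restrictScalars K).comp ι' =
        ((τ' : Ω →ₐ[F] Ω).restrictScalars K).comp ι' := by
      refine AlgHom.ext fun a => ?_
      show τ (ι' a) = τ' (ι' a)
      rw [hι]
      exact h a
    rw [h5] at h3
    exact Z_img_unique A h3 h4
  -- the finite set of the images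
  obtain ⟨c, hc⟩ : ∃ c : {p : A.Pts Ω // ∃ τ : Ω ≃ₐ[F] Ω,
      A.Img ((τ : Ω →ₐ[F] Ω).restrictScalars K) P' p} → (E →ₐ[k₀] Ω),
      ∀ p, ∃ τ : Ω ≃ₐ[F] Ω, A.Img ((τ : Ω →ₐ[F] Ω).restrictScalars K) P' p.1 ∧
        ∀ a, c p a = τ (ι a) := by
    choose τ hτ using fun p : {p : A.Pts Ω // ∃ τ : Ω ≃ₐ[F] Ω,
      A.Img ((τ : Ω →ₐ[F] Ω).restrictScalars K) P' p} => p.2
    exact ⟨fun p => ((τ p : Ω →ₐ[F] Ω).restrictScalars k₀).comp ι, fun p => ⟨τ p, hτ p,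
      fun a => rfl⟩⟩
  have hcinj : Function.Injective c := by
    intro p p' h
    obtain ⟨τ, h1, h2⟩ := hc p
    obtain ⟨τ', h3, h4⟩ := hc p'
    refine Subtype.ext (hdet τ τ' p.1 p'.1 (fun a => ?_) h1 h3)
    rw [← h2, ← h4, h]
  have : Finite (E →ₐ[k₀] Ω) := inferInstance
  have hfin : Finite {p : A.Pts Ω // ∃ τ : Ω ≃ₐ[F] Ω,
      A.Img ((τ : Ω →ₐ[F] Ω).restrictScalars K) P' p} := Finite.of_injective c hcinj
  have hcard := (Nat.card_le_card_of_injective c hcinj).trans (card_algHom_le_finrank k₀ E Ω)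
  have hset : {p : A.Pts Ω | ∃ τ : Ω ≃ₐ[F] Ω,
      A.Img ((τ : Ω →ₐ[F] Ω).restrictScalars K) P' p}.Finite := hfin
  obtain ⟨T, hT, hTc⟩ : ∃ T : Finset (A.Pts Ω), (∀ p, p ∈ T ↔
      ∃ τ : Ω ≃ₐ[F] Ω, A.Img ((τ : Ω →ₐ[F] Ω).restrictScalars K) P' p) ∧
      T.card ≤ Module.finrank k₀ E := by
    refine ⟨hset.toFinset, fun p => hset.mem_toFinset, ?_⟩
    rw [← Set.ncard_eq_toFinset_card _ hset]
    exact hcard
  have hPT : P' ∈ T := by
    rw [hT]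
    refine ⟨AlgEquiv.refl, 1, one_ne_zero, fun i => ?_⟩
    rw [one_mul]
    rfl
  have hsum : ∑ l, ((T.equivFin.symm l : T) : A.Pts Ω) = ∑ q ∈ T, q := by
    rw [Equiv.sum_comp T.equivFin.symm fun q : T => (q : A.Pts Ω)]
    exact Finset.sum_coe_sort T fun q => q
  refine ⟨T.card, fun l => (T.equivFin.symm l : T), Finset.card_pos.mpr ⟨P', hPT⟩, hTc,
    fun l => ?_, fun τ => ?_⟩
  · exact (hT _).mp (T.equivFin.symm l).2
  · rw [hsum]
    choose f hf using fun q : A.Pts Ω =>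
      Z_exists_img A ((τ : Ω →ₐ[F] Ω).restrictScalars K) q
    have h1 := M_sum A τ f hf T
    have hinj : Set.InjOn f T := by
      intro q _ q' _ h
      refine M_inj A τ (hf q) ?_
      rw [h]
      exact hf q'
    have himg : T.image f = T := by
      refine Finset.eq_of_subset_of_card_le ?_ (Finset.card_image_of_injOn hinj).ge
      intro q hq
      obtain ⟨p, hp, rfl⟩ := Finset.mem_image.mp hq
      obtain ⟨τ', hτ'⟩ := (hT p).mp hp
      exact (hT _).mpr ⟨τ'.trans τ, M_comp A τ' τ hτ' (hf p)⟩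
    have h2 : ∑ q ∈ T, f q = ∑ q ∈ T, q := by
      rw [← Finset.sum_image (f := fun q : A.Pts Ω => q) hinj, himg]
    rw [h2] at h1
    exact h1

theorem M_ratio {L L' : Type u} [Field L] [Algebra K L] [Field L'] [Algebra K L']
    {φ : L →ₐ[K] L'} {P : A.Pts L} {P' : A.Pts L'} (h : A.Img φ P P') (i j : Fin (N + 1)) :
    A.x P' i / A.x P' j = φ (A.x P i / A.x P j) := by
  obtain ⟨c, hc, h1⟩ := h
  rw [map_div₀, h1, h1, mul_div_mul_left _ _ hc]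

/-- The centre: the sum of the conjugates is defined over `k₀`. -/
theorem M_center [IsGalois F Ω] (k₀ : IntermediateField K F)
    (hk₀ : ∀ a : F, IsAlgebraic k₀ a → a ∈ k₀) {E : Type u} [Field E] [Algebra k₀ E]
    [FiniteDimensional k₀ E] [Algebra K E] (ι : E →ₐ[k₀] Ω) (ι' : E →ₐ[K] Ω)
    (hι : ∀ a, ι' a = ι a) {P : A.Pts E} {P' : A.Pts Ω} (hP : A.Img ι' P P') :
    ∃ (m : ℕ) (p : Fin m → A.Pts Ω) (w : A.Pts k₀), 0 < m ∧ m ≤ Module.finrank k₀ E ∧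
      (∀ l, ∃ τ : Ω ≃ₐ[F] Ω, A.Img ((τ : Ω →ₐ[F] Ω).restrictScalars K) P' (p l)) ∧
      A.Img ((IsScalarTower.toAlgHom K F Ω).comp k₀.val) w (∑ l, p l) := by
  obtain ⟨m, p, hm, hmE, hp, hτ⟩ := M_average (F := F) A ι ι' hι hP
  have : Algebra.IsAlgebraic k₀ E := Algebra.IsAlgebraic.of_finite k₀ E
  have hPalg : ∀ i j, IsAlgebraic k₀ (A.x P' i / A.x P' j) := by
    intro i j
    rw [M_ratio A hP, hι]
    exact (Algebra.IsAlgebraic.isAlgebraic (R := k₀) (A.x P i / A.x P j)).algHom ι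
  have h1 : ∀ l, ∃ P₀ : A.Pts (algebraicClosure k₀ Ω),
      A.Img ((algebraicClosure k₀ Ω).val.restrictScalars K) P₀ (p l) := by
    intro l
    refine exists_pt_sub A _ (p l) fun i j => ?_
    obtain ⟨τ, ht⟩ := hp l
    have h2 : IsAlgebraic k₀ (A.x (p l) i / A.x (p l) j) := by
      rw [M_ratio A ht]
      exact (hPalg i j).algHom ((τ : Ω →ₐ[F] Ω).restrictScalars k₀)
    exact ⟨⟨_, mem_algebraicClosure_iff.2 h2⟩, rfl⟩
  choose P₀ hP₀ using h1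
  have h3 := img_sum A _ hP₀
  have h4 : ∀ i j, A.x (∑ l, p l) i / A.x (∑ l, p l) j ∈
      ((IsScalarTower.toAlgHom K F Ω).comp k₀.val).range := by
    intro i j
    have h5 : IsAlgebraic k₀ (A.x (∑ l, p l) i / A.x (∑ l, p l) j) := by
      rw [M_ratio A h3]
      exact mem_algebraicClosure_iff.1 (A.x (∑ l, P₀ l) i / A.x (∑ l, P₀ l) j).2
    have h6 : A.x (∑ l, p l) i / A.x (∑ l, p l) j ∈ Set.range (algebraMap F Ω) := by
      rw [InfiniteGalois.mem_range_algebraMap_iff_fixed]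
      intro τ
      exact (M_ratio A (hτ τ) i j).symm
    obtain ⟨a, ha⟩ := h6
    have h7 : IsAlgebraic k₀ a := by
      rw [← ha] at h5
      exact (isAlgebraic_algebraMap_iff (FaithfulSMul.algebraMap_injective F Ω)).1 h5
    exact ⟨⟨a, hk₀ a h7⟩, ha⟩
  obtain ⟨w, hw⟩ := exists_pt_sub A ((IsScalarTower.toAlgHom K F Ω).comp k₀.val) _ h4
  exact ⟨m, p, w, hm, hmE, hp, hw⟩

end

end Pool.Agent.Lib.MP_17a322_nt.VP
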