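import Pool.Agent.Lib.MP_17a322_nt.VP.M5

/-!
The decomposition of an infinitely divisible point.
-/

universe u

namespace Pool.Agent.Lib.MP_17a322_nt.VP

open MvPolynomial
open Pool.Agent.Lib.MP_17a322_nt.VN
open Pool.Agent.Lib.MP_17a322_nt.VA
open Pool.Agent.Lib.MP_17a322_nt.VA.G

theorem M_lift_hom {R k Ω : Type u} [Field R] [Field k] [Field Ω] [Algebra k Ω] (ψ : R →+* Ω)
    (h : ∀ c, ψ c ∈ (algebraMap k Ω).range) : ∃ φ : R →+* k, ∀ c, algebraMap k Ω (φ c) = ψ c := by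
  choose f hf using h
  have hinj := (algebraMap k Ω).injective
  refine ⟨{ toFun := f, map_one' := hinj ?_, map_mul' := fun a b => hinj ?_, map_zero' := hinj ?_,
            map_add' := fun a b => hinj ?_ }, hf⟩
  · rw [hf, map_one, map_one]
  · rw [hf, map_mul, map_mul, hf, hf]
  · rw [hf, map_zero, map_zero]
  · rw [hf, map_add, map_add, hf, hf]

/-- Derivations vanish on algebraic elements. -/
theorem M_der {k₀ k : Type u} [Field k₀] [CharZero k₀] [Field k] [Algebra k₀ k]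
    (δ : Derivation ℤ k k) (hδ : ∀ c : k₀, δ (algebraMap k₀ k c) = 0) {c : k}
    (hc : IsAlgebraic k₀ c) : δ c = 0 := by
  obtain ⟨δ', hδ'⟩ : ∃ δ' : Derivation k₀ k k, ∀ a, δ' a = δ a := by
    refine ⟨Derivation.mk' { toFun := δ, map_add' := map_add δ, map_smul' := fun a b => ?_ }
      fun a b => ?_, fun a => rfl⟩
    · rw [Algebra.smul_def, δ.leibniz, hδ, smul_zero, add_zero, RingHom.id_apply,
        algebraMap_smul]
    · exact δ.leibniz a b
  have h1 := δ'.map_aeval (minpoly k₀ c) c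
  rw [minpoly.aeval, map_zero, hδ', smul_eq_mul] at h1
  have h2 : Polynomial.aeval c (Polynomial.derivative (minpoly k₀ c)) ≠ 0 := by
    have h3 : (minpoly k₀ c).Separable := (minpoly.irreducible hc.isIntegral).separable
    exact h3.aeval_derivative_ne_zero (minpoly.aeval k₀ c)
  exact (mul_eq_zero.1 h1.symm).resolve_left h2

theorem M_img_img {K : Type u} [Field K] {N : ℕ} {A : AV K N} {L L' : Type u} [Field L]
    [Algebra K L] [Field L'] [Algebra K L'] (φ : L →ₐ[K] L') (P : A.Pts L) :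
    A.Img φ P (A.img φ P) := (A.img_eq_iff _).1 rfl

/-- The geometric theorem for a point which is divisible modulo the points over `K`. -/
theorem geomD1 {K : Type u} [Field K] [CharZero K] {N : ℕ} (A : AV K N) {F : Type u} [Field F]
    [Algebra K F] (k₀ : IntermediateField K F)
    (hK : ∀ a : F, IsAlgebraic K a → a ∈ (algebraMap K F).range)
    (hk₀ : ∀ a : F, IsAlgebraic k₀ a → a ∈ k₀) (s : A.Pts F)
    (hdiv : ∀ δ : ℕ, 0 < δ → ∃ (r : A.Pts K) (r' s₁ : A.Pts F), A.Img (Algebra.ofId K F) r r' ∧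
      s = r' + δ • s₁) :
    ∃ (B : AV K N) (hB : IsSubAV B A) (w : A.Pts k₀) (w' : A.Pts F) (b : B.Pts F),
      A.Img k₀.val w w' ∧ s = w' + hB.inc F b ∧ MinSub B b ∧ NoRatD B k₀ b := by
  classical
  obtain ⟨Ω, k, _, _, _, _, _, _, _, _, _, _, hk⟩ := exists_fields k₀
  have : CharZero F := charZero_of_injective_algebraMap (algebraMap K F).injective
  have : CharZero Ω := charZero_of_injective_algebraMap (algebraMap K Ω).injective
  have : CharZero k := charZero_of_injective_algebraMap (algebraMap K k).injective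
  -- the point over `Ω`
  obtain ⟨s', hs'⟩ := Z_exists_img A (IsScalarTower.toAlgHom K F Ω) s
  -- the group
  obtain ⟨Γ, hΓdef⟩ : ∃ Γ : Set (k →+* k), Γ = {φ | ∃ τ : Ω ≃ₐ[F] Ω, ∀ c,
    algebraMap k Ω (φ c) = τ (algebraMap k Ω c)} := ⟨_, rfl⟩
  have hτk : ∀ (τ : Ω ≃ₐ[F] Ω) (c : k), τ (algebraMap k Ω c) ∈ (algebraMap k Ω).range := by
    intro τ c
    rw [hk]
    have h1 : IsAlgebraic k₀ (algebraMap k Ω c) := (hk _).1 ⟨c, rfl⟩
    have h2 := h1.algHom ((τ : Ω →ₐ[F] Ω).restrictScalars k₀)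
    exact h2
  have hΓex : ∀ τ : Ω ≃ₐ[F] Ω, ∃ φ ∈ Γ, ∀ c, algebraMap k Ω (φ c) = τ (algebraMap k Ω c) := by
    intro τ
    obtain ⟨φ, hφ⟩ := exists_lift_hom (k := k) (Ω := Ω)
      ((τ : Ω →+* Ω).comp (algebraMap k Ω)) (hτk τ)
    refine ⟨φ, ?_, hφ⟩
    rw [hΓdef]
    exact ⟨τ, hφ⟩
  have hΓ : ∀ φ ∈ Γ, ∀ c : K, φ (algebraMap K k c) = algebraMap K k c := by
    intro φ hφ c
    rw [hΓdef] at hφ
    obtain ⟨τ, hτ⟩ := hφ
    refine (algebraMap k Ω).injective ?_
    rw [hτ, ← IsScalarTower.algebraMap_apply, IsScalarTower.algebraMap_apply K F Ω,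
      AlgEquiv.commutes]
  have hΓs : ∀ φ ∈ Γ, ∀ G ∈ loc k (A.x s'), map φ G ∈ loc k (A.x s') := by
    intro φ hφ G hG
    rw [hΓdef] at hφ
    obtain ⟨τ, hτ⟩ := hφ
    exact map_mem_loc_of_fixed A hs' hτ hG
  -- the subgroup
  obtain ⟨M, _, _, _, _, y, hgrp, hst, hdiff, hker, hmin⟩ := exists_grp A s' Γ hΓ hΓs
  have : CharZero M := charZero_of_injective_algebraMap (algebraMap K M).injective
  obtain ⟨𝔟, h𝔟⟩ : ∃ 𝔟, 𝔟 = loc k (A.x y) := ⟨_, rfl⟩
  have hhom : ∀ G ∈ 𝔟, ∀ d, homogeneousComponent d G ∈ 𝔟 := by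
    rw [h𝔟]
    exact fun G hG d => comp_mem_loc hG d
  rw [← h𝔟] at hgrp hst hdiff
  have hprime : 𝔟.IsPrime := by
    rw [h𝔟]
    exact loc_isPrime
  have hfix : ∀ c : k, (∀ φ ∈ Γ, φ c = c) →
      (∀ δ : Derivation ℤ k k, (∀ c : K, δ (algebraMap K k c) = 0) → δ c = 0) →
        c ∈ (algebraMap K k).range := by
    intro c h1 h2
    have h3 : IsAlgebraic K c := isAlgebraic_of_derivation c h2
    have h4 : algebraMap k Ω c ∈ Set.range (algebraMap F Ω) := by
      rw [InfiniteGalois.mem_range_algebraMap_iff_fixed]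
      intro τ
      obtain ⟨φ, hφ, hφ'⟩ := hΓex τ
      rw [← hφ', h1 φ hφ]
    obtain ⟨a, ha⟩ := h4
    have h5 : IsAlgebraic K a := by
      have h6 : IsAlgebraic K (algebraMap F Ω a) := by
        rw [ha]
        exact h3.algHom (IsScalarTower.toAlgHom K k Ω)
      exact (isAlgebraic_algebraMap_iff (algebraMap F Ω).injective).1 h6
    obtain ⟨a', rfl⟩ := hK a h5
    refine ⟨a', (algebraMap k Ω).injective ?_⟩
    rw [← ha, ← IsScalarTower.algebraMap_apply, ← IsScalarTower.algebraMap_apply]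
  have hdesc := descend 𝔟 Γ hst (fun δ hδ G hG => dc_mem A hgrp h𝔟.symm δ hδ hG) hfix
  have hAI : ∀ f ∈ A.I, ∀ (L : Type u) [Field L] [Algebra K L] (P : A.Pts L),
      f ∈ loc K (A.x P) := by
    intro f hf L _ _ P
    rw [mem_loc]
    intro d
    exact Z_x_isPt A P _ (A.homog f hf d)
  obtain ⟨B, hB, hBI⟩ := exists_sub A hgrp hhom hdesc (fun f hf => by
    rw [h𝔟, map_mem_loc]
    exact hAI f hf M y)
  have hmem : ∀ {f : MvPolynomial (Fin (N + 1)) K}, f ∈ B.I ↔ map (algebraMap K k) f ∈ 𝔟 := by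
    intro f
    rw [hBI]
    rfl
  -- the points of `B`
  have hV0 := fun (L : Type u) [Field L] [Algebra K L] =>
    zero_sub_mem A hgrp hhom hdesc (L := L)
  have hBloc : ∀ {L : Type u} [Field L] [Algebra K L] (P : A.Pts L),
      (∀ f ∈ B.I, f ∈ loc K (A.x P)) ↔ ∀ f ∈ B.I, aeval (A.x P) f = 0 := by
    intro L _ _ P
    refine ⟨fun h f hf => aeval_of_mem_loc (h f hf), fun h f hf => mem_loc.2 fun d => ?_⟩
    exact h _ (B.homog f hf d)
  have hBsub : ∀ {L : Type u} [Field L] [Algebra K L] {P Q : A.Pts L},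
      (∀ f ∈ B.I, f ∈ loc K (A.x P)) → (∀ f ∈ B.I, f ∈ loc K (A.x Q)) →
        ∀ f ∈ B.I, f ∈ loc K (A.x (P - Q)) := by
    intro L _ _ P Q hP hQ
    rw [hBloc] at hP hQ ⊢
    rw [hBI] at hP hQ ⊢
    exact (hV0 L).2 P Q hP hQ
  have hBzero : ∀ (L : Type u) [Field L] [Algebra K L],
      ∀ f ∈ B.I, f ∈ loc K (A.x (0 : A.Pts L)) := by
    intro L _ _
    rw [hBloc, hBI]
    exact (hV0 L).1
  have hBadd : ∀ {L : Type u} [Field L] [Algebra K L] {P Q : A.Pts L},
      (∀ f ∈ B.I, f ∈ loc K (A.x P)) → (∀ f ∈ B.I, f ∈ loc K (A.x Q)) →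
        ∀ f ∈ B.I, f ∈ loc K (A.x (P + Q)) := by
    intro L _ _ P Q hP hQ
    have h1 := hBsub (hBzero L) hQ
    have h2 := hBsub hP h1
    rw [zero_sub, sub_neg_eq_add] at h2
    exact h2
  -- `k` over `k₀`
  obtain ⟨j, hj⟩ : ∃ j : k₀ →+* k, ∀ c, algebraMap k Ω (j c) = algebraMap k₀ Ω c :=
    M_lift_hom (algebraMap k₀ Ω) fun c => (hk _).2 (isAlgebraic_algebraMap _)
  let iA : Algebra k₀ k := j.toAlgebra
  have iT₁ : IsScalarTower K k₀ k := IsScalarTower.of_algebraMap_eq fun c => by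
    refine (algebraMap k Ω).injective ?_
    rw [show algebraMap k₀ k (algebraMap K k₀ c) = j (algebraMap K k₀ c) from rfl, hj,
      ← IsScalarTower.algebraMap_apply, ← IsScalarTower.algebraMap_apply]
  have iT₂ : IsScalarTower k₀ k Ω := IsScalarTower.of_algebraMap_eq fun c => (hj c).symm
  have : CharZero k₀ := charZero_of_injective_algebraMap (algebraMap K k₀).injective
  have hfix₀ : ∀ c : k, (∀ φ ∈ Γ, φ c = c) → c ∈ (algebraMap k₀ k).range := by
    intro c h1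
    have h4 : algebraMap k Ω c ∈ Set.range (algebraMap F Ω) := by
      rw [InfiniteGalois.mem_range_algebraMap_iff_fixed]
      intro τ
      obtain ⟨φ, hφ, hφ'⟩ := hΓex τ
      rw [← hφ', h1 φ hφ]
    obtain ⟨a, ha⟩ := h4
    have h5 : IsAlgebraic k₀ a := by
      have h6 : IsAlgebraic k₀ (algebraMap F Ω a) := by
        rw [ha]
        exact (hk _).1 ⟨c, rfl⟩
      exact (isAlgebraic_algebraMap_iff (algebraMap F Ω).injective).1 h6
    refine ⟨⟨a, hk₀ a h5⟩, (algebraMap k Ω).injective ?_⟩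
    rw [← ha, ← IsScalarTower.algebraMap_apply k₀ k Ω]
    rfl
  have hder₀ : ∀ δ : Derivation ℤ k k, (∀ c : k₀, δ (algebraMap k₀ k c) = 0) → ∀ c, δ c = 0 := by
    intro δ hδ c
    refine M_der δ hδ ?_
    have h1 : IsAlgebraic k₀ (algebraMap k Ω c) := (hk _).1 ⟨c, rfl⟩
    exact (isAlgebraic_algebraMap_iff (algebraMap k Ω).injective).1 h1
  -- the divided point
  obtain ⟨D, hD⟩ := M_coset.{u} hB
  obtain ⟨r, r', s₁, hr, hs₁⟩ := hdiv D.factorial (Nat.factorial_pos D)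
  obtain ⟨s₁', hs₁'⟩ := Z_exists_img A (IsScalarTower.toAlgHom K F Ω) s₁
  have hΓs₁ : ∀ φ ∈ Γ, ∀ G ∈ loc k (A.x s₁'), map φ G ∈ loc k (A.x s₁') := by
    intro φ hφ G hG
    rw [hΓdef] at hφ
    obtain ⟨τ, hτ⟩ := hφ
    exact map_mem_loc_of_fixed A hs₁' hτ hG
  obtain ⟨M₁, _, _, _, _, y₁, hgrp₁, -, hdiff₁, -, hmin₁⟩ := exists_grp A s₁' Γ hΓ hΓs₁
  obtain ⟨rΩ, hrΩ⟩ := Z_exists_img A (IsScalarTower.toAlgHom K F Ω) r'
  have hs'eq : s' = rΩ + D.factorial • s₁' := by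
    have h1 := Z_img_add A hrΩ (Z_img_nsmul A hs₁' D.factorial)
    rw [← hs₁] at h1
    exact Z_img_unique A hs' h1
  have hle₁ : 𝔟 ≤ loc k (A.x y₁) := by
    have h1 : ZP A 𝔟 (D.factorial • y₁) := by
      refine hmin₁ 𝔟 D.factorial (fun L' _ _ _ _ P Q hP hQ => hgrp.2 L' P Q hP hQ) ?_
      intro L' _ _ _ _ ι₁ ι₂ P₁ P₂ hP₁ hP₂
      obtain ⟨c, hc⟩ := Z_exists_img A (IsScalarTower.toAlgHom K k L')
        (A.img (Algebra.ofId K k) r)
      have hrk : A.Img (Algebra.ofId K k) r (A.img (Algebra.ofId K k) r) :=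
        (A.img_eq_iff _).1 rfl
      have hcc : ∀ ι : Ω →ₐ[k] L', A.Img (ι.restrictScalars K) rΩ c := by
        intro ι
        obtain ⟨z, hz⟩ := Z_exists_img A (ι.restrictScalars K) rΩ
        have h1 := img_comp A _ _ (img_comp A _ _ hr hrΩ) hz
        have h2 := img_comp A _ _ hrk hc
        have h3 : (ι.restrictScalars K).comp
            ((IsScalarTower.toAlgHom K F Ω).comp (Algebra.ofId K F)) =
            (IsScalarTower.toAlgHom K k L').comp (Algebra.ofId K k) := Subsingleton.elim _ _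
        rw [h3] at h1
        rw [Z_img_unique A h2 h1]
        exact hz
      have e1 : ∀ (ι : Ω →ₐ[k] L') (P : A.Pts L'), A.Img (ι.restrictScalars K) s₁' P →
          A.Img (ι.restrictScalars K) s' (c + D.factorial • P) := by
        intro ι P hP
        rw [hs'eq]
        exact Z_img_add A (hcc ι) (Z_img_nsmul A hP _)
      have h5 := hdiff L' (c + D.factorial • P₁) (c + D.factorial • P₂)
        (ZP_img A ι₁ (e1 ι₁ P₁ hP₁) le_rfl) (ZP_img A ι₂ (e1 ι₂ P₂ hP₂) le_rfl)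
      rwa [show c + D.factorial • P₁ - (c + D.factorial • P₂) = D.factorial • (P₁ - P₂) by
        rw [smul_sub]; abel] at h5
    have h2 : 𝔟 ≤ loc k (A.x (D.factorial • y₁)) := h1
    rwa [loc_nsmul A hgrp₁ rfl (Nat.factorial_pos D)] at h2
  have hdiff' : ∀ (L' : Type u) [Field L'] [Algebra K L'] [Algebra k L'] [IsScalarTower K k L']
      (P Q : A.Pts L'), ZP A (loc k (A.x s₁')) P → ZP A (loc k (A.x s₁')) Q →
        P - Q ∈ (hB.inc L').range := by
    intro L' _ _ _ _ P Q hP hQ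
    rw [M_range]
    intro f hf
    have h1 : ZP A (loc k (A.x y₁)) (P - Q) := hdiff₁ L' P Q hP hQ
    have h2 := h1 (hle₁ (hmem.1 hf))
    rwa [map_mem_loc] at h2
  -- a point of the coset over `k`
  obtain ⟨w₁, hw₁⟩ := exists_point A (k := k) s₁'
  obtain ⟨W₁, hW₁⟩ := Z_exists_img A (IsScalarTower.toAlgHom K k Ω) w₁
  have hW₁' : ZP A (loc k (A.x s₁')) W₁ := by
    have h1 : loc k (A.x W₁) = loc k (A.x w₁) :=
      loc_img A (Algebra.ofId k Ω) (P := w₁) (P' := W₁) hW₁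
    show loc k (A.x s₁') ≤ loc k (A.x W₁)
    rw [h1]
    exact hw₁
  have hsW₁ : s₁' - W₁ ∈ (hB.inc Ω).range := hdiff' Ω s₁' W₁ le_rfl hW₁'
  have hsτ : ∀ τ : Ω ≃ₐ[F] Ω, A.Img ((τ : Ω →ₐ[F] Ω).restrictScalars K) s₁' s₁' := by
    intro τ
    have h1 := img_comp A _ ((τ : Ω →ₐ[F] Ω).restrictScalars K) hs₁'
      (M_img_img ((τ : Ω →ₐ[F] Ω).restrictScalars K) s₁')
    have h2 : ((τ : Ω →ₐ[F] Ω).restrictScalars K).comp (IsScalarTower.toAlgHom K F Ω) =
        IsScalarTower.toAlgHom K F Ω := AlgHom.ext fun a => τ.commutes a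
    rw [h2] at h1
    have h3 := Z_img_unique A h1 hs₁'
    have h4 := M_img_img (A := A) ((τ : Ω →ₐ[F] Ω).restrictScalars K) s₁'
    rwa [h3] at h4
  have hstab : ∀ φ ∈ Γ, ∀ (σ : k →ₐ[K] k), (∀ c, σ c = φ c) → ∀ W₂, A.Img σ w₁ W₂ →
      W₂ - w₁ ∈ (hB.inc k).range := by
    intro φ hφ σ hσ W₂ hW₂
    rw [hΓdef] at hφ
    obtain ⟨τ, hτ⟩ := hφ
    obtain ⟨Z₂, hZ₂⟩ := Z_exists_img A (IsScalarTower.toAlgHom K k Ω) W₂
    have h1 := img_comp A _ _ hW₂ hZ₂
    obtain ⟨Z₃, hZ₃⟩ := Z_exists_img A ((τ : Ω →ₐ[F] Ω).restrictScalars K) W₁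
    have h2 := img_comp A _ _ hW₁ hZ₃
    have h3 : ((τ : Ω →ₐ[F] Ω).restrictScalars K).comp (IsScalarTower.toAlgHom K k Ω) =
        (IsScalarTower.toAlgHom K k Ω).comp σ := by
      refine AlgHom.ext fun a => ?_
      show τ (algebraMap k Ω a) = algebraMap k Ω (σ a)
      rw [hσ, hτ]
    rw [h3] at h2
    rw [Z_img_unique A h2 h1] at hZ₃
    have h4 : s₁' - Z₂ ∈ (hB.inc Ω).range := M_range_img hB _ (Z_img_sub A (hsτ τ) hZ₃) hsW₁
    have h5 : Z₂ - W₁ ∈ (hB.inc Ω).range := by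
      have h6 := (hB.inc Ω).range.sub_mem hsW₁ h4
      rwa [show s₁' - W₁ - (s₁' - Z₂) = Z₂ - W₁ by abel] at h6
    rw [M_range] at h5 ⊢
    intro f hf
    exact (vanish_img A _ (Z_img_sub A hZ₂ hW₁)).1 (h5 f hf)
  obtain ⟨E, _, _, _, _, ι, P, P', hEf, hED, hP', hPW⟩ :=
    hD k₀ k Γ hΓ hfix₀ hder₀ w₁ hstab
  obtain ⟨PΩ, hPΩ⟩ := Z_exists_img A (IsScalarTower.toAlgHom K k Ω) P'
  have hPE := img_comp A _ _ hP' hPΩ
  obtain ⟨m, p, w₂, hm, hmE, hp, hw₂⟩ := M_center A k₀ hk₀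
    ((IsScalarTower.toAlgHom k₀ k Ω).comp ι)
    ((IsScalarTower.toAlgHom K k Ω).comp (ι.restrictScalars K)) (fun a => rfl) hPE
  obtain ⟨w₂', hw₂'⟩ := Z_exists_img A k₀.val w₂
  have hw₂Ω : A.Img (IsScalarTower.toAlgHom K F Ω) w₂' (∑ l, p l) := by
    obtain ⟨z, hz⟩ := Z_exists_img A (IsScalarTower.toAlgHom K F Ω) w₂'
    have h1 := img_comp A _ _ hw₂' hz
    have h2 : z = ∑ l, p l := Z_img_unique A h1 hw₂
    rw [← h2]
    exact hz
  have hsP : s₁' - PΩ ∈ (hB.inc Ω).range := by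
    have h1 : PΩ - W₁ ∈ (hB.inc Ω).range := M_range_img hB _ (Z_img_sub A hPΩ hW₁) hPW
    have h2 := (hB.inc Ω).range.sub_mem hsW₁ h1
    rwa [show s₁' - W₁ - (PΩ - W₁) = s₁' - PΩ by abel] at h2
  have hsum : m • s₁' - ∑ l, p l ∈ (hB.inc Ω).range := by
    have h1 : m • s₁' - ∑ l, p l = ∑ l, (s₁' - p l) := by
      rw [Finset.sum_sub_distrib, Finset.sum_const, Finset.card_univ, Fintype.card_fin]
    rw [h1]
    refine AddSubgroup.sum_mem _ fun l _ => ?_
    obtain ⟨τ, hτ⟩ := hp l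
    exact M_range_img hB _ (Z_img_sub A (hsτ τ) hτ) hsP
  have hbF : m • s₁ - w₂' ∈ (hB.inc F).range := by
    rw [M_range] at hsum ⊢
    intro f hf
    exact (vanish_img A _ (Z_img_sub A (Z_img_nsmul A hs₁' m) hw₂Ω)).1 (hsum f hf)
  obtain ⟨q, hq⟩ := Nat.dvd_factorial hm (hmE.trans hED)
  obtain ⟨b₀, hb₀⟩ := hbF
  obtain ⟨rk, hrk⟩ := Z_exists_img A (Algebra.ofId K k₀) r
  have hrk' : A.Img k₀.val rk r' := by
    obtain ⟨z, hz⟩ := Z_exists_img A k₀.val rk
    have h1 := img_comp A _ _ hrk hz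
    have h2 : k₀.val.comp (Algebra.ofId K k₀) = Algebra.ofId K F := Subsingleton.elim _ _
    rw [h2] at h1
    rw [Z_img_unique A hr h1]
    exact hz
  obtain ⟨w, w', b, hw', hsw⟩ : ∃ (w : A.Pts k₀) (w' : A.Pts F) (b : B.Pts F),
      A.Img k₀.val w w' ∧ s = w' + hB.inc F b := by
    refine ⟨rk + q • w₂, r' + q • w₂', q • b₀, Z_img_add A hrk' (Z_img_nsmul A hw₂' q), ?_⟩
    rw [map_nsmul, hb₀, hs₁, hq, smul_sub, mul_comm, mul_smul]
    abel
  obtain ⟨wk, hwk⟩ := Z_exists_img A (IsScalarTower.toAlgHom K k₀ k) w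
  obtain ⟨wΩ, hwΩ⟩ := Z_exists_img A (IsScalarTower.toAlgHom K F Ω) w'
  have hwkΩ : A.Img (IsScalarTower.toAlgHom K k Ω) wk wΩ := by
    obtain ⟨z, hz⟩ := Z_exists_img A (IsScalarTower.toAlgHom K k Ω) wk
    have h1 := img_comp A _ _ hwk hz
    have h2 := img_comp A _ _ hw' hwΩ
    have h3 : (IsScalarTower.toAlgHom K k Ω).comp (IsScalarTower.toAlgHom K k₀ k) =
        (IsScalarTower.toAlgHom K F Ω).comp k₀.val := by
      refine AlgHom.ext fun a => ?_
      show algebraMap k Ω (j a) = algebraMap F Ω a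
      rw [hj]
      rfl
    rw [h3] at h1
    rw [Z_img_unique A h2 h1]
    exact hz
  have hex : ∀ {L : Type u} [Field L] [Algebra K L] (P : A.Pts L),
      (∀ f ∈ B.I, f ∈ loc K (A.x P)) → ∃ P' : B.Pts L, hB.inc L P' = P := by
    intro L _ _ P hP
    exact ⟨⟨P.1, (hBloc P).1 hP⟩, Subtype.ext rfl⟩
  refine ⟨B, hB, w, w', b, hw', hsw, ?_, ?_⟩
  · -- minimality
    intro J hJhom hJ hJb
    obtain ⟨𝔠, h𝔠⟩ : ∃ 𝔠 : Ideal (MvPolynomial (Fin (N + 1)) k), 𝔠 =
      (J ⊔ B.I).map (map (algebraMap K k)) := ⟨_, rfl⟩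
    have hc1 : ∀ {L' : Type u} [Field L'] [Algebra K L'] [Algebra k L'] [IsScalarTower K k L']
        (P : A.Pts L'), ZP A 𝔠 P ↔
          (∀ f ∈ B.I, f ∈ loc K (A.x P)) ∧ ∀ f ∈ J, f ∈ loc K (A.x P) := by
      intro L' _ _ _ _ P
      rw [h𝔠, ZP_map_iff, sup_le_iff_mem]
    have hJloc : ∀ {L : Type u} [Field L] [Algebra K L] (P : A.Pts L),
        (∀ f ∈ J, f ∈ loc K (A.x P)) ↔ ∀ f ∈ J, aeval (A.x P) f = 0 := by
      intro L _ _ P
      refine ⟨fun h f hf => aeval_of_mem_loc (h f hf), fun h f hf => mem_loc.2 fun d => ?_⟩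
      exact h _ (hJhom f hf d)
    have hc2 : ∀ {L' : Type u} [Field L'] [Algebra K L'] [Algebra k L'] [IsScalarTower K k L']
        {P Q : A.Pts L'}, ZP A 𝔠 P → ZP A 𝔠 Q → ZP A 𝔠 (P - Q) := by
      intro L' _ _ _ _ P Q hP hQ
      rw [hc1] at hP hQ ⊢
      refine ⟨hBsub hP.1 hQ.1, ?_⟩
      obtain ⟨P', rfl⟩ := hex P hP.1
      obtain ⟨Q', rfl⟩ := hex Q hQ.1
      have e1 : ∀ f ∈ J, aeval (B.x P') f = 0 := by
        intro f hf
        rw [← hB.x_inc P']
        exact aeval_of_mem_loc (hP.2 f hf)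
      have e2 : ∀ f ∈ J, aeval (B.x Q') f = 0 := by
        intro f hf
        rw [← hB.x_inc Q']
        exact aeval_of_mem_loc (hQ.2 f hf)
      have e3 := hJ L' P' Q' e1 e2
      rw [← map_sub, hJloc]
      intro f hf
      rw [hB.x_inc (P' - Q')]
      exact e3 f hf
    -- the point `b` over `Ω`
    obtain ⟨bΩ, hbΩ⟩ := Z_exists_img A (IsScalarTower.toAlgHom K F Ω) (hB.inc F b)
    have hcb : ZP A 𝔠 bΩ := by
      rw [hc1]
      constructor
      · intro f hf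
        rw [vanish_img A _ hbΩ]
        exact (M_range hB).1 ⟨b, rfl⟩ f hf
      · intro f hf
        rw [vanish_img A _ hbΩ]
        revert f hf
        rw [hJloc]
        intro f hf
        rw [hB.x_inc b]
        exact hJb f hf
    have hms : s' = wΩ + bΩ := by
      have h1 := Z_img_add A hwΩ hbΩ
      rw [← hsw] at h1
      exact Z_img_unique A hs' h1
    have hcy : ZP A 𝔠 (1 • y) := by
      refine hmin 𝔠 1 (fun L' _ _ _ _ P Q hP hQ => hc2 hP hQ) ?_
      intro L' _ _ _ _ ι₁ ι₂ P₁ P₂ hP₁ hP₂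
      obtain ⟨c, hc⟩ := Z_exists_img A (IsScalarTower.toAlgHom K k L') wk
      have hcc : ∀ ι : Ω →ₐ[k] L', A.Img (ι.restrictScalars K) wΩ c := by
        intro ι
        obtain ⟨z, hz⟩ := Z_exists_img A (ι.restrictScalars K) wΩ
        have h1 := img_comp A _ _ hwkΩ hz
        have h2 : (ι.restrictScalars K).comp (IsScalarTower.toAlgHom K k Ω) =
            IsScalarTower.toAlgHom K k L' := by
          ext a
          exact ι.commutes a
        rw [h2] at h1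
        rw [Z_img_unique A hc h1]
        exact hz
      obtain ⟨b₁, hb₁⟩ := Z_exists_img A (ι₁.restrictScalars K) bΩ
      obtain ⟨b₂, hb₂⟩ := Z_exists_img A (ι₂.restrictScalars K) bΩ
      have e1 : P₁ = c + b₁ := by
        rw [hms] at hP₁
        exact Z_img_unique A hP₁ (Z_img_add A (hcc ι₁) hb₁)
      have e2 : P₂ = c + b₂ := by
        rw [hms] at hP₂
        exact Z_img_unique A hP₂ (Z_img_add A (hcc ι₂) hb₂)
      have e3 : 1 • (P₁ - P₂) = b₁ - b₂ := by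
        rw [one_smul, e1, e2]
        abel
      rw [e3]
      exact hc2 (ZP_img A ι₁ hb₁ hcb) (ZP_img A ι₂ hb₂ hcb)
    intro f hf
    have h1 : map (algebraMap K k) f ∈ 𝔠 := by
      rw [h𝔠]
      exact Ideal.mem_map_of_mem _ (Ideal.mem_sup_left hf)
    have h2 := hcy h1
    rw [one_smul, ← h𝔟] at h2
    exact hmem.2 h2
  · -- no rational forms
    intro χ hχ τ hτ
    have hKF : ∀ (D : Derivation ℤ F F), (∀ c : k₀, D c = 0) → ∀ c : K,
        D (algebraMap K F c) = 0 := fun D hD c => hD (algebraMap K k₀ c)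
    have h1 : ∀ D : Derivation ℤ F F, (∀ c : k₀, D (algebraMap k₀ F c) = 0) →
        ∑ i, algebraMap k₀ F (χ i) * ell A D s i = 0 := by
      intro D hD
      have h2 := hχ D hD
      have h3 : ell B D b = ell A D s := by
        have h3' : hB.inc F b = s - w' := by
          rw [hsw]
          abel
        rw [← ell_inc hB, h3', ell_sub A (hKF D hD)]
        have h4 : ell A D w' = 0 := by
          have h5 := ell_img A (L := k₀) (L' := F) k₀.val (D := 0) (D' := D) (hKF D hD)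
            (fun a => by
              have : D (k₀.val a) = 0 := hD a
              rw [this]
              simp) hw'
          rw [h5]
          funext i
          have h6 : ell A (0 : Derivation ℤ k₀ k₀) w = 0 := ellv_zero A _
          rw [h6]
          simp
        rw [h4, sub_zero]
      rw [h3] at h2
      exact h2
    have h2 : ∀ D' : Derivation ℤ Ω Ω, (∀ c : k₀, D' (algebraMap k₀ Ω c) = 0) →
        ∑ i, algebraMap k₀ Ω (χ i) * ell A D' s' i = 0 := fun D' hD' =>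
      ell_transfer_zero A (k := k₀) (IsScalarTower.toAlgHom k₀ F Ω) (P := s) (P' := s') hs' χ h1
        D' hD'
    have h3 : ∀ i, ∃ c : k, algebraMap k Ω c = algebraMap k₀ Ω (χ i) := fun i =>
      (hk _).2 (isAlgebraic_algebraMap _)
    choose χ' hχ' using h3
    have h4 : ∀ D' : Derivation ℤ Ω Ω, (∀ c : k, D' (algebraMap k Ω c) = 0) →
        ∑ i, algebraMap k Ω (χ' i) * ell A D' s' i = 0 := by
      intro D' hD'
      simp_rw [hχ']
      refine h2 D' fun c => ?_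
      obtain ⟨c', hc'⟩ := (hk _).2 (isAlgebraic_algebraMap (R := k₀) (A := Ω) c)
      rw [← hc']
      exact hD' c'
    have h5 := hker χ' h4
    have h6 : (fun i => algebraMap K M (τ i)) ∈ Tsp A 𝔟 M := by
      rw [Tsp_sub hB] at hτ
      have h7 := Tsp_map A (I := B.I) (fun f hf => by
        have h8 := hBzero K f hf
        obtain ⟨c, hc, h9⟩ := zero_rep A K
        have h10 : A.x (0 : A.Pts K) = fun i => c * o₀ A i := funext h9
        rw [h10, loc_smul hc] at h8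
        exact aeval_of_mem_loc h8) hτ k M
      have h8 : 𝔟 = B.I.map (map (algebraMap K k)) := by
        rw [hBI]
        exact hdesc
      rw [h8]
      exact h7
    obtain ⟨D, hD, hDy⟩ := exists_der A hgrp h𝔟.symm h6
    have h7 := h5 D hD
    rw [hDy] at h7
    have h8 : algebraMap k M (∑ i, χ' i * algebraMap K k (τ i)) = 0 := by
      rw [map_sum, ← h7]
      refine Finset.sum_congr rfl fun i _ => ?_
      rw [map_mul, ← IsScalarTower.algebraMap_apply]
    have h9 : ∑ i, χ' i * algebraMap K k (τ i) = 0 := (map_eq_zero _).1 h8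
    have h10 : algebraMap k₀ Ω (∑ i, χ i * algebraMap K k₀ (τ i)) = 0 := by
      rw [← map_zero (algebraMap k Ω), ← h9, map_sum, map_sum]
      refine Finset.sum_congr rfl fun i _ => ?_
      rw [map_mul, map_mul, hχ', ← IsScalarTower.algebraMap_apply,
        ← IsScalarTower.algebraMap_apply]
    exact (map_eq_zero _).1 h10

end Pool.Agent.Lib.MP_17a322_nt.VP
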