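import Mathlib.Analysis.SpecialFunctions.Log.Basic

/-!
VP, numerical theorem: the numbers.
-/

namespace Pool.Agent.Lib.MP_17a322_nt.VP

/-- The contradiction. -/
theorem N_num {n g M₀ m a₁ : ℕ} (hm : 0 < m)
    {C CF tau eps del eps' sig eta h G X a nF : ℝ} (hC : 0 ≤ C)
    (htau : 0 ≤ tau) (heps : 0 < eps) (hsig : 0 ≤ sig)
    (heta : 0 ≤ eta) (heta1 : eta ≤ 1) (hh : 0 ≤ h) (hX : 0 < X) (haX : a ≤ sig * X)
    (hnF : nF ≤ CF * X)
    (h1 : del * (2 * tau + eps) ≤ eps / 32) (h2 : del ≤ 1 / 4)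
    (h3 : 2 * n * eps' ≤ eps / 32) (h4 : 2 * a₁ * (g + n * M₀) * eta ≤ eps / 32)
    (h5 : eta ≤ eps / 32) (h6 : sig ≤ 1 / 4) (h7 : sig * (2 * tau + eps) ≤ eps / 32)
    (h8 : sig * (C * (2 + tau)) ≤ eps / 32)
    (h9 : CF + n * eps' * m * C + m * (g + n * M₀) * C + m * C + sig * (m * C) <
      10 * eps / 32 * (m * h)) (hG : (2 * tau + eps) * h ≤ G)
    (hineq : 0 ≤ nF + n * (eps' * m * X) * (C + 2 * h) +
      m * (g + n * M₀) * (C + 2 * a₁ * eta * h) * X + m * (C + (tau + eta) * h) * X -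
      (1 / 2 - del) * m * X * G + a * (G + m * (C + C * (1 + tau + eta) * h))) : False := by
  have hm1 : (1 : ℝ) ≤ m := by exact_mod_cast hm
  have hm0 : (0 : ℝ) ≤ m := zero_le_one.trans hm1
  have hn0 : (0 : ℝ) ≤ n := Nat.cast_nonneg _
  have hg0 : (0 : ℝ) ≤ g := Nat.cast_nonneg _
  have hM0 : (0 : ℝ) ≤ M₀ := Nat.cast_nonneg _
  have ha0 : (0 : ℝ) ≤ a₁ := Nat.cast_nonneg _
  have hG0 : 0 ≤ G := le_trans (by positivity) hG
  have hY : 0 ≤ G + m * (C + C * (1 + tau + eta) * h) := by positivity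
  have e1 := mul_le_mul_of_nonneg_right haX hY
  have e2 : 0 ≤ X * (CF + n * (eps' * m) * (C + 2 * h) +
      m * (g + n * M₀) * (C + 2 * a₁ * eta * h) + m * (C + (tau + eta) * h) -
      (1 / 2 - del) * m * G + sig * (G + m * (C + C * (1 + tau + eta) * h))) := by
    have e3 : X * (CF + n * (eps' * m) * (C + 2 * h) +
      m * (g + n * M₀) * (C + 2 * a₁ * eta * h) + m * (C + (tau + eta) * h) -
      (1 / 2 - del) * m * G + sig * (G + m * (C + C * (1 + tau + eta) * h))) =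
      CF * X + n * (eps' * m * X) * (C + 2 * h) +
      m * (g + n * M₀) * (C + 2 * a₁ * eta * h) * X + m * (C + (tau + eta) * h) * X -
      (1 / 2 - del) * m * X * G + sig * X * (G + m * (C + C * (1 + tau + eta) * h)) := by ring
    rw [e3]
    linarith
  have e4 := nonneg_of_mul_nonneg_right e2 hX
  have hmh : 0 ≤ m * h := mul_nonneg hm0 hh
  -- the main term
  have f1 : 0 ≤ ((1 / 2 - del) * m - sig) * (G - (2 * tau + eps) * h) := by
    refine mul_nonneg ?_ (sub_nonneg.2 hG)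
    have f2 : (1 / 4 : ℝ) * m ≤ (1 / 2 - del) * m :=
      mul_le_mul_of_nonneg_right (by linarith) hm0
    linarith
  have f3 : del * (2 * tau + eps) * (m * h) ≤ eps / 32 * (m * h) :=
    mul_le_mul_of_nonneg_right h1 hmh
  have f4 : sig * (2 * tau + eps) * h ≤ eps / 32 * (m * h) := by
    refine (mul_le_mul_of_nonneg_right h7 hh).trans ?_
    refine mul_le_mul_of_nonneg_left ?_ (by positivity)
    exact le_mul_of_one_le_left hh hm1
  have f5 : 2 * n * eps' * (m * h) ≤ eps / 32 * (m * h) := mul_le_mul_of_nonneg_right h3 hmh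
  have f6 : 2 * a₁ * (g + n * M₀) * eta * (m * h) ≤ eps / 32 * (m * h) :=
    mul_le_mul_of_nonneg_right h4 hmh
  have f7 : eta * (m * h) ≤ eps / 32 * (m * h) := mul_le_mul_of_nonneg_right h5 hmh
  have f8 : sig * (C * (1 + tau + eta)) * (m * h) ≤ eps / 32 * (m * h) := by
    refine mul_le_mul_of_nonneg_right (le_trans ?_ h8) hmh
    refine mul_le_mul_of_nonneg_left (mul_le_mul_of_nonneg_left ?_ hC) hsig
    linarith
  nlinarith

end Pool.Agent.Lib.MP_17a322_nt.VP
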