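import Pool.Agent.Lib.MP_17a322_nt.VP.DefsB
import Pool.Agent.Lib.MP_17a322_nt.VA.LB8
import Pool.Agent.Lib.MP_17a322_nt.VA.E21

/-!
VP, numerical theorem: the path is the sum of its difference with `2 ^ j Q` and of `2 ^ j Q`.
-/

universe u

namespace Pool.Agent.Lib.MP_17a322_nt.VP

open MvPolynomial Height
open Pool.Agent.Lib.MP_17a322_nt.RO
open Pool.Agent.Lib.MP_17a322_nt.VJ
open Pool.Agent.Lib.MP_17a322_nt.VN
open Pool.Agent.Lib.MP_17a322_nt.VA

section

variable {K : Type u} [Field K] {N : ℕ} {A : AV K N}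

theorem N_map_row (b a : Fin (N + 1)) {R R' : Type*} [CommRing R] [Algebra K R] [CommRing R']
    [Algebra K R'] (φ : R →ₐ[K] R') (y y' : Fin (N + 1) → R) :
    φ (A.row b y y' a) = A.row b (fun i => φ (y i)) (fun i => φ (y' i)) a := by
  unfold AV.row
  rw [← AlgHom.comp_apply, MvPolynomial.comp_aeval]
  congr 2
  funext s
  cases s <;> rfl

/-- The constant coefficient as a homomorphism of algebras. -/
noncomputable def N_cc (K : Type u) [Field K] (L : Type u) [Field L] [Algebra K L] :
    PowerSeries L →ₐ[K] L :=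
  { (PowerSeries.constantCoeff (R := L)) with
    commutes' := by
      intro a
      show PowerSeries.constantCoeff (algebraMap K (PowerSeries L) a) = algebraMap K L a
      rw [PowerSeries.algebraMap_apply, PowerSeries.constantCoeff_C] }

theorem N_cc_apply {L : Type u} [Field L] [Algebra K L] (f : PowerSeries L) :
    N_cc K L f = PowerSeries.constantCoeff f := rfl

/-- A vector proportional to a representative of the difference. -/
theorem N_rep_sub {F : Type u} [Field F] [Algebra K F] {P Q : A.Pts F} {y M η : Fin (N + 1) → F}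
    (hy : A.Rep P y) (hM : A.Rep Q M) (l : Fin (N + 1) → K) (a : Fin (N + 1))
    (hne : lf l (A.col a y M) ≠ 0) (hcol : ∀ b, A.col a y M b = η b * lf l (A.col a y M)) :
    A.Rep (P - Q) η := by
  have h1 : A.x (P + Q) a ≠ 0 := by
    intro h0
    apply hne
    obtain ⟨c, -, hs⟩ := hy.spec hM
    unfold VA.lf AV.col
    refine Finset.sum_eq_zero fun b _ => ?_
    rw [hs, h0, zero_mul, mul_zero, mul_zero]
  have h2 := (hy.sub hM h1).smul (inv_ne_zero hne)
  have h3 : (fun i => (lf l (A.col a y M))⁻¹ * aeval (Sum.elim y M) (A.S a i)) = η := by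
    funext b
    have h4 : aeval (Sum.elim y M) (A.S a b) = η b * lf l (A.col a y M) := hcol b
    rw [h4, mul_comm, mul_assoc, mul_inv_cancel₀ hne, mul_one]
  rw [h3] at h2
  exact h2

end

section

variable {K : Type u} [Field K] {N : ℕ} {A : AV K N} {n e : ℕ} (nd : Noe A n e)

/-- The path is the sum of its difference with `2 ^ j Q` and of `2 ^ j Q`. -/
theorem N_row {L : Type u} [Field L] [Algebra K L] (P : A.Pts K) (hP : lf (nd.l 0) (A.x P) ≠ 0)
    (w : ℕ) (ζ : Fin n → L) (S : A.Pts L) (M : Fin (N + 1) → L) (hM : A.Rep S M)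
    (y η : Fin (N + 1) → PowerSeries L) (hb : BlkP nd P w ζ M y η)
    (h0 : A.x (A.img (Algebra.ofId K L) P - 2 • S) A.b₀ ≠ 0) :
    A.Rep (A.img (Algebra.ofId K L) P - S) (fun b => PowerSeries.constantCoeff (η b)) ∧
    ∃ c : PowerSeries L, PowerSeries.constantCoeff c ≠ 0 ∧
      ∀ a, A.row A.b₀ η (fun i => PowerSeries.C (M i)) a = c * y a := by
  obtain ⟨a₀, ha₀⟩ := hb.col_ne
  -- the constant coefficients
  have hy₀ : A.Rep (A.img (Algebra.ofId K L) P) (fun b => PowerSeries.constantCoeff (y b)) := by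
    have h1 := (nd.rep_y P hP).img (Algebra.ofId K L)
    have h2 : (fun b => PowerSeries.constantCoeff (y b)) =
        fun b => Algebra.ofId K L (nd.y P b) := funext fun b => hb.const b
    rw [h2]
    exact h1
  have hC : (fun i => N_cc K L (PowerSeries.C (M i))) = M := by
    funext i
    rw [N_cc_apply, PowerSeries.constantCoeff_C]
  have hcol₀ : ∀ a b, N_cc K L (A.col a y (fun i => PowerSeries.C (M i)) b) =
      A.col a (fun b => PowerSeries.constantCoeff (y b)) M b := by
    intro a b
    rw [AV.map_colE, hC]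
    rfl
  have hlf₀ : ∀ a, N_cc K L (lf (nd.l 0) (A.col a y fun i => PowerSeries.C (M i))) =
      lf (nd.l 0) (A.col a (fun b => PowerSeries.constantCoeff (y b)) M) := by
    intro a
    rw [lf_map]
    congr 1
    funext b
    exact hcol₀ a b
  have hη₀ : A.Rep (A.img (Algebra.ofId K L) P - S)
      (fun b => PowerSeries.constantCoeff (η b)) := by
    refine N_rep_sub hy₀ hM (nd.l 0) a₀ ?_ fun b => ?_
    · rw [← hlf₀]
      exact ha₀
    · rw [← hlf₀, ← hcol₀, hb.col a₀ b, map_mul]
      rfl
  refine ⟨hη₀, lf (nd.l 0) (A.row A.b₀ η fun i => PowerSeries.C (M i)), ?_, ?_⟩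
  · -- the constant coefficient is not zero
    obtain ⟨c', hc', hs⟩ := hη₀.spec hM
    have h1 : PowerSeries.constantCoeff (lf (nd.l 0) (A.row A.b₀ η fun i => PowerSeries.C (M i))) =
        c' * A.x (A.img (Algebra.ofId K L) P - 2 • S) A.b₀ *
          lf (nd.l 0) (A.x (A.img (Algebra.ofId K L) P)) := by
      have h2 : PowerSeries.constantCoeff
          (lf (nd.l 0) (A.row A.b₀ η fun i => PowerSeries.C (M i))) =
          N_cc K L (lf (nd.l 0) (A.row A.b₀ η fun i => PowerSeries.C (M i))) := rfl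
      rw [h2, lf_map]
      unfold VA.lf
      rw [Finset.mul_sum]
      refine Finset.sum_congr rfl fun b _ => ?_
      beta_reduce
      rw [N_map_row, hC]
      have h3 : A.row A.b₀ (fun i => N_cc K L (η i)) M b =
          c' * (A.x (A.img (Algebra.ofId K L) P - S + S) b *
            A.x (A.img (Algebra.ofId K L) P - S - S) A.b₀) := hs b A.b₀
      rw [h3, sub_add_cancel, sub_sub, ← two_nsmul]
      ring
    rw [h1]
    refine mul_ne_zero (mul_ne_zero hc' h0) ?_
    obtain ⟨c, hc, hx⟩ := A.img_rep (Algebra.ofId K L) P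
    have h2 : lf (nd.l 0) (fun i => Algebra.ofId K L (A.x P i)) =
        c * lf (nd.l 0) (A.x (A.img (Algebra.ofId K L) P)) := by
      rw [funext hx]
      unfold VA.lf
      rw [Finset.mul_sum]
      exact Finset.sum_congr rfl fun b _ => by ring
    intro h3
    rw [h3, mul_zero, lf_mapE] at h2
    exact hP ((map_eq_zero _).1 h2)
  · -- over the field of fractions
    let F := FractionRing (PowerSeries L)
    let ι : PowerSeries L →ₐ[K] F := IsScalarTower.toAlgHom K (PowerSeries L) F
    have hι : Function.Injective ι := IsFractionRing.injective (PowerSeries L) F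
    let κ : L →ₐ[K] F := ι.comp (IsScalarTower.toAlgHom K L (PowerSeries L))
    have hκ : ∀ x : L, κ x = ι (PowerSeries.C x) := fun x => rfl
    have hy1 : lf (nd.l 0) (fun i => ι (y i)) = 1 := by
      rw [lf_mapE, hb.lf0, map_one]
    have hyne : (fun i => ι (y i)) ≠ 0 := by
      intro h1
      rw [h1] at hy1
      unfold VA.lf at hy1
      simp at hy1
    obtain ⟨Py, hPy⟩ := AV.exists_rep (A := A) hyne (hb.isPt.map ι)
    have hPM : A.Rep (A.img κ S) (fun i => ι (PowerSeries.C (M i))) := hM.img κ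
    have hPη : A.Rep (Py - A.img κ S) (fun i => ι (η i)) := by
      have h1 : ∀ b, A.col a₀ (fun i => ι (y i)) (fun i => ι (PowerSeries.C (M i))) b =
          ι (A.col a₀ y (fun i => PowerSeries.C (M i)) b) := fun b => by rw [AV.map_colE]
      have h2 : lf (nd.l 0) (A.col a₀ (fun i => ι (y i)) fun i => ι (PowerSeries.C (M i))) =
          ι (lf (nd.l 0) (A.col a₀ y fun i => PowerSeries.C (M i))) := by
        rw [lf_map]
        congr 1
        funext b
        exact h1 b
      refine N_rep_sub hPy hPM (nd.l 0) a₀ ?_ fun b => ?_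
      · rw [h2]
        intro h3
        apply ha₀
        rw [← map_zero ι] at h3
        rw [hι h3, map_zero]
      · rw [h2, h1, hb.col a₀ b, map_mul]
    obtain ⟨c₁, -, hs⟩ := hPη.spec hPM
    obtain ⟨c₂, hc₂, hx₂'⟩ := hPy
    have hx₂ : ∀ a, ι (y a) = c₂ * A.x Py a := hx₂'
    have hrow : ∀ a, A.row A.b₀ (fun i => ι (η i)) (fun i => ι (PowerSeries.C (M i))) a =
        (c₁ * A.x (Py - A.img κ S - A.img κ S) A.b₀ * c₂⁻¹) * ι (y a) := by
      intro a
      have h1 : A.row A.b₀ (fun i => ι (η i)) (fun i => ι (PowerSeries.C (M i))) a =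
          c₁ * (A.x (Py - A.img κ S + A.img κ S) a *
            A.x (Py - A.img κ S - A.img κ S) A.b₀) := hs a A.b₀
      rw [h1, hx₂ a, sub_add_cancel]
      calc c₁ * (A.x Py a * A.x (Py - A.img κ S - A.img κ S) A.b₀) =
          c₁ * A.x (Py - A.img κ S - A.img κ S) A.b₀ * (c₂⁻¹ * c₂) * A.x Py a := by
            rw [inv_mul_cancel₀ hc₂]
            ring
        _ = _ := by ring
    have hlf : ι (lf (nd.l 0) (A.row A.b₀ η fun i => PowerSeries.C (M i))) =
        c₁ * A.x (Py - A.img κ S - A.img κ S) A.b₀ * c₂⁻¹ := by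
      rw [lf_map]
      have h1 : (fun a => ι (A.row A.b₀ η (fun i => PowerSeries.C (M i)) a)) =
          fun a => (c₁ * A.x (Py - A.img κ S - A.img κ S) A.b₀ * c₂⁻¹) * ι (y a) := by
        funext a
        rw [N_map_row]
        exact hrow a
      rw [h1]
      have h2 : lf (nd.l 0) (fun a => (c₁ * A.x (Py - A.img κ S - A.img κ S) A.b₀ * c₂⁻¹) *
          ι (y a)) = (c₁ * A.x (Py - A.img κ S - A.img κ S) A.b₀ * c₂⁻¹) *
            lf (nd.l 0) (fun i => ι (y i)) := by
        unfold VA.lf
        rw [Finset.mul_sum]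
        exact Finset.sum_congr rfl fun b _ => by ring
      rw [h2, hy1, mul_one]
    intro a
    apply hι
    rw [N_map_row, hrow, map_mul, hlf]

end

end Pool.Agent.Lib.MP_17a322_nt.VP
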