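import Pool.Agent.Lib.MP_17a322_nt.VP.N1
import Pool.Agent.Lib.MP_17a322_nt.VN.L1c

/-!
VP, numerical theorem: the size of the quotient of two forms along a path.
-/

universe u

namespace Pool.Agent.Lib.MP_17a322_nt.VP

open MvPolynomial Height
open Pool.Agent.Lib.MP_17a322_nt.RO
open Pool.Agent.Lib.MP_17a322_nt.VJ
open Pool.Agent.Lib.MP_17a322_nt.VN
open Pool.Agent.Lib.MP_17a322_nt.VA

section

variable {L : Type*} [Field L] (v : AbsoluteValue L ℝ)

/-- The substitution `T ↦ T ^ w`, lower bound. -/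
theorem N_expand_ge {r : ℝ} (hr : 0 ≤ r) {w : ℕ} (hw : w ≠ 0) (n : ℕ) (f : PowerSeries L) :
    PN v (r ^ w) n f ≤ PN v r (w * n) (PowerSeries.expand w hw f) := by
  have hw0 : 0 < w := Nat.pos_of_ne_zero hw
  have hco : ∀ k : ℕ, v (PowerSeries.coeff k f) * (r ^ w) ^ k =
      v (PowerSeries.coeff (w * k) (PowerSeries.expand w hw f)) * r ^ (w * k) := by
    intro k
    rw [PowerSeries.coeff_expand, if_pos (dvd_mul_right w k), Nat.mul_div_cancel_left k hw0,
      pow_mul]
  by_cases hv : IsNonarchimedean v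
  · have h1 : PN v (r ^ w) n f = ⨆ k : Fin (n + 1), v (PowerSeries.coeff (k : ℕ) f) *
        (r ^ w) ^ (k : ℕ) := by
      unfold PN
      rw [if_pos hv]
    rw [h1]
    refine ciSup_le fun k => ?_
    rw [hco]
    exact PN_coeff_le v hr (Nat.mul_le_mul_left w (Nat.le_of_lt_succ k.2)) _
  · have h1 : PN v (r ^ w) n f = ∑ k ∈ Finset.range (n + 1), v (PowerSeries.coeff k f) *
        (r ^ w) ^ k := by
      unfold PN
      rw [if_neg hv, ← Finset.sum_range fun k => v (PowerSeries.coeff k f) * (r ^ w) ^ k]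
    have h2 : PN v r (w * n) (PowerSeries.expand w hw f) = ∑ k ∈ Finset.range (w * n + 1),
        v (PowerSeries.coeff k (PowerSeries.expand w hw f)) * r ^ k := by
      unfold PN
      rw [if_neg hv, ← Finset.sum_range fun k =>
        v (PowerSeries.coeff k (PowerSeries.expand w hw f)) * r ^ k]
    rw [h1, h2]
    simp only [hco]
    rw [← Finset.sum_image (f := fun k =>
      v (PowerSeries.coeff k (PowerSeries.expand w hw f)) * r ^ k) (g := fun k => w * k)]
    · refine Finset.sum_le_sum_of_subset_of_nonneg ?_ ?_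
      · intro k hk
        rw [Finset.mem_image] at hk
        obtain ⟨k', hk', rfl⟩ := hk
        rw [Finset.mem_range] at hk' ⊢
        exact Nat.lt_succ_of_le (Nat.mul_le_mul_left w (Nat.le_of_lt_succ hk'))
      · intro k _ _
        exact mul_nonneg (v.nonneg _) (pow_nonneg hr _)
    · intro a _ b _ hab
      exact Nat.eq_of_mul_eq_mul_left hw0 hab

/-- The size of the inverse of a series. -/
theorem N_inv {r lam B : ℝ} (hr : 0 ≤ r) (h0 : 0 ≤ lam) (h1 : lam ≤ 1) (f g : PowerSeries L)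
    (h : f * g = 1) (hB : ∀ n, PN v r n f ≤ B)
    (hlam : lam * (cst v 2 * B) ≤ v (PowerSeries.constantCoeff f)) (n : ℕ) :
    PN v (lam * r) n g ≤ cst v 2 / v (PowerSeries.constantCoeff f) := by
  have ha : PowerSeries.constantCoeff f ≠ 0 := by
    intro h2
    have h3 := congrArg (fun x => PowerSeries.constantCoeff x) h
    simp only [map_mul, map_one] at h3
    rw [h2, zero_mul] at h3
    exact zero_ne_one h3
  have hS : SN v (fun x : L => v x) := SN_self v
  have key := inv_family v (A := PowerSeries L) (fun s x => PN v (s * (lam * r)) n x)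
    (fun s hs _ => SN_PN v (mul_nonneg hs (mul_nonneg h0 hr)) n) n (by
      intro s hs hs1 g
      simp only [one_mul, PN_eq_PA]
      try exact PA_low hS (mul_nonneg h0 hr) hs hs1 n g) f g h (PowerSeries.constantCoeff f) ha (by
      intro s hs hs1
      have h2 := PA_scale hS hr (mul_nonneg hs h0) (mul_le_one₀ hs1 h0 h1) n
        (f - PowerSeries.C (PowerSeries.constantCoeff f))
        (by rw [map_sub, PowerSeries.constantCoeff_C, sub_self])
      have h3 : PN v r n (f - PowerSeries.C (PowerSeries.constantCoeff f)) ≤ B :=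
        (PA_sub_const hS hr n f).trans (hB n)
      have h4 := mul_le_mul_of_nonneg_left h3 (mul_nonneg hs h0)
      have h5 := h2.trans h4
      rw [mul_assoc s lam r, ← PN_eq_PA] at h5
      have h6 : algebraMap L (PowerSeries L) (PowerSeries.constantCoeff f) =
        PowerSeries.C (PowerSeries.constantCoeff f) := rfl
      simp only [h6]
      calc _ ≤ cst v 2 * (s * lam * B) := mul_le_mul_of_nonneg_left h5 (cst_nonneg v 2)
        _ = s * (lam * (cst v 2 * B)) := by ring
        _ ≤ _ := mul_le_mul_of_nonneg_left hlam hs)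
  simp only [one_mul] at key
  exact key

end

section

variable {K L : Type*} [Field K] [Field L] [Algebra K L] (v : AbsoluteValue L ℝ)

/-- The value of a polynomial of bounded degree in each variable. -/
theorem N_aeval_le {R : Type*} [CommRing R] [Algebra L R] [Algebra K R] [IsScalarTower K L R]
    {ν : R → ℝ} (h : SN v ν) {N : ℕ} (F : MvPolynomial (Fin (N + 1)) K) (D : ℕ)
    (hD : ∀ t, F.degreeOf t ≤ D) (g : Fin (N + 1) → R) {Y : ℝ} (hY : 1 ≤ Y)
    (hg : ∀ b, ν (g b) ≤ Y) :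
    ν (aeval g F) ≤ NV v (MvPolynomial.map (algebraMap K L) F) * Y ^ ((N + 1) * D) := by
  refine (h.aeval_le' F (fun _ => D) hD g).trans ?_
  refine mul_le_mul_of_nonneg_left ?_ ((v.nonneg _).trans (coeff_le_NV v _ 0))
  have h1 : ∀ b ∈ (Finset.univ : Finset (Fin (N + 1))), (max 1 (ν (g b))) ^ D ≤ Y ^ D :=
    fun b _ => pow_le_pow_left₀ (zero_le_one.trans (le_max_left _ _)) (max_le hY (hg b)) _
  refine (Finset.prod_le_prod (fun b _ => pow_nonneg (zero_le_one.trans (le_max_left _ _)) _)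
    h1).trans (le_of_eq ?_)
  rw [Finset.prod_const, Finset.card_univ, Fintype.card_fin, ← pow_mul, mul_comm]

/-- The quotient of two forms along a path. -/
theorem N_target {N : ℕ} (D : ℕ) (α β : MvPolynomial (Fin (N + 1)) K)
    (hα : ∀ t, α.degreeOf t ≤ D) (hβ : ∀ t, β.degreeOf t ≤ D) (g : Fin (N + 1) → PowerSeries L)
    (y₀ : Fin (N + 1) → L) (hg0 : ∀ b, PowerSeries.constantCoeff (g b) = y₀ b) {R Y : ℝ}
    (hR : 0 ≤ R) (hY : 1 ≤ Y) (hgb : ∀ b n, PN v R n (g b) ≤ Y) (hβ0 : aeval y₀ β ≠ 0) {B : ℝ}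
    (hB1 : 1 ≤ B) (hB : cst v 2 * (max (NV v (MvPolynomial.map (algebraMap K L) α))
      (NV v (MvPolynomial.map (algebraMap K L) β)) * Y ^ ((N + 1) * D)) ≤
        B * v (aeval y₀ β)) :
    ∃ u : PowerSeries L, u * aeval g β = aeval g α ∧
      ∀ lam, 0 ≤ lam → lam * B ≤ 1 → ∀ n,
        PN v (lam * R) n (u - PowerSeries.C (aeval y₀ α / aeval y₀ β)) ≤ lam * B ^ 2 := by
  have hc : ∀ F : MvPolynomial (Fin (N + 1)) K,
      PowerSeries.constantCoeff (aeval g F) = aeval y₀ F := by
    intro F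
    let φ : PowerSeries L →ₐ[K] L :=
      { (PowerSeries.constantCoeff (R := L)) with
        commutes' := by
          intro a
          show PowerSeries.constantCoeff (algebraMap K (PowerSeries L) a) = algebraMap K L a
          rw [PowerSeries.algebraMap_apply, PowerSeries.constantCoeff_C] }
    have h1 : PowerSeries.constantCoeff (aeval g F) = φ (aeval g F) := rfl
    rw [h1, ← AlgHom.comp_apply, MvPolynomial.comp_aeval]
    congr 2
    funext b
    exact hg0 b
  have hβc : PowerSeries.constantCoeff (aeval g β) ≠ 0 := by rw [hc]; exact hβ0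
  have hinv : aeval g β * (aeval g β)⁻¹ = 1 := PowerSeries.mul_inv_cancel _ hβc
  obtain ⟨u, hu⟩ : ∃ u, u = aeval g α * (aeval g β)⁻¹ := ⟨_, rfl⟩
  have hu1 : u * aeval g β = aeval g α := by
    rw [hu, mul_assoc, mul_comm (aeval g β)⁻¹, hinv, mul_one]
  have hu0 : PowerSeries.constantCoeff u = aeval y₀ α / aeval y₀ β := by
    rw [eq_div_iff hβ0, ← hc, ← hc, ← map_mul, hu1]
  have hB0 : 0 < B := zero_lt_one.trans_le hB1
  have hvβ : 0 < v (aeval y₀ β) := v.pos hβ0
  have hc2 : 0 < cst v 2 := zero_lt_one.trans_le (one_le_cst v (by norm_num))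
  have hYp : 0 < Y ^ ((N + 1) * D) := pow_pos (zero_lt_one.trans_le hY) _
  have hS := fun n => SN_PN v hR n
  have hsβ : ∀ n, PN v R n (aeval g β) ≤
      max (NV v (MvPolynomial.map (algebraMap K L) α))
      (NV v (MvPolynomial.map (algebraMap K L) β)) * Y ^ ((N + 1) * D) := fun n =>
    (N_aeval_le v (hS n) β D hβ g hY fun b => hgb b n).trans
      (mul_le_mul_of_nonneg_right (le_max_right _ _) hYp.le)
  have hsα : ∀ n, PN v R n (aeval g α) ≤
      max (NV v (MvPolynomial.map (algebraMap K L) α))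
      (NV v (MvPolynomial.map (algebraMap K L) β)) * Y ^ ((N + 1) * D) := fun n =>
    (N_aeval_le v (hS n) α D hα g hY fun b => hgb b n).trans
      (mul_le_mul_of_nonneg_right (le_max_left _ _) hYp.le)
  obtain ⟨Z, hZ⟩ : ∃ Z, Z = max (NV v (MvPolynomial.map (algebraMap K L) α))
      (NV v (MvPolynomial.map (algebraMap K L) β)) * Y ^ ((N + 1) * D) := ⟨_, rfl⟩
  rw [← hZ] at hsβ hsα hB
  have hB' : B⁻¹ * (cst v 2 * Z) ≤ v (aeval y₀ β) := by
    have h1 := mul_le_mul_of_nonneg_left hB (inv_nonneg.2 hB0.le)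
    rwa [← mul_assoc B⁻¹ B, inv_mul_cancel₀ hB0.ne', one_mul] at h1
  have hBi : B⁻¹ ≤ 1 := inv_le_one_of_one_le₀ hB1
  have hinvs : ∀ n, PN v (B⁻¹ * R) n (aeval g β)⁻¹ ≤ cst v 2 / v (aeval y₀ β) := by
    intro n
    have h1 := N_inv v hR (inv_nonneg.2 hB0.le) hBi (aeval g β) (aeval g β)⁻¹ hinv hsβ
      (by rw [hc]; exact hB') n
    rwa [hc] at h1
  have hus : ∀ n, PN v (B⁻¹ * R) n u ≤ B := by
    intro n
    have hr' : 0 ≤ B⁻¹ * R := mul_nonneg (inv_nonneg.2 hB0.le) hR
    have hr'' : B⁻¹ * R ≤ R := mul_le_of_le_one_left hR hBi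
    have h1 : PN v (B⁻¹ * R) n (aeval g α) ≤ Z := by
      refine le_trans ?_ (hsα n)
      rw [PN_eq_PA, PN_eq_PA]
      exact PA_mono (SN_self v) hr' hr'' n _
    rw [hu]
    refine ((SN_PN v hr' n).mul _ _).trans ?_
    refine (mul_le_mul h1 (hinvs n) ((SN_PN v hr' n).nonneg _)
      (((SN_PN v hr' n).nonneg _).trans h1)).trans ?_
    rw [← mul_div_assoc, div_le_iff₀ hvβ, mul_comm Z]
    exact hB
  refine ⟨u, hu1, fun lam h0 h1 n => ?_⟩
  have hr' : 0 ≤ B⁻¹ * R := mul_nonneg (inv_nonneg.2 hB0.le) hR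
  have h2 := PA_scale (SN_self v) hr' (mul_nonneg h0 hB0.le) h1 n
    (u - PowerSeries.C (PowerSeries.constantCoeff u))
    (by rw [map_sub, PowerSeries.constantCoeff_C, sub_self])
  have h3 := PA_sub_const (SN_self v) hr' n u
  rw [← PN_eq_PA, ← PN_eq_PA] at h2 h3
  have h4 : lam * B * (B⁻¹ * R) = lam * R := by
    rw [mul_assoc, ← mul_assoc B, mul_inv_cancel₀ hB0.ne', one_mul]
  rw [h4, hu0] at h2
  rw [hu0] at h3
  calc _ ≤ lam * B * PN v (B⁻¹ * R) n (u - PowerSeries.C (aeval y₀ α / aeval y₀ β)) := h2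
    _ ≤ lam * B * B := mul_le_mul_of_nonneg_left (h3.trans (hus n)) (mul_nonneg h0 hB0.le)
    _ = lam * B ^ 2 := by ring

end

end Pool.Agent.Lib.MP_17a322_nt.VP
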