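import Pool.Agent.Lib.MP_17a322_nt.VP.S9
import Pool.Agent.Lib.MP_17a322_nt.VP.S10

/-!
The case in which `t` is transcendental over the coordinates of `p` and the height of `P` is not small.
-/

universe u

namespace Pool.Agent.Lib.MP_17a322_nt.VP

open MvPolynomial Height Filter
open Pool.Agent.Lib.MP_17a322_nt.RO
open Pool.Agent.Lib.MP_17a322_nt.VJ
open Pool.Agent.Lib.MP_17a322_nt.VN hiding lf
open Pool.Agent.Lib.MP_17a322_nt.VA

/-- Everything in terms of `P`. -/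
theorem S_case_c {K : Type u} [Field K] [NumberField K] {N : ℕ} (A : AV K N)
    (Γ : AddSubgroup (A.Pts K)) (hΓ : Γ.FG) (P : ℕ → A.Pts K) (hP : ∀ i, P i ∈ Γ) {H : ℕ → ℝ}
    (hH : Tendsto H (hyperfilter ℕ : Filter ℕ) atTop)
    (hlow : ∃ c : ℝ, 0 < c ∧ ∀ᶠ i in (hyperfilter ℕ : Filter ℕ), c * H i ≤ A.h (P i))
    (hupp : ∃ C : ℝ, 0 < C ∧ ∀ᶠ i in (hyperfilter ℕ : Filter ℕ), A.h (P i) ≤ C * H i)
    {p : A.Pts (GK K)} (hPp : IsGerm A P p)
    {B : AV K N} (hB : IsSubAV B A) {w : A.Pts (k0 K H hH)} {w' : A.Pts (GK K)}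
    (hw : A.Img (k0 K H hH).val w w') {b : B.Pts (GK K)} (hrel : p = w' + hB.inc (GK K) b)
    (hmin : MinSub B b) (hnr : ∀ p₁ : B.Pts K, NoRat B hH (b - B.img (Algebra.ofId K (GK K)) p₁))
    (t : ℕ → K) (ht : ∃ C : ℝ, ∀ᶠ i in (hyperfilter ℕ : Filter ℕ), logHeight₁ (t i) ≤ C * H i)
    (hta : ¬ IsAlgebraic (IntermediateField.adjoin (k0 K H hH) (Set.range (rt (A.x p)))) (gm t))
    (Sg : Finset (AbsoluteValue K ℝ)) (hS : ∀ v ∈ Sg, Pl v) (D : ℕ)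
    (α β : AbsoluteValue K ℝ → MvPolynomial (Fin (N + 1)) K)
    (hαβ : ∀ v ∈ Sg, (α v).IsHomogeneous D ∧ (β v).IsHomogeneous D)
    (hβp : ∀ v ∈ Sg, aeval (A.x p) (β v) ≠ 0)
    (htv : ∀ v ∈ Sg, ∃ C : ℝ, ∀ᶠ i in (hyperfilter ℕ : Filter ℕ), v (t i) ≤ C)
    (ε : ℝ) (hε : 0 < ε) :
    open Classical in
    ∀ᶠ i in (hyperfilter ℕ : Filter ℕ),
      gs (fun v : AbsoluteValue K ℝ => if v ∈ Sg then - Real.log (min 1 (v (t i -
        aeval (A.x (P i)) (α v) / aeval (A.x (P i)) (β v)))) else 0) ≤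
        2 * logHeight₁ (t i) + ε * H i := by
  classical
  have hrel1 : 1 • p = w' + hB.inc (GK K) b := by
    rw [one_smul]
    exact hrel
  obtain ⟨W, hW⟩ := Z_germ_seq A w'
  obtain ⟨Q₀, hQ₀⟩ := Z_germ_seq B b
  obtain ⟨n, hn⟩ := Z_exists_dim B
  obtain ⟨s, e, nd, κ, hcov⟩ := exists_cover B hn
  obtain ⟨p₁, hgood⟩ := exists_shift B Q₀ b hQ₀ hmin e nd
  obtain ⟨q₁, hq₁⟩ : ∃ q₁, q₁ = B.img (Algebra.ofId K (GK K)) p₁ := ⟨_, rfl⟩
  obtain ⟨hQb, hW₂, ⟨w₁, hw₁⟩, hrel₂, hfrm, hlow', hupp'⟩ := S_shift A B hB Γ hΓ P hP hH hlow hupp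
    hPp one_pos hw hrel1 hW hQ₀ p₁ hq₁
  rw [one_smul] at hrel₂
  -- independence
  have hdeg : (n : Cardinal.{u}) ≤ tdeg (k0 K H hH) (B.x b) :=
    independent B hH Q₀ b hQ₀ hmin hnr (fun q => (S_shift A B hB Γ hΓ P hP hH hlow hupp
      hPp one_pos hw hrel1 hW hQ₀ q rfl).2.2.2.2) hn
  have hdeg₂ : (n : Cardinal.{u}) ≤ tdeg (k0 K H hH) (B.x (b - q₁)) := by
    have h1 := tdeg_shift (k := k0 K H hH) (b - q₁) (-p₁)
    have h2 : b - q₁ - B.img (Algebra.ofId K (GK K)) (-p₁) = b := by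
      have h3 : B.img (Algebra.ofId K (GK K)) (-p₁) = - q₁ := by
        rw [hq₁]
        exact (B.imgHom (Algebra.ofId K (GK K))).map_neg p₁
      rw [h3]
      abel
    rw [h2] at h1
    exact hdeg.trans h1
  have hind : ∀ c, AlgebraicIndependent (k0 K H hH) ((nd c).s (b - q₁)) := fun c =>
    s_indep (nd c) (b - q₁) (by rw [hq₁]; exact (hgood c).1) hdeg₂
  -- the coordinates of `b` are in the field of the coordinates of `p`
  obtain ⟨E, hE⟩ : ∃ E : IntermediateField K (GK K), ∀ x, x ∈ E ↔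
      x ∈ IntermediateField.adjoin (k0 K H hH) (Set.range (rt (A.x p))) :=
    ⟨(IntermediateField.adjoin (k0 K H hH) (Set.range (rt (A.x p)))).restrictScalars K,
      fun _ => Iff.rfl⟩
  have hEp : ∀ i, rt (A.x p) i ∈ E := fun i => (hE _).2 (IntermediateField.subset_adjoin _ _ ⟨i, rfl⟩)
  have hEw : ∀ i, rt (A.x (w' + hB.inc (GK K) q₁)) i ∈ E := fun i => by
    rw [hE]
    exact (IntermediateField.adjoin (k0 K H hH) (Set.range (rt (A.x p)))).algebraMap_mem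
      (⟨_, Z_rt_mem A hw₁ i⟩ : k0 K H hH)
  obtain ⟨pE, hpE⟩ := Z_descend A E p hEp
  obtain ⟨wE, hwE⟩ := Z_descend A E _ hEw
  have hdiff := Z_img_sub A hpE hwE
  have hbE : ∀ i, rt (B.x (b - q₁)) i ∈ E := by
    intro i
    have h1 := Z_rt_mem A hdiff i
    have h2 : p - (w' + hB.inc (GK K) q₁) = hB.inc (GK K) (b - q₁) := by
      rw [hrel₂]
      abel
    rw [h2] at h1
    exact h1
  have htc : ∀ c, ¬ IsAlgebraic (Algebra.adjoin (k0 K H hH)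
      (Set.range ((nd c).s (b - q₁)))) (gm t) := by
    intro c hc
    apply hta
    rw [← IntermediateField.isAlgebraic_adjoin_iff] at hc
    refine S_alg_trans _ _ (fun x hx => ?_) hc
    have h1 : IntermediateField.adjoin (k0 K H hH) (Set.range ((nd c).s (b - q₁))) ≤
        IntermediateField.adjoin (k0 K H hH) (Set.range (rt (A.x p))) := by
      rw [IntermediateField.adjoin_le_iff]
      rintro _ ⟨k, rfl⟩
      exact (hE _).1 (Z_s_mem (nd c) E (b - q₁) hbE k)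
    exact isAlgebraic_algebraMap (⟨x, h1 hx⟩ :
      IntermediateField.adjoin (k0 K H hH) (Set.range (rt (A.x p))))
  have hrelK : ∀ᶠ i in (hyperfilter ℕ : Filter ℕ),
      P i = (W i + hB.inc K p₁) + hB.inc K (Q₀ i - p₁) := by
    have h1 := hPp
    rw [hrel₂] at h1
    exact h1.ev_eq (hW₂.add_sub (hQb.inc hB)).1
  exact case_c A B hB hH P p hPp (fun i => W i + hB.inc K p₁) w₁ _ hw₁ hW₂
    (fun i => Q₀ i - p₁) (b - q₁) hQb hrel₂ hrelK hfrm hlow' hupp' hn e nd κ hcov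
    (fun c => by rw [hq₁]; exact hgood c) (by rw [hq₁]; exact hnr p₁) hind t ht htc Sg hS D α β
    (fun v hv => ⟨(hαβ v hv).1, (hαβ v hv).2, fun h0 => hβp v hv (Z_x_isPt A p _ h0)⟩)
    (fun v hv δ hδ => Ov_form A Γ hΓ P hP hH hupp hPp (hS v hv) (hαβ v hv).2 (hβp v hv) δ hδ)
    htv ε hε

end Pool.Agent.Lib.MP_17a322_nt.VP
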