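import Pool.Agent.Lib.MP_17a322_nt.VP.P1
import Pool.Agent.Lib.MP_17a322_nt.VP.P2
import Pool.Agent.Lib.MP_17a322_nt.VP.R6
import Pool.Agent.Lib.MP_17a322_nt.VP.S11
import Pool.Agent.Lib.MP_17a322_nt.VP.M7

/-!
Sequences of points with one target for each place.
-/

universe u

namespace Pool.Agent.Lib.MP_17a322_nt.VP

open MvPolynomial Height Filter
open Pool.Agent.Lib.MP_17a322_nt.RO
open Pool.Agent.Lib.MP_17a322_nt.VJ
open Pool.Agent.Lib.MP_17a322_nt.VN hiding lf
open Pool.Agent.Lib.MP_17a322_nt.VA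

/-- The three cases. -/
theorem P_core {K : Type u} [Field K] [NumberField K] {N : ℕ} (A : AV K N)
    (Γ : AddSubgroup (A.Pts K)) (hΓ : Γ.FG) {H : ℕ → ℝ}
    (hH : Tendsto H (hyperfilter ℕ : Filter ℕ) atTop) (P : ℕ → A.Pts K) (hPΓ : ∀ i, P i ∈ Γ)
    (t : ℕ → K) (hHt : ∀ i, H i = logHeight₁ (t i) + A.h (P i))
    (Sg : Finset (AbsoluteValue K ℝ)) (hS : ∀ v ∈ Sg, Pl v) (D : ℕ)
    (α β : AbsoluteValue K ℝ → MvPolynomial (Fin (N + 1)) K)
    (hαβ : ∀ v ∈ Sg, (α v).IsHomogeneous D ∧ (β v).IsHomogeneous D)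
    (hβ : ∀ v ∈ Sg, ∀ᶠ i in (hyperfilter ℕ : Filter ℕ), aeval (A.x (P i)) (β v) ≠ 0)
    (htv : ∀ v ∈ Sg, ∃ C : ℝ, ∀ᶠ i in (hyperfilter ℕ : Filter ℕ), v (t i) ≤ C)
    (hne : ∀ v ∈ Sg, ∀ᶠ i in (hyperfilter ℕ : Filter ℕ),
      aeval (A.x (P i)) (α v) - t i * aeval (A.x (P i)) (β v) ≠ 0)
    (ε : ℝ) (hε : 0 < ε) :
    open Classical in
    ∀ᶠ i in (hyperfilter ℕ : Filter ℕ),
      gs (fun v : AbsoluteValue K ℝ => if v ∈ Sg then - Real.log (min 1 (v (t i -
        aeval (A.x (P i)) (α v) / aeval (A.x (P i)) (β v)))) else 0) ≤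
        2 * logHeight₁ (t i) + ε * H i := by
  classical
  have hh0 : ∀ i, 0 ≤ A.h (P i) := fun i => logHeight_nonneg _
  have ht0 : ∀ i, 0 ≤ logHeight₁ (t i) := fun i => zero_le_logHeight₁ _
  have hupp : ∃ C : ℝ, 0 < C ∧ ∀ᶠ i in (hyperfilter ℕ : Filter ℕ), A.h (P i) ≤ C * H i :=
    ⟨1, one_pos, Eventually.of_forall fun i => by
      have := hHt i
      have := ht0 i
      linarith⟩
  have htH : ∃ C : ℝ, ∀ᶠ i in (hyperfilter ℕ : Filter ℕ), logHeight₁ (t i) ≤ C * H i :=
    ⟨1, Eventually.of_forall fun i => by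
      have := hHt i
      have := hh0 i
      linarith⟩
  obtain ⟨p, hPp⟩ := Z_exists_germ A P
  by_cases hta : IsAlgebraic (IntermediateField.adjoin (k0 K H hH) (Set.range (rt (A.x p)))) (gm t)
  · -- `t` is algebraic over the field of `p`
    obtain ⟨M, hM0, hM⟩ := P_gs_ite_le (K := K) Sg
    have hplace : ∀ v ∈ Sg, ∀ᶠ i in (hyperfilter ℕ : Filter ℕ), - Real.log (min 1 (v (t i -
        aeval (A.x (P i)) (α v) / aeval (A.x (P i)) (β v)))) ≤ ε / M * H i := by
      intro v hv
      obtain ⟨C, hC⟩ : ∃ C : ℝ, C = max 1 (NV v (β v)) := ⟨_, rfl⟩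
      have hC1 : 1 ≤ C := hC ▸ le_max_left _ _
      filter_upwards [P_lower_t Γ hΓ hPΓ hH hupp hPp (hS v hv) (hαβ v hv).1 (hαβ v hv).2 t hta
        (hne v hv) (ε / M / 2) (by positivity), hβ v hv, hne v hv,
        oH_const hH (Real.log C) (ε / M / 2) (by positivity), hH.eventually_ge_atTop 0]
        with i h1 h2 h3 h4 h5
      refine (P_neg_log_min_le _).trans (max_le (by positivity) ?_)
      obtain ⟨S, hS⟩ : ∃ S : ℝ, S = ⨆ a, v (A.x (P i) a) := ⟨_, rfl⟩
      have hS0 : 0 < S := hS ▸ P_sup_pos (Z_x_ne A (P i)) v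
      have g1 := P_form_le (hαβ v hv).2 (Z_x_ne A (P i)) v
      rw [← hS] at h1
      rw [← hS, ← hC] at g1
      have g2 := v.pos h2
      have g3 := v.pos h3
      have e1 : t i - aeval (A.x (P i)) (α v) / aeval (A.x (P i)) (β v) =
          - (aeval (A.x (P i)) (α v) - t i * aeval (A.x (P i)) (β v)) /
            aeval (A.x (P i)) (β v) := by
        field_simp
        ring
      rw [e1, map_div₀, v.map_neg]
      have g4 : Real.exp (-(ε / M / 2) * H i) / C ≤
          v (aeval (A.x (P i)) (α v) - t i * aeval (A.x (P i)) (β v)) /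
            v (aeval (A.x (P i)) (β v)) := by
        rw [div_le_div_iff₀ (by positivity) g2]
        have h6 : Real.exp (-(ε / M / 2) * H i) * v (aeval (A.x (P i)) (β v)) ≤
            Real.exp (-(ε / M / 2) * H i) * (C * S ^ D) :=
          mul_le_mul_of_nonneg_left g1 (Real.exp_pos _).le
        have h7 := mul_le_mul_of_nonneg_right h1 (zero_le_one.trans hC1)
        linarith
      have g5 := Real.log_le_log (by positivity) g4
      rw [Real.log_div (by positivity) (by positivity), Real.log_exp] at g5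
      linarith
    filter_upwards [(eventually_all_finset Sg).2 hplace, hH.eventually_ge_atTop 0] with i h1 h2
    have h3 := hM (fun v => - Real.log (min 1 (v (t i -
        aeval (A.x (P i)) (α v) / aeval (A.x (P i)) (β v))))) (ε / M * H i) (by positivity) h1
    have h4 : M * (ε / M * H i) = ε * H i := by field_simp
    rw [h4] at h3
    have h5 := ht0 i
    linarith
  · by_cases hsm : oH H fun i => A.h (P i)
    · -- the points of `A` have small height
      refine R0 hH Sg hS t (fun v i => aeval (A.x (P i)) (α v) / aeval (A.x (P i)) (β v))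
        ?_ htH ?_ ε hε
      · refine ⟨1 / 2, by norm_num, ?_⟩
        filter_upwards [hsm (1 / 2) (by norm_num)] with i hi
        have := hHt i
        linarith
      · intro v hv
        have h1 := (hsm.const_mul hH (c := D) (Nat.cast_nonneg D)).add
          ((oH_const hH (nh1 (α v))).add (oH_const hH (nh1 (β v))))
        refine h1.mono ?_
        filter_upwards [hβ v hv] with i hi
        have h2 := P_height_div (α v) (β v) (hαβ v hv).1 (hαβ v hv).2 (A.x (P i))
          (Z_x_ne A (P i)) hi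
        have h3 : logHeight (A.x (P i)) = A.h (P i) := rfl
        rw [h3] at h2
        linarith
    · have hlow : ∃ c : ℝ, 0 < c ∧ ∀ᶠ i in (hyperfilter ℕ : Filter ℕ), c * H i ≤ A.h (P i) := by
        unfold oH at hsm
        push Not at hsm
        obtain ⟨c, hc, h1⟩ := hsm
        exact ⟨c, hc, h1.mono fun i hi => hi.le⟩
      obtain ⟨B, hB, w, w', b, hw, hrel, hmin, hnr⟩ := geom_noRat1 A hH Γ hΓ P hPΓ p hPp
      refine S_case_c A Γ hΓ P hPΓ hH hlow hupp hPp hB hw hrel hmin hnr t htH hta Sg hS D α β hαβ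
        (fun v hv => ?_) htv ε hε
      obtain ⟨c, hc, h1⟩ := hPp
      intro h0
      have h2 := Z_aeval_smul (hαβ v hv).2 c (A.x p)
      rw [h0, mul_zero] at h2
      have h3 : (fun i => c * A.x p i) = fun i => gm fun ν => A.x (P ν) i := by
        funext i
        exact (h1 i).symm
      rw [h3, Z_aeval_gm, gm_eq_zero_iff] at h2
      obtain ⟨ν, h4, h5⟩ := ((hβ v hv).and h2).exists
      exact h4 h5

end Pool.Agent.Lib.MP_17a322_nt.VP
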