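import Pool.Agent.Lib.MP_17a322_nt.VA.Z7

/-!
Generic sequences of points of `P^1 x A`.
-/

universe u

namespace Pool.Agent.Lib.MP_17a322_nt.VP

open MvPolynomial Height Filter
open Pool.Agent.Lib.MP_17a322_nt.RO
open Pool.Agent.Lib.MP_17a322_nt.VJ
open Pool.Agent.Lib.MP_17a322_nt.VN hiding lf
open Pool.Agent.Lib.MP_17a322_nt.VA

/-- The value at `(t, x)` of a polynomial in `t` whose coefficients are forms. -/
noncomputable def P_ev {K : Type*} [Field K] {N : ℕ} (x : Fin (N + 1) → K) (t : K) :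
    Polynomial (MvPolynomial (Fin (N + 1)) K) →+* K :=
  Polynomial.eval₂RingHom (aeval x : MvPolynomial (Fin (N + 1)) K →ₐ[K] K).toRingHom t

theorem P_ev_C {K : Type*} [Field K] {N : ℕ} (x : Fin (N + 1) → K) (t : K)
    (f : MvPolynomial (Fin (N + 1)) K) : P_ev x t (Polynomial.C f) = aeval x f :=
  Polynomial.eval₂_C _ _

theorem P_ev_X {K : Type*} [Field K] {N : ℕ} (x : Fin (N + 1) → K) (t : K) :
    P_ev x t Polynomial.X = t :=
  Polynomial.eval₂_X _ _

theorem P_ev_sum {K : Type*} [Field K] {N : ℕ} (x : Fin (N + 1) → K) (t : K)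
    (G : Polynomial (MvPolynomial (Fin (N + 1)) K)) :
    P_ev x t G = ∑ k ∈ Finset.range (G.natDegree + 1), aeval x (G.coeff k) * t ^ k :=
  Polynomial.eval₂_eq_sum_range _ _

/-- All coefficients are forms of degree `D`. -/
def P_hom {K : Type*} [Field K] {N : ℕ} (G : Polynomial (MvPolynomial (Fin (N + 1)) K)) (D : ℕ) :
    Prop :=
  ∀ k, (G.coeff k).IsHomogeneous D

section

variable {K : Type*} [Field K] {N : ℕ}

theorem P_hom.mul {G G' : Polynomial (MvPolynomial (Fin (N + 1)) K)} {D D' : ℕ}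
    (h : P_hom G D) (h' : P_hom G' D') : P_hom (G * G') (D + D') := by
  intro k
  rw [Polynomial.coeff_mul]
  exact IsHomogeneous.sum _ _ _ fun p _ => (h p.1).mul (h' p.2)

theorem P_hom_one : P_hom (1 : Polynomial (MvPolynomial (Fin (N + 1)) K)) 0 := by
  intro k
  rw [Polynomial.coeff_one]
  split_ifs
  · exact isHomogeneous_one _ _
  · exact isHomogeneous_zero _ _ _

theorem P_hom_prod {ι : Type*} (s : Finset ι)
    (G : ι → Polynomial (MvPolynomial (Fin (N + 1)) K)) (D : ι → ℕ)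
    (h : ∀ i ∈ s, P_hom (G i) (D i)) : P_hom (∏ i ∈ s, G i) (∑ i ∈ s, D i) := by
  classical
  induction s using Finset.induction_on with
  | empty => exact P_hom_one
  | insert a s ha ih =>
    rw [Finset.prod_insert ha, Finset.sum_insert ha]
    exact (h a (Finset.mem_insert_self a s)).mul
      (ih fun i hi => h i (Finset.mem_insert_of_mem hi))

theorem P_hom_C {f : MvPolynomial (Fin (N + 1)) K} {D : ℕ} (hf : f.IsHomogeneous D) :
    P_hom (Polynomial.C f) D := by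
  intro k
  rw [Polynomial.coeff_C]
  split_ifs
  · exact hf
  · exact isHomogeneous_zero _ _ _

/-- The polynomial `α - T β`. -/
noncomputable def P_tgt (α β : MvPolynomial (Fin (N + 1)) K) :
    Polynomial (MvPolynomial (Fin (N + 1)) K) :=
  Polynomial.C α - Polynomial.X * Polynomial.C β

theorem P_ev_tgt (x : Fin (N + 1) → K) (t : K) (α β : MvPolynomial (Fin (N + 1)) K) :
    P_ev x t (P_tgt α β) = aeval x α - t * aeval x β := by
  rw [P_tgt, map_sub, map_mul, P_ev_C, P_ev_X, P_ev_C]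

theorem P_coeff_tgt (α β : MvPolynomial (Fin (N + 1)) K) :
    (P_tgt α β).coeff 0 = α ∧ (P_tgt α β).coeff 1 = - β ∧
      ∀ k, (P_tgt α β).coeff (k + 2) = 0 := by
  unfold P_tgt
  refine ⟨?_, ?_, fun k => ?_⟩
  · rw [Polynomial.coeff_sub, Polynomial.coeff_C_zero, Polynomial.coeff_X_mul_zero, sub_zero]
  · rw [Polynomial.coeff_sub, Polynomial.coeff_X_mul, Polynomial.coeff_C_zero,
      Polynomial.coeff_C_of_ne_zero one_ne_zero, zero_sub]
  · rw [Polynomial.coeff_sub, Polynomial.coeff_X_mul, Polynomial.coeff_C_of_ne_zero (by omega),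
      Polynomial.coeff_C_of_ne_zero (by omega), sub_zero]

theorem P_hom_tgt {α β : MvPolynomial (Fin (N + 1)) K} {D : ℕ} (hα : α.IsHomogeneous D)
    (hβ : β.IsHomogeneous D) : P_hom (P_tgt α β) D := by
  obtain ⟨h0, h1, h2⟩ := P_coeff_tgt α β
  rintro (_ | _ | k)
  · rw [h0]
    exact hα
  · rw [h1]
    exact hβ.neg
  · rw [h2]
    exact isHomogeneous_zero _ _ _

end

section

variable {K : Type u} [Field K] {N : ℕ} (A : AV K N)

theorem P_prime : (Ideal.map (Polynomial.C : MvPolynomial (Fin (N + 1)) K →+* _) A.I).IsPrime := by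
  have := Z_prime A
  exact Ideal.isPrime_map_C_of_isPrime

theorem P_mem {G : Polynomial (MvPolynomial (Fin (N + 1)) K)} :
    G ∉ Ideal.map (Polynomial.C : MvPolynomial (Fin (N + 1)) K →+* _) A.I ↔
      ∃ k, G.coeff k ∉ A.I := by
  rw [Ideal.mem_map_C_iff]
  push Not
  rfl

theorem P_mul {G G' : Polynomial (MvPolynomial (Fin (N + 1)) K)} (h : ∃ k, G.coeff k ∉ A.I)
    (h' : ∃ k, G'.coeff k ∉ A.I) : ∃ k, (G * G').coeff k ∉ A.I := by
  rw [← P_mem] at *
  intro h0
  rcases (P_prime A).mem_or_mem h0 with h1 | h1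
  · exact h h1
  · exact h' h1

theorem P_prod {ι : Type*} (s : Finset ι) (G : ι → Polynomial (MvPolynomial (Fin (N + 1)) K))
    (h : ∀ i ∈ s, ∃ k, (G i).coeff k ∉ A.I) : ∃ k, (∏ i ∈ s, G i).coeff k ∉ A.I := by
  rw [← P_mem]
  intro h0
  obtain ⟨i, hi, h1⟩ := ((P_prime A).prod_mem_iff).1 h0
  exact (P_mem A).2 (h i hi) h1

end

/-- Generic sequences of bad points. -/
theorem P_generic_seq {K : Type u} [Field K] [NumberField K] {N : ℕ} (A : AV K N)
    (bad : ℕ → Set (K × A.Pts K))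
    (h : ∀ (G : Polynomial (MvPolynomial (Fin (N + 1)) K)) (D : ℕ), P_hom G D →
      (∃ k, G.coeff k ∉ A.I) → ∀ ν : ℕ, ∃ q ∈ bad ν, P_ev (A.x q.2) q.1 G ≠ 0) :
    ∃ q : ℕ → K × A.Pts K, (∀ ν, q ν ∈ bad ν) ∧
      ∀ (G : Polynomial (MvPolynomial (Fin (N + 1)) K)) (D : ℕ), P_hom G D →
        (∃ k, G.coeff k ∉ A.I) → ∀ᶠ ν in atTop, P_ev (A.x (q ν).2) (q ν).1 G ≠ 0 := by
  classical
  have hpr := Z_prime A
  have hc : Countable {G : Polynomial (MvPolynomial (Fin (N + 1)) K) //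
      (∃ D, P_hom G D) ∧ ∃ k, G.coeff k ∉ A.I} := by
    have h1 := countable_mvPolynomial K (N + 1)
    have h2 : Countable (Polynomial (MvPolynomial (Fin (N + 1)) K)) := by
      rw [← Cardinal.mk_le_aleph0_iff]
      exact Polynomial.cardinalMk_le_max.trans (max_le Cardinal.mk_le_aleph0 le_rfl)
    infer_instance
  have hne : Nonempty {G : Polynomial (MvPolynomial (Fin (N + 1)) K) //
      (∃ D, P_hom G D) ∧ ∃ k, G.coeff k ∉ A.I} :=
    ⟨⟨1, ⟨0, P_hom_one⟩, 0, by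
      rw [Polynomial.coeff_one_zero]
      exact fun h1 => hpr.ne_top ((Ideal.eq_top_iff_one _).2 h1)⟩⟩
  obtain ⟨E, hE⟩ := exists_surjective_nat
    {G : Polynomial (MvPolynomial (Fin (N + 1)) K) // (∃ D, P_hom G D) ∧ ∃ k, G.coeff k ∉ A.I}
  choose d hd using fun i => (E i).2.1
  have hhom : ∀ ν : ℕ, P_hom (∏ i ∈ Finset.range (ν + 1),
      (E i : Polynomial (MvPolynomial (Fin (N + 1)) K))) (∑ i ∈ Finset.range (ν + 1), d i) :=
    fun ν => P_hom_prod _ _ _ fun i _ => hd i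
  have hprod : ∀ ν : ℕ, ∃ k, (∏ i ∈ Finset.range (ν + 1),
      (E i : Polynomial (MvPolynomial (Fin (N + 1)) K))).coeff k ∉ A.I :=
    fun ν => P_prod A _ _ fun i _ => (E i).2.2
  choose q hq hqG using fun ν => h _ _ (hhom ν) (hprod ν) ν
  refine ⟨q, hq, fun G D hGD hG => ?_⟩
  obtain ⟨i, hi⟩ := hE ⟨G, ⟨D, hGD⟩, hG⟩
  refine eventually_atTop.2 ⟨i, fun ν hν => ?_⟩
  have h1 := hqG ν
  rw [map_prod] at h1
  have h2 := Finset.prod_ne_zero_iff.1 h1 i (Finset.mem_range.2 (by omega))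
  rw [hi] at h2
  exact h2

end Pool.Agent.Lib.MP_17a322_nt.VP
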