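import Pool.Agent.Lib.MP_17a322_nt.VP.P3
import Pool.Agent.Lib.MP_17a322_nt.VP.P4

/-!
One target for each place; the inequality for sequences bounded at the places in question.
-/

universe u

namespace Pool.Agent.Lib.MP_17a322_nt.VP

open MvPolynomial Height Filter
open Pool.Agent.Lib.MP_17a322_nt.RO
open Pool.Agent.Lib.MP_17a322_nt.VJ
open Pool.Agent.Lib.MP_17a322_nt.VN hiding lf
open Pool.Agent.Lib.MP_17a322_nt.VA

section

variable {K : Type u} [Field K] [NumberField K] {N : ℕ} {A : AV K N}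
  {Γ : AddSubgroup (A.Pts K)} (hΓ : Γ.FG) {H : ℕ → ℝ}
  (hH : Tendsto H (hyperfilter ℕ : Filter ℕ) atTop) {P : ℕ → A.Pts K} (hPΓ : ∀ i, P i ∈ Γ)
  {t : ℕ → K} (hHt : ∀ i, H i = logHeight₁ (t i) + A.h (P i))

include hHt in
theorem P_upp : ∃ C : ℝ, 0 < C ∧ ∀ᶠ i in (hyperfilter ℕ : Filter ℕ), A.h (P i) ≤ C * H i :=
  ⟨1, one_pos, Eventually.of_forall fun i => by
    have := hHt i
    have : 0 ≤ logHeight₁ (t i) := zero_le_logHeight₁ _
    linarith⟩

include hΓ hH hPΓ hHt in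
/-- Two targets cannot be close at the same place. -/
theorem P_other {v : AbsoluteValue K ℝ} (hv : Pl v) {D : ℕ}
    {α β α' β' : MvPolynomial (Fin (N + 1)) K} (hα : α.IsHomogeneous D) (hβ : β.IsHomogeneous D)
    (hα' : α'.IsHomogeneous D) (hβ' : β'.IsHomogeneous D)
    (hd : ∀ᶠ i in (hyperfilter ℕ : Filter ℕ), aeval (A.x (P i)) (α * β' - α' * β) ≠ 0)
    (htv : ∃ C : ℝ, ∀ᶠ i in (hyperfilter ℕ : Filter ℕ), v (t i) ≤ C)
    (hne : ∀ᶠ i in (hyperfilter ℕ : Filter ℕ),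
      aeval (A.x (P i)) α - t i * aeval (A.x (P i)) β ≠ 0)
    (hne' : ∀ᶠ i in (hyperfilter ℕ : Filter ℕ),
      aeval (A.x (P i)) α' - t i * aeval (A.x (P i)) β' ≠ 0)
    (hle : ∀ᶠ i in (hyperfilter ℕ : Filter ℕ),
      P_lam D α β (t i) (A.x (P i)) v ≤ P_lam D α' β' (t i) (A.x (P i)) v)
    (ε : ℝ) (hε : 0 < ε) :
    ∀ᶠ i in (hyperfilter ℕ : Filter ℕ), P_lam D α β (t i) (A.x (P i)) v ≤ ε * H i := by
  obtain ⟨C₀, hC₀⟩ := htv
  obtain ⟨C, hC⟩ : ∃ C : ℝ, C = max 1 (NV v β) + max 1 (NV v β') := ⟨_, rfl⟩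
  have hC1 : 0 < C := by
    rw [hC]
    positivity
  have hom : (α * β' - α' * β).IsHomogeneous (D + D) := (hα.mul hβ').sub (hα'.mul hβ)
  obtain ⟨p, hPp⟩ := Z_exists_germ A P
  filter_upwards [P_lower_form Γ hΓ hPΓ hH (P_upp hHt) hPp hv hom hd (ε / 2) (by positivity),
    hC₀, hne, hne', hle,
    oH_const hH (Real.log (max 1 C₀) + Real.log C) (ε / 2) (by positivity)]
    with i h1 h2 h3 h4 h5 h6
  obtain ⟨S, hS⟩ : ∃ S : ℝ, S = ⨆ a, v (A.x (P i) a) := ⟨_, rfl⟩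
  have hS0 : 0 < S := hS ▸ P_sup_pos (Z_x_ne A (P i)) v
  have g1 := P_form_le hβ (Z_x_ne A (P i)) v
  have g2 := P_form_le hβ' (Z_x_ne A (P i)) v
  obtain ⟨u, hu⟩ : ∃ u, u = aeval (A.x (P i)) α - t i * aeval (A.x (P i)) β := ⟨_, rfl⟩
  obtain ⟨u', hu'⟩ : ∃ u', u' = aeval (A.x (P i)) α' - t i * aeval (A.x (P i)) β' := ⟨_, rfl⟩
  rw [← hu] at h3
  rw [← hu'] at h4
  have g3 := v.pos h3
  have g4 := v.pos h4
  unfold P_lam at h5 ⊢
  rw [← hS, ← hu, ← hu'] at h5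
  rw [← hS, ← hu]
  rw [← hS] at h1 g1 g2
  have g5 : v u' ≤ v u := by
    rw [← Real.log_le_log_iff g4 g3]
    linarith
  have e1 : aeval (A.x (P i)) (α * β' - α' * β) =
      u * aeval (A.x (P i)) β' - u' * aeval (A.x (P i)) β := by
    rw [hu, hu', map_sub, map_mul, map_mul]
    ring
  have g6 : v (aeval (A.x (P i)) (α * β' - α' * β)) ≤ v u * (C * S ^ D) := by
    rw [e1]
    refine (v.sub_le_add _ _).trans ?_
    rw [map_mul, map_mul, hC]
    have k1 := mul_le_mul_of_nonneg_left g2 g3.le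
    have k2 : v u' * v (aeval (A.x (P i)) β) ≤ v u * (max 1 (NV v β) * S ^ D) :=
      mul_le_mul g5 g1 (v.nonneg _) g3.le
    linarith
  have g7 : S ^ D * Real.exp (-(ε / 2) * H i) ≤ v u * C := by
    have h7 := h1.trans g6
    rw [pow_add] at h7
    have h8 : 0 < S ^ D := by positivity
    have h9 : S ^ D * (S ^ D * Real.exp (-(ε / 2) * H i)) ≤ S ^ D * (v u * C) := by
      linarith
    exact le_of_mul_le_mul_left h9 h8
  have g8 := Real.log_le_log (by positivity) g7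
  rw [Real.log_mul (by positivity) (by positivity), Real.log_mul (by positivity) (by positivity),
    Real.log_exp, Real.log_pow] at g8
  have g9 : Real.log (max 1 (v (t i))) ≤ Real.log (max 1 C₀) :=
    Real.log_le_log (lt_max_of_lt_left one_pos) (max_le_max le_rfl h2)
  linarith

include hΓ hH hPΓ hHt in
/-- The closest target, if it is infinite. -/
theorem P_max_inf {v : AbsoluteValue K ℝ} (hv : Pl v) {D : ℕ}
    {α β : MvPolynomial (Fin (N + 1)) K} (hα : α.IsHomogeneous D) (hβI : β ∈ A.I)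
    (htv : ∃ C : ℝ, ∀ᶠ i in (hyperfilter ℕ : Filter ℕ), v (t i) ≤ C)
    (hne : ∀ᶠ i in (hyperfilter ℕ : Filter ℕ),
      aeval (A.x (P i)) α - t i * aeval (A.x (P i)) β ≠ 0)
    (ε : ℝ) (hε : 0 < ε) :
    ∀ᶠ i in (hyperfilter ℕ : Filter ℕ), P_lam D α β (t i) (A.x (P i)) v ≤ ε * H i := by
  obtain ⟨C₀, hC₀⟩ := htv
  obtain ⟨p, hPp⟩ := Z_exists_germ A P
  have h0 : ∀ i, aeval (A.x (P i)) β = 0 := fun i => Z_x_isPt A (P i) β hβI
  have hne' : ∀ᶠ i in (hyperfilter ℕ : Filter ℕ), aeval (A.x (P i)) α ≠ 0 := by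
    filter_upwards [hne] with i hi
    rwa [h0, mul_zero, sub_zero] at hi
  filter_upwards [P_lower_form Γ hΓ hPΓ hH (P_upp hHt) hPp hv hα hne' (ε / 2) (by positivity),
    hC₀, hne', oH_const hH (Real.log (max 1 C₀)) (ε / 2) (by positivity)] with i h1 h2 h3 h4
  obtain ⟨S, hS⟩ : ∃ S : ℝ, S = ⨆ a, v (A.x (P i) a) := ⟨_, rfl⟩
  have hS0 : 0 < S := hS ▸ P_sup_pos (Z_x_ne A (P i)) v
  unfold P_lam
  rw [h0, mul_zero, sub_zero, ← hS]
  rw [← hS] at h1
  have g8 := Real.log_le_log (by positivity) h1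
  rw [Real.log_mul (by positivity) (by positivity), Real.log_exp, Real.log_pow] at g8
  have g9 : Real.log (max 1 (v (t i))) ≤ Real.log (max 1 C₀) :=
    Real.log_le_log (lt_max_of_lt_left one_pos) (max_le_max le_rfl h2)
  linarith

include hΓ hH hPΓ hHt in
/-- The closest target, if it is finite. -/
theorem P_max_fin {v : AbsoluteValue K ℝ} (hv : Pl v) {D : ℕ}
    {α β : MvPolynomial (Fin (N + 1)) K} (hβ : β.IsHomogeneous D)
    (hβ0 : ∀ᶠ i in (hyperfilter ℕ : Filter ℕ), aeval (A.x (P i)) β ≠ 0)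
    (htv : ∃ C : ℝ, ∀ᶠ i in (hyperfilter ℕ : Filter ℕ), v (t i) ≤ C)
    (hne : ∀ᶠ i in (hyperfilter ℕ : Filter ℕ),
      aeval (A.x (P i)) α - t i * aeval (A.x (P i)) β ≠ 0)
    (ε : ℝ) (hε : 0 < ε) :
    ∀ᶠ i in (hyperfilter ℕ : Filter ℕ), P_lam D α β (t i) (A.x (P i)) v ≤ ε * H i +
      - Real.log (min 1 (v (t i - aeval (A.x (P i)) α / aeval (A.x (P i)) β))) := by
  obtain ⟨C₀, hC₀⟩ := htv
  obtain ⟨p, hPp⟩ := Z_exists_germ A P
  filter_upwards [P_lower_form Γ hΓ hPΓ hH (P_upp hHt) hPp hv hβ hβ0 (ε / 2) (by positivity),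
    hC₀, hne, hβ0, oH_const hH (Real.log (max 1 C₀)) (ε / 2) (by positivity)] with i h1 h2 h3 h4 h5
  obtain ⟨S, hS⟩ : ∃ S : ℝ, S = ⨆ a, v (A.x (P i) a) := ⟨_, rfl⟩
  have hS0 : 0 < S := hS ▸ P_sup_pos (Z_x_ne A (P i)) v
  obtain ⟨z, hz⟩ : ∃ z, z = t i - aeval (A.x (P i)) α / aeval (A.x (P i)) β := ⟨_, rfl⟩
  have e1 : aeval (A.x (P i)) α - t i * aeval (A.x (P i)) β = - (z * aeval (A.x (P i)) β) := by
    rw [hz]
    field_simp
    ring
  have hz0 : z ≠ 0 := by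
    rintro rfl
    apply h3
    rw [e1, zero_mul, neg_zero]
  unfold P_lam
  rw [← hz, e1, v.map_neg, map_mul, ← hS]
  rw [← hS] at h1
  have g3 := v.pos hz0
  have g4 := v.pos h4
  rw [Real.log_mul g3.ne' g4.ne']
  have g8 := Real.log_le_log (by positivity) h1
  rw [Real.log_mul (by positivity) (by positivity), Real.log_exp, Real.log_pow] at g8
  have g9 : Real.log (max 1 (v (t i))) ≤ Real.log (max 1 C₀) :=
    Real.log_le_log (lt_max_of_lt_left one_pos) (max_le_max le_rfl h2)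
  have g10 : Real.log (min 1 (v z)) ≤ Real.log (v z) :=
    Real.log_le_log (lt_min one_pos g3) (min_le_right _ _)
  linarith

end

/-- The inequality for sequences bounded at the places in question. -/
theorem P_bdd {K : Type u} [Field K] [NumberField K] {N : ℕ} (A : AV K N)
    (Γ : AddSubgroup (A.Pts K)) (hΓ : Γ.FG) {H : ℕ → ℝ}
    (hH : Tendsto H (hyperfilter ℕ : Filter ℕ) atTop) (P : ℕ → A.Pts K) (hPΓ : ∀ i, P i ∈ Γ)
    (t : ℕ → K) (hHt : ∀ i, H i = logHeight₁ (t i) + A.h (P i))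
    (hPg : ∀ (G : MvPolynomial (Fin (N + 1)) K) (D : ℕ), G.IsHomogeneous D → G ∉ A.I →
      ∀ᶠ i in (hyperfilter ℕ : Filter ℕ), aeval (A.x (P i)) G ≠ 0)
    {r : ℕ} (D : ℕ) (α β : Fin r → MvPolynomial (Fin (N + 1)) K)
    (hα : ∀ j, (α j).IsHomogeneous D) (hβ : ∀ j, (β j).IsHomogeneous D)
    (hd : ∀ j l, j ≠ l → α j * β l - α l * β j ∉ A.I)
    (hne : ∀ j, ∀ᶠ i in (hyperfilter ℕ : Filter ℕ),
      aeval (A.x (P i)) (α j) - t i * aeval (A.x (P i)) (β j) ≠ 0)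
    (S : Finset (NumberField.FinitePlace K)) (Sg : Finset (AbsoluteValue K ℝ))
    (hSg : ∀ v ∈ Sg, Pl v) (h1 : ∀ v : NumberField.InfinitePlace K, v.val ∈ Sg)
    (h2 : ∀ v ∈ S, v.val ∈ Sg)
    (htv : ∀ v ∈ Sg, ∃ C : ℝ, ∀ᶠ i in (hyperfilter ℕ : Filter ℕ), v (t i) ≤ C)
    (ε : ℝ) (hε : 0 < ε) :
    ∀ᶠ i in (hyperfilter ℕ : Filter ℕ),
      (∑ v : NumberField.InfinitePlace K, (v.mult : ℝ) *
        ∑ j, P_lam D (α j) (β j) (t i) (A.x (P i)) v.val) +
        ∑ v ∈ S, ∑ j, P_lam D (α j) (β j) (t i) (A.x (P i)) v.val ≤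
      2 * logHeight₁ (t i) + ε * H i := by
  classical
  rcases isEmpty_or_nonempty (Fin r) with hr | hr
  · filter_upwards [hH.eventually_ge_atTop 0] with i hi
    simp only [Finset.univ_eq_empty, Finset.sum_empty, mul_zero, Finset.sum_const_zero, add_zero]
    have : 0 ≤ logHeight₁ (t i) := zero_le_logHeight₁ _
    positivity
  -- the closest target
  have hl : ∀ v : AbsoluteValue K ℝ, ∃ l : Fin r, ∀ᶠ i in (hyperfilter ℕ : Filter ℕ),
      ∀ j, P_lam D (α j) (β j) (t i) (A.x (P i)) v ≤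
        P_lam D (α l) (β l) (t i) (A.x (P i)) v := fun v =>
    eventually_exists_fintype _ _ (Eventually.of_forall fun i =>
      Finite.exists_max fun j => P_lam D (α j) (β j) (t i) (A.x (P i)) v)
  choose l hl using hl
  obtain ⟨Sg', hSg'⟩ : ∃ Sg' : Finset (AbsoluteValue K ℝ),
      Sg' = Sg.filter fun v => β (l v) ∉ A.I := ⟨_, rfl⟩
  have hmem : ∀ v, v ∈ Sg' ↔ v ∈ Sg ∧ β (l v) ∉ A.I := fun v => by
    rw [hSg', Finset.mem_filter]
  obtain ⟨φ, hφ⟩ : ∃ φ : ℕ → AbsoluteValue K ℝ → ℝ, φ = fun i v =>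
      if v ∈ Sg' then - Real.log (min 1 (v (t i -
        aeval (A.x (P i)) (α (l v)) / aeval (A.x (P i)) (β (l v))))) else 0 := ⟨_, rfl⟩
  have hφ0 : ∀ i v, 0 ≤ φ i v := by
    intro i v
    rw [hφ]
    show 0 ≤ ite _ _ _
    split_ifs
    · exact Z_neg_log_nonneg (v.nonneg _)
    · exact le_rfl
  obtain ⟨M, hM⟩ : ∃ M : ℝ, M = (∑ v : NumberField.InfinitePlace K, (v.mult : ℝ)) + S.card :=
    ⟨_, rfl⟩
  have hM0 : 0 ≤ M := by
    rw [hM]
    have h1 : 0 ≤ ∑ v : NumberField.InfinitePlace K, (v.mult : ℝ) :=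
      Finset.sum_nonneg fun i _ => Nat.cast_nonneg _
    have h2 : (0 : ℝ) ≤ S.card := Nat.cast_nonneg _
    linarith
  obtain ⟨ε', hε', hεM⟩ : ∃ ε' : ℝ, 0 < ε' ∧ M * (r * ε') + ε' ≤ ε := by
    refine ⟨ε / (M * r + 1), by positivity, le_of_eq ?_⟩
    field_simp
  -- one place
  have hplace : ∀ v ∈ Sg, ∀ᶠ i in (hyperfilter ℕ : Filter ℕ),
      ∑ j, P_lam D (α j) (β j) (t i) (A.x (P i)) v ≤ r * (ε' * H i) + φ i v := by
    intro v hv
    have hoth : ∀ᶠ i in (hyperfilter ℕ : Filter ℕ), ∀ j, j ≠ l v →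
        P_lam D (α j) (β j) (t i) (A.x (P i)) v ≤ ε' * H i := by
      refine eventually_all.2 fun j => ?_
      by_cases hj : j = l v
      · exact Eventually.of_forall fun i h => absurd hj h
      · have := P_other hΓ hH hPΓ hHt (hSg v hv) (hα j) (hβ j) (hα (l v)) (hβ (l v))
          (hPg _ _ (((hα j).mul (hβ (l v))).sub ((hα (l v)).mul (hβ j))) (hd j (l v) hj))
          (htv v hv) (hne j) (hne (l v)) ((hl v).mono fun i hi => hi j) ε' hε'
        exact this.mono fun i hi _ => hi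
    have hmax : ∀ᶠ i in (hyperfilter ℕ : Filter ℕ),
        P_lam D (α (l v)) (β (l v)) (t i) (A.x (P i)) v ≤ ε' * H i + φ i v := by
      by_cases hI : β (l v) ∈ A.I
      · filter_upwards [P_max_inf hΓ hH hPΓ hHt (hSg v hv) (hα (l v)) hI (htv v hv) (hne (l v))
          ε' hε'] with i hi
        have := hφ0 i v
        linarith
      · filter_upwards [P_max_fin hΓ hH hPΓ hHt (hSg v hv) (hβ (l v))
          (hPg _ _ (hβ (l v)) hI) (htv v hv) (hne (l v)) ε' hε'] with i hi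
        rw [hφ]
        show _ ≤ ε' * H i + ite _ _ _
        rw [if_pos ((hmem v).2 ⟨hv, hI⟩)]
        exact hi
    filter_upwards [hoth, hmax] with i g1 g2
    have g3 : ∀ j ∈ (Finset.univ : Finset (Fin r)), P_lam D (α j) (β j) (t i) (A.x (P i)) v ≤
        ε' * H i + if j = l v then φ i v else 0 := by
      intro j _
      split_ifs with hj
      · rw [hj]
        exact g2
      · rw [add_zero]
        exact g1 j hj
    refine (Finset.sum_le_sum g3).trans (le_of_eq ?_)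
    rw [Finset.sum_add_distrib, Finset.sum_const, Finset.card_univ, Fintype.card_fin,
      nsmul_eq_mul, Finset.sum_ite_eq' Finset.univ (l v) fun _ => φ i v, if_pos (Finset.mem_univ _)]
  have hcore := P_core A Γ hΓ hH P hPΓ t hHt Sg' (fun v hv => hSg v ((hmem v).1 hv).1) D
    (fun v => α (l v)) (fun v => β (l v)) (fun v _ => ⟨hα _, hβ _⟩)
    (fun v hv => hPg _ _ (hβ _) ((hmem v).1 hv).2) (fun v hv => htv v ((hmem v).1 hv).1)
    (fun v _ => hne (l v)) ε' hε'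
  filter_upwards [(eventually_all_finset Sg).2 hplace, hcore, hH.eventually_ge_atTop 0]
    with i g1 g2 g3
  have g4 := P_sum_le_gs S Sg h1 h2 (φ i) (hφ0 i)
  have g5 : (fun v : AbsoluteValue K ℝ => if v ∈ Sg then φ i v else 0) =
      fun v : AbsoluteValue K ℝ => if v ∈ Sg' then - Real.log (min 1 (v (t i -
        aeval (A.x (P i)) (α (l v)) / aeval (A.x (P i)) (β (l v))))) else 0 := by
    funext v
    rw [hφ]
    by_cases hv : v ∈ Sg'
    · simp only [if_pos hv, if_pos ((hmem v).1 hv).1]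
    · simp only [if_neg hv, ite_self]
  rw [g5] at g4
  have g6 : (∑ v : NumberField.InfinitePlace K, (v.mult : ℝ) *
        ∑ j, P_lam D (α j) (β j) (t i) (A.x (P i)) v.val) ≤
      ∑ v : NumberField.InfinitePlace K, (v.mult : ℝ) * (r * (ε' * H i) + φ i v.val) :=
    Finset.sum_le_sum fun v _ => mul_le_mul_of_nonneg_left (g1 _ (h1 v)) (Nat.cast_nonneg _)
  have g7 : ∑ v ∈ S, ∑ j, P_lam D (α j) (β j) (t i) (A.x (P i)) v.val ≤
      ∑ v ∈ S, (r * (ε' * H i) + φ i v.val) :=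
    Finset.sum_le_sum fun v hv => g1 _ (h2 v hv)
  have g8 : ∑ v : NumberField.InfinitePlace K, (v.mult : ℝ) * (r * (ε' * H i) + φ i v.val) =
      (∑ v : NumberField.InfinitePlace K, (v.mult : ℝ)) * (r * (ε' * H i)) +
        ∑ v : NumberField.InfinitePlace K, (v.mult : ℝ) * φ i v.val := by
    rw [Finset.sum_mul, ← Finset.sum_add_distrib]
    exact Finset.sum_congr rfl fun v _ => by ring
  have g9 : ∑ v ∈ S, (r * (ε' * H i) + φ i v.val) =
      S.card * (r * (ε' * H i)) + ∑ v ∈ S, φ i v.val := by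
    rw [Finset.sum_add_distrib, Finset.sum_const, nsmul_eq_mul]
  have g10 : M * (r * (ε' * H i)) = (∑ v : NumberField.InfinitePlace K, (v.mult : ℝ)) *
      (r * (ε' * H i)) + S.card * (r * (ε' * H i)) := by
    rw [hM]
    ring
  have g11 := mul_le_mul_of_nonneg_right hεM g3
  have g12 : (M * (r * ε') + ε') * H i = M * (r * (ε' * H i)) + ε' * H i := by ring
  linarith

end Pool.Agent.Lib.MP_17a322_nt.VP
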