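import Pool.Agent.Lib.MP_17a322_nt.VP.P5
import Pool.Agent.Lib.MP_17a322_nt.VDA.P4

/-!
Reduction to bounded sequences by a Moebius transformation.
-/

universe u

namespace Pool.Agent.Lib.MP_17a322_nt.VP

open MvPolynomial Height Filter
open Pool.Agent.Lib.MP_17a322_nt.RO
open Pool.Agent.Lib.MP_17a322_nt.VJ
open Pool.Agent.Lib.MP_17a322_nt.VN hiding lf
open Pool.Agent.Lib.MP_17a322_nt.VA

theorem P_pos_bound {ι : Type*} (T : Finset ι) (f : ι → ℝ) (hf : ∀ x ∈ T, 0 < f x) :
    ∃ ρ : ℝ, 0 < ρ ∧ ∀ x ∈ T, ρ ≤ f x := by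
  classical
  induction T using Finset.induction_on with
  | empty => exact ⟨1, one_pos, fun x hx => absurd hx (Finset.notMem_empty x)⟩
  | insert a s ha ih =>
    obtain ⟨ρ, h1, h2⟩ := ih fun x hx => hf x (Finset.mem_insert_of_mem hx)
    refine ⟨min ρ (f a), lt_min h1 (hf a (Finset.mem_insert_self a s)), fun x hx => ?_⟩
    rcases Finset.mem_insert.1 hx with rfl | hx
    · exact min_le_right _ _
    · exact (min_le_left _ _).trans (h2 x hx)

/-- A translate of `t` is bounded from below at all places of a finite set. -/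
theorem P_exists_c {K : Type*} [Field K] [CharZero K] (Sg : Finset (AbsoluteValue K ℝ))
    (t : ℕ → K) :
    ∃ (c : K) (ρ : ℝ), 0 < ρ ∧ ∀ᶠ i in (hyperfilter ℕ : Filter ℕ), ∀ v ∈ Sg, ρ ≤ v (t i - c) := by
  classical
  obtain ⟨n, hn⟩ : ∃ n, n = Sg.card := ⟨_, rfl⟩
  obtain ⟨ρ, hρ, hρ'⟩ := P_pos_bound
    ((Sg ×ˢ (Finset.univ : Finset (Fin (n + 1) × Fin (n + 1)))).filter fun x => x.2.1 ≠ x.2.2)
    (fun x => x.1 (((x.2.1 : ℕ) : K) - ((x.2.2 : ℕ) : K))) (fun x hx => by
      refine x.1.pos (sub_ne_zero.2 fun h => ?_)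
      have h1 := Nat.cast_injective h
      exact (Finset.mem_filter.1 hx).2 (Fin.ext h1))
  have hex : ∀ i, ∃ c : Fin (n + 1), ∀ v ∈ Sg, ρ / 2 ≤ v (t i - ((c : ℕ) : K)) := by
    intro i
    by_contra hcon
    push Not at hcon
    choose w hw hw' using hcon
    obtain ⟨c, -, c', -, hcc, hww⟩ := Finset.exists_ne_map_eq_of_card_lt_of_maps_to
      (s := (Finset.univ : Finset (Fin (n + 1)))) (t := Sg) (f := w)
      (by rw [Finset.card_univ, Fintype.card_fin, ← hn]; omega)
      (fun c _ => hw c)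
    have h1 := hρ' (w c, (c, c')) (Finset.mem_filter.2 ⟨Finset.mem_product.2
      ⟨hw c, Finset.mem_univ _⟩, hcc⟩)
    have h2 := hw' c
    have h3 := hw' c'
    rw [← hww] at h3
    have h4 : ((c : ℕ) : K) - ((c' : ℕ) : K) = (t i - ((c' : ℕ) : K)) - (t i - ((c : ℕ) : K)) := by
      ring
    have h5 := (w c).sub_le_add (t i - ((c' : ℕ) : K)) (t i - ((c : ℕ) : K))
    rw [← h4] at h5
    have h6 : ρ ≤ w c (((c : ℕ) : K) - ((c' : ℕ) : K)) := h1
    linarith
  obtain ⟨c, hc⟩ := eventually_exists_fintype _ _ (Eventually.of_forall hex)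
  exact ⟨((c : ℕ) : K), ρ / 2, by positivity, hc⟩

theorem P_lmax_add {K : Type*} [Field K] (v : AbsoluteValue K ℝ) (a b : K) :
    Real.log (max 1 (v (a + b))) ≤ Real.log 2 + Real.log (max 1 (v a)) + Real.log (max 1 (v b)) := by
  have ha : (1 : ℝ) ≤ max 1 (v a) := le_max_left _ _
  have hb : (1 : ℝ) ≤ max 1 (v b) := le_max_left _ _
  rw [← Real.log_mul (by norm_num) (by positivity), ← Real.log_mul (by positivity) (by positivity)]
  refine Real.log_le_log (lt_max_of_lt_left one_pos) (max_le (by nlinarith) ?_)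
  refine (v.add_le a b).trans ?_
  have h1 := le_max_right 1 (v a)
  have h2 := le_max_right 1 (v b)
  nlinarith

/-- The local heights before and after the Moebius transformation. -/
theorem P_moebius {K : Type*} [Field K] {N D : ℕ} (α β : MvPolynomial (Fin (N + 1)) K) (t c : K)
    (x : Fin (N + 1) → K) (hc : t - c ≠ 0) (h0 : aeval x α - t * aeval x β ≠ 0)
    (v : AbsoluteValue K ℝ) :
    aeval x β - (t - c)⁻¹ * aeval x (α - C c * β) ≠ 0 ∧
    P_lam D α β t x v ≤ P_lam D β (α - C c * β) (t - c)⁻¹ x v +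
      (Real.log 2 + Real.log (max 1 (v c))) := by
  have e1 : aeval x β - (t - c)⁻¹ * aeval x (α - C c * β) =
      - ((aeval x α - t * aeval x β) / (t - c)) := by
    rw [map_sub, map_mul, aeval_C]
    show aeval x β - (t - c)⁻¹ * (aeval x α - c * aeval x β) = _
    field_simp
    ring
  refine ⟨by
    rw [e1]
    exact neg_ne_zero.2 (div_ne_zero h0 hc), ?_⟩
  unfold P_lam
  rw [e1, v.map_neg, map_div₀, Real.log_div (v.pos h0).ne' (v.pos hc).ne', map_inv₀]
  have h1 := v.pos hc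
  have h2 := P_lmax_add v (t - c) c
  rw [sub_add_cancel] at h2
  have h3 : Real.log (max 1 (v (t - c))) =
      Real.log (max 1 (v (t - c))⁻¹) + Real.log (v (t - c)) := by
    rw [← Real.log_mul (by positivity) h1.ne']
    congr 1
    rcases le_total 1 (v (t - c)) with h | h
    · rw [max_eq_right h, max_eq_left (inv_le_one_of_one_le₀ h), one_mul]
    · rw [max_eq_left h, max_eq_right ((one_le_inv₀ h1).2 h), inv_mul_cancel₀ h1.ne']
  linarith

/-- The total local height. -/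
noncomputable def P_tot {K : Type*} [Field K] [NumberField K] {N r : ℕ} (D : ℕ)
    (α β : Fin r → MvPolynomial (Fin (N + 1)) K) (S : Finset (NumberField.FinitePlace K)) (t : K)
    (x : Fin (N + 1) → K) : ℝ :=
  (∑ v : NumberField.InfinitePlace K, (v.mult : ℝ) * ∑ j, P_lam D (α j) (β j) t x v.val) +
    ∑ v ∈ S, ∑ j, P_lam D (α j) (β j) t x v.val

theorem P_tot_le {K : Type*} [Field K] [NumberField K] {N r D : ℕ}
    {α β : Fin r → MvPolynomial (Fin (N + 1)) K} {S : Finset (NumberField.FinitePlace K)} {t : K}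
    {x : Fin (N + 1) → K} {f : AbsoluteValue K ℝ → ℝ}
    (h1 : ∀ v : NumberField.InfinitePlace K, ∀ j, P_lam D (α j) (β j) t x v.val ≤ f v.val)
    (h2 : ∀ v ∈ S, ∀ j, P_lam D (α j) (β j) t x v.val ≤ f v.val) :
    P_tot D α β S t x ≤ (∑ v : NumberField.InfinitePlace K, (v.mult : ℝ) * (r * f v.val)) +
      ∑ v ∈ S, r * f v.val := by
  refine add_le_add (Finset.sum_le_sum fun v _ => mul_le_mul_of_nonneg_left ?_
    (Nat.cast_nonneg _)) (Finset.sum_le_sum fun v hv => ?_)
  · refine (Finset.sum_le_sum fun j _ => h1 v j).trans (le_of_eq ?_)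
    rw [Finset.sum_const, Finset.card_univ, Fintype.card_fin, nsmul_eq_mul]
  · refine (Finset.sum_le_sum fun j _ => h2 v hv j).trans (le_of_eq ?_)
    rw [Finset.sum_const, Finset.card_univ, Fintype.card_fin, nsmul_eq_mul]

/-- A generic sequence of bad points does not exist. -/
theorem P_seq {K : Type u} [Field K] [NumberField K] {N : ℕ} (A : AV K N)
    (Γ : AddSubgroup (A.Pts K)) (hΓ : Γ.FG) {r : ℕ} (D : ℕ)
    (α β : Fin r → MvPolynomial (Fin (N + 1)) K)
    (hα : ∀ j, (α j).IsHomogeneous D) (hβ : ∀ j, (β j).IsHomogeneous D)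
    (hd : ∀ j l, j ≠ l → α j * β l - α l * β j ∉ A.I)
    (S : Finset (NumberField.FinitePlace K)) (ε : ℝ) (hε : 0 < ε)
    (P : ℕ → A.Pts K) (hPΓ : ∀ i, P i ∈ Γ) (t : ℕ → K)
    (hbad : ∀ i, 2 * logHeight₁ (t i) + ε * (logHeight₁ (t i) + A.h (P i)) + i <
      P_tot D α β S (t i) (A.x (P i)))
    (hne : ∀ i j, aeval (A.x (P i)) (α j) - t i * aeval (A.x (P i)) (β j) ≠ 0)
    (hPg : ∀ (G : MvPolynomial (Fin (N + 1)) K) (D : ℕ), G.IsHomogeneous D → G ∉ A.I →
      ∀ᶠ i in (hyperfilter ℕ : Filter ℕ), aeval (A.x (P i)) G ≠ 0) : False := by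
  classical
  have hh0 : ∀ i, 0 ≤ A.h (P i) := fun i => logHeight_nonneg _
  have ht0 : ∀ i, 0 ≤ logHeight₁ (t i) := fun i => zero_le_logHeight₁ _
  obtain ⟨H, hHt⟩ : ∃ H : ℕ → ℝ, ∀ i, H i = logHeight₁ (t i) + A.h (P i) := ⟨_, fun i => rfl⟩
  have hH0 : ∀ i, 0 ≤ H i := fun i => by
    have := hHt i
    have := hh0 i
    have := ht0 i
    linarith
  obtain ⟨M, hM⟩ : ∃ M : ℝ, M = (∑ v : NumberField.InfinitePlace K, (v.mult : ℝ)) + S.card :=
    ⟨_, rfl⟩
  have hM0 : 0 ≤ M := by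
    rw [hM]
    have h1 : 0 ≤ ∑ v : NumberField.InfinitePlace K, (v.mult : ℝ) :=
      Finset.sum_nonneg fun i _ => Nat.cast_nonneg _
    have h2 : (0 : ℝ) ≤ S.card := Nat.cast_nonneg _
    linarith
  have hconst : ∀ C : ℝ, (∑ v : NumberField.InfinitePlace K, (v.mult : ℝ) * (r * C)) +
      ∑ v ∈ S, r * C = M * (r * C) := by
    intro C
    rw [Finset.sum_const, nsmul_eq_mul, ← Finset.sum_mul, hM]
    ring
  -- the heights tend to infinity
  have hH : Tendsto H (hyperfilter ℕ : Filter ℕ) atTop := by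
    obtain ⟨C₁, hC₁⟩ : ∃ C₁ : ℝ, ∀ j, nh1 (α j) + nh1 (β j) +
        gs (fun v : AbsoluteValue K ℝ => Real.log (cst v 2)) ≤ C₁ := by
      obtain ⟨C₁, hC₁⟩ := (Set.finite_range fun j => nh1 (α j) + nh1 (β j) +
        gs (fun v : AbsoluteValue K ℝ => Real.log (cst v 2))).bddAbove
      exact ⟨C₁, fun j => hC₁ ⟨j, rfl⟩⟩
    have hL : ∀ i, P_tot D α β S (t i) (A.x (P i)) ≤ M * (r * ((D + 1) * H i + C₁)) := by
      intro i
      rw [← hconst]
      have h1 : ∀ (v : AbsoluteValue K ℝ) (_ : Pl v) (j : Fin r),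
          P_lam D (α j) (β j) (t i) (A.x (P i)) v ≤ (D + 1) * H i + C₁ := by
        intro v hv j
        have h2 := P_liouville (hα j) (hβ j) (t i) (Z_x_ne A (P i)) (hne i j) hv
        have h3 : logHeight (A.x (P i)) = A.h (P i) := rfl
        rw [h3] at h2
        have h4 := hC₁ j
        have h5 := mul_nonneg (Nat.cast_nonneg D : (0 : ℝ) ≤ D) (ht0 i)
        have h6 := hHt i
        have h7 := hh0 i
        rw [h6]
        linarith
      exact P_tot_le (f := fun _ => (D + 1) * H i + C₁) (fun v j => h1 _ (PX.Pl_infinite v) j)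
        fun v _ j => h1 _ (PX.Pl_finite v) j
    obtain ⟨a, ha⟩ : ∃ a : ℝ, a = M * (r * (D + 1)) := ⟨_, rfl⟩
    have ha0 : 0 ≤ a := by
      rw [ha]
      positivity
    refine tendsto_atTop.2 fun R => ?_
    obtain ⟨m, hm⟩ := exists_nat_ge (a * R + M * (r * C₁))
    filter_upwards [eventually_ge_hyper m] with i hi
    have h1 := hL i
    have h2 := hbad i
    have h3 := ht0 i
    rw [← hHt i] at h2
    have h4 := mul_nonneg hε.le (hH0 i)
    have h5 : (m : ℝ) ≤ i := by exact_mod_cast hi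
    have h6 : M * (r * ((D + 1) * H i + C₁)) = a * H i + M * (r * C₁) := by
      rw [ha]
      ring
    rw [h6] at h1
    have h7 : a * R < a * H i := by linarith
    exact (lt_of_mul_lt_mul_left h7 ha0).le
  -- the Moebius transformation
  obtain ⟨Sg, hSg⟩ : ∃ Sg : Finset (AbsoluteValue K ℝ), Sg =
      (Finset.univ.image fun v : NumberField.InfinitePlace K => v.val) ∪
        S.image fun v : NumberField.FinitePlace K => v.val := ⟨_, rfl⟩
  have hPl : ∀ v ∈ Sg, Pl v := by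
    intro v hv
    rw [hSg, Finset.mem_union, Finset.mem_image, Finset.mem_image] at hv
    rcases hv with ⟨w, -, rfl⟩ | ⟨w, -, rfl⟩
    · exact PX.Pl_infinite w
    · exact PX.Pl_finite w
  have hi1 : ∀ v : NumberField.InfinitePlace K, v.val ∈ Sg := fun v => by
    rw [hSg]
    exact Finset.mem_union_left _ (Finset.mem_image_of_mem _ (Finset.mem_univ v))
  have hi2 : ∀ v ∈ S, v.val ∈ Sg := fun v hv => by
    rw [hSg]
    exact Finset.mem_union_right _ (Finset.mem_image_of_mem _ hv)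
  obtain ⟨c, ρ, hρ, hc⟩ := P_exists_c Sg t
  obtain ⟨t', ht'⟩ : ∃ t' : ℕ → K, ∀ i, t' i = (t i - c)⁻¹ := ⟨_, fun i => rfl⟩
  obtain ⟨H', hH'⟩ : ∃ H' : ℕ → ℝ, ∀ i, H' i = logHeight₁ (t' i) + A.h (P i) :=
    ⟨_, fun i => rfl⟩
  obtain ⟨C₁, hC₁⟩ : ∃ C₁ : ℝ, C₁ = totalWeight K * Real.log 2 + logHeight₁ c := ⟨_, rfl⟩
  have hle1 : ∀ i, logHeight₁ (t' i) ≤ logHeight₁ (t i) + C₁ := by
    intro i
    rw [ht', logHeight₁_inv, sub_eq_add_neg, hC₁]
    have h1 := logHeight₁_add_le (t i) (-c)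
    rw [logHeight₁_neg] at h1
    linarith
  have hle2 : ∀ i, logHeight₁ (t i) ≤ logHeight₁ (t' i) + C₁ := by
    intro i
    have h1 := logHeight₁_add_le (t i - c) c
    rw [sub_add_cancel] at h1
    rw [ht', logHeight₁_inv, hC₁]
    linarith
  have hHH : Tendsto H' (hyperfilter ℕ : Filter ℕ) atTop := by
    refine tendsto_atTop_mono (fun i => ?_) (tendsto_atTop_add_const_right _ (-C₁) hH)
    have h1 := hle2 i
    rw [hHt, hH']
    linarith
  have hcne : ∀ᶠ i in (hyperfilter ℕ : Filter ℕ), t i - c ≠ 0 := by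
    obtain ⟨v⟩ : Nonempty (NumberField.InfinitePlace K) := inferInstance
    filter_upwards [hc] with i hi
    intro h0
    have h1 := hi v.val (hi1 v)
    rw [h0, map_zero] at h1
    linarith
  have hβ' : ∀ j, (α j - C c * β j).IsHomogeneous D := fun j => by
    have h1 := (isHomogeneous_C (Fin (N + 1)) c).mul (hβ j)
    rw [zero_add] at h1
    exact (hα j).sub h1
  have hd' : ∀ j l, j ≠ l → β j * (α l - C c * β l) - β l * (α j - C c * β j) ∉ A.I := by
    intro j l hjl h0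
    apply hd j l hjl
    have h1 : α j * β l - α l * β j = -(β j * (α l - C c * β l) - β l * (α j - C c * β j)) := by
      ring
    rw [h1]
    exact A.I.neg_mem h0
  have hfin := P_bdd A Γ hΓ hHH P hPΓ t' hH' hPg D β (fun j => α j - C c * β j) hβ hβ' hd'
    (fun j => by
      filter_upwards [hcne] with i hi
      rw [ht']
      obtain ⟨v⟩ : Nonempty (NumberField.InfinitePlace K) := inferInstance
      exact (P_moebius (D := D) (α j) (β j) (t i) c (A.x (P i)) hi (hne i j) v.val).1)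
    S Sg hPl hi1 hi2 (fun v hv => ⟨ρ⁻¹, by
      filter_upwards [hc, hcne] with i hi hi'
      rw [ht', map_inv₀]
      exact inv_anti₀ hρ (hi v hv)⟩) ε hε
  obtain ⟨C₂, hC₂⟩ : ∃ C₂ : ℝ, C₂ =
      (∑ v : NumberField.InfinitePlace K, (v.mult : ℝ) *
        (r * (Real.log 2 + Real.log (max 1 (v.val c))))) +
      ∑ v ∈ S, r * (Real.log 2 + Real.log (max 1 (v.val c))) := ⟨_, rfl⟩
  obtain ⟨m, hm⟩ := exists_nat_ge (C₂ + 2 * C₁ + ε * C₁)
  obtain ⟨i, g1, g2, g3⟩ := (hfin.and (hcne.and (eventually_ge_hyper m))).exists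
  have g4 : P_tot D α β S (t i) (A.x (P i)) ≤
      P_tot D β (fun j => α j - C c * β j) S (t' i) (A.x (P i)) + C₂ := by
    have h1 : ∀ (v : AbsoluteValue K ℝ) (j : Fin r), P_lam D (α j) (β j) (t i) (A.x (P i)) v ≤
        P_lam D (β j) (α j - C c * β j) (t' i) (A.x (P i)) v +
          (Real.log 2 + Real.log (max 1 (v c))) := by
      intro v j
      rw [ht']
      exact (P_moebius (D := D) (α j) (β j) (t i) c (A.x (P i)) g2 (hne i j) v).2
    have h2 : ∀ v : AbsoluteValue K ℝ, ∑ j, P_lam D (α j) (β j) (t i) (A.x (P i)) v ≤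
        (∑ j, P_lam D (β j) (α j - C c * β j) (t' i) (A.x (P i)) v) +
          r * (Real.log 2 + Real.log (max 1 (v c))) := by
      intro v
      refine (Finset.sum_le_sum fun j _ => h1 v j).trans (le_of_eq ?_)
      rw [Finset.sum_add_distrib, Finset.sum_const, Finset.card_univ, Fintype.card_fin,
        nsmul_eq_mul]
    have h3 : (∑ v : NumberField.InfinitePlace K, (v.mult : ℝ) *
          ∑ j, P_lam D (α j) (β j) (t i) (A.x (P i)) v.val) ≤
        ∑ v : NumberField.InfinitePlace K, (v.mult : ℝ) *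
          ((∑ j, P_lam D (β j) (α j - C c * β j) (t' i) (A.x (P i)) v.val) +
            r * (Real.log 2 + Real.log (max 1 (v.val c)))) :=
      Finset.sum_le_sum fun v _ => mul_le_mul_of_nonneg_left (h2 _) (Nat.cast_nonneg _)
    have h4 : ∑ v ∈ S, ∑ j, P_lam D (α j) (β j) (t i) (A.x (P i)) v.val ≤
        ∑ v ∈ S, ((∑ j, P_lam D (β j) (α j - C c * β j) (t' i) (A.x (P i)) v.val) +
            r * (Real.log 2 + Real.log (max 1 (v.val c)))) :=
      Finset.sum_le_sum fun v _ => h2 _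
    simp only [mul_add, Finset.sum_add_distrib] at h3 h4
    unfold P_tot
    rw [hC₂]
    simp only [mul_add, Finset.sum_add_distrib]
    linarith
  have g5 : P_tot D β (fun j => α j - C c * β j) S (t' i) (A.x (P i)) ≤
      2 * logHeight₁ (t' i) + ε * H' i := g1
  have g6 := hbad i
  have g7 := hle1 i
  have g8 : H' i ≤ logHeight₁ (t i) + A.h (P i) + C₁ := by
    rw [hH']
    linarith
  have g9 := mul_le_mul_of_nonneg_left g8 hε.le
  have g10 : (m : ℝ) ≤ i := by exact_mod_cast g3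
  linarith

end Pool.Agent.Lib.MP_17a322_nt.VP
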