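import Pool.Agent.Lib.MP_17a322_nt.VP.P4
import Pool.Agent.Lib.MP_17a322_nt.VP.P6

/-!
The theorem on moving targets over abelian varieties.
-/

universe u

namespace Pool.Agent.Lib.MP_17a322_nt.VP

open MvPolynomial Height Filter
open Pool.Agent.Lib.MP_17a322_nt.RO
open Pool.Agent.Lib.MP_17a322_nt.VJ
open Pool.Agent.Lib.MP_17a322_nt.VN hiding lf
open Pool.Agent.Lib.MP_17a322_nt.VA

theorem P_main {K : Type u} [Field K] [NumberField K] {N : ℕ} (A : AV K N)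
    (Γ : AddSubgroup (A.Pts K)) (hΓ : Γ.FG) {r : ℕ} (D : ℕ)
    (α β : Fin r → MvPolynomial (Fin (N + 1)) K)
    (hα : ∀ j, (α j).IsHomogeneous D) (hβ : ∀ j, (β j).IsHomogeneous D)
    (h0 : ∀ j, α j ∉ A.I ∨ β j ∉ A.I)
    (hd : ∀ j l, j ≠ l → α j * β l - α l * β j ∉ A.I)
    (S : Finset (NumberField.FinitePlace K)) (ε : ℝ) (hε : 0 < ε) :
    ∃ (C : ℝ) (d : ℕ) (G : Polynomial (MvPolynomial (Fin (N + 1)) K)), P_hom G d ∧
      (∃ k, G.coeff k ∉ A.I) ∧ ∀ (t : K) (P : A.Pts K), P ∈ Γ → P_ev (A.x P) t G ≠ 0 →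
        (∀ j, aeval (A.x P) (α j) - t * aeval (A.x P) (β j) ≠ 0) ∧
        P_tot D α β S t (A.x P) ≤ 2 * logHeight₁ t + ε * (logHeight₁ t + A.h P) + C := by
  classical
  by_contra hcon
  push Not at hcon
  obtain ⟨bad, hbad⟩ : ∃ bad : ℕ → Set (K × A.Pts K), ∀ ν q, q ∈ bad ν ↔ q.2 ∈ Γ ∧
      (∀ j, aeval (A.x q.2) (α j) - q.1 * aeval (A.x q.2) (β j) ≠ 0) ∧
      2 * logHeight₁ q.1 + ε * (logHeight₁ q.1 + A.h q.2) + ν <
        P_tot D α β S q.1 (A.x q.2) :=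
    ⟨fun ν => {q | q.2 ∈ Γ ∧ (∀ j, aeval (A.x q.2) (α j) - q.1 * aeval (A.x q.2) (β j) ≠ 0) ∧
      2 * logHeight₁ q.1 + ε * (logHeight₁ q.1 + A.h q.2) + ν <
        P_tot D α β S q.1 (A.x q.2)}, fun ν q => Iff.rfl⟩
  obtain ⟨q, hq, hqG⟩ := P_generic_seq A bad (fun G D' hG hGI ν => by
    obtain ⟨t, P, hP, hev, h1⟩ := hcon ν _ (G * ∏ j, P_tgt (α j) (β j))
      (hG.mul (P_hom_prod Finset.univ _ (fun _ => D) fun j _ => P_hom_tgt (hα j) (hβ j)))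
      (P_mul A hGI (P_prod A Finset.univ _ fun j _ => by
        obtain ⟨g0, g1, -⟩ := P_coeff_tgt (α j) (β j)
        rcases h0 j with h | h
        · exact ⟨0, by rwa [g0]⟩
        · exact ⟨1, by rwa [g1, neg_mem_iff]⟩))
    rw [map_mul, map_prod] at hev
    have h2 : ∀ j, aeval (A.x P) (α j) - t * aeval (A.x P) (β j) ≠ 0 := by
      intro j
      have h3 := Finset.prod_ne_zero_iff.1 (right_ne_zero_of_mul hev) j (Finset.mem_univ j)
      rwa [P_ev_tgt] at h3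
    exact ⟨(t, P), (hbad ν (t, P)).2 ⟨hP, h2, h1 h2⟩, left_ne_zero_of_mul hev⟩)
  exact P_seq A Γ hΓ D α β hα hβ hd S ε hε (fun i => (q i).2)
    (fun i => ((hbad i (q i)).1 (hq i)).1) (fun i => (q i).1)
    (fun i => ((hbad i (q i)).1 (hq i)).2.2) (fun i => ((hbad i (q i)).1 (hq i)).2.1)
    (fun G D' hG hGI => by
      have h1 := hqG (Polynomial.C G) D' (P_hom_C hG) ⟨0, by rwa [Polynomial.coeff_C_zero]⟩
      refine (h1.filter_mono Nat.hyperfilter_le_atTop).mono fun i hi => ?_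
      rwa [P_ev_C] at hi)

/-- The theorem on moving targets. -/
theorem P_final {K : Type u} [Field K] [NumberField K] {N : ℕ} (A : AV K N)
    (Γ : AddSubgroup (A.Pts K)) (hΓ : Γ.FG) {r : ℕ} (D : ℕ)
    (α β : Fin r → MvPolynomial (Fin (N + 1)) K)
    (hα : ∀ j, (α j).IsHomogeneous D) (hβ : ∀ j, (β j).IsHomogeneous D)
    (h0 : ∀ j, α j ∉ A.I ∨ β j ∉ A.I)
    (hd : ∀ j l, j ≠ l → α j * β l - α l * β j ∉ A.I)
    (S : Finset (NumberField.FinitePlace K)) (ε : ℝ) (hε : 0 < ε) :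
    ∃ (C : ℝ) (d m : ℕ) (G : Fin m → MvPolynomial (Fin (N + 1)) K),
      (∀ k, (G k).IsHomogeneous d) ∧ (∃ k, G k ∉ A.I) ∧
      ∀ (t : K) (P : A.Pts K), P ∈ Γ → (∑ k, aeval (A.x P) (G k) * t ^ (k : ℕ)) ≠ 0 →
        (∀ j, aeval (A.x P) (α j) - t * aeval (A.x P) (β j) ≠ 0) ∧
        (∑ v : NumberField.InfinitePlace K, (v.mult : ℝ) * ∑ j,
            (Real.log (max 1 (v t)) + D * Real.log (⨆ i, v (A.x P i)) -
              Real.log (v (aeval (A.x P) (α j) - t * aeval (A.x P) (β j))))) +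
          (∑ v ∈ S, ∑ j,
            (Real.log (max 1 (v t)) + D * Real.log (⨆ i, v (A.x P i)) -
              Real.log (v (aeval (A.x P) (α j) - t * aeval (A.x P) (β j))))) ≤
          2 * logHeight₁ t + ε * (logHeight₁ t + A.h P) + C := by
  obtain ⟨C, d, G, hG, ⟨k, hk⟩, h1⟩ := P_main A Γ hΓ D α β hα hβ h0 hd S ε hε
  refine ⟨C, d, G.natDegree + 1, fun k => G.coeff k, fun k => hG k, ?_, fun t P hP h2 => ?_⟩
  · by_cases h3 : k < G.natDegree + 1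
    · exact ⟨⟨k, h3⟩, hk⟩
    · exact absurd (by rw [Polynomial.coeff_eq_zero_of_natDegree_lt (by omega)]; exact A.I.zero_mem) hk
  · refine h1 t P hP ?_
    rwa [P_ev_sum, ← Fin.sum_univ_eq_sum_range (fun k => aeval (A.x P) (G.coeff k) * t ^ k)]

end Pool.Agent.Lib.MP_17a322_nt.VP
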