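import Pool.Agent.Lib.MP_17a322_nt.VJ.A6
import Pool.Agent.Lib.MP_17a322_nt.VJ.F3
import Pool.Agent.Lib.MP_17a322_nt.VP.LLN

/-!
Roth's theorem with moving targets of small height: expansion of translated polynomials.
-/

universe u

namespace Pool.Agent.Lib.MP_17a322_nt.VP

open MvPolynomial Height
open Pool.Agent.Lib.MP_17a322_nt.RO
open Pool.Agent.Lib.MP_17a322_nt.VJ

/-- The coefficients of a translated monomial. -/
theorem R_coeff_tr {R ι : Type*} [CommRing R] [Fintype ι] [DecidableEq ι] (ξ : ι → R)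
    (u w : ι →₀ ℕ) (c : R) :
    coeff w (tr ξ (monomial u c)) =
      c * ∏ i, ((Nat.choose (u i) (w i) : R) * ξ i ^ (u i - w i)) := by
  classical
  have h1 : tr ξ (monomial u c) = C c * ∏ i, (X i + C (ξ i)) ^ u i := by
    unfold tr
    rw [aeval_monomial, Finsupp.prod_fintype _ _ (fun i => pow_zero _)]
    rfl
  have h2 : ∀ i, (X i + C (ξ i) : MvPolynomial ι R) ^ u i =
      ∑ k ∈ Finset.range (u i + 1), monomial (Finsupp.single i k)
        ((Nat.choose (u i) k : R) * ξ i ^ (u i - k)) := by
    intro i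
    rw [add_pow]
    refine Finset.sum_congr rfl fun k _ => ?_
    rw [X_pow_eq_monomial, ← C_pow, ← map_natCast (C : R →+* MvPolynomial ι R), mul_comm (monomial _ _),
      mul_comm, ← mul_assoc, ← C_mul, C_mul_monomial, mul_one]
  rw [h1, coeff_C_mul]
  congr 1
  simp only [h2]
  rw [Finset.prod_univ_sum]
  have h3 : ∀ p : ι → ℕ, ∏ i, (monomial (Finsupp.single i (p i)) ((Nat.choose (u i) (p i) : R) *
      ξ i ^ (u i - p i)) : MvPolynomial ι R) =
      monomial (Finsupp.equivFunOnFinite.symm p) (∏ i, ((Nat.choose (u i) (p i) : R) *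
        ξ i ^ (u i - p i))) := by
    intro p
    have h4 : (Finsupp.equivFunOnFinite.symm p : ι →₀ ℕ) = ∑ i, Finsupp.single i (p i) := by
      refine Finsupp.ext fun i => ?_
      rw [Finsupp.finsetSum_apply, Finset.sum_eq_single i]
      · simp
      · intro b _ hb
        exact Finsupp.single_eq_of_ne (Ne.symm hb)
      · intro h
        exact absurd (Finset.mem_univ i) h
    rw [h4, monomial_sum_prod]
  simp only [h3]
  rw [coeff_sum]
  simp only [coeff_monomial]
  by_cases hw : ∀ i, w i ≤ u i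
  · rw [Finset.sum_eq_single (fun i => w i)]
    · have h7 : (Finsupp.equivFunOnFinite.symm fun i => w i) = w := Finsupp.ext fun i => rfl
      exact if_pos h7
    · intro p _ hp
      rw [if_neg]
      intro h
      exact hp (funext fun i => by rw [← h]; rfl)
    · intro h
      exfalso
      apply h
      rw [Fintype.mem_piFinset]
      exact fun i => Finset.mem_range.2 (Nat.lt_succ_of_le (hw i))
  · push Not at hw
    obtain ⟨i, hi⟩ := hw
    rw [Finset.prod_eq_zero (Finset.mem_univ i), Finset.sum_eq_zero]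
    · intro p hp
      rw [if_neg]
      intro h
      rw [Fintype.mem_piFinset] at hp
      have h5 := Finset.mem_range.1 (hp i)
      rw [← h] at hi
      have h6 : (Finsupp.equivFunOnFinite.symm p : ι →₀ ℕ) i = p i := rfl
      omega
    · rw [Nat.choose_eq_zero_of_lt hi, Nat.cast_zero, zero_mul]

/-- The value of a linear functional on a polynomial. -/
theorem R_lin {L : Type*} [Field L] (v : AbsoluteValue L ℝ) {σ : Type*} (G : MvPolynomial σ L)
    (b : (σ →₀ ℕ) → L) {B : ℝ} (hB : 0 ≤ B) (h : ∀ w ∈ G.support, v (b w) ≤ B) :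
    v (∑ w ∈ G.support, coeff w G * b w) ≤ NV v G * B := by
  by_cases hv : IsNonarchimedean v
  · refine (SN_self v).sum_le_max hv _ _ (mul_nonneg (A2_nonneg v G) hB) fun w hw => ?_
    rw [map_mul]
    exact mul_le_mul (A2_coeff_le v G w) (h w hw) (v.nonneg _) (A2_nonneg v G)
  · rw [A2_ar hv, Finset.sum_mul]
    refine ((SN_self v).sum_le_sum _ _).trans (Finset.sum_le_sum fun w hw => ?_)
    rw [map_mul]
    exact mul_le_mul_of_nonneg_left (h w hw) (v.nonneg _)

/-- The coefficients of a translated polynomial. -/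
theorem R_coeff_tr_eq {R ι : Type*} [CommRing R] [Fintype ι] [DecidableEq ι] (ξ : ι → R)
    (G : MvPolynomial ι R) (w : ι →₀ ℕ) :
    coeff w (tr ξ G) = ∑ u ∈ G.support, coeff u G *
      ∏ i, ((Nat.choose (u i) (w i) : R) * ξ i ^ (u i - w i)) := by
  have h1 : tr ξ G = ∑ u ∈ G.support, tr ξ (monomial u (coeff u G)) := by
    conv_lhs => rw [G.as_sum]
    unfold tr
    rw [map_sum]
  rw [h1, coeff_sum]
  exact Finset.sum_congr rfl fun u _ => R_coeff_tr ξ u w _

/-- A polynomial without small coefficients at a point near the origin. -/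
theorem R_loc {L : Type*} [Field L] (v : AbsoluteValue L ℝ) {ι : Type*} [Fintype ι] [DecidableEq ι]
    (G : MvPolynomial ι L) (d : ι → ℕ) (hd : ∀ t, G.degreeOf t ≤ d t) (η : ι → L) (x : ι → ℝ)
    (hη : ∀ i, v (η i) ≤ Real.exp (- x i)) (T : ℝ)
    (hT : ∀ w ∈ G.support, T ≤ ∑ i, x i * w i) (w : ι →₀ ℕ) :
    v (coeff w (tr η G)) ≤ NV v G * (cst v 2 ^ (∑ i, d i) * Real.exp (∑ i, x i * w i - T)) := by
  rw [R_coeff_tr_eq]
  have h2 : 1 ≤ cst v 2 := one_le_cst v (by norm_num)
  refine R_lin v G _ (by positivity) fun u hu => ?_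
  by_cases hw : ∀ i, w i ≤ u i
  · have h3 : ∀ i, v ((Nat.choose (u i) (w i) : L) * η i ^ (u i - w i)) ≤
        cst v 2 ^ d i * Real.exp (x i * w i - x i * u i) := by
      intro i
      have hui : u i ≤ d i := (monomial_le_degreeOf i hu).trans (hd i)
      have h4 : v ((Nat.choose (u i) (w i) : L) * η i ^ (u i - w i)) ≤
          cst v (Nat.choose (u i) (w i)) * v (η i ^ (u i - w i)) :=
        (SN_self v).nsmul_le _ _
      have h5 : cst v (Nat.choose (u i) (w i)) ≤ cst v 2 ^ d i := by
        rw [← cst_pow]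
        exact cst_mono v ((Nat.choose_le_two_pow _ _).trans
          (Nat.pow_le_pow_right (by norm_num) hui))
      have h6 : v (η i ^ (u i - w i)) ≤ Real.exp (x i * w i - x i * u i) := by
        rw [map_pow]
        refine (pow_le_pow_left₀ (v.nonneg _) (hη i) _).trans (le_of_eq ?_)
        rw [← Real.exp_nat_mul, Nat.cast_sub (hw i)]
        congr 1
        ring
      exact h4.trans (mul_le_mul h5 h6 (v.nonneg _) (by positivity))
    rw [map_prod]
    refine (Finset.prod_le_prod (fun i _ => v.nonneg _) fun i _ => h3 i).trans ?_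
    rw [Finset.prod_mul_distrib, Finset.prod_pow_eq_pow_sum, ← Real.exp_sum,
      Finset.sum_sub_distrib]
    refine mul_le_mul_of_nonneg_left (Real.exp_le_exp.2 ?_) (by positivity)
    have := hT u hu
    linarith
  · push Not at hw
    obtain ⟨i, hi⟩ := hw
    rw [Finset.prod_eq_zero (Finset.mem_univ i), map_zero]
    · positivity
    · rw [Nat.choose_eq_zero_of_lt hi, Nat.cast_zero, zero_mul]

end Pool.Agent.Lib.MP_17a322_nt.VP
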