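import Pool.Agent.Lib.MP_17a322_nt.VP.R4

/-!
Roth's theorem with moving targets of small height: the numerical theorem.
-/

universe u

namespace Pool.Agent.Lib.MP_17a322_nt.VP

open MvPolynomial Height
open Pool.Agent.Lib.MP_17a322_nt.RO
open Pool.Agent.Lib.MP_17a322_nt.VJ

theorem R_const {ε₁ m h₀ B₂ κ g : ℝ} (hε : 0 < ε₁) (hε1 : ε₁ ≤ 1) (hm : 0 < m) (hh : 0 < h₀)
    (hκ : (1 / 2 - ε₁ / 12) * m ≤ κ) (hB : B₂ < h₀ * (m * ε₁ / 4))
    (h : h₀ * κ * g ≤ m * h₀ + B₂) : g < 2 + ε₁ := by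
  by_contra hcon
  rw [not_lt] at hcon
  have h0 : 0 < (1 / 2 - ε₁ / 12) * m := by
    have : 0 < 1 / 2 - ε₁ / 12 := by linarith
    positivity
  have hκ0 : 0 < κ := h0.trans_le hκ
  have h1 : h₀ * κ * (2 + ε₁) ≤ h₀ * κ * g := mul_le_mul_of_nonneg_left hcon (by positivity)
  have h2 : h₀ * ((1 / 2 - ε₁ / 12) * m) * (2 + ε₁) ≤ h₀ * κ * (2 + ε₁) :=
    mul_le_mul_of_nonneg_right (mul_le_mul_of_nonneg_left hκ hh.le) (by positivity)
  have h3 : (1 + ε₁ / 4) ≤ (1 / 2 - ε₁ / 12) * (2 + ε₁) := by nlinarith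
  have h4 : h₀ * m * (1 + ε₁ / 4) ≤ h₀ * m * ((1 / 2 - ε₁ / 12) * (2 + ε₁)) :=
    mul_le_mul_of_nonneg_left h3 (by positivity)
  have h5 : h₀ * ((1 / 2 - ε₁ / 12) * m) * (2 + ε₁) =
      h₀ * m * ((1 / 2 - ε₁ / 12) * (2 + ε₁)) := by ring
  have h6 : h₀ * m * (1 + ε₁ / 4) = m * h₀ + h₀ * (m * ε₁ / 4) := by ring
  linarith

/-- The numerical theorem. -/
theorem R_num {K : Type u} [Field K] [NumberField K] (Sg : Finset (AbsoluteValue K ℝ)) (ε : ℝ)
    (hε : 0 < ε) :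
    open Classical in
    ∃ (m : ℕ) (h₀ R₀ : ℝ), 0 < m ∧ 1 ≤ h₀ ∧ 1 ≤ R₀ ∧
      ∀ (t : Fin m → K) (f : AbsoluteValue K ℝ → Fin m → K) (ρ : AbsoluteValue K ℝ → ℝ),
      (∀ v ∈ Sg, 0 ≤ ρ v) → (∀ i, h₀ * R₀ ≤ logHeight₁ (t i)) →
      (∀ i i', i < i' → R₀ * logHeight₁ (t i) ≤ logHeight₁ (t i')) →
      (∀ v ∈ Sg, ∀ i, h₀ * logHeight₁ (f v i) ≤ logHeight₁ (t i)) →
      (∀ v ∈ Sg, ∀ i, v (t i - f v i) ≤ Real.exp (- (ρ v * logHeight₁ (t i)))) →
      gs (fun v => if v ∈ Sg then ρ v else 0) < 2 + ε := by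
  classical
  obtain ⟨ε₁, hε₁⟩ : ∃ ε₁, ε₁ = min ε 1 := ⟨_, rfl⟩
  have hε0 : 0 < ε₁ := by
    rw [hε₁]
    exact lt_min hε one_pos
  have hε1 : ε₁ ≤ 1 := by
    rw [hε₁]
    exact min_le_right _ _
  have hεε : ε₁ ≤ ε := by
    rw [hε₁]
    exact min_le_left _ _
  obtain ⟨r, hr⟩ : ∃ r : ℕ, r = Sg.card := ⟨_, rfl⟩
  obtain ⟨δ, hδ⟩ : ∃ δ : ℝ, δ = ε₁ / 36 := ⟨_, rfl⟩
  have hδ0 : 0 < δ := by
    rw [hδ]
    positivity
  obtain ⟨m, hm⟩ := exists_nat_gt ((r : ℝ) / (2 * δ ^ 2))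
  have hm0 : (0 : ℝ) < m := lt_of_le_of_lt (by positivity) hm
  have hm1 : 0 < m := by exact_mod_cast hm0
  have hrm : (r : ℝ) ≤ 2 * m * δ ^ 2 := by
    rw [div_lt_iff₀ (by positivity)] at hm
    linarith
  obtain ⟨C, hC0, hC⟩ := R_aux K
  obtain ⟨s, hs⟩ : ∃ s : ℝ, s = m * ε₁ / 144 := ⟨_, rfl⟩
  have hs0 : 0 < s := by
    rw [hs]
    positivity
  obtain ⟨B, hB⟩ : ∃ B : ℝ, B = C * (1 + m) + r * m := ⟨_, rfl⟩
  have hB0 : 0 ≤ B := by
    rw [hB]
    positivity
  obtain ⟨R₁, B', hB', hZ⟩ := R_zero (K := K) m s B hs0 hB0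
  obtain ⟨B₂, hB₂⟩ : ∃ B₂ : ℝ, B₂ = B + 2 * m * (totalWeight K * Real.log 2) + r * m := ⟨_, rfl⟩
  have hB₂0 : 0 ≤ B₂ := by
    rw [hB₂]
    positivity
  obtain ⟨h₀, hh₀⟩ : ∃ h₀ : ℝ, h₀ = B' + 1 + B₂ / (m * ε₁ / 4) + 1 := ⟨_, rfl⟩
  have hh1 : 1 ≤ h₀ := by
    rw [hh₀]
    have : 0 ≤ B₂ / (m * ε₁ / 4) := by positivity
    linarith
  have hh0 : 0 < h₀ := by linarith
  have hhB : B' < h₀ := by
    rw [hh₀]
    have : 0 ≤ B₂ / (m * ε₁ / 4) := by positivity
    linarith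
  have hhB₂ : B₂ < h₀ * (m * ε₁ / 4) := by
    rw [← div_lt_iff₀ (by positivity), hh₀]
    linarith
  obtain ⟨η, hη⟩ : ∃ η : ℝ, η = ε₁ / 18 := ⟨_, rfl⟩
  have hη0 : 0 < η := by
    rw [hη]
    positivity
  have hη1 : η ≤ 1 := by
    rw [hη]
    linarith
  refine ⟨m, h₀, 4 * R₁ + 1, hm1, hh1, by
    have : (0 : ℝ) ≤ R₁ := Nat.cast_nonneg _
    linarith, fun t f ρ hρ ht1 ht2 hf hclose => ?_⟩
  refine lt_of_lt_of_le ?_ (add_le_add_right hεε 2)
  -- the scaled heights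
  obtain ⟨W, hW⟩ : ∃ W : Fin m → ℝ, ∀ i, W i = logHeight₁ (t i) / h₀ := ⟨_, fun i => rfl⟩
  have hWh : ∀ i, logHeight₁ (t i) = W i * h₀ := fun i => by
    rw [hW]
    field_simp
  have hW1 : ∀ i, 1 ≤ W i := fun i => by
    rw [hW, le_div_iff₀ hh0]
    have h1 := ht1 i
    have h2 : (0 : ℝ) ≤ R₁ := Nat.cast_nonneg _
    have h3 : 0 ≤ h₀ * (4 * R₁) := by positivity
    linarith
  have hW0 : ∀ i, 0 < W i := fun i => one_pos.trans_le (hW1 i)
  have hWW : ∀ i i', i < i' → (4 * R₁ + 1) * W i ≤ W i' := fun i i' h => by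
    have h1 := ht2 i i' h
    rw [hWh, hWh] at h1
    refine le_of_mul_le_mul_right ?_ hh0
    linarith
  -- the degrees
  obtain ⟨M, hM⟩ := exists_nat_ge (∑ i, W i / η + 1)
  have hM' : ∀ i, W i ≤ η * M := fun i => by
    have h1 : W i / η ≤ ∑ i, W i / η :=
      Finset.single_le_sum (f := fun i => W i / η)
        (fun i _ => div_nonneg (hW0 i).le hη0.le) (Finset.mem_univ i)
    have h2 : W i / η ≤ M := by linarith
    rw [div_le_iff₀ hη0] at h2
    linarith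
  have hM1 : (1 : ℝ) ≤ M := by
    have h1 : 0 ≤ ∑ i, W i / η :=
      Finset.sum_nonneg fun i _ => div_nonneg (hW0 i).le hη0.le
    linarith
  obtain ⟨d, hd⟩ : ∃ d : Fin m → ℕ, ∀ i, d i = ⌊(M : ℝ) / W i⌋₊ := ⟨_, fun i => rfl⟩
  have hdM : ∀ i, (d i : ℝ) * W i ≤ M := fun i => by
    have h1 : (d i : ℝ) ≤ M / W i := by
      rw [hd]
      exact Nat.floor_le (by have := hW0 i; positivity)
    rwa [le_div_iff₀ (hW0 i)] at h1
  have hdM' : ∀ i, (1 - η) * M ≤ d i * W i := fun i => by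
    have h1 : (M : ℝ) / W i < d i + 1 := by
      rw [hd]
      exact Nat.lt_floor_add_one _
    rw [div_lt_iff₀ (hW0 i)] at h1
    have h2 := hM' i
    linarith
  have hd0 : ∀ i, 0 < d i := fun i => by
    have h1 := hdM' i
    have h2 : 0 < (1 - η) * M := by
      have : 0 < 1 - η := by
        rw [hη]
        linarith
      positivity
    by_contra hcon
    have h3 : d i = 0 := by omega
    rw [h3, Nat.cast_zero, zero_mul] at h1
    linarith
  have hd0' : ∀ i, (0 : ℝ) < d i := fun i => by exact_mod_cast hd0 i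
  have hdle : ∀ i, (d i : ℝ) ≤ M := fun i =>
    (le_mul_of_one_le_right (hd0' i).le (hW1 i)).trans (hdM i)
  have hdsum : ∑ i, (d i : ℝ) ≤ m * M := by
    refine (Finset.sum_le_sum fun i _ => hdle i).trans (le_of_eq ?_)
    rw [Finset.sum_const, Finset.card_univ, Fintype.card_fin, nsmul_eq_mul]
  have hdt : ∑ i, (d i : ℝ) * logHeight₁ (t i) ≤ m * (M * h₀) := by
    have h1 : ∀ i, (d i : ℝ) * logHeight₁ (t i) ≤ M * h₀ := fun i => by
      rw [hWh, ← mul_assoc]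
      exact mul_le_mul_of_nonneg_right (hdM i) hh0.le
    refine (Finset.sum_le_sum fun i _ => h1 i).trans (le_of_eq ?_)
    rw [Finset.sum_const, Finset.card_univ, Fintype.card_fin, nsmul_eq_mul]
  have hdf : ∀ v ∈ Sg, ∑ i, (d i : ℝ) * logHeight₁ (f v i) ≤ m * M := by
    intro v hv
    have h1 : ∀ i, (d i : ℝ) * logHeight₁ (f v i) ≤ M := fun i => by
      have h2 := hf v hv i
      rw [hWh] at h2
      have h3 : logHeight₁ (f v i) ≤ W i := by
        refine le_of_mul_le_mul_left ?_ hh0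
        linarith
      exact (mul_le_mul_of_nonneg_left h3 (hd0' i).le).trans (hdM i)
    refine (Finset.sum_le_sum fun i _ => h1 i).trans (le_of_eq ?_)
    rw [Finset.sum_const, Finset.card_univ, Fintype.card_fin, nsmul_eq_mul]
  -- the weights
  have hj : ∀ i, ∃ j : ℕ, (4 : ℝ) ^ j ≤ W i ∧ W i < 4 ^ (j + 1) := fun i =>
    exists_nat_pow_near (hW1 i) (by norm_num)
  choose j hj1 hj2 using hj
  have hjj : ∀ i i', i < i' → R₁ * 4 ^ j i ≤ 4 ^ j i' := by
    intro i i' h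
    have h1 := hWW i i' h
    have h2 := hj1 i
    have h3 := hj2 i'
    rw [pow_succ] at h3
    have h4 : (0 : ℝ) ≤ R₁ := Nat.cast_nonneg _
    have h5 : (4 : ℝ) * R₁ * 4 ^ j i ≤ 4 * R₁ * W i := mul_le_mul_of_nonneg_left h2 (by positivity)
    have h6 : (R₁ : ℝ) * 4 ^ j i < 4 ^ j i' := by
      have := hW0 i
      linarith
    exact_mod_cast h6.le
  -- the auxiliary polynomial
  let e := Sg.equivFin.symm
  obtain ⟨F, hF0, hFd, hFn, hFv⟩ := hC m (Fin Sg.card) δ hδ0 (by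
    rw [Fintype.card_fin, ← hr]
    exact hrm) d hd0 fun l i => f (e l) i
  have hFn' : nh F ≤ B * M := by
    refine hFn.trans ?_
    have h1 : ∑ l : Fin Sg.card, ∑ i, (d i : ℝ) * logHeight₁ (f (e l) i) ≤ r * (m * M) := by
      refine (Finset.sum_le_sum fun l _ => hdf (e l) (e l).2).trans (le_of_eq ?_)
      rw [Finset.sum_const, Finset.card_univ, Fintype.card_fin, nsmul_eq_mul, hr]
    have h2 : C * (1 + ∑ i, (d i : ℝ)) ≤ C * ((1 + m) * M) := by
      refine mul_le_mul_of_nonneg_left ?_ hC0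
      linarith
    rw [hB]
    linarith
  have hFv' : ∀ v ∈ Sg, ∀ w : Fin m →₀ ℕ, (∑ i, (w i : ℝ) / d i) < (1 / 2 - δ) * m →
      coeff w (tr (f v) F) = 0 := by
    intro v hv w hw
    have h1 := hFv (Sg.equivFin ⟨v, hv⟩) w hw
    have h2 : (fun i => f (e (Sg.equivFin ⟨v, hv⟩)) i) = f v := by
      funext i
      show f (Sg.equivFin.symm (Sg.equivFin ⟨v, hv⟩)) i = f v i
      rw [Equiv.symm_apply_apply]
    rwa [h2] at h1
  rcases hZ j t F M hjj hF0 (by linarith) (fun i => by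
    have h1 : (F.degreeOf i : ℝ) ≤ d i := by exact_mod_cast hFd i
    calc (4 : ℝ) ^ j i * F.degreeOf i ≤ W i * d i :=
          mul_le_mul (hj1 i) h1 (Nat.cast_nonneg _) (hW0 i).le
      _ = d i * W i := mul_comm _ _
      _ ≤ M := hdM i) hFn' with ⟨i, hi⟩ | ⟨w, hw1, hw2⟩
  · exfalso
    have h1 : B' * 4 ^ j i ≤ B' * W i := mul_le_mul_of_nonneg_left (hj1 i) hB'
    rw [hWh] at hi
    have h2 : W i * B' < W i * h₀ := mul_lt_mul_of_pos_left hhB (hW0 i)
    linarith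
  · -- the product formula
    obtain ⟨κ, hκ⟩ : ∃ κ : ℝ, κ = (1 - η) * ((1 / 2 - δ) * m) - 4 * s := ⟨_, rfl⟩
    have hκ1 : (1 / 2 - ε₁ / 12) * m ≤ κ := by
      rw [hκ, hη, hδ, hs]
      nlinarith [mul_pos hm0 hε0, mul_nonneg hm0.le (mul_nonneg hε0.le hε0.le)]
    have hM0 : (0 : ℝ) < M := by linarith
    have hprod := R_prod F hF0 d hFd t w hw2 Sg f (fun v => (h₀ * κ * M) * ρ v) (by
      intro v hv
      have hρv := hρ v hv
      refine (R_close v F d hFd t (f v) (fun i => ρ v * logHeight₁ (t i)) (hclose v hv)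
        (ρ v * (h₀ * ((1 - η) * M * ((1 / 2 - δ) * m)))) ?_ w).trans ?_
      · intro w' hw'
        refine hFv' v hv w' ?_
        by_contra hcon
        rw [not_lt] at hcon
        have h1 : ∀ i, (1 - η) * M * ((w' i : ℝ) / d i) ≤ W i * w' i := by
          intro i
          have h2 := hdM' i
          have h3 : (0 : ℝ) ≤ (w' i : ℝ) / d i := by
            have := (hd0' i).le
            positivity
          calc (1 - η) * M * ((w' i : ℝ) / d i) ≤ (d i * W i) * ((w' i : ℝ) / d i) :=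
                mul_le_mul_of_nonneg_right h2 h3
            _ = W i * w' i := by
                have := (hd0' i).ne'
                field_simp
        have h2 : (1 - η) * M * ((1 / 2 - δ) * m) ≤ ∑ i, W i * w' i := by
          have h3 : (1 - η) * M * ((1 / 2 - δ) * m) ≤ (1 - η) * M * ∑ i, (w' i : ℝ) / d i :=
            mul_le_mul_of_nonneg_left hcon (mul_nonneg (by linarith) hM0.le)
          rw [Finset.mul_sum] at h3
          exact h3.trans (Finset.sum_le_sum fun i _ => h1 i)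
        have h4 : ∑ i, ρ v * logHeight₁ (t i) * (w' i : ℝ) =
            ρ v * (h₀ * ∑ i, W i * w' i) := by
          rw [Finset.mul_sum, Finset.mul_sum]
          refine Finset.sum_congr rfl fun i _ => ?_
          rw [hWh]
          ring
        rw [h4] at hw'
        exact absurd hw' (not_lt.2 (mul_le_mul_of_nonneg_left
          (mul_le_mul_of_nonneg_left h2 hh0.le) hρv))
      · have hN := (NV_pos v hF0).le
        have hc2 : 1 ≤ cst v 2 := one_le_cst v (by norm_num)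
        refine mul_le_mul_of_nonneg_left (mul_le_mul_of_nonneg_left (Real.exp_le_exp.2 ?_)
          (by positivity)) (by positivity)
        have h4 : ∑ i, ρ v * logHeight₁ (t i) * (w i : ℝ) =
            ρ v * (h₀ * ∑ i, W i * w i) := by
          rw [Finset.mul_sum, Finset.mul_sum]
          refine Finset.sum_congr rfl fun i _ => ?_
          rw [hWh]
          ring
        have h5 : ∑ i, W i * w i ≤ 4 * (s * M) := by
          have h6 : ∑ i, W i * w i ≤ ∑ i, 4 * ((4 : ℝ) ^ j i * w i) := by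
            refine Finset.sum_le_sum fun i _ => ?_
            have h7 := hj2 i
            rw [pow_succ] at h7
            have h8 := mul_le_mul_of_nonneg_right h7.le (Nat.cast_nonneg (α := ℝ) (w i))
            linarith
          rw [← Finset.mul_sum] at h6
          linarith
        rw [h4, hκ]
        have h9 : ρ v * (h₀ * ∑ i, W i * w i) ≤ ρ v * (h₀ * (4 * (s * M))) :=
          mul_le_mul_of_nonneg_left (mul_le_mul_of_nonneg_left h5 hh0.le) hρv
        refine (sub_le_sub_right h9 _).trans (le_of_eq ?_)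
        ring)
    have hgs : gs (fun v => if v ∈ Sg then (h₀ * κ * M) * ρ v else 0) =
        (h₀ * κ * M) * gs (fun v => if v ∈ Sg then ρ v else 0) := by
      rw [← gs_const_mul]
      congr 1
      funext v
      rw [mul_ite, mul_zero]
    rw [hgs] at hprod
    have h1 : ∑ v ∈ Sg, ∑ i, (d i : ℝ) * logHeight₁ (f v i) ≤ r * (m * M) := by
      refine (Finset.sum_le_sum fun v hv => hdf v hv).trans (le_of_eq ?_)
      rw [Finset.sum_const, nsmul_eq_mul, hr]
    have h2 : 2 * (∑ i, (d i : ℝ)) * (totalWeight K * Real.log 2) ≤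
        2 * (m * M) * (totalWeight K * Real.log 2) := by
      refine mul_le_mul_of_nonneg_right ?_ (by positivity)
      linarith
    refine R_const hε0 hε1 hm0 hh0 hκ1 hhB₂ (le_of_mul_le_mul_left ?_ hM0)
    rw [hB₂]
    have h3 : (M : ℝ) * (h₀ * κ * gs (fun v => if v ∈ Sg then ρ v else 0)) =
        (h₀ * κ * M) * gs (fun v => if v ∈ Sg then ρ v else 0) := by ring
    rw [h3]
    linarith

end Pool.Agent.Lib.MP_17a322_nt.VP
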