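import Pool.Agent.Lib.MP_17a322_nt.VP.CI
import Pool.Agent.Lib.MP_17a322_nt.VP.E06c
import Pool.Agent.Lib.MP_17a322_nt.VP.B2
import Pool.Agent.Lib.MP_17a322_nt.VP.CP3
import Pool.Agent.Lib.MP_17a322_nt.VP.N11
import Pool.Agent.Lib.MP_17a322_nt.VP.N12
import Pool.Agent.Lib.MP_17a322_nt.VA.LB9
import Pool.Agent.Lib.MP_17a322_nt.VA.LB10

/-!
VP, numerical theorem: the assembly.
-/

universe u

namespace Pool.Agent.Lib.MP_17a322_nt.VP

open MvPolynomial Height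
open Pool.Agent.Lib.MP_17a322_nt.RO
open Pool.Agent.Lib.MP_17a322_nt.VJ
open Pool.Agent.Lib.MP_17a322_nt.VN
open Pool.Agent.Lib.MP_17a322_nt.VA

/-- Degrees of forms. -/
theorem N_deg {K : Type*} [Field K] {σ : Type*} {F : MvPolynomial σ K} {D : ℕ}
    (h : F.IsHomogeneous D) (s : σ) : F.degreeOf s ≤ D :=
  (degreeOf_le_totalDegree F s).trans h.totalDegree_le

/-- The value of a form at the affine coordinates. -/
theorem N_eval_y {K : Type u} [Field K] {N : ℕ} {A : AV K N} {n e : ℕ} (nd : Noe A n e)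
    (P : A.Pts K) (hP : lf (nd.l 0) (A.x P) ≠ 0) {F : MvPolynomial (Fin (N + 1)) K} {D : ℕ}
    (h : F.IsHomogeneous D) (h0 : aeval (A.x P) F ≠ 0) : eval (nd.y P) F ≠ 0 := by
  have h2 : eval (nd.y P) F = (lf (nd.l 0) (A.x P))⁻¹ ^ D * eval (A.x P) F := by
    rw [eval_eq', eval_eq', Finset.mul_sum]
    refine Finset.sum_congr rfl fun μ hμ => ?_
    have h3 : ∑ i, μ i = D := by
      rw [← Finsupp.degree_eq_sum, Finsupp.degree_apply]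
      exact (h.degree_eq_sum_deg_support hμ).symm
    have h4 : ∏ i, nd.y P i ^ μ i = (lf (nd.l 0) (A.x P))⁻¹ ^ D * ∏ i, A.x P i ^ μ i := by
      rw [← h3, ← Finset.prod_pow_eq_pow_sum, ← Finset.prod_mul_distrib]
      refine Finset.prod_congr rfl fun i _ => ?_
      unfold Noe.y
      rw [div_eq_inv_mul, mul_pow]
    rw [h4]
    ring
  rw [h2]
  exact mul_ne_zero (pow_ne_zero _ (inv_ne_zero hP)) h0

/-- The numerical theorem. -/
theorem SR {K : Type u} [Field K] [NumberField K] {N : ℕ} (A : AV K N) {n e : ℕ}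
    (nd : Noe A n e)
    (r D : ℕ) (τ ε : ℝ) (hτ : 0 ≤ τ) (hε : 0 < ε) :
    ∃ (E : SC K) (C₁ : ℝ) (m D' R₀ : ℕ) (C₀ η : ℝ), 0 ≤ C₁ ∧ 0 < m ∧ 0 ≤ C₀ ∧ 0 < η ∧
      ∀ (P₀ : A.Pts K) (P : Fin m → A.Pts K) (j : Fin m → ℕ) (t : Fin m → K)
        (α β : Fin m → Fin r → MvPolynomial (Fin (N + 1)) K),
      (∀ i, R₀ ≤ 4 ^ j i) → (∀ i i', i < i' → R₀ * 4 ^ j i ≤ 4 ^ j i') →
      (∀ i, nd.Good (P i)) →
      (∀ i l, (α i l).IsHomogeneous D ∧ (β i l).IsHomogeneous D ∧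
        aeval (A.x (P i)) (β i l) ≠ 0 ∧ ht2 (α i l) (β i l) ≤ 4 ^ j i) →
      C₀ ≤ A.h P₀ →
      (∀ i, A.h (P i - 2 ^ j i • P₀) ≤ η * (4 ^ j i * A.h P₀)) →
      (∀ i, |A.h (P i) - 4 ^ j i * A.h P₀| ≤ η * (4 ^ j i * A.h P₀)) →
      (∀ i, logHeight₁ (t i) ≤ (τ + η) * (4 ^ j i * A.h P₀)) →
      (2 * τ + ε) * A.h P₀ ≤ gs (fun v : AbsoluteValue K ℝ => tg nd E C₁ j P t α β v) →
      ∃ (i : Fin m) (G : MvPolynomial (Option (Fin n)) K), G ≠ 0 ∧ (∀ y, G.degreeOf y ≤ D') ∧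
        nh G ≤ C₀ * 4 ^ j i ∧
        eval (fun y : Option (Fin n) => y.elim (t i) (nd.s (P i))) G = 0 := by
  classical
  obtain ⟨E₀, c₀, hblock⟩ := exists_blockP A nd
  obtain ⟨E, a₁, hOK⟩ := N_exists_OK nd E₀
  obtain ⟨C₁, hC₁⟩ : ∃ C₁, C₁ = N_C1 N D c₀ := ⟨_, rfl⟩
  have hC₁0 : 0 ≤ C₁ := by rw [hC₁]; exact N_C1_nonneg N D c₀
  obtain ⟨Cw, hCw, hw⟩ := exists_hw nd
  obtain ⟨C, hC, hineq⟩ := N_ineqK nd E₀ E c₀ a₁ hOK D r C₁ hC₁.ge Cw hCw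
  -- the first constants
  obtain ⟨δ, hδ⟩ : ∃ δ : ℝ, δ = ε / (32 * (2 + 2 * τ + ε)) := ⟨_, rfl⟩
  obtain ⟨ε', hε'⟩ : ∃ ε' : ℝ, ε' = ε / (64 * (n + 1)) := ⟨_, rfl⟩
  have hn0 : (0 : ℝ) ≤ n := Nat.cast_nonneg _
  have hW : 0 < 2 + 2 * τ + ε := by positivity
  have hδ0 : 0 < δ := by rw [hδ]; positivity
  have hε'0 : 0 < ε' := by rw [hε']; positivity
  have hδ1 : δ ≤ 1 / 32 := by
    rw [hδ, div_le_div_iff₀ (by positivity) (by norm_num)]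
    nlinarith
  have hδ2 : δ * (2 * τ + ε) ≤ ε / 32 := by
    rw [hδ, div_mul_eq_mul_div, div_le_div_iff₀ (by positivity) (by norm_num)]
    nlinarith
  have hε2 : 2 * n * ε' ≤ ε / 32 := by
    rw [hε', mul_div_assoc', div_le_div_iff₀ (by positivity) (by norm_num)]
    nlinarith
  obtain ⟨m₀, haux⟩ := exists_auxP nd r D δ ε' hδ0 (by linarith) hε'0
  obtain ⟨m, hmdef⟩ : ∃ m : ℕ, m = m₀ + 1 := ⟨_, rfl⟩
  have hm : 0 < m := by omega
  have hm1 : (1 : ℝ) ≤ m := by exact_mod_cast hm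
  obtain ⟨M₀, CF, hCF, hauxm⟩ := haux m (by omega) hm
  obtain ⟨B₀, hB₀⟩ : ∃ B₀ : ℝ, B₀ = ε' * m + M₀ + 1 := ⟨_, rfl⟩
  have hM0 : (0 : ℝ) ≤ M₀ := Nat.cast_nonneg _
  have hB₀1 : 1 ≤ B₀ := by
    rw [hB₀]
    have : 0 ≤ ε' * m := by positivity
    linarith
  have hB₀0 : 0 < B₀ := zero_lt_one.trans_le hB₀1
  obtain ⟨σ, hσ⟩ : ∃ σ : ℝ, σ = ε / (32 * (C + 1) * (2 + 2 * τ + ε)) := ⟨_, rfl⟩
  have hσ0 : 0 < σ := by rw [hσ]; positivity
  have hσ1 : σ ≤ 1 / 32 := by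
    rw [hσ, div_le_div_iff₀ (by positivity) (by norm_num)]
    nlinarith [mul_nonneg hC hW.le]
  have hσ2 : σ * (2 * τ + ε) ≤ ε / 32 := by
    rw [hσ, div_mul_eq_mul_div, div_le_div_iff₀ (by positivity) (by norm_num)]
    have h1 : 0 ≤ ε * (C * (2 + 2 * τ + ε)) := by positivity
    nlinarith
  have hσ3 : σ * (C * (2 + τ)) ≤ ε / 32 := by
    rw [hσ, div_mul_eq_mul_div, div_le_div_iff₀ (by positivity) (by norm_num)]
    have h1 : 0 ≤ ε * (C * (τ + ε)) := by positivity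
    have h2 : 0 ≤ ε * (2 + 2 * τ + ε) := by positivity
    nlinarith
  obtain ⟨D', R₀, B', hB', hEP⟩ := EP A nd m hm (σ / B₀) CF (div_pos hσ0 hB₀0) hCF
  obtain ⟨g, hg⟩ : ∃ g : ℕ, g = nd.Φ.natDegree := ⟨_, rfl⟩
  have hg0 : (0 : ℝ) ≤ g := Nat.cast_nonneg _
  have ha10 : (0 : ℝ) ≤ a₁ := Nat.cast_nonneg _
  obtain ⟨q, hq⟩ : ∃ q : ℝ, q = 2 * a₁ * (g + n * M₀) := ⟨_, rfl⟩
  have hq0 : 0 ≤ q := by rw [hq]; positivity
  obtain ⟨η, hη⟩ : ∃ η : ℝ, η = ε / (32 * (q + 1 + ε)) := ⟨_, rfl⟩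
  have hη0 : 0 < η := by rw [hη]; positivity
  have hη1 : η ≤ 1 := by
    rw [hη, div_le_one (by positivity)]
    nlinarith
  have hη2 : q * η ≤ ε / 32 := by
    rw [hη, mul_div_assoc', div_le_div_iff₀ (by positivity) (by norm_num)]
    nlinarith
  have hη3 : η ≤ ε / 32 := by
    rw [hη, div_le_div_iff₀ (by positivity) (by norm_num)]
    nlinarith [mul_nonneg hε.le hq0]
  obtain ⟨Z, hZ⟩ : ∃ Z : ℝ, Z = CF + n * ε' * m * C + m * (g + n * M₀) * C + m * C +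
    σ * (m * C) := ⟨_, rfl⟩
  have hZ0 : 0 ≤ Z := by rw [hZ]; positivity
  obtain ⟨C₀, hC₀⟩ : ∃ C₀ : ℝ, C₀ = 4 * (Z + 1) / ε + B' := ⟨_, rfl⟩
  have hC₀0 : 0 ≤ C₀ := by rw [hC₀]; positivity
  refine ⟨E, C₁, m, D', R₀, C₀, η, hC₁0, hm, hC₀0, hη0, ?_⟩
  intro P₀ P j t α β _ hRR hgood hαβ hC₀h hd hh ht hG
  by_contra hcon
  obtain ⟨J, hJdef⟩ : ∃ J : ℕ, J = Finset.univ.sup j := ⟨_, rfl⟩
  have hJ : ∀ i, j i ≤ J := fun i => by
    rw [hJdef]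
    exact Finset.le_sup (Finset.mem_univ i)
  have h4J : ∀ i, (4 : ℝ) ^ (J - j i) * 4 ^ j i = 4 ^ J := by
    intro i
    rw [← pow_add, Nat.sub_add_cancel (hJ i)]
  have hβI : ∀ i l, β i l ∉ A.I := fun i l h1 => (hαβ i l).2.2.1 (A.x_isPt (P i) _ h1)
  obtain ⟨F, hF0, hFth, hFx, hFz, hFu, hFnh, hFvan⟩ := hauxm J j α β hJ fun i l =>
    ⟨(hαβ i l).1, (hαβ i l).2.1, hβI i l, (hαβ i l).2.2.2⟩
  have h4J0 : (0 : ℝ) < 4 ^ J := by positivity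
  rcases hEP P j t F (B₀ * 4 ^ J) hRR hgood hF0 hFth (fun a => by
      refine (hFx a).trans (mul_le_mul_of_nonneg_right ?_ h4J0.le)
      rw [hB₀]
      linarith) (fun p => by
      have h1 : (F.degreeOf (VF.z p) : ℝ) ≤ M₀ * 4 ^ (J - j p.1) := by exact_mod_cast hFz p
      calc (4 : ℝ) ^ j p.1 * F.degreeOf (VF.z p) ≤ 4 ^ j p.1 * (M₀ * 4 ^ (J - j p.1)) :=
            mul_le_mul_of_nonneg_left h1 (by positivity)
        _ = M₀ * (4 ^ (J - j p.1) * 4 ^ j p.1) := by ring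
        _ = M₀ * 4 ^ J := by rw [h4J]
        _ ≤ B₀ * 4 ^ J := by
            refine mul_le_mul_of_nonneg_right ?_ h4J0.le
            rw [hB₀]
            have : 0 ≤ ε' * m := by positivity
            linarith) (fun i => by
      have h1 : (F.degreeOf (VF.u i) : ℝ) ≤ 4 ^ (J - j i) := by exact_mod_cast hFu i
      calc (4 : ℝ) ^ j i * F.degreeOf (VF.u i) ≤ 4 ^ j i * 4 ^ (J - j i) :=
            mul_le_mul_of_nonneg_left h1 (by positivity)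
        _ = 4 ^ J := by rw [mul_comm, h4J]
        _ ≤ B₀ * 4 ^ J := le_mul_of_one_le_left h4J0.le hB₀1) (fun i =>
      (pow_le_pow_right₀ (by norm_num) (hJ i)).trans
        (le_mul_of_one_le_left h4J0.le hB₀1)) (by
      refine hFnh.trans (mul_le_mul_of_nonneg_left ?_ hCF)
      exact le_mul_of_one_le_left h4J0.le hB₀1) with ⟨i, G, hG0, hGd, hGh, hGe⟩ | ⟨gp, hgp, hmain⟩
  · refine hcon ⟨i, G, hG0, hGd, hGh.trans (mul_le_mul_of_nonneg_right ?_ (by positivity)), hGe⟩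
    rw [hC₀]
    have : 0 ≤ 4 * (Z + 1) / ε := by positivity
    linarith
  · obtain ⟨L, _, _, _, w, ζ, hw0, hws, hζ, hQgood, hgQ, hsub⟩ := choose_LP A nd gp hgp P₀ P j
    obtain ⟨Q, hQ⟩ : ∃ Q : A.Pts L, Q = A.img (Algebra.ofId K L) P₀ + w := ⟨_, rfl⟩
    rw [← hQ] at hQgood hgQ hsub
    have hrepQ : A.Rep Q (nd.y Q) := nd.rep_y Q hQgood.1
    have hMi : ∀ i, A.Rep (2 ^ j i • Q) (A.mu (j i) (nd.y Q)) := fun i => hrepQ.mu (j i)
    have hPi : ∀ i, A.Rep (A.img (Algebra.ofId K L) (P i))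
        (fun b => algebraMap K L (nd.y (P i) b)) := fun i =>
      (nd.rep_y (P i) (hgood i).1).img (Algebra.ofId K L)
    have hblk := fun i => hblock (P i) (hgood i) L (4 ^ j i) (fun k => ζ (i, some k))
      (A.mu (j i) (nd.y Q)) (nd.s (A.img (Algebra.ofId K L) (P i) - 2 ^ j i • Q))
      (pow_pos four_pos _) (fun k => hζ (i, some k)) (hMi i).isPt (hMi i).ne_zero
      (block_hyp nd _ _ (hPi i) (hMi i) (hsub i).1.1).1
      (block_hyp nd _ _ (hPi i) (hMi i) (hsub i).1.1).2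
    choose y ηs hy using hblk
    have hB : ∀ i, N_B nd E₀ c₀ (P i) (4 ^ j i) (fun k => ζ (i, some k))
        (A.mu (j i) (nd.y Q)) (nd.s (A.img (Algebra.ofId K L) (P i) - 2 ^ j i • Q))
        (y i) (ηs i) := fun i =>
      { blk := (hy i).1
        hq := (hy i).2.1
        form := (hy i).2.2.1
        rad := fun v => ((hy i).2.2.2 v).1
        sy := fun v => ((hy i).2.2.2 v).2.1
        seta := fun v => ((hy i).2.2.2 v).2.2 }
    have hsQ : (fun k : Fin n => lf (nd.l k.succ) (nd.y Q)) = nd.s Q :=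
      funext fun k => nd.lf_y_succ Q k
    obtain ⟨a, ha, hne⟩ := hmain L (nd.y Q) ζ y ηs (nd.y_isPt Q) (nd.lf_y_zero Q hQgood.1)
      (by rw [hsQ]; exact hgQ) fun i => (hB i).blk
    have hI := hineq m g M₀ J (ε' * m * 4 ^ J) ((1 / 2 - δ) * m * 4 ^ J) η τ P₀ P j t α β F hm
      (by positivity) hη0.le hτ hJ hgood (fun i l s => N_deg (hαβ i l).1 s)
      (fun i l s => N_deg (hαβ i l).2.1 s)
      (fun i l => N_eval_y nd (P i) (hgood i).1 (hαβ i l).2.1 (hαβ i l).2.2.1)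
      (fun i l => (hαβ i l).2.2.2) hF0 (fun i => by rw [hg]; exact (hFth i).le) hFx hFz hFu
      hFvan hd (fun i => by
        have h1 := (abs_le.1 (hh i)).2
        linarith) ht L w ζ y ηs a (hw L w hw0 hws) hζ (by rw [← hQ]; exact hQgood)
      (fun i => by rw [← hQ]; exact (hsub i).1) (fun i => by rw [← hQ]; exact (hsub i).2)
      (fun i => by rw [← hQ]; exact hB i) (by rw [← hQ]; exact hne)
    have hh00 : 0 ≤ A.h P₀ := AV.h_nonneg P₀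
    have haX : (a : ℝ) ≤ σ * 4 ^ J := by
      refine ha.le.trans (le_of_eq ?_)
      rw [← mul_assoc, div_mul_cancel₀ _ hB₀0.ne']
    have hZh : Z < 10 * ε / 32 * (m * A.h P₀) := by
      have h1 : 4 * (Z + 1) / ε ≤ A.h P₀ := by
        refine le_trans ?_ hC₀h
        rw [hC₀]
        linarith
      rw [div_le_iff₀ hε] at h1
      have h2 : A.h P₀ ≤ m * A.h P₀ := le_mul_of_one_le_left hh00 hm1
      have h3 : A.h P₀ * ε ≤ m * A.h P₀ * ε := mul_le_mul_of_nonneg_right h2 hε.le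
      nlinarith
    rw [hZ] at hZh
    exact N_num hm hC hτ hε hσ0.le hη0.le hη1 hh00 h4J0 haX hFnh hδ2 (by linarith) hε2
      (by rw [← hq]; exact hη2) hη3 (by linarith) hσ2 hσ3 hZh hG hI

end Pool.Agent.Lib.MP_17a322_nt.VP
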