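import Pool.Agent.Lib.MP_17a322_nt.VP.S1
import Pool.Agent.Lib.MP_17a322_nt.VP.S2
import Pool.Agent.Lib.MP_17a322_nt.VP.SR
import Pool.Agent.Lib.MP_17a322_nt.VN.F5
import Pool.Agent.Lib.MP_17a322_nt.VG.Z7a

/-!
The main case from the numerical theorem.
-/

universe u

namespace Pool.Agent.Lib.MP_17a322_nt.VP

open MvPolynomial Height Filter
open Pool.Agent.Lib.MP_17a322_nt.RO
open Pool.Agent.Lib.MP_17a322_nt.VJ
open Pool.Agent.Lib.MP_17a322_nt.VN hiding lf
open Pool.Agent.Lib.MP_17a322_nt.VA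

theorem S_tg_nonneg {K : Type u} [Field K] {N : ℕ} {A : AV K N} {n e : ℕ} (nd : Noe A n e)
    (E : SC K) (C₁ : ℝ) {L : Type u} [Field L] [Algebra K L] {m r : ℕ}
    (j : Fin m → ℕ) (P : Fin m → A.Pts K) (t : Fin m → K)
    (α β : Fin m → Fin r → MvPolynomial (Fin (N + 1)) K) (v : AbsoluteValue L ℝ) :
    0 ≤ tg nd E C₁ j P t α β v :=
  Real.iSup_nonneg fun _ => le_max_left _ _

/-- The joint gain has finite support. -/
theorem S_FS_tg {K : Type u} [Field K] [NumberField K] {N : ℕ} {A : AV K N} {n e : ℕ}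
    (nd : Noe A n e) (E : SC K) {C₁ : ℝ} (hC₁ : 0 ≤ C₁) {m r : ℕ} (hm : 0 < m)
    (j : Fin m → ℕ) (P : Fin m → A.Pts K) (t : Fin m → K)
    (α β : Fin m → Fin r → MvPolynomial (Fin (N + 1)) K) :
    FS fun v : AbsoluteValue K ℝ => tg nd E C₁ j P t α β v := by
  obtain ⟨i₀, -⟩ : ∃ i₀ : Fin m, i₀ = i₀ := ⟨⟨0, hm⟩, rfl⟩
  have h1 : (⋃ l : Fin r, {v : AdmissibleAbsValues.nonarchAbsVal (K := K) |
      Real.log (v.val (algebraMap K K (t i₀ - eval (nd.y (P i₀)) (α i₀ l) /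
        eval (nd.y (P i₀)) (β i₀ l)))) ≠ 0}).Finite :=
    Set.finite_iUnion fun l => VG.FS_log' _
  refine h1.subset fun v hv => ?_
  by_contra h2
  rw [Set.mem_iUnion] at h2
  push Not at h2
  apply hv
  show tg nd E C₁ j P t α β v.val = 0
  unfold tg
  have h3 : ∀ l : Fin r, max 0 (⨅ i : Fin m,
      (- Real.log (v.val (algebraMap K K (t i - eval (nd.y (P i)) (α i l) /
        eval (nd.y (P i)) (β i l)))) -
        C₁ * lossP nd E v.val (P i) (t i) (α i l) (β i l)) / 4 ^ j i) = 0 := by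
    intro l
    refine max_eq_left ?_
    refine (ciInf_le (Set.finite_range _).bddBelow i₀).trans ?_
    refine div_nonpos_of_nonpos_of_nonneg ?_ (by positivity)
    have h4 : Real.log (v.val (algebraMap K K (t i₀ - eval (nd.y (P i₀)) (α i₀ l) /
        eval (nd.y (P i₀)) (β i₀ l)))) = 0 := by
      by_contra h5
      exact h2 l h5
    rw [h4]
    have h5 := mul_nonneg hC₁ (S_loss_nonneg nd E v.val (P i₀) (t i₀) (α i₀ l) (β i₀ l))
    linarith
  simp only [h3]
  exact Real.iSup_const_zero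

/-- The joint gain is at least the gain for the target `l`. -/
theorem S_le_tg {K : Type u} [Field K] [NumberField K] {N : ℕ} {A : AV K N} {n e : ℕ}
    (nd : Noe A n e) (E : SC K) {C₁ : ℝ} (hC₁ : 0 ≤ C₁) {m r : ℕ} (hm : 0 < m)
    (j : Fin m → ℕ) (P : Fin m → A.Pts K) (t : Fin m → K)
    (α β : Fin m → Fin r → MvPolynomial (Fin (N + 1)) K) (v : AbsoluteValue K ℝ) (l : Fin r)
    (D : ℕ) (hgood : ∀ i, nd.Good (P i))
    (hhom : ∀ i, (α i l).IsHomogeneous D ∧ (β i l).IsHomogeneous D)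
    {h₀ c κ η : ℝ} (hh₀ : 0 ≤ h₀) (hκ : 0 ≤ κ) (hη1 : η ≤ 1)
    (hlow : ∀ i, (1 - η) * (4 ^ j i * h₀) ≤ A.h (P i)) (hpos : ∀ i, 0 < A.h (P i))
    (hloss : ∀ i, lossP nd E v (P i) (t i) (α i l) (β i l) ≤ κ * A.h (P i))
    (hlam : ∀ i, (c - κ) * A.h (P i) ≤
      - Real.log (min 1 (v (t i - aeval (A.x (P i)) (α i l) / aeval (A.x (P i)) (β i l))))) :
    (1 - η) * h₀ * (c - (1 + C₁) * κ) ≤ tg nd E C₁ j P t α β v := by
  have : Nonempty (Fin m) := ⟨⟨0, hm⟩⟩
  have hηh : 0 ≤ (1 - η) * h₀ := mul_nonneg (by linarith) hh₀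
  by_cases hc : c - (1 + C₁) * κ ≤ 0
  · exact (mul_nonpos_of_nonneg_of_nonpos hηh hc).trans (S_tg_nonneg nd E C₁ j P t α β v)
  · push Not at hc
    unfold tg
    refine le_trans ?_ (le_ciSup (Set.finite_range _).bddAbove l)
    refine le_trans ?_ (le_max_right _ _)
    refine le_ciInf fun i => ?_
    have h4 : (0 : ℝ) < 4 ^ j i := by positivity
    rw [le_div_iff₀ h4]
    have hcκ : 0 < c - κ := by
      have := mul_nonneg hC₁ hκ
      nlinarith
    have h1 : 0 < - Real.log (min 1 (v (t i - aeval (A.x (P i)) (α i l) /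
        aeval (A.x (P i)) (β i l)))) := (mul_pos hcκ (hpos i)).trans_le (hlam i)
    have h2 : min 1 (v (t i - aeval (A.x (P i)) (α i l) / aeval (A.x (P i)) (β i l))) =
        v (t i - aeval (A.x (P i)) (α i l) / aeval (A.x (P i)) (β i l)) := by
      refine min_eq_right ?_
      by_contra hcon
      push Not at hcon
      rw [min_eq_left hcon.le, Real.log_one, neg_zero] at h1
      exact lt_irrefl _ h1
    have h3 : eval (nd.y (P i)) (α i l) / eval (nd.y (P i)) (β i l) =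
        aeval (A.x (P i)) (α i l) / aeval (A.x (P i)) (β i l) := by
      rw [← S_eval_y nd (P i) (hgood i).1 (hhom i).1, ← S_eval_y nd (P i) (hgood i).1 (hhom i).2,
        mul_div_mul_left _ _ (pow_ne_zero _ (hgood i).1)]
    have h5 := hlam i
    rw [h2, ← h3] at h5
    rw [Algebra.algebraMap_self, RingHom.id_apply]
    have h6 := mul_le_mul_of_nonneg_left (hloss i) hC₁
    have h7 := mul_le_mul_of_nonneg_right (hlow i) hc.le
    calc (1 - η) * h₀ * (c - (1 + C₁) * κ) * 4 ^ j i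
        = (1 - η) * (4 ^ j i * h₀) * (c - (1 + C₁) * κ) := by ring
      _ ≤ A.h (P i) * (c - (1 + C₁) * κ) := h7
      _ = (c - κ) * A.h (P i) - C₁ * (κ * A.h (P i)) := by ring
      _ ≤ _ := by linarith

end Pool.Agent.Lib.MP_17a322_nt.VP
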