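import Pool.Agent.Lib.MP_17a322_nt.VP.S3
import Pool.Agent.Lib.MP_17a322_nt.VA.FA8

/-!
The main case: `t` and the Noether coordinates are independent over `k0`.
-/

universe u

namespace Pool.Agent.Lib.MP_17a322_nt.VP

open MvPolynomial Height Filter
open Pool.Agent.Lib.MP_17a322_nt.RO
open Pool.Agent.Lib.MP_17a322_nt.VJ
open Pool.Agent.Lib.MP_17a322_nt.VN hiding lf
open Pool.Agent.Lib.MP_17a322_nt.VA

theorem S_lam_nonneg {K : Type*} [Field K] (v : AbsoluteValue K ℝ) (x : K) :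
    0 ≤ - Real.log (min 1 (v x)) := by
  have h1 := Real.log_nonpos (le_min zero_le_one (v.nonneg x)) (min_le_left _ _)
  linarith

/-- The constants. -/
theorem S_consts {τ ε C₁ M η : ℝ} (hτ : 0 ≤ τ) (hε : 0 < ε) (hC₁ : 0 ≤ C₁) (hM : 0 ≤ M)
    (hη : 0 < η) : ∃ κ η' : ℝ, 0 < κ ∧ 0 < η' ∧ η' ≤ 1 ∧ η' ≤ η ∧
      (τ + κ) * (1 + η') ≤ τ + η ∧ ∀ L h₀ : ℝ, 0 ≤ h₀ → 2 * τ + ε ≤ L →
        (2 * τ + ε / 2) * h₀ ≤ (1 - η') * h₀ * (L - (1 + C₁) * κ * M) := by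
  have hM1 : 0 < M + 1 := by linarith
  have hC2 : 0 < 1 + C₁ := by linarith
  have hτ1 : 0 < τ + 1 := by linarith
  have hτε : 0 < 2 * τ + ε := by linarith
  obtain ⟨κ, hκd⟩ : ∃ κ : ℝ, κ = min 1 (min (η / 4) (ε / (4 * ((1 + C₁) * (M + 1))))) :=
    ⟨_, rfl⟩
  obtain ⟨ν, hνd⟩ : ∃ ν : ℝ, ν = min 1 (min η (min (η / (4 * (τ + 1)))
    (ε / (4 * (2 * τ + ε))))) := ⟨_, rfl⟩
  have hκ : 0 < κ := by
    rw [hκd]
    positivity
  have hν : 0 < ν := by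
    rw [hνd]
    positivity
  have k1 : κ ≤ 1 := by
    rw [hκd]
    exact min_le_left _ _
  have k2 : κ ≤ η / 4 := by
    rw [hκd]
    exact (min_le_right _ _).trans (min_le_left _ _)
  have k3 : κ ≤ ε / (4 * ((1 + C₁) * (M + 1))) := by
    rw [hκd]
    exact (min_le_right _ _).trans (min_le_right _ _)
  have n1 : ν ≤ 1 := by
    rw [hνd]
    exact min_le_left _ _
  have n2 : ν ≤ η := by
    rw [hνd]
    exact (min_le_right _ _).trans (min_le_left _ _)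
  have n3 : ν ≤ η / (4 * (τ + 1)) := by
    rw [hνd]
    exact (min_le_right _ _).trans ((min_le_right _ _).trans (min_le_left _ _))
  have n4 : ν ≤ ε / (4 * (2 * τ + ε)) := by
    rw [hνd]
    exact (min_le_right _ _).trans ((min_le_right _ _).trans (min_le_right _ _))
  rw [le_div_iff₀ (by positivity)] at k3 n3 n4
  refine ⟨κ, ν, hκ, hν, n1, n2, ?_, fun L h₀ hh₀ hL => ?_⟩
  · have h1 : ν * κ ≤ ν * 1 := mul_le_mul_of_nonneg_left k1 hν.le
    nlinarith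
  · have h1 : (1 + C₁) * κ * M ≤ ε / 4 := by
      have h2 : 0 ≤ (1 + C₁) * κ := by positivity
      nlinarith
    have h2 : 2 * τ + ε - ε / 4 ≤ L - (1 + C₁) * κ * M := by linarith
    have h3 : 0 ≤ 1 - ν := by linarith
    have h4 : 2 * τ + ε / 2 ≤ (1 - ν) * (2 * τ + ε - ε / 4) := by
      have h5 : ν * (2 * τ + ε - ε / 4) ≤ ν * (2 * τ + ε) :=
        mul_le_mul_of_nonneg_left (by linarith) hν.le
      nlinarith
    have h5 : (1 - ν) * (2 * τ + ε - ε / 4) ≤ (1 - ν) * (L - (1 + C₁) * κ * M) :=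
      mul_le_mul_of_nonneg_left h2 h3
    calc (2 * τ + ε / 2) * h₀ ≤ (1 - ν) * (L - (1 + C₁) * κ * M) * h₀ :=
          mul_le_mul_of_nonneg_right (h4.trans h5) hh₀
      _ = (1 - ν) * h₀ * (L - (1 + C₁) * κ * M) := by ring

/-- The main case. -/
theorem S_main {K : Type u} [Field K] [NumberField K] {N : ℕ} (B : AV K N) {H : ℕ → ℝ}
    (hH : Tendsto H (hyperfilter ℕ : Filter ℕ) atTop) (Q : ℕ → B.Pts K) (hQ : FRM B.h H Q)
    (hc : ∃ c : ℝ, 0 < c ∧ ∀ᶠ i in (hyperfilter ℕ : Filter ℕ), c * H i ≤ B.h (Q i))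
    (hC : ∃ C : ℝ, 0 < C ∧ ∀ᶠ i in (hyperfilter ℕ : Filter ℕ), B.h (Q i) ≤ C * H i)
    (b : B.Pts (GK K)) (hb : IsGerm B Q b) {n e : ℕ} (nd : Noe B n e) (hgood : nd.Good b)
    (t : ℕ → K) (ht : ∃ C : ℝ, ∀ᶠ i in (hyperfilter ℕ : Filter ℕ), logHeight₁ (t i) ≤ C * H i)
    (hind : AlgebraicIndependent (k0 K H hH)
      (fun y : Option (Fin n) => y.elim (gm t) (nd.s b)))
    (Sg : Finset (AbsoluteValue K ℝ)) (hS : ∀ v ∈ Sg, Pl v) (D : ℕ)
    (α β : AbsoluteValue K ℝ → ℕ → MvPolynomial (Fin (N + 1)) K)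
    (hαβ : ∀ v ∈ Sg, ∀ᶠ i in (hyperfilter ℕ : Filter ℕ), (α v i).IsHomogeneous D ∧
      (β v i).IsHomogeneous D)
    (hβ0 : ∀ v ∈ Sg, ∀ᶠ i in (hyperfilter ℕ : Filter ℕ), aeval (B.x (Q i)) (β v i) ≠ 0)
    (hht : ∀ v ∈ Sg, oH H fun i => ht2 (α v i) (β v i))
    (htv : ∀ v ∈ Sg, ∃ C : ℝ, ∀ᶠ i in (hyperfilter ℕ : Filter ℕ), v (t i) ≤ C)
    (hβ : ∀ v ∈ Sg, ∀ δ : ℝ, 0 < δ → ∀ᶠ i in (hyperfilter ℕ : Filter ℕ),
      (⨆ a, v (B.x (Q i) a)) ^ D * (max (NV v (α v i)) (NV v (β v i))) * Real.exp (- δ * H i) ≤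
        v (aeval (B.x (Q i)) (β v i)))
    (hprox : ∀ v ∈ Sg, ∀ z : MvPolynomial (Fin n) (k0 K H hH), aeval (nd.s b) z ≠ 0 →
      ∀ a : ℕ → K, gm a = aeval (nd.s b) z → ∀ δ : ℝ, 0 < δ →
      ∀ᶠ i in (hyperfilter ℕ : Filter ℕ), Real.exp (- δ * H i) ≤ v (a i))
    (hchart : ∀ v ∈ Sg, ∀ δ : ℝ, 0 < δ → ∀ᶠ i in (hyperfilter ℕ : Filter ℕ),
      mq v (nd.y (Q i)) ≤ Real.exp (δ * H i))
    (ε : ℝ) (hε : 0 < ε) :
    open Classical in
    ∀ᶠ i in (hyperfilter ℕ : Filter ℕ),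
      gs (fun v : AbsoluteValue K ℝ => if v ∈ Sg then
        - Real.log (min 1 (v (t i - aeval (B.x (Q i)) (α v i) / aeval (B.x (Q i)) (β v i))))
        else 0) ≤ 2 * logHeight₁ (t i) + ε * H i := by
  classical
  by_contra hcon
  rw [not_eventually_iff] at hcon
  have hgoodQ : ∀ᶠ i in (hyperfilter ℕ : Filter ℕ), nd.Good (Q i) := (good_germ nd hb).mp hgood
  obtain ⟨c, hc0, hci⟩ := hc
  obtain ⟨C, hC0, hCi⟩ := hC
  obtain ⟨Ct, hCt⟩ := ht
  obtain ⟨lam, hlam⟩ : ∃ lam : AbsoluteValue K ℝ → ℕ → ℝ, ∀ v i, lam v i =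
      - Real.log (min 1 (v (t i - aeval (B.x (Q i)) (α v i) / aeval (B.x (Q i)) (β v i)))) :=
    ⟨_, fun _ _ => rfl⟩
  simp only [← hlam] at hcon
  have hlam0 : ∀ v i, 0 ≤ lam v i := fun v i => by
    rw [hlam]
    exact S_lam_nonneg v _
  have hpos : ∀ᶠ i in (hyperfilter ℕ : Filter ℕ), 0 < B.h (Q i) := by
    filter_upwards [hci, hH.eventually_gt_atTop 0] with i h1 h2
    exact (mul_pos hc0 h2).trans_le h1
  obtain ⟨τ, cv, hτ, hcv, hlim, hL⟩ := S_gain Sg hS lam hlam0 (fun i => B.h (Q i))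
    (fun i => logHeight₁ (t i)) hpos (fun i => zero_le_logHeight₁ _) (|Ct| / c) (by
      filter_upwards [hCt, hci, hH.eventually_gt_atTop 0] with i h1 h2 h3
      have h4 : Ct * H i ≤ |Ct| * H i := mul_le_mul_of_nonneg_right (le_abs_self _) h3.le
      have h5 := mul_le_mul_of_nonneg_left h2 (abs_nonneg Ct)
      rw [div_mul_eq_mul_div, le_div_iff₀ hc0]
      nlinarith) (ε / C) (by positivity) (by
      filter_upwards [hcon, hCi] with i h1 h2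
      push Not at h1
      have h3 : ε / C * B.h (Q i) ≤ ε * H i := by
        rw [div_mul_eq_mul_div, div_le_iff₀ hC0]
        have := mul_le_mul_of_nonneg_left h2 hε.le
        linarith
      linarith)
  obtain ⟨ε₁, hε₁⟩ : ∃ ε₁ : ℝ, ε₁ = ε / C := ⟨_, rfl⟩
  have hε₁0 : 0 < ε₁ := by
    rw [hε₁]
    positivity
  rw [← hε₁] at hL
  obtain ⟨E, C₁, m, D', R₀, C₀, η, hC₁, hm, hC₀, hη, hSR⟩ :=
    SR B nd Sg.card D τ (ε₁ / 2) hτ (by positivity)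
  obtain ⟨M, hM⟩ : ∃ M : ℝ, M = gs fun v : AbsoluteValue K ℝ => if v ∈ Sg then (1 : ℝ) else 0 :=
    ⟨_, rfl⟩
  have hM0 : 0 ≤ M := by
    rw [hM]
    refine gs_nonneg fun v _ => ?_
    split_ifs
    · exact zero_le_one
    · exact le_rfl
  obtain ⟨κ, η', hκ, hη', hη'1, hη'η, hκτ, hnum⟩ := S_consts hτ hε₁0 hC₁ hM0 hη
  -- independence
  have hsg : (fun y : Option (Fin n) => gm fun i => y.elim (t i) (nd.s (Q i))) =
      fun y : Option (Fin n) => y.elim (gm t) (nd.s b) := by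
    funext y
    rcases y with _ | k
    · rfl
    · exact Z_gm_s nd hb k
  obtain ⟨δ, hδ, hSI⟩ := SI (H := H) (hH := hH)
    (fun i (y : Option (Fin n)) => y.elim (t i) (nd.s (Q i)))
    (fun y : Option (Fin n) => y) Function.injective_id
    (by rw [hsg]; exact hind) D'
  -- the loss
  have hloss : ∀ᶠ i in (hyperfilter ℕ : Filter ℕ), ∀ v ∈ Sg,
      lossP nd E v (Q i) (t i) (α v i) (β v i) ≤ κ * B.h (Q i) := by
    rw [eventually_all_finset]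
    intro v hv
    filter_upwards [S_loss hH hb nd hgood t v D (α v) (β v) ((hαβ v hv).mono fun i h => h.2)
      (htv v hv) (hβ v hv) (hprox v hv) (hchart v hv) E (κ * c) (by positivity), hci]
      with i h1 h2
    have h3 := mul_le_mul_of_nonneg_left h2 hκ.le
    linarith
  -- the heights of the targets
  obtain ⟨hh, hhd⟩ : ∃ hh : ℕ → ℝ, ∀ i, hh i = ∑ v ∈ Sg, max 0 (ht2 (α v i) (β v i)) :=
    ⟨_, fun _ => rfl⟩
  have hhoH : oH H hh := by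
    rw [show hh = fun i => ∑ v ∈ Sg, max 0 (ht2 (α v i) (β v i)) from funext hhd]
    exact oH.sum hH Sg _ fun v hv => FA8_oH_max (oH_const hH 0) (hht v hv)
  have hhom : ∀ᶠ i in (hyperfilter ℕ : Filter ℕ), ∀ v ∈ Sg,
      ((α v i).IsHomogeneous D ∧ (β v i).IsHomogeneous D) ∧
        aeval (B.x (Q i)) (β v i) ≠ 0 := by
    rw [eventually_all_finset]
    exact fun v hv => (hαβ v hv).and (hβ0 v hv)
  obtain ⟨a₀, b₀, j, -, hSb, hCa, hpa, hR1, hR2, hhj, h4j, hpt, hcone⟩ := hQ hh hhoH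
    (fun i => nd.Good (Q i) ∧ 0 < B.h (Q i) ∧ (logHeight₁ (t i) ≤ (τ + κ) * B.h (Q i) ∧
        ∀ v ∈ Sg, (cv v - κ) * B.h (Q i) ≤ lam v i) ∧
      (∀ v ∈ Sg, lossP nd E v (Q i) (t i) (α v i) (β v i) ≤ κ * B.h (Q i)) ∧
      (∀ v ∈ Sg, ((α v i).IsHomogeneous D ∧ (β v i).IsHomogeneous D) ∧
        aeval (B.x (Q i)) (β v i) ≠ 0) ∧
      B.h (Q i) ≤ C * H i ∧
      ∀ G : MvPolynomial (Option (Fin n)) K, G ≠ 0 →
        (∀ y, y ∉ Set.range (fun y : Option (Fin n) => y) → G.degreeOf y = 0) →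
        (∀ y, G.degreeOf y ≤ D') → nh G ≤ δ * H i →
        eval (fun y : Option (Fin n) => y.elim (t i) (nd.s (Q i))) G ≠ 0)
    (hgoodQ.and (hpos.and ((hlim κ hκ).and (hloss.and (hhom.and (hCi.and hSI))))))
    m R₀ (max C₀ (2 * C * C₀ / δ)) η' hη'
  -- the places
  obtain ⟨pl, hpl⟩ : ∃ pl : Fin Sg.card → AbsoluteValue K ℝ, ∀ l,
      pl l = (Sg.equivFin.symm l : AbsoluteValue K ℝ) := ⟨_, fun _ => rfl⟩
  have hplS : ∀ l, pl l ∈ Sg := fun l => by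
    rw [hpl]
    exact (Sg.equivFin.symm l).2
  have hpl2 : ∀ v ∈ Sg, ∃ l, pl l = v := fun v hv =>
    ⟨Sg.equivFin ⟨v, hv⟩, by rw [hpl, Equiv.symm_apply_apply]⟩
  have hlow : ∀ i, (1 - η') * (4 ^ j i * B.h (Q a₀)) ≤ B.h (Q (b₀ i)) := by
    intro i
    have h1 := (abs_le.1 (hcone i)).1
    linarith
  have hupp : ∀ i, B.h (Q (b₀ i)) ≤ (1 + η') * (4 ^ j i * B.h (Q a₀)) := by
    intro i
    have h1 := (abs_le.1 (hcone i)).2
    linarith
  have h4h : ∀ i, 0 ≤ 4 ^ j i * B.h (Q a₀) := fun i => mul_nonneg (by positivity) hpa.le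
  obtain ⟨i, G, hG0, hGd, hGn, hGe⟩ := hSR (Q a₀) (fun i => Q (b₀ i)) j (fun i => t (b₀ i))
    (fun i l => α (pl l) (b₀ i)) (fun i l => β (pl l) (b₀ i)) hR1 hR2
    (fun i => (hSb i).1)
    (fun i l => by
      obtain ⟨g1, g2⟩ := (hSb i).2.2.2.2.1 (pl l) (hplS l)
      refine ⟨g1.1, g1.2, g2, le_trans ?_ (hhj i)⟩
      rw [hhd]
      exact (le_max_right _ _).trans (Finset.single_le_sum
        (f := fun v => max 0 (ht2 (α v (b₀ i)) (β v (b₀ i)))) (fun v _ => le_max_left _ _)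
        (hplS l)))
    ((le_max_left _ _).trans hCa)
    (fun i => (hpt i).trans (mul_le_mul_of_nonneg_right hη'η (h4h i)))
    (fun i => (hcone i).trans (mul_le_mul_of_nonneg_right hη'η (h4h i)))
    (fun i => by
      refine (hSb i).2.2.1.1.trans ?_
      have h1 := mul_le_mul_of_nonneg_left (hupp i) (show 0 ≤ τ + κ by linarith)
      have h2 := mul_le_mul_of_nonneg_right hκτ (h4h i)
      calc (τ + κ) * B.h (Q (b₀ i)) ≤ (τ + κ) * ((1 + η') * (4 ^ j i * B.h (Q a₀))) := h1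
        _ = (τ + κ) * (1 + η') * (4 ^ j i * B.h (Q a₀)) := by ring
        _ ≤ _ := h2)
    (by
      obtain ⟨L, hLd⟩ : ∃ L : ℝ, L = gs fun v : AbsoluteValue K ℝ => if v ∈ Sg then cv v else 0 :=
        ⟨_, rfl⟩
      rw [← hLd] at hL
      refine (hnum L (B.h (Q a₀)) hpa.le hL).trans ?_
      have e1 : gs (fun v : AbsoluteValue K ℝ => (1 - η') * B.h (Q a₀) *
          ((if v ∈ Sg then cv v else 0) + (-((1 + C₁) * κ)) * if v ∈ Sg then (1 : ℝ) else 0)) =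
          (1 - η') * B.h (Q a₀) * (L - (1 + C₁) * κ * M) := by
        rw [gs_const_mul, gs_add (S_FS_ite Sg cv)
          (FS_const_mul _ (S_FS_ite Sg fun _ => (1 : ℝ))), gs_const_mul, ← hLd, ← hM]
        ring
      rw [← e1]
      refine gs_le (FS_const_mul _ (FS_add (S_FS_ite Sg cv)
          (FS_const_mul _ (S_FS_ite Sg fun _ => (1 : ℝ))))) (S_FS_tg nd E hC₁ hm j _ _ _ _)
        fun v _ => ?_
      by_cases hv : v ∈ Sg
      · rw [if_pos hv, if_pos hv]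
        obtain ⟨l, hl⟩ := hpl2 v hv
        have h1 := S_le_tg nd E hC₁ hm j (fun i => Q (b₀ i)) (fun i => t (b₀ i))
          (fun i l => α (pl l) (b₀ i)) (fun i l => β (pl l) (b₀ i)) v l D
          (fun i => (hSb i).1) (fun i => ((hSb i).2.2.2.2.1 (pl l) (hplS l)).1)
          (h₀ := B.h (Q a₀)) (c := cv v) (κ := κ) (η := η') hpa.le hκ.le hη'1 hlow
          (fun i => (hSb i).2.1)
          (fun i => by
            show lossP nd E v (Q (b₀ i)) (t (b₀ i)) (α (pl l) (b₀ i)) (β (pl l) (b₀ i)) ≤ _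
            rw [hl]
            exact (hSb i).2.2.2.1 v hv)
          (fun i => by
            show _ ≤ - Real.log (min 1 (v (t (b₀ i) - aeval (B.x (Q (b₀ i))) (α (pl l) (b₀ i)) /
              aeval (B.x (Q (b₀ i))) (β (pl l) (b₀ i)))))
            rw [hl, ← hlam]
            exact (hSb i).2.2.1.2 v hv)
        refine le_trans (le_of_eq ?_) h1
        ring
      · rw [if_neg hv, if_neg hv, mul_zero, add_zero, mul_zero]
        exact S_tg_nonneg nd E C₁ j _ _ _ _ v)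
  refine (hSb i).2.2.2.2.2.2 G hG0 (fun y hy => absurd ⟨y, rfl⟩ hy) hGd ?_ hGe
  refine hGn.trans ?_
  have h1 : 2 * C * C₀ / δ ≤ B.h (Q a₀) := (le_max_right _ _).trans hCa
  rw [div_le_iff₀ hδ] at h1
  have h2 : (4 : ℝ) ^ j i * B.h (Q a₀) ≤ 2 * (C * H (b₀ i)) :=
    (h4j i).trans (mul_le_mul_of_nonneg_left (hSb i).2.2.2.2.2.1 (by norm_num))
  have h3 : (0 : ℝ) < 4 ^ j i := by positivity
  have h4 := mul_le_mul_of_nonneg_left h1 h3.le
  have h5 := mul_le_mul_of_nonneg_left h2 hδ.le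
  have h6 : C * (C₀ * 4 ^ j i) ≤ C * (δ * H (b₀ i)) := by nlinarith
  exact le_of_mul_le_mul_left h6 hC0

end Pool.Agent.Lib.MP_17a322_nt.VP
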