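import Pool.Agent.Lib.MP_17a322_nt.VP.S2
import Pool.Agent.Lib.MP_17a322_nt.VA.A5

/-!
The target at `W + Q` as a function of `Q`.
-/

universe u

namespace Pool.Agent.Lib.MP_17a322_nt.VP

open MvPolynomial Height Filter
open Pool.Agent.Lib.MP_17a322_nt.RO
open Pool.Agent.Lib.MP_17a322_nt.VJ
open Pool.Agent.Lib.MP_17a322_nt.VN hiding lf
open Pool.Agent.Lib.MP_17a322_nt.VA

section

variable {K : Type u} [Field K] {N : ℕ} (A : AV K N)

/-- The form `α` at the row `b₁` of the forms for the sum and the difference. -/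
noncomputable def S_big (b₁ : Fin (N + 1)) (α : MvPolynomial (Fin (N + 1)) K) :
    MvPolynomial (Fin (N + 1) ⊕ Fin (N + 1)) K :=
  aeval (fun a => A.S a b₁) α

/-- The form `Q ↦ α (W + Q)`; `y` are coordinates of `W`. -/
noncomputable def S_tw (y : Fin (N + 1) → K) (b₁ : Fin (N + 1))
    (α : MvPolynomial (Fin (N + 1)) K) : MvPolynomial (Fin (N + 1)) K :=
  aeval (Sum.elim (fun i => C (y i)) X) (S_big A b₁ α)

theorem S_tw_eq (y : Fin (N + 1) → K) (b₁ : Fin (N + 1)) (α : MvPolynomial (Fin (N + 1)) K) :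
    S_tw A y b₁ α = aeval (fun a => aeval (R := K) (Sum.elim (fun i => C (y i)) X :
      Fin (N + 1) ⊕ Fin (N + 1) → MvPolynomial (Fin (N + 1)) K) (A.S a b₁)) α := by
  unfold S_tw S_big
  exact comp_aeval_apply (fun a => A.S a b₁) (aeval (R := K) (Sum.elim (fun i => C (y i)) X :
      Fin (N + 1) ⊕ Fin (N + 1) → MvPolynomial (Fin (N + 1)) K)) α

theorem S_tw_aeval (y x : Fin (N + 1) → K) (b₁ : Fin (N + 1))
    (α : MvPolynomial (Fin (N + 1)) K) :
    aeval x (S_tw A y b₁ α) = aeval (fun a => aeval (Sum.elim y x) (A.S a b₁)) α := by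
  rw [S_tw_eq, comp_aeval_apply]
  congr 2
  funext a
  rw [comp_aeval_apply]
  congr 2
  funext i
  rcases i with i | i
  · show aeval x (C (y i)) = y i
    rw [aeval_C]
    rfl
  · show aeval x (X i) = x i
    rw [aeval_X]

theorem S_row_hom (y : Fin (N + 1) → K) (a b₁ : Fin (N + 1)) :
    (aeval (R := K) (Sum.elim (fun i => C (y i)) X :
      Fin (N + 1) ⊕ Fin (N + 1) → MvPolynomial (Fin (N + 1)) K) (A.S a b₁)).IsHomogeneous 2 := by
  rw [aeval_def, eval₂_eq']
  refine IsHomogeneous.sum _ _ _ fun m hm => ?_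
  have h1 := (A.bihomog a b₁ m hm).2
  rw [Fintype.prod_sum_type]
  have h2 : (∏ i, (Sum.elim (fun i => C (y i)) X (Sum.inl i) :
      MvPolynomial (Fin (N + 1)) K) ^ m (Sum.inl i)).IsHomogeneous 0 := by
    have h3 := IsHomogeneous.prod Finset.univ (fun i => (Sum.elim (fun i => C (y i)) X (Sum.inl i) :
      MvPolynomial (Fin (N + 1)) K) ^ m (Sum.inl i)) (fun _ => 0) fun i _ => by
        have h4 := (isHomogeneous_C (Fin (N + 1)) (y i)).pow (m (Sum.inl i))
        rw [zero_mul] at h4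
        exact h4
    rwa [Finset.sum_const_zero] at h3
  have h3 : (∏ i, (Sum.elim (fun i => C (y i)) X (Sum.inr i) :
      MvPolynomial (Fin (N + 1)) K) ^ m (Sum.inr i)).IsHomogeneous 2 := by
    have h4 := IsHomogeneous.prod Finset.univ (fun i => (Sum.elim (fun i => C (y i)) X (Sum.inr i) :
      MvPolynomial (Fin (N + 1)) K) ^ m (Sum.inr i)) (fun i => m (Sum.inr i)) fun i _ => by
        have h4 := (isHomogeneous_X K i).pow (m (Sum.inr i))
        rw [one_mul] at h4
        exact h4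
    rwa [h1] at h4
  have h4 := (isHomogeneous_C (Fin (N + 1)) (coeff m (A.S a b₁))).mul (h2.mul h3)
  rwa [zero_add, zero_add] at h4

theorem S_tw_hom (y : Fin (N + 1) → K) (b₁ : Fin (N + 1)) {D : ℕ}
    {α : MvPolynomial (Fin (N + 1)) K} (hα : α.IsHomogeneous D) :
    (S_tw A y b₁ α).IsHomogeneous (2 * D) := by
  rw [S_tw_eq]
  exact hα.aeval _ fun a => S_row_hom A y a b₁

theorem S_tw_smul (c : K) (y : Fin (N + 1) → K) (b₁ : Fin (N + 1)) {D : ℕ}
    {α : MvPolynomial (Fin (N + 1)) K} (hα : α.IsHomogeneous D) :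
    S_tw A (fun i => c * y i) b₁ α = C (c ^ (2 * D)) * S_tw A y b₁ α := by
  rw [S_tw_eq, S_tw_eq]
  have h1 : ∀ a, aeval (R := K) (Sum.elim (fun i => C (c * y i)) X :
      Fin (N + 1) ⊕ Fin (N + 1) → MvPolynomial (Fin (N + 1)) K) (A.S a b₁) =
      (C c : MvPolynomial (Fin (N + 1)) K) ^ 2 * aeval (R := K) (Sum.elim (fun i => C (y i)) X :
      Fin (N + 1) ⊕ Fin (N + 1) → MvPolynomial (Fin (N + 1)) K) (A.S a b₁) := by
    intro a
    have h2 := A.S_smul a b₁ (C c : MvPolynomial (Fin (N + 1)) K) 1 (fun i => C (y i)) X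
    rw [one_pow, mul_one] at h2
    rw [← h2]
    congr 2
    funext i
    rcases i with i | i
    · show C (c * y i) = C c * C (y i)
      rw [C_mul]
    · show X i = 1 * X i
      rw [one_mul]
  simp only [h1]
  rw [Z_aeval_smul hα, ← pow_mul, C_pow]

theorem S_tw_NV (v : AbsoluteValue K ℝ) (y : Fin (N + 1) → K) (hy : y ≠ 0) (b₁ : Fin (N + 1))
    {D : ℕ} {α : MvPolynomial (Fin (N + 1)) K} (hα : α.IsHomogeneous D) :
    NV v (S_tw A y b₁ α) ≤ vm v y ^ (2 * D) * NV v (S_big A b₁ α) := by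
  classical
  obtain ⟨i, c, z, hc, hcv, hz, hzi, hz1, -, hzz⟩ := exists_normal v hy
  have h1 : S_tw A y b₁ α = C (c ^ (2 * D)) * S_tw A z b₁ α := by
    rw [← S_tw_smul A c z b₁ hα]
    congr 1
    funext i
    exact hz i
  rw [h1, NV_C_mul, map_pow, hcv]
  refine mul_le_mul_of_nonneg_left ?_ (pow_nonneg (vm_nonneg v y) _)
  have h2 := (SN_NV v (σ := Fin (N + 1))).aeval_le (S_big A b₁ α)
    (fun t => (S_big A b₁ α).degreeOf t) (fun _ => le_rfl)
    (Sum.elim (fun i => C (z i)) X : Fin (N + 1) ⊕ Fin (N + 1) → MvPolynomial (Fin (N + 1)) K)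
  refine h2.trans (le_of_eq ?_)
  rw [Finset.prod_eq_one, mul_one]
  intro t _
  have h3 : max 1 (NV v (Sum.elim (fun i => C (z i)) X t : MvPolynomial (Fin (N + 1)) K)) = 1 := by
    refine max_eq_left ?_
    rcases t with t | t
    · show NV v (C (z t)) ≤ 1
      rw [NV_C]
      exact hz1 t
    · show NV v (X t) ≤ 1
      rw [NV_X]
  show max 1 (NV v (Sum.elim (fun i => C (z i)) X t : MvPolynomial (Fin (N + 1)) K)) ^ _ = 1
  rw [h3, one_pow]

end

/-- Finite support of the local heights of a pair of polynomials. -/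
theorem S_FS_log_max_NV {K : Type*} [Field K] [AdmissibleAbsValues K] {σ : Type*}
    (F G : MvPolynomial σ K) (hG : G ≠ 0) :
    FS fun v => Real.log (max (NV v F) (NV v G)) := by
  by_cases hF : F = 0
  · subst hF
    have h1 : ∀ v : AbsoluteValue K ℝ, max (NV v (0 : MvPolynomial σ K)) (NV v G) = NV v G := by
      intro v
      have h2 : NV v (0 : MvPolynomial σ K) = 0 := A2_zero v
      rw [h2]
      exact max_eq_right (A2_nonneg v G)
    simp only [h1]
    exact FS_log_NV hG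
  · refine ((FS_log_NV hF).union (FS_log_NV hG)).subset fun v hv => ?_
    by_contra hc
    rw [Set.mem_union, not_or] at hc
    obtain ⟨h1, h2⟩ := hc
    have h1' : NV v.val F = 1 := Real.eq_one_of_pos_of_log_eq_zero (NV_pos v.val hF) (by
      by_contra h
      exact h1 h)
    have h2' : NV v.val G = 1 := Real.eq_one_of_pos_of_log_eq_zero (NV_pos v.val hG) (by
      by_contra h
      exact h2 h)
    exact hv (by simp only [h1', h2', max_self, Real.log_one])

/-- The height of the target. -/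
theorem S_ht2_tw {K : Type u} [Field K] [NumberField K] {N : ℕ} (A : AV K N)
    (W : A.Pts K) (b₁ : Fin (N + 1)) {D : ℕ} {α β : MvPolynomial (Fin (N + 1)) K}
    (hα : α.IsHomogeneous D) (hβ : β.IsHomogeneous D) (h0 : S_tw A (A.x W) b₁ β ≠ 0) :
    ht2 (S_tw A (A.x W) b₁ α) (S_tw A (A.x W) b₁ β) ≤
      2 * D * A.h W + (nh1 (S_big A b₁ α) + nh1 (S_big A b₁ β)) := by
  have hW : A.x W ≠ 0 := Z_x_ne A W
  have h1 : gs (fun v : AbsoluteValue K ℝ => (2 * D : ℝ) * Real.log (⨆ i, v (A.x W i)) +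
      (Real.log (max 1 (NV v (S_big A b₁ α))) + Real.log (max 1 (NV v (S_big A b₁ β))))) =
      2 * D * A.h W + (nh1 (S_big A b₁ α) + nh1 (S_big A b₁ β)) := by
    rw [gs_add (FS_const_mul _ (FS_log_iSup hW)) (FS_add (FS_nh1 _) (FS_nh1 _)), gs_const_mul,
      gs_log_iSup hW, gs_add (FS_nh1 _) (FS_nh1 _)]
    rfl
  rw [← h1]
  unfold ht2
  refine gs_le (S_FS_log_max_NV _ _ h0)
    (FS_add (FS_const_mul _ (FS_log_iSup hW)) (FS_add (FS_nh1 _) (FS_nh1 _))) fun v _ => ?_
  have hv : 0 < vm v (A.x W) := vm_pos v hW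
  have h2 : 0 < max 1 (NV v (S_big A b₁ α)) := lt_max_of_lt_left one_pos
  have h3 : 0 < max 1 (NV v (S_big A b₁ β)) := lt_max_of_lt_left one_pos
  have h4 : max (NV v (S_tw A (A.x W) b₁ α)) (NV v (S_tw A (A.x W) b₁ β)) ≤
      vm v (A.x W) ^ (2 * D) *
        (max 1 (NV v (S_big A b₁ α)) * max 1 (NV v (S_big A b₁ β))) := by
    refine max_le ((S_tw_NV A v _ hW b₁ hα).trans ?_) ((S_tw_NV A v _ hW b₁ hβ).trans ?_)
    · refine mul_le_mul_of_nonneg_left ?_ (pow_nonneg hv.le _)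
      exact (le_max_right 1 _).trans (le_mul_of_one_le_right h2.le (le_max_left _ _))
    · refine mul_le_mul_of_nonneg_left ?_ (pow_nonneg hv.le _)
      exact (le_max_right 1 _).trans (le_mul_of_one_le_left h3.le (le_max_left _ _))
  have h5 : 0 < max (NV v (S_tw A (A.x W) b₁ α)) (NV v (S_tw A (A.x W) b₁ β)) :=
    (NV_pos v h0).trans_le (le_max_right _ _)
  have h6 := Real.log_le_log h5 h4
  rw [Real.log_mul (pow_pos hv _).ne' (mul_pos h2 h3).ne', Real.log_pow,
    Real.log_mul h2.ne' h3.ne'] at h6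
  have h7 : vm v (A.x W) = ⨆ i, v (A.x W i) := rfl
  rw [← h7]
  push_cast at h6
  exact h6

end Pool.Agent.Lib.MP_17a322_nt.VP
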