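import Pool.Agent.Lib.MP_17a322_nt.VP.S4
import Pool.Agent.Lib.MP_17a322_nt.VP.S8

/-!
Case (c): `t` is transcendental over `k0(s(b))`.
-/

universe u

namespace Pool.Agent.Lib.MP_17a322_nt.VP

open MvPolynomial Height Filter
open Pool.Agent.Lib.MP_17a322_nt.RO
open Pool.Agent.Lib.MP_17a322_nt.VJ
open Pool.Agent.Lib.MP_17a322_nt.VN hiding lf
open Pool.Agent.Lib.MP_17a322_nt.VA

/-- `t` is transcendental over `k0(s(b))`. -/
theorem case_c {K : Type u} [Field K] [NumberField K] {N : ℕ} (A B : AV K N) (hB : IsSubAV B A)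
    {H : ℕ → ℝ} (hH : Tendsto H (hyperfilter ℕ : Filter ℕ) atTop)
    (P : ℕ → A.Pts K) (p : A.Pts (GK K)) (hPp : IsGerm A P p)
    (W : ℕ → A.Pts K) (w : A.Pts (k0 K H hH)) (w' : A.Pts (GK K))
    (hw : A.Img (k0 K H hH).val w w') (hW : IsGerm A W w')
    (Q : ℕ → B.Pts K) (b : B.Pts (GK K)) (hQb : IsGerm B Q b)
    (hrel : p = w' + hB.inc (GK K) b)
    (hrelK : ∀ᶠ i in (hyperfilter ℕ : Filter ℕ), P i = W i + hB.inc K (Q i))
    (hfrm : FRM B.h H Q)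
    (hc : ∃ c : ℝ, 0 < c ∧ ∀ᶠ i in (hyperfilter ℕ : Filter ℕ), c * H i ≤ B.h (Q i))
    (hC : ∃ C : ℝ, 0 < C ∧ ∀ᶠ i in (hyperfilter ℕ : Filter ℕ), B.h (Q i) ≤ C * H i)
    {n : ℕ} (hdim : B.dimIs n) {s : ℕ} (e : Fin s → ℕ) (nd : ∀ c, Noe B n (e c)) (κ : SC K)
    (hcov : ∀ (L : Type u) [Field L] [Algebra K L] (v : AbsoluteValue L ℝ) (P : B.Pts L),
      ∃ c, (nd c).In κ v P)
    (hgood : ∀ c, (nd c).Good b) (hnr : NoRat B hH b)
    (hind : ∀ c, AlgebraicIndependent (k0 K H hH) ((nd c).s b))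
    (t : ℕ → K) (ht : ∃ C : ℝ, ∀ᶠ i in (hyperfilter ℕ : Filter ℕ), logHeight₁ (t i) ≤ C * H i)
    (hta : ∀ c, ¬ IsAlgebraic (Algebra.adjoin (k0 K H hH) (Set.range ((nd c).s b))) (gm t))
    (Sg : Finset (AbsoluteValue K ℝ)) (hS : ∀ v ∈ Sg, Pl v) (D : ℕ)
    (α β : AbsoluteValue K ℝ → MvPolynomial (Fin (N + 1)) K)
    (hαβ : ∀ v ∈ Sg, (α v).IsHomogeneous D ∧ (β v).IsHomogeneous D ∧ β v ∉ A.I)
    (hβ : ∀ v ∈ Sg, ∀ δ : ℝ, 0 < δ → ∀ᶠ i in (hyperfilter ℕ : Filter ℕ),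
      (⨆ a, v (A.x (P i) a)) ^ D * Real.exp (- δ * H i) ≤ v (aeval (A.x (P i)) (β v)))
    (htv : ∀ v ∈ Sg, ∃ C : ℝ, ∀ᶠ i in (hyperfilter ℕ : Filter ℕ), v (t i) ≤ C)
    (ε : ℝ) (hε : 0 < ε) :
    open Classical in
    ∀ᶠ i in (hyperfilter ℕ : Filter ℕ),
      gs (fun v : AbsoluteValue K ℝ => if v ∈ Sg then - Real.log (min 1 (v (t i -
        aeval (A.x (P i)) (α v) / aeval (A.x (P i)) (β v)))) else 0) ≤
        2 * logHeight₁ (t i) + ε * H i := by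
  classical
  -- one chart
  obtain ⟨v₀⟩ : Nonempty (NumberField.InfinitePlace K) := inferInstance
  obtain ⟨c₀, -⟩ := hcov K v₀.val (0 : B.Pts K)
  obtain ⟨κS, hκS⟩ := A.S_lower
  -- the column at each place
  have hcol : ∀ v : AbsoluteValue K ℝ, ∃ b₁ : Fin (N + 1),
      ∀ᶠ i in (hyperfilter ℕ : Filter ℕ),
        ∀ b, v (A.x (W i - hB.inc K (Q i)) b) ≤ v (A.x (W i - hB.inc K (Q i)) b₁) := by
    intro v
    refine eventually_exists_fintype _ _ (Eventually.of_forall fun i => ?_)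
    exact Finite.exists_max fun b => v (A.x (W i - hB.inc K (Q i)) b)
  choose b₁ hb₁ using hcol
  have hoH := Z_oH_of_img hH hW hw
  -- the values
  have hval : ∀ v ∈ Sg, ∀ᶠ i in (hyperfilter ℕ : Filter ℕ), ∃ c : K, c ≠ 0 ∧
      ∀ (D : ℕ) (f : MvPolynomial (Fin (N + 1)) K), f.IsHomogeneous D →
        aeval (B.x (Q i)) (S_tw A (A.x (W i)) (b₁ v) f) = c ^ D * aeval (A.x (P i)) f := by
    intro v _
    filter_upwards [hb₁ v, hrelK] with i g1 g2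
    obtain ⟨c, hc, h1, -⟩ := S_pt hB hκS (W i) (Q i) v (b₁ v) g1
    rw [← g2] at h1
    exact ⟨c, hc, h1⟩
  have hβP : ∀ v ∈ Sg, ∀ᶠ i in (hyperfilter ℕ : Filter ℕ), aeval (A.x (P i)) (β v) ≠ 0 := by
    intro v hv
    filter_upwards [hβ v hv 1 one_pos] with i h1 h0
    rw [h0, map_zero] at h1
    have h2 : 0 < ⨆ a, v (A.x (P i) a) := vm_pos v (Z_x_ne A (P i))
    have h3 : 0 < (⨆ a, v (A.x (P i) a)) ^ D * Real.exp (-1 * H i) :=
      mul_pos (pow_pos h2 D) (Real.exp_pos _)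
    linarith
  have hβQ : ∀ v ∈ Sg, ∀ᶠ i in (hyperfilter ℕ : Filter ℕ),
      aeval (B.x (Q i)) (S_tw A (A.x (W i)) (b₁ v) (β v)) ≠ 0 := by
    intro v hv
    filter_upwards [hβP v hv, hval v hv] with i g1 g2
    obtain ⟨c, hc, h1⟩ := g2
    rw [h1 D _ (hαβ v hv).2.1]
    exact mul_ne_zero (pow_ne_zero _ hc) g1
  have hmain := S_main B hH Q hfrm hc hC b hQb (nd c₀) (hgood c₀) t ht
    (by
      rw [AlgebraicIndependent.option_iff_transcendental (hind c₀)]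
      exact hta c₀)
    Sg hS (2 * D) (fun v i => S_tw A (A.x (W i)) (b₁ v) (α v))
    (fun v i => S_tw A (A.x (W i)) (b₁ v) (β v))
    (fun v hv => Eventually.of_forall fun i =>
      ⟨S_tw_hom A _ _ (hαβ v hv).1, S_tw_hom A _ _ (hαβ v hv).2.1⟩)
    hβQ
    (fun v hv => by
      have h1 : oH H fun i => (2 * D : ℝ) * A.h (W i) +
          (nh1 (S_big A (b₁ v) (α v)) + nh1 (S_big A (b₁ v) (β v))) :=
        (hoH.const_mul hH (by positivity)).add (oH_const hH _)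
      refine h1.mono ?_
      filter_upwards [hβQ v hv] with i g1
      refine S_ht2_tw A (W i) (b₁ v) (hαβ v hv).1 (hαβ v hv).2.1 fun h0 => ?_
      rw [h0, map_zero] at g1
      exact g1 rfl)
    htv
    (fun v hv δ hδ => S_hbeta hB hH hκS W Q v (b₁ v) (hb₁ v) (hαβ v hv).1 (hαβ v hv).2.1
      (fun δ' hδ' => by
        filter_upwards [hβ v hv δ' hδ', hrelK] with i g1 g2
        rw [← g2]
        exact g1) δ hδ)
    (fun v hv => by
      obtain ⟨c, hc'⟩ := eventually_exists_fintype _ _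
        (Eventually.of_forall fun i => hcov K v (Q i))
      have hnp := fun (y : ℕ → K) (hy : gm y ≠ 0) (hyb : P_vb H v y)
        (hya : IsAlgebraic (Algebra.adjoin (k0 K H hH) (Set.range ((nd c).s b))) (gm y))
        (ε : ℝ) (hε : 0 < ε) => P_prox B hH Q hfrm hc hC b hQb hdim (nd c) κ (hgood c) hnr
          (hS v hv) hc' y hy hyb hya ε hε
      exact fun z hz a ha δ hδ => P_hprox B hH Q b hQb (nd c) (hgood c).1 (hS v hv) hnp (nd c₀)
        (P_vb_y' B hH Q b hQb (nd c) κ (hgood c).1 (hS v hv) hc' hnp (nd c₀) (hgood c₀).1)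
        z hz a ha δ hδ)
    (fun v hv => by
      obtain ⟨c, hc'⟩ := eventually_exists_fintype _ _
        (Eventually.of_forall fun i => hcov K v (Q i))
      have hnp := fun (y : ℕ → K) (hy : gm y ≠ 0) (hyb : P_vb H v y)
        (hya : IsAlgebraic (Algebra.adjoin (k0 K H hH) (Set.range ((nd c).s b))) (gm y))
        (ε : ℝ) (hε : 0 < ε) => P_prox B hH Q hfrm hc hC b hQb hdim (nd c) κ (hgood c) hnr
          (hS v hv) hc' y hy hyb hya ε hε
      exact fun δ hδ => P_hchart (nd c₀) hH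
        (P_vb_y' B hH Q b hQb (nd c) κ (hgood c).1 (hS v hv) hc' hnp (nd c₀) (hgood c₀).1) δ hδ)
    ε hε
  have hall : ∀ᶠ i in (hyperfilter ℕ : Filter ℕ), ∀ v ∈ Sg, ∃ c : K, c ≠ 0 ∧
      ∀ (D : ℕ) (f : MvPolynomial (Fin (N + 1)) K), f.IsHomogeneous D →
        aeval (B.x (Q i)) (S_tw A (A.x (W i)) (b₁ v) f) = c ^ D * aeval (A.x (P i)) f :=
    (eventually_all_finset Sg).2 hval
  filter_upwards [hmain, hall] with i g1 g2
  refine le_trans (le_of_eq ?_) g1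
  congr 1
  funext v
  by_cases hv : v ∈ Sg
  · rw [if_pos hv, if_pos hv]
    obtain ⟨c, hc, h1⟩ := g2 v hv
    rw [h1 D _ (hαβ v hv).1, h1 D _ (hαβ v hv).2.1, mul_div_mul_left _ _ (pow_ne_zero _ hc)]
  · rw [if_neg hv, if_neg hv]

end Pool.Agent.Lib.MP_17a322_nt.VP
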